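import Pool.Agent.SC70.TNum

set_option autoImplicit false

open MeasureTheory Measure Metric Set Module ENNReal

namespace SA70

open SC70

lemma h27_kap_ge {n : ℕ} (hn : 1 ≤ n) :
    kap (n + 1) * (((n : ℝ) + 2) / √(2 * Real.pi * ((n : ℝ) + 3))) ≤ kap n := by
  rw [kap_formula hn, kap_formula (n := n + 1) (by omega)]
  have ha : (0 : ℝ) < (n : ℝ) / 2 + 1 := by positivity
  have h := gamma_half_le ((n : ℝ) / 2 + 1 + 1 / 2) (by positivity)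
  have hG : 0 < Real.Gamma ((n : ℝ) / 2 + 1) := Real.Gamma_pos_of_pos ha
  have e1 : (((n + 1 : ℕ) : ℝ)) / 2 + 1 = (n : ℝ) / 2 + 1 + 1 / 2 := by push_cast; ring
  have e0 : (n : ℝ) / 2 + 1 + 1 / 2 + 1 / 2 = ((n : ℝ) / 2 + 1) + 1 := by ring
  rw [e0, Real.Gamma_add_one ha.ne'] at h
  rw [e1]
  have hG2 : 0 < Real.Gamma ((n : ℝ) / 2 + 1 + 1 / 2) := Real.Gamma_pos_of_pos (by positivity)
  have hs : √(2 * Real.pi * ((n : ℝ) + 3)) = 2 * (√Real.pi * √((n : ℝ) / 2 + 1 + 1 / 2)) := by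
    have h4 : (2 : ℝ) = √4 := by
      rw [show (4 : ℝ) = 2 ^ 2 by norm_num, Real.sqrt_sq (by norm_num)]
    rw [← Real.sqrt_mul Real.pi_pos.le]
    conv_rhs => rw [h4]
    rw [← Real.sqrt_mul (by norm_num)]
    congr 1
    ring
  have hp : 0 < √Real.pi := Real.sqrt_pos.mpr Real.pi_pos
  have hq : 0 < √((n : ℝ) / 2 + 1 + 1 / 2) := Real.sqrt_pos.mpr (by positivity)
  rw [hs, pow_succ, div_mul_div_comm, div_le_div_iff₀ (by positivity) hG]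
  have hP : 0 ≤ √Real.pi ^ n * √Real.pi * 2 := by positivity
  calc √Real.pi ^ n * √Real.pi * ((n : ℝ) + 2) * Real.Gamma ((n : ℝ) / 2 + 1)
      = √Real.pi ^ n * √Real.pi * 2 * (((n : ℝ) / 2 + 1) * Real.Gamma ((n : ℝ) / 2 + 1)) := by ring
    _ ≤ √Real.pi ^ n * √Real.pi * 2 * (√((n : ℝ) / 2 + 1 + 1 / 2) *
          Real.Gamma ((n : ℝ) / 2 + 1 + 1 / 2)) := mul_le_mul_of_nonneg_left h hP
    _ = _ := by ring

theorem sausage_ge : ∃ d₀ : ℕ, ∀ n : ℕ, d₀ ≤ n → 48 / 100 * kap (n + 1) ≤ 2 * (kap n * Mn n) := by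
  refine ⟨1, fun n hn => ?_⟩
  have h1 := h27_kap_ge hn
  have h2 := Mn_ge hn
  have hk := kap_nonneg (n + 1)
  have hπ := Real.pi_pos
  have he := Real.exp_pos 1
  obtain ⟨G, hG⟩ : ∃ G : ℝ, G = (((n : ℝ) + 2) / √(2 * Real.pi * ((n : ℝ) + 3))) *
      (1 / √(Real.exp 1 * ((n : ℝ) + 1))) := ⟨_, rfl⟩
  have hG0 : 0 < G := by rw [hG]; positivity
  have hlow : kap (n + 1) * G ≤ kap n * Mn n := by
    calc kap (n + 1) * G = (kap (n + 1) * (((n : ℝ) + 2) / √(2 * Real.pi * ((n : ℝ) + 3)))) *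
          (1 / √(Real.exp 1 * ((n : ℝ) + 1))) := by rw [hG]; ring
      _ ≤ kap n * Mn n := mul_le_mul h1 h2 (by positivity) (kap_nonneg _)
  have hG2 : G ^ 2 = ((n : ℝ) + 2) ^ 2 /
      (2 * Real.pi * ((n : ℝ) + 3) * (Real.exp 1 * ((n : ℝ) + 1))) := by
    rw [hG, mul_pow, div_pow, div_pow, Real.sq_sqrt (by positivity), Real.sq_sqrt (by positivity)]
    field_simp
  have hG3 : 24 / 100 ≤ G := by
    have h3 : (24 / 100 : ℝ) ^ 2 ≤ G ^ 2 := by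
      rw [hG2, le_div_iff₀ (by positivity)]
      have h4 := Real.pi_lt_d4
      have h5 := Real.exp_one_lt_d9
      have h6 : Real.pi * Real.exp 1 ≤ 8.6805 := by nlinarith
      have h7 : (0 : ℝ) ≤ ((n : ℝ) + 3) * ((n : ℝ) + 1) := by positivity
      calc (24 / 100 : ℝ) ^ 2 * (2 * Real.pi * ((n : ℝ) + 3) * (Real.exp 1 * ((n : ℝ) + 1)))
          = (24 / 100 : ℝ) ^ 2 * 2 * (Real.pi * Real.exp 1) * (((n : ℝ) + 3) * ((n : ℝ) + 1)) := by
            ring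
        _ ≤ (24 / 100 : ℝ) ^ 2 * 2 * 8.6805 * (((n : ℝ) + 3) * ((n : ℝ) + 1)) := by gcongr
        _ ≤ 1 * (((n : ℝ) + 3) * ((n : ℝ) + 1)) := by
            apply mul_le_mul_of_nonneg_right _ h7; norm_num
        _ ≤ ((n : ℝ) + 2) ^ 2 := by nlinarith
    exact abs_le_of_sq_le_sq' h3 hG0.le |>.2
  calc 48 / 100 * kap (n + 1) = 2 * (kap (n + 1) * (24 / 100)) := by ring
    _ ≤ 2 * (kap (n + 1) * G) := by gcongr
    _ ≤ 2 * (kap n * Mn n) := by linarith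

end SA70
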