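import Pool.Agent.SA70.U0
import Pool.Agent.SA70.DB2
import Pool.Agent.SC70.Sausage

/-! U8: the body of two balls. -/

set_option autoImplicit false

open MeasureTheory Measure Metric Set Module ENNReal
open scoped RealInnerProductSpace Pointwise

namespace SA70

open SC70

namespace TwoAux

/-- the profile -/
noncomputable def w (a s : ℝ) : ℝ := max a (|s| - a)

theorem w_cont (a : ℝ) : Continuous (w a) := by
  unfold w
  fun_prop

theorem w_convex (a x y p q : ℝ) (hp : 0 ≤ p) (hq : 0 ≤ q) (hpq : p + q = 1) :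
    w a (p * x + q * y) ≤ p * w a x + q * w a y := by
  unfold w
  apply max_le
  · have h1 : a ≤ max a (|x| - a) := le_max_left _ _
    have h2 : a ≤ max a (|y| - a) := le_max_left _ _
    have h3 : a = p * a + q * a := by rw [← add_mul, hpq, one_mul]
    have h4 := mul_le_mul_of_nonneg_left h1 hp
    have h5 := mul_le_mul_of_nonneg_left h2 hq
    linarith
  · have h1 : |x| - a ≤ max a (|x| - a) := le_max_right _ _
    have h2 : |y| - a ≤ max a (|y| - a) := le_max_right _ _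
    have h3 : a = p * a + q * a := by rw [← add_mul, hpq, one_mul]
    have h4 := mul_le_mul_of_nonneg_left h1 hp
    have h5 := mul_le_mul_of_nonneg_left h2 hq
    have h6 : |p * x + q * y| ≤ p * |x| + q * |y| := by
      calc |p * x + q * y| ≤ |p * x| + |q * y| := abs_add_le _ _
        _ = _ := by rw [abs_mul, abs_mul, abs_of_nonneg hp, abs_of_nonneg hq]
    linarith

theorem w_nonneg (a : ℝ) (ha : 0 ≤ a) (s : ℝ) : 0 ≤ w a s := le_trans ha (le_max_left _ _)

/-- the limit profile -/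
noncomputable def g (s : ℝ) : ℝ := Real.exp (-(w (1 / √2) s ^ 2 / 2))

theorem g_cont : Continuous g := by
  unfold g
  have := w_cont (1 / √2)
  fun_prop

theorem int_gauss : Integrable (fun s : ℝ => Real.exp (-(s ^ 2 / 2))) := by
  have h := integrable_exp_neg_mul_sq (b := 1 / 2) (by norm_num)
  refine h.congr (Filter.Eventually.of_forall fun s => ?_)
  simp only
  congr 1
  ring

theorem half_int : ∫ s in Iic (0 : ℝ), g s = B1 ∧ IntegrableOn g (Iic 0) := by
  set b : ℝ := 1 / √2 with hb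
  have hb0 : 0 < b := by positivity
  have hb2 : b ^ 2 = 1 / 2 := by
    rw [hb, div_pow, Real.sq_sqrt (by norm_num)]
    norm_num
  have h1 : EqOn g (fun s => Real.exp (-((s + b) ^ 2 / 2))) (Iic (-(2 * b))) := by
    intro s hs
    have hs' : s ≤ -(2 * b) := hs
    have h2 : w b s = -(s + b) := by
      unfold w
      rw [abs_of_nonpos (by linarith), max_eq_right (by linarith)]
      ring
    simp only [g, ← hb, h2]
    congr 1
    ring
  have h2 : EqOn g (fun _ => Real.exp (-(1 / 4))) (Ioc (-(2 * b)) 0) := by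
    intro s hs
    obtain ⟨h3, h4⟩ := hs
    have h5 : w b s = b := by
      unfold w
      rw [abs_of_nonpos h4, max_eq_left (by linarith)]
    simp only [g, ← hb, h5, hb2]
    norm_num
  have hI : Integrable (fun s : ℝ => Real.exp (-((s + b) ^ 2 / 2))) :=
    int_gauss.comp_add_right b
  have i1 : IntegrableOn g (Iic (-(2 * b))) :=
    (hI.integrableOn (s := Iic (-(2 * b)))).congr_fun h1.symm measurableSet_Iic
  have i2 : IntegrableOn g (Ioc (-(2 * b)) 0) := by
    refine IntegrableOn.congr_fun ?_ h2.symm measurableSet_Ioc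
    exact integrableOn_const (by rw [Real.volume_Ioc]; exact ENNReal.ofReal_ne_top)
  have hU : Iic (0 : ℝ) = Iic (-(2 * b)) ∪ Ioc (-(2 * b)) 0 :=
    (Iic_union_Ioc_eq_Iic (by linarith)).symm
  have hD : Disjoint (Iic (-(2 * b))) (Ioc (-(2 * b)) 0) := by
    rw [Set.disjoint_left]
    intro s hs hs'
    exact absurd hs (not_le.2 hs'.1)
  refine ⟨?_, by rw [hU]; exact i1.union i2⟩
  rw [hU, setIntegral_union hD measurableSet_Ioc i1 i2, setIntegral_congr_fun measurableSet_Iic h1,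
    setIntegral_congr_fun measurableSet_Ioc h2]
  have h3 : ∫ s in Iic (-(2 * b)), Real.exp (-((s + b) ^ 2 / 2)) =
      ∫ s in Iic (-b), Real.exp (-(s ^ 2 / 2)) := by
    have h4 := (measurePreserving_add_right volume b).setIntegral_preimage_emb
      (MeasurableEquiv.addRight b).measurableEmbedding (fun s : ℝ => Real.exp (-(s ^ 2 / 2)))
      (Iic (-b))
    rw [← h4]
    congr 2
    ext s
    simp only [mem_preimage, mem_Iic]
    constructor <;> intro h <;> linarith
  have h4 : ∫ s in Ioc (-(2 * b)) (0 : ℝ), Real.exp (-(1 / 4)) = 2 * b * Real.exp (-(1 / 4)) := by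
    rw [setIntegral_const]
    simp [measureReal_def]
    exact hb0.le
  rw [h3, h4, B1, ← hb]
  ring

theorem g_even (s : ℝ) : g (-s) = g s := by
  unfold g w
  rw [abs_neg]

theorem int_g : Integrable g ∧ ∫ s, g s = 2 * B1 := by
  obtain ⟨h1, h2⟩ := half_int
  have h3 : IntegrableOn g (Ioi 0) := by
    have h := (integrableOn_Iic_iff_integrableOn_Iio (f := g) (μ := volume) (b := (0 : ℝ))).1 h2
    have h4 : (fun s => g (-s)) = g := funext g_even
    have h5 := (Measure.measurePreserving_neg (volume : Measure ℝ)).integrableOn_comp_preimage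
      (MeasurableEquiv.neg ℝ).measurableEmbedding (f := g) (s := Iio 0)
    have h6 : (Neg.neg ⁻¹' Iio (0 : ℝ)) = Ioi 0 := by
      ext s
      simp
    rw [h6] at h5
    have h7 := h5.2 h
    have h8 : g ∘ Neg.neg = g := funext g_even
    rwa [h8] at h7
  have h4 : ∫ s in Ioi (0 : ℝ), g s = B1 := by
    rw [← h1]
    have h := integral_comp_neg_Iic (0 : ℝ) g
    rw [neg_zero] at h
    rw [← h]
    apply setIntegral_congr_fun measurableSet_Iic
    intro s _
    exact g_even s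
  have hU : (univ : Set ℝ) = Iic 0 ∪ Ioi 0 := Iic_union_Ioi.symm
  constructor
  · rw [← integrableOn_univ, hU]
    exact h2.union h3
  · rw [← setIntegral_univ, hU, setIntegral_union _ measurableSet_Ioi h2 h3, h1, h4]
    · ring
    · rw [Set.disjoint_left]
      intro s hs hs'
      exact absurd (show s ≤ 0 from hs) (not_le.2 hs')

theorem sqrt_pow' (x : ℝ) (hx : 0 ≤ x) (n : ℕ) : √x ^ n = √(x ^ n) := by
  rw [← Real.sqrt_sq (by positivity : 0 ≤ √x ^ n), ← pow_mul, mul_comm, pow_mul, Real.sq_sqrt hx]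

theorem Gn_le (n : ℕ) (hn : 1 ≤ n) (s : ℝ) : √(1 - w (1 / √2) s ^ 2 / n) ^ n ≤ g s := by
  have hn' : (0 : ℝ) < n := by exact_mod_cast hn
  have h1 : √(1 - w (1 / √2) s ^ 2 / n) ≤ Real.exp (-(w (1 / √2) s ^ 2 / n / 2)) := by
    apply Real.sqrt_le_iff.2
    refine ⟨(Real.exp_pos _).le, ?_⟩
    rw [← Real.exp_nat_mul]
    have := Real.add_one_le_exp (((2 : ℕ) : ℝ) * -(w (1 / √2) s ^ 2 / n / 2))
    push_cast at this ⊢
    linarith
  have h2 := pow_le_pow_left₀ (Real.sqrt_nonneg _) h1 n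
  refine h2.trans (le_of_eq ?_)
  rw [← Real.exp_nat_mul, g]
  congr 1
  field_simp

theorem Gn_cont (n : ℕ) : Continuous fun s : ℝ => √(1 - w (1 / √2) s ^ 2 / n) ^ n := by
  have := w_cont (1 / √2)
  fun_prop

theorem Gn_int (n : ℕ) (hn : 1 ≤ n) : Integrable fun s : ℝ => √(1 - w (1 / √2) s ^ 2 / n) ^ n := by
  refine int_g.1.mono' (Gn_cont n).aestronglyMeasurable (Filter.Eventually.of_forall fun s => ?_)
  rw [Real.norm_eq_abs, abs_of_nonneg (by positivity)]
  exact Gn_le n hn s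

/-- the integrals converge -/
theorem lim_int : Filter.Tendsto (fun n : ℕ => ∫ s : ℝ, √(1 - w (1 / √2) s ^ 2 / n) ^ n)
    Filter.atTop (nhds (2 * B1)) := by
  obtain ⟨hI, hB⟩ := int_g
  rw [← hB]
  apply tendsto_integral_filter_of_dominated_convergence g
  · exact Filter.Eventually.of_forall fun n => (Gn_cont n).aestronglyMeasurable
  · filter_upwards [Filter.eventually_ge_atTop 1] with n hn
    refine Filter.Eventually.of_forall fun s => ?_
    rw [Real.norm_eq_abs, abs_of_nonneg (by positivity)]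
    exact Gn_le n hn s
  · exact hI
  · refine Filter.Eventually.of_forall fun s => ?_
    have h1 := Real.tendsto_one_add_div_pow_exp (-(w (1 / √2) s ^ 2))
    have h2 := (Real.continuous_sqrt.tendsto _).comp h1
    have h3 : √(Real.exp (-(w (1 / √2) s ^ 2))) = g s := by
      rw [g, Real.sqrt_eq_iff_mul_self_eq (Real.exp_pos _).le (Real.exp_pos _).le, ← Real.exp_add]
      congr 1
      ring
    rw [h3] at h2
    refine h2.congr' ?_
    filter_upwards [Filter.eventually_ge_atTop (⌈w (1 / √2) s ^ 2⌉₊ + 1)] with n hn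
    have hn1 : (w (1 / √2) s ^ 2) ≤ n := by
      refine (Nat.le_ceil _).trans ?_
      exact_mod_cast (by omega : ⌈w (1 / √2) s ^ 2⌉₊ ≤ n)
    have hn0 : (0 : ℝ) < n := by
      have : 0 < n := by omega
      exact_mod_cast this
    have h4 : 0 ≤ 1 - w (1 / √2) s ^ 2 / n := by
      rw [sub_nonneg, div_le_one hn0]
      exact hn1
    rw [sqrt_pow' _ h4]
    simp only [Function.comp]
    congr 2
    ring

/-- the body in coordinates -/
def Bd (n : ℕ) (a : ℝ) : Set (ℝ × EuclideanSpace ℝ (Fin n)) := {z | w a z.1 ^ 2 + ‖z.2‖ ^ 2 ≤ 1}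

theorem Bd_closed (n : ℕ) (a : ℝ) : IsClosed (Bd n a) := by
  have := w_cont a
  exact isClosed_le (by fun_prop) continuous_const

theorem Bd_convex (n : ℕ) (a : ℝ) (ha : 0 ≤ a) : Convex ℝ (Bd n a) := by
  intro x hx y hy p q hp hq hpq
  have hx' : w a x.1 ^ 2 + ‖x.2‖ ^ 2 ≤ 1 := hx
  have hy' : w a y.1 ^ 2 + ‖y.2‖ ^ 2 ≤ 1 := hy
  show w a (p * x.1 + q * y.1) ^ 2 + ‖p • x.2 + q • y.2‖ ^ 2 ≤ 1
  have h1 := w_convex a x.1 y.1 p q hp hq hpq
  have h2 : ‖p • x.2 + q • y.2‖ ≤ p * ‖x.2‖ + q * ‖y.2‖ := by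
    refine (norm_add_le _ _).trans (le_of_eq ?_)
    rw [norm_smul, norm_smul, Real.norm_eq_abs, Real.norm_eq_abs, abs_of_nonneg hp,
      abs_of_nonneg hq]
  have h3 := pow_le_pow_left₀ (w_nonneg a ha _) h1 2
  have h4 := pow_le_pow_left₀ (norm_nonneg _) h2 2
  have hq' : q = 1 - p := by linarith
  have h5 : (p * w a x.1 + q * w a y.1) ^ 2 ≤ p * w a x.1 ^ 2 + q * w a y.1 ^ 2 := by
    have e := mul_nonneg (mul_nonneg hp hq) (sq_nonneg (w a x.1 - w a y.1))
    rw [hq'] at e ⊢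
    nlinarith [e]
  have h6 : (p * ‖x.2‖ + q * ‖y.2‖) ^ 2 ≤ p * ‖x.2‖ ^ 2 + q * ‖y.2‖ ^ 2 := by
    have e := mul_nonneg (mul_nonneg hp hq) (sq_nonneg (‖x.2‖ - ‖y.2‖))
    rw [hq'] at e ⊢
    nlinarith [e]
  have h7 := mul_le_mul_of_nonneg_left hx' hp
  have h8 := mul_le_mul_of_nonneg_left hy' hq
  linarith

theorem Bd_compact (n : ℕ) (a : ℝ) (ha : 0 ≤ a) (ha1 : a ≤ 1) : IsCompact (Bd n a) := by
  have hsub : Bd n a ⊆ Icc (-2) 2 ×ˢ closedBall 0 1 := by
    intro z hz
    have hz' : w a z.1 ^ 2 + ‖z.2‖ ^ 2 ≤ 1 := hz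
    have h1 : w a z.1 ≤ 1 := by nlinarith [w_nonneg a ha z.1, sq_nonneg ‖z.2‖]
    have h2 : ‖z.2‖ ≤ 1 := by nlinarith [norm_nonneg z.2, sq_nonneg (w a z.1)]
    have h3 : |z.1| - a ≤ w a z.1 := le_max_right _ _
    have h4 := abs_le.1 (show |z.1| ≤ 2 by linarith)
    exact ⟨⟨h4.1, h4.2⟩, by rw [mem_closedBall_zero_iff]; exact h2⟩
  exact (isCompact_Icc.prod (isCompact_closedBall _ _)).of_isClosed_subset (Bd_closed n a) hsub

theorem Bd_volume (n : ℕ) (hn : 1 ≤ n) (a : ℝ) (ha : 0 ≤ a) :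
    volume (Bd n a) = ∫⁻ t : ℝ, ENNReal.ofReal (kap n * √(1 - w a t ^ 2) ^ n) := by
  rw [Measure.volume_eq_prod, Measure.prod_apply (Bd_closed n a).measurableSet]
  congr 1
  ext t
  by_cases h : w a t ^ 2 ≤ 1
  · have h1 : Prod.mk t ⁻¹' Bd n a = closedBall 0 (√(1 - w a t ^ 2)) := by
      ext z
      rw [mem_preimage, mem_closedBall_zero_iff, Real.le_sqrt (norm_nonneg _) (by linarith)]
      show w a t ^ 2 + ‖z‖ ^ 2 ≤ 1 ↔ _
      constructor <;> intro h <;> linarith
    rw [h1, volume_ball_le _ (Real.sqrt_nonneg _)]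
  · have h1 : Prod.mk t ⁻¹' Bd n a = ∅ := by
      rw [Set.eq_empty_iff_forall_notMem]
      intro z hz
      have hz' : w a t ^ 2 + ‖z‖ ^ 2 ≤ 1 := hz
      nlinarith [sq_nonneg ‖z‖]
    rw [h1, measure_empty, Real.sqrt_eq_zero_of_nonpos (by linarith), zero_pow (by omega), mul_zero,
      ENNReal.ofReal_zero]

theorem w_scale (n : ℕ) (hn : 1 ≤ n) (s : ℝ) :
    w (1 / √2 / √(n : ℝ)) (s / √(n : ℝ)) = w (1 / √2) s / √(n : ℝ) := by
  have hn' : (0 : ℝ) < √(n : ℝ) := Real.sqrt_pos.2 (by exact_mod_cast hn)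
  unfold w
  rw [abs_div, abs_of_pos hn', ← sub_div, max_div_div_right hn'.le]

theorem int_scale (n : ℕ) (hn : 1 ≤ n) :
    Integrable (fun t : ℝ => √(1 - w (1 / √2 / √(n : ℝ)) t ^ 2) ^ n) ∧
    ∫ t : ℝ, √(1 - w (1 / √2 / √(n : ℝ)) t ^ 2) ^ n =
      1 / √(n : ℝ) * ∫ s : ℝ, √(1 - w (1 / √2) s ^ 2 / n) ^ n := by
  have hn' : (0 : ℝ) < √(n : ℝ) := Real.sqrt_pos.2 (by exact_mod_cast hn)
  have h0 : ∀ s : ℝ, √(1 - w (1 / √2 / √(n : ℝ)) (s / √(n : ℝ)) ^ 2) ^ n =
      √(1 - w (1 / √2) s ^ 2 / n) ^ n := by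
    intro s
    rw [w_scale n hn, div_pow, Real.sq_sqrt (by positivity)]
  constructor
  · have h1 := Gn_int n hn
    have h2 : (fun s : ℝ => √(1 - w (1 / √2) s ^ 2 / n) ^ n) =
        fun s : ℝ => (fun t : ℝ => √(1 - w (1 / √2 / √(n : ℝ)) t ^ 2) ^ n) (s * (√(n : ℝ))⁻¹) := by
      funext s
      rw [← h0 s, div_eq_mul_inv s]
    rw [h2] at h1
    exact (integrable_comp_mul_right_iff _ (by positivity)).1 h1
  · have h1 := Measure.integral_comp_div
      (fun t : ℝ => √(1 - w (1 / √2 / √(n : ℝ)) t ^ 2) ^ n) (√(n : ℝ))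
    simp only [h0] at h1
    rw [h1, abs_of_pos hn', smul_eq_mul]
    field_simp

theorem kap_low (n : ℕ) (hn : 1 ≤ n) :
    kap (n + 1) / √(2 * Real.pi) ≤ kap n * (1 / √(n : ℝ)) := by
  have h1 := h27_kap_ge hn
  have hn' : (0 : ℝ) < n := by exact_mod_cast hn
  have hs : (0 : ℝ) < √(n : ℝ) := Real.sqrt_pos.2 hn'
  have hp : (0 : ℝ) < √(2 * Real.pi) := Real.sqrt_pos.2 (by positivity)
  have h2 : √(n : ℝ) / √(2 * Real.pi) ≤ ((n : ℝ) + 2) / √(2 * Real.pi * ((n : ℝ) + 3)) := by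
    have hsplit : √(2 * Real.pi * ((n : ℝ) + 3)) = √(2 * Real.pi) * √((n : ℝ) + 3) :=
      Real.sqrt_mul (by positivity) _
    have h5 : √(n : ℝ) * √((n : ℝ) + 3) ≤ (n : ℝ) + 2 := by
      rw [← Real.sqrt_mul hn'.le]
      apply Real.sqrt_le_iff.2
      constructor
      · positivity
      · nlinarith
    rw [hsplit, div_le_div_iff₀ hp (by positivity)]
    calc √(n : ℝ) * (√(2 * Real.pi) * √((n : ℝ) + 3)) =
          √(n : ℝ) * √((n : ℝ) + 3) * √(2 * Real.pi) := by ring
      _ ≤ _ := mul_le_mul_of_nonneg_right h5 hp.le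
  have h3 := mul_le_mul_of_nonneg_left h2 (kap_nonneg (n + 1))
  have h4 : kap (n + 1) * (√(n : ℝ) / √(2 * Real.pi)) ≤ kap n := h3.trans h1
  rw [mul_one_div, le_div_iff₀ hs]
  calc kap (n + 1) / √(2 * Real.pi) * √(n : ℝ) = kap (n + 1) * (√(n : ℝ) / √(2 * Real.pi)) := by ring
    _ ≤ _ := h4

end TwoAux

open TwoAux in
theorem two_body (ε : ℝ) (hε : 0 < ε) : ∃ d₀ : ℕ, ∀ n : ℕ, d₀ ≤ n →
    ∃ (C' : Set (EuclideanSpace ℝ (Fin (n + 1)))) (Y : Finset (EuclideanSpace ℝ (Fin (n + 1)))),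
      Convex ℝ C' ∧ IsCompact C' ∧ (interior C').Nonempty ∧ Y.card = 2 ∧
      Collinear ℝ (Y : Set (EuclideanSpace ℝ (Fin (n + 1)))) ∧ C' ⊆ ⋃ y ∈ Y, closedBall y 1 ∧
      (2 * B1 / √(2 * Real.pi) - ε) * kap (n + 1) ≤ volume.real C' := by
  classical
  have hp : (0 : ℝ) < √(2 * Real.pi) := Real.sqrt_pos.2 (by positivity)
  have hev := lim_int.eventually (lt_mem_nhds (show 2 * B1 - ε * √(2 * Real.pi) < 2 * B1 by
    have := mul_pos hε hp
    linarith))
  obtain ⟨N, hN⟩ := Filter.eventually_atTop.1 hev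
  refine ⟨max N 1, fun n hn => ?_⟩
  have hn1 : 1 ≤ n := (le_max_right _ _).trans hn
  have hlow := hN n ((le_max_left _ _).trans hn)
  have hnr : (1 : ℝ) ≤ n := by exact_mod_cast hn1
  have hsn : (1 : ℝ) ≤ √(n : ℝ) := Real.one_le_sqrt.2 hnr
  set e : EuclideanSpace ℝ (Fin (n + 1)) := EuclideanSpace.single 0 1 with he'
  have he : ‖e‖ = 1 := by simp [he']
  have he0 : e ≠ 0 := by
    intro h; rw [h, norm_zero] at he; norm_num at he
  obtain ⟨L, hL, hmp, hsurj⟩ := exists_frame e he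
  set χ : ℝ × EuclideanSpace ℝ (Fin n) → EuclideanSpace ℝ (Fin (n + 1)) :=
    fun z => z.1 • e + L z.2 with hχ
  have hmp' : MeasurePreserving χ volume volume := hmp
  have hLc : Continuous L := L.continuous
  have hχc : Continuous χ := by simp only [hχ]; fun_prop
  have hnorm : ∀ z, ‖χ z‖ ^ 2 = z.1 ^ 2 + ‖z.2‖ ^ 2 := fun z => frame_norm he L hL z.1 z.2
  have hlin : IsLinearMap ℝ χ := by
    constructor
    · intro x y
      simp only [hχ, Prod.fst_add, Prod.snd_add, map_add, add_smul]; abel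
    · intro c x
      simp only [hχ, Prod.smul_fst, Prod.smul_snd, map_smul, smul_eq_mul, mul_smul, smul_add]
  have hinj : Function.Injective χ := by
    intro z z' h
    have h1 : χ (z - z') = 0 := by
      have := hlin.map_sub z z'
      rw [this, h, sub_self]
    have h2 := hnorm (z - z')
    rw [h1, norm_zero] at h2
    have h3 : (z - z').1 = 0 := by nlinarith [sq_nonneg (z - z').1, sq_nonneg ‖(z - z').2‖]
    have h4 : ‖(z - z').2‖ = 0 := by nlinarith [sq_nonneg (z - z').1, sq_nonneg ‖(z - z').2‖]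
    ext1
    · have : z.1 - z'.1 = 0 := h3
      linarith
    · have : z.2 - z'.2 = 0 := norm_eq_zero.mp h4
      exact sub_eq_zero.mp this
  set a : ℝ := 1 / √2 / √(n : ℝ) with ha
  have ha0 : 0 < a := by positivity
  have hb2 : (1 / √2 : ℝ) ^ 2 = 1 / 2 := by
    rw [div_pow, Real.sq_sqrt (by norm_num)]
    norm_num
  have ha2 : a ^ 2 ≤ 1 / 2 := by
    rw [ha, div_pow, hb2, Real.sq_sqrt (by positivity)]
    rw [div_le_iff₀ (by positivity)]
    linarith
  have ha1 : a ≤ 1 := by nlinarith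
  refine ⟨χ '' Bd n a, {a • e, (-a) • e}, ?_, ?_, ?_, ?_, ?_, ?_, ?_⟩
  · exact (Bd_convex n a ha0.le).is_linear_image hlin
  · exact (Bd_compact n a ha0.le ha1).image hχc
  · refine ⟨0, ?_⟩
    rw [mem_interior]
    refine ⟨ball 0 a, ?_, isOpen_ball, mem_ball_self ha0⟩
    intro x hx
    rw [mem_ball_zero_iff] at hx
    obtain ⟨z, rfl⟩ := hsurj x
    refine ⟨z, ?_, rfl⟩
    have h1 := hnorm z
    have hx' : ‖χ z‖ < a := hx
    have h0 := norm_nonneg (χ z)
    have h2 : ‖χ z‖ ^ 2 < a ^ 2 := by nlinarith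
    have h4 : |z.1| ≤ a := by
      apply abs_le_of_sq_le_sq _ ha0.le
      nlinarith [sq_nonneg ‖z.2‖]
    have h5 : w a z.1 = a := by
      unfold w
      exact max_eq_left (by linarith)
    show w a z.1 ^ 2 + ‖z.2‖ ^ 2 ≤ 1
    rw [h5]
    nlinarith [sq_nonneg z.1]
  · rw [Finset.card_pair]
    intro h
    have h1 := smul_left_injective ℝ he0 h
    linarith
  · rw [Finset.coe_pair]
    exact collinear_pair ℝ _ _
  · rintro x ⟨z, hz, rfl⟩
    have hz' : w a z.1 ^ 2 + ‖z.2‖ ^ 2 ≤ 1 := hz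
    simp only [mem_iUnion]
    have hkey : ∀ c : ℝ, |z.1 - c| ≤ w a z.1 → χ z ∈ closedBall (c • e) 1 := by
      intro c hc
      rw [mem_closedBall, dist_eq_norm]
      have h3 : χ z - c • e = (z.1 - c) • e + L z.2 := by
        simp only [hχ, sub_smul]; abel
      have h4 := frame_norm he L hL (z.1 - c) z.2
      rw [← h3] at h4
      have h5 : (z.1 - c) ^ 2 ≤ w a z.1 ^ 2 := by
        rw [← sq_abs (z.1 - c)]
        exact pow_le_pow_left₀ (abs_nonneg _) hc 2
      have h6 : ‖χ z - c • e‖ ^ 2 ≤ 1 := by linarith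
      nlinarith [norm_nonneg (χ z - c • e)]
    rcases le_total 0 z.1 with h | h
    · refine ⟨a • e, by simp, hkey a ?_⟩
      unfold w
      rw [abs_of_nonneg h, abs_le]
      rcases le_total z.1 a with h' | h'
      · constructor
        · have := le_max_left a (z.1 - a)
          linarith
        · have := le_max_right a (z.1 - a)
          linarith
      · constructor
        · have := le_max_left a (z.1 - a)
          linarith
        · exact le_max_right a (z.1 - a)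
    · refine ⟨(-a) • e, by simp, hkey (-a) ?_⟩
      unfold w
      rw [abs_of_nonpos h, abs_le]
      constructor
      · have := le_max_right a (-z.1 - a)
        linarith
      · have := le_max_left a (-z.1 - a)
        linarith
  · have h1 : χ ⁻¹' (χ '' Bd n a) = Bd n a := preimage_image_eq _ hinj
    have h2 := hmp'.measure_preimage
      ((Bd_compact n a ha0.le ha1).image hχc).measurableSet.nullMeasurableSet
    rw [h1, Bd_volume n hn1 a ha0.le] at h2
    obtain ⟨hI, hJ⟩ := int_scale n hn1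
    rw [← ha] at hI hJ
    rw [measureReal_def, ← h2, ← ofReal_integral_eq_lintegral_ofReal (hI.const_mul (kap n))
      (Filter.Eventually.of_forall fun t => mul_nonneg (kap_nonneg n) (by positivity)),
      ENNReal.toReal_ofReal (integral_nonneg fun t => mul_nonneg (kap_nonneg n) (by positivity)),
      integral_const_mul, hJ]
    have h3 := kap_low n hn1
    have h4 : 0 ≤ ∫ s : ℝ, √(1 - w (1 / √2) s ^ 2 / n) ^ n :=
      integral_nonneg fun s => by positivity
    set I := ∫ s : ℝ, √(1 - w (1 / √2) s ^ 2 / n) ^ n with hIdef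
    calc (2 * B1 / √(2 * Real.pi) - ε) * kap (n + 1)
        = kap (n + 1) / √(2 * Real.pi) * (2 * B1 - ε * √(2 * Real.pi)) := by
          field_simp
      _ ≤ kap (n + 1) / √(2 * Real.pi) * I :=
          mul_le_mul_of_nonneg_left hlow.le (div_nonneg (kap_nonneg _) hp.le)
      _ ≤ kap n * (1 / √(n : ℝ)) * I := mul_le_mul_of_nonneg_right h3 h4
      _ = kap n * (1 / √(n : ℝ) * I) := by ring

end SA70
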