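import Pool.Agent.SC70.TNum
import Pool.Agent.SC70.Sausage

/-!
# The asymptotic sausage theorem for coverings: basic notions
-/

set_option autoImplicit false

open MeasureTheory Measure Metric Set Module ENNReal

namespace SA70

/-- the tilted volume `∫_A exp (√d ⟨h, x⟩) dx`, `d = n + 1` -/
noncomputable def om {n : ℕ} (h : EuclideanSpace ℝ (Fin (n + 1)))
    (A : Set (EuclideanSpace ℝ (Fin (n + 1)))) : ℝ :=
  ∫ x in A, Real.exp (√((n : ℝ) + 1) * inner ℝ h x)

/-- the direction from `w` to `a` -/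
noncomputable def dir {E : Type*} [NormedAddCommGroup E] [InnerProductSpace ℝ E] (w a : E) : E :=
  (1 / ‖a - w‖) • (a - w)

/-- the (closed) Voronoi cell of `w` -/
def Vor {E : Type*} [NormedAddCommGroup E] (W : Finset E) (w : E) : Set E :=
  {x | ∀ w' ∈ W, ‖x - w‖ ≤ ‖x - w'‖}

/-- the points of `C` in the unit ball around `w` which leave `C` when dilated from `w` by the
factor `1 + τ` -/
def Inn {E : Type*} [NormedAddCommGroup E] [InnerProductSpace ℝ E] (C : Set E) (τ : ℝ) (w : E) :
    Set E :=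
  {x | x ∈ C ∧ ‖x - w‖ ≤ 1 ∧ w + (1 + τ) • (x - w) ∉ C}

end SA70
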