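import Pool.Agent.SA70.FrA
import Pool.Agent.SC70.FirstVar
import Pool.Agent.SC70.Polar

/-! DA: the exit set over a plane section. -/

set_option autoImplicit false

open MeasureTheory Measure Metric Set Module ENNReal

namespace SA70

open SC70

namespace DAux

theorem ray {N j : ℕ} (K : Set (EuclideanSpace ℝ (Fin (N + 1)))) (hK : Convex ℝ K)
    (hKc : IsCompact K) (β θ : EuclideanSpace ℝ (Fin (N + 1))) (hθ : ‖θ‖ = 1) (τ M : ℝ)
    (hτ : 0 < τ) (hM : ∀ r : ℝ, 0 ≤ r → r ≤ 1 → √(1 - r ^ 2) ^ j * r ^ (N + 1) ≤ M)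
    (S : Set (EuclideanSpace ℝ (Fin (N + 1))))
    (hS : S = {y | β + y ∈ K ∧ β + (1 + τ) • y ∉ K ∧ ‖y‖ ≤ 1}) :
    ∫⁻ r in Ioi (0 : ℝ), ENNReal.ofReal (r ^ N) *
      S.indicator (fun y => ENNReal.ofReal (√(1 - ‖y‖ ^ 2) ^ j)) (r • θ) ≤
      ENNReal.ofReal (τ * M) := by
  by_cases hne : ∃ r : ℝ, 0 < r ∧ r • θ ∈ S
  · obtain ⟨r', hr', hr'S⟩ := hne
    have hnorm : ∀ r : ℝ, 0 < r → ‖r • θ‖ = r := fun r hr => by
      rw [norm_smul, hθ, mul_one, Real.norm_eq_abs, abs_of_pos hr]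
    obtain ⟨I, hI⟩ : ∃ I : Set ℝ, I = {r : ℝ | 0 ≤ r ∧ β + r • θ ∈ K} := ⟨_, rfl⟩
    have hIcl : IsClosed I := by
      rw [hI]
      exact (isClosed_le continuous_const continuous_id).inter
        (hKc.isClosed.preimage (by fun_prop : Continuous fun r : ℝ => β + r • θ))
    obtain ⟨R, hR⟩ := hKc.isBounded.exists_norm_le
    have hIb : ∀ r ∈ I, r ≤ R + ‖β‖ := by
      intro r hr
      rw [hI] at hr
      have h1 := hR _ hr.2
      have h2 : ‖r • θ‖ ≤ ‖β + r • θ‖ + ‖β‖ := by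
        have h3 : r • θ = (β + r • θ) - β := by abel
        nth_rewrite 1 [h3]
        exact norm_sub_le _ _
      rw [norm_smul, hθ, mul_one, Real.norm_eq_abs, abs_of_nonneg hr.1] at h2
      linarith
    have hIc : IsCompact I := by
      refine Metric.isCompact_of_isClosed_isBounded hIcl ?_
      refine (Metric.isBounded_Icc (0 : ℝ) (R + ‖β‖)).subset fun r hr => ⟨?_, hIb r hr⟩
      rw [hI] at hr
      exact hr.1
    rw [hS] at hr'S
    have hr'I : r' ∈ I := by rw [hI]; exact ⟨hr'.le, hr'S.1⟩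
    obtain ⟨r₁, hr₁⟩ : ∃ r₁ : ℝ, r₁ = sSup I := ⟨_, rfl⟩
    have hr₁I : r₁ ∈ I := by rw [hr₁]; exact hIc.sSup_mem ⟨r', hr'I⟩
    have hle : ∀ r ∈ I, r ≤ r₁ := fun r hr => by rw [hr₁]; exact le_csSup hIc.bddAbove hr
    have hr₁0 : 0 < r₁ := hr'.trans_le (hle r' hr'I)
    have hτ1 : 0 < 1 + τ := by linarith
    have hmem : ∀ r : ℝ, 0 < r → r • θ ∈ S → r₁ / (1 + τ) < r ∧ r ≤ r₁ ∧ r ≤ 1 := by
      intro r hr hrS
      rw [hS] at hrS
      obtain ⟨h1, h2, h3⟩ := hrS
      have hrI : r ∈ I := by rw [hI]; exact ⟨hr.le, h1⟩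
      refine ⟨?_, hle r hrI, by rwa [hnorm r hr] at h3⟩
      rw [div_lt_iff₀ hτ1]
      by_contra hc
      rw [not_lt] at hc
      apply h2
      rw [smul_smul]
      have h4 : β + r₁ • θ ∈ K := by rw [hI] at hr₁I; exact hr₁I.2
      -- `(1 + τ) r` is between `r` and `r₁`
      have hrr : r < r₁ := by nlinarith
      have hd : 0 < r₁ - r := by linarith
      have h5 := hK h1 h4 (a := (r₁ - r * (1 + τ)) / (r₁ - r)) (b := (r * τ) / (r₁ - r))
        (div_nonneg (by linarith) hd.le) (div_nonneg (by positivity) hd.le)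
        (by rw [← add_div, div_eq_one_iff_eq hd.ne']; ring)
      have h7 : (r₁ - r * (1 + τ)) / (r₁ - r) + (r * τ) / (r₁ - r) = 1 := by
        rw [← add_div, div_eq_one_iff_eq hd.ne']; ring
      have h8 : (r₁ - r * (1 + τ)) / (r₁ - r) * r + (r * τ) / (r₁ - r) * r₁ = (1 + τ) * r := by
        field_simp
        ring
      have key : ∀ p q x y z : ℝ, p + q = 1 → p * x + q * y = z →
          p • (β + x • θ) + q • (β + y • θ) = β + z • θ := by
        intro p q x y z e1 e2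
        have e3 : p • β + q • β = β := by rw [← add_smul, e1, one_smul]
        calc p • (β + x • θ) + q • (β + y • θ) = (p • β + q • β) + (p * x + q * y) • θ := by
              rw [smul_add, smul_add, smul_smul, smul_smul, add_smul]
              abel
          _ = β + z • θ := by rw [e3, e2]
      have h6 := key _ _ _ _ _ h7 h8
      rw [← h6]
      exact h5
    have hM0 : 0 ≤ M := by
      have := hM 0 le_rfl zero_le_one
      rw [zero_pow (Nat.succ_ne_zero N), mul_zero] at this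
      exact this
    calc ∫⁻ r in Ioi (0 : ℝ), ENNReal.ofReal (r ^ N) *
          S.indicator (fun y => ENNReal.ofReal (√(1 - ‖y‖ ^ 2) ^ j)) (r • θ)
        ≤ ∫⁻ r in Ioi (0 : ℝ), (Ioc (r₁ / (1 + τ)) r₁).indicator
            (fun _ => ENNReal.ofReal (M * (1 + τ) / r₁)) r := by
          refine setLIntegral_mono' measurableSet_Ioi fun r hr => ?_
          have hr0 : (0 : ℝ) < r := hr
          by_cases hrS : r • θ ∈ S
          · obtain ⟨h1, h2, h3⟩ := hmem r hr0 hrS
            rw [Set.indicator_of_mem hrS, Set.indicator_of_mem (show r ∈ Ioc _ _ from ⟨h1, h2⟩),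
              ← ENNReal.ofReal_mul (pow_nonneg hr0.le _), hnorm r hr0]
            refine ENNReal.ofReal_le_ofReal ?_
            have h4 := hM r hr0.le h3
            rw [div_lt_iff₀ hτ1] at h1
            rw [le_div_iff₀ hr₁0]
            have h5 : 0 ≤ r ^ N * √(1 - r ^ 2) ^ j := by positivity
            calc r ^ N * √(1 - r ^ 2) ^ j * r₁ ≤ r ^ N * √(1 - r ^ 2) ^ j * (r * (1 + τ)) :=
                  mul_le_mul_of_nonneg_left h1.le h5
              _ = (√(1 - r ^ 2) ^ j * r ^ (N + 1)) * (1 + τ) := by ring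
              _ ≤ M * (1 + τ) := mul_le_mul_of_nonneg_right h4 hτ1.le
          · rw [Set.indicator_of_notMem hrS, mul_zero]
            exact bot_le
      _ ≤ ∫⁻ r, (Ioc (r₁ / (1 + τ)) r₁).indicator
            (fun _ => ENNReal.ofReal (M * (1 + τ) / r₁)) r := setLIntegral_le_lintegral _ _
      _ = ENNReal.ofReal (M * (1 + τ) / r₁) * volume (Ioc (r₁ / (1 + τ)) r₁) :=
          lintegral_indicator_const measurableSet_Ioc _
      _ = ENNReal.ofReal (τ * M) := by
          rw [Real.volume_Ioc, ← ENNReal.ofReal_mul (by positivity)]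
          congr 1
          field_simp
          ring
  · have h0 : ∀ r ∈ Ioi (0 : ℝ), ENNReal.ofReal (r ^ N) *
        S.indicator (fun y => ENNReal.ofReal (√(1 - ‖y‖ ^ 2) ^ j)) (r • θ) = 0 := by
      intro r hr
      rw [Set.indicator_of_notMem (fun h => hne ⟨r, hr, h⟩), mul_zero]
    rw [setLIntegral_congr_fun measurableSet_Ioi h0]
    simp

theorem shell {N j : ℕ} (K : Set (EuclideanSpace ℝ (Fin (N + 1)))) (hK : Convex ℝ K)
    (hKc : IsCompact K) (β : EuclideanSpace ℝ (Fin (N + 1))) (τ M : ℝ)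
    (hτ : 0 < τ) (hM : ∀ r : ℝ, 0 ≤ r → r ≤ 1 → √(1 - r ^ 2) ^ j * r ^ (N + 1) ≤ M) :
    ∫⁻ y in {y : EuclideanSpace ℝ (Fin (N + 1)) | y ∈ K ∧ β + (1 + τ) • (y - β) ∉ K ∧
      ‖y - β‖ ≤ 1}, ENNReal.ofReal (√(1 - ‖y - β‖ ^ 2) ^ j) ≤
      ENNReal.ofReal (τ * (((N : ℝ) + 1) * kap (N + 1) * M)) := by
  obtain ⟨S, hS⟩ : ∃ S : Set (EuclideanSpace ℝ (Fin (N + 1))),
      S = {y | β + y ∈ K ∧ β + (1 + τ) • y ∉ K ∧ ‖y‖ ≤ 1} := ⟨_, rfl⟩
  have hKm : MeasurableSet K := hKc.measurableSet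
  have hSm : MeasurableSet S := by
    rw [hS]
    refine (hKm.preimage (by fun_prop : Measurable fun y => β + y)).inter
      (((hKm.preimage (by fun_prop : Measurable fun y => β + (1 + τ) • y)).compl).inter
        (measurableSet_le (f := fun y : EuclideanSpace ℝ (Fin (N + 1)) => ‖y‖)
          (g := fun _ => (1 : ℝ)) (by fun_prop) measurable_const))
  have hS'm : MeasurableSet {y : EuclideanSpace ℝ (Fin (N + 1)) | y ∈ K ∧
      β + (1 + τ) • (y - β) ∉ K ∧ ‖y - β‖ ≤ 1} :=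
    hKm.inter (((hKm.preimage (by fun_prop : Measurable fun y => β + (1 + τ) • (y - β))).compl).inter
        (measurableSet_le (f := fun y : EuclideanSpace ℝ (Fin (N + 1)) => ‖y - β‖)
          (g := fun _ => (1 : ℝ)) (by fun_prop) measurable_const))
  have hM0 : 0 ≤ M := by
    have := hM 0 le_rfl zero_le_one
    rw [zero_pow (Nat.succ_ne_zero N), mul_zero] at this
    exact this
  have h1 : ∫⁻ y in {y : EuclideanSpace ℝ (Fin (N + 1)) | y ∈ K ∧
      β + (1 + τ) • (y - β) ∉ K ∧ ‖y - β‖ ≤ 1}, ENNReal.ofReal (√(1 - ‖y - β‖ ^ 2) ^ j) =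
      ∫⁻ y, S.indicator (fun y => ENNReal.ofReal (√(1 - ‖y‖ ^ 2) ^ j)) y := by
    rw [← lintegral_indicator hS'm, ← lintegral_add_left_eq_self _ β]
    refine lintegral_congr fun y => ?_
    by_cases hy : y ∈ S
    · rw [Set.indicator_of_mem hy, Set.indicator_of_mem]
      · rw [add_sub_cancel_left]
      · rw [hS] at hy
        show β + y ∈ K ∧ β + (1 + τ) • (β + y - β) ∉ K ∧ ‖β + y - β‖ ≤ 1
        rw [add_sub_cancel_left]
        exact hy
    · rw [Set.indicator_of_notMem hy, Set.indicator_of_notMem]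
      intro h
      apply hy
      rw [hS]
      have h' : β + y ∈ K ∧ β + (1 + τ) • (β + y - β) ∉ K ∧ ‖β + y - β‖ ≤ 1 := h
      rw [add_sub_cancel_left] at h'
      exact h'
  have hFm : Measurable (S.indicator fun y : EuclideanSpace ℝ (Fin (N + 1)) =>
      ENNReal.ofReal (√(1 - ‖y‖ ^ 2) ^ j)) := Measurable.indicator (by fun_prop) hSm
  rw [h1, polar volume _ hFm]
  have hfr : finrank ℝ (EuclideanSpace ℝ (Fin (N + 1))) = N + 1 := by simp
  rw [hfr, Nat.add_sub_cancel]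
  calc ∫⁻ θ : sphere (0 : EuclideanSpace ℝ (Fin (N + 1))) 1, (∫⁻ r : ℝ in Ioi (0 : ℝ),
        ENNReal.ofReal (r ^ N) * S.indicator (fun y => ENNReal.ofReal (√(1 - ‖y‖ ^ 2) ^ j))
          (r • (θ : EuclideanSpace ℝ (Fin (N + 1))))) ∂volume.toSphere
      ≤ ∫⁻ _ : sphere (0 : EuclideanSpace ℝ (Fin (N + 1))) 1, ENNReal.ofReal (τ * M)
          ∂volume.toSphere := by
        refine lintegral_mono fun θ => ?_
        exact ray K hK hKc β θ (by simp) τ M hτ hM S hS
    _ = ENNReal.ofReal (τ * M) *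
        (volume : Measure (EuclideanSpace ℝ (Fin (N + 1)))).toSphere univ := lintegral_const _
    _ = ENNReal.ofReal (τ * (((N : ℝ) + 1) * kap (N + 1) * M)) := by
        rw [toSphere_apply_univ, hfr]
        have h2 : (volume : Measure (EuclideanSpace ℝ (Fin (N + 1)))) (ball 0 1) =
            ENNReal.ofReal (kap (N + 1)) := by
          rw [ofReal_kap, addHaar_closedBall_eq_addHaar_ball]
        have h3 : ((N + 1 : ℕ) : ℝ≥0∞) = ENNReal.ofReal ((N : ℝ) + 1) := by
          rw [← Nat.cast_succ, ENNReal.ofReal_natCast]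
        rw [h2, h3, ← ENNReal.ofReal_mul (by positivity), ← ENNReal.ofReal_mul (by positivity)]
        congr 1
        ring

end DAux

theorem dir_exit {n j N : ℕ} (hn : j + N = n)
    (A : EuclideanSpace ℝ (Fin j) →ₗᵢ[ℝ] EuclideanSpace ℝ (Fin (n + 1)))
    (B : EuclideanSpace ℝ (Fin (N + 1)) →ₗᵢ[ℝ] EuclideanSpace ℝ (Fin (n + 1)))
    (hAB : ∀ z y, inner ℝ (A z) (B y) = 0)
    (C : Set (EuclideanSpace ℝ (Fin (n + 1)))) (hconv : Convex ℝ C) (hCc : IsCompact C)
    (α : EuclideanSpace ℝ (Fin j)) (β : EuclideanSpace ℝ (Fin (N + 1))) (τ δ M : ℝ)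
    (hτ : 0 < τ) (hδ : 0 ≤ δ)
    (hM : ∀ r : ℝ, 0 ≤ r → r ≤ 1 → √(1 - r ^ 2) ^ j * r ^ (N + 1) ≤ M) :
    volume.real {q : EuclideanSpace ℝ (Fin j) × EuclideanSpace ℝ (Fin (N + 1)) |
        ‖A q.1 + B q.2 - (A α + B β)‖ ≤ 1 ∧ ‖q.1 - α‖ ≤ δ ∧
        (∀ z, ‖z - α‖ ≤ (1 + τ) * δ → A z + B q.2 ∈ C) ∧
        A α + B β + (1 + τ) • (A q.1 + B q.2 - (A α + B β)) ∉ C} ≤
      τ * (((N : ℝ) + 1) * kap (N + 1) * kap j * M) := by
  have hM0 : 0 ≤ M := by
    have := hM 0 le_rfl zero_le_one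
    rw [zero_pow (Nat.succ_ne_zero N), mul_zero] at this
    exact this
  -- the section body
  obtain ⟨K, hKdef⟩ : ∃ K : Set (EuclideanSpace ℝ (Fin (N + 1))),
      K = {y | ∀ z, ‖z - α‖ ≤ (1 + τ) * δ → A z + B y ∈ C} := ⟨_, rfl⟩
  have hK : Convex ℝ K := by
    rw [hKdef]
    intro x hx y hy a b ha hb hab z hz
    have h1 := hconv (hx z hz) (hy z hz) ha hb hab
    have h2 : a • (A z + B x) + b • (A z + B y) = A z + B (a • x + b • y) := by
      rw [map_add, map_smul, map_smul, smul_add, smul_add]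
      have h3 : A z = a • A z + b • A z := by rw [← add_smul, hab, one_smul]
      nth_rewrite 3 [h3]
      abel
    rw [h2] at h1
    exact h1
  have hKcl : IsClosed K := by
    have h1 : K = ⋂ z ∈ {z : EuclideanSpace ℝ (Fin j) | ‖z - α‖ ≤ (1 + τ) * δ},
        (fun y => A z + B y) ⁻¹' C := by
      rw [hKdef]
      ext y
      simp
    rw [h1]
    refine isClosed_biInter fun z _ => hCc.isClosed.preimage ?_
    exact continuous_const.add B.continuous
  have hKc : IsCompact K := by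
    refine Metric.isCompact_of_isClosed_isBounded hKcl ?_
    obtain ⟨R, hR⟩ := hCc.isBounded.exists_norm_le
    refine (Metric.isBounded_closedBall (x := (0 : EuclideanSpace ℝ (Fin (N + 1))))
      (r := R + ‖A α‖)).subset fun y hy => ?_
    rw [hKdef] at hy
    have h1 := hR _ (hy α (by rw [sub_self, norm_zero]; positivity))
    rw [mem_closedBall_zero_iff, ← B.norm_map y]
    have h2 : B y = (A α + B y) - A α := by abel
    rw [h2]
    exact (norm_sub_le _ _).trans (by linarith)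
  -- the superset
  obtain ⟨S, hS⟩ : ∃ S : Set (EuclideanSpace ℝ (Fin (N + 1))),
      S = {y | y ∈ K ∧ β + (1 + τ) • (y - β) ∉ K ∧ ‖y - β‖ ≤ 1} := ⟨_, rfl⟩
  have hSm : MeasurableSet S := by
    rw [hS]
    exact hKcl.measurableSet.inter (((hKcl.measurableSet.preimage
      (by fun_prop : Measurable fun y => β + (1 + τ) • (y - β))).compl).inter
        (measurableSet_le (f := fun y : EuclideanSpace ℝ (Fin (N + 1)) => ‖y - β‖)
          (g := fun _ => (1 : ℝ)) (by fun_prop) measurable_const))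
  obtain ⟨Q, hQ⟩ : ∃ Q : Set (EuclideanSpace ℝ (Fin j) × EuclideanSpace ℝ (Fin (N + 1))),
      Q = {q | q.2 ∈ S ∧ ‖q.1 - α‖ ^ 2 ≤ 1 - ‖q.2 - β‖ ^ 2} := ⟨_, rfl⟩
  have hQm : MeasurableSet Q := by
    rw [hQ]
    exact (hSm.preimage measurable_snd).inter (measurableSet_le
      (f := fun q : EuclideanSpace ℝ (Fin j) × EuclideanSpace ℝ (Fin (N + 1)) => ‖q.1 - α‖ ^ 2)
      (g := fun q : EuclideanSpace ℝ (Fin j) × EuclideanSpace ℝ (Fin (N + 1)) =>
        1 - ‖q.2 - β‖ ^ 2) (by fun_prop) (by fun_prop))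
  have hsub : {q : EuclideanSpace ℝ (Fin j) × EuclideanSpace ℝ (Fin (N + 1)) |
        ‖A q.1 + B q.2 - (A α + B β)‖ ≤ 1 ∧ ‖q.1 - α‖ ≤ δ ∧
        (∀ z, ‖z - α‖ ≤ (1 + τ) * δ → A z + B q.2 ∈ C) ∧
        A α + B β + (1 + τ) • (A q.1 + B q.2 - (A α + B β)) ∉ C} ⊆ Q := by
    rintro ⟨z, y⟩ ⟨h1, h2, h3, h4⟩
    dsimp only at h1 h2 h3 h4
    have h5 : A z + B y - (A α + B β) = A (z - α) + B (y - β) := by
      rw [map_sub, map_sub]; abel
    have h6 : ‖A z + B y - (A α + B β)‖ ^ 2 = ‖z - α‖ ^ 2 + ‖y - β‖ ^ 2 := by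
      rw [h5, norm_add_sq_real, hAB, A.norm_map, B.norm_map]
      ring
    have h7 : ‖z - α‖ ^ 2 + ‖y - β‖ ^ 2 ≤ 1 := by
      rw [← h6]
      exact pow_le_one₀ (norm_nonneg _) h1
    rw [hQ, hS]
    refine ⟨⟨?_, ?_, ?_⟩, ?_⟩
    · rw [hKdef]
      exact h3
    · intro hc
      rw [hKdef] at hc
      apply h4
      have h8 := hc (α + (1 + τ) • (z - α)) (by
        rw [add_sub_cancel_left, norm_smul, Real.norm_eq_abs, abs_of_pos (by linarith)]
        exact mul_le_mul_of_nonneg_left h2 (by linarith))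
      have h9 : A (α + (1 + τ) • (z - α)) + B (β + (1 + τ) • (y - β)) =
          A α + B β + (1 + τ) • (A z + B y - (A α + B β)) := by
        rw [h5, map_add, map_add, map_smul, map_smul, smul_add]
        abel
      rw [← h9]
      exact h8
    · show ‖y - β‖ ≤ 1
      have h8 : ‖y - β‖ ^ 2 ≤ 1 := by nlinarith [sq_nonneg ‖z - α‖]
      exact (sq_le_one_iff₀ (norm_nonneg _)).1 h8
    · show ‖z - α‖ ^ 2 ≤ 1 - ‖y - β‖ ^ 2
      linarith
  -- Fubini
  have hvol : volume Q ≤ ENNReal.ofReal (τ * (((N : ℝ) + 1) * kap (N + 1) * kap j * M)) := by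
    rw [Measure.volume_eq_prod, Measure.prod_apply_symm hQm]
    have h1 : ∀ y : EuclideanSpace ℝ (Fin (N + 1)),
        volume ((fun z : EuclideanSpace ℝ (Fin j) => (z, y)) ⁻¹' Q) ≤
        S.indicator (fun y => ENNReal.ofReal (√(1 - ‖y - β‖ ^ 2) ^ j) * ENNReal.ofReal (kap j)) y := by
      intro y
      by_cases hy : y ∈ S
      · rw [Set.indicator_of_mem hy]
        have h2 : (fun z : EuclideanSpace ℝ (Fin j) => (z, y)) ⁻¹' Q ⊆
            closedBall α (√(1 - ‖y - β‖ ^ 2)) := by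
          intro z hz
          have hz' : (z, y) ∈ Q := hz
          rw [hQ] at hz'
          rw [mem_closedBall, dist_eq_norm]
          exact Real.le_sqrt_of_sq_le hz'.2
        refine (measure_mono h2).trans_eq ?_
        rw [addHaar_closedBall' volume α (Real.sqrt_nonneg _), ofReal_kap]
        simp
      · have h2 : (fun z : EuclideanSpace ℝ (Fin j) => (z, y)) ⁻¹' Q = ∅ := by
          ext z
          simp only [Set.mem_preimage, Set.mem_empty_iff_false, iff_false]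
          intro hz
          rw [hQ] at hz
          exact hy hz.1
        rw [h2, measure_empty]
        exact bot_le
    refine (lintegral_mono h1).trans ?_
    rw [lintegral_indicator hSm, lintegral_mul_const _ (by fun_prop)]
    have h2 := DAux.shell K hK hKc β τ M hτ hM
    rw [← hS] at h2
    have hκj := kap_nonneg j
    have hκN := kap_nonneg (N + 1)
    calc (∫⁻ y in S, ENNReal.ofReal (√(1 - ‖y - β‖ ^ 2) ^ j)) * ENNReal.ofReal (kap j)
        ≤ ENNReal.ofReal (τ * (((N : ℝ) + 1) * kap (N + 1) * M)) * ENNReal.ofReal (kap j) := by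
          gcongr
      _ = ENNReal.ofReal (τ * (((N : ℝ) + 1) * kap (N + 1) * kap j * M)) := by
          rw [← ENNReal.ofReal_mul (by positivity)]
          congr 1
          ring
  have hfin : volume Q ≠ ⊤ := (hvol.trans_lt ENNReal.ofReal_lt_top).ne
  refine (measureReal_mono hsub hfin).trans ?_
  have hκj := kap_nonneg j
  have hκN := kap_nonneg (N + 1)
  exact ENNReal.toReal_le_of_le_ofReal (by positivity) hvol

end SA70
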