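import Pool.Agent.SA70.DB1
import Pool.Agent.SA70.DB2

/-! DB: numbers for the bodies which are long in several directions. -/
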