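import Pool.Agent.SA70.M7a
import Pool.Agent.SC70.TNum

/-! DB1: numbers. -/

set_option autoImplicit false

open MeasureTheory Measure Metric Set Module ENNReal

namespace SA70

open SC70

/-- `r ≤ exp(-(1-r²)/2)`, `b = (N+1)/2`, `y = 1-r²`: `y^i exp(-b y) ≤ (i/(b e))^i` from `b y/i ≤ exp(b y/i - 1)`. -/
theorem dir_num (i N : ℕ) (hi : 1 ≤ i) (r : ℝ) (hr0 : 0 ≤ r) (hr1 : r ≤ 1) :
    √(1 - r ^ 2) ^ (2 * i) * r ^ (N + 1) ≤ (2 * (i : ℝ) / (((N : ℝ) + 1) * Real.exp 1)) ^ i := by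
  have hi0 : (0 : ℝ) < i := by exact_mod_cast hi
  have hN0 : (0 : ℝ) < (N : ℝ) + 1 := by positivity
  obtain ⟨y, hy⟩ : ∃ y : ℝ, y = 1 - r ^ 2 := ⟨_, rfl⟩
  have hy0 : 0 ≤ y := by
    rw [hy]
    nlinarith
  rw [← hy, pow_mul, Real.sq_sqrt hy0]
  -- the power of `r`
  have h1 : r ≤ Real.exp (-(y / 2)) := by
    have h2 : r ^ 2 ≤ Real.exp (-(y / 2)) ^ 2 := by
      rw [← Real.exp_nat_mul]
      have h3 := Real.add_one_le_exp (r ^ 2 - 1)
      have h4 : ((2 : ℕ) : ℝ) * -(y / 2) = r ^ 2 - 1 := by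
        rw [hy]
        push_cast
        ring
      rw [h4]
      linarith
    exact le_of_sq_le_sq h2 (Real.exp_pos _).le
  have h2 : r ^ (N + 1) ≤ Real.exp (-(((N : ℝ) + 1) * y / 2)) := by
    refine (pow_le_pow_left₀ hr0 h1 (N + 1)).trans (le_of_eq ?_)
    rw [← Real.exp_nat_mul]
    congr 1
    push_cast
    ring
  have h3 : y * Real.exp (-(((N : ℝ) + 1) * y / 2 / i)) ≤
      2 * (i : ℝ) / (((N : ℝ) + 1) * Real.exp 1) := by
    have h4 := Real.add_one_le_exp (((N : ℝ) + 1) * y / 2 / i - 1)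
    rw [sub_add_cancel, Real.exp_sub] at h4
    rw [Real.exp_neg, ← div_eq_mul_inv, div_le_div_iff₀ (Real.exp_pos _) (by positivity)]
    rw [div_div, le_div_iff₀ (Real.exp_pos 1), div_mul_eq_mul_div,
      div_le_iff₀ (by positivity)] at h4
    have h5 : ((N : ℝ) + 1) * y / 2 / i = ((N : ℝ) + 1) * y / (2 * i) := by rw [div_div]
    rw [h5]
    calc y * (((N : ℝ) + 1) * Real.exp 1) = ((N : ℝ) + 1) * y * Real.exp 1 := by ring
      _ ≤ _ := h4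
      _ = _ := by ring
  calc y ^ i * r ^ (N + 1) ≤ y ^ i * Real.exp (-(((N : ℝ) + 1) * y / 2)) :=
        mul_le_mul_of_nonneg_left h2 (pow_nonneg hy0 i)
    _ = (y * Real.exp (-(((N : ℝ) + 1) * y / 2 / i))) ^ i := by
        rw [mul_pow, ← Real.exp_nat_mul]
        congr 2
        field_simp
    _ ≤ _ := pow_le_pow_left₀ (mul_nonneg hy0 (Real.exp_pos _).le) h3 i

private theorem dbk_step (m : ℕ) (hm : 1 ≤ m) :
    kap (m + 2) = 2 * Real.pi / ((m : ℝ) + 2) * kap m := by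
  rw [kap_formula hm, kap_formula (n := m + 2) (by omega)]
  have h1 : (((m + 2 : ℕ) : ℝ)) / 2 + 1 = ((m : ℝ) / 2 + 1) + 1 := by push_cast; ring
  have h2 : (m : ℝ) / 2 + 1 ≠ 0 := by positivity
  have hG : Real.Gamma ((m : ℝ) / 2 + 1) ≠ 0 := (Real.Gamma_pos_of_pos (by positivity)).ne'
  rw [h1, Real.Gamma_add_one h2, pow_add, Real.sq_sqrt Real.pi_pos.le]
  field_simp

private theorem dbk_even (i : ℕ) (hi : 1 ≤ i) :
    kap (2 * i) = Real.pi ^ i / (i.factorial : ℝ) := by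
  rw [kap_formula (by omega), pow_mul, Real.sq_sqrt Real.pi_pos.le]
  have h1 : (((2 * i : ℕ) : ℝ)) / 2 + 1 = (i : ℝ) + 1 := by push_cast; ring
  rw [h1, Real.Gamma_nat_eq_factorial]

private theorem dbk_ind (N i : ℕ) :
    kap (N + 1) * (2 * Real.pi / ((N : ℝ) + 1 + 2 * i)) ^ i ≤ kap (N + 1 + 2 * i) := by
  induction i with
  | zero => simp
  | succ i ih =>
    have h1 : N + 1 + 2 * (i + 1) = (N + 1 + 2 * i) + 2 := by ring
    rw [h1, dbk_step _ (by omega)]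
    have hπ := Real.pi_pos
    have h2 : (((N + 1 + 2 * i : ℕ) : ℝ)) + 2 = (N : ℝ) + 1 + 2 * ((i + 1 : ℕ) : ℝ) := by
      push_cast; ring
    rw [h2, pow_succ]
    have h3 : 2 * Real.pi / ((N : ℝ) + 1 + 2 * ((i + 1 : ℕ) : ℝ)) ≤
        2 * Real.pi / ((N : ℝ) + 1 + 2 * i) := by
      refine div_le_div_of_nonneg_left (by positivity) (by positivity) ?_
      push_cast
      linarith
    have h4 : kap (N + 1) * (2 * Real.pi / ((N : ℝ) + 1 + 2 * ((i + 1 : ℕ) : ℝ))) ^ i ≤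
        kap (N + 1 + 2 * i) :=
      (mul_le_mul_of_nonneg_left (pow_le_pow_left₀ (by positivity) h3 i)
        (kap_nonneg _)).trans ih
    calc kap (N + 1) * ((2 * Real.pi / ((N : ℝ) + 1 + 2 * ((i + 1 : ℕ) : ℝ))) ^ i *
          (2 * Real.pi / ((N : ℝ) + 1 + 2 * ((i + 1 : ℕ) : ℝ))))
        = 2 * Real.pi / ((N : ℝ) + 1 + 2 * ((i + 1 : ℕ) : ℝ)) *
          (kap (N + 1) * (2 * Real.pi / ((N : ℝ) + 1 + 2 * ((i + 1 : ℕ) : ℝ))) ^ i) := by ring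
      _ ≤ _ := mul_le_mul_of_nonneg_left h4 (by positivity)

/-- `kap (m+2) = 2π/(m+2) kap m` (`SC70.kap_formula`), `kap (2i) = π^i/i!`,
`kap (N+1) = kap (n+1) ∏_{l<i} (n+1-2l)/(2π) ≤ kap (n+1) ((n+1)/(2π))^i`. -/
theorem dir_kap (i n N : ℕ) (hi : 1 ≤ i) (hn : 2 * i + N = n) :
    ((N : ℝ) + 1) * kap (N + 1) * kap (2 * i) * (2 * (i : ℝ) / (((N : ℝ) + 1) * Real.exp 1)) ^ i ≤
      ((n : ℝ) + 1) * (((n : ℝ) + 1) / ((N : ℝ) + 1)) ^ i *
        ((i : ℝ) ^ i * Real.exp (-i) / (i.factorial : ℝ)) * kap (n + 1) := by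
  subst hn
  have hπ := Real.pi_pos
  have he := Real.exp_pos 1
  have hf : (0 : ℝ) < i.factorial := by exact_mod_cast i.factorial_pos
  have hN0 : (0 : ℝ) < (N : ℝ) + 1 := by positivity
  have hd : (((2 * i + N : ℕ) : ℝ)) + 1 = (N : ℝ) + 1 + 2 * i := by push_cast; ring
  have hidx : 2 * i + N + 1 = N + 1 + 2 * i := by ring
  rw [hd, hidx]
  have h1 := dbk_ind N i
  have hD : (0 : ℝ) < (N : ℝ) + 1 + 2 * i := by positivity
  have h2 : kap (N + 1) ≤ kap (N + 1 + 2 * i) * (((N : ℝ) + 1 + 2 * i) / (2 * Real.pi)) ^ i := by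
    have h3 : (2 * Real.pi / ((N : ℝ) + 1 + 2 * i)) ^ i *
        (((N : ℝ) + 1 + 2 * i) / (2 * Real.pi)) ^ i = 1 := by
      rw [← mul_pow]
      have h4 : 2 * Real.pi / ((N : ℝ) + 1 + 2 * i) * (((N : ℝ) + 1 + 2 * i) / (2 * Real.pi)) = 1 := by
        field_simp
      rw [h4, one_pow]
    calc kap (N + 1) = kap (N + 1) * ((2 * Real.pi / ((N : ℝ) + 1 + 2 * i)) ^ i *
          (((N : ℝ) + 1 + 2 * i) / (2 * Real.pi)) ^ i) := by rw [h3, mul_one]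
      _ = kap (N + 1) * (2 * Real.pi / ((N : ℝ) + 1 + 2 * i)) ^ i *
          (((N : ℝ) + 1 + 2 * i) / (2 * Real.pi)) ^ i := by ring
      _ ≤ _ := mul_le_mul_of_nonneg_right h1 (by positivity)
  have hexp : Real.exp (-(i : ℝ)) = (Real.exp 1 ^ i)⁻¹ := by
    rw [← Real.exp_nat_mul, mul_one, Real.exp_neg]
  rw [dbk_even i hi, hexp]
  have hκ := kap_nonneg (N + 1 + 2 * i)
  calc ((N : ℝ) + 1) * kap (N + 1) * (Real.pi ^ i / (i.factorial : ℝ)) *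
        (2 * (i : ℝ) / (((N : ℝ) + 1) * Real.exp 1)) ^ i
      = kap (N + 1) * (((N : ℝ) + 1) * (Real.pi ^ i / (i.factorial : ℝ)) *
        (2 * (i : ℝ) / (((N : ℝ) + 1) * Real.exp 1)) ^ i) := by ring
    _ ≤ kap (N + 1 + 2 * i) * (((N : ℝ) + 1 + 2 * i) / (2 * Real.pi)) ^ i *
        (((N : ℝ) + 1) * (Real.pi ^ i / (i.factorial : ℝ)) *
        (2 * (i : ℝ) / (((N : ℝ) + 1) * Real.exp 1)) ^ i) :=
        mul_le_mul_of_nonneg_right h2 (by positivity)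
    _ = ((N : ℝ) + 1) * ((((N : ℝ) + 1 + 2 * i) / ((N : ℝ) + 1)) ^ i *
        ((i : ℝ) ^ i * (Real.exp 1 ^ i)⁻¹ / (i.factorial : ℝ)) * kap (N + 1 + 2 * i)) := by
        simp only [div_pow, mul_pow]
        field_simp
    _ ≤ ((N : ℝ) + 1 + 2 * i) * ((((N : ℝ) + 1 + 2 * i) / ((N : ℝ) + 1)) ^ i *
        ((i : ℝ) ^ i * (Real.exp 1 ^ i)⁻¹ / (i.factorial : ℝ)) * kap (N + 1 + 2 * i)) :=
        mul_le_mul_of_nonneg_right (by linarith [(Nat.cast_nonneg i : (0 : ℝ) ≤ i)])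
          (by positivity)
    _ = _ := by ring

end SA70
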