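import Pool.Agent.SA70.Basic
import Pool.Agent.SC70.Round

/-! M7a: caps and the boundary layer of a convex body in a unit ball. -/

set_option autoImplicit false

open MeasureTheory Measure Metric Set Module ENNReal

namespace SA70

open SC70

private lemma real_closedBall {n : ℕ} (x : EuclideanSpace ℝ (Fin (n + 1))) {r : ℝ} (hr : 0 ≤ r) :
    volume.real (closedBall x r) = r ^ (n + 1) * kap (n + 1) := by
  unfold kap
  rw [measureReal_def, addHaar_closedBall' _ _ hr, ENNReal.toReal_mul,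
    ENNReal.toReal_ofReal (by positivity), finrank_euclideanSpace_fin, measureReal_def]

/-- the cap is contained in the ball around `s v` of radius `√(1 - s²)` -/
theorem cap_le {n : ℕ} (v : EuclideanSpace ℝ (Fin (n + 1))) (hv : ‖v‖ = 1) (s : ℝ) (hs0 : 0 ≤ s) :
    volume.real {x | x ∈ closedBall (0 : EuclideanSpace ℝ (Fin (n + 1))) 1 ∧ s ≤ inner ℝ v x} ≤
      Real.exp (-(s ^ 2 * ((n : ℝ) + 1) / 2)) * kap (n + 1) := by
  rcases le_or_gt s 1 with hs1 | hs1
  · have hs2 : 0 ≤ 1 - s ^ 2 := by nlinarith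
    have hsub : {x | x ∈ closedBall (0 : EuclideanSpace ℝ (Fin (n + 1))) 1 ∧ s ≤ inner ℝ v x} ⊆
        closedBall (s • v) (√(1 - s ^ 2)) := by
      rintro x ⟨hx, hxs⟩
      rw [mem_closedBall_zero_iff] at hx
      rw [mem_closedBall, dist_eq_norm]
      apply Real.le_sqrt_of_sq_le
      rw [norm_sub_sq_real, norm_smul, hv, Real.norm_of_nonneg hs0, mul_one, inner_smul_right,
        real_inner_comm]
      nlinarith [norm_nonneg x]
    refine (measureReal_mono hsub (isCompact_closedBall _ _).measure_lt_top.ne).trans ?_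
    rw [real_closedBall _ (Real.sqrt_nonneg _)]
    refine mul_le_mul_of_nonneg_right ?_ (kap_nonneg _)
    have h1 : √(1 - s ^ 2) ≤ Real.exp (-(s ^ 2) / 2) := by
      rw [Real.sqrt_le_left (Real.exp_pos _).le, ← Real.exp_nat_mul]
      have h2 := Real.add_one_le_exp (-(s ^ 2))
      have h3 : ((2 : ℕ) : ℝ) * (-(s ^ 2) / 2) = -(s ^ 2) := by push_cast; ring
      rw [h3]; linarith
    calc √(1 - s ^ 2) ^ (n + 1) ≤ (Real.exp (-(s ^ 2) / 2)) ^ (n + 1) :=
          pow_le_pow_left₀ (Real.sqrt_nonneg _) h1 _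
      _ = Real.exp (-(s ^ 2 * ((n : ℝ) + 1) / 2)) := by
          rw [← Real.exp_nat_mul]
          congr 1
          push_cast; ring
  · have hempty : {x | x ∈ closedBall (0 : EuclideanSpace ℝ (Fin (n + 1))) 1 ∧
        s ≤ inner ℝ v x} = ∅ := by
      ext x
      simp only [Set.mem_ofPred_eq, mem_empty_iff_false, iff_false]
      rintro ⟨hx, hxs⟩
      rw [mem_closedBall_zero_iff] at hx
      have h1 := real_inner_le_norm v x
      rw [hv, one_mul] at h1
      linarith
    rw [hempty, measureReal_empty]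
    exact mul_nonneg (Real.exp_pos _).le (kap_nonneg _)

/-- the slab -/
private lemma slab_le {n : ℕ} (v : EuclideanSpace ℝ (Fin (n + 1))) (hv : ‖v‖ = 1) (a : ℝ)
    (ha : 0 < a) :
    volume {x | x ∈ closedBall (0 : EuclideanSpace ℝ (Fin (n + 1))) 1 ∧ |inner ℝ v x| ≤ a} ≤
      ENNReal.ofReal (21 / 10 * a * kap n) := by
  set K : Set (EuclideanSpace ℝ (Fin (n + 1))) :=
    {x | x ∈ closedBall (0 : EuclideanSpace ℝ (Fin (n + 1))) 1 ∧ |inner ℝ v x| ≤ a} with hKd
  have hcl : IsClosed {x : EuclideanSpace ℝ (Fin (n + 1)) | |inner ℝ v x| ≤ a} :=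
    isClosed_le (by fun_prop) continuous_const
  have hKc : IsCompact K := (isCompact_closedBall _ _).inter_right hcl
  have hconv : Convex ℝ K := by
    refine (convex_closedBall _ _).inter ?_
    intro x hx y hy p q hp hq hpq
    have hx' : |inner ℝ v x| ≤ a := hx
    have hy' : |inner ℝ v y| ≤ a := hy
    show |inner ℝ v (p • x + q • y)| ≤ a
    rw [inner_add_right, inner_smul_right, inner_smul_right]
    rw [abs_le] at hx' hy' ⊢
    constructor <;> nlinarith [hx'.1, hx'.2, hy'.1, hy'.2]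
  have h := ball_exit K hconv hKc 0 v (21 / 10 * a) (by positivity)
  rw [hv, mul_one] at h
  refine (measure_mono ?_).trans h
  rintro x hx
  refine ⟨hx, hx.1, fun hcon => ?_⟩
  have h1 := hcon.2
  rw [inner_add_right, inner_smul_right, real_inner_self_eq_norm_sq, hv] at h1
  have h2 := (abs_le.mp h1).2
  have h3 := (abs_le.mp hx.2).1
  linarith

/-- a cap of small height has at least a quarter of the volume of the ball -/
private lemma cap_ge {n : ℕ} (hn : 4 ≤ n) (v : EuclideanSpace ℝ (Fin (n + 1))) (hv : ‖v‖ = 1) :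
    ENNReal.ofReal (kap (n + 1) / 4) ≤
      volume {x | x ∈ closedBall (0 : EuclideanSpace ℝ (Fin (n + 1))) 1 ∧
        1 / (2 * √((n : ℝ) + 1)) ≤ inner ℝ v x} := by
  have hn4 : (4 : ℝ) ≤ n := by exact_mod_cast hn
  set a : ℝ := 1 / (2 * √((n : ℝ) + 1)) with ha
  have ha0 : 0 < a := by rw [ha]; positivity
  set B : Set (EuclideanSpace ℝ (Fin (n + 1))) := closedBall 0 1 with hB
  set P : Set (EuclideanSpace ℝ (Fin (n + 1))) := {x | x ∈ B ∧ a ≤ inner ℝ v x} with hP
  set S : Set (EuclideanSpace ℝ (Fin (n + 1))) := {x | x ∈ B ∧ |inner ℝ v x| ≤ a} with hS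
  set Q : Set (EuclideanSpace ℝ (Fin (n + 1))) := {x | x ∈ B ∧ inner ℝ v x ≤ -a} with hQ
  have hQP : volume Q = volume P := by
    have e : Q = (fun x : EuclideanSpace ℝ (Fin (n + 1)) => -x) ⁻¹' P := by
      ext x
      simp only [hQ, hP, Set.mem_ofPred_eq, Set.mem_preimage, inner_neg_right, hB,
        mem_closedBall_zero_iff, norm_neg]
      constructor
      · rintro ⟨h1, h2⟩; exact ⟨h1, by linarith⟩
      · rintro ⟨h1, h2⟩; exact ⟨h1, by linarith⟩
    rw [e]
    exact Measure.measure_preimage_neg volume P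
  have hcov : B ⊆ P ∪ (S ∪ Q) := by
    intro x hx
    rcases le_or_gt a (inner ℝ v x) with h | h
    · exact Or.inl ⟨hx, h⟩
    · rcases le_or_gt (inner ℝ v x) (-a) with h' | h'
      · exact Or.inr (Or.inr ⟨hx, h'⟩)
      · exact Or.inr (Or.inl ⟨hx, abs_le.mpr ⟨h'.le, h.le⟩⟩)
  have hB1 : volume B = ENNReal.ofReal (kap (n + 1)) := by
    rw [ofReal_kap]
  have hS1 := slab_le v hv a ha0
  have h1 : ENNReal.ofReal (kap (n + 1)) ≤
      volume P + (ENNReal.ofReal (21 / 10 * a * kap n) + volume P) := by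
    rw [← hB1]
    refine (measure_mono hcov).trans ((measure_union_le _ _).trans ?_)
    refine add_le_add le_rfl ((measure_union_le _ _).trans ?_)
    rw [hQP]
    exact add_le_add hS1 le_rfl
  have hPfin : volume P ≠ ⊤ :=
    ((measure_mono (fun x hx => hx.1)).trans_lt
      (isCompact_closedBall (0 : EuclideanSpace ℝ (Fin (n + 1))) 1).measure_lt_top).ne
  obtain ⟨p, hp⟩ : ∃ p : ℝ, p = (volume P).toReal := ⟨_, rfl⟩
  have hp0 : 0 ≤ p := by rw [hp]; exact ENNReal.toReal_nonneg
  have hPp : volume P = ENNReal.ofReal p := by rw [hp, ENNReal.ofReal_toReal hPfin]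
  rw [hPp] at h1 ⊢
  have hk0 := kap_nonneg n
  have hk1 := kap_nonneg (n + 1)
  have h2 : kap (n + 1) ≤ p + (21 / 10 * a * kap n + p) := by
    rw [← ENNReal.ofReal_add (by positivity) hp0, ← ENNReal.ofReal_add hp0 (by positivity)] at h1
    exact (ENNReal.ofReal_le_ofReal_iff (by positivity)).mp h1
  -- `21/10 * a * κ_n ≤ κ_{n+1}/2`
  have h3 := kap_succ_ge (n := n) (by omega)
  have hpi := Real.pi_gt_d2
  have h4 : 21 / 10 * a ≤ 1 / 2 * √(2 * Real.pi / ((n : ℝ) + 2)) := by
    rw [ha]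
    have e1 : 21 / 10 * (1 / (2 * √((n : ℝ) + 1))) = √((21 / 20) ^ 2 / ((n : ℝ) + 1)) := by
      rw [Real.sqrt_div (by norm_num), Real.sqrt_sq (by norm_num)]
      field_simp
      norm_num
    have e2 : 1 / 2 * √(2 * Real.pi / ((n : ℝ) + 2)) = √(Real.pi / (2 * ((n : ℝ) + 2))) := by
      have : (1 / 2 : ℝ) = √((1 / 2) ^ 2) := by rw [Real.sqrt_sq (by norm_num)]
      rw [this, ← Real.sqrt_mul (by norm_num)]
      congr 1
      field_simp
    rw [e1, e2]
    apply Real.sqrt_le_sqrt
    rw [div_le_div_iff₀ (by positivity) (by positivity)]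
    nlinarith
  have h5 : 21 / 10 * a * kap n ≤ kap (n + 1) / 2 := by
    have := mul_le_mul_of_nonneg_right h4 hk0
    nlinarith
  apply ENNReal.ofReal_le_ofReal
  linarith

/-- the boundary layer: if `closedBall x t ⊄ K` there is a unit vector `ν` with `x + s u ∉ K`
whenever `⟨ν, u⟩ ≥ t/s`. Take `s = 2 t √d` and average over `u` in the unit ball (the cap
`⟨ν, u⟩ ≥ 1/(2√d)` has volume at least `κ/4`), using `SC70.ball_exit`:
`V {x ∈ K : x + s u ∉ K} ≤ s κ_n`; `SC70.kap_succ_ge` compares `κ_n` and `κ_{n+1}`. -/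
theorem layer_bound {n : ℕ} (hn : 4 ≤ n) (K : Set (EuclideanSpace ℝ (Fin (n + 1))))
    (hconv : Convex ℝ K) (hKc : IsCompact K) (w : EuclideanSpace ℝ (Fin (n + 1)))
    (hK : K ⊆ closedBall w 1) (t : ℝ) (ht : 0 < t) :
    volume.real {x | x ∈ K ∧ ¬ closedBall x t ⊆ K} ≤ 4 * t * ((n : ℝ) + 1) * kap (n + 1) := by
  have hn4 : (4 : ℝ) ≤ n := by exact_mod_cast hn
  have hk0 := kap_nonneg n
  have hk1 := kap_pos (n + 1)
  obtain ⟨s, hs⟩ : ∃ s : ℝ, s = 2 * t * √((n : ℝ) + 1) := ⟨_, rfl⟩
  have hsq : 0 < √((n : ℝ) + 1) := Real.sqrt_pos.mpr (by positivity)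
  have hs0 : 0 < s := by rw [hs]; positivity
  have hts : s * (1 / (2 * √((n : ℝ) + 1))) = t := by rw [hs]; field_simp
  set S : Set (EuclideanSpace ℝ (Fin (n + 1))) := {x | x ∈ K ∧ ¬ closedBall x t ⊆ K} with hSd
  set A : Set (EuclideanSpace ℝ (Fin (n + 1)) × EuclideanSpace ℝ (Fin (n + 1))) :=
    {z | z.1 ∈ K ∧ z.2 ∈ closedBall (0 : EuclideanSpace ℝ (Fin (n + 1))) 1 ∧
      z.1 + s • z.2 ∉ K} with hAd
  have hAm : MeasurableSet A := by
    refine (hKc.measurableSet.preimage measurable_fst).inter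
      ((measurableSet_closedBall.preimage measurable_snd).inter
        (MeasurableSet.compl ?_))
    exact hKc.measurableSet.preimage (by fun_prop)
  -- every point of the layer has many exits
  have hpt : ∀ x ∈ S, ENNReal.ofReal (kap (n + 1) / 4) ≤ volume (Prod.mk x ⁻¹' A) := by
    rintro x ⟨hxK, hx⟩
    obtain ⟨y, hy, hyK⟩ := Set.not_subset.mp hx
    obtain ⟨f, hf⟩ := geometric_hahn_banach_closed_point hconv hKc.isClosed hyK
    obtain ⟨r, hf1, hf2⟩ := hf
    obtain ⟨g, hg⟩ : ∃ g : EuclideanSpace ℝ (Fin (n + 1)), ∀ z, f z = inner ℝ g z :=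
      ⟨(InnerProductSpace.toDual ℝ _).symm f, fun z => by simp⟩
    have hg0 : g ≠ 0 := by
      intro h
      have h1 := hf1 x hxK
      rw [hg, h, inner_zero_left] at h1
      rw [hg, h, inner_zero_left] at hf2
      linarith
    have hgn : 0 < ‖g‖ := norm_pos_iff.mpr hg0
    set v : EuclideanSpace ℝ (Fin (n + 1)) := (1 / ‖g‖) • g with hv
    have hvn : ‖v‖ = 1 := by
      rw [hv, norm_smul, Real.norm_of_nonneg (by positivity)]
      field_simp
    refine (cap_ge hn v hvn).trans (measure_mono ?_)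
    rintro u ⟨hu1, hu2⟩
    refine ⟨hxK, hu1, fun hcon => ?_⟩
    have h1 := hf1 _ hcon
    have h2 : f (x + s • u) = f x + s * f u := by rw [map_add, map_smul, smul_eq_mul]
    have h3 : f y ≤ f x + ‖g‖ * t := by
      have h4 : f y - f x = inner ℝ g (y - x) := by rw [hg, hg, inner_sub_right]
      have h5 := real_inner_le_norm g (y - x)
      rw [mem_closedBall, dist_eq_norm] at hy
      have h6 := mul_le_mul_of_nonneg_left hy hgn.le
      linarith
    have h7 : ‖g‖ * t ≤ s * f u := by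
      have h8 : inner ℝ v u = (1 / ‖g‖) * f u := by
        rw [hv, real_inner_smul_left, hg]
      change 1 / (2 * √((n : ℝ) + 1)) ≤ inner ℝ v u at hu2
      rw [h8] at hu2
      have h9 : ‖g‖ * (1 / (2 * √((n : ℝ) + 1))) ≤ f u := by
        have := mul_le_mul_of_nonneg_left hu2 hgn.le
        have e : ‖g‖ * (1 / ‖g‖ * f u) = f u := by field_simp
        linarith
      calc ‖g‖ * t = s * (‖g‖ * (1 / (2 * √((n : ℝ) + 1)))) := by rw [← hts]; ring
        _ ≤ s * f u := mul_le_mul_of_nonneg_left h9 hs0.le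
    rw [h2] at h1
    linarith
  -- Markov
  have hmk : ENNReal.ofReal (kap (n + 1) / 4) * volume S ≤
      ENNReal.ofReal (s * kap n) * ENNReal.ofReal (kap (n + 1)) := by
    have hmeas : Measurable (fun x : EuclideanSpace ℝ (Fin (n + 1)) =>
        (volume : Measure (EuclideanSpace ℝ (Fin (n + 1)))) (Prod.mk x ⁻¹' A)) :=
      measurable_measure_prodMk_left hAm
    calc ENNReal.ofReal (kap (n + 1) / 4) * volume S
        ≤ ENNReal.ofReal (kap (n + 1) / 4) *
            volume {x | ENNReal.ofReal (kap (n + 1) / 4) ≤ volume (Prod.mk x ⁻¹' A)} := by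
          gcongr
          intro x hx
          exact hpt x hx
      _ ≤ ∫⁻ x, volume (Prod.mk x ⁻¹' A) := mul_meas_ge_le_lintegral hmeas _
      _ = (volume.prod volume) A := (Measure.prod_apply hAm).symm
      _ = ∫⁻ u, volume ((fun x => (x, u)) ⁻¹' A) := Measure.prod_apply_symm hAm
      _ ≤ ∫⁻ u, (closedBall (0 : EuclideanSpace ℝ (Fin (n + 1))) 1).indicator
            (fun _ => ENNReal.ofReal (s * kap n)) u := by
          apply lintegral_mono
          intro u
          by_cases hu : u ∈ closedBall (0 : EuclideanSpace ℝ (Fin (n + 1))) 1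
          · simp only
            rw [indicator_of_mem hu]
            refine (measure_mono ?_).trans ((ball_exit K hconv hKc w u s hs0.le).trans ?_)
            · rintro x ⟨h1, _, h3⟩
              exact ⟨h1, hK h1, h3⟩
            · apply ENNReal.ofReal_le_ofReal
              rw [mem_closedBall_zero_iff] at hu
              refine mul_le_mul_of_nonneg_right ?_ hk0
              nlinarith
          · simp only
            rw [indicator_of_notMem hu]
            have : (fun x => (x, u)) ⁻¹' A = ∅ := by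
              ext x
              simp only [mem_preimage, mem_empty_iff_false, iff_false]
              rintro ⟨_, h2, _⟩
              exact hu h2
            rw [this, measure_empty]
      _ = ENNReal.ofReal (s * kap n) * ENNReal.ofReal (kap (n + 1)) := by
          rw [lintegral_indicator measurableSet_closedBall, setLIntegral_const, ofReal_kap (n + 1)]
  have hSfin : volume S ≠ ⊤ :=
    ((measure_mono (fun x hx => hx.1)).trans_lt hKc.measure_lt_top).ne
  have hSr : volume S = ENNReal.ofReal (volume.real S) := by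
    rw [measureReal_def, ENNReal.ofReal_toReal hSfin]
  rw [hSr, ← ENNReal.ofReal_mul (by positivity), ← ENNReal.ofReal_mul (by positivity)] at hmk
  have h1 : kap (n + 1) / 4 * volume.real S ≤ s * kap n * kap (n + 1) :=
    (ENNReal.ofReal_le_ofReal_iff (by positivity)).mp hmk
  have h2 : volume.real S ≤ 4 * s * kap n := by
    have h3 : kap (n + 1) * volume.real S ≤ kap (n + 1) * (4 * s * kap n) := by nlinarith
    exact le_of_mul_le_mul_left h3 hk1
  refine h2.trans ?_
  -- comparison of `κ_n` and `κ_{n+1}`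
  have h3 := kap_succ_ge (n := n) (by omega)
  have hpi := Real.pi_gt_d2
  have h4 : 2 * √((n : ℝ) + 1) ≤ ((n : ℝ) + 1) * √(2 * Real.pi / ((n : ℝ) + 2)) := by
    have e1 : 2 * √((n : ℝ) + 1) = √(4 * ((n : ℝ) + 1)) := by
      rw [Real.sqrt_mul (by norm_num), show (4 : ℝ) = 2 ^ 2 by norm_num,
        Real.sqrt_sq (by norm_num)]
    have e2 : ((n : ℝ) + 1) * √(2 * Real.pi / ((n : ℝ) + 2)) =
        √(((n : ℝ) + 1) ^ 2 * (2 * Real.pi / ((n : ℝ) + 2))) := by
      rw [Real.sqrt_mul (by positivity), Real.sqrt_sq (by positivity)]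
    rw [e1, e2]
    apply Real.sqrt_le_sqrt
    rw [← mul_div_assoc, le_div_iff₀ (by positivity)]
    nlinarith
  have h5 : 2 * √((n : ℝ) + 1) * kap n ≤ ((n : ℝ) + 1) * kap (n + 1) := by
    have := mul_le_mul_of_nonneg_right h4 hk0
    nlinarith
  calc 4 * s * kap n = 4 * t * (2 * √((n : ℝ) + 1) * kap n) := by rw [hs]; ring
    _ ≤ 4 * t * (((n : ℝ) + 1) * kap (n + 1)) :=
        mul_le_mul_of_nonneg_left h5 (by positivity)
    _ = _ := by ring

end SA70
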