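import Pool.Agent.SA70.FrA
import Pool.Agent.SA70.M7a
import Pool.Agent.SC70.FirstVar

set_option autoImplicit false

open MeasureTheory Measure Metric Set Module ENNReal
open scoped Pointwise

namespace SA70

open SC70

theorem plane_cap {n j N : ℕ} (hj : 1 ≤ j)
    (A : EuclideanSpace ℝ (Fin j) →ₗᵢ[ℝ] EuclideanSpace ℝ (Fin (n + 1)))
    (B : EuclideanSpace ℝ (Fin (N + 1)) →ₗᵢ[ℝ] EuclideanSpace ℝ (Fin (n + 1)))
    (hAB : ∀ z y, inner ℝ (A z) (B y) = 0)
    (hmp : MeasurePreserving (fun q : EuclideanSpace ℝ (Fin j) × EuclideanSpace ℝ (Fin (N + 1)) =>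
        A q.1 + B q.2) volume volume)
    (α : EuclideanSpace ℝ (Fin j)) (β : EuclideanSpace ℝ (Fin (N + 1))) (R : ℝ) (hR : 0 ≤ R) :
    volume.real {q : EuclideanSpace ℝ (Fin j) × EuclideanSpace ℝ (Fin (N + 1)) |
        ‖A q.1 + B q.2 - (A α + B β)‖ ≤ 1 ∧ R / √((n : ℝ) + 1) < ‖q.1 - α‖} ≤
      2 * j * Real.exp (-(R ^ 2 / (2 * j))) * kap (n + 1) := by
  have hj0 : (0 : ℝ) < j := by exact_mod_cast hj
  have hd0 : (0 : ℝ) < (n : ℝ) + 1 := by positivity
  set s : ℝ := R / √((j : ℝ) * ((n : ℝ) + 1)) with hs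
  have hs0 : 0 ≤ s := by positivity
  have hs2 : s ^ 2 = R ^ 2 / ((j : ℝ) * ((n : ℝ) + 1)) := by
    rw [hs, div_pow, Real.sq_sqrt (by positivity)]
  -- the vectors
  let u : Fin j × Bool → EuclideanSpace ℝ (Fin (n + 1)) := fun p =>
    (if p.2 then (1 : ℝ) else -1) • A (EuclideanSpace.single p.1 1)
  have hu : ∀ p, ‖u p‖ = 1 := by
    intro p
    show ‖(if p.2 then (1 : ℝ) else -1) • A (EuclideanSpace.single p.1 1)‖ = 1
    rw [norm_smul, A.norm_map, EuclideanSpace.norm_single]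
    by_cases h : p.2 <;> simp [h]
  let w := A α + B β
  let T : Fin j × Bool → Set (EuclideanSpace ℝ (Fin (n + 1))) := fun p =>
    {x | x ∈ closedBall (0 : EuclideanSpace ℝ (Fin (n + 1))) 1 ∧ s ≤ inner ℝ (u p) x}
  have hTm : ∀ p, MeasurableSet (T p) := by
    intro p
    have hc : IsClosed (T p) := by
      have h1 : T p = closedBall (0 : EuclideanSpace ℝ (Fin (n + 1))) 1 ∩
          {x | s ≤ inner ℝ (u p) x} := rfl
      rw [h1]
      exact isClosed_closedBall.inter (isClosed_le continuous_const (by fun_prop))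
    exact hc.measurableSet
  have hTfin : ∀ p, volume (T p) ≠ ⊤ := by
    intro p
    refine ne_top_of_le_ne_top
      (isCompact_closedBall (0 : EuclideanSpace ℝ (Fin (n + 1))) 1).measure_lt_top.ne
      (measure_mono ?_)
    rintro x ⟨hx, _⟩
    exact hx
  let f : EuclideanSpace ℝ (Fin j) × EuclideanSpace ℝ (Fin (N + 1)) →
    EuclideanSpace ℝ (Fin (n + 1)) := fun q => A q.1 + B q.2
  have hsub : {q : EuclideanSpace ℝ (Fin j) × EuclideanSpace ℝ (Fin (N + 1)) |
        ‖A q.1 + B q.2 - (A α + B β)‖ ≤ 1 ∧ R / √((n : ℝ) + 1) < ‖q.1 - α‖} ⊆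
      ⋃ p : Fin j × Bool, f ⁻¹' ((fun x => x + -w) ⁻¹' (T p)) := by
    rintro q ⟨hq1, hq2⟩
    have hxw : A q.1 + B q.2 + -w = A (q.1 - α) + B (q.2 - β) := by
      show A q.1 + B q.2 + -(A α + B β) = _
      rw [map_sub, map_sub]
      abel
    have hin : ∀ i, inner ℝ (A (EuclideanSpace.single i (1 : ℝ))) (A q.1 + B q.2 + -w) =
        (q.1 - α) i := by
      intro i
      rw [hxw, inner_add_right, hAB, A.inner_map_map, EuclideanSpace.inner_single_left]
      simp
    -- some coordinate is large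
    have hex : ∃ i, s ≤ |(q.1 - α) i| := by
      by_contra hno
      push Not at hno
      have h1 : ‖q.1 - α‖ ^ 2 ≤ (j : ℝ) * s ^ 2 := by
        rw [EuclideanSpace.real_norm_sq_eq]
        calc ∑ i, (q.1 - α) i ^ 2 ≤ ∑ _i : Fin j, s ^ 2 := by
              refine Finset.sum_le_sum ?_
              intro i _
              rw [← sq_abs]
              exact pow_le_pow_left₀ (abs_nonneg _) (hno i).le 2
          _ = (j : ℝ) * s ^ 2 := by simp
      have h2 : (j : ℝ) * s ^ 2 = (R / √((n : ℝ) + 1)) ^ 2 := by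
        rw [hs2, div_pow, Real.sq_sqrt hd0.le]
        field_simp
      rw [h2] at h1
      have h3 : ‖q.1 - α‖ ≤ R / √((n : ℝ) + 1) :=
        (pow_le_pow_iff_left₀ (norm_nonneg _) (by positivity) two_ne_zero).1 h1
      linarith
    obtain ⟨i, hi⟩ := hex
    have hball : A q.1 + B q.2 + -w ∈ closedBall (0 : EuclideanSpace ℝ (Fin (n + 1))) 1 := by
      rw [mem_closedBall_zero_iff, ← sub_eq_add_neg]
      exact hq1
    rcases le_or_gt 0 ((q.1 - α) i) with hpos | hneg
    · refine mem_iUnion.2 ⟨(i, true), ?_⟩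
      refine ⟨hball, ?_⟩
      show s ≤ inner ℝ ((if (true : Bool) = true then (1 : ℝ) else -1) •
        A (EuclideanSpace.single i 1)) (A q.1 + B q.2 + -w)
      rw [if_pos rfl, one_smul, hin]
      rwa [abs_of_nonneg hpos] at hi
    · refine mem_iUnion.2 ⟨(i, false), ?_⟩
      refine ⟨hball, ?_⟩
      show s ≤ inner ℝ ((if (false : Bool) = true then (1 : ℝ) else -1) •
        A (EuclideanSpace.single i 1)) (A q.1 + B q.2 + -w)
      rw [if_neg (by decide), neg_one_smul, inner_neg_left, hin]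
      rwa [abs_of_neg hneg] at hi
  have hvol : ∀ p, volume (f ⁻¹' ((fun x => x + -w) ⁻¹' (T p))) = volume (T p) := by
    intro p
    have h1 : MeasurableSet ((fun x => x + -w) ⁻¹' (T p)) :=
      (measurable_add_const (-w)) (hTm p)
    rw [hmp.measure_preimage h1.nullMeasurableSet, measure_preimage_add_right]
  have hval : ∀ p, volume (T p) ≤
      ENNReal.ofReal (Real.exp (-(R ^ 2 / (2 * j))) * kap (n + 1)) := by
    intro p
    have h1 := cap_le (u p) (hu p) s hs0
    have h2 : s ^ 2 * ((n : ℝ) + 1) / 2 = R ^ 2 / (2 * j) := by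
      rw [hs2]
      field_simp
    rw [h2] at h1
    rw [← ENNReal.ofReal_toReal (hTfin p)]
    exact ENNReal.ofReal_le_ofReal h1
  have hb0 : 0 ≤ Real.exp (-(R ^ 2 / (2 * j))) * kap (n + 1) :=
    mul_nonneg (Real.exp_pos _).le (kap_nonneg _)
  have hmain : volume {q : EuclideanSpace ℝ (Fin j) × EuclideanSpace ℝ (Fin (N + 1)) |
        ‖A q.1 + B q.2 - (A α + B β)‖ ≤ 1 ∧ R / √((n : ℝ) + 1) < ‖q.1 - α‖} ≤
      ((j * 2 : ℕ) : ENNReal) *
        ENNReal.ofReal (Real.exp (-(R ^ 2 / (2 * j))) * kap (n + 1)) := by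
    refine (measure_mono hsub).trans ((measure_iUnion_fintype_le _ _).trans ?_)
    refine (Finset.sum_le_card_nsmul _ _
      (ENNReal.ofReal (Real.exp (-(R ^ 2 / (2 * j))) * kap (n + 1))) ?_).trans ?_
    · intro p _
      rw [hvol p]
      exact hval p
    · rw [Finset.card_univ, Fintype.card_prod, Fintype.card_bool, Fintype.card_fin, nsmul_eq_mul]
  have htop : ((j * 2 : ℕ) : ENNReal) *
        ENNReal.ofReal (Real.exp (-(R ^ 2 / (2 * j))) * kap (n + 1)) ≠ ⊤ :=
    ENNReal.mul_ne_top (ENNReal.natCast_ne_top _) ENNReal.ofReal_ne_top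
  have h := ENNReal.toReal_mono htop hmain
  rw [ENNReal.toReal_mul, ENNReal.toReal_ofReal hb0, ENNReal.toReal_natCast] at h
  calc volume.real {q : EuclideanSpace ℝ (Fin j) × EuclideanSpace ℝ (Fin (N + 1)) |
        ‖A q.1 + B q.2 - (A α + B β)‖ ≤ 1 ∧ R / √((n : ℝ) + 1) < ‖q.1 - α‖}
      ≤ ((j * 2 : ℕ) : ℝ) * (Real.exp (-(R ^ 2 / (2 * j))) * kap (n + 1)) := h
    _ = 2 * j * Real.exp (-(R ^ 2 / (2 * j))) * kap (n + 1) := by
        push_cast
        ring

end SA70
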