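import Pool.Agent.SA70.DC1
import Pool.Agent.SA70.DC2

/-! DC: the good part of a body which is long in several directions (DC1); caps over a plane (DC2). -/
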