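import Pool.Agent.SA70.FrA
import Pool.Agent.SA70.M7a
import Pool.Agent.SC70.FirstVar

set_option autoImplicit false

open MeasureTheory Measure Metric Set Module ENNReal
open scoped Pointwise

namespace SA70

open SC70

namespace GV

lemma meas_one {E : Type*} [NormedAddCommGroup E] [MeasurableSpace E] [BorelSpace E]
    (μ : Measure E) [μ.IsAddHaarMeasure] [SecondCountableTopology E]
    (C : Set E) (hC : MeasurableSet C) (hfin : μ C ≠ ⊤) (v : E) (b : ENNReal)
    (hv : μ (C \ (v +ᵥ C)) ≤ b) :
    μ {y | y ∈ C ∧ y + v ∉ C} ≤ b := by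
  have hvC : MeasurableSet (v +ᵥ C) := hC.const_vadd v
  have h1 : v +ᵥ {y | y ∈ C ∧ y + v ∉ C} = (v +ᵥ C) \ C := by
    ext z
    simp only [Set.mem_vadd_set_iff_neg_vadd_mem, Set.mem_setOf_eq, Set.mem_diff, vadd_eq_add]
    constructor
    · rintro ⟨h1, h2⟩
      refine ⟨h1, ?_⟩
      intro h3
      apply h2
      have : -v + z + v = z := by abel
      rw [this]
      exact h3
    · rintro ⟨h1, h2⟩
      refine ⟨h1, ?_⟩
      intro h3
      apply h2
      have : -v + z + v = z := by abel
      rw [this] at h3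
      exact h3
  have h2 : μ {y | y ∈ C ∧ y + v ∉ C} = μ ((v +ᵥ C) \ C) := by
    rw [← h1, measure_vadd]
  rw [h2]
  have h3 : μ (v +ᵥ C) = μ C := measure_vadd _ _ _
  have h4 : μ ((v +ᵥ C) \ C) + μ ((v +ᵥ C) ∩ C) = μ (v +ᵥ C) := by
    rw [add_comm]
    exact measure_inter_add_diff _ hC
  have h5 : μ (C \ (v +ᵥ C)) + μ (C ∩ (v +ᵥ C)) = μ C := by
    rw [add_comm]
    exact measure_inter_add_diff _ hvC
  have h6 : μ ((v +ᵥ C) ∩ C) ≠ ⊤ := ne_top_of_le_ne_top hfin (measure_mono inter_subset_right)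
  have h7 : μ ((v +ᵥ C) \ C) + μ ((v +ᵥ C) ∩ C) = μ (C \ (v +ᵥ C)) + μ ((v +ᵥ C) ∩ C) := by
    rw [h4, h3, ← h5, inter_comm]
  have h8 := (ENNReal.add_left_inj h6).1 h7
  rw [h8]
  exact hv

end GV

theorem good_vol {n j : ℕ} (C : Set (EuclideanSpace ℝ (Fin (n + 1)))) (hconv : Convex ℝ C)
    (hCc : IsCompact C) (v : Fin j → EuclideanSpace ℝ (Fin (n + 1))) (c : ℝ) (hc : 0 ≤ c)
    (hv : ∀ i, volume (C \ (v i +ᵥ C)) ≤ ENNReal.ofReal c * volume C) :
    volume.real {x | x ∈ C ∧ ∃ s : Fin j → ℝ, (∀ i, |s i| ≤ 1) ∧ x + ∑ i, s i • v i ∉ C} ≤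
      2 ^ j * j * c * volume.real C := by
  have hCm : MeasurableSet C := hCc.measurableSet
  have hfin : volume C ≠ ⊤ := hCc.measure_lt_top.ne
  -- one step in either direction
  have hstep : ∀ i, ∀ ε : ℝ, (ε = 1 ∨ ε = -1) →
      volume {y | y ∈ C ∧ y + ε • v i ∉ C} ≤ ENNReal.ofReal c * volume C := by
    intro i ε hε
    rcases hε with rfl | rfl
    · rw [one_smul]
      exact GV.meas_one volume C hCm hfin (v i) _ (hv i)
    · -- C \ (v i + C) = {y in C, y - v i not in C}
      refine le_trans (measure_mono ?_) (hv i)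
      rintro y ⟨hy1, hy2⟩
      refine ⟨hy1, ?_⟩
      intro hy3
      apply hy2
      rw [Set.mem_vadd_set_iff_neg_vadd_mem, vadd_eq_add] at hy3
      have : y + (-1 : ℝ) • v i = -v i + y := by rw [neg_one_smul]; abel
      rw [this]
      exact hy3
  -- corners
  have hcorner : ∀ σ : Fin j → ℝ, (∀ i, σ i = 1 ∨ σ i = -1) → ∀ F : Finset (Fin j),
      volume {x | x ∈ C ∧ x + ∑ i ∈ F, σ i • v i ∉ C} ≤
        (F.card : ENNReal) * (ENNReal.ofReal c * volume C) := by
    intro σ hσ F
    induction F using Finset.induction_on with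
    | empty =>
      simp only [Finset.sum_empty, add_zero, Finset.card_empty, Nat.cast_zero, zero_mul,
        nonpos_iff_eq_zero]
      have : {x | x ∈ C ∧ x ∉ C} = (∅ : Set (EuclideanSpace ℝ (Fin (n + 1)))) := by
        ext x
        simp
      rw [this, measure_empty]
    | insert a F ha ih =>
      have hsub : {x | x ∈ C ∧ x + ∑ i ∈ insert a F, σ i • v i ∉ C} ⊆
          {x | x ∈ C ∧ x + ∑ i ∈ F, σ i • v i ∉ C} ∪
          (fun x => x + ∑ i ∈ F, σ i • v i) ⁻¹' {y | y ∈ C ∧ y + σ a • v a ∉ C} := by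
        rintro x ⟨hx1, hx2⟩
        by_cases h : x + ∑ i ∈ F, σ i • v i ∈ C
        · right
          refine ⟨h, ?_⟩
          intro h3
          apply hx2
          rw [Finset.sum_insert ha]
          have : x + (σ a • v a + ∑ i ∈ F, σ i • v i) = x + ∑ i ∈ F, σ i • v i + σ a • v a := by
            abel
          rw [this]
          exact h3
        · left
          exact ⟨hx1, h⟩
      refine (measure_mono hsub).trans ((measure_union_le _ _).trans ?_)
      rw [measure_preimage_add_right, Finset.card_insert_of_notMem ha]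
      push_cast
      rw [add_mul, one_mul]
      exact add_le_add ih (hstep a (σ a) (hσ a))
  -- the union over corners
  have hcov : {x | x ∈ C ∧ ∃ s : Fin j → ℝ, (∀ i, |s i| ≤ 1) ∧ x + ∑ i, s i • v i ∉ C} ⊆
      ⋃ b : Fin j → Bool, {x | x ∈ C ∧ x + ∑ i, (if b i then (1 : ℝ) else -1) • v i ∉ C} := by
    rintro x ⟨hx1, s, hs, hx2⟩
    by_contra hno
    simp only [mem_iUnion, mem_setOf_eq, not_exists, not_and, not_not] at hno
    apply hx2
    have hT : Convex ℝ {t : Fin j → ℝ | x + ∑ i, t i • v i ∈ C} := by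
      intro t ht u hu a b ha hb hab
      simp only [mem_setOf_eq] at ht hu ⊢
      have := hconv ht hu ha hb hab
      have heq : a • (x + ∑ i, t i • v i) + b • (x + ∑ i, u i • v i) =
          x + ∑ i, (a • t + b • u) i • v i := by
        simp only [Pi.add_apply, Pi.smul_apply, smul_eq_mul, add_smul, Finset.sum_add_distrib,
          mul_smul, smul_add, Finset.smul_sum]
        have : x = a • x + b • x := by rw [← add_smul, hab, one_smul]
        nth_rewrite 3 [this]
        abel
      rw [← heq]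
      exact this
    have hpi : Set.univ.pi (fun _ : Fin j => ({-1, 1} : Set ℝ)) ⊆
        {t : Fin j → ℝ | x + ∑ i, t i • v i ∈ C} := by
      intro t ht
      have h1 := hno (fun i => decide (t i = 1)) hx1
      simp only [mem_setOf_eq]
      have h2 : ∀ i, (if (decide (t i = 1)) = true then (1 : ℝ) else -1) = t i := by
        intro i
        have h3 := ht i (mem_univ i)
        simp only [mem_insert_iff, mem_singleton_iff] at h3
        rcases h3 with h3 | h3
        · rw [h3]
          norm_num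
        · rw [h3]
          norm_num
      simp only [h2] at h1
      exact h1
    have hhull := convexHull_min hpi hT
    rw [convexHull_pi] at hhull
    apply hhull
    intro i _
    rw [convexHull_pair, segment_eq_Icc (by norm_num)]
    exact abs_le.1 (hs i)
  have hmain : volume {x | x ∈ C ∧ ∃ s : Fin j → ℝ, (∀ i, |s i| ≤ 1) ∧ x + ∑ i, s i • v i ∉ C} ≤
      2 ^ j * (j * (ENNReal.ofReal c * volume C)) := by
    refine (measure_mono hcov).trans ((measure_iUnion_fintype_le _ _).trans ?_)
    refine (Finset.sum_le_card_nsmul _ _ ((j : ENNReal) * (ENNReal.ofReal c * volume C)) ?_).trans ?_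
    · intro b _
      have := hcorner (fun i => if b i then (1 : ℝ) else -1) (by intro i; by_cases h : b i <;> simp [h])
        Finset.univ
      rwa [Finset.card_univ, Fintype.card_fin] at this
    · rw [Finset.card_univ, Fintype.card_fun, Fintype.card_bool, Fintype.card_fin, nsmul_eq_mul]
      push_cast
      exact le_rfl
  have htop : (2 : ENNReal) ^ j * (j * (ENNReal.ofReal c * volume C)) ≠ ⊤ := by
    refine ENNReal.mul_ne_top (ENNReal.pow_ne_top (by norm_num)) (ENNReal.mul_ne_top (by simp)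
      (ENNReal.mul_ne_top ENNReal.ofReal_ne_top hfin))
  have h := ENNReal.toReal_mono htop hmain
  rw [ENNReal.toReal_mul, ENNReal.toReal_pow, ENNReal.toReal_mul, ENNReal.toReal_mul,
    ENNReal.toReal_ofReal hc] at h
  simp only [ENNReal.toReal_ofNat, ENNReal.toReal_natCast] at h
  calc volume.real {x | x ∈ C ∧ ∃ s : Fin j → ℝ, (∀ i, |s i| ≤ 1) ∧ x + ∑ i, s i • v i ∉ C}
      ≤ 2 ^ j * (j * (c * volume.real C)) := h
    _ = 2 ^ j * j * c * volume.real C := by ring

end SA70
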