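import Pool.Agent.SA70.M1
import Pool.Agent.SC70.TNum
import Pool.Agent.SC70.WMaj
import Pool.Agent.SC70.FirstVar

/-! M6c: sections of a convex body do not get smaller towards a far good point.
`m6c_far`: a good section near a good point (Fubini, Chebyshev); `m6c_pl`, `m6c_loss`: Prekopa-Leindler in the
sections and the loss; `m6c_ball`: the moved ball sticks out little. -/

set_option autoImplicit false

open MeasureTheory Measure Metric Set Module ENNReal

namespace SA70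

open SC70

/-- Chebyshev on the ball -/
lemma m6c_cheb {n : ℕ} (v w : EuclideanSpace ℝ (Fin (n + 1))) (b : ℝ) (hb : 0 < b) :
    b ^ 2 * volume.real (closedBall w 1 ∩ {x | b < |inner ℝ v (x - w)|}) ≤
      kap (n + 1) * (‖v‖ ^ 2 / ((n : ℝ) + 1 + 2)) := by
  have h0 : ∫ x in closedBall w 1, (inner ℝ v (x - w)) ^ 2 =
      kap (n + 1) * (‖v‖ ^ 2 / ((n : ℝ) + 1 + 2)) := by
    have h := integral_inner_sq_ball (n := n + 1) (by omega) v
    push_cast at h
    rw [← h, ← integral_indicator measurableSet_closedBall,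
      ← integral_indicator measurableSet_closedBall, ← integral_add_right_eq_self _ w]
    congr 1
    funext x
    by_cases hx : x ∈ closedBall (0 : EuclideanSpace ℝ (Fin (n + 1))) 1
    · rw [indicator_of_mem hx, indicator_of_mem (by simpa using hx), add_sub_cancel_right]
    · rw [indicator_of_notMem hx, indicator_of_notMem (by simpa using hx)]
  rw [← h0]
  have hint : IntegrableOn (fun x => (inner ℝ v (x - w)) ^ 2) (closedBall w 1) :=
    ((by fun_prop : Continuous (fun x : EuclideanSpace ℝ (Fin (n + 1)) =>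
      (inner ℝ v (x - w)) ^ 2)).continuousOn).integrableOn_compact (isCompact_closedBall _ _)
  have h1 := mul_meas_ge_le_integral_of_nonneg (μ := volume.restrict (closedBall w 1))
    (f := fun x => (inner ℝ v (x - w)) ^ 2) (Filter.Eventually.of_forall fun x => sq_nonneg _)
    hint (b ^ 2)
  refine le_trans ?_ h1
  refine mul_le_mul_of_nonneg_left ?_ (sq_nonneg b)
  have hm : MeasurableSet {x : EuclideanSpace ℝ (Fin (n + 1)) | b ^ 2 ≤ (inner ℝ v (x - w)) ^ 2} :=
    (isClosed_le (by fun_prop) (by fun_prop)).measurableSet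
  rw [measureReal_restrict_apply hm]
  refine measureReal_mono ?_ ?_
  · rintro x ⟨hx1, hx2⟩
    refine ⟨?_, hx1⟩
    simp only [mem_ofPred_eq] at hx2 ⊢
    rw [← sq_abs (inner ℝ v (x - w))]
    exact pow_le_pow_left₀ hb.le hx2.le 2
  · exact ne_top_of_le_ne_top (measure_closedBall_lt_top (x := w) (r := 1)).ne
      (measure_mono inter_subset_right)

/-- a good section -/
lemma m6c_far (η₁ : ℝ) (hη₁ : 0 < η₁) : ∃ η₂ : ℝ, 0 < η₂ ∧ ∃ A₁ : ℝ, 0 < A₁ ∧ ∀ n : ℕ, 1 ≤ n →
    ∀ (e : EuclideanSpace ℝ (Fin (n + 1))) (_ : ‖e‖ = 1)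
      (L : EuclideanSpace ℝ (Fin n) →ₗᵢ[ℝ] EuclideanSpace ℝ (Fin (n + 1)))
      (_ : ∀ y, inner ℝ e (L y) = 0)
      (_ : MeasurePreserving
        (fun z : ℝ × EuclideanSpace ℝ (Fin n) => z.1 • e + L z.2) volume volume)
      (C : Set (EuclideanSpace ℝ (Fin (n + 1)))) (_ : IsCompact C)
      (tp : ℝ) (q : EuclideanSpace ℝ (Fin n)),
      η₁ * kap (n + 1) ≤ volume.real (C ∩ closedBall (tp • e + L q) 1) →
      ∃ tb : ℝ, √((n : ℝ) + 1) * |tb - tp| ≤ A₁ ∧
        η₂ * kap n ≤ volume.real {z : EuclideanSpace ℝ (Fin n) | tb • e + L z ∈ C ∧ ‖z - q‖ ≤ 1} := by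
  obtain ⟨a, ha, ha2⟩ : ∃ a : ℝ, 0 < a ∧ a ^ 2 * η₁ = 2 := by
    refine ⟨√(2 / η₁), Real.sqrt_pos.2 (by positivity), ?_⟩
    rw [Real.sq_sqrt (by positivity)]
    field_simp
  obtain ⟨η₂, hη₂, hη₂'⟩ : ∃ η₂ : ℝ, 0 < η₂ ∧ 16 * a * η₂ = η₁ := by
    refine ⟨η₁ / (16 * a), by positivity, ?_⟩
    field_simp
  refine ⟨η₂, hη₂, a, ha, ?_⟩
  intro n hn e he L hL hmp C hC tp q hvol
  by_contra hcon
  push Not at hcon
  have hd : (0 : ℝ) < (n : ℝ) + 1 := by positivity
  have hsd : 0 < √((n : ℝ) + 1) := Real.sqrt_pos.2 hd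
  have hκ := kap_pos (n + 1)
  have hk := kap_nonneg n
  set p := tp • e + L q with hp
  set b := a / √((n : ℝ) + 1) with hb
  have hb0 : 0 < b := by positivity
  set χ : ℝ × EuclideanSpace ℝ (Fin n) → EuclideanSpace ℝ (Fin (n + 1)) :=
    fun z => z.1 • e + L z.2 with hχ
  have hLc : Continuous L := L.continuous
  have hχc : Continuous χ := by
    simp only [hχ]
    fun_prop
  set Nr : Set (EuclideanSpace ℝ (Fin (n + 1))) :=
    (C ∩ closedBall p 1) ∩ {x | |inner ℝ e (x - p)| ≤ b} with hNr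
  have hNm : MeasurableSet Nr := (hC.measurableSet.inter measurableSet_closedBall).inter
    (isClosed_le (by fun_prop) (by fun_prop)).measurableSet
  have hdiff : ∀ (t : ℝ) (z : EuclideanSpace ℝ (Fin n)),
      χ (t, z) - p = (t - tp) • e + L (z - q) := by
    intro t z
    simp only [hχ, hp, sub_smul, map_sub]
    abel
  have hinner : ∀ (t : ℝ) (z : EuclideanSpace ℝ (Fin n)), inner ℝ e (χ (t, z) - p) = t - tp := by
    intro t z
    rw [hdiff, inner_add_right, inner_smul_right, hL, real_inner_self_eq_norm_sq, he]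
    ring
  have hnormz : ∀ (t : ℝ) (z : EuclideanSpace ℝ (Fin n)),
      ‖χ (t, z) - p‖ ^ 2 = (t - tp) ^ 2 + ‖z - q‖ ^ 2 := by
    intro t z
    rw [hdiff, frame_norm he L hL]
  have hV1 : volume Nr ≤ ENNReal.ofReal (η₂ * kap n) * ENNReal.ofReal (2 * b) := by
    rw [← hmp.measure_preimage hNm.nullMeasurableSet, Measure.volume_eq_prod,
      Measure.prod_apply (hχc.measurable hNm)]
    calc ∫⁻ t : ℝ, volume (Prod.mk t ⁻¹' (χ ⁻¹' Nr))
        ≤ ∫⁻ t, (Icc (tp - b) (tp + b)).indicator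
            (fun _ => ENNReal.ofReal (η₂ * kap n)) t := by
          apply lintegral_mono
          intro t
          by_cases ht : t ∈ Icc (tp - b) (tp + b)
          · simp only
            rw [indicator_of_mem ht]
            have hsub : Prod.mk t ⁻¹' (χ ⁻¹' Nr) ⊆ {z | t • e + L z ∈ C ∧ ‖z - q‖ ≤ 1} := by
              intro z hz
              simp only [mem_preimage] at hz
              obtain ⟨⟨h1, h2⟩, h3⟩ := hz
              refine ⟨h1, ?_⟩
              rw [mem_closedBall, dist_eq_norm] at h2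
              have h4 := hnormz t z
              have h5 : ‖χ (t, z) - p‖ ^ 2 ≤ 1 ^ 2 := pow_le_pow_left₀ (norm_nonneg _) h2 2
              have h6 : ‖z - q‖ ^ 2 ≤ 1 ^ 2 := by nlinarith [sq_nonneg (t - tp)]
              exact abs_le_of_sq_le_sq' h6 zero_le_one |>.2
            have hfin : volume {z : EuclideanSpace ℝ (Fin n) | t • e + L z ∈ C ∧ ‖z - q‖ ≤ 1} ≠ ∞ :=
              ne_top_of_le_ne_top (measure_closedBall_lt_top (x := q) (r := 1)).ne
                (measure_mono fun z hz => by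
                  rw [mem_closedBall, dist_eq_norm]; exact hz.2)
            refine (measure_mono hsub).trans ?_
            rw [← ofReal_measureReal hfin]
            apply ENNReal.ofReal_le_ofReal
            refine (hcon t ?_).le
            have h7 : |t - tp| ≤ b := by
              rw [abs_le]
              constructor <;> linarith [ht.1, ht.2]
            calc √((n : ℝ) + 1) * |t - tp| ≤ √((n : ℝ) + 1) * b := by gcongr
              _ = a := by rw [hb]; field_simp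
          · simp only
            rw [indicator_of_notMem ht]
            have : Prod.mk t ⁻¹' (χ ⁻¹' Nr) = ∅ := by
              ext z
              simp only [mem_preimage, mem_empty_iff_false, iff_false]
              rintro ⟨_, h3⟩
              apply ht
              simp only [mem_ofPred_eq] at h3
              rw [hinner, abs_le] at h3
              exact ⟨by linarith [h3.1], by linarith [h3.2]⟩
            rw [this, measure_empty]
      _ = ENNReal.ofReal (η₂ * kap n) * ENNReal.ofReal (2 * b) := by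
          rw [lintegral_indicator_const measurableSet_Icc, Real.volume_Icc]
          congr 2
          ring
  have hV1' : volume.real Nr ≤ η₂ * kap n * (2 * b) := by
    rw [← ENNReal.ofReal_mul (by positivity)] at hV1
    have := ENNReal.toReal_mono ENNReal.ofReal_ne_top hV1
    rwa [ENNReal.toReal_ofReal (by positivity)] at this
  have hV2 := m6c_cheb e p b hb0
  set V := volume.real (closedBall p 1 ∩ {x | b < |inner ℝ e (x - p)|}) with hV
  have hV0 : 0 ≤ V := measureReal_nonneg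
  have hV3 : V ≤ η₁ / 2 * kap (n + 1) := by
    rw [he] at hV2
    have h1 : b ^ 2 * ((n : ℝ) + 1) = a ^ 2 := by
      rw [hb, div_pow, Real.sq_sqrt hd.le]
      field_simp
    have h2 : kap (n + 1) * (1 ^ 2 / ((n : ℝ) + 1 + 2)) ≤ kap (n + 1) * (1 / ((n : ℝ) + 1)) := by
      refine mul_le_mul_of_nonneg_left ?_ hκ.le
      rw [one_pow]
      exact one_div_le_one_div_of_le hd (by linarith)
    have h3 : a ^ 2 * V ≤ kap (n + 1) := by
      have h4 := mul_le_mul_of_nonneg_right (hV2.trans h2) hd.le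
      have h5 : kap (n + 1) * (1 / ((n : ℝ) + 1)) * ((n : ℝ) + 1) = kap (n + 1) := by
        field_simp
      rw [h5] at h4
      calc a ^ 2 * V = b ^ 2 * V * ((n : ℝ) + 1) := by rw [← h1]; ring
        _ ≤ _ := h4
    have h6 : η₁ / 2 * (a ^ 2 * V) ≤ η₁ / 2 * kap (n + 1) := by gcongr
    have h7 : η₁ / 2 * (a ^ 2 * V) = V := by
      have : η₁ / 2 * (a ^ 2 * V) = (a ^ 2 * η₁) / 2 * V := by ring
      rw [this, ha2]; ring
    linarith
  have hV4 : volume.real (C ∩ closedBall p 1) ≤ volume.real Nr + V := by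
    refine le_trans (measureReal_mono (s₂ := Nr ∪ (closedBall p 1 ∩
      {x | b < |inner ℝ e (x - p)|})) ?_ ?_) (measureReal_union_le _ _)
    · intro x hx
      by_cases h : b < |inner ℝ e (x - p)|
      · exact Or.inr ⟨hx.2, h⟩
      · exact Or.inl ⟨hx, not_lt.1 h⟩
    · refine ne_top_of_le_ne_top (measure_closedBall_lt_top (x := p) (r := 1)).ne
        (measure_mono ?_)
      rintro x (hx | hx)
      · exact hx.1.2
      · exact hx.1
  have hk2 : kap n * b ≤ 2 * a * kap (n + 1) := by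
    have h5 := kap_succ_ge hn
    have h7 : 1 ≤ 2 * √((n : ℝ) + 1) * √(2 * Real.pi / ((n : ℝ) + 2)) := by
      rw [mul_assoc, ← Real.sqrt_mul hd.le]
      have h8 : 1 ≤ √(((n : ℝ) + 1) * (2 * Real.pi / ((n : ℝ) + 2))) := by
        rw [Real.one_le_sqrt, ← mul_div_assoc, le_div_iff₀ (by positivity)]
        have := Real.pi_gt_three
        nlinarith
      linarith
    have h9 : kap n ≤ 2 * √((n : ℝ) + 1) * kap (n + 1) := by
      calc kap n = kap n * 1 := by ring
        _ ≤ kap n * (2 * √((n : ℝ) + 1) * √(2 * Real.pi / ((n : ℝ) + 2))) :=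
            mul_le_mul_of_nonneg_left h7 hk
        _ = 2 * √((n : ℝ) + 1) * (kap n * √(2 * Real.pi / ((n : ℝ) + 2))) := by ring
        _ ≤ _ := mul_le_mul_of_nonneg_left h5 (by positivity)
    calc kap n * b ≤ 2 * √((n : ℝ) + 1) * kap (n + 1) * b := by gcongr
      _ = 2 * (√((n : ℝ) + 1) * b) * kap (n + 1) := by ring
      _ = 2 * a * kap (n + 1) := by
          have : √((n : ℝ) + 1) * b = a := by rw [hb]; field_simp
          rw [this]
  have h10 : volume.real Nr ≤ η₁ / 4 * kap (n + 1) := by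
    calc volume.real Nr ≤ η₂ * kap n * (2 * b) := hV1'
      _ = 2 * η₂ * (kap n * b) := by ring
      _ ≤ 2 * η₂ * (2 * a * kap (n + 1)) := by gcongr
      _ = 16 * a * η₂ / 4 * kap (n + 1) := by ring
      _ = η₁ / 4 * kap (n + 1) := by rw [hη₂']
  have h11 : 0 < η₁ * kap (n + 1) := by positivity
  linarith

/-- Prekopa-Leindler for indicators -/
lemma m6c_pl {n : ℕ} (s : ℝ) (hs0 : 0 < s) (hs1 : s < 1)
    (A₁ A₂ A₃ : Set (EuclideanSpace ℝ (Fin n))) (h1 : MeasurableSet A₁) (h2 : MeasurableSet A₂)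
    (h3 : MeasurableSet A₃) (hf : volume A₃ ≠ ∞)
    (H : ∀ x ∈ A₁, ∀ y ∈ A₂, (1 - s) • x + s • y ∈ A₃) :
    volume.real A₁ ^ (1 - s) * volume.real A₂ ^ s ≤ volume.real A₃ := by
  have key : (∫⁻ x, A₁.indicator (fun _ => (1 : ℝ≥0∞)) x) ^ (1 - s) *
      (∫⁻ x, A₂.indicator (fun _ => (1 : ℝ≥0∞)) x) ^ s ≤
      ∫⁻ x, A₃.indicator (fun _ => (1 : ℝ≥0∞)) x := by
    have hu : Measurable (A₁.indicator (fun _ => (1 : ℝ≥0∞))) := measurable_const.indicator h1
    have hv : Measurable (A₂.indicator (fun _ => (1 : ℝ≥0∞))) := measurable_const.indicator h2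
    have hw : Measurable (A₃.indicator (fun _ => (1 : ℝ≥0∞))) := measurable_const.indicator h3
    refine pl_general s hs0 hs1 hu hv hw fun x y => ?_
    by_cases hx : x ∈ A₁
    swap
    · rw [indicator_of_notMem hx, ENNReal.zero_rpow_of_pos (by linarith), zero_mul]
      exact bot_le
    by_cases hy : y ∈ A₂
    swap
    · rw [indicator_of_notMem hy, ENNReal.zero_rpow_of_pos hs0, mul_zero]
      exact bot_le
    rw [indicator_of_mem hx, indicator_of_mem hy, ENNReal.one_rpow, ENNReal.one_rpow, one_mul,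
      indicator_of_mem (H _ hx _ hy)]
  rw [lintegral_indicator_const h1, lintegral_indicator_const h2, lintegral_indicator_const h3,
    one_mul, one_mul, one_mul] at key
  have h4 := ENNReal.toReal_mono hf key
  rw [ENNReal.toReal_mul, ← ENNReal.toReal_rpow, ← ENNReal.toReal_rpow] at h4
  exact h4

/-- the loss in the interpolation -/
lemma m6c_loss (V₁ V₂ κ a c s : ℝ) (hV₁ : 0 ≤ V₁) (hV : V₁ ≤ a * κ) (hc : 0 < c) (hc1 : c ≤ 1)
    (hV₂ : c * V₁ ≤ V₂) (hs0 : 0 < s) (hs1 : s < 1) :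
    V₁ - a * κ * (s * (-Real.log c)) ≤ V₁ ^ (1 - s) * V₂ ^ s := by
  have hlog : 0 ≤ -Real.log c := by
    have := Real.log_nonpos hc.le hc1
    linarith
  rcases eq_or_lt_of_le hV₁ with h0 | h0
  · have h1 : 0 ≤ a * κ * (s * (-Real.log c)) :=
      mul_nonneg (hV₁.trans hV) (mul_nonneg hs0.le hlog)
    rw [← h0, Real.zero_rpow (by linarith), zero_mul]
    linarith
  · have h1 : (c * V₁) ^ s ≤ V₂ ^ s := Real.rpow_le_rpow (by positivity) hV₂ hs0.le
    rw [Real.mul_rpow hc.le hV₁] at h1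
    have h2 : 1 + s * Real.log c ≤ c ^ s := by
      rw [Real.rpow_def_of_pos hc]
      have := Real.add_one_le_exp (Real.log c * s)
      linarith
    have h3 : V₁ ^ (1 - s) * V₁ ^ s = V₁ := by
      rw [← Real.rpow_add h0, sub_add_cancel, Real.rpow_one]
    have h4 : 0 < V₁ ^ (1 - s) := Real.rpow_pos_of_pos h0 _
    calc V₁ - a * κ * (s * (-Real.log c)) ≤ V₁ - V₁ * (s * (-Real.log c)) := by
          have : 0 ≤ s * (-Real.log c) := mul_nonneg hs0.le hlog
          have := mul_le_mul_of_nonneg_right hV this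
          linarith
      _ = V₁ * (1 + s * Real.log c) := by ring
      _ ≤ V₁ * c ^ s := mul_le_mul_of_nonneg_left h2 hV₁
      _ = V₁ ^ (1 - s) * (c ^ s * V₁ ^ s) := by
          nth_rewrite 1 [← h3]; ring
      _ ≤ V₁ ^ (1 - s) * V₂ ^ s := mul_le_mul_of_nonneg_left h1 h4.le

lemma m6c_vol {n : ℕ} (c : EuclideanSpace ℝ (Fin n)) (r : ℝ) (hr : 0 ≤ r) :
    volume.real (closedBall c r) = r ^ n * kap n := by
  rw [measureReal_def, addHaar_closedBall' volume c hr, ENNReal.toReal_mul,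
    ENNReal.toReal_ofReal (by positivity), finrank_euclideanSpace, Fintype.card_fin]
  rfl

/-- the part of a shifted ball outside a ball -/
lemma m6c_shift {n : ℕ} (hn : 2 ≤ n) (c : EuclideanSpace ℝ (Fin n)) (r K : ℝ) (hr : 0 ≤ r)
    (hK : r ^ (n - 1) ≤ K) :
    volume.real (closedBall c r \ closedBall 0 r) ≤ √((n : ℝ) + 1) * ‖c‖ * K * kap n := by
  obtain ⟨N, rfl⟩ : ∃ N, n = N + 1 := ⟨n - 1, by omega⟩
  have hN : 1 ≤ N := by omega
  have hk := kap_nonneg N
  have hk1 := kap_nonneg (N + 1)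
  have hK' : r ^ N ≤ K := by simpa using hK
  have hK0 : 0 ≤ K := le_trans (by positivity) hK'
  have h1 := ball_exit_r (closedBall c r) (convex_closedBall _ _) (isCompact_closedBall _ _) c c 1
    r zero_le_one hr
  have h2 : closedBall c r \ closedBall 0 r ⊆
      {x | x ∈ closedBall c r ∧ x ∈ closedBall c r ∧ x + (1 : ℝ) • c ∉ closedBall c r} := by
    rintro x ⟨hx1, hx2⟩
    refine ⟨hx1, hx1, fun h => hx2 ?_⟩
    rw [mem_closedBall, dist_eq_norm] at h ⊢
    simpa using h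
  have h3 := (measure_mono h2).trans h1
  have h4 : volume.real (closedBall c r \ closedBall 0 r) ≤ 1 * ‖c‖ * (kap N * r ^ N) := by
    have := ENNReal.toReal_mono ENNReal.ofReal_ne_top h3
    rwa [ENNReal.toReal_ofReal (by positivity)] at this
  refine h4.trans ?_
  have h5 := kap_succ_ge hN
  have h6 : kap N ≤ √((N : ℝ) + 2) * kap (N + 1) := by
    have h7 : 1 ≤ √((N : ℝ) + 2) * √(2 * Real.pi / ((N : ℝ) + 2)) := by
      rw [← Real.sqrt_mul (by positivity), Real.one_le_sqrt]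
      have : ((N : ℝ) + 2) * (2 * Real.pi / ((N : ℝ) + 2)) = 2 * Real.pi := by
        field_simp
      rw [this]
      have := Real.pi_gt_three
      linarith
    calc kap N = kap N * 1 := by ring
      _ ≤ kap N * (√((N : ℝ) + 2) * √(2 * Real.pi / ((N : ℝ) + 2))) :=
          mul_le_mul_of_nonneg_left h7 hk
      _ = √((N : ℝ) + 2) * (kap N * √(2 * Real.pi / ((N : ℝ) + 2))) := by ring
      _ ≤ _ := mul_le_mul_of_nonneg_left h5 (Real.sqrt_nonneg _)
  have e : ((N + 1 : ℕ) : ℝ) + 1 = (N : ℝ) + 2 := by push_cast; ring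
  rw [e]
  calc 1 * ‖c‖ * (kap N * r ^ N) ≤ 1 * ‖c‖ * ((√((N : ℝ) + 2) * kap (N + 1)) * K) := by gcongr
    _ = _ := by ring

lemma m6c_ball {n : ℕ} (hn : 2 ≤ n) (c : EuclideanSpace ℝ (Fin n)) (r s K : ℝ) (hr : 0 ≤ r)
    (hs0 : 0 ≤ s) (hs1 : s ≤ 1) (hK : r ^ (n - 1) ≤ K) :
    volume.real (closedBall c ((1 - s) * r + s) \ closedBall 0 r) ≤
      s * kap n + √((n : ℝ) + 1) * ‖c‖ * K * kap n := by
  have hk := kap_nonneg n
  have hr' : 0 ≤ (1 - s) * r + s := by nlinarith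
  have hfin : ∀ (c : EuclideanSpace ℝ (Fin n)) (r : ℝ), volume (closedBall c r) ≠ ∞ := fun c r =>
    measure_closedBall_lt_top.ne
  have h1 : closedBall c ((1 - s) * r + s) \ closedBall 0 r ⊆
      (closedBall c ((1 - s) * r + s) \ closedBall c r) ∪ (closedBall c r \ closedBall 0 r) := by
    rintro x ⟨hx1, hx2⟩
    by_cases h : x ∈ closedBall c r
    · exact Or.inr ⟨h, hx2⟩
    · exact Or.inl ⟨hx1, h⟩
  have h2 : volume.real (closedBall c ((1 - s) * r + s) \ closedBall 0 r) ≤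
      volume.real (closedBall c ((1 - s) * r + s) \ closedBall c r) +
      volume.real (closedBall c r \ closedBall 0 r) := by
    refine le_trans (measureReal_mono h1 ?_) (measureReal_union_le _ _)
    refine ne_top_of_le_ne_top (ENNReal.add_ne_top.2 ⟨hfin c ((1 - s) * r + s), hfin c r⟩)
      ((measure_union_le _ _).trans (add_le_add (measure_mono sdiff_subset)
        (measure_mono sdiff_subset)))
  have h3 : volume.real (closedBall c ((1 - s) * r + s) \ closedBall c r) ≤ s * kap n := by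
    rcases le_total ((1 - s) * r + s) r with h | h
    · rw [sdiff_eq_empty.2 (closedBall_subset_closedBall h), measureReal_empty]
      positivity
    · rw [measureReal_sdiff (closedBall_subset_closedBall h) measurableSet_closedBall (hfin _ _),
        m6c_vol _ _ hr', m6c_vol _ _ hr, ← sub_mul]
      refine mul_le_mul_of_nonneg_right ?_ hk
      have h4 := (convexOn_pow n).2 (x := r) hr (y := 1) (by norm_num : (0 : ℝ) ≤ 1)
        (by linarith : 0 ≤ 1 - s) hs0 (by ring)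
      simp only [smul_eq_mul, mul_one, one_pow] at h4
      have h5 : 0 ≤ r ^ n := by positivity
      nlinarith
  have h4 := m6c_shift hn c r K hr hK
  linarith

/-- volume of the part of the section of `C` at height `t` (direction `e`) in the ball of radius `r`
around the axis -/
noncomputable def sec {n : ℕ} (C : Set (EuclideanSpace ℝ (Fin (n + 1))))
    (e : EuclideanSpace ℝ (Fin (n + 1)))
    (L : EuclideanSpace ℝ (Fin n) →ₗᵢ[ℝ] EuclideanSpace ℝ (Fin (n + 1))) (t r : ℝ) : ℝ :=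
  volume.real {z : EuclideanSpace ℝ (Fin n) | t • e + L z ∈ C ∧ ‖z‖ ≤ r}

theorem sec_move (A ε' η₁ : ℝ) (hA : 1 ≤ A) (hε' : 0 < ε') (hη₁ : 0 < η₁) : ∃ δ' : ℝ, 0 < δ' ∧
    ∃ R₁ : ℝ, ∃ d₀ : ℕ, ∀ n : ℕ, d₀ ≤ n →
      ∀ (e : EuclideanSpace ℝ (Fin (n + 1))) (_ : ‖e‖ = 1)
        (L : EuclideanSpace ℝ (Fin n) →ₗᵢ[ℝ] EuclideanSpace ℝ (Fin (n + 1)))
        (_ : ∀ y, inner ℝ e (L y) = 0)
        (_ : MeasurePreserving
          (fun z : ℝ × EuclideanSpace ℝ (Fin n) => z.1 • e + L z.2) volume volume)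
        (_ : Function.Surjective (fun z : ℝ × EuclideanSpace ℝ (Fin n) => z.1 • e + L z.2))
        (C : Set (EuclideanSpace ℝ (Fin (n + 1)))) (_ : Convex ℝ C) (_ : IsCompact C)
        (p : EuclideanSpace ℝ (Fin (n + 1))), R₁ ≤ √((n : ℝ) + 1) * ‖p‖ →
        ‖p - ‖p‖ • e‖ ≤ δ' * ‖p‖ → η₁ * kap (n + 1) ≤ volume.real (C ∩ closedBall p 1) →
        ∀ t t' r : ℝ, -A ≤ √((n : ℝ) + 1) * t → t ≤ t' → √((n : ℝ) + 1) * t' ≤ A →
          |r - 1| ≤ A ^ 2 / ((n : ℝ) + 1) →
          sec C e L t r ≤ sec C e L t' r + ε' * kap n := by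
  obtain ⟨η₂, hη₂, A₁, hA₁, hfar⟩ := m6c_far η₁ hη₁
  obtain ⟨η, hη, hη1, hηη₂⟩ : ∃ η : ℝ, 0 < η ∧ η ≤ 1 ∧ η ≤ η₂ :=
    ⟨min η₂ 1, lt_min hη₂ one_pos, min_le_right _ _, min_le_left _ _⟩
  obtain ⟨C₁, hC₁⟩ : ∃ C₁ : ℝ, C₁ = Real.exp (A ^ 2) := ⟨_, rfl⟩
  have hC₁1 : 1 ≤ C₁ := by rw [hC₁]; exact Real.one_le_exp (sq_nonneg A)
  have hC₁0 : 0 < C₁ := by linarith
  have hA0 : 0 < A := by linarith
  obtain ⟨c, hc⟩ : ∃ c : ℝ, c = η / C₁ := ⟨_, rfl⟩
  have hc0 : 0 < c := by rw [hc]; positivity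
  have hc1 : c ≤ 1 := by rw [hc, div_le_one hC₁0]; linarith
  have hcC : c * C₁ = η := by rw [hc]; field_simp
  obtain ⟨M, hM⟩ : ∃ M : ℝ, M = C₁ * (-Real.log c) + 1 := ⟨_, rfl⟩
  have hlog : 0 ≤ -Real.log c := by
    have := Real.log_nonpos hc0.le hc1
    linarith
  have hM0 : 0 < M := by rw [hM]; positivity
  obtain ⟨δ', hδ'0, hδ'1, hδ'2⟩ : ∃ δ' : ℝ, 0 < δ' ∧ δ' ≤ 1 / 4 ∧ 4 * A * δ' * C₁ ≤ ε' / 2 := by
    refine ⟨min (1 / 4) (ε' / (8 * A * C₁)), lt_min (by norm_num) (by positivity),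
      min_le_left _ _, ?_⟩
    have h1 : min (1 / 4) (ε' / (8 * A * C₁)) ≤ ε' / (8 * A * C₁) := min_le_right _ _
    calc 4 * A * min (1 / 4) (ε' / (8 * A * C₁)) * C₁
        ≤ 4 * A * (ε' / (8 * A * C₁)) * C₁ := by gcongr
      _ = ε' / 2 := by field_simp; ring
  refine ⟨δ', hδ'0, 4 * (A + A₁) + 8 * A * M / ε' + 8 * A, max 2 ⌈2 * A ^ 2⌉₊, ?_⟩
  intro n hn e he L hL hmp hsurj C hconv hC p hR hp hvol t t' r ht htt' ht' hr
  have hn2 : 2 ≤ n := le_trans (le_max_left _ _) hn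
  have hnA : 2 * A ^ 2 ≤ (n : ℝ) :=
    (Nat.le_ceil _).trans (by exact_mod_cast le_trans (le_max_right _ _) hn)
  have hd : (0 : ℝ) < (n : ℝ) + 1 := by positivity
  obtain ⟨σ, hσ⟩ : ∃ σ : ℝ, σ = √((n : ℝ) + 1) := ⟨_, rfl⟩
  have hσ0 : 0 < σ := by rw [hσ]; exact Real.sqrt_pos.2 hd
  have hk := kap_nonneg n
  rw [← hσ] at hR ht ht'
  rcases eq_or_lt_of_le htt' with heq | hlt
  · rw [heq]
    have : 0 ≤ ε' * kap n := by positivity
    linarith
  -- coordinates of `p`
  obtain ⟨⟨tp, q⟩, hpq⟩ := hsurj p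
  simp only at hpq
  have hp1 : ‖p - ‖p‖ • e‖ ^ 2 = (tp - ‖p‖) ^ 2 + ‖q‖ ^ 2 := by
    rw [← frame_norm he L hL, ← hpq, sub_smul]
    congr 2
    abel
  have hpp : 0 ≤ ‖p‖ := norm_nonneg _
  have hp2 : (tp - ‖p‖) ^ 2 + ‖q‖ ^ 2 ≤ (δ' * ‖p‖) ^ 2 := by
    rw [← hp1]; exact pow_le_pow_left₀ (norm_nonneg _) hp 2
  have hδp : 0 ≤ δ' * ‖p‖ := by positivity
  have hp3 : |tp - ‖p‖| ≤ δ' * ‖p‖ := abs_le_of_sq_le_sq (by nlinarith [sq_nonneg ‖q‖]) hδp
  have hp4 : ‖q‖ ≤ δ' * ‖p‖ := by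
    have := abs_le_of_sq_le_sq (a := ‖q‖) (b := δ' * ‖p‖) (by nlinarith [sq_nonneg (tp - ‖p‖)]) hδp
    rwa [abs_of_nonneg (norm_nonneg _)] at this
  rw [← hpq] at hvol
  obtain ⟨tb, htb, hV₂⟩ := hfar n (by omega) e he L hL hmp C hC tp q hvol
  rw [← hσ] at htb
  obtain ⟨R, hRdef⟩ : ∃ R : ℝ, R = σ * ‖p‖ := ⟨_, rfl⟩
  rw [← hRdef] at hR
  have hq8 : 0 ≤ 8 * A * M / ε' := by positivity
  have hR1 : 4 * (A + A₁) ≤ R := by linarith
  have hR2 : 8 * A * M / ε' ≤ R := by nlinarith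
  have hR3 : 8 * A ≤ R := by nlinarith
  have hR0 : 0 < R := by linarith
  have htb1 : 3 / 4 * R - A₁ ≤ σ * tb := by
    have h1 := (abs_le.1 hp3).1
    have h2 : -(A₁) ≤ σ * (tb - tp) := by
      have h3 := neg_abs_le (tb - tp)
      have h4 := mul_le_mul_of_nonneg_left h3 hσ0.le
      linarith
    have h5 : σ * (-(δ' * ‖p‖)) ≤ σ * (tp - ‖p‖) := mul_le_mul_of_nonneg_left h1 hσ0.le
    have h6 : δ' * R ≤ 1 / 4 * R := by gcongr
    rw [hRdef] at h6 ⊢
    nlinarith
  have htbt : R / 2 ≤ σ * (tb - t) := by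
    have h1 : σ * t ≤ σ * t' := mul_le_mul_of_nonneg_left htt' hσ0.le
    rw [mul_sub]
    linarith
  have htbt0 : 0 < tb - t := by
    by_contra hcon
    push Not at hcon
    have := mul_nonpos_of_nonneg_of_nonpos hσ0.le hcon
    linarith
  obtain ⟨s, hs⟩ : ∃ s : ℝ, s = (t' - t) / (tb - t) := ⟨_, rfl⟩
  have hs0 : 0 < s := by rw [hs]; exact div_pos (by linarith) htbt0
  have hst : s * (tb - t) = t' - t := by rw [hs]; field_simp
  have hsR : s * R ≤ 4 * A := by
    have h1 : s * (R / 2) ≤ s * (σ * (tb - t)) := mul_le_mul_of_nonneg_left htbt hs0.le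
    have h2 : s * (σ * (tb - t)) = σ * t' - σ * t := by
      rw [show s * (σ * (tb - t)) = σ * (s * (tb - t)) by ring, hst]; ring
    linarith
  have hs1 : s ≤ 1 / 2 := by
    by_contra hcon
    push Not at hcon
    nlinarith
  have hsM : s * M ≤ ε' / 2 := by
    rw [div_le_iff₀ hε'] at hR2
    have h1 : s * (8 * A * M) ≤ s * (R * ε') := mul_le_mul_of_nonneg_left hR2 hs0.le
    have h2 : s * R * ε' ≤ 4 * A * ε' := mul_le_mul_of_nonneg_right hsR hε'.le
    have h3 : 8 * A * (s * M) ≤ 8 * A * (ε' / 2) := by nlinarith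
    exact le_of_mul_le_mul_left h3 (by positivity)
  -- the radius
  have hAn : A ^ 2 / ((n : ℝ) + 1) ≤ 1 / 2 := by
    rw [div_le_iff₀ hd]; linarith
  have hr1 : 1 / 2 ≤ r := by have := (abs_le.1 hr).1; linarith
  have hr0 : 0 ≤ r := by linarith
  have hr2 : r ≤ Real.exp (A ^ 2 / ((n : ℝ) + 1)) := by
    have h1 := (abs_le.1 hr).2
    have h2 := Real.add_one_le_exp (A ^ 2 / ((n : ℝ) + 1))
    linarith
  have hrpow : ∀ m : ℕ, m ≤ n → r ^ m ≤ C₁ := by
    intro m hm
    refine (pow_le_pow_left₀ hr0 hr2 m).trans ?_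
    rw [← Real.exp_nat_mul, hC₁]
    apply Real.exp_le_exp.2
    have h1 : (m : ℝ) ≤ (n : ℝ) + 1 := by
      have : (m : ℝ) ≤ n := by exact_mod_cast hm
      linarith
    calc (m : ℝ) * (A ^ 2 / ((n : ℝ) + 1)) ≤ ((n : ℝ) + 1) * (A ^ 2 / ((n : ℝ) + 1)) := by gcongr
      _ = A ^ 2 := by field_simp
  have hrs : 0 ≤ (1 - s) * r + s := by nlinarith
  -- the three sets
  have hLc : Continuous L := L.continuous
  have hcl : ∀ τ : ℝ, IsClosed {z : EuclideanSpace ℝ (Fin n) | τ • e + L z ∈ C} := fun τ =>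
    hC.isClosed.preimage (by fun_prop)
  set S₁ : Set (EuclideanSpace ℝ (Fin n)) := {z | t • e + L z ∈ C ∧ ‖z‖ ≤ r} with hS₁
  set S₂ : Set (EuclideanSpace ℝ (Fin n)) := {z | tb • e + L z ∈ C ∧ ‖z - q‖ ≤ 1} with hS₂
  set S₃ : Set (EuclideanSpace ℝ (Fin n)) :=
    {z | t' • e + L z ∈ C ∧ ‖z - s • q‖ ≤ (1 - s) * r + s} with hS₃
  have hm₁ : MeasurableSet S₁ :=
    ((hcl t).inter (isClosed_le (by fun_prop) (by fun_prop) :
      IsClosed {z : EuclideanSpace ℝ (Fin n) | ‖z‖ ≤ r})).measurableSet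
  have hm₂ : MeasurableSet S₂ :=
    ((hcl tb).inter (isClosed_le (by fun_prop) (by fun_prop) :
      IsClosed {z : EuclideanSpace ℝ (Fin n) | ‖z - q‖ ≤ 1})).measurableSet
  have hm₃ : MeasurableSet S₃ :=
    ((hcl t').inter (isClosed_le (by fun_prop) (by fun_prop) :
      IsClosed {z : EuclideanSpace ℝ (Fin n) | ‖z - s • q‖ ≤ (1 - s) * r + s})).measurableSet
  have hsub₃ : S₃ ⊆ closedBall (s • q) ((1 - s) * r + s) := fun z hz => by
    rw [mem_closedBall, dist_eq_norm]; exact hz.2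
  have hfin₃ : volume S₃ ≠ ∞ :=
    ne_top_of_le_ne_top measure_closedBall_lt_top.ne (measure_mono hsub₃)
  have hPL := m6c_pl s hs0 (by linarith) S₁ S₂ S₃ hm₁ hm₂ hm₃ hfin₃ (by
    rintro x ⟨hx1, hx2⟩ y ⟨hy1, hy2⟩
    constructor
    · have h1 := hconv hx1 hy1 (by linarith : 0 ≤ 1 - s) hs0.le (by ring)
      have h2 : t' • e + L ((1 - s) • x + s • y) =
          (1 - s) • (t • e + L x) + s • (tb • e + L y) := by
        have h3 : t' = (1 - s) * t + s * tb := by linear_combination -hst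
        rw [h3, map_add, map_smul, map_smul, add_smul, mul_smul, mul_smul, smul_add, smul_add]
        abel
      rw [h2]; exact h1
    · have h1 : (1 - s) • x + s • y - s • q = (1 - s) • x + s • (y - q) := by
        rw [smul_sub]; abel
      rw [h1]
      refine (norm_add_le _ _).trans ?_
      rw [norm_smul, norm_smul, Real.norm_of_nonneg (by linarith : 0 ≤ 1 - s),
        Real.norm_of_nonneg hs0.le]
      have h2 : (1 - s) * ‖x‖ ≤ (1 - s) * r := mul_le_mul_of_nonneg_left hx2 (by linarith)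
      have h3 : s * ‖y - q‖ ≤ s * 1 := mul_le_mul_of_nonneg_left hy2 hs0.le
      linarith)
  have hV₁ : volume.real S₁ ≤ C₁ * kap n := by
    have h1 : volume.real S₁ ≤ volume.real (closedBall (0 : EuclideanSpace ℝ (Fin n)) r) :=
      measureReal_mono (fun z hz => by simpa using hz.2) measure_closedBall_lt_top.ne
    rw [m6c_vol _ _ hr0] at h1
    exact h1.trans (mul_le_mul_of_nonneg_right (hrpow n le_rfl) hk)
  have hV₂' : c * volume.real S₁ ≤ volume.real S₂ := by
    calc c * volume.real S₁ ≤ c * (C₁ * kap n) := mul_le_mul_of_nonneg_left hV₁ hc0.le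
      _ = η * kap n := by rw [← hcC]; ring
      _ ≤ η₂ * kap n := mul_le_mul_of_nonneg_right hηη₂ hk
      _ ≤ _ := hV₂
  have hloss := m6c_loss (volume.real S₁) (volume.real S₂) (kap n) C₁ c s measureReal_nonneg hV₁
    hc0 hc1 hV₂' hs0 (by linarith)
  have hV₃ : volume.real S₃ ≤ sec C e L t' r +
      volume.real (closedBall (s • q) ((1 - s) * r + s) \ closedBall 0 r) := by
    unfold sec
    refine le_trans (measureReal_mono (s₂ := {z : EuclideanSpace ℝ (Fin n) | t' • e + L z ∈ C ∧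
      ‖z‖ ≤ r} ∪ (closedBall (s • q) ((1 - s) * r + s) \ closedBall 0 r)) ?_ ?_)
      (measureReal_union_le _ _)
    · intro z hz
      by_cases h : ‖z‖ ≤ r
      · exact Or.inl ⟨hz.1, h⟩
      · exact Or.inr ⟨hsub₃ hz, fun h' => h (by simpa using h')⟩
    · refine ne_top_of_le_ne_top (ENNReal.add_ne_top.2
        ⟨(measure_closedBall_lt_top (x := (0 : EuclideanSpace ℝ (Fin n))) (r := r)).ne,
          (measure_closedBall_lt_top (x := s • q) (r := (1 - s) * r + s)).ne⟩)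
        ((measure_union_le _ _).trans (add_le_add (measure_mono fun z hz => by simpa using hz.2)
          (measure_mono sdiff_subset)))
  have hball := m6c_ball hn2 (s • q) r s C₁ hr0 hs0.le (by linarith) (hrpow (n - 1) (by omega))
  have hsq : √((n : ℝ) + 1) * ‖s • q‖ ≤ 4 * A * δ' := by
    rw [← hσ, norm_smul, Real.norm_of_nonneg hs0.le]
    calc σ * (s * ‖q‖) ≤ σ * (s * (δ' * ‖p‖)) := by gcongr
      _ = s * R * δ' := by rw [hRdef]; ring
      _ ≤ 4 * A * δ' := by gcongr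
  have hball2 : √((n : ℝ) + 1) * ‖s • q‖ * C₁ * kap n ≤ ε' / 2 * kap n := by
    refine mul_le_mul_of_nonneg_right ?_ hk
    exact (mul_le_mul_of_nonneg_right hsq hC₁0.le).trans hδ'2
  have hsM' : s * M * kap n ≤ ε' / 2 * kap n := mul_le_mul_of_nonneg_right hsM hk
  have hM' : s * M * kap n = C₁ * kap n * (s * (-Real.log c)) + s * kap n := by rw [hM]; ring
  have hsec : sec C e L t r = volume.real S₁ := rfl
  rw [hsec]
  linarith

end SA70
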