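import Pool.Agent.SA70.M6b
import Pool.Agent.SA70.M6c
import Pool.Agent.SA70.M7a

/-! M6: two-sided centres. -/

set_option autoImplicit false

open MeasureTheory Measure Metric Set Module ENNReal

namespace SA70

open SC70

namespace TwoS

variable {n : ℕ}

/-- the dilated section -/
private lemma sec_smul (C : Set (EuclideanSpace ℝ (Fin (n + 1))))
    (e : EuclideanSpace ℝ (Fin (n + 1)))
    (L : EuclideanSpace ℝ (Fin n) →ₗᵢ[ℝ] EuclideanSpace ℝ (Fin (n + 1))) (τ t ρ : ℝ)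
    (hτ : 0 < τ) :
    volume.real {z : EuclideanSpace ℝ (Fin n) | (1 + τ) • (t • e + L z) ∈ C ∧ ‖z‖ ≤ ρ} =
      ((1 + τ) ^ n)⁻¹ * sec C e L ((1 + τ) * t) ((1 + τ) * ρ) := by
  have h1 : (0 : ℝ) < 1 + τ := by linarith
  have e1 : {z : EuclideanSpace ℝ (Fin n) | (1 + τ) • (t • e + L z) ∈ C ∧ ‖z‖ ≤ ρ} =
      (fun z => (1 + τ) • z) ⁻¹'
        {z | ((1 + τ) * t) • e + L z ∈ C ∧ ‖z‖ ≤ (1 + τ) * ρ} := by
    ext z
    simp only [Set.mem_ofPred_eq, Set.mem_preimage, map_smul, norm_smul,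
      Real.norm_of_nonneg h1.le, smul_add, smul_smul]
    constructor
    · rintro ⟨h2, h3⟩
      exact ⟨h2, mul_le_mul_of_nonneg_left h3 h1.le⟩
    · rintro ⟨h2, h3⟩
      exact ⟨h2, le_of_mul_le_mul_left h3 h1⟩
  rw [e1, measureReal_def, addHaar_preimage_smul _ h1.ne', ENNReal.toReal_mul,
    ENNReal.toReal_ofReal (abs_nonneg _), finrank_euclideanSpace_fin,
    abs_of_nonneg (by positivity)]
  rfl

/-- the shell of one section -/
private lemma slice_bound (C : Set (EuclideanSpace ℝ (Fin (n + 1)))) (hconv : Convex ℝ C)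
    (hCc : IsCompact C) (h0 : (0 : EuclideanSpace ℝ (Fin (n + 1))) ∈ C)
    (e : EuclideanSpace ℝ (Fin (n + 1)))
    (L : EuclideanSpace ℝ (Fin n) →ₗᵢ[ℝ] EuclideanSpace ℝ (Fin (n + 1))) (τ t ρ η : ℝ)
    (hτ : 0 < τ) (hη : 0 ≤ η) (h1 : sec C e L t ρ ≤ sec C e L 0 ρ + η)
    (h2 : sec C e L 0 ((1 + τ) * ρ) ≤ sec C e L ((1 + τ) * t) ((1 + τ) * ρ) + η) :
    volume {z : EuclideanSpace ℝ (Fin n) | t • e + L z ∈ C ∧ ‖z‖ ≤ ρ ∧
        (1 + τ) • (t • e + L z) ∉ C} ≤
      volume {z : EuclideanSpace ℝ (Fin n) | L z ∈ C ∧ ‖z‖ ≤ ρ ∧ (1 + τ) • L z ∉ C} +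
        ENNReal.ofReal (2 * η) := by
  have h1τ : (0 : ℝ) < 1 + τ := by linarith
  have hCm : MeasurableSet C := hCc.measurableSet
  have hfin : ∀ S : Set (EuclideanSpace ℝ (Fin n)), S ⊆ {z | ‖z‖ ≤ ρ} → volume S ≠ ⊤ := by
    intro S hS
    refine ((measure_mono (hS.trans ?_)).trans_lt
      (isCompact_closedBall (0 : EuclideanSpace ℝ (Fin n)) ρ).measure_lt_top).ne
    intro z hz
    rw [mem_closedBall_zero_iff]
    exact hz
  -- one height
  have key : ∀ s : ℝ, volume.real {z : EuclideanSpace ℝ (Fin n) | s • e + L z ∈ C ∧ ‖z‖ ≤ ρ ∧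
      (1 + τ) • (s • e + L z) ∉ C} =
      sec C e L s ρ - ((1 + τ) ^ n)⁻¹ * sec C e L ((1 + τ) * s) ((1 + τ) * ρ) := by
    intro s
    have hLc : Continuous (fun z : EuclideanSpace ℝ (Fin n) => s • e + L z) := by
      have := L.continuous
      fun_prop
    have hPm : MeasurableSet {z : EuclideanSpace ℝ (Fin n) |
        (1 + τ) • (s • e + L z) ∈ C ∧ ‖z‖ ≤ ρ} :=
      (hCm.preimage (hLc.const_smul (1 + τ)).measurable).inter
        (measurableSet_le measurable_norm measurable_const)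
    have hsub : {z : EuclideanSpace ℝ (Fin n) | (1 + τ) • (s • e + L z) ∈ C ∧ ‖z‖ ≤ ρ} ⊆
        {z | s • e + L z ∈ C ∧ ‖z‖ ≤ ρ} := by
      rintro z ⟨hz1, hz2⟩
      refine ⟨?_, hz2⟩
      have h3 := hconv hz1 h0 (a := 1 / (1 + τ)) (b := τ / (1 + τ)) (by positivity)
        (by positivity) (by field_simp)
      rw [smul_zero, add_zero, smul_smul, one_div, inv_mul_cancel₀ h1τ.ne', one_smul] at h3
      exact h3
    rw [← sec_smul C e L τ s ρ hτ]
    unfold sec
    rw [← measureReal_sdiff hsub hPm (hfin _ (fun z hz => hz.2))]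
    congr 1
    ext z
    simp only [Set.mem_ofPred_eq, Set.mem_sdiff]
    tauto
  have hc0 : 0 ≤ ((1 + τ) ^ n)⁻¹ := by positivity
  have hc1 : ((1 + τ) ^ n)⁻¹ ≤ 1 := inv_le_one_of_one_le₀ (one_le_pow₀ (by linarith))
  have k1 := key t
  have k2 := key 0
  simp only [zero_smul, zero_add, mul_zero] at k2
  have h3 : volume.real {z : EuclideanSpace ℝ (Fin n) | t • e + L z ∈ C ∧ ‖z‖ ≤ ρ ∧
        (1 + τ) • (t • e + L z) ∉ C} ≤
      volume.real {z : EuclideanSpace ℝ (Fin n) | L z ∈ C ∧ ‖z‖ ≤ ρ ∧ (1 + τ) • L z ∉ C} +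
        2 * η := by
    rw [k1, k2]
    have h4 := mul_le_mul_of_nonneg_left h2 hc0
    have h5 := mul_le_mul_of_nonneg_right hc1 hη
    rw [mul_add] at h4
    linarith
  have f1 := hfin {z : EuclideanSpace ℝ (Fin n) | t • e + L z ∈ C ∧ ‖z‖ ≤ ρ ∧
        (1 + τ) • (t • e + L z) ∉ C} (fun z hz => hz.2.1)
  have f2 := hfin {z : EuclideanSpace ℝ (Fin n) | L z ∈ C ∧ ‖z‖ ≤ ρ ∧ (1 + τ) • L z ∉ C}
    (fun z hz => hz.2.1)
  rw [measureReal_def, measureReal_def] at h3
  rw [← ENNReal.ofReal_toReal f1, ← ENNReal.ofReal_toReal f2,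
    ← ENNReal.ofReal_add ENNReal.toReal_nonneg (by positivity)]
  exact ENNReal.ofReal_le_ofReal h3

/-- the cylinder -/
private lemma cyl_int (K' : Set (EuclideanSpace ℝ (Fin n))) (hK' : MeasurableSet K') :
    ∫⁻ t : ℝ, volume {z : EuclideanSpace ℝ (Fin n) | z ∈ K' ∧ t ^ 2 + ‖z‖ ^ 2 ≤ 1} ≤
      ∫⁻ z in K', ENNReal.ofReal (2 * √(1 - ‖z‖ ^ 2)) := by
  set D : Set (ℝ × EuclideanSpace ℝ (Fin n)) := {p | p.2 ∈ K' ∧ p.1 ^ 2 + ‖p.2‖ ^ 2 ≤ 1} with hD
  have hDm : MeasurableSet D :=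
    (hK'.preimage measurable_snd).inter
      (measurableSet_le (f := fun p : ℝ × EuclideanSpace ℝ (Fin n) => p.1 ^ 2 + ‖p.2‖ ^ 2)
        (Continuous.measurable (by fun_prop)) measurable_const)
  calc ∫⁻ t : ℝ, volume {z : EuclideanSpace ℝ (Fin n) | z ∈ K' ∧ t ^ 2 + ‖z‖ ^ 2 ≤ 1}
      = (volume.prod volume) D := (Measure.prod_apply hDm).symm
    _ = ∫⁻ z, volume ((fun t : ℝ => (t, z)) ⁻¹' D) := Measure.prod_apply_symm hDm
    _ ≤ ∫⁻ z, K'.indicator (fun z => ENNReal.ofReal (2 * √(1 - ‖z‖ ^ 2))) z := by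
        apply lintegral_mono
        intro z
        by_cases hz : z ∈ K'
        · simp only
          rw [indicator_of_mem hz]
          refine (measure_mono (t := Icc (-√(1 - ‖z‖ ^ 2)) (√(1 - ‖z‖ ^ 2))) ?_).trans ?_
          · rintro t ht
            have h1 : t ^ 2 + ‖z‖ ^ 2 ≤ 1 := ht.2
            have h2 : |t| ≤ √(1 - ‖z‖ ^ 2) := Real.abs_le_sqrt (by linarith)
            exact abs_le.mp h2
          · rw [Real.volume_Icc]
            apply ENNReal.ofReal_le_ofReal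
            linarith
        · simp only
          rw [indicator_of_notMem hz]
          have : (fun t : ℝ => (t, z)) ⁻¹' D = ∅ := by
            ext t
            simp only [mem_preimage, mem_empty_iff_false, iff_false]
            rintro ⟨h2, _⟩
            exact hz h2
          rw [this, measure_empty]
    _ = ∫⁻ z in K', ENNReal.ofReal (2 * √(1 - ‖z‖ ^ 2)) := by
        rw [lintegral_indicator hK']

/-- the part of the shell in a slab -/
private lemma slab_shell (C : Set (EuclideanSpace ℝ (Fin (n + 1)))) (hconv : Convex ℝ C)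
    (hCc : IsCompact C) (h0 : (0 : EuclideanSpace ℝ (Fin (n + 1))) ∈ C) (hn : 1 ≤ n)
    (e : EuclideanSpace ℝ (Fin (n + 1))) (he : ‖e‖ = 1)
    (L : EuclideanSpace ℝ (Fin n) →ₗᵢ[ℝ] EuclideanSpace ℝ (Fin (n + 1)))
    (hL : ∀ y, inner ℝ e (L y) = 0)
    (hmp : MeasurePreserving
      (fun z : ℝ × EuclideanSpace ℝ (Fin n) => z.1 • e + L z.2) volume volume)
    (τ a η : ℝ) (hτ : 0 < τ) (hη : 0 ≤ η) (ha0 : 0 ≤ a) (ha1 : a ≤ 1)
    (h1 : ∀ t, |t| ≤ a → sec C e L t (√(1 - t ^ 2)) ≤ sec C e L 0 (√(1 - t ^ 2)) + η)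
    (h2 : ∀ t, |t| ≤ a → sec C e L 0 ((1 + τ) * √(1 - t ^ 2)) ≤
      sec C e L ((1 + τ) * t) ((1 + τ) * √(1 - t ^ 2)) + η) :
    volume {x | x ∈ Inn C τ 0 ∧ |inner ℝ e x| ≤ a} ≤
      ENNReal.ofReal (2 * Mn n * τ * n * kap n) + ENNReal.ofReal (4 * a * η) := by
  set χ : ℝ × EuclideanSpace ℝ (Fin n) → EuclideanSpace ℝ (Fin (n + 1)) :=
    fun z => z.1 • e + L z.2 with hχ
  have hχc : Continuous χ := by
    have := L.continuous
    simp only [hχ]
    fun_prop
  have hCm : MeasurableSet C := hCc.measurableSet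
  set A : Set (EuclideanSpace ℝ (Fin (n + 1))) := {x | x ∈ Inn C τ 0 ∧ |inner ℝ e x| ≤ a} with hA
  have hAe : A = {x | (x ∈ C ∧ ‖x‖ ≤ 1 ∧ (1 + τ) • x ∉ C) ∧ |inner ℝ e x| ≤ a} := by
    ext x
    simp only [hA, Inn, Set.mem_ofPred_eq, sub_zero, zero_add]
  have hAm : MeasurableSet A := by
    rw [hAe]
    refine MeasurableSet.inter (hCm.inter (MeasurableSet.inter ?_ (MeasurableSet.compl ?_))) ?_
    · exact measurableSet_le measurable_norm measurable_const
    · exact hCm.preimage (measurable_const_smul (1 + τ))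
    · exact measurableSet_le (f := fun x : EuclideanSpace ℝ (Fin (n + 1)) => |inner ℝ e x|)
        (Continuous.measurable (by fun_prop)) measurable_const
  -- the central section
  set K : Set (EuclideanSpace ℝ (Fin n)) := {z | L z ∈ C} with hK
  have hKconv : Convex ℝ K := hconv.linear_preimage L.toLinearMap
  have hKc : IsCompact K := L.isometry.isClosedEmbedding.isCompact_preimage hCc
  have hK0 : (0 : EuclideanSpace ℝ (Fin n)) ∈ K := by
    show L 0 ∈ C
    rw [map_zero]; exact h0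
  set K' : Set (EuclideanSpace ℝ (Fin n)) := {z | z ∈ K ∧ (1 + τ) • z ∉ K} with hK'
  have hK'm : MeasurableSet K' :=
    hKc.measurableSet.inter
      (MeasurableSet.compl (hKc.measurableSet.preimage (measurable_const_smul (1 + τ))))
  rw [← hmp.measure_preimage hAm.nullMeasurableSet, Measure.volume_eq_prod,
    Measure.prod_apply (hχc.measurable hAm)]
  calc ∫⁻ t : ℝ, volume (Prod.mk t ⁻¹' (χ ⁻¹' A))
      ≤ ∫⁻ t : ℝ, (volume {z : EuclideanSpace ℝ (Fin n) | z ∈ K' ∧ t ^ 2 + ‖z‖ ^ 2 ≤ 1} +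
          (Icc (-a) a).indicator (fun _ => ENNReal.ofReal (2 * η)) t) := by
        apply lintegral_mono
        intro t
        by_cases ht : t ∈ Icc (-a) a
        · have hta : |t| ≤ a := abs_le.mpr ht
          have ht1 : t ^ 2 ≤ 1 := by
            have := abs_nonneg t
            rw [← sq_abs]
            nlinarith
          simp only
          rw [indicator_of_mem ht]
          refine (measure_mono ?_).trans
            ((slice_bound C hconv hCc h0 e L τ t (√(1 - t ^ 2)) η hτ hη (h1 t hta)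
              (h2 t hta)).trans (add_le_add (measure_mono ?_) le_rfl))
          · rintro z hz
            have hz' : χ (t, z) ∈ A := hz
            rw [hAe] at hz'
            obtain ⟨⟨g1, g2, g3⟩, _⟩ := hz'
            refine ⟨g1, ?_, g3⟩
            apply Real.le_sqrt_of_sq_le
            have g4 := frame_norm he L hL t z
            have g5 : ‖t • e + L z‖ ≤ 1 := g2
            have g6 : ‖t • e + L z‖ ^ 2 ≤ 1 := pow_le_one₀ (norm_nonneg _) g5
            linarith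
          · rintro z ⟨g1, g2, g3⟩
            refine ⟨⟨g1, fun hcon => g3 ?_⟩, ?_⟩
            · have g4 : L ((1 + τ) • z) ∈ C := hcon
              rwa [map_smul] at g4
            · have g4 := pow_le_pow_left₀ (norm_nonneg z) g2 2
              rw [Real.sq_sqrt (by linarith)] at g4
              linarith
        · have : Prod.mk t ⁻¹' (χ ⁻¹' A) = ∅ := by
            ext z
            simp only [mem_preimage, mem_empty_iff_false, iff_false]
            intro hz
            have hz' := hz.2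
            apply ht
            have g1 : inner ℝ e (χ (t, z)) = t := by
              simp only [hχ]
              rw [inner_add_right, inner_smul_right, hL, real_inner_self_eq_norm_sq, he]
              ring
            rw [g1] at hz'
            exact abs_le.mp hz'
          simp only
          rw [this, measure_empty]
          exact zero_le
    _ = (∫⁻ t : ℝ, volume {z : EuclideanSpace ℝ (Fin n) | z ∈ K' ∧ t ^ 2 + ‖z‖ ^ 2 ≤ 1}) +
          (∫⁻ t : ℝ, (Icc (-a) a).indicator (fun _ => ENNReal.ofReal (2 * η)) t) :=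
        lintegral_add_right _ (measurable_const.indicator measurableSet_Icc)
    _ ≤ ENNReal.ofReal (2 * Mn n * τ * n * kap n) + ENNReal.ofReal (4 * a * η) := by
        refine add_le_add ((cyl_int K' hK'm).trans (cyl_bound hn K hKconv hKc hK0 τ hτ)) ?_
        rw [lintegral_indicator measurableSet_Icc, setLIntegral_const, Real.volume_Icc,
          ← ENNReal.ofReal_mul (by positivity)]
        apply ENNReal.ofReal_le_ofReal
        linarith

/-- the part of the unit ball off the slab -/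
private lemma tail_le (e : EuclideanSpace ℝ (Fin (n + 1))) (he : ‖e‖ = 1) (a : ℝ) (ha : 0 ≤ a) :
    volume {x | x ∈ closedBall (0 : EuclideanSpace ℝ (Fin (n + 1))) 1 ∧ a < |inner ℝ e x|} ≤
      ENNReal.ofReal (2 * (Real.exp (-(a ^ 2 * ((n : ℝ) + 1) / 2)) * kap (n + 1))) := by
  have hk := kap_nonneg (n + 1)
  have hb : ∀ v : EuclideanSpace ℝ (Fin (n + 1)), ‖v‖ = 1 →
      volume {x | x ∈ closedBall (0 : EuclideanSpace ℝ (Fin (n + 1))) 1 ∧ a ≤ inner ℝ v x} ≤
        ENNReal.ofReal (Real.exp (-(a ^ 2 * ((n : ℝ) + 1) / 2)) * kap (n + 1)) := by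
    intro v hv
    have h1 := cap_le v hv a ha
    have hfin : volume {x | x ∈ closedBall (0 : EuclideanSpace ℝ (Fin (n + 1))) 1 ∧
        a ≤ inner ℝ v x} ≠ ⊤ :=
      ((measure_mono (fun x hx => hx.1)).trans_lt
        (isCompact_closedBall (0 : EuclideanSpace ℝ (Fin (n + 1))) 1).measure_lt_top).ne
    rw [measureReal_def] at h1
    rw [← ENNReal.ofReal_toReal hfin]
    exact ENNReal.ofReal_le_ofReal h1
  have hsub : {x | x ∈ closedBall (0 : EuclideanSpace ℝ (Fin (n + 1))) 1 ∧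
      a < |inner ℝ e x|} ⊆
      {x | x ∈ closedBall (0 : EuclideanSpace ℝ (Fin (n + 1))) 1 ∧ a ≤ inner ℝ e x} ∪
      {x | x ∈ closedBall (0 : EuclideanSpace ℝ (Fin (n + 1))) 1 ∧ a ≤ inner ℝ (-e) x} := by
    rintro x ⟨h1, h2⟩
    rcases lt_abs.mp h2 with h | h
    · exact Or.inl ⟨h1, h.le⟩
    · exact Or.inr ⟨h1, by rw [inner_neg_left]; exact h.le⟩
  refine (measure_mono hsub).trans ((measure_union_le _ _).trans
    ((add_le_add (hb e he) (hb (-e) (by rw [norm_neg, he]))).trans ?_))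
  rw [← ENNReal.ofReal_add (by positivity) (by positivity)]
  apply ENNReal.ofReal_le_ofReal
  linarith

end TwoS

open TwoS in
theorem two_sided (ε η₁ θ : ℝ) (hε : 0 < ε) (hη₁ : 0 < η₁) (hθ0 : 0 < θ) (hθ1 : θ ≤ 1) :
    ∃ δ' : ℝ, 0 < δ' ∧ ∃ R₁ : ℝ, ∃ d₀ : ℕ, ∀ n : ℕ, d₀ ≤ n →
      ∀ (C : Set (EuclideanSpace ℝ (Fin (n + 1)))), Convex ℝ C → IsCompact C → 0 ∈ C →
      ∀ a b : EuclideanSpace ℝ (Fin (n + 1)), R₁ ≤ √((n : ℝ) + 1) * ‖a‖ →
      R₁ ≤ √((n : ℝ) + 1) * ‖b‖ → ‖dir 0 a + dir 0 b‖ ≤ δ' →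
      η₁ * kap (n + 1) ≤ volume.real (C ∩ closedBall a 1) →
      η₁ * kap (n + 1) ≤ volume.real (C ∩ closedBall b 1) →
      volume.real (Inn C (θ / ((n : ℝ) + 1)) 0) ≤ 2 * Mn n * θ * kap n + ε * kap (n + 1) := by
  obtain ⟨A, hAd⟩ : ∃ A : ℝ, A = 1 + 32 / ε := ⟨_, rfl⟩
  have hA1 : 1 ≤ A := by rw [hAd]; have : 0 < 32 / ε := by positivity
                         linarith
  have hA0 : 0 < A := by linarith
  have hAε : 32 / ε ≤ A := by rw [hAd]; linarith
  obtain ⟨ε', hε'd⟩ : ∃ ε' : ℝ, ε' = ε / (4 * A) := ⟨_, rfl⟩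
  have hε' : 0 < ε' := by rw [hε'd]; positivity
  obtain ⟨δ', hδ', R₁, d₀, H⟩ := sec_move A ε' η₁ hA1 hε' hη₁
  refine ⟨δ', hδ', max R₁ 1, max d₀ (⌈A ^ 2⌉₊ + 1), ?_⟩
  intro n hn C hconv hCc h0 a b ha hb hab hVa hVb
  have hn0 : d₀ ≤ n := (le_max_left _ _).trans hn
  have hn2 : ⌈A ^ 2⌉₊ + 1 ≤ n := (le_max_right _ _).trans hn
  have hn1 : 1 ≤ n := by omega
  have hnA : A ^ 2 ≤ n := (Nat.le_ceil _).trans (by exact_mod_cast (by omega : ⌈A ^ 2⌉₊ ≤ n))
  have hn1r : (1 : ℝ) ≤ n := by exact_mod_cast hn1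
  obtain ⟨d, hd⟩ : ∃ d : ℝ, d = (n : ℝ) + 1 := ⟨_, rfl⟩
  have hd0 : 0 < d := by rw [hd]; positivity
  have hd1 : 1 ≤ d := by rw [hd]; linarith
  have hdA : A ^ 2 ≤ d := by rw [hd]; linarith
  have hsd : 0 < √d := Real.sqrt_pos.mpr hd0
  have hsq : √d ^ 2 = d := Real.sq_sqrt hd0.le
  have hk0 := kap_nonneg n
  have hk1 := kap_pos (n + 1)
  rw [← hd] at ha hb ⊢
  have hb0 : 0 < ‖b‖ := by
    have h1 : 0 < √d * ‖b‖ := lt_of_lt_of_le one_pos ((le_max_right _ _).trans hb)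
    exact (pos_iff_pos_of_mul_pos h1).mp hsd
  have ha0 : 0 < ‖a‖ := by
    have h1 : 0 < √d * ‖a‖ := lt_of_lt_of_le one_pos ((le_max_right _ _).trans ha)
    exact (pos_iff_pos_of_mul_pos h1).mp hsd
  obtain ⟨e, hed⟩ : ∃ e : EuclideanSpace ℝ (Fin (n + 1)), e = (1 / ‖b‖) • b := ⟨_, rfl⟩
  have he : ‖e‖ = 1 := by
    rw [hed, norm_smul, Real.norm_of_nonneg (by positivity)]
    field_simp
  obtain ⟨L, hL, hmp, hsurj⟩ := exists_frame e he
  -- the frame for `-e`
  have he' : ‖-e‖ = 1 := by rw [norm_neg, he]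
  have hL' : ∀ y, inner ℝ (-e) (L y) = 0 := fun y => by rw [inner_neg_left, hL, neg_zero]
  have hmp' : MeasurePreserving
      (fun z : ℝ × EuclideanSpace ℝ (Fin n) => z.1 • (-e) + L z.2) volume volume := by
    have h1 : MeasurePreserving (fun z : ℝ × EuclideanSpace ℝ (Fin n) => (-z.1, z.2))
        volume volume :=
      (Measure.measurePreserving_neg (volume : Measure ℝ)).prod
        (MeasurePreserving.id (volume : Measure (EuclideanSpace ℝ (Fin n))))
    have h2 := hmp.comp h1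
    have h3 : (fun z : ℝ × EuclideanSpace ℝ (Fin n) => z.1 • e + L z.2) ∘
        (fun z : ℝ × EuclideanSpace ℝ (Fin n) => (-z.1, z.2)) =
        fun z => z.1 • (-e) + L z.2 := by
      funext z
      simp
    rwa [h3] at h2
  have hsurj' : Function.Surjective
      (fun z : ℝ × EuclideanSpace ℝ (Fin n) => z.1 • (-e) + L z.2) := by
    intro x
    obtain ⟨z, hz⟩ := hsurj x
    refine ⟨(-z.1, z.2), ?_⟩
    simp only at hz ⊢
    rw [← hz]
    simp
  have hbe : ‖b - ‖b‖ • e‖ ≤ δ' * ‖b‖ := by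
    have : b - ‖b‖ • e = 0 := by
      rw [hed, smul_smul, mul_one_div_cancel hb0.ne', one_smul, sub_self]
    rw [this, norm_zero]; positivity
  have hae : ‖a - ‖a‖ • (-e)‖ ≤ δ' * ‖a‖ := by
    have h1 : a - ‖a‖ • (-e) = ‖a‖ • (dir 0 a + dir 0 b) := by
      unfold dir
      rw [hed, sub_zero, sub_zero, smul_add, smul_smul, mul_one_div_cancel ha0.ne', one_smul,
        smul_neg, sub_neg_eq_add]
    rw [h1, norm_smul, norm_norm, mul_comm]
    exact mul_le_mul_of_nonneg_right hab ha0.le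
  have Hb := H n hn0 e he L hL hmp hsurj C hconv hCc b
    (by rw [← hd]; exact (le_max_left _ _).trans hb) hbe hVb
  have Ha := H n hn0 (-e) he' L hL' hmp' hsurj' C hconv hCc a
    (by rw [← hd]; exact (le_max_left _ _).trans ha) hae hVa
  rw [← hd] at Ha Hb
  have hneg : ∀ t r : ℝ, sec C (-e) L t r = sec C e L (-t) r := by
    intro t r
    unfold sec
    simp
  obtain ⟨η, hη⟩ : ∃ η : ℝ, η = ε' * kap n := ⟨_, rfl⟩
  have hη0 : 0 ≤ η := by rw [hη]; positivity
  rw [← hη] at Ha Hb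
  -- all sections in the window are nearly equal
  have hsec : ∀ t t' r : ℝ, |√d * t| ≤ A → |√d * t'| ≤ A → |r - 1| ≤ A ^ 2 / d →
      sec C e L t r ≤ sec C e L t' r + η := by
    intro t t' r ht ht' hr
    rw [abs_le] at ht ht'
    rcases le_total t t' with h | h
    · exact Hb t t' r ht.1 h ht'.2 hr
    · have h1 := Ha (-t) (-t') r (by linarith [ht.2]) (by linarith) (by linarith [ht'.1]) hr
      rwa [hneg, hneg, neg_neg, neg_neg] at h1
  -- the slab
  obtain ⟨α, hα⟩ : ∃ α : ℝ, α = A / (2 * √d) := ⟨_, rfl⟩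
  have hα0 : 0 ≤ α := by rw [hα]; positivity
  have hαd : √d * α = A / 2 := by rw [hα]; field_simp
  have hα2 : α ^ 2 * d = A ^ 2 / 4 := by
    have : (√d * α) ^ 2 = (A / 2) ^ 2 := by rw [hαd]
    rw [mul_pow, hsq] at this
    linarith
  have hα1 : α ≤ 1 := by
    have h1 : α ^ 2 * d ≤ 1 * d := by rw [hα2]; nlinarith
    have h2 : α ^ 2 ≤ 1 := le_of_mul_le_mul_right h1 hd0
    nlinarith
  obtain ⟨τ, hτ⟩ : ∃ τ : ℝ, τ = θ / d := ⟨_, rfl⟩
  have hτ0 : 0 < τ := by rw [hτ]; positivity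
  have hτd : τ * d = θ := by rw [hτ]; field_simp
  have hτ1 : τ ≤ 1 := by
    rw [hτ, div_le_one hd0]; linarith
  rw [← hτ]
  have hwin : ∀ t : ℝ, |t| ≤ α → |√d * t| ≤ A / 2 := by
    intro t ht
    rw [abs_mul, abs_of_pos hsd, ← hαd]
    exact mul_le_mul_of_nonneg_left ht hsd.le
  have hrad : ∀ t : ℝ, |t| ≤ α → 1 - A ^ 2 / (4 * d) ≤ √(1 - t ^ 2) ∧ √(1 - t ^ 2) ≤ 1 := by
    intro t ht
    have h1 : t ^ 2 ≤ A ^ 2 / (4 * d) := by
      have h2 : t ^ 2 ≤ α ^ 2 := by
        rw [← sq_abs]; exact pow_le_pow_left₀ (abs_nonneg _) ht 2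
      have h3 : α ^ 2 = A ^ 2 / (4 * d) := by
        rw [_root_.eq_div_iff (by positivity)]; linarith
      linarith
    constructor
    · have h4 : 1 - t ^ 2 ≤ √(1 - t ^ 2) := by
        have h5 : 0 ≤ 1 - t ^ 2 := by
          have : t ^ 2 ≤ 1 := by
            rw [← sq_abs]; exact pow_le_one₀ (abs_nonneg _) (ht.trans hα1)
          linarith
        apply Real.le_sqrt_of_sq_le
        nlinarith [sq_nonneg t]
      linarith
    · rw [Real.sqrt_le_one]
      have := sq_nonneg t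
      linarith
  have hA4 : A ^ 2 / (4 * d) ≤ A ^ 2 / d := by
    apply div_le_div_of_nonneg_left (by positivity) hd0
    linarith
  have hτA : τ ≤ A ^ 2 / d := by
    rw [hτ]
    apply div_le_div_of_nonneg_right _ hd0.le
    nlinarith
  have h1 : ∀ t, |t| ≤ α → sec C e L t (√(1 - t ^ 2)) ≤ sec C e L 0 (√(1 - t ^ 2)) + η := by
    intro t ht
    obtain ⟨r1, r2⟩ := hrad t ht
    refine hsec t 0 _ ((hwin t ht).trans (by linarith)) (by rw [mul_zero, abs_zero]; exact hA0.le)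
      ?_
    rw [abs_le]
    constructor <;> linarith [show 0 ≤ A ^ 2 / d by positivity]
  have h2 : ∀ t, |t| ≤ α → sec C e L 0 ((1 + τ) * √(1 - t ^ 2)) ≤
      sec C e L ((1 + τ) * t) ((1 + τ) * √(1 - t ^ 2)) + η := by
    intro t ht
    obtain ⟨r1, r2⟩ := hrad t ht
    have r3 : 0 ≤ √(1 - t ^ 2) := Real.sqrt_nonneg _
    refine hsec 0 _ _ (by rw [mul_zero, abs_zero]; exact hA0.le) ?_ ?_
    · have h3 : √d * ((1 + τ) * t) = (1 + τ) * (√d * t) := by ring
      rw [h3, abs_mul, abs_of_pos (by linarith : (0 : ℝ) < 1 + τ)]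
      have h4 := hwin t ht
      have h5 := abs_nonneg (√d * t)
      nlinarith
    · rw [abs_le]
      constructor
      · nlinarith [show 0 ≤ A ^ 2 / d by positivity]
      · nlinarith
  have hslab := slab_shell C hconv hCc h0 hn1 e he L hL hmp τ α η hτ0 hη0 hα0 hα1 h1 h2
  have htail := tail_le e he α hα0
  -- put together
  have hsub : Inn C τ 0 ⊆ {x | x ∈ Inn C τ 0 ∧ |inner ℝ e x| ≤ α} ∪
      {x | x ∈ closedBall (0 : EuclideanSpace ℝ (Fin (n + 1))) 1 ∧ α < |inner ℝ e x|} := by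
    intro x hx
    rcases le_or_gt |inner ℝ e x| α with h | h
    · exact Or.inl ⟨hx, h⟩
    · refine Or.inr ⟨?_, h⟩
      rw [mem_closedBall, dist_eq_norm]
      exact hx.2.1
  have hMn : 0 ≤ Mn n := by unfold Mn; positivity
  have hE : Real.exp (-(α ^ 2 * ((n : ℝ) + 1) / 2)) ≤ ε / 4 := by
    rw [← hd, hα2]
    have h3 : 1 + A ^ 2 / 8 ≤ Real.exp (A ^ 2 / 8) := by
      have := Real.add_one_le_exp (A ^ 2 / 8); linarith
    have h4 : Real.exp (-(A ^ 2 / 4 / 2)) = (Real.exp (A ^ 2 / 8))⁻¹ := by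
      rw [← Real.exp_neg]; congr 1; ring
    rw [h4, inv_le_comm₀ (Real.exp_pos _) (by positivity)]
    refine le_trans ?_ h3
    rw [inv_div]
    have h5 : 32 / ε ≤ A ^ 2 := hAε.trans (by nlinarith)
    have h6 : 4 / ε = 32 / ε / 8 := by ring
    rw [h6]; linarith
  have hkk : kap n ≤ √d * kap (n + 1) := by
    have h3 := kap_succ_ge (n := n) hn1
    have hpi := Real.pi_gt_d2
    have h4 : 1 ≤ √d * √(2 * Real.pi / ((n : ℝ) + 2)) := by
      rw [← Real.sqrt_mul hd0.le]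
      rw [Real.one_le_sqrt, ← mul_div_assoc, le_div_iff₀ (by positivity), hd]
      nlinarith
    calc kap n = 1 * kap n := (one_mul _).symm
      _ ≤ √d * √(2 * Real.pi / ((n : ℝ) + 2)) * kap n := mul_le_mul_of_nonneg_right h4 hk0
      _ = √d * (kap n * √(2 * Real.pi / ((n : ℝ) + 2))) := by ring
      _ ≤ √d * kap (n + 1) := mul_le_mul_of_nonneg_left h3 hsd.le
  have hmain : volume (Inn C τ 0) ≤ ENNReal.ofReal (2 * Mn n * θ * kap n + ε * kap (n + 1)) := by
    refine (measure_mono hsub).trans ((measure_union_le _ _).trans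
      ((add_le_add hslab htail).trans ?_))
    rw [← ENNReal.ofReal_add (by positivity) (by positivity),
      ← ENNReal.ofReal_add (by positivity) (by positivity)]
    apply ENNReal.ofReal_le_ofReal
    have g1 : 2 * Mn n * τ * n * kap n ≤ 2 * Mn n * θ * kap n := by
      have g2 : τ * n ≤ θ := by
        rw [← hτd, hd]
        nlinarith
      have g3 : 2 * Mn n * (τ * n) * kap n ≤ 2 * Mn n * θ * kap n := by gcongr
      linarith
    have g4 : 4 * α * η ≤ ε / 2 * kap (n + 1) := by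
      have g5 : 4 * α * η = 4 * α * ε' * kap n := by rw [hη]; ring
      have g6 : 4 * α * ε' * kap n ≤ 4 * α * ε' * (√d * kap (n + 1)) :=
        mul_le_mul_of_nonneg_left hkk (by positivity)
      have g7 : 4 * α * ε' * (√d * kap (n + 1)) = 4 * (√d * α) * ε' * kap (n + 1) := by ring
      have g8 : 4 * (A / 2) * ε' = ε / 2 := by rw [hε'd]; field_simp
      rw [g5]
      refine g6.trans ?_
      rw [g7, hαd, g8]
    have g9 : 2 * (Real.exp (-(α ^ 2 * ((n : ℝ) + 1) / 2)) * kap (n + 1)) ≤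
        ε / 2 * kap (n + 1) := by
      have := mul_le_mul_of_nonneg_right hE hk1.le
      linarith
    linarith
  rw [measureReal_def]
  exact ENNReal.toReal_le_of_le_ofReal (by positivity) hmain

end SA70
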