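import Pool.Agent.SA70.M7a

/-! M7c: the Voronoi decomposition. `D_w = C ∩ Vor W w` is compact, convex, contained in
`closedBall w 1`, and `x ∈ D_w` if `y = w + (1+τ)(x-w) ∈ D_w`; so
`(1 - (1+τ)^{-d}) V(D_w) = V {x ∈ D_w : y ∉ D_w} ≤ V(Inn C τ w ∩ Vor W w) + V {x ∈ D_w : y ∉ Vor W w}`.
In the last set there is `w' ∈ W`, `v = w' - w`, with `|v|²/(2(1+τ)) < ⟨x - w, v⟩ ≤ |v|²/2`. If
`|v| ≥ 2 ε'`: cap of height `≥ ε'/2`, at most `|W|` such caps, `|W| ≤ exp (c d)`. If `|v| < 2 ε'`: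
then `x + τ ε' v/|v| ∉ Vor W w`, so `closedBall x (τ ε') ⊄ D_w`: `layer_bound`. -/

set_option autoImplicit false

open MeasureTheory Measure Metric Set Module ENNReal

namespace SA70

open SC70

set_option linter.unusedSectionVars false

namespace M7cAux

variable {E : Type*} [NormedAddCommGroup E] [InnerProductSpace ℝ E]

theorem dist_iff (w w' x : E) :
    ‖x - w‖ ≤ ‖x - w'‖ ↔ 2 * inner ℝ (x - w) (w' - w) ≤ ‖w' - w‖ ^ 2 := by
  have h : ‖x - w'‖ ^ 2 = ‖x - w‖ ^ 2 - 2 * inner ℝ (x - w) (w' - w) + ‖w' - w‖ ^ 2 := by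
    have h0 : x - w' = (x - w) - (w' - w) := by abel
    rw [h0, norm_sub_sq_real]
  constructor
  · intro h1
    have h2 : ‖x - w‖ ^ 2 ≤ ‖x - w'‖ ^ 2 := pow_le_pow_left₀ (norm_nonneg _) h1 2
    linarith
  · intro h1
    have h2 : ‖x - w‖ ^ 2 ≤ ‖x - w'‖ ^ 2 := by rw [h]; linarith
    exact (pow_le_pow_iff_left₀ (norm_nonneg _) (norm_nonneg _) two_ne_zero).1 h2

theorem vor_convex (W : Finset E) (w : E) : Convex ℝ (Vor W w) := by
  intro x hx y hy a b ha hb hab w' hw'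
  rw [dist_iff]
  have h1 := (dist_iff w w' x).1 (hx w' hw')
  have h2 := (dist_iff w w' y).1 (hy w' hw')
  have h3 : a • x + b • y - w = a • (x - w) + b • (y - w) := by
    have h4 : w = a • w + b • w := by rw [← add_smul, hab, one_smul]
    rw [smul_sub, smul_sub]
    nth_rewrite 1 [h4]
    abel
  have h5 : a * ‖w' - w‖ ^ 2 + b * ‖w' - w‖ ^ 2 = ‖w' - w‖ ^ 2 := by
    rw [← add_mul, hab, one_mul]
  rw [h3, inner_add_left, real_inner_smul_left, real_inner_smul_left]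
  have h6 := mul_le_mul_of_nonneg_left h1 ha
  have h7 := mul_le_mul_of_nonneg_left h2 hb
  linarith

theorem vor_closed (W : Finset E) (w : E) : IsClosed (Vor W w) := by
  have h : Vor W w = ⋂ w' ∈ W, {x | ‖x - w‖ ≤ ‖x - w'‖} := by
    ext x
    simp [Vor]
  rw [h]
  exact isClosed_biInter fun w' _ => isClosed_le (by fun_prop) (by fun_prop)

theorem cell_sub {C : Set E} {W : Finset E} (hcov : C ⊆ ⋃ w ∈ W, closedBall w 1) (w : E) :
    C ∩ Vor W w ⊆ closedBall w 1 := by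
  rintro x ⟨hx, hv⟩
  obtain ⟨w', hw', h⟩ := mem_iUnion₂.1 (hcov hx)
  rw [mem_closedBall, dist_eq_norm] at h ⊢
  exact (hv w' hw').trans h

theorem cell_cover {C : Set E} {W : Finset E} (hcov : C ⊆ ⋃ w ∈ W, closedBall w 1) :
    C ⊆ ⋃ w ∈ W, (C ∩ Vor W w) := by
  intro x hx
  obtain ⟨w', hw', h⟩ := mem_iUnion₂.1 (hcov hx)
  obtain ⟨w, hw, hmin⟩ := W.exists_min_image (fun w => ‖x - w‖) ⟨w', hw'⟩
  exact mem_iUnion₂.2 ⟨w, hw, hx, hmin⟩

theorem dil_vol {n : ℕ} (D : Set (EuclideanSpace ℝ (Fin (n + 1))))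
    (w : EuclideanSpace ℝ (Fin (n + 1))) (l : ℝ) (hl : 0 < l) :
    volume.real {x | w + l • (x - w) ∈ D} = (l ^ (n + 1))⁻¹ * volume.real D := by
  have h : {x | w + l • (x - w) ∈ D} = AffineMap.homothety w l⁻¹ '' D := by
    ext x
    constructor
    · intro hx
      refine ⟨w + l • (x - w), hx, ?_⟩
      rw [AffineMap.homothety_apply]
      simp [smul_smul, inv_mul_cancel₀ hl.ne']
    · rintro ⟨y, hy, rfl⟩
      show w + l • (_ - w) ∈ D
      rw [AffineMap.homothety_apply]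
      simpa [smul_smul, mul_inv_cancel₀ hl.ne'] using hy
  rw [h, Measure.real, Measure.addHaar_image_homothety, ENNReal.toReal_mul, Measure.real,
    ENNReal.toReal_ofReal (abs_nonneg _), finrank_euclideanSpace_fin,
    abs_of_nonneg (pow_nonneg (inv_nonneg.2 hl.le) _), inv_pow]

theorem bad_sub {C : Set E} {W : Finset E} {w : E} {τ e : ℝ} (hτ0 : 0 < τ) (hτ1 : τ ≤ 1)
    (he : 0 < e) :
    {x | x ∈ C ∩ Vor W w ∧ w + (1 + τ) • (x - w) ∉ Vor W w} ⊆
      (⋃ w' ∈ W, {x | x ∈ Vor W w ∧ 2 * e ≤ ‖w' - w‖ ∧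
        e / 2 ≤ inner ℝ ((1 / ‖w' - w‖) • (w' - w)) (x - w)}) ∪
      {x | x ∈ C ∩ Vor W w ∧ ¬ closedBall x (τ * e) ⊆ C ∩ Vor W w} := by
  rintro x ⟨hx, hy⟩
  simp only [Vor, mem_ofPred_eq, not_forall] at hy
  obtain ⟨w', hw', h1⟩ := hy
  rw [dist_iff, not_le, add_sub_cancel_left, real_inner_smul_left] at h1
  have hv0 : 0 < ‖w' - w‖ := by
    rcases (norm_nonneg (w' - w)).eq_or_lt with h | h
    · rw [← h] at h1
      have : w' - w = 0 := norm_eq_zero.1 h.symm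
      rw [this] at h1
      simp at h1
    · exact h
  have hin : ‖w' - w‖ ^ 2 < 2 * ((1 + τ) * inner ℝ (x - w) (w' - w)) := h1
  by_cases hc : 2 * e ≤ ‖w' - w‖
  · left
    refine mem_iUnion₂.2 ⟨w', hw', hx.2, hc, ?_⟩
    rw [real_inner_smul_left, real_inner_comm, one_div, inv_mul_eq_div, le_div_iff₀ hv0]
    have h2 : 0 < inner ℝ (x - w) (w' - w) := by
      by_contra h3
      push Not at h3
      nlinarith [mul_nonneg_of_nonpos_of_nonpos h3 (neg_nonpos.2 (by linarith : (0 : ℝ) ≤ 1 + τ))]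
    nlinarith
  · right
    push Not at hc
    refine ⟨hx, fun hsub => ?_⟩
    have hmem : x + (τ * e / ‖w' - w‖) • (w' - w) ∈ closedBall x (τ * e) := by
      rw [mem_closedBall, dist_eq_norm, add_sub_cancel_left, norm_smul, Real.norm_of_nonneg
        (by positivity), div_mul_cancel₀ _ hv0.ne']
    have h3 := (hsub hmem).2 w' hw'
    rw [dist_iff] at h3
    have h4 : x + (τ * e / ‖w' - w‖) • (w' - w) - w =
        (x - w) + (τ * e / ‖w' - w‖) • (w' - w) := by abel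
    rw [h4, inner_add_left, real_inner_smul_left, real_inner_self_eq_norm_sq] at h3
    have h5 : τ * e / ‖w' - w‖ * ‖w' - w‖ ^ 2 = τ * e * ‖w' - w‖ := by
      field_simp
    rw [h5] at h3
    set p := inner ℝ (x - w) (w' - w)
    set r := ‖w' - w‖
    -- `2 p + 2 τ e r ≤ r²`, `r² < 2 (1+τ) p`, `r < 2 e`
    have h6 : 2 * (τ * e * r) > τ * r ^ 2 := by
      have : r * r < 2 * e * r := by nlinarith
      nlinarith
    -- `2 p < (1 - τ) r²`
    nlinarith [mul_pos hτ0 (mul_pos hv0 hv0), mul_pos hτ0 hτ0]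

end M7cAux

open M7cAux

theorem voronoi_sum (ε₅ θ : ℝ) (hε₅ : 0 < ε₅) (hθ0 : 0 < θ) (hθ1 : θ ≤ 1) : ∃ c : ℝ, 0 < c ∧
    ∃ d₀ : ℕ, ∀ n : ℕ, d₀ ≤ n → ∀ (C : Set (EuclideanSpace ℝ (Fin (n + 1))))
      (W : Finset (EuclideanSpace ℝ (Fin (n + 1)))), Convex ℝ C → IsCompact C →
      (∀ w ∈ W, w ∈ C) → C ⊆ ⋃ w ∈ W, closedBall w 1 →
      (W.card : ℝ) ≤ Real.exp (c * ((n : ℝ) + 1)) →
      (1 - ((1 + θ / ((n : ℝ) + 1)) ^ (n + 1))⁻¹) * volume.real C ≤
        ∑ w ∈ W, volume.real (Inn C (θ / ((n : ℝ) + 1)) w ∩ Vor W w) +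
          ε₅ * θ * W.card * kap (n + 1) := by
  have he : 0 < ε₅ / 8 := by positivity
  obtain ⟨e, he0, hee⟩ : ∃ e : ℝ, 0 < e ∧ e = ε₅ / 8 := ⟨_, he, rfl⟩
  refine ⟨e ^ 2 / 16, by positivity, ?_⟩
  have hlim : Filter.Tendsto (fun n : ℕ => Real.exp (-(e ^ 2 / 16 * ((n : ℝ) + 1)))) Filter.atTop
      (nhds 0) := by
    refine Real.tendsto_exp_neg_atTop_nhds_zero.comp ?_
    exact Filter.Tendsto.const_mul_atTop (by positivity)
      (Filter.tendsto_atTop_add_const_right _ _ tendsto_natCast_atTop_atTop)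
  have hev := (hlim.eventually_lt_const (show 0 < ε₅ * θ / 2 by positivity)).and
    (Filter.eventually_ge_atTop 4)
  obtain ⟨d₀, hd₀⟩ := Filter.eventually_atTop.1 hev
  refine ⟨d₀, fun n hn C W hconv hcpt hWC hcov hW => ?_⟩
  obtain ⟨hexp, hn4⟩ := hd₀ n hn
  have hd : (0 : ℝ) < (n : ℝ) + 1 := by positivity
  obtain ⟨τ, hτ⟩ : ∃ τ : ℝ, τ = θ / ((n : ℝ) + 1) := ⟨_, rfl⟩
  rw [← hτ]
  have hτ0 : 0 < τ := by rw [hτ]; positivity
  have hτ1 : τ ≤ 1 := by
    rw [hτ, div_le_one hd]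
    linarith [(Nat.cast_nonneg n : (0 : ℝ) ≤ n)]
  have hκ : 0 < kap (n + 1) := by
    unfold kap
    rw [Measure.real]
    exact ENNReal.toReal_pos (measure_closedBall_pos volume _ one_pos).ne'
      measure_closedBall_lt_top.ne
  -- one cell
  have hcell : ∀ w ∈ W, (1 - ((1 + τ) ^ (n + 1))⁻¹) * volume.real (C ∩ Vor W w) ≤
      volume.real (Inn C τ w ∩ Vor W w) + ε₅ * θ * kap (n + 1) := by
    intro w hw
    have hDc : IsCompact (C ∩ Vor W w) := hcpt.inter_right (vor_closed W w)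
    have hDconv : Convex ℝ (C ∩ Vor W w) := hconv.inter (vor_convex W w)
    have hDsub := cell_sub hcov w
    have hfin : ∀ S : Set (EuclideanSpace ℝ (Fin (n + 1))), S ⊆ closedBall w 1 →
        volume S ≠ ⊤ := fun S hS => ((measure_mono hS).trans_lt measure_closedBall_lt_top).ne
    -- the three parts
    have h1 : C ∩ Vor W w ⊆ ({x | w + (1 + τ) • (x - w) ∈ C ∩ Vor W w}) ∪
        ((Inn C τ w ∩ Vor W w) ∪
          {x | x ∈ C ∩ Vor W w ∧ w + (1 + τ) • (x - w) ∉ Vor W w}) := by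
      intro x hx
      by_cases hC : w + (1 + τ) • (x - w) ∈ C
      · by_cases hV : w + (1 + τ) • (x - w) ∈ Vor W w
        · exact Or.inl ⟨hC, hV⟩
        · exact Or.inr (Or.inr ⟨hx, hV⟩)
      · refine Or.inr (Or.inl ⟨⟨hx.1, ?_, hC⟩, hx.2⟩)
        have := hDsub hx
        rwa [mem_closedBall, dist_eq_norm] at this
    have hInn : Inn C τ w ∩ Vor W w ⊆ closedBall w 1 := by
      rintro x ⟨⟨-, h2, -⟩, -⟩
      rwa [mem_closedBall, dist_eq_norm]
    have hB : {x | x ∈ C ∩ Vor W w ∧ w + (1 + τ) • (x - w) ∉ Vor W w} ⊆ closedBall w 1 :=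
      fun x hx => hDsub hx.1
    have hdil := dil_vol (C ∩ Vor W w) w (1 + τ) (by linarith)
    have hdilfin : volume {x | w + (1 + τ) • (x - w) ∈ C ∩ Vor W w} ≠ ⊤ := by
      refine hfin _ fun x hx => ?_
      have h2 := hDsub hx
      rw [mem_closedBall, dist_eq_norm, add_sub_cancel_left, norm_smul,
        Real.norm_of_nonneg (by linarith)] at h2
      rw [mem_closedBall, dist_eq_norm]
      nlinarith [norm_nonneg (x - w)]
    have h3 : volume.real (C ∩ Vor W w) ≤ ((1 + τ) ^ (n + 1))⁻¹ * volume.real (C ∩ Vor W w) +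
        (volume.real (Inn C τ w ∩ Vor W w) +
          volume.real {x | x ∈ C ∩ Vor W w ∧ w + (1 + τ) • (x - w) ∉ Vor W w}) := by
      refine (measureReal_mono h1 ?_).trans ?_
      · exact measure_union_ne_top hdilfin (measure_union_ne_top (hfin _ hInn) (hfin _ hB))
      · refine (measureReal_union_le _ _).trans ?_
        rw [hdil]
        exact add_le_add le_rfl (measureReal_union_le _ _)
    -- the bad part
    have hcap : ∀ w' ∈ W, volume.real {x | x ∈ closedBall w 1 ∧ 2 * e ≤ ‖w' - w‖ ∧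
        e / 2 ≤ inner ℝ ((1 / ‖w' - w‖) • (w' - w)) (x - w)} ≤
        Real.exp (-(e ^ 2 / 8 * ((n : ℝ) + 1))) * kap (n + 1) := by
      intro w' _
      by_cases hc : 2 * e ≤ ‖w' - w‖
      · have hv0 : 0 < ‖w' - w‖ := by linarith
        have hunit : ‖(1 / ‖w' - w‖) • (w' - w)‖ = 1 := by
          rw [norm_smul, Real.norm_of_nonneg (by positivity), one_div, inv_mul_cancel₀ hv0.ne']
        have h4 := cap_le ((1 / ‖w' - w‖) • (w' - w)) hunit (e / 2) (by positivity)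
        have h5 : {x | x ∈ closedBall w 1 ∧ 2 * e ≤ ‖w' - w‖ ∧
            e / 2 ≤ inner ℝ ((1 / ‖w' - w‖) • (w' - w)) (x - w)} =
            (fun x => x + -w) ⁻¹' {x | x ∈ closedBall (0 : EuclideanSpace ℝ (Fin (n + 1))) 1 ∧
              e / 2 ≤ inner ℝ ((1 / ‖w' - w‖) • (w' - w)) x} := by
          ext x
          simp only [mem_ofPred_eq, mem_preimage, mem_closedBall, dist_eq_norm, sub_zero,
            ← sub_eq_add_neg]
          exact ⟨fun h => ⟨h.1, h.2.2⟩, fun h => ⟨h.1, hc, h.2⟩⟩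
        rw [h5, Measure.real, measure_preimage_add_right, ← Measure.real]
        refine h4.trans (le_of_eq ?_)
        congr 2
        ring
      · have h5 : {x | x ∈ closedBall w 1 ∧ 2 * e ≤ ‖w' - w‖ ∧
            e / 2 ≤ inner ℝ ((1 / ‖w' - w‖) • (w' - w)) (x - w)} = ∅ := by
          ext x
          simp [hc]
        rw [h5, measureReal_empty]
        positivity
    have hlayer := layer_bound hn4 (C ∩ Vor W w) hDconv hDc w hDsub (τ * e) (by positivity)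
    have hbad : volume.real {x | x ∈ C ∩ Vor W w ∧ w + (1 + τ) • (x - w) ∉ Vor W w} ≤
        ε₅ * θ * kap (n + 1) := by
      have h6 : {x | x ∈ C ∩ Vor W w ∧ w + (1 + τ) • (x - w) ∉ Vor W w} ⊆
          (⋃ w' ∈ W, {x | x ∈ closedBall w 1 ∧ 2 * e ≤ ‖w' - w‖ ∧
            e / 2 ≤ inner ℝ ((1 / ‖w' - w‖) • (w' - w)) (x - w)}) ∪
          {x | x ∈ C ∩ Vor W w ∧ ¬ closedBall x (τ * e) ⊆ C ∩ Vor W w} := by
        intro x hx
        rcases bad_sub hτ0 hτ1 he0 hx with h | h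
        · left
          obtain ⟨w', hw', -, h7, h8⟩ := mem_iUnion₂.1 h
          exact mem_iUnion₂.2 ⟨w', hw', hB hx, h7, h8⟩
        · exact Or.inr h
      have hf1 : volume (⋃ w' ∈ W, {x | x ∈ closedBall w 1 ∧ 2 * e ≤ ‖w' - w‖ ∧
            e / 2 ≤ inner ℝ ((1 / ‖w' - w‖) • (w' - w)) (x - w)}) ≠ ⊤ :=
        hfin _ (iUnion₂_subset fun w' _ x hx => hx.1)
      have hf2 : volume {x | x ∈ C ∩ Vor W w ∧ ¬ closedBall x (τ * e) ⊆ C ∩ Vor W w} ≠ ⊤ :=
        hfin _ fun x hx => hDsub hx.1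
      have h9 : volume.real (⋃ w' ∈ W, {x | x ∈ closedBall w 1 ∧ 2 * e ≤ ‖w' - w‖ ∧
            e / 2 ≤ inner ℝ ((1 / ‖w' - w‖) • (w' - w)) (x - w)}) ≤
          W.card * (Real.exp (-(e ^ 2 / 8 * ((n : ℝ) + 1))) * kap (n + 1)) := by
        refine (measureReal_biUnion_finset_le _ _).trans ?_
        refine (Finset.sum_le_sum hcap).trans (le_of_eq ?_)
        rw [Finset.sum_const, nsmul_eq_mul]
      have h10 : (W.card : ℝ) * Real.exp (-(e ^ 2 / 8 * ((n : ℝ) + 1))) ≤ ε₅ * θ / 2 := by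
        refine le_trans (mul_le_mul_of_nonneg_right hW (Real.exp_pos _).le) ?_
        rw [← Real.exp_add]
        refine le_trans (le_of_eq ?_) hexp.le
        congr 1
        ring
      have h11 : 4 * (τ * e) * ((n : ℝ) + 1) = ε₅ * θ / 2 := by
        rw [hτ, hee]
        field_simp
        ring
      rw [h11] at hlayer
      refine (measureReal_mono h6 (measure_union_ne_top hf1 hf2)).trans ?_
      refine (measureReal_union_le _ _).trans ?_
      have h12 := mul_le_mul_of_nonneg_right h10 hκ.le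
      nlinarith
    nlinarith
  -- the sum
  have hq : 0 ≤ 1 - ((1 + τ) ^ (n + 1))⁻¹ := by
    have : ((1 + τ) ^ (n + 1))⁻¹ ≤ 1 := inv_le_one_of_one_le₀ (one_le_pow₀ (by linarith))
    linarith
  have hfinU : volume (⋃ w ∈ W, (C ∩ Vor W w)) ≠ ⊤ :=
    ((measure_mono (iUnion₂_subset fun w _ => inter_subset_left)).trans_lt hcpt.measure_lt_top).ne
  have hV : volume.real C ≤ ∑ w ∈ W, volume.real (C ∩ Vor W w) :=
    (measureReal_mono (cell_cover hcov) hfinU).trans (measureReal_biUnion_finset_le _ _)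
  calc (1 - ((1 + τ) ^ (n + 1))⁻¹) * volume.real C
      ≤ (1 - ((1 + τ) ^ (n + 1))⁻¹) * ∑ w ∈ W, volume.real (C ∩ Vor W w) :=
        mul_le_mul_of_nonneg_left hV hq
    _ = ∑ w ∈ W, (1 - ((1 + τ) ^ (n + 1))⁻¹) * volume.real (C ∩ Vor W w) := Finset.mul_sum ..
    _ ≤ ∑ w ∈ W, (volume.real (Inn C τ w ∩ Vor W w) + ε₅ * θ * kap (n + 1)) :=
        Finset.sum_le_sum hcell
    _ = ∑ w ∈ W, volume.real (Inn C τ w ∩ Vor W w) + ε₅ * θ * W.card * kap (n + 1) := by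
        rw [Finset.sum_add_distrib, Finset.sum_const, nsmul_eq_mul]
        ring

end SA70
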