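import Pool.Agent.SA70.Basic
import Pool.Agent.SC70.WMaj

/-! M8: packing. For `w` with `√d ‖w - p‖ ≤ ρ` the part of `closedBall w 1` with
`⟨x - w, w - p⟩ > a ρ / d` has volume at most `κ/a²` (Chebyshev, `SC70.integral_inner_sq_ball`), the rest is
contained in the ball around `p` with radius² `1 + (2 a ρ + ρ²)/d`, of volume
`≤ exp ((2 a ρ + ρ²)/2) κ`. With `a² = 2/η`. -/

set_option autoImplicit false

open MeasureTheory Measure Metric Set Module ENNReal

namespace SA70

open SC70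

/-- Chebyshev's inequality for a linear form on a unit ball -/
lemma m8_cheb {n : ℕ} (g : EuclideanSpace ℝ (Fin (n + 1))) {r a : ℝ} (hr : 0 < r) (ha : 0 < a)
    (hg : √((n : ℝ) + 1) * ‖g‖ ≤ r) (w : EuclideanSpace ℝ (Fin (n + 1))) :
    volume.real {x | x ∈ closedBall w 1 ∧ a * r / ((n : ℝ) + 1) < inner ℝ g (x - w)} ≤
      kap (n + 1) / a ^ 2 := by
  have hd : (0 : ℝ) < (n : ℝ) + 1 := by positivity
  set t : ℝ := a * r / ((n : ℝ) + 1) with ht
  have htpos : 0 < t := by positivity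
  have hpre : {x | x ∈ closedBall w 1 ∧ t < inner ℝ g (x - w)} =
      (fun x => x + (-w)) ⁻¹' {u | u ∈ closedBall (0 : EuclideanSpace ℝ (Fin (n + 1))) 1 ∧
        t < inner ℝ g u} := by
    ext x
    simp [mem_closedBall, dist_eq_norm, sub_eq_add_neg]
  have htr : volume.real {x | x ∈ closedBall w 1 ∧ t < inner ℝ g (x - w)} =
      volume.real {u | u ∈ closedBall (0 : EuclideanSpace ℝ (Fin (n + 1))) 1 ∧
        t < inner ℝ g u} := by
    rw [hpre, measureReal_def, measure_preimage_add_right, measureReal_def]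
  rw [htr]
  set S := {u | u ∈ closedBall (0 : EuclideanSpace ℝ (Fin (n + 1))) 1 ∧ t < inner ℝ g u} with hS
  have hcont : Continuous fun u : EuclideanSpace ℝ (Fin (n + 1)) => (inner ℝ g u : ℝ) := by
    fun_prop
  have hSm : MeasurableSet S :=
    isClosed_closedBall.measurableSet.inter (measurableSet_lt measurable_const hcont.measurable)
  have hSB : S ⊆ closedBall (0 : EuclideanSpace ℝ (Fin (n + 1))) 1 := fun u hu => hu.1
  have hSfin : volume S ≠ ∞ :=
    ((measure_mono hSB).trans_lt (isCompact_closedBall _ _).measure_lt_top).ne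
  have hint : IntegrableOn (fun u => (inner ℝ g u : ℝ) ^ 2)
      (closedBall (0 : EuclideanSpace ℝ (Fin (n + 1))) 1) :=
    (hcont.pow 2).continuousOn.integrableOn_compact (isCompact_closedBall _ _)
  have h1 : t ^ 2 * volume.real S ≤ ∫ u in S, (inner ℝ g u : ℝ) ^ 2 := by
    refine setIntegral_ge_of_const_le_real hSm hSfin (fun u hu => ?_) (hint.mono_set hSB)
    have := hu.2
    nlinarith
  have h2 : ∫ u in S, (inner ℝ g u : ℝ) ^ 2 ≤
      ∫ u in closedBall (0 : EuclideanSpace ℝ (Fin (n + 1))) 1, (inner ℝ g u : ℝ) ^ 2 :=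
    setIntegral_mono_set hint (ae_of_all _ fun u => sq_nonneg _) hSB.eventuallyLE
  have h3 := integral_inner_sq_ball (n := n + 1) (by omega) g
  rw [h3] at h2
  have hκ := kap_nonneg (n + 1)
  have hg2 : ((n : ℝ) + 1) * ‖g‖ ^ 2 ≤ r ^ 2 := by
    have h4 : (√((n : ℝ) + 1) * ‖g‖) ^ 2 ≤ r ^ 2 := by
      have : 0 ≤ √((n : ℝ) + 1) * ‖g‖ := by positivity
      exact pow_le_pow_left₀ this hg 2
    rwa [mul_pow, Real.sq_sqrt hd.le] at h4
  have h5 : ‖g‖ ^ 2 / (((n + 1 : ℕ) : ℝ) + 2) ≤ r ^ 2 / ((n : ℝ) + 1) ^ 2 := by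
    rw [div_le_div_iff₀ (by positivity) (by positivity)]
    push_cast
    have h6 : ‖g‖ ^ 2 * ((n : ℝ) + 1) ^ 2 ≤ r ^ 2 * ((n : ℝ) + 1) := by
      have := mul_le_mul_of_nonneg_right hg2 hd.le
      nlinarith
    nlinarith [sq_nonneg r]
  have h6 : t ^ 2 * volume.real S ≤ kap (n + 1) * (r ^ 2 / ((n : ℝ) + 1) ^ 2) :=
    h1.trans (h2.trans (mul_le_mul_of_nonneg_left h5 hκ))
  have h7 : t ^ 2 = a ^ 2 * (r ^ 2 / ((n : ℝ) + 1) ^ 2) := by
    rw [ht]; field_simp
  rw [h7] at h6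
  have h8 : 0 < r ^ 2 / ((n : ℝ) + 1) ^ 2 := by positivity
  rw [le_div_iff₀ (by positivity)]
  refine le_of_mul_le_mul_right ?_ h8
  nlinarith [h6]

theorem packing (η ρ : ℝ) (hη : 0 < η) (hρ : 0 ≤ ρ) : ∃ N₁ : ℕ, ∀ n : ℕ, 1 ≤ n →
    ∀ (W : Finset (EuclideanSpace ℝ (Fin (n + 1))))
      (D : EuclideanSpace ℝ (Fin (n + 1)) → Set (EuclideanSpace ℝ (Fin (n + 1)))),
      (∀ w ∈ W, MeasurableSet (D w)) → (∀ w ∈ W, D w ⊆ closedBall w 1) →
      (∀ w ∈ W, ∀ w' ∈ W, w ≠ w' → volume (D w ∩ D w') = 0) →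
      (∀ w ∈ W, η * kap (n + 1) ≤ volume.real (D w)) →
      ∀ (p : EuclideanSpace ℝ (Fin (n + 1))) (T : Finset (EuclideanSpace ℝ (Fin (n + 1)))),
        T ⊆ W → (∀ w ∈ T, √((n : ℝ) + 1) * ‖w - p‖ ≤ ρ) → T.card ≤ N₁ := by
  set r : ℝ := ρ + 1 with hr
  set a : ℝ := √(2 / η) with ha
  have hrpos : 0 < r := by linarith
  have hapos : 0 < a := Real.sqrt_pos.2 (by positivity)
  have ha2 : a ^ 2 = 2 / η := Real.sq_sqrt (by positivity)
  refine ⟨⌈2 / η * Real.exp ((2 * a * r + r ^ 2) / 2)⌉₊, ?_⟩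
  intro n hn W D hDm hDs hdis hDv p T hTW hT
  have hd : (0 : ℝ) < (n : ℝ) + 1 := by positivity
  have hκ := kap_pos (n + 1)
  set y : ℝ := (2 * a * r + r ^ 2) / ((n : ℝ) + 1) with hy
  have hy0 : 0 ≤ y := by positivity
  set R : ℝ := √(1 + y) with hR
  have hR0 : 0 ≤ R := Real.sqrt_nonneg _
  have hR2 : R ^ 2 = 1 + y := Real.sq_sqrt (by linarith)
  set S : EuclideanSpace ℝ (Fin (n + 1)) → Set (EuclideanSpace ℝ (Fin (n + 1))) := fun w =>
    {x | x ∈ closedBall w 1 ∧ a * r / ((n : ℝ) + 1) < inner ℝ (w - p) (x - w)} with hS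
  have hSm : ∀ w, MeasurableSet (S w) := by
    intro w
    have hcont : Continuous fun x : EuclideanSpace ℝ (Fin (n + 1)) =>
        (inner ℝ (w - p) (x - w) : ℝ) := by fun_prop
    exact isClosed_closedBall.measurableSet.inter
      (measurableSet_lt measurable_const hcont.measurable)
  have hgr : ∀ w ∈ T, √((n : ℝ) + 1) * ‖w - p‖ ≤ r := fun w hw => by
    have := hT w hw
    linarith
  -- the rest of `D w` is in a slightly larger ball around `p`
  have hsub : ∀ w ∈ T, D w \ S w ⊆ closedBall p R := by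
    intro w hw x hx
    have hx1 : ‖x - w‖ ≤ 1 := by
      have := hDs w (hTW hw) hx.1
      rwa [mem_closedBall, dist_eq_norm] at this
    have hx2 : inner ℝ (w - p) (x - w) ≤ a * r / ((n : ℝ) + 1) := by
      by_contra hcon
      exact hx.2 ⟨hDs w (hTW hw) hx.1, not_le.1 hcon⟩
    have hg2 : ((n : ℝ) + 1) * ‖w - p‖ ^ 2 ≤ r ^ 2 := by
      have h4 : (√((n : ℝ) + 1) * ‖w - p‖) ^ 2 ≤ r ^ 2 := by
        have : 0 ≤ √((n : ℝ) + 1) * ‖w - p‖ := by positivity
        exact pow_le_pow_left₀ this (hgr w hw) 2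
      rwa [mul_pow, Real.sq_sqrt hd.le] at h4
    have hg3 : ‖w - p‖ ^ 2 ≤ r ^ 2 / ((n : ℝ) + 1) := by
      rw [le_div_iff₀ hd]; linarith
    have h1 : ‖x - p‖ ^ 2 ≤ R ^ 2 := by
      have h2 : x - p = (w - p) + (x - w) := by abel
      rw [h2, norm_add_sq_real, hR2]
      have h3 : ‖x - w‖ ^ 2 ≤ 1 := by
        have := norm_nonneg (x - w)
        nlinarith
      have h4 : y = 2 * (a * r / ((n : ℝ) + 1)) + r ^ 2 / ((n : ℝ) + 1) := by
        rw [hy]; ring
      rw [h4]
      linarith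
    rw [mem_closedBall, dist_eq_norm]
    exact le_of_sq_le_sq h1 hR0
  have hvol : volume.real (closedBall p R) ≤ Real.exp ((2 * a * r + r ^ 2) / 2) * kap (n + 1) := by
    rw [addHaar_real_closedBall' _ _ hR0, finrank_euclideanSpace, Fintype.card_fin]
    refine mul_le_mul_of_nonneg_right ?_ hκ.le
    have h1 : R ≤ Real.exp (y / 2) := by
      refine le_of_sq_le_sq ?_ (Real.exp_pos _).le
      rw [hR2, ← Real.exp_nat_mul]
      have := Real.add_one_le_exp y
      have h2 : ((2 : ℕ) : ℝ) * (y / 2) = y := by push_cast; ring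
      rw [h2]
      linarith
    calc R ^ (n + 1) ≤ Real.exp (y / 2) ^ (n + 1) := pow_le_pow_left₀ hR0 h1 _
      _ = Real.exp ((2 * a * r + r ^ 2) / 2) := by
        rw [← Real.exp_nat_mul]
        congr 1
        rw [hy]
        push_cast
        field_simp
  have hfin : ∀ w ∈ T, volume (D w \ S w) ≠ ∞ := fun w hw =>
    ((measure_mono (hsub w hw)).trans_lt (isCompact_closedBall _ _).measure_lt_top).ne
  have hsum : ∑ w ∈ T, volume.real (D w \ S w) ≤ volume.real (closedBall p R) := by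
    have h1 : volume (⋃ w ∈ T, D w \ S w) = ∑ w ∈ T, volume (D w \ S w) := by
      refine measure_biUnion_finset₀ ?_ ?_
      · intro w hw w' hw' hne
        have h2 := hdis w (hTW hw) w' (hTW hw') hne
        exact measure_mono_null (inter_subset_inter sdiff_subset sdiff_subset) h2
      · intro w hw
        exact ((hDm w (hTW hw)).diff (hSm w)).nullMeasurableSet
    have h2 : ∑ w ∈ T, volume.real (D w \ S w) = (volume (⋃ w ∈ T, D w \ S w)).toReal := by
      rw [h1, ENNReal.toReal_sum hfin]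
      rfl
    rw [h2]
    exact ENNReal.toReal_mono (isCompact_closedBall _ _).measure_lt_top.ne
      (measure_mono (iUnion₂_subset hsub))
  have heach : ∀ w ∈ T, η / 2 * kap (n + 1) ≤ volume.real (D w \ S w) := by
    intro w hw
    have h1 : volume.real (D w) ≤ volume.real (D w \ S w) + volume.real (S w) := by
      have h2 : D w ⊆ (D w \ S w) ∪ S w := by
        intro x hx
        by_cases hxs : x ∈ S w
        · exact Or.inr hxs
        · exact Or.inl ⟨hx, hxs⟩
      have hSfin : volume (S w) ≠ ∞ :=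
        ((measure_mono (fun x hx => hx.1)).trans_lt
          (isCompact_closedBall w 1).measure_lt_top).ne
      exact (measureReal_mono h2 (measure_union_ne_top (hfin w hw) hSfin)).trans
        (measureReal_union_le _ _)
    have h2 := m8_cheb (w - p) hrpos hapos (hgr w hw) w
    have h3 := hDv w (hTW hw)
    have h4 : kap (n + 1) / a ^ 2 = η / 2 * kap (n + 1) := by
      rw [ha2]; field_simp
    rw [h4] at h2
    have h5 : volume.real (S w) ≤ η / 2 * kap (n + 1) := h2
    linarith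
  have hfinal : (T.card : ℝ) * (η / 2 * kap (n + 1)) ≤
      Real.exp ((2 * a * r + r ^ 2) / 2) * kap (n + 1) := by
    calc (T.card : ℝ) * (η / 2 * kap (n + 1)) = ∑ _w ∈ T, η / 2 * kap (n + 1) := by
          rw [Finset.sum_const, nsmul_eq_mul]
      _ ≤ ∑ w ∈ T, volume.real (D w \ S w) := Finset.sum_le_sum heach
      _ ≤ _ := hsum.trans hvol
  have h9 : (T.card : ℝ) ≤ 2 / η * Real.exp ((2 * a * r + r ^ 2) / 2) := by
    have h10 : (T.card : ℝ) * (η / 2) ≤ Real.exp ((2 * a * r + r ^ 2) / 2) := by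
      refine le_of_mul_le_mul_right ?_ hκ
      linarith
    have h11 : 2 / η * ((T.card : ℝ) * (η / 2)) = T.card := by field_simp
    rw [← h11]
    exact mul_le_mul_of_nonneg_left h10 (by positivity)
  exact_mod_cast h9.trans (Nat.le_ceil _)

/-- two Voronoi cells meet in a set of measure zero -/
theorem vor_inter {n : ℕ} (W : Finset (EuclideanSpace ℝ (Fin (n + 1))))
    (w w' : EuclideanSpace ℝ (Fin (n + 1))) (hw : w ∈ W) (hw' : w' ∈ W) (h : w ≠ w') :
    volume (Vor W w ∩ Vor W w') = 0 := by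
  have hsub : Vor W w ∩ Vor W w' ⊆
      (AffineSubspace.perpBisector w w' : Set (EuclideanSpace ℝ (Fin (n + 1)))) := by
    rintro x ⟨h1, h2⟩
    have h3 := h1 w' hw'
    have h4 := h2 w hw
    rw [SetLike.mem_coe, AffineSubspace.mem_perpBisector_iff_dist_eq, dist_eq_norm, dist_eq_norm]
    exact le_antisymm h3 h4
  refine measure_mono_null hsub (addHaar_affineSubspace _ _ ?_)
  rw [Ne, AffineSubspace.perpBisector_eq_top]
  exact h

end SA70
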