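import Pool.Agent.SA70.Basic

/-! M9: the pigeonhole argument. -/

set_option autoImplicit false

open MeasureTheory Measure Metric Set Module ENNReal

namespace SA70

theorem dir_symm {E : Type*} [NormedAddCommGroup E] [InnerProductSpace ℝ E] (w a : E) :
    dir w a = - dir a w := by
  rw [dir, dir, norm_sub_rev a w, ← smul_neg, neg_sub]

/-- the directions from `w` to the points of `U` are `δ`-separated -/
def M9Sep {n : ℕ} (δ : ℝ) (w : EuclideanSpace ℝ (Fin n)) (U : Finset (EuclideanSpace ℝ (Fin n))) :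
    Prop :=
  ∀ u ∈ U, ∀ u' ∈ U, u ≠ u' → δ ≤ ‖dir w u - dir w u'‖

theorem m9_step {n : ℕ} (M₁ N₁ C : ℕ) (δ R : ℝ) (hδ : 0 < δ)
    (P : Finset (EuclideanSpace ℝ (Fin n)))
    (H1 : ∀ w ∈ P, ∀ T : Finset (EuclideanSpace ℝ (Fin n)), T ⊆ P → (∀ u ∈ T, ‖u - w‖ < R) →
        T.card ≤ N₁)
    (H2 : ∀ w ∈ P, ∀ U : Finset (EuclideanSpace ℝ (Fin n)), U ⊆ P → (∀ u ∈ U, R ≤ ‖u - w‖) →
        (∀ u ∈ U, ∀ u' ∈ U, u ≠ u' → δ ≤ ‖dir w u - dir w u'‖) → U.card ≤ M₁)
    (w : EuclideanSpace ℝ (Fin n)) (hw : w ∈ P) (Q : Finset (EuclideanSpace ℝ (Fin n)))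
    (hQ : Q ⊆ P) (hc : N₁ + M₁ * C < Q.card) :
    ∃ Q' : Finset (EuclideanSpace ℝ (Fin n)), Q' ⊆ Q ∧ C < Q'.card ∧ (∀ u ∈ Q', R ≤ ‖u - w‖) ∧
      ∀ u ∈ Q', ∀ u' ∈ Q', ‖dir w u - dir w u'‖ ≤ 2 * δ := by
  classical
  set Far := Q.filter (fun u => R ≤ ‖u - w‖) with hFar
  have hnear : (Q.filter (fun u => ¬ R ≤ ‖u - w‖)).card ≤ N₁ :=
    H1 w hw _ ((Finset.filter_subset _ _).trans hQ) (fun u hu => by
      have := (Finset.mem_filter.mp hu).2
      exact not_le.mp this)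
  have hsum := Finset.card_filter_add_card_filter_not (s := Q) (fun u => R ≤ ‖u - w‖)
  have hFc : M₁ * C < Far.card := by
    have : Far.card = (Q.filter (fun u => R ≤ ‖u - w‖)).card := rfl
    omega
  -- a maximal separated subset
  obtain ⟨U, hU, hmax⟩ := Finset.exists_max_image
    (Far.powerset.filter (fun U => M9Sep δ w U))
    Finset.card ⟨∅, by rw [Finset.mem_filter]; exact ⟨by simp, by simp [M9Sep]⟩⟩
  rw [Finset.mem_filter, Finset.mem_powerset] at hU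
  obtain ⟨hUF, hUs⟩ := hU
  have hUc : U.card ≤ M₁ := H2 w hw U ((hUF.trans (Finset.filter_subset _ _)).trans hQ)
    (fun u hu => (Finset.mem_filter.mp (hUF hu)).2) hUs
  have hnearU : ∀ a ∈ Far, ∃ u ∈ U, ‖dir w a - dir w u‖ ≤ δ := by
    intro a ha
    by_contra hcon
    push Not at hcon
    have haU : a ∉ U := by
      intro haU
      have := hcon a haU
      rw [sub_self, norm_zero] at this
      linarith
    have h1 : insert a U ∈ Far.powerset.filter (fun U => M9Sep δ w U) := by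
      rw [Finset.mem_filter, Finset.mem_powerset]
      refine ⟨Finset.insert_subset ha hUF, ?_⟩
      intro u hu u' hu' hne
      rw [Finset.mem_insert] at hu hu'
      rcases hu with rfl | hu
      · rcases hu' with rfl | hu'
        · exact absurd rfl hne
        · exact (hcon u' hu').le
      · rcases hu' with rfl | hu'
        · rw [norm_sub_rev]; exact (hcon u hu).le
        · exact hUs u hu u' hu' hne
    have h2 := hmax _ h1
    rw [Finset.card_insert_of_notMem haU] at h2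
    omega
  choose! φ hφ1 hφ2 using hnearU
  have hlt : U.card * C < Far.card := lt_of_le_of_lt (Nat.mul_le_mul_right C hUc) hFc
  obtain ⟨y, -, hy⟩ := Finset.exists_lt_card_fiber_of_mul_lt_card_of_maps_to hφ1 hlt
  refine ⟨Far.filter (fun x => φ x = y), ?_, hy, ?_, ?_⟩
  · exact (Finset.filter_subset _ _).trans (Finset.filter_subset _ _)
  · intro u hu
    exact (Finset.mem_filter.mp (Finset.mem_filter.mp hu).1).2
  · intro u hu u' hu'
    rw [Finset.mem_filter] at hu hu'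
    have h1 := hφ2 u hu.1
    have h2 := hφ2 u' hu'.1
    rw [hu.2] at h1
    rw [hu'.2] at h2
    have h3 : dir w u - dir w u' = (dir w u - dir w y) - (dir w u' - dir w y) := by abel
    rw [h3]
    refine (norm_sub_le _ _).trans ?_
    linarith

theorem m9_seq (M₁ N₁ : ℕ) (δ : ℝ) (hδ : 0 < δ) (k : ℕ) : ∃ C : ℕ, ∀ (n : ℕ) (R : ℝ)
    (P : Finset (EuclideanSpace ℝ (Fin n))),
    (∀ w ∈ P, ∀ T : Finset (EuclideanSpace ℝ (Fin n)), T ⊆ P → (∀ u ∈ T, ‖u - w‖ < R) →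
        T.card ≤ N₁) →
    (∀ w ∈ P, ∀ U : Finset (EuclideanSpace ℝ (Fin n)), U ⊆ P → (∀ u ∈ U, R ≤ ‖u - w‖) →
        (∀ u ∈ U, ∀ u' ∈ U, u ≠ u' → δ ≤ ‖dir w u - dir w u'‖) → U.card ≤ M₁) →
    ∀ Q ⊆ P, C < Q.card → ∃ (w : Fin k → EuclideanSpace ℝ (Fin n))
      (z : EuclideanSpace ℝ (Fin n)), (∀ i, w i ∈ Q) ∧ z ∈ Q ∧ (∀ i, R ≤ ‖z - w i‖) ∧
      ∀ i j, i < j → R ≤ ‖w j - w i‖ ∧ ‖dir (w i) (w j) - dir (w i) z‖ ≤ 2 * δ := by
  induction k with
  | zero =>
    refine ⟨0, fun n R P _ _ Q _ hc => ?_⟩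
    obtain ⟨z, hz⟩ := Finset.card_pos.mp hc
    exact ⟨fun i => i.elim0, z, fun i => i.elim0, hz, fun i => i.elim0, fun i => i.elim0⟩
  | succ k ih =>
    obtain ⟨C, hC⟩ := ih
    refine ⟨N₁ + M₁ * C, fun n R P H1 H2 Q hQ hc => ?_⟩
    obtain ⟨w₀, hw₀⟩ := Finset.card_pos.mp (lt_of_le_of_lt (Nat.zero_le _) hc)
    obtain ⟨Q', hQ'Q, hQ'c, hfar, hdir⟩ := m9_step M₁ N₁ C δ R hδ P H1 H2 w₀ (hQ hw₀) Q hQ hc
    obtain ⟨w, z, hw, hz, hwz, hww⟩ := hC n R P H1 H2 Q' (hQ'Q.trans hQ) hQ'c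
    refine ⟨Fin.cons w₀ w, z, ?_, hQ'Q hz, ?_, ?_⟩
    · intro i
      refine Fin.cases ?_ (fun i => ?_) i
      · simpa using hw₀
      · simpa using hQ'Q (hw i)
    · intro i
      refine Fin.cases ?_ (fun i => ?_) i
      · simpa using hfar z hz
      · simpa using hwz i
    · intro i j
      refine Fin.cases ?_ (fun i => ?_) i
      · refine Fin.cases ?_ (fun j => ?_) j
        · intro h; exact absurd h (lt_irrefl _)
        · intro _
          rw [Fin.cons_zero, Fin.cons_succ]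
          exact ⟨hfar _ (hw j), hdir _ (hw j) _ hz⟩
      · refine Fin.cases ?_ (fun j => ?_) j
        · intro h; exact absurd h (Fin.not_lt_zero _)
        · intro h
          rw [Fin.cons_succ, Fin.cons_succ]
          exact hww i j (Fin.succ_lt_succ_iff.mp h)

theorem opposite_triple (M₁ N₁ : ℕ) (δ : ℝ) (hδ : 0 < δ) : ∃ C₃ : ℕ,
    ∀ (n : ℕ) (R : ℝ) (P : Finset (EuclideanSpace ℝ (Fin n))), 0 < R → C₃ < P.card →
      (∀ w ∈ P, ∀ T : Finset (EuclideanSpace ℝ (Fin n)), T ⊆ P → (∀ u ∈ T, ‖u - w‖ < R) →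
        T.card ≤ N₁) →
      (∀ w ∈ P, ∀ U : Finset (EuclideanSpace ℝ (Fin n)), U ⊆ P → (∀ u ∈ U, R ≤ ‖u - w‖) →
        (∀ u ∈ U, ∀ u' ∈ U, u ≠ u' → δ ≤ ‖dir w u - dir w u'‖) → U.card ≤ M₁) →
      ∃ w ∈ P, ∃ a ∈ P, ∃ b ∈ P, R ≤ ‖a - w‖ ∧ R ≤ ‖b - w‖ ∧ ‖dir w a + dir w b‖ ≤ 6 * δ := by
  classical
  obtain ⟨C, hC⟩ := m9_seq M₁ N₁ δ hδ (M₁ + 1)
  refine ⟨C, fun n R P hR hc H1 H2 => ?_⟩
  obtain ⟨w, z, hw, hz, hwz, hww⟩ := hC n R P H1 H2 P (Finset.Subset.refl _) hc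
  have hinj : Function.Injective w := by
    intro i j hij
    by_contra hne
    rcases lt_or_gt_of_ne hne with h | h
    · have := (hww i j h).1
      rw [hij, sub_self, norm_zero] at this
      linarith
    · have := (hww j i h).1
      rw [hij, sub_self, norm_zero] at this
      linarith
  have hex : ∃ i j, i < j ∧ ‖dir z (w i) - dir z (w j)‖ < δ := by
    by_contra hcon
    push Not at hcon
    have h1 := H2 z hz (Finset.univ.image w) (by
      intro x hx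
      obtain ⟨i, -, rfl⟩ := Finset.mem_image.mp hx
      exact hw i) (by
      intro x hx
      obtain ⟨i, -, rfl⟩ := Finset.mem_image.mp hx
      rw [norm_sub_rev]
      exact hwz i) (by
      intro x hx y hy hne
      obtain ⟨i, -, rfl⟩ := Finset.mem_image.mp hx
      obtain ⟨j, -, rfl⟩ := Finset.mem_image.mp hy
      rcases lt_or_gt_of_ne (fun h : i = j => hne (by rw [h])) with h | h
      · exact hcon i j h
      · rw [norm_sub_rev]; exact hcon j i h)
    rw [Finset.card_image_of_injective _ hinj, Finset.card_univ, Fintype.card_fin] at h1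
    omega
  obtain ⟨i, j, hij, hlt⟩ := hex
  refine ⟨w j, hw j, w i, hw i, z, hz, ?_, hwz j, ?_⟩
  · rw [norm_sub_rev]; exact (hww i j hij).1
  · have h1 := (hww i j hij).2
    have h2 : dir (w j) (w i) + dir (w j) z =
        -(dir (w i) (w j) - dir (w i) z) + (dir z (w i) - dir z (w j)) := by
      rw [dir_symm (w j) (w i), dir_symm (w j) z, dir_symm z (w i)]
      abel
    rw [h2]
    refine (norm_add_le _ _).trans ?_
    rw [norm_neg]
    linarith

end SA70
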