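import Pool.Agent.SA70.M10a
import Pool.Agent.SA70.M6
import Pool.Agent.SA70.M7c
import Pool.Agent.SA70.M8
import Pool.Agent.SA70.M9

/-!
# The asymptotic sausage theorem for coverings
-/

set_option autoImplicit false

open MeasureTheory Measure Metric Set Module ENNReal

namespace SA70

open SC70

variable {n : ℕ}

lemma Vor_closed (W : Finset (EuclideanSpace ℝ (Fin (n + 1))))
    (w : EuclideanSpace ℝ (Fin (n + 1))) : IsClosed (Vor W w) := by
  have : Vor W w = ⋂ w' ∈ W, {x | ‖x - w‖ ≤ ‖x - w'‖} := by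
    ext x; simp [Vor]
  rw [this]
  apply isClosed_biInter
  intro w' _
  exact isClosed_le (by fun_prop) (by fun_prop)

lemma dir_shift {E : Type*} [NormedAddCommGroup E] [InnerProductSpace ℝ E] (w a : E) :
    dir 0 (a - w) = dir w a := by
  unfold dir
  rw [sub_zero]

lemma vol_ball_real (w : EuclideanSpace ℝ (Fin (n + 1))) :
    volume.real (closedBall w 1) = kap (n + 1) := by
  unfold kap
  rw [measureReal_def, measureReal_def, Measure.addHaar_closedBall_center]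

/-- **The asymptotic sausage theorem**, finite form. -/
theorem asymptotic (ε : ℝ) (hε : 0 < ε) (hε1 : ε ≤ 1) : ∃ c : ℝ, 0 < c ∧ ∃ k₀ d₀ : ℕ,
    1 ≤ d₀ ∧ ∀ n : ℕ, d₀ ≤ n → ∀ (C : Set (EuclideanSpace ℝ (Fin (n + 1))))
      (X : Finset (EuclideanSpace ℝ (Fin (n + 1)))), Convex ℝ C → IsCompact C →
      C ⊆ ⋃ x ∈ X, closedBall x 1 → k₀ ≤ X.card →
      (X.card : ℝ) ≤ Real.exp (c * ((n : ℝ) + 1)) →
      volume.real C ≤ (1 + ε) * (2 * X.card * (kap n * Mn n)) := by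
  classical
  obtain ⟨θ, hθ⟩ : ∃ θ : ℝ, θ = ε / 20 := ⟨_, rfl⟩
  obtain ⟨ε₅, hε₅⟩ : ∃ ε₅ : ℝ, ε₅ = ε / 100 := ⟨_, rfl⟩
  have hθ0 : 0 < θ := by rw [hθ]; positivity
  have hθ1 : θ ≤ 1 := by rw [hθ]; linarith
  have hε₅0 : 0 < ε₅ := by rw [hε₅]; positivity
  obtain ⟨η', hη'⟩ : ∃ η' : ℝ, η' = ε₅ * θ := ⟨_, rfl⟩
  have hη'0 : 0 < η' := by rw [hη']; positivity
  obtain ⟨δ', hδ'0, Ra, da, htwo⟩ := two_sided (ε₅ * θ) η' θ (by positivity) hη'0 hθ0 hθ1
  obtain ⟨δ, hδ⟩ : ∃ δ : ℝ, δ = min (δ' / 6) 1 := ⟨_, rfl⟩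
  have hδ0 : 0 < δ := by rw [hδ]; exact lt_min (by positivity) one_pos
  have hδ1 : δ ≤ 1 := by rw [hδ]; exact min_le_right _ _
  have hδδ : 6 * δ ≤ δ' := by
    have : δ ≤ δ' / 6 := by rw [hδ]; exact min_le_left _ _
    linarith
  obtain ⟨N₀, Rb, db, hfew⟩ := few_dirs η' δ hη'0 hδ0 hδ1
  obtain ⟨R, hR⟩ : ∃ R : ℝ, R = max (max Ra Rb) 1 := ⟨_, rfl⟩
  have hRa : Ra ≤ R := by rw [hR]; exact (le_max_left _ _).trans (le_max_left _ _)
  have hRb : Rb ≤ R := by rw [hR]; exact (le_max_right _ _).trans (le_max_left _ _)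
  have hR1 : 1 ≤ R := by rw [hR]; exact le_max_right _ _
  obtain ⟨N₁, hpack⟩ := packing η' R hη'0 (by linarith)
  obtain ⟨C₃, htri⟩ := opposite_triple N₀ N₁ δ hδ0
  obtain ⟨c, hc0, dc, hvor⟩ := voronoi_sum ε₅ θ hε₅0 hθ0 hθ1
  refine ⟨c, hc0, ⌈50 * ((C₃ : ℝ) + 1) / (θ * ε)⌉₊ + 1, max (max da db) (max dc 1), ?_, ?_⟩
  · exact (le_max_right _ _).trans (le_max_right _ _)
  intro n hn C X hconv hCc hcov hk hkc
  have hn1 : 1 ≤ n := ((le_max_right _ _).trans (le_max_right _ _)).trans hn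
  have hnda : da ≤ n := ((le_max_left _ _).trans (le_max_left _ _)).trans hn
  have hndb : db ≤ n := ((le_max_right _ _).trans (le_max_left _ _)).trans hn
  have hndc : dc ≤ n := ((le_max_left _ _).trans (le_max_right _ _)).trans hn
  have hκ := kap_pos (n + 1)
  have hκn := kap_pos n
  have hMn := Mn_pos hn1
  have hd0 : (0 : ℝ) < (n : ℝ) + 1 := by positivity
  have hsd : 0 < √((n : ℝ) + 1) := Real.sqrt_pos.mpr hd0
  rcases C.eq_empty_or_nonempty with hCe | hCne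
  · rw [hCe, measureReal_empty]; positivity
  obtain ⟨f, hf1, hf2⟩ := move_in C hconv hCc hCne
  obtain ⟨W, hW⟩ : ∃ W : Finset (EuclideanSpace ℝ (Fin (n + 1))), W = X.image f := ⟨_, rfl⟩
  have hWC : ∀ w ∈ W, w ∈ C := by
    intro w hw
    rw [hW] at hw
    obtain ⟨x, _, rfl⟩ := Finset.mem_image.mp hw
    exact hf1 x
  have hcovx : ∀ x ∈ C, ∃ w ∈ W, ‖x - w‖ ≤ 1 := by
    intro x hx
    have h1 := hcov hx
    simp only [mem_iUnion] at h1
    obtain ⟨w, hw, hxw⟩ := h1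
    rw [mem_closedBall, dist_eq_norm] at hxw
    exact ⟨f w, by rw [hW]; exact Finset.mem_image_of_mem f hw, (hf2 w x hx).trans hxw⟩
  have hcovW : C ⊆ ⋃ w ∈ W, closedBall w 1 := by
    intro x hx
    obtain ⟨w, hw, hxw⟩ := hcovx x hx
    simp only [mem_iUnion]
    exact ⟨w, hw, by rw [mem_closedBall, dist_eq_norm]; exact hxw⟩
  have hWcard : (W.card : ℝ) ≤ X.card := by
    rw [hW]; exact_mod_cast Finset.card_image_le
  obtain ⟨τ, hτ⟩ : ∃ τ : ℝ, τ = θ / ((n : ℝ) + 1) := ⟨_, rfl⟩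
  have hτ0 : 0 < τ := by rw [hτ]; positivity
  have hτ1 : τ ≤ 1 / ((n : ℝ) + 1) := by rw [hτ]; gcongr
  have hsum := hvor n hndc C W hconv hCc hWC hcovW (hWcard.trans hkc)
  rw [← hτ] at hsum
  -- the cells
  obtain ⟨J, hJ⟩ : ∃ J : EuclideanSpace ℝ (Fin (n + 1)) → ℝ,
      ∀ w, J w = volume.real (Inn C τ w ∩ Vor W w) := ⟨_, fun _ => rfl⟩
  have hCfin : ∀ A : Set (EuclideanSpace ℝ (Fin (n + 1))), A ⊆ C → volume A ≠ ⊤ := fun A hA =>
    ne_top_of_le_ne_top hCc.measure_ne_top (measure_mono hA)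
  have hInnC : ∀ w, Inn C τ w ⊆ C := fun w x hx => hx.1
  have hJ1 : ∀ w, J w ≤ volume.real (Inn C τ w) := by
    intro w
    rw [hJ]
    exact measureReal_mono inter_subset_left (hCfin _ (hInnC w))
  have hJ2 : ∀ w, J w ≤ volume.real (C ∩ Vor W w) := by
    intro w
    rw [hJ]
    exact measureReal_mono (inter_subset_inter_left _ (hInnC w)) (hCfin _ inter_subset_left)
  have hcell : ∀ w ∈ W, C ∩ Vor W w ⊆ C ∩ closedBall w 1 := by
    rintro w hw x ⟨hx, hxV⟩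
    obtain ⟨w', hw', hxw'⟩ := hcovx x hx
    refine ⟨hx, ?_⟩
    rw [mem_closedBall, dist_eq_norm]
    exact (hxV w' hw').trans hxw'
  have hJ3 : ∀ w ∈ W, J w ≤ volume.real (C ∩ closedBall w 1) := by
    intro w hw
    exact (hJ2 w).trans (measureReal_mono (hcell w hw) (hCfin _ inter_subset_left))
  have hJ4 : ∀ w ∈ W, J w ≤ kap (n + 1) := by
    intro w hw
    refine (hJ3 w hw).trans ?_
    rw [← vol_ball_real w]
    exact measureReal_mono inter_subset_right (isCompact_closedBall w 1).measure_ne_top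
  obtain ⟨G, hG⟩ : ∃ G : Finset (EuclideanSpace ℝ (Fin (n + 1))),
      G = W.filter (fun w => η' * kap (n + 1) ≤ J w) := ⟨_, rfl⟩
  have hGmem : ∀ w, w ∈ G ↔ w ∈ W ∧ η' * kap (n + 1) ≤ J w := by
    intro w; rw [hG, Finset.mem_filter]
  obtain ⟨P, hP⟩ : ∃ P : Finset (EuclideanSpace ℝ (Fin (n + 1))),
      P = G.filter (fun w => ¬ ∃ a ∈ G, ∃ b ∈ G, R / √((n : ℝ) + 1) ≤ ‖a - w‖ ∧
        R / √((n : ℝ) + 1) ≤ ‖b - w‖ ∧ ‖dir w a + dir w b‖ ≤ 6 * δ) := ⟨_, rfl⟩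
  have hPmem : ∀ w, w ∈ P ↔ w ∈ G ∧ ¬ ∃ a ∈ G, ∃ b ∈ G, R / √((n : ℝ) + 1) ≤ ‖a - w‖ ∧
        R / √((n : ℝ) + 1) ≤ ‖b - w‖ ∧ ‖dir w a + dir w b‖ ≤ 6 * δ := by
    intro w; rw [hP, Finset.mem_filter]
  have hPG : ∀ w ∈ P, w ∈ G := fun w hw => ((hPmem w).mp hw).1
  have hPcard : P.card ≤ C₃ := by
    by_contra hcon
    push Not at hcon
    obtain ⟨w, hw, a, ha, b, hb, h1, h2, h3⟩ := htri (n + 1) (R / √((n : ℝ) + 1)) P
      (by positivity) hcon (by
        intro w hw T hT hTw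
        apply hpack n hn1 G (fun w => C ∩ Vor W w) ?_ ?_ ?_ ?_ w T
          (fun u hu => hPG u (hT hu)) ?_
        · intro w hw
          exact hCc.measurableSet.inter (Vor_closed W w).measurableSet
        · intro w hw
          exact (hcell w ((hGmem w).mp hw).1).trans inter_subset_right
        · intro w hw w' hw' hne
          apply measure_mono_null _ (vor_inter W w w' ((hGmem w).mp hw).1 ((hGmem w').mp hw').1 hne)
          rintro x ⟨⟨_, h1⟩, ⟨_, h2⟩⟩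
          exact ⟨h1, h2⟩
        · intro w hw
          exact ((hGmem w).mp hw).2.trans (hJ2 w)
        · intro u hu
          have h4 := hTw u hu
          rw [lt_div_iff₀ hsd] at h4
          linarith) (by
        intro w hw U hU hUfar hUsep
        have hwG := (hGmem w).mp (hPG w hw)
        apply hfew n hndb C hconv hCc w (hWC w hwG.1) τ hτ0 hτ1 (hwG.2.trans (hJ1 w)) U ?_ ?_ hUsep
        · intro u hu
          have h4 := hUfar u hu
          rw [div_le_iff₀ hsd] at h4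
          linarith
        · intro u hu
          have huG := (hGmem u).mp (hPG u (hU hu))
          exact huG.2.trans (hJ3 u huG.1))
    exact ((hPmem w).mp hw).2 ⟨a, hPG a ha, b, hPG b hb, h1, h2, h3⟩
  -- the bound for each cell
  have hJle : ∀ w ∈ W, J w ≤ (2 * Mn n * θ * kap n + ε₅ * θ * kap (n + 1)) +
      (if w ∈ P then kap (n + 1) else 0) := by
    intro w hw
    have hpos : 0 ≤ 2 * Mn n * θ * kap n := by positivity
    have hpos2 : 0 ≤ ε₅ * θ * kap (n + 1) := by positivity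
    by_cases hwP : w ∈ P
    · rw [if_pos hwP]
      have := hJ4 w hw
      linarith
    · rw [if_neg hwP, add_zero]
      by_cases hwG : w ∈ G
      · have h1 : ∃ a ∈ G, ∃ b ∈ G, R / √((n : ℝ) + 1) ≤ ‖a - w‖ ∧
            R / √((n : ℝ) + 1) ≤ ‖b - w‖ ∧ ‖dir w a + dir w b‖ ≤ 6 * δ := by
          by_contra hcon
          exact hwP ((hPmem w).mpr ⟨hwG, hcon⟩)
        obtain ⟨a, ha, b, hb, hfa, hfb, hab⟩ := h1
        have haG := (hGmem a).mp ha
        have hbG := (hGmem b).mp hb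
        rw [div_le_iff₀ hsd] at hfa hfb
        have h2 := htwo n hnda (shiftC C w) (shiftC_convex C w hconv) (shiftC_compact C w hCc)
          (by simp only [shiftC, mem_preimage, zero_add]; exact hWC w hw) (a - w) (b - w)
          (by linarith) (by linarith) (by rw [dir_shift, dir_shift]; linarith)
          (by rw [ball_shift, vol_shift]; exact haG.2.trans (hJ3 a haG.1))
          (by rw [ball_shift, vol_shift]; exact hbG.2.trans (hJ3 b hbG.1))
        rw [← hτ, Inn_shift, vol_shift] at h2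
        exact (hJ1 w).trans h2
      · have h1 : J w < η' * kap (n + 1) := by
          by_contra hcon
          exact hwG ((hGmem w).mpr ⟨hw, not_lt.mp hcon⟩)
        rw [hη'] at h1
        linarith
  have hJsum : ∑ w ∈ W, J w ≤ W.card * (2 * Mn n * θ * kap n + ε₅ * θ * kap (n + 1)) +
      C₃ * kap (n + 1) := by
    calc ∑ w ∈ W, J w ≤ ∑ w ∈ W, ((2 * Mn n * θ * kap n + ε₅ * θ * kap (n + 1)) +
          (if w ∈ P then kap (n + 1) else 0)) := Finset.sum_le_sum hJle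
      _ = W.card * (2 * Mn n * θ * kap n + ε₅ * θ * kap (n + 1)) +
          ∑ w ∈ W, (if w ∈ P then kap (n + 1) else 0) := by
          rw [Finset.sum_add_distrib, Finset.sum_const, nsmul_eq_mul]
      _ ≤ _ := by
          rw [← Finset.sum_filter, Finset.sum_const, nsmul_eq_mul]
          have h1 : (W.filter (fun w => w ∈ P)).card ≤ C₃ := by
            refine (Finset.card_le_card ?_).trans hPcard
            intro w hw
            exact (Finset.mem_filter.mp hw).2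
          have h2 : ((W.filter (fun w => w ∈ P)).card : ℝ) ≤ C₃ := by exact_mod_cast h1
          gcongr
  have hsum2 : (1 - ((1 + τ) ^ (n + 1))⁻¹) * volume.real C ≤
      W.card * (2 * Mn n * θ * kap n + 2 * (ε₅ * θ * kap (n + 1))) + C₃ * kap (n + 1) := by
    have h1 : ∑ w ∈ W, volume.real (Inn C τ w ∩ Vor W w) = ∑ w ∈ W, J w :=
      Finset.sum_congr rfl fun w _ => (hJ w).symm
    rw [h1] at hsum
    linarith
  -- numerics
  obtain ⟨V, hV⟩ : ∃ V : ℝ, V = volume.real C := ⟨_, rfl⟩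
  have hV0 : 0 ≤ V := by rw [hV]; exact measureReal_nonneg
  rw [← hV] at hsum2 ⊢
  obtain ⟨k, hkdef⟩ : ∃ k : ℝ, k = (X.card : ℝ) := ⟨_, rfl⟩
  rw [← hkdef] at hWcard ⊢
  have hk0 : 50 * ((C₃ : ℝ) + 1) / (θ * ε) ≤ k := by
    have h1 := Nat.le_ceil (50 * ((C₃ : ℝ) + 1) / (θ * ε))
    have h2 : ⌈50 * ((C₃ : ℝ) + 1) / (θ * ε)⌉₊ ≤ X.card := by omega
    have h3 : ((⌈50 * ((C₃ : ℝ) + 1) / (θ * ε)⌉₊ : ℕ) : ℝ) ≤ (X.card : ℝ) := by exact_mod_cast h2
    rw [hkdef]; linarith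
  have hkpos : 0 < k := lt_of_lt_of_le (by positivity) hk0
  have hα : θ / (1 + θ) ≤ 1 - ((1 + τ) ^ (n + 1))⁻¹ := by
    have hb := one_add_mul_le_pow (a := τ) (by linarith) (n + 1)
    have h1 : ((n + 1 : ℕ) : ℝ) * τ = θ := by
      rw [hτ]; push_cast; field_simp
    rw [h1] at hb
    have h2 : ((1 + τ) ^ (n + 1))⁻¹ ≤ (1 + θ)⁻¹ := inv_anti₀ (by linarith) hb
    have h3 : θ / (1 + θ) = 1 - (1 + θ)⁻¹ := by field_simp; ring
    rw [h3]; linarith
  have hκle := kap_succ_le' hn1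
  obtain ⟨Q, hQ⟩ : ∃ Q : ℝ, Q = kap n * Mn n := ⟨_, rfl⟩
  have hQ0 : 0 < Q := by rw [hQ]; positivity
  have hκQ : kap (n + 1) ≤ 5 * Q := by rw [hQ]; linarith
  rw [← hQ]
  have hfirst : θ / (1 + θ) * V ≤ k * (2 * θ * Q + 10 * ε₅ * θ * Q) + C₃ * (5 * Q) := by
    calc θ / (1 + θ) * V ≤ (1 - ((1 + τ) ^ (n + 1))⁻¹) * V := mul_le_mul_of_nonneg_right hα hV0
      _ ≤ W.card * (2 * Mn n * θ * kap n + 2 * (ε₅ * θ * kap (n + 1))) + C₃ * kap (n + 1) := hsum2
      _ ≤ k * (2 * θ * Q + 10 * ε₅ * θ * Q) + C₃ * (5 * Q) := by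
          have h1 : 2 * Mn n * θ * kap n + 2 * (ε₅ * θ * kap (n + 1)) ≤
              2 * θ * Q + 10 * ε₅ * θ * Q := by
            have h2 : ε₅ * θ * kap (n + 1) ≤ ε₅ * θ * (5 * Q) :=
              mul_le_mul_of_nonneg_left hκQ (by positivity)
            have h3 : 2 * Mn n * θ * kap n = 2 * θ * Q := by rw [hQ]; ring
            linarith
          have h4 : 0 ≤ 2 * Mn n * θ * kap n + 2 * (ε₅ * θ * kap (n + 1)) := by positivity
          have h5 : (C₃ : ℝ) * kap (n + 1) ≤ C₃ * (5 * Q) :=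
            mul_le_mul_of_nonneg_left hκQ (Nat.cast_nonneg _)
          have h6 : (W.card : ℝ) * (2 * Mn n * θ * kap n + 2 * (ε₅ * θ * kap (n + 1))) ≤
              k * (2 * θ * Q + 10 * ε₅ * θ * Q) := mul_le_mul hWcard h1 h4 hkpos.le
          linarith
  have hC₃ : (C₃ : ℝ) * 50 ≤ θ * ε * k := by
    rw [div_le_iff₀ (by positivity)] at hk0
    nlinarith
  have h7 : V ≤ (1 + θ) * (2 * k * Q + 10 * ε₅ * k * Q + ε * k * Q / 10) := by
    have h8 : θ * V ≤ (1 + θ) * (k * (2 * θ * Q + 10 * ε₅ * θ * Q) + C₃ * (5 * Q)) := by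
      have h9 : θ * V = (1 + θ) * (θ / (1 + θ) * V) := by field_simp
      rw [h9]
      exact mul_le_mul_of_nonneg_left hfirst (by linarith)
    have h10 : (C₃ : ℝ) * (5 * Q) ≤ θ * (ε * k * Q / 10) := by nlinarith
    have h11 : θ * V ≤ θ * ((1 + θ) * (2 * k * Q + 10 * ε₅ * k * Q + ε * k * Q / 10)) := by
      calc θ * V ≤ (1 + θ) * (k * (2 * θ * Q + 10 * ε₅ * θ * Q) + C₃ * (5 * Q)) := h8
        _ ≤ (1 + θ) * (k * (2 * θ * Q + 10 * ε₅ * θ * Q) + θ * (ε * k * Q / 10)) := by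
            apply mul_le_mul_of_nonneg_left _ (by linarith)
            linarith
        _ = _ := by ring
    exact le_of_mul_le_mul_left h11 hθ0
  refine h7.trans ?_
  rw [hθ, hε₅]
  have hkQ : 0 < k * Q := by positivity
  have h12 : (1 + ε / 20) * (2 * k * Q + 10 * (ε / 100) * k * Q + ε * k * Q / 10) =
      (k * Q) * ((1 + ε / 20) * (2 + ε / 5)) := by ring
  have h13 : (1 + ε) * (2 * k * Q) = (k * Q) * (2 * (1 + ε)) := by ring
  rw [h12, h13]
  apply mul_le_mul_of_nonneg_left _ hkQ.le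
  nlinarith

end SA70
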