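import Pool.Agent.SA70.M7c
import Pool.Agent.SA70.M8

/-! M7d: the Voronoi sum under a local volume condition (any number of balls). -/

set_option autoImplicit false

open MeasureTheory Measure Metric Set Module ENNReal

namespace SA70

open SC70 M7cAux

namespace M7dAux

/-- parts of different Voronoi cells: the sum of the volumes is at most the volume of the whole -/
theorem sum_le {n : ℕ} (W S : Finset (EuclideanSpace ℝ (Fin (n + 1)))) (hS : S ⊆ W)
    (A : EuclideanSpace ℝ (Fin (n + 1)) → Set (EuclideanSpace ℝ (Fin (n + 1))))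
    (B : Set (EuclideanSpace ℝ (Fin (n + 1)))) (hAV : ∀ w ∈ S, A w ⊆ Vor W w)
    (hAB : ∀ w ∈ S, A w ⊆ B) (hAm : ∀ w ∈ S, MeasurableSet (A w)) (hB : volume B ≠ ⊤) :
    ∑ w ∈ S, volume.real (A w) ≤ volume.real B := by
  rw [← measureReal_biUnion_finset₀ (μ := volume) (s := S) (f := A) ?_
    (fun w hw => (hAm w hw).nullMeasurableSet)
    (fun w hw => ((measure_mono (hAB w hw)).trans_lt hB.lt_top).ne)]
  · exact measureReal_mono (iUnion₂_subset hAB) hB
  · intro w hw w' hw' hne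
    exact measure_mono_null (inter_subset_inter (hAV w hw) (hAV w' hw'))
      (vor_inter W w w' (hS hw) (hS hw') hne)

theorem bad_sub2 {E : Type*} [NormedAddCommGroup E] [InnerProductSpace ℝ E] {C : Set E}
    {W : Finset E} {w : E} {τ e : ℝ} (hτ0 : 0 < τ) (hτ1 : τ ≤ 1 / 2) (he : 0 < e) :
    {x | x ∈ C ∩ Vor W w ∧ ‖x - w‖ ≤ 1 ∧ w + (1 + τ) • (x - w) ∉ Vor W w} ⊆
      (⋃ w' ∈ W.filter (fun w' => ‖w' - w‖ ≤ 3), {x | x ∈ closedBall w 1 ∧ 2 * e ≤ ‖w' - w‖ ∧
        e / 2 ≤ inner ℝ ((1 / ‖w' - w‖) • (w' - w)) (x - w)}) ∪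
      {x | x ∈ C ∩ Vor W w ∧ ¬ closedBall x (τ * e) ⊆ C ∩ Vor W w} := by
  classical
  rintro x ⟨hx, hx1, hy⟩
  simp only [Vor, mem_ofPred_eq, not_forall] at hy
  obtain ⟨w', hw', h1⟩ := hy
  have hnear : ‖w' - w‖ ≤ 3 := by
    have h2 : ‖w + (1 + τ) • (x - w) - w'‖ < ‖w + (1 + τ) • (x - w) - w‖ := not_le.1 h1
    have h3 : ‖w + (1 + τ) • (x - w) - w‖ = (1 + τ) * ‖x - w‖ := by
      rw [add_sub_cancel_left, norm_smul, Real.norm_of_nonneg (by linarith)]
    have h4 : ‖w' - w‖ ≤ ‖w + (1 + τ) • (x - w) - w'‖ + ‖w + (1 + τ) • (x - w) - w‖ := by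
      have h5 : w' - w = (w + (1 + τ) • (x - w) - w) - (w + (1 + τ) • (x - w) - w') := by abel
      rw [h5]
      refine (norm_sub_le _ _).trans (le_of_eq (by ring))
    rw [h3] at h2 h4
    nlinarith [norm_nonneg (x - w)]
  rw [dist_iff, not_le, add_sub_cancel_left, real_inner_smul_left] at h1
  have hv0 : 0 < ‖w' - w‖ := by
    rcases (norm_nonneg (w' - w)).eq_or_lt with h | h
    · rw [← h] at h1
      have : w' - w = 0 := norm_eq_zero.1 h.symm
      rw [this] at h1
      simp at h1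
    · exact h
  have hin : ‖w' - w‖ ^ 2 < 2 * ((1 + τ) * inner ℝ (x - w) (w' - w)) := h1
  by_cases hc : 2 * e ≤ ‖w' - w‖
  · left
    refine mem_iUnion₂.2 ⟨w', Finset.mem_filter.2 ⟨hw', hnear⟩, ?_, hc, ?_⟩
    · rwa [mem_closedBall, dist_eq_norm]
    rw [real_inner_smul_left, real_inner_comm, one_div, inv_mul_eq_div, le_div_iff₀ hv0]
    have h2 : 0 < inner ℝ (x - w) (w' - w) := by
      by_contra h3
      push Not at h3
      nlinarith [mul_nonneg_of_nonpos_of_nonpos h3 (neg_nonpos.2 (by linarith : (0 : ℝ) ≤ 1 + τ))]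
    nlinarith
  · right
    push Not at hc
    refine ⟨hx, fun hsub => ?_⟩
    have hmem : x + (τ * e / ‖w' - w‖) • (w' - w) ∈ closedBall x (τ * e) := by
      rw [mem_closedBall, dist_eq_norm, add_sub_cancel_left, norm_smul, Real.norm_of_nonneg
        (by positivity), div_mul_cancel₀ _ hv0.ne']
    have h3 := (hsub hmem).2 w' hw'
    rw [dist_iff] at h3
    have h4 : x + (τ * e / ‖w' - w‖) • (w' - w) - w =
        (x - w) + (τ * e / ‖w' - w‖) • (w' - w) := by abel
    rw [h4, inner_add_left, real_inner_smul_left, real_inner_self_eq_norm_sq] at h3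
    have h5 : τ * e / ‖w' - w‖ * ‖w' - w‖ ^ 2 = τ * e * ‖w' - w‖ := by
      field_simp
    rw [h5] at h3
    set p := inner ℝ (x - w) (w' - w)
    set r := ‖w' - w‖
    have h6 : 2 * (τ * e * r) > τ * r ^ 2 := by
      have : r * r < 2 * e * r := by nlinarith
      nlinarith
    nlinarith [mul_pos hτ0 (mul_pos hv0 hv0), mul_pos hτ0 hτ0]

/-- the volume of one cap -/
theorem cap_vol {n : ℕ} (w w' : EuclideanSpace ℝ (Fin (n + 1))) (e : ℝ) (he0 : 0 < e) :
    volume.real {x | x ∈ closedBall w 1 ∧ 2 * e ≤ ‖w' - w‖ ∧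
        e / 2 ≤ inner ℝ ((1 / ‖w' - w‖) • (w' - w)) (x - w)} ≤
        Real.exp (-(e ^ 2 / 8 * ((n : ℝ) + 1))) * kap (n + 1) := by
  have hκ := kap_nonneg (n + 1)
  by_cases hc : 2 * e ≤ ‖w' - w‖
  · have hv0 : 0 < ‖w' - w‖ := by linarith
    have hunit : ‖(1 / ‖w' - w‖) • (w' - w)‖ = 1 := by
      rw [norm_smul, Real.norm_of_nonneg (by positivity), one_div, inv_mul_cancel₀ hv0.ne']
    have h4 := cap_le ((1 / ‖w' - w‖) • (w' - w)) hunit (e / 2) (by positivity)
    have h5 : {x | x ∈ closedBall w 1 ∧ 2 * e ≤ ‖w' - w‖ ∧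
        e / 2 ≤ inner ℝ ((1 / ‖w' - w‖) • (w' - w)) (x - w)} =
        (fun x => x + -w) ⁻¹' {x | x ∈ closedBall (0 : EuclideanSpace ℝ (Fin (n + 1))) 1 ∧
          e / 2 ≤ inner ℝ ((1 / ‖w' - w‖) • (w' - w)) x} := by
      ext x
      simp only [mem_ofPred_eq, mem_preimage, mem_closedBall, dist_eq_norm, sub_zero,
        ← sub_eq_add_neg]
      exact ⟨fun h => ⟨h.1, h.2.2⟩, fun h => ⟨h.1, hc, h.2⟩⟩
    rw [h5, Measure.real, measure_preimage_add_right, ← Measure.real]
    refine h4.trans (le_of_eq ?_)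
    congr 2
    ring
  · have h5 : {x | x ∈ closedBall w 1 ∧ 2 * e ≤ ‖w' - w‖ ∧
        e / 2 ≤ inner ℝ ((1 / ‖w' - w‖) • (w' - w)) (x - w)} = ∅ := by
      ext x
      simp [hc]
    rw [h5, measureReal_empty]
    positivity

end M7dAux

open M7dAux

/-- `G` is the set of the centres with a large Voronoi cell. Only these are kept; what their balls
do not cover has small volume. -/
theorem voronoi_sum2 (ε₅ θ : ℝ) (hε₅ : 0 < ε₅) (hθ0 : 0 < θ) (hθ1 : θ ≤ 1) : ∃ c : ℝ, 0 < c ∧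
    ∃ d₀ : ℕ, ∀ n : ℕ, d₀ ≤ n → ∀ (C : Set (EuclideanSpace ℝ (Fin (n + 1))))
      (W : Finset (EuclideanSpace ℝ (Fin (n + 1)))), Convex ℝ C → IsCompact C →
      (∀ w ∈ W, w ∈ C) → C ⊆ ⋃ w ∈ W, closedBall w 1 →
      (∀ w ∈ W, volume.real (C ∩ closedBall w 4) ≤ Real.exp (c * ((n : ℝ) + 1)) * kap (n + 1)) →
      ∃ G : Finset (EuclideanSpace ℝ (Fin (n + 1))), G ⊆ W ∧
        (1 - ((1 + θ / ((n : ℝ) + 1)) ^ (n + 1))⁻¹) * volume.real C ≤
          ∑ w ∈ G, volume.real (Inn C (θ / ((n : ℝ) + 1)) w ∩ Vor G w) +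
            ε₅ * θ * W.card * kap (n + 1) := by
  classical
  obtain ⟨e, he0, hee⟩ : ∃ e : ℝ, 0 < e ∧ e = ε₅ / 16 := ⟨_, by positivity, rfl⟩
  obtain ⟨η, hη0, hηe⟩ : ∃ η : ℝ, 0 < η ∧ η = ε₅ * θ / 8 := ⟨_, by positivity, rfl⟩
  refine ⟨e ^ 2 / 16, by positivity, ?_⟩
  have hlim : Filter.Tendsto (fun n : ℕ => Real.exp (-(e ^ 2 / 16 * ((n : ℝ) + 1)))) Filter.atTop
      (nhds 0) := by
    refine Real.tendsto_exp_neg_atTop_nhds_zero.comp ?_
    exact Filter.Tendsto.const_mul_atTop (by positivity)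
      (Filter.tendsto_atTop_add_const_right _ _ tendsto_natCast_atTop_atTop)
  have hev := (hlim.eventually_lt_const (show 0 < η * (ε₅ * θ / 4) by positivity)).and
    (Filter.eventually_ge_atTop 4)
  obtain ⟨d₀, hd₀⟩ := Filter.eventually_atTop.1 hev
  refine ⟨d₀, fun n hn C W hconv hcpt hWC hcov hloc => ?_⟩
  obtain ⟨hexp, hn4⟩ := hd₀ n hn
  have hd : (0 : ℝ) < (n : ℝ) + 1 := by positivity
  have hn4' : (4 : ℝ) ≤ n := by exact_mod_cast hn4
  obtain ⟨τ, hτ⟩ : ∃ τ : ℝ, τ = θ / ((n : ℝ) + 1) := ⟨_, rfl⟩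
  rw [← hτ]
  have hτ0 : 0 < τ := by rw [hτ]; positivity
  have hτ1 : τ ≤ 1 / 2 := by
    rw [hτ, div_le_iff₀ hd]
    linarith
  have hκ : 0 < kap (n + 1) := by
    unfold kap
    rw [Measure.real]
    exact ENNReal.toReal_pos (measure_closedBall_pos volume _ one_pos).ne'
      measure_closedBall_lt_top.ne
  have hCfin : volume C ≠ ⊤ := hcpt.measure_lt_top.ne
  obtain ⟨G, hG⟩ : ∃ G : Finset (EuclideanSpace ℝ (Fin (n + 1))),
      G = W.filter (fun w => η * kap (n + 1) ≤ volume.real (C ∩ Vor W w)) := ⟨_, rfl⟩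
  have hGW : G ⊆ W := by rw [hG]; exact Finset.filter_subset _ _
  obtain ⟨D, hD⟩ : ∃ D : Set (EuclideanSpace ℝ (Fin (n + 1))),
      D = C \ ⋃ w ∈ G, closedBall w 1 := ⟨_, rfl⟩
  have hDC : D ⊆ C := by rw [hD]; exact sdiff_subset
  have hDm : MeasurableSet D := by
    rw [hD]
    exact hcpt.measurableSet.diff (Finset.measurableSet_biUnion _ fun w _ =>
      isClosed_closedBall.measurableSet)
  have hDfin : volume D ≠ ⊤ := ((measure_mono hDC).trans_lt hCfin.lt_top).ne
  -- the small part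
  have hVD : volume.real D ≤ W.card * (η * kap (n + 1)) := by
    have h1 : D ⊆ ⋃ w ∈ W \ G, (C ∩ Vor W w) := by
      intro x hx
      obtain ⟨w, hw, hxw⟩ := mem_iUnion₂.1 (cell_cover hcov (hDC hx))
      refine mem_iUnion₂.2 ⟨w, Finset.mem_sdiff.2 ⟨hw, fun hwG => ?_⟩, hxw⟩
      have h2 := cell_sub hcov w hxw
      rw [hD] at hx
      exact hx.2 (mem_iUnion₂.2 ⟨w, hwG, h2⟩)
    have hfin1 : volume (⋃ w ∈ W \ G, (C ∩ Vor W w)) ≠ ⊤ :=
      ((measure_mono (iUnion₂_subset fun w _ => inter_subset_left)).trans_lt hCfin.lt_top).ne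
    refine (measureReal_mono h1 hfin1).trans ((measureReal_biUnion_finset_le _ _).trans ?_)
    have h3 : ∀ w ∈ W \ G, volume.real (C ∩ Vor W w) ≤ η * kap (n + 1) := by
      intro w hw
      rw [Finset.mem_sdiff, hG, Finset.mem_filter] at hw
      by_contra h4
      exact hw.2 ⟨hw.1, (not_le.1 h4).le⟩
    refine (Finset.sum_le_sum h3).trans ?_
    rw [Finset.sum_const, nsmul_eq_mul]
    have h5 : ((W \ G).card : ℝ) ≤ W.card := by
      exact_mod_cast Finset.card_le_card Finset.sdiff_subset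
    exact mul_le_mul_of_nonneg_right h5 (by positivity)
  -- the cover by the new cells
  have hcover : C ⊆ D ∪ ⋃ w ∈ G, (C ∩ closedBall w 1 ∩ Vor G w) := by
    intro x hx
    by_cases hxD : x ∈ D
    · exact Or.inl hxD
    · right
      have h1 : x ∈ ⋃ w ∈ G, closedBall w 1 := by
        by_contra h2
        exact hxD (by rw [hD]; exact ⟨hx, h2⟩)
      obtain ⟨v, hv, hxv⟩ := mem_iUnion₂.1 h1
      obtain ⟨w, hw, hmin⟩ := G.exists_min_image (fun w => ‖x - w‖) ⟨v, hv⟩
      refine mem_iUnion₂.2 ⟨w, hw, ⟨hx, ?_⟩, hmin⟩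
      rw [mem_closedBall, dist_eq_norm] at hxv ⊢
      exact (hmin v hv).trans hxv
  -- one cell
  have hcell : ∀ w ∈ G, (1 - ((1 + τ) ^ (n + 1))⁻¹) *
      volume.real (C ∩ closedBall w 1 ∩ Vor G w) ≤
      volume.real (Inn C τ w ∩ Vor G w) + ε₅ * θ / 2 * kap (n + 1) +
        volume.real (D ∩ Vor G w) := by
    intro w hw
    have hDc : IsCompact (C ∩ closedBall w 1 ∩ Vor G w) :=
      (hcpt.inter_right isClosed_closedBall).inter_right (vor_closed G w)
    have hDconv : Convex ℝ (C ∩ closedBall w 1 ∩ Vor G w) :=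
      (hconv.inter (convex_closedBall w 1)).inter (vor_convex G w)
    have hDsub : C ∩ closedBall w 1 ∩ Vor G w ⊆ closedBall w 1 := fun x hx => hx.1.2
    have hfin : ∀ S : Set (EuclideanSpace ℝ (Fin (n + 1))), S ⊆ closedBall w 1 →
        volume S ≠ ⊤ := fun S hS => ((measure_mono hS).trans_lt measure_closedBall_lt_top).ne
    -- the four parts
    have h1 : C ∩ closedBall w 1 ∩ Vor G w ⊆
        ({x | w + (1 + τ) • (x - w) ∈ C ∩ closedBall w 1 ∩ Vor G w}) ∪
        ((Inn C τ w ∩ Vor G w) ∪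
          ({x | x ∈ C ∩ closedBall w 1 ∩ Vor G w ∧ ‖x - w‖ ≤ 1 ∧
            w + (1 + τ) • (x - w) ∉ Vor G w} ∪
            {x | w + (1 + τ) • (x - w) ∈ D ∩ Vor G w})) := by
      intro x hx
      have hx1 : ‖x - w‖ ≤ 1 := by
        have := hx.1.2
        rwa [mem_closedBall, dist_eq_norm] at this
      by_cases hC : w + (1 + τ) • (x - w) ∈ C
      · by_cases hV : w + (1 + τ) • (x - w) ∈ Vor G w
        · by_cases hB : w + (1 + τ) • (x - w) ∈ closedBall w 1
          · exact Or.inl ⟨⟨hC, hB⟩, hV⟩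
          · refine Or.inr (Or.inr (Or.inr ⟨?_, hV⟩))
            rw [hD]
            refine ⟨hC, fun h2 => hB ?_⟩
            obtain ⟨v, hv, hxv⟩ := mem_iUnion₂.1 h2
            rw [mem_closedBall, dist_eq_norm] at hxv ⊢
            exact (hV v hv).trans hxv
        · exact Or.inr (Or.inr (Or.inl ⟨hx, hx1, hV⟩))
      · exact Or.inr (Or.inl ⟨⟨hx.1.1, hx1, hC⟩, hx.2⟩)
    have hInn : Inn C τ w ∩ Vor G w ⊆ closedBall w 1 := by
      rintro x ⟨⟨-, h2, -⟩, -⟩
      rwa [mem_closedBall, dist_eq_norm]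
    have hB : {x | x ∈ C ∩ closedBall w 1 ∩ Vor G w ∧ ‖x - w‖ ≤ 1 ∧
        w + (1 + τ) • (x - w) ∉ Vor G w} ⊆ closedBall w 1 := fun x hx => hDsub hx.1
    have hdil := dil_vol (C ∩ closedBall w 1 ∩ Vor G w) w (1 + τ) (by linarith)
    have hdil2 := dil_vol (D ∩ Vor G w) w (1 + τ) (by linarith)
    have hq1 : ((1 + τ) ^ (n + 1))⁻¹ ≤ 1 := inv_le_one_of_one_le₀ (one_le_pow₀ (by linarith))
    have hdilfin : volume {x | w + (1 + τ) • (x - w) ∈ C ∩ closedBall w 1 ∩ Vor G w} ≠ ⊤ := by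
      refine hfin _ fun x hx => ?_
      have h2 := hDsub hx
      rw [mem_closedBall, dist_eq_norm, add_sub_cancel_left, norm_smul,
        Real.norm_of_nonneg (by linarith)] at h2
      rw [mem_closedBall, dist_eq_norm]
      nlinarith [norm_nonneg (x - w)]
    have hdilfin2 : volume {x | w + (1 + τ) • (x - w) ∈ D ∩ Vor G w} ≠ ⊤ := by
      obtain ⟨R, hR⟩ := hcpt.isBounded.subset_closedBall w
      refine ((measure_mono (t := closedBall w R) fun x hx => ?_).trans_lt
        measure_closedBall_lt_top).ne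
      have h2 := hR (hDC hx.1)
      rw [mem_closedBall, dist_eq_norm, add_sub_cancel_left, norm_smul,
        Real.norm_of_nonneg (by linarith)] at h2
      rw [mem_closedBall, dist_eq_norm]
      nlinarith [norm_nonneg (x - w)]
    have h3 : volume.real (C ∩ closedBall w 1 ∩ Vor G w) ≤
        ((1 + τ) ^ (n + 1))⁻¹ * volume.real (C ∩ closedBall w 1 ∩ Vor G w) +
        (volume.real (Inn C τ w ∩ Vor G w) +
          (volume.real {x | x ∈ C ∩ closedBall w 1 ∩ Vor G w ∧ ‖x - w‖ ≤ 1 ∧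
            w + (1 + τ) • (x - w) ∉ Vor G w} +
            ((1 + τ) ^ (n + 1))⁻¹ * volume.real (D ∩ Vor G w))) := by
      refine (measureReal_mono h1 ?_).trans ?_
      · exact measure_union_ne_top hdilfin (measure_union_ne_top (hfin _ hInn)
          (measure_union_ne_top (hfin _ hB) hdilfin2))
      · refine (measureReal_union_le _ _).trans ?_
        rw [hdil]
        refine add_le_add le_rfl ((measureReal_union_le _ _).trans ?_)
        refine add_le_add le_rfl ((measureReal_union_le _ _).trans ?_)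
        rw [hdil2]
    -- the bad part
    have hlayer := layer_bound hn4 (C ∩ closedBall w 1 ∩ Vor G w) hDconv hDc w hDsub (τ * e)
      (by positivity)
    have hbad : volume.real {x | x ∈ C ∩ closedBall w 1 ∩ Vor G w ∧ ‖x - w‖ ≤ 1 ∧
        w + (1 + τ) • (x - w) ∉ Vor G w} ≤ ε₅ * θ / 2 * kap (n + 1) := by
      have h6 := bad_sub2 (C := C ∩ closedBall w 1) (W := G) (w := w) hτ0 hτ1 he0
      have hf1 : volume (⋃ w' ∈ G.filter (fun w' => ‖w' - w‖ ≤ 3), {x | x ∈ closedBall w 1 ∧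
            2 * e ≤ ‖w' - w‖ ∧
            e / 2 ≤ inner ℝ ((1 / ‖w' - w‖) • (w' - w)) (x - w)}) ≠ ⊤ :=
        hfin _ (iUnion₂_subset fun w' _ x hx => hx.1)
      have hf2 : volume {x | x ∈ C ∩ closedBall w 1 ∩ Vor G w ∧
          ¬ closedBall x (τ * e) ⊆ C ∩ closedBall w 1 ∩ Vor G w} ≠ ⊤ :=
        hfin _ fun x hx => hDsub hx.1
      -- the number of near centres
      have hN : ((G.filter (fun w' => ‖w' - w‖ ≤ 3)).card : ℝ) * η ≤
          Real.exp (e ^ 2 / 16 * ((n : ℝ) + 1)) := by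
        have h7 := sum_le W (G.filter (fun w' => ‖w' - w‖ ≤ 3))
          ((Finset.filter_subset _ _).trans hGW) (fun w' => C ∩ Vor W w')
          (C ∩ closedBall w 4) (fun w' _ => inter_subset_right)
          (fun w' hw' x hx => ?_)
          (fun w' _ => hcpt.measurableSet.inter (vor_closed W w').measurableSet)
          (((measure_mono inter_subset_left).trans_lt hCfin.lt_top).ne)
        · have h8 : ∀ w' ∈ G.filter (fun w' => ‖w' - w‖ ≤ 3), η * kap (n + 1) ≤
              volume.real (C ∩ Vor W w') := by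
            intro w' hw'
            have h9 := (Finset.mem_filter.1 hw').1
            rw [hG] at h9
            exact (Finset.mem_filter.1 h9).2
          have h10 := Finset.sum_le_sum h8
          rw [Finset.sum_const, nsmul_eq_mul] at h10
          have h11 := (h10.trans h7).trans (hloc w (hGW hw))
          refine le_of_mul_le_mul_right ?_ hκ
          linarith
        · refine ⟨hx.1, ?_⟩
          have h8 := cell_sub hcov w' hx
          have h9 := (Finset.mem_filter.1 hw').2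
          rw [mem_closedBall, dist_eq_norm] at h8 ⊢
          have h10 : x - w = (x - w') + (w' - w) := by abel
          rw [h10]
          linarith [norm_add_le (x - w') (w' - w)]
      have h9 : volume.real (⋃ w' ∈ G.filter (fun w' => ‖w' - w‖ ≤ 3), {x | x ∈ closedBall w 1 ∧
            2 * e ≤ ‖w' - w‖ ∧
            e / 2 ≤ inner ℝ ((1 / ‖w' - w‖) • (w' - w)) (x - w)}) ≤
          (G.filter (fun w' => ‖w' - w‖ ≤ 3)).card *
            (Real.exp (-(e ^ 2 / 8 * ((n : ℝ) + 1))) * kap (n + 1)) := by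
        refine (measureReal_biUnion_finset_le _ _).trans ?_
        refine (Finset.sum_le_sum fun w' _ => cap_vol w w' e he0).trans (le_of_eq ?_)
        rw [Finset.sum_const, nsmul_eq_mul]
      have h10 : ((G.filter (fun w' => ‖w' - w‖ ≤ 3)).card : ℝ) *
          Real.exp (-(e ^ 2 / 8 * ((n : ℝ) + 1))) ≤ ε₅ * θ / 4 := by
        have h11 : ((G.filter (fun w' => ‖w' - w‖ ≤ 3)).card : ℝ) * η *
            Real.exp (-(e ^ 2 / 8 * ((n : ℝ) + 1))) ≤ η * (ε₅ * θ / 4) := by
          refine (mul_le_mul_of_nonneg_right hN (Real.exp_pos _).le).trans ?_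
          rw [← Real.exp_add]
          refine le_trans (le_of_eq ?_) hexp.le
          congr 1
          ring
        refine le_of_mul_le_mul_left ?_ hη0
        linarith
      have h11 : 4 * (τ * e) * ((n : ℝ) + 1) = ε₅ * θ / 4 := by
        rw [hτ, hee]
        field_simp
        ring
      rw [h11] at hlayer
      refine (measureReal_mono h6 (measure_union_ne_top hf1 hf2)).trans ?_
      refine (measureReal_union_le _ _).trans ?_
      have h12 := mul_le_mul_of_nonneg_right h10 hκ.le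
      linarith
    have h13 : ((1 + τ) ^ (n + 1))⁻¹ * volume.real (D ∩ Vor G w) ≤ volume.real (D ∩ Vor G w) :=
      mul_le_of_le_one_left measureReal_nonneg hq1
    linarith
  -- the sum
  have hq1 : ((1 + τ) ^ (n + 1))⁻¹ ≤ 1 := inv_le_one_of_one_le₀ (one_le_pow₀ (by linarith))
  have hq0 : 0 ≤ ((1 + τ) ^ (n + 1))⁻¹ := by positivity
  have hfinU : volume (D ∪ ⋃ w ∈ G, (C ∩ closedBall w 1 ∩ Vor G w)) ≠ ⊤ :=
    ((measure_mono (union_subset hDC (iUnion₂_subset fun w _ x hx => hx.1.1))).trans_lt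
      hCfin.lt_top).ne
  have hV : volume.real C ≤ volume.real D +
      ∑ w ∈ G, volume.real (C ∩ closedBall w 1 ∩ Vor G w) :=
    (measureReal_mono hcover hfinU).trans ((measureReal_union_le _ _).trans
      (add_le_add le_rfl (measureReal_biUnion_finset_le _ _)))
  have hsumD : ∑ w ∈ G, volume.real (D ∩ Vor G w) ≤ volume.real D :=
    sum_le G G (Finset.Subset.refl G) (fun w => D ∩ Vor G w) D (fun w _ => inter_subset_right)
      (fun w _ => inter_subset_left) (fun w _ => hDm.inter (vor_closed G w).measurableSet) hDfin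
  refine ⟨G, hGW, ?_⟩
  have hS1 : (1 - ((1 + τ) ^ (n + 1))⁻¹) * ∑ w ∈ G, volume.real (C ∩ closedBall w 1 ∩ Vor G w) ≤
      ∑ w ∈ G, volume.real (Inn C τ w ∩ Vor G w) + G.card * (ε₅ * θ / 2 * kap (n + 1)) +
        volume.real D := by
    rw [Finset.mul_sum]
    refine (Finset.sum_le_sum hcell).trans ?_
    rw [Finset.sum_add_distrib, Finset.sum_add_distrib, Finset.sum_const, nsmul_eq_mul]
    linarith
  have hGc : (G.card : ℝ) ≤ W.card := by exact_mod_cast Finset.card_le_card hGW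
  have hS2 : (G.card : ℝ) * (ε₅ * θ / 2 * kap (n + 1)) ≤
      W.card * (ε₅ * θ / 2 * kap (n + 1)) :=
    mul_le_mul_of_nonneg_right hGc (by positivity)
  have hS3 : (1 - ((1 + τ) ^ (n + 1))⁻¹) * volume.real C ≤
      (1 - ((1 + τ) ^ (n + 1))⁻¹) * (volume.real D +
        ∑ w ∈ G, volume.real (C ∩ closedBall w 1 ∩ Vor G w)) :=
    mul_le_mul_of_nonneg_left hV (by linarith)
  have hS4 : (1 - ((1 + τ) ^ (n + 1))⁻¹) * volume.real D ≤ volume.real D :=
    mul_le_of_le_one_left measureReal_nonneg (by linarith)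
  have hS5 : (W.card : ℝ) * (η * kap (n + 1)) = ε₅ * θ / 8 * W.card * kap (n + 1) := by
    rw [hηe]
    ring
  have hW0 : (0 : ℝ) ≤ ε₅ * θ * W.card * kap (n + 1) := by positivity
  nlinarith

end SA70
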