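import Pool.Agent.SA70.FV
import Pool.Agent.SA70.M7d

/-! M7f: the Voronoi sum without conditions. -/

set_option autoImplicit false

open MeasureTheory Measure Metric Set Module ENNReal

namespace SA70

open SC70 M7cAux M7dAux

namespace M7fAux

theorem mem_fatC {n : ℕ} {c : ℝ} {G : Finset (EuclideanSpace ℝ (Fin (n + 1)))}
    {w : EuclideanSpace ℝ (Fin (n + 1))} : w ∈ fatC c G ↔ w ∈ G ∧
      Real.exp (c * ((n : ℝ) + 1)) ≤ ((G.filter (fun w' => ‖w' - w‖ ≤ 3)).card : ℝ) := by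
  classical
  unfold fatC
  rw [Finset.mem_filter]

theorem one_sub_inv_le {n : ℕ} {θ : ℝ} (hθ0 : 0 < θ) :
    1 - ((1 + θ / ((n : ℝ) + 1)) ^ (n + 1))⁻¹ ≤ θ := by
  have hd : (0 : ℝ) < (n : ℝ) + 1 := by positivity
  have h1 : (1 + θ / ((n : ℝ) + 1)) ^ (n + 1) ≤ Real.exp θ := by
    have h2 : 1 + θ / ((n : ℝ) + 1) ≤ Real.exp (θ / ((n : ℝ) + 1)) := by
      have := Real.add_one_le_exp (θ / ((n : ℝ) + 1))
      linarith
    refine (pow_le_pow_left₀ (by positivity) h2 (n + 1)).trans (le_of_eq ?_)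
    rw [← Real.exp_nat_mul]
    congr 1
    push_cast
    field_simp
  have h3 : Real.exp (-θ) ≤ ((1 + θ / ((n : ℝ) + 1)) ^ (n + 1))⁻¹ := by
    rw [Real.exp_neg]
    exact inv_anti₀ (by positivity) h1
  have h4 := Real.add_one_le_exp (-θ)
  linarith

end M7fAux

open M7fAux

/-- As `voronoi_sum2` (M7d), `G` the centres with `η κ ≤ V(C ∩ Vor W w)`, `η = ε₅θ/16`,
`c = e²/16`. For `w ∈ G` not in `fatC c G` the number of `w' ∈ G` with `‖w'-w‖ ≤ 3` is `< exp(cd)` and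
`hcell` holds. For `w ∈ fatC c G` the sets `C ∩ closedBall w 1 ∩ Vor G w` overlap in null sets and lie in
`C ∩ ⋃ closedBall w 1`: total `≤ (ε₅/4)(|W|κ + V(C))` by `fat_vol`, and `1-(1+τ)^-d ≤ θ` multiplies it. -/
theorem voronoi_sum4 (ε₅ θ : ℝ) (hε₅ : 0 < ε₅) (hε₅1 : ε₅ ≤ 1) (hθ0 : 0 < θ) (hθ1 : θ ≤ 1) :
    ∃ d₀ : ℕ, ∀ n : ℕ, d₀ ≤ n → ∀ (C : Set (EuclideanSpace ℝ (Fin (n + 1))))
      (W : Finset (EuclideanSpace ℝ (Fin (n + 1)))), Convex ℝ C → IsCompact C →
      (∀ w ∈ W, w ∈ C) → C ⊆ ⋃ w ∈ W, closedBall w 1 →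
      ∃ G : Finset (EuclideanSpace ℝ (Fin (n + 1))), G ⊆ W ∧
        (1 - ((1 + θ / ((n : ℝ) + 1)) ^ (n + 1))⁻¹) * volume.real C ≤
          ∑ w ∈ G, volume.real (Inn C (θ / ((n : ℝ) + 1)) w ∩ Vor G w) +
            ε₅ * θ * (W.card * kap (n + 1) + volume.real C) := by
  classical
  obtain ⟨e, he0, hee⟩ : ∃ e : ℝ, 0 < e ∧ e = ε₅ / 16 := ⟨_, by positivity, rfl⟩
  obtain ⟨η, hη0, hηe⟩ : ∃ η : ℝ, 0 < η ∧ η = ε₅ * θ / 16 := ⟨_, by positivity, rfl⟩
  obtain ⟨d₁, hd₁⟩ := fat_vol (ε₅ / 4) (e ^ 2 / 16) η (by positivity) (by linarith) (by positivity) hη0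
  have hlim : Filter.Tendsto (fun n : ℕ => Real.exp (-(e ^ 2 / 16 * ((n : ℝ) + 1)))) Filter.atTop
      (nhds 0) := by
    refine Real.tendsto_exp_neg_atTop_nhds_zero.comp ?_
    exact Filter.Tendsto.const_mul_atTop (by positivity)
      (Filter.tendsto_atTop_add_const_right _ _ tendsto_natCast_atTop_atTop)
  have hev := ((hlim.eventually_lt_const (show 0 < ε₅ * θ / 4 by positivity)).and
    (Filter.eventually_ge_atTop 4)).and (Filter.eventually_ge_atTop d₁)
  obtain ⟨d₀, hd₀⟩ := Filter.eventually_atTop.1 hev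
  refine ⟨d₀, fun n hn C W hconv hcpt hWC hcov => ?_⟩
  obtain ⟨⟨hexp, hn4⟩, hnd₁⟩ := hd₀ n hn
  have hd : (0 : ℝ) < (n : ℝ) + 1 := by positivity
  have hn4' : (4 : ℝ) ≤ n := by exact_mod_cast hn4
  obtain ⟨τ, hτ⟩ : ∃ τ : ℝ, τ = θ / ((n : ℝ) + 1) := ⟨_, rfl⟩
  rw [← hτ]
  have hτ0 : 0 < τ := by rw [hτ]; positivity
  have hτ1 : τ ≤ 1 / 2 := by
    rw [hτ, div_le_iff₀ hd]
    linarith
  have hκ : 0 < kap (n + 1) := by
    unfold kap
    rw [Measure.real]
    exact ENNReal.toReal_pos (measure_closedBall_pos volume _ one_pos).ne'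
      measure_closedBall_lt_top.ne
  have hCfin : volume C ≠ ⊤ := hcpt.measure_lt_top.ne
  obtain ⟨G, hG⟩ : ∃ G : Finset (EuclideanSpace ℝ (Fin (n + 1))),
      G = W.filter (fun w => η * kap (n + 1) ≤ volume.real (C ∩ Vor W w)) := ⟨_, rfl⟩
  have hGW : G ⊆ W := by rw [hG]; exact Finset.filter_subset _ _
  have hfat := hd₁ n hnd₁ C W G hconv hcpt hWC hcov hGW (fun w hw => by
    rw [hG] at hw
    exact (Finset.mem_filter.1 hw).2)
  obtain ⟨D, hD⟩ : ∃ D : Set (EuclideanSpace ℝ (Fin (n + 1))),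
      D = C \ ⋃ w ∈ G, closedBall w 1 := ⟨_, rfl⟩
  have hDC : D ⊆ C := by rw [hD]; exact sdiff_subset
  have hDm : MeasurableSet D := by
    rw [hD]
    exact hcpt.measurableSet.diff (Finset.measurableSet_biUnion _ fun w _ =>
      isClosed_closedBall.measurableSet)
  have hDfin : volume D ≠ ⊤ := ((measure_mono hDC).trans_lt hCfin.lt_top).ne
  -- the small part
  have hVD : volume.real D ≤ W.card * (η * kap (n + 1)) := by
    have h1 : D ⊆ ⋃ w ∈ W \ G, (C ∩ Vor W w) := by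
      intro x hx
      obtain ⟨w, hw, hxw⟩ := mem_iUnion₂.1 (cell_cover hcov (hDC hx))
      refine mem_iUnion₂.2 ⟨w, Finset.mem_sdiff.2 ⟨hw, fun hwG => ?_⟩, hxw⟩
      have h2 := cell_sub hcov w hxw
      rw [hD] at hx
      exact hx.2 (mem_iUnion₂.2 ⟨w, hwG, h2⟩)
    have hfin1 : volume (⋃ w ∈ W \ G, (C ∩ Vor W w)) ≠ ⊤ :=
      ((measure_mono (iUnion₂_subset fun w _ => inter_subset_left)).trans_lt hCfin.lt_top).ne
    refine (measureReal_mono h1 hfin1).trans ((measureReal_biUnion_finset_le _ _).trans ?_)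
    have h3 : ∀ w ∈ W \ G, volume.real (C ∩ Vor W w) ≤ η * kap (n + 1) := by
      intro w hw
      rw [Finset.mem_sdiff, hG, Finset.mem_filter] at hw
      by_contra h4
      exact hw.2 ⟨hw.1, (not_le.1 h4).le⟩
    refine (Finset.sum_le_sum h3).trans ?_
    rw [Finset.sum_const, nsmul_eq_mul]
    have h5 : ((W \ G).card : ℝ) ≤ W.card := by
      exact_mod_cast Finset.card_le_card Finset.sdiff_subset
    exact mul_le_mul_of_nonneg_right h5 (by positivity)
  -- the cover by the new cells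
  have hcover : C ⊆ D ∪ ⋃ w ∈ G, (C ∩ closedBall w 1 ∩ Vor G w) := by
    intro x hx
    by_cases hxD : x ∈ D
    · exact Or.inl hxD
    · right
      have h1 : x ∈ ⋃ w ∈ G, closedBall w 1 := by
        by_contra h2
        exact hxD (by rw [hD]; exact ⟨hx, h2⟩)
      obtain ⟨v, hv, hxv⟩ := mem_iUnion₂.1 h1
      obtain ⟨w, hw, hmin⟩ := G.exists_min_image (fun w => ‖x - w‖) ⟨v, hv⟩
      refine mem_iUnion₂.2 ⟨w, hw, ⟨hx, ?_⟩, hmin⟩
      rw [mem_closedBall, dist_eq_norm] at hxv ⊢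
      exact (hmin v hv).trans hxv
  -- one cell
  have hcell : ∀ w ∈ G \ fatC (e ^ 2 / 16) G, (1 - ((1 + τ) ^ (n + 1))⁻¹) *
      volume.real (C ∩ closedBall w 1 ∩ Vor G w) ≤
      volume.real (Inn C τ w ∩ Vor G w) + ε₅ * θ / 2 * kap (n + 1) +
        volume.real (D ∩ Vor G w) := by
    intro w hwT
    have hw : w ∈ G := (Finset.mem_sdiff.1 hwT).1
    have hDc : IsCompact (C ∩ closedBall w 1 ∩ Vor G w) :=
      (hcpt.inter_right isClosed_closedBall).inter_right (vor_closed G w)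
    have hDconv : Convex ℝ (C ∩ closedBall w 1 ∩ Vor G w) :=
      (hconv.inter (convex_closedBall w 1)).inter (vor_convex G w)
    have hDsub : C ∩ closedBall w 1 ∩ Vor G w ⊆ closedBall w 1 := fun x hx => hx.1.2
    have hfin : ∀ S : Set (EuclideanSpace ℝ (Fin (n + 1))), S ⊆ closedBall w 1 →
        volume S ≠ ⊤ := fun S hS => ((measure_mono hS).trans_lt measure_closedBall_lt_top).ne
    -- the four parts
    have h1 : C ∩ closedBall w 1 ∩ Vor G w ⊆
        ({x | w + (1 + τ) • (x - w) ∈ C ∩ closedBall w 1 ∩ Vor G w}) ∪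
        ((Inn C τ w ∩ Vor G w) ∪
          ({x | x ∈ C ∩ closedBall w 1 ∩ Vor G w ∧ ‖x - w‖ ≤ 1 ∧
            w + (1 + τ) • (x - w) ∉ Vor G w} ∪
            {x | w + (1 + τ) • (x - w) ∈ D ∩ Vor G w})) := by
      intro x hx
      have hx1 : ‖x - w‖ ≤ 1 := by
        have := hx.1.2
        rwa [mem_closedBall, dist_eq_norm] at this
      by_cases hC : w + (1 + τ) • (x - w) ∈ C
      · by_cases hV : w + (1 + τ) • (x - w) ∈ Vor G w
        · by_cases hB : w + (1 + τ) • (x - w) ∈ closedBall w 1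
          · exact Or.inl ⟨⟨hC, hB⟩, hV⟩
          · refine Or.inr (Or.inr (Or.inr ⟨?_, hV⟩))
            rw [hD]
            refine ⟨hC, fun h2 => hB ?_⟩
            obtain ⟨v, hv, hxv⟩ := mem_iUnion₂.1 h2
            rw [mem_closedBall, dist_eq_norm] at hxv ⊢
            exact (hV v hv).trans hxv
        · exact Or.inr (Or.inr (Or.inl ⟨hx, hx1, hV⟩))
      · exact Or.inr (Or.inl ⟨⟨hx.1.1, hx1, hC⟩, hx.2⟩)
    have hInn : Inn C τ w ∩ Vor G w ⊆ closedBall w 1 := by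
      rintro x ⟨⟨-, h2, -⟩, -⟩
      rwa [mem_closedBall, dist_eq_norm]
    have hB : {x | x ∈ C ∩ closedBall w 1 ∩ Vor G w ∧ ‖x - w‖ ≤ 1 ∧
        w + (1 + τ) • (x - w) ∉ Vor G w} ⊆ closedBall w 1 := fun x hx => hDsub hx.1
    have hdil := dil_vol (C ∩ closedBall w 1 ∩ Vor G w) w (1 + τ) (by linarith)
    have hdil2 := dil_vol (D ∩ Vor G w) w (1 + τ) (by linarith)
    have hq1 : ((1 + τ) ^ (n + 1))⁻¹ ≤ 1 := inv_le_one_of_one_le₀ (one_le_pow₀ (by linarith))
    have hdilfin : volume {x | w + (1 + τ) • (x - w) ∈ C ∩ closedBall w 1 ∩ Vor G w} ≠ ⊤ := by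
      refine hfin _ fun x hx => ?_
      have h2 := hDsub hx
      rw [mem_closedBall, dist_eq_norm, add_sub_cancel_left, norm_smul,
        Real.norm_of_nonneg (by linarith)] at h2
      rw [mem_closedBall, dist_eq_norm]
      nlinarith [norm_nonneg (x - w)]
    have hdilfin2 : volume {x | w + (1 + τ) • (x - w) ∈ D ∩ Vor G w} ≠ ⊤ := by
      obtain ⟨R, hR⟩ := hcpt.isBounded.subset_closedBall w
      refine ((measure_mono (t := closedBall w R) fun x hx => ?_).trans_lt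
        measure_closedBall_lt_top).ne
      have h2 := hR (hDC hx.1)
      rw [mem_closedBall, dist_eq_norm, add_sub_cancel_left, norm_smul,
        Real.norm_of_nonneg (by linarith)] at h2
      rw [mem_closedBall, dist_eq_norm]
      nlinarith [norm_nonneg (x - w)]
    have h3 : volume.real (C ∩ closedBall w 1 ∩ Vor G w) ≤
        ((1 + τ) ^ (n + 1))⁻¹ * volume.real (C ∩ closedBall w 1 ∩ Vor G w) +
        (volume.real (Inn C τ w ∩ Vor G w) +
          (volume.real {x | x ∈ C ∩ closedBall w 1 ∩ Vor G w ∧ ‖x - w‖ ≤ 1 ∧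
            w + (1 + τ) • (x - w) ∉ Vor G w} +
            ((1 + τ) ^ (n + 1))⁻¹ * volume.real (D ∩ Vor G w))) := by
      refine (measureReal_mono h1 ?_).trans ?_
      · exact measure_union_ne_top hdilfin (measure_union_ne_top (hfin _ hInn)
          (measure_union_ne_top (hfin _ hB) hdilfin2))
      · refine (measureReal_union_le _ _).trans ?_
        rw [hdil]
        refine add_le_add le_rfl ((measureReal_union_le _ _).trans ?_)
        refine add_le_add le_rfl ((measureReal_union_le _ _).trans ?_)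
        rw [hdil2]
    -- the bad part
    have hlayer := layer_bound hn4 (C ∩ closedBall w 1 ∩ Vor G w) hDconv hDc w hDsub (τ * e)
      (by positivity)
    have hbad : volume.real {x | x ∈ C ∩ closedBall w 1 ∩ Vor G w ∧ ‖x - w‖ ≤ 1 ∧
        w + (1 + τ) • (x - w) ∉ Vor G w} ≤ ε₅ * θ / 2 * kap (n + 1) := by
      have h6 := bad_sub2 (C := C ∩ closedBall w 1) (W := G) (w := w) hτ0 hτ1 he0
      have hf1 : volume (⋃ w' ∈ G.filter (fun w' => ‖w' - w‖ ≤ 3), {x | x ∈ closedBall w 1 ∧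
            2 * e ≤ ‖w' - w‖ ∧
            e / 2 ≤ inner ℝ ((1 / ‖w' - w‖) • (w' - w)) (x - w)}) ≠ ⊤ :=
        hfin _ (iUnion₂_subset fun w' _ x hx => hx.1)
      have hf2 : volume {x | x ∈ C ∩ closedBall w 1 ∩ Vor G w ∧
          ¬ closedBall x (τ * e) ⊆ C ∩ closedBall w 1 ∩ Vor G w} ≠ ⊤ :=
        hfin _ fun x hx => hDsub hx.1
      -- the number of near centres
      have hN : ((G.filter (fun w' => ‖w' - w‖ ≤ 3)).card : ℝ) ≤
          Real.exp (e ^ 2 / 16 * ((n : ℝ) + 1)) := by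
        by_contra h7
        exact (Finset.mem_sdiff.1 hwT).2 (mem_fatC.2 ⟨hw, (not_le.1 h7).le⟩)
      have h9 : volume.real (⋃ w' ∈ G.filter (fun w' => ‖w' - w‖ ≤ 3), {x | x ∈ closedBall w 1 ∧
            2 * e ≤ ‖w' - w‖ ∧
            e / 2 ≤ inner ℝ ((1 / ‖w' - w‖) • (w' - w)) (x - w)}) ≤
          (G.filter (fun w' => ‖w' - w‖ ≤ 3)).card *
            (Real.exp (-(e ^ 2 / 8 * ((n : ℝ) + 1))) * kap (n + 1)) := by
        refine (measureReal_biUnion_finset_le _ _).trans ?_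
        refine (Finset.sum_le_sum fun w' _ => cap_vol w w' e he0).trans (le_of_eq ?_)
        rw [Finset.sum_const, nsmul_eq_mul]
      have h10 : ((G.filter (fun w' => ‖w' - w‖ ≤ 3)).card : ℝ) *
          Real.exp (-(e ^ 2 / 8 * ((n : ℝ) + 1))) ≤ ε₅ * θ / 4 := by
        refine (mul_le_mul_of_nonneg_right hN (Real.exp_pos _).le).trans ?_
        rw [← Real.exp_add]
        refine le_trans (le_of_eq ?_) hexp.le
        congr 1
        ring
      have h11 : 4 * (τ * e) * ((n : ℝ) + 1) = ε₅ * θ / 4 := by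
        rw [hτ, hee]
        field_simp
        ring
      rw [h11] at hlayer
      refine (measureReal_mono h6 (measure_union_ne_top hf1 hf2)).trans ?_
      refine (measureReal_union_le _ _).trans ?_
      have h12 := mul_le_mul_of_nonneg_right h10 hκ.le
      linarith
    have h13 : ((1 + τ) ^ (n + 1))⁻¹ * volume.real (D ∩ Vor G w) ≤ volume.real (D ∩ Vor G w) :=
      mul_le_of_le_one_left measureReal_nonneg hq1
    linarith
  -- the sum
  have hq1 : ((1 + τ) ^ (n + 1))⁻¹ ≤ 1 := inv_le_one_of_one_le₀ (one_le_pow₀ (by linarith))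
  have hq0 : 0 ≤ ((1 + τ) ^ (n + 1))⁻¹ := by positivity
  have hfinU : volume (D ∪ ⋃ w ∈ G, (C ∩ closedBall w 1 ∩ Vor G w)) ≠ ⊤ :=
    ((measure_mono (union_subset hDC (iUnion₂_subset fun w _ x hx => hx.1.1))).trans_lt
      hCfin.lt_top).ne
  have hV : volume.real C ≤ volume.real D +
      ∑ w ∈ G, volume.real (C ∩ closedBall w 1 ∩ Vor G w) :=
    (measureReal_mono hcover hfinU).trans ((measureReal_union_le _ _).trans
      (add_le_add le_rfl (measureReal_biUnion_finset_le _ _)))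
  have hsumD : ∑ w ∈ G, volume.real (D ∩ Vor G w) ≤ volume.real D :=
    sum_le G G (Finset.Subset.refl G) (fun w => D ∩ Vor G w) D (fun w _ => inter_subset_right)
      (fun w _ => inter_subset_left) (fun w _ => hDm.inter (vor_closed G w).measurableSet) hDfin
  refine ⟨G, hGW, ?_⟩
  have hFG : fatC (e ^ 2 / 16) G ⊆ G := fun w hw => (mem_fatC.1 hw).1
  have hTG : G \ fatC (e ^ 2 / 16) G ⊆ G := Finset.sdiff_subset
  -- the fat centres
  have hfatsum : ∑ w ∈ fatC (e ^ 2 / 16) G, volume.real (C ∩ closedBall w 1 ∩ Vor G w) ≤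
      ε₅ / 4 * (W.card * kap (n + 1) + volume.real C) := by
    refine (sum_le G (fatC (e ^ 2 / 16) G) hFG (fun w => C ∩ closedBall w 1 ∩ Vor G w)
      (C ∩ ⋃ w ∈ fatC (e ^ 2 / 16) G, closedBall w 1) (fun w _ => inter_subset_right)
      (fun w hw x hx => ⟨hx.1.1, mem_iUnion₂.2 ⟨w, hw, hx.1.2⟩⟩)
      (fun w _ => (hcpt.measurableSet.inter isClosed_closedBall.measurableSet).inter
        (vor_closed G w).measurableSet)
      ((measure_mono inter_subset_left).trans_lt hCfin.lt_top).ne).trans hfat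
  have hqθ : 1 - ((1 + τ) ^ (n + 1))⁻¹ ≤ θ := by
    rw [hτ]
    exact one_sub_inv_le hθ0
  have hS0 : (1 - ((1 + τ) ^ (n + 1))⁻¹) *
      ∑ w ∈ fatC (e ^ 2 / 16) G, volume.real (C ∩ closedBall w 1 ∩ Vor G w) ≤
      θ * (ε₅ / 4 * (W.card * kap (n + 1) + volume.real C)) :=
    mul_le_mul hqθ hfatsum (Finset.sum_nonneg fun _ _ => measureReal_nonneg) hθ0.le
  have hsplit : ∑ w ∈ G, volume.real (C ∩ closedBall w 1 ∩ Vor G w) =
      ∑ w ∈ G \ fatC (e ^ 2 / 16) G, volume.real (C ∩ closedBall w 1 ∩ Vor G w) +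
        ∑ w ∈ fatC (e ^ 2 / 16) G, volume.real (C ∩ closedBall w 1 ∩ Vor G w) :=
    (Finset.sum_sdiff hFG).symm
  have hTc : ((G \ fatC (e ^ 2 / 16) G).card : ℝ) ≤ W.card := by
    exact_mod_cast Finset.card_le_card (hTG.trans hGW)
  have hT1 : ∑ w ∈ G \ fatC (e ^ 2 / 16) G, volume.real (Inn C τ w ∩ Vor G w) ≤
      ∑ w ∈ G, volume.real (Inn C τ w ∩ Vor G w) :=
    Finset.sum_le_sum_of_subset_of_nonneg hTG fun _ _ _ => measureReal_nonneg
  have hT2 : ∑ w ∈ G \ fatC (e ^ 2 / 16) G, volume.real (D ∩ Vor G w) ≤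
      ∑ w ∈ G, volume.real (D ∩ Vor G w) :=
    Finset.sum_le_sum_of_subset_of_nonneg hTG fun _ _ _ => measureReal_nonneg
  have hT3 : ((G \ fatC (e ^ 2 / 16) G).card : ℝ) * (ε₅ * θ / 2 * kap (n + 1)) ≤
      W.card * (ε₅ * θ / 2 * kap (n + 1)) :=
    mul_le_mul_of_nonneg_right hTc (by positivity)
  have hS1 : (1 - ((1 + τ) ^ (n + 1))⁻¹) *
      ∑ w ∈ G \ fatC (e ^ 2 / 16) G, volume.real (C ∩ closedBall w 1 ∩ Vor G w) ≤
      ∑ w ∈ G, volume.real (Inn C τ w ∩ Vor G w) + W.card * (ε₅ * θ / 2 * kap (n + 1)) +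
        volume.real D := by
    rw [Finset.mul_sum]
    refine (Finset.sum_le_sum hcell).trans ?_
    rw [Finset.sum_add_distrib, Finset.sum_add_distrib, Finset.sum_const, nsmul_eq_mul]
    linarith
  have hS3 : (1 - ((1 + τ) ^ (n + 1))⁻¹) * volume.real C ≤
      (1 - ((1 + τ) ^ (n + 1))⁻¹) * (volume.real D +
        ∑ w ∈ G, volume.real (C ∩ closedBall w 1 ∩ Vor G w)) :=
    mul_le_mul_of_nonneg_left hV (by linarith)
  have hS4 : (1 - ((1 + τ) ^ (n + 1))⁻¹) * volume.real D ≤ volume.real D :=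
    mul_le_of_le_one_left measureReal_nonneg (by linarith)
  have hS5 : (W.card : ℝ) * (η * kap (n + 1)) = ε₅ * θ / 16 * (W.card * kap (n + 1)) := by
    rw [hηe]
    ring
  rw [hsplit] at hS3
  have hW0 : (0 : ℝ) ≤ ε₅ * θ * (W.card * kap (n + 1)) := by positivity
  have hC0 : (0 : ℝ) ≤ ε₅ * θ * volume.real C :=
    mul_nonneg (by positivity) measureReal_nonneg
  have e1 : (1 - ((1 + τ) ^ (n + 1))⁻¹) * (volume.real D +
        (∑ w ∈ G \ fatC (e ^ 2 / 16) G, volume.real (C ∩ closedBall w 1 ∩ Vor G w) +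
          ∑ w ∈ fatC (e ^ 2 / 16) G, volume.real (C ∩ closedBall w 1 ∩ Vor G w))) =
      (1 - ((1 + τ) ^ (n + 1))⁻¹) * volume.real D +
      ((1 - ((1 + τ) ^ (n + 1))⁻¹) *
        ∑ w ∈ G \ fatC (e ^ 2 / 16) G, volume.real (C ∩ closedBall w 1 ∩ Vor G w) +
      (1 - ((1 + τ) ^ (n + 1))⁻¹) *
        ∑ w ∈ fatC (e ^ 2 / 16) G, volume.real (C ∩ closedBall w 1 ∩ Vor G w)) := by ring
  rw [e1] at hS3
  have e2 : θ * (ε₅ / 4 * (W.card * kap (n + 1) + volume.real C)) =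
      1 / 4 * (ε₅ * θ * (W.card * kap (n + 1))) + 1 / 4 * (ε₅ * θ * volume.real C) := by ring
  have e3 : (W.card : ℝ) * (ε₅ * θ / 2 * kap (n + 1)) =
      1 / 2 * (ε₅ * θ * (W.card * kap (n + 1))) := by ring
  have e4 : ε₅ * θ / 16 * (W.card * kap (n + 1)) =
      1 / 16 * (ε₅ * θ * (W.card * kap (n + 1))) := by ring
  have e5 : ε₅ * θ * (W.card * kap (n + 1) + volume.real C) =
      ε₅ * θ * (W.card * kap (n + 1)) + ε₅ * θ * volume.real C := by ring
  rw [e5]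
  rw [e2] at hS0
  rw [e3] at hS1
  rw [hS5, e4] at hVD
  linarith

end SA70
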