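import Pool.Agent.SA70.DA
import Pool.Agent.SA70.DB
import Pool.Agent.SA70.DC
import Pool.Agent.SA70.M7f
import Pool.Agent.SA70.M10

/-! DD: bodies which are long in `2i` directions. -/

set_option autoImplicit false

open MeasureTheory Measure Metric Set Module ENNReal
open scoped Pointwise

namespace SA70

open SC70 M7cAux M7dAux

namespace DDAux

variable {E : Type*} [NormedAddCommGroup E] [InnerProductSpace ℝ E]

/-- coordinates with respect to long orthogonal vectors -/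
theorem coords {j : ℕ} (v : Fin j → E) (ho : ∀ a b, a ≠ b → inner ℝ (v a) (v b) = 0)
    (ρ : ℝ) (hρ : 0 < ρ) (hv : ∀ a, ρ ≤ ‖v a‖) (x : E)
    (hx : x ∈ Submodule.span ℝ (Set.range v)) (hxn : ‖x‖ ≤ ρ) :
    ∃ s : Fin j → ℝ, (∀ a, |s a| ≤ 1) ∧ ∑ a, s a • v a = x := by
  obtain ⟨s, hs⟩ := (Submodule.mem_span_range_iff_exists_fun ℝ).1 hx
  refine ⟨s, fun b => ?_, hs⟩
  have h1 : inner ℝ (v b) x = s b * ‖v b‖ ^ 2 := by
    rw [← hs, inner_sum, Finset.sum_eq_single b]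
    · rw [inner_smul_right, real_inner_self_eq_norm_sq]
    · intro a _ hab
      rw [inner_smul_right, ho b a (Ne.symm hab), mul_zero]
    · intro h; exact absurd (Finset.mem_univ b) h
  have h2 := abs_real_inner_le_norm (v b) x
  rw [h1, abs_mul, abs_of_nonneg (sq_nonneg ‖v b‖)] at h2
  have h3 := hv b
  have h4 : 0 < ‖v b‖ := hρ.trans_le h3
  have h5 : |s b| * ‖v b‖ ≤ ‖x‖ := by
    have h6 : (|s b| * ‖v b‖) * ‖v b‖ ≤ ‖x‖ * ‖v b‖ := by nlinarith
    exact le_of_mul_le_mul_right h6 h4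
  have h6 : |s b| * ‖v b‖ ≤ 1 * ‖v b‖ := by linarith
  exact le_of_mul_le_mul_right h6 h4

theorem pow_close (i : ℕ) (hi : 1 ≤ i) (ε : ℝ) (hε : 0 < ε) (hε1 : ε ≤ 1) (d m : ℝ)
    (hm : m = d - 2 * i) (hd : 2 * i + 64 * (i : ℝ) ^ 2 / ε ≤ d) :
    (d / m) ^ i ≤ 1 + ε / 16 := by
  have hi' : (1 : ℝ) ≤ i := by exact_mod_cast hi
  have h1 : 64 * (i : ℝ) ^ 2 / ε ≤ m := by linarith
  have hm0 : 0 < m := lt_of_lt_of_le (by positivity) h1
  rw [div_le_iff₀ hε] at h1
  obtain ⟨y, hy⟩ : ∃ y : ℝ, y = i * (2 * i / m) := ⟨_, rfl⟩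
  have hy0 : 0 ≤ y := by rw [hy]; positivity
  have hy1 : y ≤ ε / 32 := by
    rw [hy, ← mul_div_assoc, div_le_iff₀ hm0]
    nlinarith
  have h2 : d / m = 1 + 2 * i / m := by
    rw [hm] at hm0 ⊢
    field_simp
    ring
  have h3 : (d / m) ^ i ≤ Real.exp y := by
    rw [h2, hy, Real.exp_nat_mul]
    refine pow_le_pow_left₀ (by positivity) ?_ _
    linarith [Real.add_one_le_exp (2 * (i : ℝ) / m)]
  have h4 : Real.exp y ≤ 1 + ε / 16 := by
    have h5 := Real.add_one_le_exp (-y)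
    rw [Real.exp_neg] at h5
    have h6 : 0 < Real.exp y := Real.exp_pos y
    have h7 : (1 - y) * Real.exp y ≤ 1 := by
      have h8 := mul_le_mul_of_nonneg_right h5 h6.le
      rw [inv_mul_cancel₀ h6.ne'] at h8
      linarith
    nlinarith
  exact h3.trans h4

end DDAux

open DDAux

theorem dirs_bound (i : ℕ) (hi : 1 ≤ i) (ε : ℝ) (hε : 0 < ε) (hε1 : ε ≤ 1) : ∃ c : ℝ, 0 < c ∧
    ∃ d₀ : ℕ, ∀ n : ℕ, d₀ ≤ n → ∀ (C : Set (EuclideanSpace ℝ (Fin (n + 1))))
      (X : Finset (EuclideanSpace ℝ (Fin (n + 1)))), Convex ℝ C → IsCompact C →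
      C ⊆ ⋃ x ∈ X, closedBall x 1 →
      ∀ v : Fin (2 * i) → EuclideanSpace ℝ (Fin (n + 1)),
      (∀ a b, a ≠ b → inner ℝ (v a) (v b) = 0) →
      (∀ a, 1 / (c * √((n : ℝ) + 1)) ≤ ‖v a‖ ∧
        volume (C \ (v a +ᵥ C)) ≤ ENNReal.ofReal c * volume C) →
      volume.real C ≤ (1 + ε) * ((i : ℝ) ^ i * Real.exp (-i) / (i.factorial : ℝ)) *
        (X.card * kap (n + 1)) := by
  classical
  have hi' : (1 : ℝ) ≤ i := by exact_mod_cast hi
  obtain ⟨a, ha⟩ : ∃ a : ℝ, a = (i : ℝ) ^ i * Real.exp (-i) / (i.factorial : ℝ) := ⟨_, rfl⟩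
  have ha0 : 0 < a := by
    rw [ha]
    have : (0 : ℝ) < (i.factorial : ℝ) := by exact_mod_cast Nat.factorial_pos i
    positivity
  obtain ⟨θ, hθ⟩ : ∃ θ : ℝ, θ = ε / 16 := ⟨_, rfl⟩
  have hθ0 : 0 < θ := by rw [hθ]; positivity
  have hθ1 : θ ≤ 1 := by rw [hθ]; linarith
  obtain ⟨ε₅, hε₅⟩ : ∃ ε₅ : ℝ, ε₅ = min a 1 * ε / 32 := ⟨_, rfl⟩
  have hmin0 : 0 < min a 1 := lt_min ha0 one_pos
  have hε₅0 : 0 < ε₅ := by rw [hε₅]; positivity
  have hε₅a : ε₅ ≤ a * ε / 32 := by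
    rw [hε₅]
    have := mul_le_mul_of_nonneg_right (min_le_left a 1) hε.le
    linarith
  have hε₅e : ε₅ ≤ ε / 32 := by
    rw [hε₅]
    have := mul_le_mul_of_nonneg_right (min_le_right a 1) hε.le
    linarith
  have hε₅1 : ε₅ ≤ 1 := by linarith
  obtain ⟨b, hb0, hb⟩ := FVAux.exists_b (ε₅ * θ / (4 * i)) (by positivity)
  obtain ⟨R, hR⟩ : ∃ R : ℝ, R = √(2 * i * b) + 1 := ⟨_, rfl⟩
  have hsq : 0 ≤ √(2 * i * b) := Real.sqrt_nonneg _
  have hR0 : 0 < R := by rw [hR]; linarith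
  have hR2 : 2 * i * b ≤ R ^ 2 := by
    have := Real.sq_sqrt (show (0 : ℝ) ≤ 2 * i * b by positivity)
    rw [hR]
    nlinarith
  obtain ⟨d₂, hvor⟩ := voronoi_sum4 ε₅ θ hε₅0 hε₅1 hθ0 hθ1
  obtain ⟨c, hc⟩ : ∃ c : ℝ, c = min (1 / (3 * R)) (ε₅ * θ / (2 ^ (2 * i) * (2 * i))) := ⟨_, rfl⟩
  have hc0 : 0 < c := by rw [hc]; exact lt_min (by positivity) (by positivity)
  have hcR : c * (3 * R) ≤ 1 := by
    have : c ≤ 1 / (3 * R) := by rw [hc]; exact min_le_left _ _
    rwa [le_div_iff₀ (by positivity)] at this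
  have hcε : 2 ^ (2 * i) * (2 * i) * c ≤ ε₅ * θ := by
    have : c ≤ ε₅ * θ / (2 ^ (2 * i) * (2 * i)) := by rw [hc]; exact min_le_right _ _
    rw [le_div_iff₀ (by positivity)] at this
    linarith
  refine ⟨c, hc0, max d₂ (2 * i + ⌈2 * i + 64 * (i : ℝ) ^ 2 / ε⌉₊), ?_⟩
  intro n hn C X hconv hCc hcov v ho hv
  have hnd2 : d₂ ≤ n := (le_max_left _ _).trans hn
  have hn2 : 2 * i + ⌈2 * i + 64 * (i : ℝ) ^ 2 / ε⌉₊ ≤ n := (le_max_right _ _).trans hn
  have hd : (0 : ℝ) < (n : ℝ) + 1 := by positivity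
  have hdbig : 2 * i + 64 * (i : ℝ) ^ 2 / ε ≤ (n : ℝ) + 1 := by
    have h1 : ⌈2 * i + 64 * (i : ℝ) ^ 2 / ε⌉₊ ≤ n := by omega
    have h2 : (⌈2 * i + 64 * (i : ℝ) ^ 2 / ε⌉₊ : ℝ) ≤ n := by exact_mod_cast h1
    linarith [Nat.le_ceil (2 * i + 64 * (i : ℝ) ^ 2 / ε)]
  have hκ := kap_pos (n + 1)
  rw [← ha]
  rcases C.eq_empty_or_nonempty with hCe | hCne
  · rw [hCe, measureReal_empty]; positivity
  obtain ⟨f, hf1, hf2⟩ := move_in C hconv hCc hCne
  obtain ⟨W, hW⟩ : ∃ W : Finset (EuclideanSpace ℝ (Fin (n + 1))), W = X.image f := ⟨_, rfl⟩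
  have hWC : ∀ w ∈ W, w ∈ C := by
    intro w hw
    rw [hW] at hw
    obtain ⟨x, _, rfl⟩ := Finset.mem_image.mp hw
    exact hf1 x
  have hcovW : C ⊆ ⋃ w ∈ W, closedBall w 1 := by
    intro x hx
    have h1 := hcov hx
    simp only [mem_iUnion] at h1 ⊢
    obtain ⟨w, hw, hxw⟩ := h1
    rw [mem_closedBall, dist_eq_norm] at hxw
    exact ⟨f w, by rw [hW]; exact Finset.mem_image_of_mem f hw,
      by rw [mem_closedBall, dist_eq_norm]; exact (hf2 w x hx).trans hxw⟩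
  have hWcard : (W.card : ℝ) ≤ X.card := by
    rw [hW]; exact_mod_cast Finset.card_image_le
  obtain ⟨G, hGW, hsum⟩ := hvor n hnd2 C W hconv hCc hWC hcovW
  obtain ⟨τ, hτ⟩ : ∃ τ : ℝ, τ = θ / ((n : ℝ) + 1) := ⟨_, rfl⟩
  rw [← hτ] at hsum
  have hτ0 : 0 < τ := by rw [hτ]; positivity
  have hτd : τ * ((n : ℝ) + 1) = θ := by rw [hτ]; field_simp
  have hτ1 : τ ≤ 1 := by
    rw [hτ, div_le_one hd]
    linarith [(Nat.cast_nonneg n : (0 : ℝ) ≤ n)]
  have hsd : 0 < √((n : ℝ) + 1) := Real.sqrt_pos.mpr hd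
  obtain ⟨δ, hδ⟩ : ∃ δ : ℝ, δ = R / √((n : ℝ) + 1) := ⟨_, rfl⟩
  have hδ0 : 0 < δ := by rw [hδ]; positivity
  have hvlong : ∀ a, 3 * δ ≤ ‖v a‖ := by
    intro a
    refine le_trans ?_ (hv a).1
    rw [hδ, le_div_iff₀ (by positivity)]
    have : 3 * (R / √((n : ℝ) + 1)) * (c * √((n : ℝ) + 1)) = c * (3 * R) := by
      field_simp
    rw [this]
    exact hcR
  have hvne : ∀ a, v a ≠ 0 := by
    intro a h
    have := hvlong a
    rw [h, norm_zero] at this
    linarith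
  -- the frame
  obtain ⟨V, hV⟩ : ∃ V : Submodule ℝ (EuclideanSpace ℝ (Fin (n + 1))),
      V = Submodule.span ℝ (Set.range v) := ⟨_, rfl⟩
  have hli : LinearIndependent ℝ v :=
    linearIndependent_of_ne_zero_of_inner_eq_zero hvne (fun a b hab => ho a b hab)
  have hVf : finrank ℝ V = 2 * i := by
    rw [hV, finrank_span_eq_card hli, Fintype.card_fin]
  obtain ⟨N, hN⟩ : ∃ N : ℕ, 2 * i + N = n := ⟨n - 2 * i, by omega⟩
  obtain ⟨A, B, hAB, hVA, hmp, hsurj⟩ := exists_frame2 V (2 * i) N hVf hN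
  have hrange : V = LinearMap.range A.toLinearMap := by
    refine Submodule.eq_of_le_of_finrank_eq ?_ ?_
    · intro x hx
      obtain ⟨z, hz⟩ := hVA x hx
      exact ⟨z, hz⟩
    · rw [hVf, LinearMap.finrank_range_of_inj A.injective, finrank_euclideanSpace_fin]
  have hAV : ∀ z, A z ∈ Submodule.span ℝ (Set.range v) := by
    intro z
    rw [← hV, hrange]
    exact ⟨z, rfl⟩
  choose g hg using hsurj
  have hg' : ∀ w, A (g w).1 + B (g w).2 = w := hg
  -- the good part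
  obtain ⟨Good, hGood⟩ : ∃ Good : Set (EuclideanSpace ℝ (Fin (n + 1))),
      Good = {x | ∀ s : Fin (2 * i) → ℝ, (∀ a, |s a| ≤ 1) → x + ∑ a, s a • v a ∈ C} := ⟨_, rfl⟩
  have hGoodc : IsClosed Good := by
    have h1 : Good = ⋂ s : Fin (2 * i) → ℝ, ⋂ _ : (∀ a, |s a| ≤ 1),
        (fun x => x + ∑ a, s a • v a) ⁻¹' C := by
      rw [hGood]; ext x; simp
    rw [h1]
    exact isClosed_iInter fun s => isClosed_iInter fun _ =>
      hCc.isClosed.preimage (by fun_prop)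
  obtain ⟨Bad, hBad⟩ : ∃ Bad : Set (EuclideanSpace ℝ (Fin (n + 1))), Bad = C \ Good := ⟨_, rfl⟩
  have hBadm : MeasurableSet Bad := by
    rw [hBad]; exact hCc.measurableSet.diff hGoodc.measurableSet
  have hBadfin : volume Bad ≠ ⊤ := by
    rw [hBad]; exact ((measure_mono sdiff_subset).trans_lt hCc.measure_lt_top).ne
  have hBadV : volume.real Bad ≤ ε₅ * θ * volume.real C := by
    have h1 := good_vol C hconv hCc v c hc0.le (fun a => (hv a).2)
    have h2 : Bad = {x | x ∈ C ∧ ∃ s : Fin (2 * i) → ℝ, (∀ a, |s a| ≤ 1) ∧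
        x + ∑ a, s a • v a ∉ C} := by
      rw [hBad, hGood]
      ext x
      simp only [mem_sdiff, mem_ofPred_eq, not_forall, exists_prop]
    rw [h2]
    refine h1.trans (mul_le_mul_of_nonneg_right ?_ measureReal_nonneg)
    push_cast
    linarith
  -- one centre
  have hInnm : ∀ w, MeasurableSet (Inn C τ w) := by
    intro w
    have e : Inn C τ w = C ∩ ({x | ‖x - w‖ ≤ 1} ∩
        ((fun x => w + (1 + τ) • (x - w)) ⁻¹' C)ᶜ) := rfl
    rw [e]
    refine hCc.measurableSet.inter (MeasurableSet.inter ?_ (MeasurableSet.compl ?_))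
    · exact (isClosed_le (by fun_prop) continuous_const).measurableSet
    · exact hCc.measurableSet.preimage (by fun_prop)
  have hm : ((N : ℝ) + 1) = ((n : ℝ) + 1) - 2 * i := by
    have h1 : ((2 * i + N : ℕ) : ℝ) = n := by exact_mod_cast hN
    push_cast at h1
    linarith
  have hone : ∀ w, volume.real (Inn C τ w ∩ Good) ≤
      θ * ((1 + ε / 16) * a * kap (n + 1)) + ε₅ * θ * kap (n + 1) := by
    intro w
    have h1 : volume.real (Inn C τ w ∩ Good) =
        volume.real ((fun q : EuclideanSpace ℝ (Fin (2 * i)) × EuclideanSpace ℝ (Fin (N + 1)) =>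
          A q.1 + B q.2) ⁻¹' (Inn C τ w ∩ Good)) := by
      rw [Measure.real, Measure.real, hmp.measure_preimage
        ((hInnm w).inter hGoodc.measurableSet).nullMeasurableSet]
    rw [h1]
    have h2 := dir_exit hN A B hAB C hconv hCc (g w).1 (g w).2 τ δ
      ((2 * (i : ℝ) / (((N : ℝ) + 1) * Real.exp 1)) ^ i) hτ0 hδ0.le (dir_num i N hi)
    have h3 := plane_cap (j := 2 * i) (by omega) A B hAB hmp (g w).1 (g w).2 R hR0.le
    have hsub : (fun q : EuclideanSpace ℝ (Fin (2 * i)) × EuclideanSpace ℝ (Fin (N + 1)) =>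
          A q.1 + B q.2) ⁻¹' (Inn C τ w ∩ Good) ⊆
        {q : EuclideanSpace ℝ (Fin (2 * i)) × EuclideanSpace ℝ (Fin (N + 1)) |
          ‖A q.1 + B q.2 - (A (g w).1 + B (g w).2)‖ ≤ 1 ∧ ‖q.1 - (g w).1‖ ≤ δ ∧
          (∀ z, ‖z - (g w).1‖ ≤ (1 + τ) * δ → A z + B q.2 ∈ C) ∧
          A (g w).1 + B (g w).2 + (1 + τ) • (A q.1 + B q.2 - (A (g w).1 + B (g w).2)) ∉ C} ∪
        {q : EuclideanSpace ℝ (Fin (2 * i)) × EuclideanSpace ℝ (Fin (N + 1)) |
          ‖A q.1 + B q.2 - (A (g w).1 + B (g w).2)‖ ≤ 1 ∧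
            R / √((n : ℝ) + 1) < ‖q.1 - (g w).1‖} := by
      rintro q ⟨⟨hq1, hq2, hq3⟩, hq4⟩
      rw [hGood] at hq4
      by_cases hq5 : ‖q.1 - (g w).1‖ ≤ δ
      · left
        refine ⟨by rw [hg' w]; exact hq2, hq5, fun z hz => ?_, by rw [hg' w]; exact hq3⟩
        have h4 : ‖A (z - q.1)‖ ≤ 3 * δ := by
          rw [LinearIsometry.norm_map]
          have h5 : z - q.1 = (z - (g w).1) - (q.1 - (g w).1) := by abel
          rw [h5]
          refine (norm_sub_le _ _).trans ?_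
          nlinarith
        obtain ⟨s, hs1, hs2⟩ := coords v ho (3 * δ) (by positivity) hvlong (A (z - q.1))
          (hAV _) h4
        have h6 := hq4 s hs1
        rw [hs2, map_sub] at h6
        have h7 : A q.1 + B q.2 + (A z - A q.1) = A z + B q.2 := by abel
        rwa [h7] at h6
      · right
        refine ⟨by rw [hg' w]; exact hq2, ?_⟩
        rw [← hδ]
        exact not_le.1 hq5
    have hball : ∀ w, volume ((fun q : EuclideanSpace ℝ (Fin (2 * i)) ×
        EuclideanSpace ℝ (Fin (N + 1)) => A q.1 + B q.2) ⁻¹' closedBall w 1) ≠ ⊤ := by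
      intro w
      rw [hmp.measure_preimage measurableSet_closedBall.nullMeasurableSet]
      exact measure_closedBall_lt_top.ne
    refine (measureReal_mono hsub ?_).trans ((measureReal_union_le _ _).trans ?_)
    · refine ((measure_mono ?_).trans_lt (hball w).lt_top).ne
      rintro q (hq | hq)
      · rw [mem_preimage, mem_closedBall, dist_eq_norm]
        have := hq.1
        rwa [hg' w] at this
      · rw [mem_preimage, mem_closedBall, dist_eq_norm]
        have := hq.1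
        rwa [hg' w] at this
    · refine add_le_add (h2.trans ?_) (h3.trans ?_)
      · have h4 := dir_kap i n N hi hN
        rw [← ha] at h4
        have h5 := pow_close i hi ε hε hε1 ((n : ℝ) + 1) ((N : ℝ) + 1) hm hdbig
        have h6 : ((n : ℝ) + 1) * (((n : ℝ) + 1) / ((N : ℝ) + 1)) ^ i * a * kap (n + 1) ≤
            ((n : ℝ) + 1) * (1 + ε / 16) * a * kap (n + 1) := by
          refine mul_le_mul_of_nonneg_right (mul_le_mul_of_nonneg_right
            (mul_le_mul_of_nonneg_left h5 hd.le) ha0.le) hκ.le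
        calc τ * (((N : ℝ) + 1) * kap (N + 1) * kap (2 * i) *
              (2 * (i : ℝ) / (((N : ℝ) + 1) * Real.exp 1)) ^ i)
            ≤ τ * (((n : ℝ) + 1) * (1 + ε / 16) * a * kap (n + 1)) :=
              mul_le_mul_of_nonneg_left (h4.trans h6) hτ0.le
          _ = (τ * ((n : ℝ) + 1)) * ((1 + ε / 16) * a * kap (n + 1)) := by ring
          _ = θ * ((1 + ε / 16) * a * kap (n + 1)) := by rw [hτd]
      · refine mul_le_mul_of_nonneg_right ?_ hκ.le
        have h4 : Real.exp (-(R ^ 2 / (2 * (2 * i : ℕ)))) ≤ ε₅ * θ / (4 * i) := by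
          refine le_trans (Real.exp_le_exp.2 ?_) hb
          push_cast
          rw [neg_le_neg_iff, div_le_div_iff₀ (by norm_num) (by positivity)]
          nlinarith
        calc 2 * ((2 * i : ℕ) : ℝ) * Real.exp (-(R ^ 2 / (2 * (2 * i : ℕ))))
            ≤ 2 * ((2 * i : ℕ) : ℝ) * (ε₅ * θ / (4 * i)) :=
              mul_le_mul_of_nonneg_left h4 (by positivity)
          _ = ε₅ * θ := by
              push_cast
              field_simp
              ring
  -- the sum over the centres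
  have hS : ∑ w ∈ G, volume.real (Inn C τ w ∩ Vor G w) ≤
      W.card * (θ * ((1 + ε / 16) * a * kap (n + 1)) + ε₅ * θ * kap (n + 1)) +
        ε₅ * θ * volume.real C := by
    have h1 : ∀ w ∈ G, volume.real (Inn C τ w ∩ Vor G w) ≤
        (θ * ((1 + ε / 16) * a * kap (n + 1)) + ε₅ * θ * kap (n + 1)) +
          volume.real (Bad ∩ Vor G w) := by
      intro w _
      have h2 : Inn C τ w ∩ Vor G w ⊆ (Inn C τ w ∩ Good) ∪ (Bad ∩ Vor G w) := by
        rintro x ⟨hx1, hx2⟩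
        by_cases hx3 : x ∈ Good
        · exact Or.inl ⟨hx1, hx3⟩
        · refine Or.inr ⟨?_, hx2⟩
          rw [hBad]
          exact ⟨hx1.1, hx3⟩
      have hfin : volume ((Inn C τ w ∩ Good) ∪ (Bad ∩ Vor G w)) ≠ ⊤ := by
        refine ((measure_mono (t := C) ?_).trans_lt hCc.measure_lt_top).ne
        rintro x (hx | hx)
        · exact hx.1.1
        · rw [hBad] at hx; exact hx.1.1
      refine (measureReal_mono h2 hfin).trans ((measureReal_union_le _ _).trans ?_)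
      exact add_le_add (hone w) le_rfl
    refine (Finset.sum_le_sum h1).trans ?_
    rw [Finset.sum_add_distrib, Finset.sum_const, nsmul_eq_mul]
    have h2 : ∑ w ∈ G, volume.real (Bad ∩ Vor G w) ≤ volume.real Bad :=
      sum_le G G (Finset.Subset.refl G) (fun w => Bad ∩ Vor G w) Bad
        (fun w _ => inter_subset_right) (fun w _ => inter_subset_left)
        (fun w _ => hBadm.inter (vor_closed G w).measurableSet) hBadfin
    have h3 : (G.card : ℝ) ≤ W.card := by exact_mod_cast Finset.card_le_card hGW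
    have h4 : (G.card : ℝ) * (θ * ((1 + ε / 16) * a * kap (n + 1)) + ε₅ * θ * kap (n + 1)) ≤
        W.card * (θ * ((1 + ε / 16) * a * kap (n + 1)) + ε₅ * θ * kap (n + 1)) :=
      mul_le_mul_of_nonneg_right h3 (by positivity)
    linarith
  -- numerics
  have hα : θ / (1 + θ) ≤ 1 - ((1 + τ) ^ (n + 1))⁻¹ := by
    have hb' := one_add_mul_le_pow (a := τ) (by linarith) (n + 1)
    have h1 : ((n + 1 : ℕ) : ℝ) * τ = θ := by
      push_cast; linarith
    rw [h1] at hb'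
    have h2 : ((1 + τ) ^ (n + 1))⁻¹ ≤ (1 + θ)⁻¹ := inv_anti₀ (by linarith) hb'
    have h3 : θ / (1 + θ) = 1 - (1 + θ)⁻¹ := by field_simp; ring
    rw [h3]; linarith
  obtain ⟨VC, hVC⟩ : ∃ VC : ℝ, VC = volume.real C := ⟨_, rfl⟩
  have hVC0 : 0 ≤ VC := by rw [hVC]; exact measureReal_nonneg
  rw [← hVC] at hsum hS ⊢
  obtain ⟨K, hK⟩ : ∃ K : ℝ, K = (W.card : ℝ) * kap (n + 1) := ⟨_, rfl⟩
  have hK0 : 0 ≤ K := by rw [hK]; positivity
  have hKX : K ≤ X.card * kap (n + 1) := by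
    rw [hK]; exact mul_le_mul_of_nonneg_right hWcard hκ.le
  rw [← hK] at hsum
  have hS' : ∑ w ∈ G, volume.real (Inn C τ w ∩ Vor G w) ≤
      θ * ((1 + ε / 16) * a * K) + ε₅ * θ * K + ε₅ * θ * VC := by
    refine hS.trans (le_of_eq ?_)
    rw [hK]; ring
  have hmain : θ / (1 + θ) * VC ≤ θ * ((1 + ε / 16) * a * K) + 2 * (ε₅ * θ * K) +
      2 * (ε₅ * θ * VC) := by
    have h1 := mul_le_mul_of_nonneg_right hα hVC0
    linarith
  -- divide by θ
  have hmain2 : VC * (1 - ε / 8) ≤ a * K * (1 + ε / 8) := by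
    have h1 : VC / (1 + θ) ≤ (1 + ε / 16) * a * K + 2 * ε₅ * K + 2 * ε₅ * VC := by
      refine le_of_mul_le_mul_left ?_ hθ0
      have h2 : θ * (VC / (1 + θ)) = θ / (1 + θ) * VC := by ring
      rw [h2]
      refine hmain.trans (le_of_eq ?_)
      ring
    have h2 : (1 - ε / 16) * VC ≤ VC / (1 + θ) := by
      rw [← hθ, le_div_iff₀ (by linarith)]
      nlinarith [mul_nonneg hVC0 (sq_nonneg θ)]
    have h3 : 2 * ε₅ * K ≤ a * K * (ε / 16) := by
      have := mul_le_mul_of_nonneg_right hε₅a hK0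
      linarith
    have h4 : 2 * ε₅ * VC ≤ ε / 16 * VC := by
      have := mul_le_mul_of_nonneg_right hε₅e hVC0
      linarith
    linarith
  have hfin : VC ≤ (1 + ε) * a * K := by
    have haK : 0 ≤ a * K := by positivity
    have h1 : a * K * (1 + ε / 8) ≤ ((1 + ε) * a * K) * (1 - ε / 8) := by
      nlinarith [mul_nonneg haK hε.le, mul_nonneg (mul_nonneg haK hε.le) (by linarith : 0 ≤ 1 - ε)]
    exact le_of_mul_le_mul_right (hmain2.trans h1) (by linarith)
  refine hfin.trans ?_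
  exact mul_le_mul_of_nonneg_left hKX (by positivity)

end SA70
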