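import Pool.Agent.SA70.FC1

/-! FC: near `exp (c d)` large cells the flux is negligible, for a slightly larger ball. -/

set_option autoImplicit false

open MeasureTheory Measure Metric Set Module ENNReal

namespace SA70

open SC70

private theorem fcr_vol {n : ℕ} (r : ℝ) (hr : 0 < r) (S : Set (EuclideanSpace ℝ (Fin (n + 1)))) :
    volume.real ((fun x => r • x) ⁻¹' S) = (r ^ (n + 1))⁻¹ * volume.real S := by
  rw [measureReal_def, Measure.addHaar_preimage_smul _ hr.ne', finrank_euclideanSpace_fin,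
    abs_of_nonneg (by positivity), ENNReal.toReal_mul, ENNReal.toReal_ofReal (by positivity),
    measureReal_def]

/-- the same for a slightly larger ball: apply `fat_center` to the bodies scaled by
`1 / r`, `r = √(1 + a/d)`; `r^d ≤ exp(a/2)`. -/
theorem fat_center_r (c η η' a : ℝ) (hc : 0 < c) (hη : 0 < η) (hη' : 0 < η') (ha : 0 ≤ a) :
    ∃ d₀ : ℕ, ∀ n : ℕ, d₀ ≤ n →
    ∀ (C : Set (EuclideanSpace ℝ (Fin (n + 1)))), Convex ℝ C → IsCompact C → ∀ w ∈ C,
      ∀ τ : ℝ, 0 < τ → τ ≤ 1 / ((n : ℝ) + 1) →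
      ∀ (G : Finset (EuclideanSpace ℝ (Fin (n + 1))))
        (A : EuclideanSpace ℝ (Fin (n + 1)) → Set (EuclideanSpace ℝ (Fin (n + 1)))),
        (∀ u ∈ G, MeasurableSet (A u)) → (∀ u ∈ G, A u ⊆ C ∩ closedBall u 1) →
        (∀ u ∈ G, ∀ v ∈ G, u ≠ v → volume (A u ∩ A v) = 0) →
        (∀ u ∈ G, η * kap (n + 1) ≤ volume.real (A u)) → (∀ u ∈ G, ‖u - w‖ ≤ 8) →
        Real.exp (c * ((n : ℝ) + 1)) ≤ G.card →
        volume.real {x | x ∈ C ∧ ‖x - w‖ ^ 2 ≤ 1 + a / ((n : ℝ) + 1) ∧ w + (1 + τ) • (x - w) ∉ C} ≤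
          η' * kap (n + 1) := by
  classical
  have hE := Real.exp_pos (-(a / 2))
  set η₁ : ℝ := min η η' * Real.exp (-(a / 2)) with hη₁
  have hη₁0 : 0 < η₁ := mul_pos (lt_min hη hη') hE
  obtain ⟨d₀, hfc⟩ := fat_center c η₁ hc hη₁0
  refine ⟨d₀, ?_⟩
  intro n hn C hconv hCc w hw τ hτ0 hτ1 G A hm hA hd hv h8 hcard
  have hk := kap_pos (n + 1)
  have hn1 : (0 : ℝ) < (n : ℝ) + 1 := by positivity
  obtain ⟨r, hr1, hr2⟩ : ∃ r : ℝ, 1 ≤ r ∧ r ^ 2 = 1 + a / ((n : ℝ) + 1) :=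
    ⟨√(1 + a / ((n : ℝ) + 1)), Real.one_le_sqrt.mpr (by have : 0 ≤ a / ((n : ℝ) + 1) := by positivity
                                                        linarith),
      Real.sq_sqrt (by positivity)⟩
  have hr0 : 0 < r := by linarith
  have hrne := hr0.ne'
  have hrd : r ^ (n + 1) ≤ Real.exp (a / 2) := by
    have h1 : (r ^ (n + 1)) ^ 2 ≤ (Real.exp (a / 2)) ^ 2 := by
      have h2 : (r ^ (n + 1)) ^ 2 = (r ^ 2) ^ (n + 1) := by ring
      have h3 : (Real.exp (a / 2)) ^ 2 = Real.exp (a / ((n : ℝ) + 1)) ^ (n + 1) := by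
        rw [← Real.exp_nat_mul, ← Real.exp_nat_mul]
        congr 1
        push_cast
        field_simp
      rw [h2, h3, hr2]
      have h4 : 1 + a / ((n : ℝ) + 1) ≤ Real.exp (a / ((n : ℝ) + 1)) := by
        have := Real.add_one_le_exp (a / ((n : ℝ) + 1)); linarith
      gcongr
    exact abs_le_of_sq_le_sq' h1 (Real.exp_pos _).le |>.2
  have hrd0 : 0 < r ^ (n + 1) := by positivity
  have hfin : ∀ u ∈ G, volume (A u) ≠ ⊤ := fun u hu =>
    ((measure_mono ((hA u hu).trans inter_subset_right)).trans_lt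
      (isCompact_closedBall _ _).measure_lt_top).ne
  have hinj : Function.Injective fun x : EuclideanSpace ℝ (Fin (n + 1)) => r⁻¹ • x :=
    smul_right_injective _ (inv_ne_zero hrne)
  have hrr : ∀ x : EuclideanSpace ℝ (Fin (n + 1)), r • (r⁻¹ • x) = x := fun x => by
    rw [smul_smul, mul_inv_cancel₀ hrne, one_smul]
  have hms : Measurable fun x : EuclideanSpace ℝ (Fin (n + 1)) => r • x :=
    measurable_const_smul r
  have key := hfc n hn ((fun x => r • x) ⁻¹' C) (hconv.smul_preimage r)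
    ((Homeomorph.smulOfNeZero r hrne).isCompact_preimage.mpr hCc) (r⁻¹ • w)
    (by show r • (r⁻¹ • w) ∈ C; rwa [hrr]) τ hτ0 hτ1
    (G.image fun x => r⁻¹ • x) (fun u => (fun x => r • x) ⁻¹' A (r • u))
    (by
      intro u hu
      obtain ⟨v, hv', rfl⟩ := Finset.mem_image.mp hu
      simp only [hrr]
      exact hms (hm v hv'))
    (by
      intro u hu x hx
      obtain ⟨v, hv', rfl⟩ := Finset.mem_image.mp hu
      simp only [hrr] at hx
      have h1 := hA v hv' hx
      refine ⟨h1.1, ?_⟩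
      have h2 := h1.2
      rw [mem_closedBall, dist_eq_norm] at h2 ⊢
      have e : r • x - v = r • (x - r⁻¹ • v) := by rw [smul_sub, hrr]
      rw [e, norm_smul, Real.norm_of_nonneg hr0.le] at h2
      nlinarith [norm_nonneg (x - r⁻¹ • v)])
    (by
      intro u hu v hv' hne
      obtain ⟨u', hu', rfl⟩ := Finset.mem_image.mp hu
      obtain ⟨v', hv'', rfl⟩ := Finset.mem_image.mp hv'
      simp only [hrr]
      rw [← preimage_inter, Measure.addHaar_preimage_smul _ hrne,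
        hd u' hu' v' hv'' (fun h => hne (by rw [h])), mul_zero])
    (by
      intro u hu
      obtain ⟨v, hv', rfl⟩ := Finset.mem_image.mp hu
      simp only [hrr]
      rw [fcr_vol r hr0]
      have h1 := hv v hv'
      have h2 : Real.exp (-(a / 2)) ≤ (r ^ (n + 1))⁻¹ := by
        rw [Real.exp_neg]
        exact inv_anti₀ hrd0 hrd
      calc η₁ * kap (n + 1) = Real.exp (-(a / 2)) * (min η η' * kap (n + 1)) := by
            rw [hη₁]; ring
        _ ≤ (r ^ (n + 1))⁻¹ * (η * kap (n + 1)) := by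
            refine mul_le_mul h2 ?_ (mul_nonneg (lt_min hη hη').le hk.le) (by positivity)
            exact mul_le_mul_of_nonneg_right (min_le_left _ _) hk.le
        _ ≤ (r ^ (n + 1))⁻¹ * volume.real (A v) := by gcongr)
    (by
      intro u hu
      obtain ⟨v, hv', rfl⟩ := Finset.mem_image.mp hu
      rw [← smul_sub, norm_smul, norm_inv, Real.norm_of_nonneg hr0.le]
      have h1 := h8 v hv'
      have h2 : r⁻¹ ≤ 1 := inv_le_one_of_one_le₀ hr1
      have h3 := norm_nonneg (v - w)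
      have h4 : r⁻¹ * ‖v - w‖ ≤ 1 * ‖v - w‖ := by gcongr
      linarith)
    (by rw [Finset.card_image_of_injective _ hinj]; exact hcard)
  have hInn : Inn ((fun x => r • x) ⁻¹' C) τ (r⁻¹ • w) = (fun x => r • x) ⁻¹'
      {x | x ∈ C ∧ ‖x - w‖ ^ 2 ≤ 1 + a / ((n : ℝ) + 1) ∧ w + (1 + τ) • (x - w) ∉ C} := by
    ext x
    simp only [Inn, Set.mem_ofPred_eq, mem_preimage]
    have e : r • x - w = r • (x - r⁻¹ • w) := by rw [smul_sub, hrr]
    have e2 : r • (r⁻¹ • w + (1 + τ) • (x - r⁻¹ • w)) = w + (1 + τ) • (r • x - w) := by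
      rw [smul_add, hrr, e, smul_comm]
    rw [e2]
    have e3 : ‖x - r⁻¹ • w‖ ≤ 1 ↔ ‖r • x - w‖ ^ 2 ≤ 1 + a / ((n : ℝ) + 1) := by
      rw [e, norm_smul, Real.norm_of_nonneg hr0.le, mul_pow, hr2, ← hr2]
      have h1 := norm_nonneg (x - r⁻¹ • w)
      have h2 : 0 < r ^ 2 := by positivity
      constructor
      · intro h
        have h3 : ‖x - r⁻¹ • w‖ ^ 2 ≤ 1 := pow_le_one₀ h1 h
        nlinarith
      · intro h
        have h3 : ‖x - r⁻¹ • w‖ ^ 2 ≤ 1 := by
          refine le_of_mul_le_mul_left ?_ h2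
          linarith
        nlinarith
    rw [e3]
  rw [hInn, fcr_vol r hr0] at key
  have h1 : volume.real {x | x ∈ C ∧ ‖x - w‖ ^ 2 ≤ 1 + a / ((n : ℝ) + 1) ∧
      w + (1 + τ) • (x - w) ∉ C} < r ^ (n + 1) * (η₁ * kap (n + 1)) := by
    rwa [inv_mul_lt_iff₀ hrd0] at key
  refine h1.le.trans ?_
  calc r ^ (n + 1) * (η₁ * kap (n + 1)) ≤ Real.exp (a / 2) * (η₁ * kap (n + 1)) := by gcongr
    _ = (Real.exp (a / 2) * Real.exp (-(a / 2))) * (min η η' * kap (n + 1)) := by
        rw [hη₁]; ring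
    _ = min η η' * kap (n + 1) := by rw [← Real.exp_add]; simp
    _ ≤ η' * kap (n + 1) := mul_le_mul_of_nonneg_right (min_le_right _ _) hk.le

end SA70
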