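import Pool.Agent.SA70.M10a

/-! FC1: near `exp (c d)` large cells the flux is negligible. -/

set_option autoImplicit false

open MeasureTheory Measure Metric Set Module ENNReal

namespace SA70

open SC70

private theorem fc_net {α : Type*} [DecidableEq α] (r : α → α → Prop) (hrefl : ∀ a, r a a)
    (hsymm : ∀ a b, r a b → r b a) (F : Finset α) :
    ∃ U : Finset α, U ⊆ F ∧ (∀ u ∈ U, ∀ u' ∈ U, u ≠ u' → ¬ r u u') ∧ ∀ u ∈ F, ∃ u' ∈ U, r u u' := by
  classical
  induction F using Finset.induction_on with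
  | empty => exact ⟨∅, by simp, by simp, by simp⟩
  | insert a F ha ih =>
    obtain ⟨U, hU, h1, h2⟩ := ih
    by_cases h : ∃ u' ∈ U, r a u'
    · refine ⟨U, hU.trans (Finset.subset_insert _ _), h1, ?_⟩
      intro u hu
      rcases Finset.mem_insert.mp hu with rfl | hu
      · exact h
      · exact h2 u hu
    · push Not at h
      refine ⟨insert a U, Finset.insert_subset_insert _ hU, ?_, ?_⟩
      · intro u hu u' hu' hne
        rcases Finset.mem_insert.mp hu with hu1 | hu1 <;>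
          rcases Finset.mem_insert.mp hu' with hu2 | hu2
        · exact absurd (hu1.trans hu2.symm) hne
        · rw [hu1]; exact h _ hu2
        · rw [hu2]; exact fun hr => h _ hu1 (hsymm _ _ hr)
        · exact h1 u hu1 u' hu2 hne
      · intro u hu
        rcases Finset.mem_insert.mp hu with hu1 | hu1
        · exact ⟨a, Finset.mem_insert_self _ _, hu1 ▸ hrefl a⟩
        · obtain ⟨u', hu', h3⟩ := h2 u hu1
          exact ⟨u', Finset.mem_insert_of_mem hu', h3⟩

private theorem fc_dir_norm {E : Type*} [NormedAddCommGroup E] [InnerProductSpace ℝ E] (w a : E) :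
    ‖dir w a‖ ≤ 1 := by
  unfold dir
  rw [norm_smul, Real.norm_of_nonneg (by positivity)]
  by_cases h : ‖a - w‖ = 0
  · rw [h]; norm_num
  · rw [one_div_mul_cancel h]

private theorem fc_dir_smul {E : Type*} [NormedAddCommGroup E] [InnerProductSpace ℝ E] (w a : E) :
    ‖a - w‖ • dir w a = a - w := by
  unfold dir
  by_cases h : ‖a - w‖ = 0
  · rw [h, zero_smul, norm_eq_zero.mp h]
  · rw [smul_smul, mul_one_div_cancel h, one_smul]

private theorem fc_vol {n : ℕ} (x : EuclideanSpace ℝ (Fin (n + 1))) {s : ℝ} (hs : 0 ≤ s) :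
    volume (closedBall x s) = ENNReal.ofReal (kap (n + 1) * s ^ (n + 1)) := by
  rw [Measure.addHaar_closedBall' _ _ hs, finrank_euclideanSpace_fin, ← ofReal_kap,
    ← ENNReal.ofReal_mul (by positivity)]
  congr 1; ring

/-- the counting -/
private theorem fc_count {n : ℕ} (η δ : ℝ) (hδ : 0 < δ)
    (G P : Finset (EuclideanSpace ℝ (Fin (n + 1))))
    (A : EuclideanSpace ℝ (Fin (n + 1)) → Set (EuclideanSpace ℝ (Fin (n + 1))))
    (hm : ∀ u ∈ G, MeasurableSet (A u)) (hA : ∀ u ∈ G, A u ⊆ closedBall u 1)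
    (hd : ∀ u ∈ G, ∀ v ∈ G, u ≠ v → volume (A u ∩ A v) = 0)
    (hv : ∀ u ∈ G, η * kap (n + 1) ≤ volume.real (A u))
    (hP : ∀ u ∈ G, ∃ p ∈ P, ‖u - p‖ ≤ δ) :
    G.card * η ≤ P.card * Real.exp (δ * ((n : ℝ) + 1)) := by
  have hk := kap_pos (n + 1)
  have hfin : ∀ u ∈ G, volume (A u) ≠ ⊤ := fun u hu =>
    ((measure_mono (hA u hu)).trans_lt (isCompact_closedBall _ _).measure_lt_top).ne
  have h1 : volume (⋃ u ∈ G, A u) = ∑ u ∈ G, volume (A u) :=
    measure_biUnion_finset₀ (fun u hu v hv hne => hd u hu v hv hne)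
      (fun u hu => (hm u hu).nullMeasurableSet)
  have h2 : (⋃ u ∈ G, A u) ⊆ ⋃ p ∈ P, closedBall p (1 + δ) := by
    intro x hx
    simp only [mem_iUnion, exists_prop] at hx ⊢
    obtain ⟨u, hu, hxu⟩ := hx
    obtain ⟨p, hp, hup⟩ := hP u hu
    refine ⟨p, hp, ?_⟩
    have h3 := hA u hu hxu
    rw [mem_closedBall, dist_eq_norm] at h3 ⊢
    have e : x - p = (x - u) + (u - p) := by abel
    rw [e]
    exact (norm_add_le _ _).trans (add_le_add h3 hup)
  have h3 : volume (⋃ p ∈ P, closedBall p (1 + δ)) ≤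
      ENNReal.ofReal (P.card * (kap (n + 1) * (1 + δ) ^ (n + 1))) := by
    refine (measure_biUnion_finset_le _ _).trans ?_
    simp_rw [fc_vol _ (by positivity : (0 : ℝ) ≤ 1 + δ)]
    rw [Finset.sum_const, nsmul_eq_mul, ENNReal.ofReal_mul (p := (P.card : ℝ)) (Nat.cast_nonneg _),
      ENNReal.ofReal_natCast]
  have h4 : ∑ u ∈ G, volume (A u) ≤
      ENNReal.ofReal (P.card * (kap (n + 1) * (1 + δ) ^ (n + 1))) := by
    rw [← h1]
    exact (measure_mono h2).trans h3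
  have h5 : ∑ u ∈ G, volume.real (A u) ≤ P.card * (kap (n + 1) * (1 + δ) ^ (n + 1)) := by
    have := ENNReal.toReal_le_of_le_ofReal (by positivity) h4
    rwa [ENNReal.toReal_sum hfin] at this
  have h6 : G.card * (η * kap (n + 1)) ≤ ∑ u ∈ G, volume.real (A u) := by
    rw [← nsmul_eq_mul]
    exact Finset.card_nsmul_le_sum _ _ _ hv
  have h7 : (1 + δ) ^ (n + 1) ≤ Real.exp (δ * ((n : ℝ) + 1)) := by
    have h8 : 1 + δ ≤ Real.exp δ := by have := Real.add_one_le_exp δ; linarith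
    calc (1 + δ) ^ (n + 1) ≤ Real.exp δ ^ (n + 1) := by gcongr
      _ = Real.exp (δ * ((n : ℝ) + 1)) := by
        rw [← Real.exp_nat_mul]; congr 1; push_cast; ring
  have h9 : G.card * (η * kap (n + 1)) ≤
      P.card * (kap (n + 1) * Real.exp (δ * ((n : ℝ) + 1))) := by
    refine h6.trans (h5.trans ?_)
    gcongr
  refine le_of_mul_le_mul_right ?_ hk
  linarith

theorem fat_center (c η : ℝ) (hc : 0 < c) (hη : 0 < η) : ∃ d₀ : ℕ, ∀ n : ℕ, d₀ ≤ n →
    ∀ (C : Set (EuclideanSpace ℝ (Fin (n + 1)))), Convex ℝ C → IsCompact C → ∀ w ∈ C,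
      ∀ τ : ℝ, 0 < τ → τ ≤ 1 / ((n : ℝ) + 1) →
      ∀ (G : Finset (EuclideanSpace ℝ (Fin (n + 1))))
        (A : EuclideanSpace ℝ (Fin (n + 1)) → Set (EuclideanSpace ℝ (Fin (n + 1)))),
        (∀ u ∈ G, MeasurableSet (A u)) → (∀ u ∈ G, A u ⊆ C ∩ closedBall u 1) →
        (∀ u ∈ G, ∀ v ∈ G, u ≠ v → volume (A u ∩ A v) = 0) →
        (∀ u ∈ G, η * kap (n + 1) ≤ volume.real (A u)) → (∀ u ∈ G, ‖u - w‖ ≤ 8) →
        Real.exp (c * ((n : ℝ) + 1)) ≤ G.card →
        volume.real (Inn C τ w) < η * kap (n + 1) := by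
  classical
  obtain ⟨δ, hδ0, hδ1, hδc⟩ : ∃ δ : ℝ, 0 < δ ∧ δ ≤ 1 ∧ δ ≤ c / 40 :=
    ⟨min (c / 40) 1, by positivity, min_le_right _ _, min_le_left _ _⟩
  obtain ⟨N₀, R₁, d₁, hfd⟩ := few_dirs η δ hη hδ0 hδ1
  set K : ℕ := ⌈8 / δ⌉₊ + 1 with hK
  set M : ℕ := 1 + N₀ * K with hM
  obtain ⟨d₂, hd₂⟩ := exists_nat_ge ((R₁ / δ) ^ 2)
  obtain ⟨d₃, hd₃⟩ := exists_nat_ge ((M / η) / (c - 9 * δ))
  refine ⟨max d₁ (max d₂ d₃), ?_⟩
  intro n hn C hconv hCc w hw τ hτ0 hτ1 G A hm hA hd hv h8 hcard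
  have hn1 : d₁ ≤ n := (le_max_left _ _).trans hn
  have hn2 : d₂ ≤ n := (le_max_left _ _).trans ((le_max_right _ _).trans hn)
  have hn3 : d₃ ≤ n := (le_max_right _ _).trans ((le_max_right _ _).trans hn)
  have hn2' : ((d₂ : ℕ) : ℝ) ≤ n := by exact_mod_cast hn2
  have hn3' : ((d₃ : ℕ) : ℝ) ≤ n := by exact_mod_cast hn3
  by_contra hcon
  push Not at hcon
  have hR : R₁ ≤ δ * √((n : ℝ) + 1) := by
    have h1 : (R₁ / δ) ^ 2 ≤ (n : ℝ) + 1 := by linarith
    have h2 : R₁ / δ ≤ √((n : ℝ) + 1) := Real.le_sqrt_of_sq_le h1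
    rw [div_le_iff₀ hδ0] at h2
    linarith
  have hsq : 0 < √((n : ℝ) + 1) := by positivity
  set F := G.filter fun u => R₁ ≤ √((n : ℝ) + 1) * ‖u - w‖ with hF
  obtain ⟨U, hUF, hU1, hU2⟩ := fc_net (fun u u' : EuclideanSpace ℝ (Fin (n + 1)) =>
    ‖dir w u - dir w u'‖ < δ) (fun a => by simpa using hδ0)
    (fun a b h => by rwa [norm_sub_rev]) F
  have hUG : ∀ u ∈ U, u ∈ G ∧ R₁ ≤ √((n : ℝ) + 1) * ‖u - w‖ := fun u hu =>
    Finset.mem_filter.mp (hUF hu)
  have hUc : U.card ≤ N₀ := by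
    refine hfd n hn1 C hconv hCc w hw τ hτ0 hτ1 hcon U (fun u hu => (hUG u hu).2) ?_ ?_
    · intro u hu
      refine (hv u (hUG u hu).1).trans ?_
      exact measureReal_mono (hA u (hUG u hu).1)
        ((measure_mono inter_subset_right).trans_lt (isCompact_closedBall _ _).measure_lt_top).ne
    · intro u hu u' hu' hne
      exact not_lt.mp (hU1 u hu u' hu' hne)
  set P : Finset (EuclideanSpace ℝ (Fin (n + 1))) :=
    {w} ∪ (U ×ˢ Finset.range K).image fun q => w + ((q.2 : ℝ) * δ) • dir w q.1 with hP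
  have hPc : P.card ≤ M := by
    refine (Finset.card_union_le _ _).trans ?_
    rw [Finset.card_singleton, hM]
    refine Nat.add_le_add_left (Finset.card_image_le.trans ?_) 1
    rw [Finset.card_product, Finset.card_range]
    exact Nat.mul_le_mul_right _ hUc
  have hnear : ∀ u ∈ G, ∃ p ∈ P, ‖u - p‖ ≤ 9 * δ := by
    intro u hu
    by_cases hfar : R₁ ≤ √((n : ℝ) + 1) * ‖u - w‖
    · obtain ⟨u', hu', hlt⟩ := hU2 u (Finset.mem_filter.mpr ⟨hu, hfar⟩)
      set t := ‖u - w‖ with ht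
      have ht0 : 0 ≤ t := norm_nonneg _
      have ht8 : t ≤ 8 := h8 u hu
      set j : ℕ := ⌊t / δ⌋₊ with hj
      have hj1 : (j : ℝ) ≤ t / δ := Nat.floor_le (by positivity)
      have hj2 : t / δ < j + 1 := Nat.lt_floor_add_one _
      rw [le_div_iff₀ hδ0] at hj1
      rw [div_lt_iff₀ hδ0] at hj2
      have hjK : j < K := by
        rw [hK, Nat.lt_succ_iff]
        have h1 : (j : ℝ) ≤ ⌈8 / δ⌉₊ := by
          refine le_trans ?_ (Nat.le_ceil _)
          rw [le_div_iff₀ hδ0]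
          linarith
        exact_mod_cast h1
      refine ⟨w + ((j : ℝ) * δ) • dir w u', ?_, ?_⟩
      · rw [hP]
        refine Finset.mem_union_right _ (Finset.mem_image.mpr ⟨(u', j), ?_, rfl⟩)
        exact Finset.mem_product.mpr ⟨hu', Finset.mem_range.mpr hjK⟩
      · have e : u - (w + ((j : ℝ) * δ) • dir w u') =
            t • (dir w u - dir w u') + (t - j * δ) • dir w u' := by
          have h1 := fc_dir_smul w u
          rw [smul_sub, ht, h1, sub_smul]
          abel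
        rw [e]
        refine (norm_add_le _ _).trans ?_
        rw [norm_smul, norm_smul, Real.norm_of_nonneg ht0,
          Real.norm_of_nonneg (by linarith : 0 ≤ t - j * δ)]
        have h2 := fc_dir_norm w u'
        have h3 : t * ‖dir w u - dir w u'‖ ≤ 8 * δ :=
          mul_le_mul ht8 hlt.le (norm_nonneg _) (by norm_num)
        have h4 : (t - j * δ) * ‖dir w u'‖ ≤ δ * 1 :=
          mul_le_mul (by linarith) h2 (norm_nonneg _) hδ0.le
        linarith
    · refine ⟨w, Finset.mem_union_left _ (Finset.mem_singleton_self _), ?_⟩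
      push Not at hfar
      have h1 : √((n : ℝ) + 1) * ‖u - w‖ ≤ √((n : ℝ) + 1) * δ := by linarith
      have h2 := le_of_mul_le_mul_left h1 hsq
      linarith
  have hcount := fc_count η (9 * δ) (by positivity) G P A hm
    (fun u hu => (hA u hu).trans inter_subset_right) hd hv hnear
  have hcd : 0 < c - 9 * δ := by linarith
  have h1 : (M : ℝ) / η ≤ (c - 9 * δ) * n := by
    have := hd₃.trans hn3'
    rw [div_le_iff₀ hcd] at this
    linarith
  have h2 : (M : ℝ) / η < Real.exp ((c - 9 * δ) * ((n : ℝ) + 1)) := by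
    have := Real.add_one_le_exp ((c - 9 * δ) * ((n : ℝ) + 1))
    nlinarith
  have h3 : Real.exp (c * ((n : ℝ) + 1)) * η ≤
      M * Real.exp (9 * δ * ((n : ℝ) + 1)) := by
    have hPc' : (P.card : ℝ) ≤ M := by exact_mod_cast hPc
    calc Real.exp (c * ((n : ℝ) + 1)) * η ≤ G.card * η := by gcongr
      _ ≤ P.card * Real.exp (9 * δ * ((n : ℝ) + 1)) := hcount
      _ ≤ M * Real.exp (9 * δ * ((n : ℝ) + 1)) := by gcongr
  have h4 : Real.exp (c * ((n : ℝ) + 1)) = Real.exp ((c - 9 * δ) * ((n : ℝ) + 1)) *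
      Real.exp (9 * δ * ((n : ℝ) + 1)) := by
    rw [← Real.exp_add]; congr 1; ring
  rw [div_lt_iff₀ hη] at h2
  rw [h4] at h3
  have h5 : 0 < Real.exp (9 * δ * ((n : ℝ) + 1)) := Real.exp_pos _
  nlinarith [mul_lt_mul_of_pos_right h2 h5]

end SA70
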