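import Pool.Agent.SA70.M7c

/-! FL: dilation of a weight function about one centre. -/

set_option autoImplicit false

open MeasureTheory Measure Metric Set Module ENNReal

namespace SA70

open SC70

theorem flux_one {n : ℕ} (E : Set (EuclideanSpace ℝ (Fin (n + 1)))) (hE : MeasurableSet E)
    (hEb : Bornology.IsBounded E) (w : EuclideanSpace ℝ (Fin (n + 1))) (τ D : ℝ) (hτ : 0 < τ)
    (hD : ∀ᵐ x, x ∈ E → ‖x - w‖ ≤ D) (φ : EuclideanSpace ℝ (Fin (n + 1)) → ℝ)
    (hφ0 : ∀ x, 0 ≤ φ x) (hφ1 : ∀ x, φ x ≤ 1) (hφ : ∀ x y, |φ x - φ y| ≤ ‖x - y‖) :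
    (1 - ((1 + τ) ^ (n + 1))⁻¹) * ∫ x in E, φ x ≤
      volume.real {x | x ∈ E ∧ w + (1 + τ) • (x - w) ∉ E ∧ 0 < φ x} +
        τ * D * volume.real E := by
  have hτ1 : 0 < 1 + τ := by linarith
  have hcont : Continuous φ := by
    have hL : LipschitzWith 1 φ := LipschitzWith.of_dist_le_mul fun x y => by
      rw [Real.dist_eq, dist_eq_norm]
      simpa using hφ x y
    exact hL.continuous
  have hEfin : volume E ≠ ⊤ := hEb.measure_lt_top.ne
  set T : EuclideanSpace ℝ (Fin (n + 1)) → EuclideanSpace ℝ (Fin (n + 1)) :=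
    fun x => w + (1 + τ) • (x - w) with hT
  have hTc : Continuous T := by rw [hT]; fun_prop
  set g : EuclideanSpace ℝ (Fin (n + 1)) → ℝ := E.indicator φ with hg
  have hgint : Integrable g := by
    rw [hg, integrable_indicator_iff hE]
    refine Measure.integrableOn_of_bounded (M := 1) hEfin hcont.aestronglyMeasurable ?_
    exact Filter.Eventually.of_forall fun x => by
      rw [Real.norm_of_nonneg (hφ0 x)]; exact hφ1 x
  have hTform : ∀ x, T x = (1 + τ) • x + (w - (1 + τ) • w) := by
    intro x
    simp only [hT]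
    module
  have hgT : (fun x => g (T x)) = fun x => (fun y => g (y + (w - (1 + τ) • w))) ((1 + τ) • x) := by
    funext x
    rw [hTform]
  have hgTint : Integrable fun x => g (T x) := by
    rw [hgT]
    exact (hgint.comp_add_right (w - (1 + τ) • w)).comp_smul hτ1.ne'
  have hchange : ∫ x, g (T x) = ((1 + τ) ^ (n + 1))⁻¹ * ∫ x, g x := by
    rw [hgT, Measure.integral_comp_smul volume (fun y => g (y + (w - (1 + τ) • w))) (1 + τ),
      integral_add_right_eq_self, finrank_euclideanSpace_fin,
      abs_of_nonneg (by positivity), smul_eq_mul]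
  set S : Set (EuclideanSpace ℝ (Fin (n + 1))) :=
    {x | x ∈ E ∧ w + (1 + τ) • (x - w) ∉ E ∧ 0 < φ x} with hS
  have hSm : MeasurableSet S := by
    refine hE.inter (MeasurableSet.inter ?_ ?_)
    · exact (hTc.measurable hE).compl
    · exact measurableSet_lt measurable_const hcont.measurable
  have hSE : S ⊆ E := fun x hx => hx.1
  have hSfin : volume S ≠ ⊤ := ((measure_mono hSE).trans_lt hEfin.lt_top).ne
  have hEint : Integrable (E.indicator fun _ => (τ * D : ℝ)) := by
    rw [integrable_indicator_iff hE]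
    exact integrableOn_const hEfin
  have hSint : Integrable (S.indicator fun _ => (1 : ℝ)) := by
    rw [integrable_indicator_iff hSm]
    exact integrableOn_const hSfin
  have hle : ∫ x, (g x - g (T x)) ≤
      ∫ x, (S.indicator (fun _ => (1 : ℝ)) x + E.indicator (fun _ => (τ * D : ℝ)) x) := by
    refine integral_mono_ae (hgint.sub hgTint) (hSint.add hEint) ?_
    filter_upwards [hD] with x hx
    have hgnn : 0 ≤ g (T x) := by
      rw [hg]; exact Set.indicator_nonneg (fun y _ => hφ0 y) _
    by_cases hxE : x ∈ E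
    · have hxD := hx hxE
      have hD0 : 0 ≤ D := (norm_nonneg _).trans hxD
      have hτD : 0 ≤ τ * D := by positivity
      have h1 : g x = φ x := by rw [hg]; exact Set.indicator_of_mem hxE _
      have h2 : E.indicator (fun _ => (τ * D : ℝ)) x = τ * D := Set.indicator_of_mem hxE _
      by_cases hTE : T x ∈ E
      · have h3 : g (T x) = φ (T x) := by rw [hg]; exact Set.indicator_of_mem hTE _
        have h4 : 0 ≤ S.indicator (fun _ => (1 : ℝ)) x :=
          Set.indicator_nonneg (fun y _ => zero_le_one) _
        have h5 := (abs_le.1 (hφ x (T x))).2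
        have h6 : ‖x - T x‖ = τ * ‖x - w‖ := by
          have : x - T x = -(τ • (x - w)) := by simp only [hT]; module
          rw [this, norm_neg, norm_smul, Real.norm_of_nonneg hτ.le]
        have h7 : τ * ‖x - w‖ ≤ τ * D := mul_le_mul_of_nonneg_left hxD hτ.le
        show g x - g (T x) ≤ S.indicator (fun _ => (1 : ℝ)) x +
          E.indicator (fun _ => (τ * D : ℝ)) x
        rw [h1, h2, h3]
        linarith
      · rcases (hφ0 x).lt_or_eq with hpos | hzero
        · have hxS : x ∈ S := ⟨hxE, hTE, hpos⟩
          have h4 : S.indicator (fun _ => (1 : ℝ)) x = 1 := Set.indicator_of_mem hxS _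
          show g x - g (T x) ≤ S.indicator (fun _ => (1 : ℝ)) x +
            E.indicator (fun _ => (τ * D : ℝ)) x
          rw [h1, h2, h4]
          linarith [hφ1 x]
        · have h4 : 0 ≤ S.indicator (fun _ => (1 : ℝ)) x :=
            Set.indicator_nonneg (fun y _ => zero_le_one) _
          show g x - g (T x) ≤ S.indicator (fun _ => (1 : ℝ)) x +
            E.indicator (fun _ => (τ * D : ℝ)) x
          rw [h1, h2, ← hzero]
          linarith
    · have h1 : g x = 0 := by rw [hg]; exact Set.indicator_of_notMem hxE _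
      have h2 : E.indicator (fun _ => (τ * D : ℝ)) x = 0 := Set.indicator_of_notMem hxE _
      have h4 : 0 ≤ S.indicator (fun _ => (1 : ℝ)) x :=
        Set.indicator_nonneg (fun y _ => zero_le_one) _
      show g x - g (T x) ≤ S.indicator (fun _ => (1 : ℝ)) x +
        E.indicator (fun _ => (τ * D : ℝ)) x
      rw [h1, h2]
      linarith
  have hI1 : ∫ x, S.indicator (fun _ => (1 : ℝ)) x = volume.real S := by
    rw [integral_indicator hSm, setIntegral_const, smul_eq_mul, mul_one]
  have hI2 : ∫ x, E.indicator (fun _ => (τ * D : ℝ)) x = volume.real E * (τ * D) := by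
    rw [integral_indicator hE, setIntegral_const, smul_eq_mul]
  have hgE : ∫ x, g x = ∫ x in E, φ x := by
    rw [hg, integral_indicator hE]
  rw [integral_sub hgint hgTint, hchange, integral_add hSint hEint, hI1, hI2, hgE] at hle
  calc (1 - ((1 + τ) ^ (n + 1))⁻¹) * ∫ x in E, φ x =
        (∫ x in E, φ x) - ((1 + τ) ^ (n + 1))⁻¹ * ∫ x in E, φ x := by ring
    _ ≤ volume.real S + volume.real E * (τ * D) := hle
    _ = _ := by ring

end SA70
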