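import Pool.Agent.SA70.Basic
import Pool.Agent.SC70.Round

/-! LPs: the points with spread weights. -/

set_option autoImplicit false

open MeasureTheory Measure Metric Set Module ENNReal

namespace SA70

open SC70

namespace LPsx

theorem volE {n : ℕ} (w : EuclideanSpace ℝ (Fin (n + 1))) (s : ℝ) :
    volume {x : EuclideanSpace ℝ (Fin (n + 1)) | ‖x - w‖ ^ 2 ≤ 1 + s / ((n : ℝ) + 1)} ≤
      ENNReal.ofReal (Real.exp (s / 2) * kap (n + 1)) := by
  have hd : (0 : ℝ) < (n : ℝ) + 1 := by positivity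
  by_cases hneg : 1 + s / ((n : ℝ) + 1) < 0
  · have : {x : EuclideanSpace ℝ (Fin (n + 1)) | ‖x - w‖ ^ 2 ≤ 1 + s / ((n : ℝ) + 1)} = ∅ := by
      ext x
      simp only [mem_ofPred_eq, mem_empty_iff_false, iff_false, not_le]
      exact lt_of_lt_of_le hneg (sq_nonneg _)
    rw [this, measure_empty]
    exact zero_le
  have hc := not_lt.1 hneg
  have hsub : {x : EuclideanSpace ℝ (Fin (n + 1)) | ‖x - w‖ ^ 2 ≤ 1 + s / ((n : ℝ) + 1)} ⊆
      closedBall w (√(1 + s / ((n : ℝ) + 1))) := by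
    intro x hx
    rw [mem_closedBall, dist_eq_norm]
    exact Real.le_sqrt_of_sq_le hx
  refine (measure_mono hsub).trans ?_
  rw [addHaar_closedBall' volume w (Real.sqrt_nonneg _), finrank_euclideanSpace_fin, ← ofReal_kap,
    ← ENNReal.ofReal_mul (pow_nonneg (Real.sqrt_nonneg _) _)]
  refine ENNReal.ofReal_le_ofReal (mul_le_mul_of_nonneg_right ?_ (kap_nonneg _))
  have h1 : √(1 + s / ((n : ℝ) + 1)) ≤ Real.exp (s / ((n : ℝ) + 1) / 2) := by
    rw [Real.sqrt_le_left (Real.exp_pos _).le, ← Real.exp_nat_mul]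
    have : ((2 : ℕ) : ℝ) * (s / ((n : ℝ) + 1) / 2) = s / ((n : ℝ) + 1) := by
      push_cast
      ring
    rw [this, add_comm]
    exact Real.add_one_le_exp _
  refine (pow_le_pow_left₀ (Real.sqrt_nonneg _) h1 _).trans (le_of_eq ?_)
  rw [← Real.exp_nat_mul]
  congr 1
  push_cast
  field_simp

theorem deepE {n : ℕ} (W : Finset (EuclideanSpace ℝ (Fin (n + 1)))) (b : ℝ) :
    volume {x : EuclideanSpace ℝ (Fin (n + 1)) | ∃ w ∈ W, ‖x - w‖ ^ 2 < 1 - b / ((n : ℝ) + 1)} ≤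
      ENNReal.ofReal (Real.exp (-(b / 2)) * (W.card * kap (n + 1))) := by
  have hsub : {x : EuclideanSpace ℝ (Fin (n + 1)) | ∃ w ∈ W, ‖x - w‖ ^ 2 < 1 - b / ((n : ℝ) + 1)} ⊆
      ⋃ w ∈ W, {x : EuclideanSpace ℝ (Fin (n + 1)) | ‖x - w‖ ^ 2 ≤ 1 + (-b) / ((n : ℝ) + 1)} := by
    rintro x ⟨w, hw, hx⟩
    rw [mem_iUnion₂]
    refine ⟨w, hw, ?_⟩
    show ‖x - w‖ ^ 2 ≤ 1 + (-b) / ((n : ℝ) + 1)
    rw [neg_div, ← sub_eq_add_neg]
    exact hx.le
  refine (measure_mono hsub).trans ((measure_biUnion_finset_le W _).trans ?_)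
  refine (Finset.sum_le_sum (fun w _ => volE w (-b))).trans (le_of_eq ?_)
  rw [Finset.sum_const, nsmul_eq_mul, ← ENNReal.ofReal_natCast, ← ENNReal.ofReal_mul
    (Nat.cast_nonneg _)]
  congr 1
  rw [neg_div]
  ring

end LPsx

open LPsx

/-- `d = n + 1`. (i) `{x | ∃ w ∈ W, ‖x-w‖² < 1 - b/d}` has volume at most
`|W| (1-b/d)^(d/2) κ ≤ |W| exp(-b/2) κ`.
(ii) outside it `∑ lam_w (‖x-w‖² - 1 + b/d) ≤ (b+1)/d` with all terms `≥ 0`, so
`lam{w | ‖x-w‖² > 1 + (b+2)/d} ≤ (b+1)/(2b+2) = 1/2`, and if all `lam_w < u` at least `1/(2u)` of the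
`w ∈ W` have `‖x-w‖² ≤ 1 + (b+2)/d`; the set of these `x` has volume at most
`2u ∑_w V(closedBall w √(1+(b+2)/d)) ≤ 2u |W| exp((b+2)/2) κ`. -/
theorem spread_bound {n : ℕ} (C : Set (EuclideanSpace ℝ (Fin (n + 1))))
    (W : Finset (EuclideanSpace ℝ (Fin (n + 1)))) (hCc : IsCompact C)
    (lam : EuclideanSpace ℝ (Fin (n + 1)) → EuclideanSpace ℝ (Fin (n + 1)) → ℝ)
    (hm : ∀ w, Measurable (lam w)) (h0 : ∀ w x, 0 ≤ lam w x)
    (h1 : ∀ᵐ x, ∑ w ∈ W, lam w x = 1)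
    (h2 : ∀ᵐ x, x ∈ C → ∑ w ∈ W, lam w x * ‖x - w‖ ^ 2 ≤ 1 + 1 / ((n : ℝ) + 1))
    (u b : ℝ) (hu : 0 < u) (hb : 0 ≤ b) :
    volume.real {x | x ∈ C ∧ ∀ w ∈ W, lam w x < u} ≤
      (Real.exp (-(b / 2)) + 2 * u * Real.exp (b / 2 + 1)) * (W.card * kap (n + 1)) := by
  classical
  have hd : (0 : ℝ) < (n : ℝ) + 1 := by positivity
  obtain ⟨S, hS⟩ : ∃ S : EuclideanSpace ℝ (Fin (n + 1)) → Set (EuclideanSpace ℝ (Fin (n + 1))),
      ∀ w, S w = {x | ‖x - w‖ ^ 2 ≤ 1 + (b + 2) / ((n : ℝ) + 1)} := ⟨_, fun w => rfl⟩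
  have hSm : ∀ w, MeasurableSet (S w) := by
    intro w
    rw [hS]
    exact (isClosed_le (by fun_prop) continuous_const).measurableSet
  obtain ⟨f, hf⟩ : ∃ f : EuclideanSpace ℝ (Fin (n + 1)) → ℝ≥0∞,
      ∀ x, f x = ∑ w ∈ W, (S w).indicator 1 x := ⟨_, fun x => rfl⟩
  have hfm : Measurable f := by
    have : f = fun x => ∑ w ∈ W, (S w).indicator (1 : EuclideanSpace ℝ (Fin (n + 1)) → ℝ≥0∞) x :=
      funext hf
    rw [this]
    exact Finset.measurable_sum _ (fun w _ => measurable_one.indicator (hSm w))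
  have hfint : ∫⁻ x, f x = ∑ w ∈ W, volume (S w) := by
    have : f = fun x => ∑ w ∈ W, (S w).indicator (1 : EuclideanSpace ℝ (Fin (n + 1)) → ℝ≥0∞) x :=
      funext hf
    rw [this, lintegral_finsetSum _ (fun w _ => measurable_one.indicator (hSm w))]
    exact Finset.sum_congr rfl (fun w _ => lintegral_indicator_one (hSm w))
  have hfx : ∀ x, f x = ((W.filter (fun w => x ∈ S w)).card : ℝ≥0∞) := by
    intro x
    rw [hf, Finset.card_filter]
    push_cast
    refine Finset.sum_congr rfl (fun w _ => ?_)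
    by_cases hx : x ∈ S w
    · rw [indicator_of_mem hx, if_pos hx, Pi.one_apply]
    · rw [indicator_of_notMem hx, if_neg hx]
  obtain ⟨T, hT⟩ : ∃ T : Set (EuclideanSpace ℝ (Fin (n + 1))),
      T = {x | ENNReal.ofReal (1 / (2 * u)) ≤ f x} := ⟨_, rfl⟩
  obtain ⟨D, hD⟩ : ∃ D : Set (EuclideanSpace ℝ (Fin (n + 1))),
      D = {x | ∃ w ∈ W, ‖x - w‖ ^ 2 < 1 - b / ((n : ℝ) + 1)} := ⟨_, rfl⟩
  -- the key inclusion
  have hkey : ∀ᵐ x : EuclideanSpace ℝ (Fin (n + 1)),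
      x ∈ {x | x ∈ C ∧ ∀ w ∈ W, lam w x < u} → x ∈ D ∪ T := by
    filter_upwards [h1, h2] with x hx1 hx2
    rintro ⟨hxC, hxu⟩
    by_cases hxD : x ∈ D
    · exact Or.inl hxD
    right
    rw [hT]
    show ENNReal.ofReal (1 / (2 * u)) ≤ f x
    rw [hfx, ← ENNReal.ofReal_natCast]
    refine ENNReal.ofReal_le_ofReal ?_
    have hx2 := hx2 hxC
    have hlow : ∀ w ∈ W, 0 ≤ ‖x - w‖ ^ 2 - 1 + b / ((n : ℝ) + 1) := by
      intro w hw
      by_contra hcon
      apply hxD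
      rw [hD]
      exact ⟨w, hw, by linarith⟩
    -- the weight of the far centres
    have e1 : ∑ w ∈ W, lam w x * (‖x - w‖ ^ 2 - 1 + b / ((n : ℝ) + 1)) ≤
        (b + 1) / ((n : ℝ) + 1) := by
      have e2 : ∀ w, lam w x * (‖x - w‖ ^ 2 - 1 + b / ((n : ℝ) + 1)) =
          lam w x * ‖x - w‖ ^ 2 - lam w x * (1 - b / ((n : ℝ) + 1)) := fun w => by ring
      rw [Finset.sum_congr rfl (fun w _ => e2 w), Finset.sum_sub_distrib, ← Finset.sum_mul, hx1]
      rw [add_div]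
      linarith
    have e3 : (∑ w ∈ W.filter (fun w => ¬ x ∈ S w), lam w x) * ((2 * b + 2) / ((n : ℝ) + 1)) ≤
        (b + 1) / ((n : ℝ) + 1) := by
      refine le_trans ?_ e1
      rw [Finset.sum_mul]
      refine le_trans (Finset.sum_le_sum (fun w hw => ?_)) (Finset.sum_le_sum_of_subset_of_nonneg
        (Finset.filter_subset _ _) (fun w hw _ => mul_nonneg (h0 w x) (hlow w hw)))
      rw [Finset.mem_filter, hS] at hw
      have h5 : ¬ (‖x - w‖ ^ 2 ≤ 1 + (b + 2) / ((n : ℝ) + 1)) := hw.2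
      refine mul_le_mul_of_nonneg_left ?_ (h0 w x)
      have h6 : (2 * b + 2) / ((n : ℝ) + 1) = (b + 2) / ((n : ℝ) + 1) + b / ((n : ℝ) + 1) := by
        rw [← add_div]
        congr 1
        ring
      rw [h6]
      linarith
    have e4 : ∑ w ∈ W.filter (fun w => ¬ x ∈ S w), lam w x ≤ 1 / 2 := by
      have h7 : 0 < (b + 1) / ((n : ℝ) + 1) := by positivity
      have h8 : (2 * b + 2) / ((n : ℝ) + 1) = 2 * ((b + 1) / ((n : ℝ) + 1)) := by ring
      rw [h8] at e3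
      by_contra hcon
      have h9 := mul_lt_mul_of_pos_right (not_le.1 hcon) h7
      linarith
    have e5 : ∑ w ∈ W.filter (fun w => x ∈ S w), lam w x +
        ∑ w ∈ W.filter (fun w => ¬ x ∈ S w), lam w x = 1 := by
      rw [Finset.sum_filter_add_sum_filter_not, hx1]
    have e6 : ∑ w ∈ W.filter (fun w => x ∈ S w), lam w x ≤
        ((W.filter (fun w => x ∈ S w)).card : ℝ) * u := by
      rw [← nsmul_eq_mul, ← Finset.sum_const]
      exact Finset.sum_le_sum (fun w hw => (hxu w (Finset.mem_filter.1 hw).1).le)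
    rw [div_le_iff₀ (by positivity)]
    linarith
  have hle : volume {x | x ∈ C ∧ ∀ w ∈ W, lam w x < u} ≤ volume D + volume T :=
    (measure_mono_ae hkey).trans (measure_union_le _ _)
  have hDle : volume D ≤ ENNReal.ofReal (Real.exp (-(b / 2)) * (W.card * kap (n + 1))) := by
    rw [hD]
    exact deepE W b
  have hTle : volume T ≤ ENNReal.ofReal (2 * u * Real.exp (b / 2 + 1) * (W.card * kap (n + 1))) := by
    have h3 := mul_meas_ge_le_lintegral (μ := volume) hfm (ENNReal.ofReal (1 / (2 * u)))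
    rw [hfint, ← hT] at h3
    have h4 : ∑ w ∈ W, volume (S w) ≤
        ENNReal.ofReal (W.card * (Real.exp ((b + 2) / 2) * kap (n + 1))) := by
      have h5 : ∀ w ∈ W, volume (S w) ≤ ENNReal.ofReal (Real.exp ((b + 2) / 2) * kap (n + 1)) := by
        intro w _
        rw [hS]
        exact volE w (b + 2)
      refine (Finset.sum_le_sum h5).trans (le_of_eq ?_)
      rw [Finset.sum_const, nsmul_eq_mul, ← ENNReal.ofReal_natCast, ← ENNReal.ofReal_mul
        (Nat.cast_nonneg _)]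
    have h6 : volume T = ENNReal.ofReal (2 * u) * (ENNReal.ofReal (1 / (2 * u)) * volume T) := by
      rw [← mul_assoc, ← ENNReal.ofReal_mul (by positivity), mul_one_div_cancel (by positivity),
        ENNReal.ofReal_one, one_mul]
    rw [h6]
    refine (mul_le_mul_right (h3.trans h4) _).trans (le_of_eq ?_)
    rw [← ENNReal.ofReal_mul (by positivity)]
    congr 1
    rw [show b / 2 + 1 = (b + 2) / 2 by ring]
    ring
  rw [Measure.real]
  have hk := kap_nonneg (n + 1)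
  refine ENNReal.toReal_le_of_le_ofReal (by positivity) ?_
  refine hle.trans ((add_le_add hDle hTle).trans (le_of_eq ?_))
  rw [← ENNReal.ofReal_add (by positivity) (by positivity)]
  congr 1
  ring

/-- (i) alone -/
theorem deep_bound {n : ℕ} (W : Finset (EuclideanSpace ℝ (Fin (n + 1)))) (b : ℝ) (hb : 0 ≤ b) :
    volume.real {x : EuclideanSpace ℝ (Fin (n + 1)) | ∃ w ∈ W, ‖x - w‖ ^ 2 < 1 - b / ((n : ℝ) + 1)} ≤
      Real.exp (-(b / 2)) * (W.card * kap (n + 1)) := by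
  rw [Measure.real]
  have hk := kap_nonneg (n + 1)
  exact ENNReal.toReal_le_of_le_ofReal (by positivity) (deepE W b)

end SA70
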