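import Pool.Agent.SA70.LPb
import Pool.Agent.SA70.LPs
import Pool.Agent.SA70.FC
import Pool.Agent.SA70.FL
import Pool.Agent.SA70.M8

/-! FV: the part of `C` near fat centres has negligible volume. -/

set_option autoImplicit false

open MeasureTheory Measure Metric Set Module ENNReal

namespace SA70

open SC70 M7cAux

/-- the fat centres of `G` -/
noncomputable def fatC {n : ℕ} (c : ℝ) (G : Finset (EuclideanSpace ℝ (Fin (n + 1)))) :
    Finset (EuclideanSpace ℝ (Fin (n + 1))) := by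
  classical
  exact G.filter (fun w => Real.exp (c * ((n : ℝ) + 1)) ≤
    ((G.filter (fun w' => ‖w' - w‖ ≤ 3)).card : ℝ))

namespace FVAux

theorem exists_b (t : ℝ) (ht : 0 < t) : ∃ b : ℝ, 0 ≤ b ∧ Real.exp (-(b / 2)) ≤ t := by
  refine ⟨2 / t, by positivity, ?_⟩
  have h1 : -(2 / t / 2) = -(1 / t) := by ring
  rw [h1, Real.exp_neg]
  have h2 : 1 / t ≤ Real.exp (1 / t) := by linarith [Real.add_one_le_exp (1 / t)]
  rw [inv_le_comm₀ (Real.exp_pos _) ht, ← one_div]
  exact h2

/-- at most `1/v` of the weights are `≥ v` -/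
theorem count_le {n : ℕ} (C : Set (EuclideanSpace ℝ (Fin (n + 1)))) (hCc : IsCompact C)
    (W : Finset (EuclideanSpace ℝ (Fin (n + 1))))
    (lam : EuclideanSpace ℝ (Fin (n + 1)) → EuclideanSpace ℝ (Fin (n + 1)) → ℝ)
    (hm : ∀ w, Measurable (lam w)) (h0 : ∀ w x, 0 ≤ lam w x)
    (h1 : ∀ᵐ x, ∑ w ∈ W, lam w x = 1) (v : ℝ) (hv : 0 < v)
    (B : Set (EuclideanSpace ℝ (Fin (n + 1)))) :
    ∑ w ∈ W, volume.real ({x | x ∈ C ∧ v ≤ lam w x} ∩ B) ≤ volume.real (C ∩ B) / v := by
  have hCfin : volume (C ∩ B) ≠ ⊤ :=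
    ((measure_mono inter_subset_left).trans_lt hCc.measure_lt_top).ne
  have hfin : ∀ w, volume ({x | x ∈ C ∧ v ≤ lam w x} ∩ B) ≠ ⊤ := fun w =>
    ((measure_mono (fun x hx => ⟨hx.1.1, hx.2⟩ : {x | x ∈ C ∧ v ≤ lam w x} ∩ B ⊆ C ∩ B)).trans_lt
      hCfin.lt_top).ne
  have key : ∑ w ∈ W, ENNReal.ofReal v * volume ({x | x ∈ C ∧ v ≤ lam w x} ∩ B) ≤
      volume (C ∩ B) := by
    calc ∑ w ∈ W, ENNReal.ofReal v * volume ({x | x ∈ C ∧ v ≤ lam w x} ∩ B)
        ≤ ∑ w ∈ W, ∫⁻ x in C ∩ B, ENNReal.ofReal (lam w x) := by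
          refine Finset.sum_le_sum fun w _ => ?_
          have h2 : volume ({x | x ∈ C ∧ v ≤ lam w x} ∩ B) ≤
              (volume.restrict (C ∩ B)) {x | ENNReal.ofReal v ≤ ENNReal.ofReal (lam w x)} := by
            rw [Measure.restrict_apply (measurableSet_le measurable_const (hm w).ennreal_ofReal)]
            refine measure_mono fun x hx => ⟨ENNReal.ofReal_le_ofReal hx.1.2, hx.1.1, hx.2⟩
          exact (mul_le_mul_right h2 _).trans
            (mul_meas_ge_le_lintegral (hm w).ennreal_ofReal (ENNReal.ofReal v))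
      _ = ∫⁻ x in C ∩ B, ∑ w ∈ W, ENNReal.ofReal (lam w x) :=
          (lintegral_finset_sum W (fun w _ => (hm w).ennreal_ofReal)).symm
      _ = ∫⁻ x in C ∩ B, 1 := by
          refine lintegral_congr_ae (ae_restrict_of_ae (h1.mono fun x hx => ?_))
          simp only
          rw [← ENNReal.ofReal_sum_of_nonneg (fun w _ => h0 w x), hx, ENNReal.ofReal_one]
      _ = volume (C ∩ B) := by rw [setLIntegral_one]
  have h2 := ENNReal.toReal_mono hCfin key
  rw [ENNReal.toReal_sum (fun w _ => ENNReal.mul_ne_top ENNReal.ofReal_ne_top (hfin w))] at h2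
  rw [le_div_iff₀ hv, Finset.sum_mul]
  refine le_trans (le_of_eq ?_) h2
  refine Finset.sum_congr rfl fun w _ => ?_
  rw [ENNReal.toReal_mul, ENNReal.toReal_ofReal hv.le, measureReal_def]
  ring

theorem clamp (a b : ℝ) : |max 0 (min 1 (3 - a)) - max 0 (min 1 (3 - b))| ≤ |a - b| := by
  have h1 := abs_max_sub_max_le_abs (min 1 (3 - a)) (min 1 (3 - b)) 0
  have h2 := abs_min_sub_min_le_max 1 (3 - a) 1 (3 - b)
  rw [sub_self, abs_zero, max_eq_right (abs_nonneg _)] at h2
  have h3 : 3 - a - (3 - b) = b - a := by ring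
  rw [h3, abs_sub_comm b a] at h2
  rw [max_comm 0, max_comm 0]
  exact h1.trans h2

end FVAux

open FVAux

theorem fat_vol (ε c η : ℝ) (hε : 0 < ε) (hε1 : ε ≤ 1) (hc : 0 < c) (hη : 0 < η) :
    ∃ d₀ : ℕ, ∀ n : ℕ, d₀ ≤ n →
      ∀ (C : Set (EuclideanSpace ℝ (Fin (n + 1)))) (W G : Finset (EuclideanSpace ℝ (Fin (n + 1)))),
      Convex ℝ C → IsCompact C → (∀ w ∈ W, w ∈ C) → C ⊆ ⋃ w ∈ W, closedBall w 1 → G ⊆ W →
      (∀ w ∈ G, η * kap (n + 1) ≤ volume.real (C ∩ Vor W w)) →
      volume.real (C ∩ ⋃ w ∈ fatC c G, closedBall w 1) ≤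
        ε * (W.card * kap (n + 1) + volume.real C) := by
  classical
  obtain ⟨b₁, hb₁0, hb₁⟩ := exists_b (ε / 16) (by positivity)
  obtain ⟨u, hu⟩ : ∃ u : ℝ, u = min 1 (ε / (32 * Real.exp (b₁ / 2 + 1))) := ⟨_, rfl⟩
  have hu0 : 0 < u := by rw [hu]; exact lt_min one_pos (by positivity)
  have hu1 : u ≤ 1 := by rw [hu]; exact min_le_left _ _
  have hub : 2 * u * Real.exp (b₁ / 2 + 1) ≤ ε / 16 := by
    have h1 : u ≤ ε / (32 * Real.exp (b₁ / 2 + 1)) := by rw [hu]; exact min_le_right _ _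
    rw [le_div_iff₀ (by positivity)] at h1
    linarith
  obtain ⟨b₂, hb₂0, hb₂⟩ := exists_b (ε * u / 64) (by positivity)
  obtain ⟨a, ha⟩ : ∃ a : ℝ, a = 2 * (b₂ + 1) / u := ⟨_, rfl⟩
  have ha0 : 0 ≤ a := by rw [ha]; positivity
  obtain ⟨d₁, hfat⟩ := fat_center_r c η (ε / 32) a hc hη (by positivity) ha0
  obtain ⟨K, hK⟩ : ∃ K : ℝ, K = 2 / u * (64 / (u * ε) + 1) + 64 * (4 / u + 1) / (u * ε) + a :=
    ⟨_, rfl⟩
  refine ⟨max d₁ ⌈K⌉₊, fun n hn C W G hconv hCc hWC hcov hGW hG => ?_⟩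
  have hn1 : d₁ ≤ n := (le_max_left _ _).trans hn
  have hdK : K ≤ (n : ℝ) + 1 := by
    have h1 : ⌈K⌉₊ ≤ n := (le_max_right _ _).trans hn
    have h2 : (⌈K⌉₊ : ℝ) ≤ n := by exact_mod_cast h1
    linarith [Nat.le_ceil K]
  have hK1 : 0 ≤ 2 / u * (64 / (u * ε) + 1) := by positivity
  have hK2 : 0 ≤ 64 * (4 / u + 1) / (u * ε) := by positivity
  have hd : (0 : ℝ) < (n : ℝ) + 1 := by positivity
  have hκ := kap_pos (n + 1)
  have hVC : 0 ≤ volume.real C := measureReal_nonneg
  have hRHS : 0 ≤ ε * (W.card * kap (n + 1) + volume.real C) := by positivity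
  rcases (fatC c G).eq_empty_or_nonempty with hfe | hfne
  · rw [hfe]
    simpa using hRHS
  have hne : C.Nonempty := by
    obtain ⟨w, hw⟩ := hfne
    have hw' := hw
    simp only [fatC, Finset.mem_filter] at hw'
    exact ⟨w, hWC w (hGW hw'.1)⟩
  obtain ⟨τ, hτ⟩ : ∃ τ : ℝ, τ = 1 / ((n : ℝ) + 1) := ⟨_, rfl⟩
  have hτ0 : 0 < τ := by rw [hτ]; positivity
  have hτd : τ * ((n : ℝ) + 1) = 1 := by rw [hτ]; field_simp
  obtain ⟨lam, hm, h0, h1, h2, h3⟩ := lp_weights C W hconv hCc hne hcov τ hτ0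
  -- the sets
  obtain ⟨E, hE⟩ : ∃ E : EuclideanSpace ℝ (Fin (n + 1)) → ℝ → Set (EuclideanSpace ℝ (Fin (n + 1))),
      ∀ w v, E w v = {x | x ∈ C ∧ v ≤ lam w x} := ⟨_, fun _ _ => rfl⟩
  have hEm : ∀ w v, MeasurableSet (E w v) := fun w v => by
    rw [hE]; exact hCc.measurableSet.inter (measurableSet_le measurable_const (hm w))
  have hEC : ∀ w v, E w v ⊆ C := fun w v x hx => by rw [hE] at hx; exact hx.1
  have hEfin : ∀ w v, volume (E w v) ≠ ⊤ := fun w v =>
    ((measure_mono (hEC w v)).trans_lt hCc.measure_lt_top).ne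
  have hcount : ∀ v, 0 < v → ∑ w ∈ W, volume.real (E w v) ≤ volume.real C / v := by
    intro v hv
    have := count_le C hCc W lam hm h0 h1 v hv univ
    simpa only [inter_univ, ← hE] using this
  -- pigeonhole
  obtain ⟨J, hJ⟩ : ∃ J : ℕ, J = ⌊u * ((n : ℝ) + 1) / 2⌋₊ := ⟨_, rfl⟩
  have hJ1 : (J : ℝ) ≤ u * ((n : ℝ) + 1) / 2 := by rw [hJ]; exact Nat.floor_le (by positivity)
  have hJ2 : 64 / (u * ε) ≤ J := by
    have h4 : u * ((n : ℝ) + 1) / 2 < (J : ℝ) + 1 := by rw [hJ]; exact Nat.lt_floor_add_one _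
    have h5 : 2 / u * (64 / (u * ε) + 1) ≤ (n : ℝ) + 1 := by linarith
    have h6 : 64 / (u * ε) + 1 ≤ u * ((n : ℝ) + 1) / 2 := by
      have h7 := mul_le_mul_of_nonneg_left h5 (show (0 : ℝ) ≤ u / 2 by positivity)
      have h8 : u / 2 * (2 / u * (64 / (u * ε) + 1)) = 64 / (u * ε) + 1 := by field_simp
      linarith
    linarith
  have hJ0 : (0 : ℝ) < J := lt_of_lt_of_le (by positivity) hJ2
  have hJpos : 0 < J := by exact_mod_cast hJ0
  obtain ⟨M, hM⟩ : ∃ M : ℝ → ℝ, ∀ v, M v = ∑ w ∈ W, volume.real (E w v) := ⟨_, fun _ => rfl⟩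
  have hM0 : ∀ v, 0 ≤ M v := fun v => by
    rw [hM]; exact Finset.sum_nonneg fun _ _ => measureReal_nonneg
  obtain ⟨v, hv1, hv2, hv3⟩ : ∃ v : ℝ, u / 2 ≤ v ∧ v ≤ u ∧
      M v - M (v + τ) ≤ ε / 32 * volume.real C := by
    have hsum : ∑ j ∈ Finset.range J, (M (u / 2 + j * τ) - M (u / 2 + (j + 1 : ℕ) * τ)) ≤
        ∑ j ∈ Finset.range J, ε / 32 * volume.real C := by
      rw [Finset.sum_range_sub' (fun j : ℕ => M (u / 2 + j * τ)), Finset.sum_const,
        Finset.card_range, nsmul_eq_mul]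
      have h4 : M (u / 2 + (0 : ℕ) * τ) ≤ volume.real C / (u / 2) := by
        rw [Nat.cast_zero, zero_mul, add_zero, hM]
        exact hcount _ (by positivity)
      have h5 : volume.real C / (u / 2) ≤ J * (ε / 32 * volume.real C) := by
        rw [div_le_iff₀ (by positivity)]
        rw [div_le_iff₀ (by positivity)] at hJ2
        nlinarith
      linarith [hM0 (u / 2 + (J : ℕ) * τ)]
    obtain ⟨j, hj, hjle⟩ := Finset.exists_le_of_sum_le
      (Finset.nonempty_range_iff.2 hJpos.ne') hsum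
    refine ⟨u / 2 + j * τ, by nlinarith [(Nat.cast_nonneg j : (0 : ℝ) ≤ j)], ?_, ?_⟩
    · have h4 : (j : ℝ) ≤ J := by exact_mod_cast (Finset.mem_range.1 hj).le
      have h5 : (j : ℝ) * τ ≤ u / 2 := by
        calc (j : ℝ) * τ ≤ (u * ((n : ℝ) + 1) / 2) * τ := by
              exact mul_le_mul_of_nonneg_right (h4.trans hJ1) hτ0.le
          _ = u / 2 * (τ * ((n : ℝ) + 1)) := by ring
          _ = u / 2 := by rw [hτd, mul_one]
      linarith
    · have h4 : u / 2 + (j : ℝ) * τ + τ = u / 2 + (j + 1 : ℕ) * τ := by push_cast; ring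
      rw [h4]; exact hjle
  have hv0 : 0 < v := by linarith
  -- the cutoff
  have hFne : (↑(fatC c G) : Set (EuclideanSpace ℝ (Fin (n + 1)))).Nonempty := hfne
  obtain ⟨φ, hφ⟩ : ∃ φ : EuclideanSpace ℝ (Fin (n + 1)) → ℝ, ∀ x, φ x =
      max 0 (min 1 (3 - infDist x (↑(fatC c G) : Set (EuclideanSpace ℝ (Fin (n + 1)))))) :=
    ⟨_, fun _ => rfl⟩
  have hφ0 : ∀ x, 0 ≤ φ x := fun x => by rw [hφ]; exact le_max_left _ _
  have hφ1 : ∀ x, φ x ≤ 1 := fun x => by
    rw [hφ]; exact max_le zero_le_one (min_le_left _ _)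
  have hφL : ∀ x y, |φ x - φ y| ≤ ‖x - y‖ := by
    intro x y
    rw [hφ, hφ]
    refine (clamp _ _).trans ?_
    have := (Metric.lipschitz_infDist_pt
      (↑(fatC c G) : Set (EuclideanSpace ℝ (Fin (n + 1))))).dist_le_mul x y
    rw [Real.dist_eq, dist_eq_norm, NNReal.coe_one, one_mul] at this
    exact this
  have hφc : Continuous φ := by
    have : φ = fun x => max 0 (min 1 (3 - infDist x
        (↑(fatC c G) : Set (EuclideanSpace ℝ (Fin (n + 1)))))) := funext hφ
    rw [this]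
    exact continuous_const.max (continuous_const.min (continuous_const.sub
      (Metric.continuous_infDist_pt _)))
  -- the deep set
  obtain ⟨B, hB⟩ : ∃ B : Set (EuclideanSpace ℝ (Fin (n + 1))),
      B = {x | ∃ w ∈ W, ‖x - w‖ ^ 2 < 1 - b₂ / ((n : ℝ) + 1)} := ⟨_, rfl⟩
  have hBV : volume.real B ≤ Real.exp (-(b₂ / 2)) * (W.card * kap (n + 1)) := by
    rw [hB]; exact deep_bound W b₂ hb₂0
  have hBfin : volume B ≠ ⊤ := by
    have h4 : B ⊆ ⋃ w ∈ W, closedBall w 1 := by
      intro x hx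
      rw [hB] at hx
      obtain ⟨w, hw, h5⟩ := hx
      refine mem_iUnion₂.2 ⟨w, hw, ?_⟩
      rw [mem_closedBall, dist_eq_norm]
      have h6 : 0 ≤ b₂ / ((n : ℝ) + 1) := by positivity
      nlinarith [norm_nonneg (x - w)]
    refine ((measure_mono h4).trans_lt ?_).ne
    refine (measure_biUnion_finset_le _ _).trans_lt ?_
    exact ENNReal.sum_lt_top.2 fun w _ => measure_closedBall_lt_top
  -- one centre
  obtain ⟨D, hD⟩ : ∃ D : ℝ, D = 4 / u + 1 := ⟨_, rfl⟩
  have hone : ∀ w ∈ W, ∫ x in E w v, φ x ≤ 2 * ((volume.real (E w v ∩ B) + ε / 32 * kap (n + 1)) +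
      (volume.real (E w v) - volume.real (E w (v + τ))) + τ * D * volume.real (E w v)) := by
    intro w hw
    have hDae : ∀ᵐ x, x ∈ E w v → ‖x - w‖ ≤ D := by
      filter_upwards [h2] with x hx hxE
      rw [hE] at hxE
      have h4 := hx hxE.1
      have h5 : lam w x * ‖x - w‖ ^ 2 ≤ ∑ w ∈ W, lam w x * ‖x - w‖ ^ 2 :=
        Finset.single_le_sum (f := fun w => lam w x * ‖x - w‖ ^ 2)
          (fun w _ => mul_nonneg (h0 w x) (sq_nonneg _)) hw
      have hτ1 : τ ≤ 1 := by
        rw [hτ, div_le_one hd]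
        linarith [(Nat.cast_nonneg n : (0 : ℝ) ≤ n)]
      have h6 : u / 2 * ‖x - w‖ ^ 2 ≤ 2 := by
        have h7 := mul_le_mul_of_nonneg_right (hv1.trans hxE.2) (sq_nonneg ‖x - w‖)
        linarith
      have h7 : ‖x - w‖ ^ 2 ≤ 4 / u := by
        rw [le_div_iff₀ hu0]; linarith
      rw [hD]
      nlinarith [sq_nonneg (‖x - w‖ - 1)]
    have hfl := flux_one (E w v) (hEm w v) (hCc.isBounded.subset (hEC w v)) w τ D hτ0 hDae φ
      hφ0 hφ1 hφL
    have hhalf : (1 : ℝ) / 2 ≤ 1 - ((1 + τ) ^ (n + 1))⁻¹ := by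
      have h4 := one_add_mul_le_pow (show (-2 : ℝ) ≤ τ by linarith) (n + 1)
      push_cast at h4
      have h5 : (2 : ℝ) ≤ (1 + τ) ^ (n + 1) := by linarith
      have h6 : ((1 + τ) ^ (n + 1))⁻¹ ≤ (2 : ℝ)⁻¹ := inv_anti₀ (by norm_num) h5
      linarith
    have hInt0 : 0 ≤ ∫ x in E w v, φ x := integral_nonneg hφ0
    -- the exits
    have hex : volume.real {x | x ∈ E w v ∧ w + (1 + τ) • (x - w) ∉ E w v ∧ 0 < φ x} ≤
        (volume.real (E w v ∩ B) + ε / 32 * kap (n + 1)) +
          (volume.real (E w v) - volume.real (E w (v + τ))) := by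
      obtain ⟨Q, hQ⟩ : ∃ Q : Set (EuclideanSpace ℝ (Fin (n + 1))),
          Q = {x | x ∈ E w v ∧ x ∉ B ∧ w + (1 + τ) • (x - w) ∉ C ∧ 0 < φ x} := ⟨_, rfl⟩
      have hQae : ∀ᵐ x, x ∈ Q → ‖x - w‖ ^ 2 ≤ 1 + a / ((n : ℝ) + 1) := by
        filter_upwards [h1, h2] with x hx1 hx2 hxQ
        rw [hQ, hE, hB] at hxQ
        obtain ⟨⟨hxC, hxv⟩, hxB, -, -⟩ := hxQ
        simp only [mem_ofPred_eq, not_exists, not_and, not_lt] at hxB
        have h4 : ∑ w' ∈ W, lam w' x * (‖x - w'‖ ^ 2 - (1 - b₂ / ((n : ℝ) + 1))) ≤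
            (b₂ + 1) / ((n : ℝ) + 1) := by
          have h5 : ∑ w' ∈ W, lam w' x * (‖x - w'‖ ^ 2 - (1 - b₂ / ((n : ℝ) + 1))) =
              ∑ w' ∈ W, lam w' x * ‖x - w'‖ ^ 2 -
                (∑ w' ∈ W, lam w' x) * (1 - b₂ / ((n : ℝ) + 1)) := by
            rw [Finset.sum_mul, ← Finset.sum_sub_distrib]
            exact Finset.sum_congr rfl fun _ _ => by ring
          rw [h5, hx1, add_div]
          have := hx2 hxC
          rw [hτ] at this
          linarith
        have h5 : lam w x * (‖x - w‖ ^ 2 - (1 - b₂ / ((n : ℝ) + 1))) ≤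
            ∑ w' ∈ W, lam w' x * (‖x - w'‖ ^ 2 - (1 - b₂ / ((n : ℝ) + 1))) :=
          Finset.single_le_sum (f := fun w' => lam w' x * (‖x - w'‖ ^ 2 - (1 - b₂ / ((n : ℝ) + 1))))
            (fun w' hw' => mul_nonneg (h0 w' x) (by linarith [hxB w' hw'])) hw
        have h6 : 0 ≤ ‖x - w‖ ^ 2 - (1 - b₂ / ((n : ℝ) + 1)) := by linarith [hxB w hw]
        have h7 : u / 2 * (‖x - w‖ ^ 2 - (1 - b₂ / ((n : ℝ) + 1))) ≤ (b₂ + 1) / ((n : ℝ) + 1) :=
          (mul_le_mul_of_nonneg_right (hv1.trans hxv) h6).trans (h5.trans h4)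
        have h8 : ‖x - w‖ ^ 2 - (1 - b₂ / ((n : ℝ) + 1)) ≤ a / ((n : ℝ) + 1) := by
          have h9 : a / ((n : ℝ) + 1) = 2 / u * ((b₂ + 1) / ((n : ℝ) + 1)) := by
            rw [ha]; field_simp
          rw [h9]
          have h10 := mul_le_mul_of_nonneg_left h7 (show (0 : ℝ) ≤ 2 / u by positivity)
          have h11 : 2 / u * (u / 2 * (‖x - w‖ ^ 2 - (1 - b₂ / ((n : ℝ) + 1)))) =
              ‖x - w‖ ^ 2 - (1 - b₂ / ((n : ℝ) + 1)) := by field_simp
          linarith
        have h9 : 0 ≤ b₂ / ((n : ℝ) + 1) := by positivity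
        linarith
      have hQV : volume.real Q ≤ ε / 32 * kap (n + 1) := by
        by_cases hf : Real.exp (c * ((n : ℝ) + 1)) ≤ ((G.filter (fun w' => ‖w' - w‖ ≤ 8)).card : ℝ)
        · have h4 := hfat n hn1 C hconv hCc w (hWC w hw) τ hτ0 (le_of_eq hτ)
            (G.filter (fun w' => ‖w' - w‖ ≤ 8)) (fun w' => C ∩ Vor W w')
            (fun w' _ => hCc.measurableSet.inter (vor_closed W w').measurableSet)
            (fun w' _ x hx => ⟨hx.1, cell_sub hcov w' hx⟩)
            (fun w₁ hw₁ w₂ hw₂ hne' => measure_mono_null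
              (inter_subset_inter inter_subset_right inter_subset_right)
              (vor_inter W w₁ w₂ (hGW (Finset.mem_filter.1 hw₁).1)
                (hGW (Finset.mem_filter.1 hw₂).1) hne'))
            (fun w' hw' => hG w' (Finset.mem_filter.1 hw').1)
            (fun w' hw' => (Finset.mem_filter.1 hw').2) hf
          refine le_trans ?_ h4
          rw [measureReal_def, measureReal_def]
          refine ENNReal.toReal_mono ((measure_mono (fun x hx => hx.1)).trans_lt
            hCc.measure_lt_top).ne (measure_mono_ae ?_)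
          filter_upwards [hQae] with x hx hxQ
          have h5 := hx hxQ
          have hxQ' : x ∈ Q := hxQ
          rw [hQ] at hxQ'
          exact ⟨hEC w v hxQ'.1, h5, hxQ'.2.2.1⟩
        · have h4 : volume Q = 0 := by
            rw [← compl_compl Q, ← mem_ae_iff]
            filter_upwards [hQae] with x hx hxQ
            apply hf
            have h5 := hx hxQ
            have hxQ' : x ∈ Q := hxQ
            rw [hQ] at hxQ'
            have h6 := hxQ'.2.2.2
            rw [hφ, lt_max_iff] at h6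
            have h7 : 0 < 3 - infDist x (↑(fatC c G) : Set (EuclideanSpace ℝ (Fin (n + 1)))) := by
              rcases h6 with h6 | h6
              · exact absurd h6 (lt_irrefl _)
              · exact (lt_min_iff.1 h6).2
            obtain ⟨w₁, hw₁, h8⟩ := (Metric.infDist_lt_iff hFne).1 (show infDist x _ < 3 by linarith)
            have hw₁' := Finset.mem_coe.1 hw₁
            simp only [fatC, Finset.mem_filter] at hw₁'
            refine hw₁'.2.trans ?_
            have h9 : G.filter (fun w' => ‖w' - w₁‖ ≤ 3) ⊆ G.filter (fun w' => ‖w' - w‖ ≤ 8) := by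
              intro w' hw'
              rw [Finset.mem_filter] at hw' ⊢
              refine ⟨hw'.1, ?_⟩
              have h10 : ‖x - w‖ ≤ 2 := by
                have h11 : a / ((n : ℝ) + 1) ≤ 1 := by
                  rw [div_le_one hd]; linarith
                nlinarith [norm_nonneg (x - w)]
              rw [dist_eq_norm] at h8
              have h12 : w' - w = (w' - w₁) + (w₁ - x) + (x - w) := by abel
              rw [h12]
              refine (norm_add_le _ _).trans ?_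
              have h13 := norm_add_le (w' - w₁) (w₁ - x)
              rw [norm_sub_rev w₁ x] at h13
              linarith [hw'.2]
            exact_mod_cast Finset.card_le_card h9
          rw [measureReal_def, h4, ENNReal.toReal_zero]
          positivity
      -- the crossing
      have hsub : E w (v + τ) ⊆ E w v := by
        intro x hx
        rw [hE] at hx ⊢
        exact ⟨hx.1, by linarith [hx.2]⟩
      have hdiff : volume.real (E w v \ E w (v + τ)) =
          volume.real (E w v) - volume.real (E w (v + τ)) := by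
        rw [measureReal_sdiff hsub (hEm w (v + τ)) (hEfin w v)]
      have hcover : ∀ᵐ x, x ∈ {x | x ∈ E w v ∧ w + (1 + τ) • (x - w) ∉ E w v ∧ 0 < φ x} →
          x ∈ (E w v ∩ B) ∪ (Q ∪ (E w v \ E w (v + τ))) := by
        filter_upwards [h3 w hw τ hτ0] with x hx hxS
        obtain ⟨hx1, hx2, hx3⟩ := hxS
        by_cases hxB : x ∈ B
        · exact Or.inl ⟨hx1, hxB⟩
        · right
          by_cases hyC : w + (1 + τ) • (x - w) ∈ C
          · right
            refine ⟨hx1, fun hx4 => hx2 ?_⟩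
            rw [hE] at hx4 ⊢
            refine ⟨hyC, ?_⟩
            have h4 := hx4.2
            nlinarith
          · left
            rw [hQ]
            exact ⟨hx1, hxB, hyC, hx3⟩
      have hfinU : volume ((E w v ∩ B) ∪ (Q ∪ (E w v \ E w (v + τ)))) ≠ ⊤ := by
        refine ((measure_mono (t := C) ?_).trans_lt hCc.measure_lt_top).ne
        rintro x (hx | hx | hx)
        · exact hEC w v hx.1
        · rw [hQ] at hx; exact hEC w v hx.1
        · exact hEC w v hx.1
      have h4 : volume.real {x | x ∈ E w v ∧ w + (1 + τ) • (x - w) ∉ E w v ∧ 0 < φ x} ≤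
          volume.real ((E w v ∩ B) ∪ (Q ∪ (E w v \ E w (v + τ)))) := by
        rw [measureReal_def, measureReal_def]
        exact ENNReal.toReal_mono hfinU (measure_mono_ae hcover)
      refine h4.trans ((measureReal_union_le _ _).trans ?_)
      have h5 := measureReal_union_le (μ := volume) Q (E w v \ E w (v + τ))
      rw [hdiff] at h5
      linarith
    nlinarith
  -- the covered part
  obtain ⟨U, hU⟩ : ∃ U : Set (EuclideanSpace ℝ (Fin (n + 1))),
      U = ⋃ w ∈ fatC c G, closedBall w 1 := ⟨_, rfl⟩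
  have hUm : MeasurableSet U := by
    rw [hU]; exact Finset.measurableSet_biUnion _ fun w _ => isClosed_closedBall.measurableSet
  have hUφ : ∀ x ∈ U, φ x = 1 := by
    intro x hx
    rw [hU] at hx
    obtain ⟨w, hw, hxw⟩ := mem_iUnion₂.1 hx
    have h4 : infDist x (↑(fatC c G) : Set (EuclideanSpace ℝ (Fin (n + 1)))) ≤ dist x w :=
      Metric.infDist_le_dist_of_mem (Finset.mem_coe.2 hw)
    rw [mem_closedBall] at hxw
    rw [hφ, min_eq_left (by linarith), max_eq_right zero_le_one]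
  have hEU : ∀ w ∈ W, volume.real (E w v ∩ U) ≤ ∫ x in E w v, φ x := by
    intro w _
    have hint : IntegrableOn φ (E w v) := by
      refine Measure.integrableOn_of_bounded (M := 1) (hEfin w v) hφc.aestronglyMeasurable ?_
      exact Filter.Eventually.of_forall fun x => by
        rw [Real.norm_of_nonneg (hφ0 x)]; exact hφ1 x
    have h4 : ∫ x in E w v ∩ U, φ x = volume.real (E w v ∩ U) := by
      rw [setIntegral_congr_fun ((hEm w v).inter hUm) (g := fun _ => (1 : ℝ))
        (fun x hx => hUφ x hx.2)]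
      simp
    rw [← h4]
    exact setIntegral_mono_set hint (Filter.Eventually.of_forall hφ0)
      (Filter.Eventually.of_forall fun x hx => hx.1)
  rw [← hU]
  -- the spread part
  obtain ⟨R, hR⟩ : ∃ R : Set (EuclideanSpace ℝ (Fin (n + 1))),
      R = {x | x ∈ C ∧ ∀ w ∈ W, lam w x < u} := ⟨_, rfl⟩
  have hRV : volume.real R ≤ ε / 8 * (W.card * kap (n + 1)) := by
    have h4 := spread_bound C W hCc lam hm h0 h1 (by rw [← hτ]; exact h2) u b₁ hu0 hb₁0
    rw [← hR] at h4
    refine h4.trans ?_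
    refine mul_le_mul_of_nonneg_right (by linarith) (by positivity)
  have hcovU : C ∩ U ⊆ R ∪ ⋃ w ∈ W, (E w v ∩ U) := by
    intro x hx
    by_cases h4 : ∀ w ∈ W, lam w x < u
    · left; rw [hR]; exact ⟨hx.1, h4⟩
    · right
      push Not at h4
      obtain ⟨w, hw, h5⟩ := h4
      refine mem_iUnion₂.2 ⟨w, hw, ?_, hx.2⟩
      rw [hE]
      exact ⟨hx.1, hv2.trans h5⟩
  have hfinRU : volume (R ∪ ⋃ w ∈ W, (E w v ∩ U)) ≠ ⊤ := by
    refine ((measure_mono (t := C) ?_).trans_lt hCc.measure_lt_top).ne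
    refine union_subset (fun x hx => by rw [hR] at hx; exact hx.1)
      (iUnion₂_subset fun w _ x hx => hEC w v hx.1)
  have hmain : volume.real (C ∩ U) ≤ ε / 8 * (W.card * kap (n + 1)) +
      ∑ w ∈ W, ∫ x in E w v, φ x := by
    refine (measureReal_mono hcovU hfinRU).trans ((measureReal_union_le _ _).trans ?_)
    refine add_le_add hRV ((measureReal_biUnion_finset_le _ _).trans ?_)
    exact Finset.sum_le_sum hEU
  refine hmain.trans ?_
  -- the sum
  have hS := Finset.sum_le_sum hone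
  rw [← Finset.mul_sum, Finset.sum_add_distrib, Finset.sum_add_distrib, Finset.sum_add_distrib,
    Finset.sum_sub_distrib, Finset.sum_const, nsmul_eq_mul, ← Finset.mul_sum, ← hM, ← hM] at hS
  have hS1 : ∑ w ∈ W, volume.real (E w v ∩ B) ≤ ε / 32 * (W.card * kap (n + 1)) := by
    have h4 := count_le C hCc W lam hm h0 h1 v hv0 B
    simp only [← hE] at h4
    refine h4.trans ?_
    rw [div_le_iff₀ hv0]
    have h5 : volume.real (C ∩ B) ≤ volume.real B := measureReal_mono inter_subset_right hBfin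
    have h6 : Real.exp (-(b₂ / 2)) * (W.card * kap (n + 1)) ≤
        ε * u / 64 * (W.card * kap (n + 1)) := mul_le_mul_of_nonneg_right hb₂ (by positivity)
    have h7 : 0 ≤ ε / 32 * (W.card * kap (n + 1)) := by positivity
    nlinarith
  have hS2 : τ * D * M v ≤ ε / 32 * volume.real C := by
    have h4 : M v ≤ volume.real C / (u / 2) := by
      rw [hM]
      refine (hcount v hv0).trans ?_
      exact div_le_div_of_nonneg_left hVC (by positivity) hv1
    have h5 : τ * D * (2 / u) ≤ ε / 32 := by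
      have h6 : 64 * (4 / u + 1) / (u * ε) ≤ (n : ℝ) + 1 := by linarith
      rw [div_le_iff₀ (by positivity)] at h6
      rw [hD]
      have h7 := mul_le_mul_of_nonneg_left h6 hτ0.le
      have h8 : τ * (((n : ℝ) + 1) * (u * ε)) = u * ε := by rw [← mul_assoc, hτd, one_mul]
      rw [h8] at h7
      have h9 : τ * (4 / u + 1) * (2 / u) = (τ * (64 * (4 / u + 1))) / (32 * u) := by
        field_simp
        ring
      rw [h9, div_le_div_iff₀ (by positivity) (by norm_num)]
      nlinarith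
    calc τ * D * M v ≤ τ * D * (volume.real C / (u / 2)) :=
          mul_le_mul_of_nonneg_left h4 (by rw [hD]; positivity)
      _ = τ * D * (2 / u) * volume.real C := by field_simp
      _ ≤ ε / 32 * volume.real C := mul_le_mul_of_nonneg_right h5 hVC
  have hWκ : 0 ≤ ε * (W.card * kap (n + 1)) := by positivity
  have hCε : 0 ≤ ε * volume.real C := by positivity
  nlinarith

end SA70
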