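import Pool.Agent.SA70.Basic

/-! FrA: a frame adapted to a subspace. -/

set_option autoImplicit false

open MeasureTheory Measure Metric Set Module ENNReal

namespace SA70

open SC70

/-- gluing two coordinate vectors -/
private noncomputable def fra_glue {m N : ℕ}
    (q : EuclideanSpace ℝ (Fin m) × EuclideanSpace ℝ (Fin (N + 1))) :
    EuclideanSpace ℝ (Fin m ⊕ Fin (N + 1)) :=
  WithLp.toLp 2 (Sum.elim q.1.ofLp q.2.ofLp)

private lemma fra_glue_mp {m N : ℕ} :
    MeasurePreserving (fra_glue (m := m) (N := N)) volume volume := by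
  have h1 : MeasurePreserving (Prod.map (MeasurableEquiv.toLp 2 (Fin m → ℝ)).symm
      (MeasurableEquiv.toLp 2 (Fin (N + 1) → ℝ)).symm)
      ((volume : Measure (EuclideanSpace ℝ (Fin m))).prod
        (volume : Measure (EuclideanSpace ℝ (Fin (N + 1)))))
      ((volume : Measure (Fin m → ℝ)).prod volume) :=
    (EuclideanSpace.volume_preserving_symm_measurableEquiv_toLp _).prod
      (EuclideanSpace.volume_preserving_symm_measurableEquiv_toLp _)
  have h2 := volume_measurePreserving_sumPiEquivProdPi_symm (fun _ : Fin m ⊕ Fin (N + 1) => ℝ)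
  have h3 := (EuclideanSpace.volume_preserving_symm_measurableEquiv_toLp
    (Fin m ⊕ Fin (N + 1))).symm
  have h4 := h3.comp (h2.comp h1)
  have e : fra_glue (m := m) (N := N) =
      (MeasurableEquiv.toLp 2 (Fin m ⊕ Fin (N + 1) → ℝ)).symm.symm ∘
      ((MeasurableEquiv.sumPiEquivProdPi (fun _ : Fin m ⊕ Fin (N + 1) => ℝ)).symm ∘
        (Prod.map (MeasurableEquiv.toLp 2 (Fin m → ℝ)).symm
          (MeasurableEquiv.toLp 2 (Fin (N + 1) → ℝ)).symm)) := by
    funext z
    apply PiLp.ext
    intro i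
    rcases i with i | j <;> rfl
  rw [e]
  exact h4

theorem exists_frame2 {n : ℕ} (V : Submodule ℝ (EuclideanSpace ℝ (Fin (n + 1)))) (m N : ℕ)
    (hm : finrank ℝ V = m) (hN : m + N = n) :
    ∃ (A : EuclideanSpace ℝ (Fin m) →ₗᵢ[ℝ] EuclideanSpace ℝ (Fin (n + 1)))
      (B : EuclideanSpace ℝ (Fin (N + 1)) →ₗᵢ[ℝ] EuclideanSpace ℝ (Fin (n + 1))),
      (∀ z y, inner ℝ (A z) (B y) = 0) ∧ (∀ v ∈ V, ∃ z, A z = v) ∧
      MeasurePreserving (fun q : EuclideanSpace ℝ (Fin m) × EuclideanSpace ℝ (Fin (N + 1)) =>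
        A q.1 + B q.2) volume volume ∧
      Function.Surjective (fun q : EuclideanSpace ℝ (Fin m) × EuclideanSpace ℝ (Fin (N + 1)) =>
        A q.1 + B q.2) := by
  have hW : finrank ℝ Vᗮ = N + 1 := by
    have := Submodule.finrank_add_finrank_orthogonal V
    simp only [finrank_euclideanSpace, Fintype.card_fin] at this
    omega
  set bV := (stdOrthonormalBasis ℝ V).reindex (finCongr hm) with hbV
  set bW := (stdOrthonormalBasis ℝ Vᗮ).reindex (finCongr hW) with hbW
  set A : EuclideanSpace ℝ (Fin m) →ₗᵢ[ℝ] EuclideanSpace ℝ (Fin (n + 1)) :=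
    V.subtypeₗᵢ.comp bV.repr.symm.toLinearIsometry with hA
  set B : EuclideanSpace ℝ (Fin (N + 1)) →ₗᵢ[ℝ] EuclideanSpace ℝ (Fin (n + 1)) :=
    Vᗮ.subtypeₗᵢ.comp bW.repr.symm.toLinearIsometry with hB
  have hAm : ∀ z, A z ∈ V := fun z => (bV.repr.symm z).2
  have hBm : ∀ y, B y ∈ Vᗮ := fun y => (bW.repr.symm y).2
  have hAB : ∀ z y, inner ℝ (A z) (B y) = 0 := fun z y =>
    Submodule.inner_right_of_mem_orthogonal (hAm z) (hBm y)
  have hnorm : ∀ z y, ‖A z + B y‖ ^ 2 = ‖z‖ ^ 2 + ‖y‖ ^ 2 := by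
    intro z y
    rw [norm_add_sq_real, hAB, A.norm_map, B.norm_map]
    ring
  let J : EuclideanSpace ℝ (Fin m ⊕ Fin (N + 1)) →ₗᵢ[ℝ] EuclideanSpace ℝ (Fin (n + 1)) :=
    { toFun := fun y => A (WithLp.toLp 2 (fun i => y (Sum.inl i))) +
        B (WithLp.toLp 2 (fun j => y (Sum.inr j)))
      map_add' := by
        intro x y
        have e1 : (WithLp.toLp 2 (fun i => (x + y) (Sum.inl i)) : EuclideanSpace ℝ (Fin m)) =
            WithLp.toLp 2 (fun i => x (Sum.inl i)) + WithLp.toLp 2 (fun i => y (Sum.inl i)) := by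
          apply PiLp.ext
          intro i
          simp
        have e2 : (WithLp.toLp 2 (fun i => (x + y) (Sum.inr i)) :
            EuclideanSpace ℝ (Fin (N + 1))) =
            WithLp.toLp 2 (fun i => x (Sum.inr i)) + WithLp.toLp 2 (fun i => y (Sum.inr i)) := by
          apply PiLp.ext
          intro i
          simp
        rw [e1, e2, map_add, map_add]
        abel
      map_smul' := by
        intro c x
        have e1 : (WithLp.toLp 2 (fun i => (c • x) (Sum.inl i)) : EuclideanSpace ℝ (Fin m)) =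
            c • WithLp.toLp 2 (fun i => x (Sum.inl i)) := by
          apply PiLp.ext
          intro i
          simp
        have e2 : (WithLp.toLp 2 (fun i => (c • x) (Sum.inr i)) :
            EuclideanSpace ℝ (Fin (N + 1))) =
            c • WithLp.toLp 2 (fun i => x (Sum.inr i)) := by
          apply PiLp.ext
          intro i
          simp
        rw [e1, e2, map_smul, map_smul, ← smul_add]
        rfl
      norm_map' := by
        intro x
        have h := hnorm (WithLp.toLp 2 (fun i => x (Sum.inl i)))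
          (WithLp.toLp 2 (fun j => x (Sum.inr j)))
        have h2 : ‖A (WithLp.toLp 2 (fun i => x (Sum.inl i))) +
            B (WithLp.toLp 2 (fun j => x (Sum.inr j)))‖ ^ 2 = ‖x‖ ^ 2 := by
          rw [h, EuclideanSpace.real_norm_sq_eq, EuclideanSpace.real_norm_sq_eq,
            EuclideanSpace.real_norm_sq_eq, Fintype.sum_sum_type]
        exact (sq_eq_sq₀ (norm_nonneg _) (norm_nonneg _)).1 h2 }
  have hfin : finrank ℝ (EuclideanSpace ℝ (Fin m ⊕ Fin (N + 1))) =
      finrank ℝ (EuclideanSpace ℝ (Fin (n + 1))) := by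
    simp only [finrank_euclideanSpace, Fintype.card_sum, Fintype.card_fin]
    omega
  set Je := J.toLinearIsometryEquiv hfin with hJe
  have hform : (fun q : EuclideanSpace ℝ (Fin m) × EuclideanSpace ℝ (Fin (N + 1)) =>
      A q.1 + B q.2) = fun q => Je (fra_glue q) := by
    funext q
    rfl
  refine ⟨A, B, hAB, ?_, ?_, ?_⟩
  · intro v hv
    exact ⟨bV.repr ⟨v, hv⟩, by simp [hA]⟩
  · rw [hform]
    exact Je.measurePreserving.comp fra_glue_mp
  · intro x
    refine ⟨(WithLp.toLp 2 (fun i => (Je.symm x) (Sum.inl i)),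
      WithLp.toLp 2 (fun j => (Je.symm x) (Sum.inr j))), ?_⟩
    have : Je (Je.symm x) = x := Je.apply_symm_apply x
    exact this

end SA70
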