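import Pool.Agent.SA70.Basic

/-! FrB: dilation of the fibres of a convex body, about their centroids. -/

set_option autoImplicit false

open MeasureTheory Measure Metric Set Module ENNReal

namespace SA70

open SC70

/-- volume of the part of a set that stays in it under a dilation -/
theorem frb_dil {N : ℕ} (K : Set (EuclideanSpace ℝ (Fin (N + 1)))) (hK : MeasurableSet K)
    (hKf : volume K ≠ ∞) (c : EuclideanSpace ℝ (Fin (N + 1))) (τ : ℝ) (hτ : 0 < τ) :
    ENNReal.ofReal (1 - ((1 + τ) ^ (N + 1))⁻¹) * volume K ≤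
      volume {y | y ∈ K ∧ y + τ • (y - c) ∉ K} := by
  have h1 : (0 : ℝ) < 1 + τ := by linarith
  set P : Set (EuclideanSpace ℝ (Fin (N + 1))) := {y | y + τ • (y - c) ∈ K} with hP
  have hPv : volume P = ENNReal.ofReal (((1 + τ) ^ (N + 1))⁻¹) * volume K := by
    have : P = (AffineMap.homothety c ((1 + τ)⁻¹ : ℝ)) '' K := by
      ext y
      constructor
      · intro hy
        refine ⟨y + τ • (y - c), hy, ?_⟩
        rw [AffineMap.homothety_apply, vsub_eq_sub, vadd_eq_add]
        have : y + τ • (y - c) - c = (1 + τ) • (y - c) := by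
          rw [add_smul, one_smul]; abel
        rw [this, smul_smul, inv_mul_cancel₀ h1.ne', one_smul]
        abel
      · rintro ⟨x, hx, rfl⟩
        rw [hP, Set.mem_ofPred_eq, AffineMap.homothety_apply, vsub_eq_sub, vadd_eq_add]
        have : (1 + τ)⁻¹ • (x - c) + c + τ • ((1 + τ)⁻¹ • (x - c) + c - c) = x := by
          rw [add_sub_cancel_right]
          have : (1 + τ)⁻¹ • (x - c) + c + τ • (1 + τ)⁻¹ • (x - c) =
              (1 + τ) • ((1 + τ)⁻¹ • (x - c)) + c := by
            rw [add_smul, one_smul]; abel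
          rw [this, smul_smul, mul_inv_cancel₀ h1.ne', one_smul]
          abel
        rw [this]; exact hx
    rw [this, addHaar_image_homothety]
    congr 1
    congr 1
    rw [finrank_euclideanSpace_fin, inv_pow, abs_of_pos (by positivity)]
  have hPm : MeasurableSet P := by
    apply measurableSet_preimage _ hK
    fun_prop
  have hsub : K ⊆ {y | y ∈ K ∧ y + τ • (y - c) ∉ K} ∪ P := by
    intro y hy
    by_cases h : y + τ • (y - c) ∈ K
    · right; exact h
    · left; exact ⟨hy, h⟩
  have hle : volume K ≤ volume {y | y ∈ K ∧ y + τ • (y - c) ∉ K} + volume P :=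
    (measure_mono hsub).trans (measure_union_le _ _)
  have hc : (0 : ℝ) ≤ ((1 + τ) ^ (N + 1))⁻¹ := by positivity
  have hc1 : ((1 + τ) ^ (N + 1))⁻¹ ≤ 1 := by
    apply inv_le_one_of_one_le₀
    exact one_le_pow₀ (by linarith)
  rw [hPv] at hle
  have e1 : ENNReal.ofReal (1 - ((1 + τ) ^ (N + 1))⁻¹) * volume K +
      ENNReal.ofReal (((1 + τ) ^ (N + 1))⁻¹) * volume K = volume K := by
    rw [← add_mul, ← ENNReal.ofReal_add (by linarith) hc]
    simp
  have hfin : ENNReal.ofReal (((1 + τ) ^ (N + 1))⁻¹) * volume K ≠ ∞ :=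
    ENNReal.mul_ne_top ENNReal.ofReal_ne_top hKf
  refine (ENNReal.add_le_add_iff_right hfin).1 ?_
  rw [e1]
  exact hle

theorem fibre_dil {n m N : ℕ} (A : EuclideanSpace ℝ (Fin m) →ₗᵢ[ℝ] EuclideanSpace ℝ (Fin (n + 1)))
    (B : EuclideanSpace ℝ (Fin (N + 1)) →ₗᵢ[ℝ] EuclideanSpace ℝ (Fin (n + 1)))
    (hAB : ∀ z y, inner ℝ (A z) (B y) = 0)
    (hmp : MeasurePreserving (fun q : EuclideanSpace ℝ (Fin m) × EuclideanSpace ℝ (Fin (N + 1)) =>
        A q.1 + B q.2) volume volume)
    (C : Set (EuclideanSpace ℝ (Fin (n + 1)))) (hconv : Convex ℝ C) (hCc : IsCompact C)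
    (τ : ℝ) (hτ : 0 < τ) :
    ∃ p : EuclideanSpace ℝ (Fin m) → EuclideanSpace ℝ (Fin (N + 1)), Measurable p ∧
      (1 - ((1 + τ) ^ (N + 1))⁻¹) * volume.real C ≤
        volume.real {q : EuclideanSpace ℝ (Fin m) × EuclideanSpace ℝ (Fin (N + 1)) |
          A q.1 + B q.2 ∈ C ∧ A q.1 + B (p q.1) ∈ C ∧
            A q.1 + B (q.2 + τ • (q.2 - p q.1)) ∉ C} := by
  set D : Set (EuclideanSpace ℝ (Fin m) × EuclideanSpace ℝ (Fin (N + 1))) :=
    {q | A q.1 + B q.2 ∈ C} with hD
  have hcont : Continuous (fun q : EuclideanSpace ℝ (Fin m) × EuclideanSpace ℝ (Fin (N + 1)) =>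
      A q.1 + B q.2) :=
    (A.continuous.comp continuous_fst).add (B.continuous.comp continuous_snd)
  have hDcl : IsClosed D := hCc.isClosed.preimage hcont
  have hDm : MeasurableSet D := hDcl.measurableSet
  have hDv : volume D = volume C := hmp.measure_preimage hCc.isClosed.measurableSet.nullMeasurableSet
  have hDf : volume D ≠ ∞ := by rw [hDv]; exact hCc.measure_lt_top.ne
  -- the fibres
  set K : EuclideanSpace ℝ (Fin m) → Set (EuclideanSpace ℝ (Fin (N + 1))) :=
    fun z => {y | A z + B y ∈ C} with hK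
  have hKcl : ∀ z, IsClosed (K z) := fun z =>
    hCc.isClosed.preimage (continuous_const.add B.continuous)
  have hKm : ∀ z, MeasurableSet (K z) := fun z => (hKcl z).measurableSet
  have hKcomp : ∀ z, IsCompact (K z) := by
    intro z
    have hemb : Topology.IsClosedEmbedding (fun y => A z + B y) :=
      (Homeomorph.addLeft (A z)).isClosedEmbedding.comp B.isometry.isClosedEmbedding
    exact hemb.isCompact_preimage hCc
  have hKconv : ∀ z, Convex ℝ (K z) := by
    intro z y₁ h₁ y₂ h₂ a b ha hb hab
    have := hconv h₁ h₂ ha hb hab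
    have e : a • (A z + B y₁) + b • (A z + B y₂) = A z + B (a • y₁ + b • y₂) := by
      rw [map_add, map_smul, map_smul, smul_add, smul_add]
      have : A z = a • A z + b • A z := by rw [← add_smul, hab, one_smul]
      nth_rewrite 3 [this]
      abel
    rw [e] at this
    exact this
  have hKf : ∀ z, volume (K z) ≠ ∞ := fun z => (hKcomp z).measure_lt_top.ne
  -- the centroid
  set I : EuclideanSpace ℝ (Fin m) → EuclideanSpace ℝ (Fin (N + 1)) :=
    fun z => ∫ y, D.indicator (fun q => q.2) (z, y) with hI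
  have hIm : Measurable I := by
    have : StronglyMeasurable (D.indicator
        (fun q : EuclideanSpace ℝ (Fin m) × EuclideanSpace ℝ (Fin (N + 1)) => q.2)) :=
      (measurable_snd.stronglyMeasurable).indicator hDm
    exact this.integral_prod_right'.measurable
  have hVm : Measurable (fun z => volume.real (K z)) := by
    have : Measurable (fun z => volume (Prod.mk z ⁻¹' D)) := measurable_measure_prodMk_left hDm
    exact this.ennreal_toReal
  set p : EuclideanSpace ℝ (Fin m) → EuclideanSpace ℝ (Fin (N + 1)) :=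
    fun z => (volume.real (K z))⁻¹ • I z with hp
  have hpm : Measurable p := hVm.inv.smul hIm
  have hpK : ∀ z, volume (K z) ≠ 0 → p z ∈ K z := by
    intro z hz
    have hint : IntegrableOn (fun y : EuclideanSpace ℝ (Fin (N + 1)) => y) (K z) volume :=
      continuousOn_id.integrableOn_compact (hKcomp z)
    have h := (hKconv z).set_average_mem (hKcl z) hz (hKf z)
      (ae_restrict_mem (hKm z)) hint
    rw [setAverage_eq] at h
    have e : I z = ∫ y in K z, y := by
      rw [hI, ← integral_indicator (hKm z)]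
      rfl
    rw [hp]
    simp only
    rw [e]
    exact h
  refine ⟨p, hpm, ?_⟩
  set T : Set (EuclideanSpace ℝ (Fin m) × EuclideanSpace ℝ (Fin (N + 1))) :=
    {q | A q.1 + B q.2 ∈ C ∧ A q.1 + B (p q.1) ∈ C ∧
            A q.1 + B (q.2 + τ • (q.2 - p q.1)) ∉ C} with hT
  have hpm1 : Measurable (fun q : EuclideanSpace ℝ (Fin m) × EuclideanSpace ℝ (Fin (N + 1)) =>
      p q.1) := hpm.comp measurable_fst
  have hTm : MeasurableSet T := by
    refine hDm.inter (MeasurableSet.inter ?_ (MeasurableSet.compl ?_))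
    · exact measurableSet_preimage
        ((A.continuous.measurable.comp measurable_fst).add (B.continuous.measurable.comp hpm1))
        hCc.isClosed.measurableSet
    · exact measurableSet_preimage
        ((A.continuous.measurable.comp measurable_fst).add (B.continuous.measurable.comp
          (measurable_snd.add ((measurable_snd.sub hpm1).const_smul τ))))
        hCc.isClosed.measurableSet
  have hTD : T ⊆ D := fun q hq => hq.1
  have hc : (0 : ℝ) ≤ 1 - ((1 + τ) ^ (N + 1))⁻¹ := by
    have : ((1 + τ) ^ (N + 1))⁻¹ ≤ 1 := by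
      apply inv_le_one_of_one_le₀
      exact one_le_pow₀ (by linarith)
    linarith
  have hmain : ENNReal.ofReal (1 - ((1 + τ) ^ (N + 1))⁻¹) * volume D ≤ volume T := by
    rw [volume_eq_prod, Measure.prod_apply hDm, Measure.prod_apply hTm,
      ← lintegral_const_mul _ (measurable_measure_prodMk_left hDm)]
    refine lintegral_mono fun z => ?_
    by_cases hz : volume (K z) = 0
    · have : volume (Prod.mk z ⁻¹' D) = 0 := hz
      rw [this, mul_zero]
      exact zero_le
    · refine (frb_dil (K z) (hKm z) (hKf z) (p z) τ hτ).trans (measure_mono ?_)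
      intro y hy
      exact ⟨hy.1, hpK z hz, hy.2⟩
  have hTf : volume T ≠ ∞ := ((measure_mono hTD).trans_lt (lt_top_iff_ne_top.2 hDf)).ne
  have h2 := ENNReal.toReal_mono hTf hmain
  rw [ENNReal.toReal_mul, ENNReal.toReal_ofReal hc, hDv] at h2
  exact h2

end SA70
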