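import Pool.Agent.SA70.Basic
import Pool.Agent.SC70.FirstVar

/-! FrC: the part of a ball which leaves a convex body after a fibrewise translation. -/

set_option autoImplicit false

open MeasureTheory Measure Metric Set Module ENNReal

namespace SA70

open SC70

private theorem frc_glue (m N : ℕ) :
    ∃ f : EuclideanSpace ℝ (Fin m) × EuclideanSpace ℝ (Fin N) → EuclideanSpace ℝ (Fin (m + N)),
      MeasurePreserving f volume volume ∧ ∀ q, ‖f q‖ ^ 2 = ‖q.1‖ ^ 2 + ‖q.2‖ ^ 2 := by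
  have hfr : finrank ℝ (WithLp 2 (EuclideanSpace ℝ (Fin m) × EuclideanSpace ℝ (Fin N))) = m + N := by
    rw [(WithLp.linearEquiv 2 ℝ
      (EuclideanSpace ℝ (Fin m) × EuclideanSpace ℝ (Fin N))).finrank_eq, finrank_prod]
    simp
  obtain ⟨b⟩ : Nonempty (OrthonormalBasis (Fin (m + N)) ℝ
      (WithLp 2 (EuclideanSpace ℝ (Fin m) × EuclideanSpace ℝ (Fin N)))) :=
    ⟨(stdOrthonormalBasis ℝ _).reindex (finCongr hfr)⟩
  refine ⟨fun q => b.repr (WithLp.toLp 2 q), ?_, ?_⟩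
  · exact b.repr.measurePreserving.comp (WithLp.volume_preserving_toLp _ _)
  · intro q
    rw [b.repr.norm_map]
    rw [WithLp.prod_norm_sq_eq_of_L2]
    rfl

private theorem frc_ball (m N : ℕ) (α : EuclideanSpace ℝ (Fin m)) :
    ∫⁻ z : EuclideanSpace ℝ (Fin m), volume {y : EuclideanSpace ℝ (Fin N) |
      ‖z - α‖ ^ 2 + ‖y‖ ^ 2 ≤ 1} = ENNReal.ofReal (kap (m + N)) := by
  obtain ⟨f, hf, hn⟩ := frc_glue m N
  have h1 : ∫⁻ z : EuclideanSpace ℝ (Fin m), volume {y : EuclideanSpace ℝ (Fin N) |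
      ‖z - α‖ ^ 2 + ‖y‖ ^ 2 ≤ 1} = ∫⁻ z : EuclideanSpace ℝ (Fin m),
      volume {y : EuclideanSpace ℝ (Fin N) | ‖z‖ ^ 2 + ‖y‖ ^ 2 ≤ 1} :=
    lintegral_sub_right_eq_self (μ := volume) (fun z : EuclideanSpace ℝ (Fin m) =>
      volume {y : EuclideanSpace ℝ (Fin N) | ‖z‖ ^ 2 + ‖y‖ ^ 2 ≤ 1}) α
  have hm : MeasurableSet {q : EuclideanSpace ℝ (Fin m) × EuclideanSpace ℝ (Fin N) |
      ‖q.1‖ ^ 2 + ‖q.2‖ ^ 2 ≤ 1} := by
    apply measurableSet_le <;> fun_prop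
  rw [h1, ofReal_kap, ← hf.measure_preimage measurableSet_closedBall.nullMeasurableSet]
  have h2 : f ⁻¹' closedBall 0 1 = {q : EuclideanSpace ℝ (Fin m) × EuclideanSpace ℝ (Fin N) |
      ‖q.1‖ ^ 2 + ‖q.2‖ ^ 2 ≤ 1} := by
    ext q
    simp only [mem_preimage, mem_closedBall, dist_zero_right, Set.mem_ofPred_eq]
    rw [← hn q]
    constructor
    · intro h
      have := norm_nonneg (f q)
      nlinarith
    · intro h
      have := norm_nonneg (f q)
      nlinarith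
  rw [h2, Measure.volume_eq_prod, Measure.prod_apply hm]
  rfl

private theorem frc_norm {n m N : ℕ}
    (A : EuclideanSpace ℝ (Fin m) →ₗᵢ[ℝ] EuclideanSpace ℝ (Fin (n + 1)))
    (B : EuclideanSpace ℝ (Fin (N + 1)) →ₗᵢ[ℝ] EuclideanSpace ℝ (Fin (n + 1)))
    (hAB : ∀ z y, inner ℝ (A z) (B y) = 0) (z α : EuclideanSpace ℝ (Fin m))
    (y β : EuclideanSpace ℝ (Fin (N + 1))) :
    ‖A z + B y - (A α + B β)‖ ^ 2 = ‖z - α‖ ^ 2 + ‖y - β‖ ^ 2 := by
  have e : A z + B y - (A α + B β) = A (z - α) + B (y - β) := by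
    rw [map_sub, map_sub]; abel
  rw [e, norm_add_sq_real, hAB, A.norm_map, B.norm_map]
  ring

/-- one fibre -/
private theorem frc_fibre {n m N : ℕ}
    (A : EuclideanSpace ℝ (Fin m) →ₗᵢ[ℝ] EuclideanSpace ℝ (Fin (n + 1)))
    (B : EuclideanSpace ℝ (Fin (N + 1)) →ₗᵢ[ℝ] EuclideanSpace ℝ (Fin (n + 1)))
    (hAB : ∀ z y, inner ℝ (A z) (B y) = 0)
    (C : Set (EuclideanSpace ℝ (Fin (n + 1)))) (hconv : Convex ℝ C) (hCc : IsCompact C)
    (α z : EuclideanSpace ℝ (Fin m)) (β p : EuclideanSpace ℝ (Fin (N + 1))) (τ U : ℝ)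
    (hτ : 0 ≤ τ) (hU : 0 ≤ U) :
    volume {y : EuclideanSpace ℝ (Fin (N + 1)) |
        ‖A z + B y - (A α + B β)‖ ≤ 1 ∧ τ * ‖β - p‖ ≤ U ∧
        A z + B (β + (1 + τ) • (y - β)) ∈ C ∧
        A z + B (β + (1 + τ) • (y - β) + τ • (β - p)) ∉ C} ≤
      ENNReal.ofReal (U * (1 + τ) ^ N) *
        volume {y : EuclideanSpace ℝ (Fin N) | ‖z - α‖ ^ 2 + ‖y‖ ^ 2 ≤ 1} := by
  by_cases hz : ‖z - α‖ ≤ 1 ∧ τ * ‖β - p‖ ≤ U
  swap
  · have : {y : EuclideanSpace ℝ (Fin (N + 1)) |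
        ‖A z + B y - (A α + B β)‖ ≤ 1 ∧ τ * ‖β - p‖ ≤ U ∧
        A z + B (β + (1 + τ) • (y - β)) ∈ C ∧
        A z + B (β + (1 + τ) • (y - β) + τ • (β - p)) ∉ C} = ∅ := by
      ext y
      simp only [Set.mem_ofPred_eq, mem_empty_iff_false, iff_false]
      rintro ⟨h1, h2, _⟩
      apply hz
      refine ⟨?_, h2⟩
      have h3 := frc_norm A B hAB z α y β
      have h4 := norm_nonneg (A z + B y - (A α + B β))
      have h5 := norm_nonneg (z - α)
      nlinarith [sq_nonneg ‖y - β‖]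
    rw [this, measure_empty]
    exact zero_le
  obtain ⟨hz1, hz2⟩ := hz
  have hn0 := norm_nonneg (z - α)
  obtain ⟨r, hr0, hr⟩ : ∃ r : ℝ, 0 ≤ r ∧ r ^ 2 = 1 - ‖z - α‖ ^ 2 :=
    ⟨√(1 - ‖z - α‖ ^ 2), Real.sqrt_nonneg _, Real.sq_sqrt (by nlinarith)⟩
  have hball : {y : EuclideanSpace ℝ (Fin N) | ‖z - α‖ ^ 2 + ‖y‖ ^ 2 ≤ 1} = closedBall 0 r := by
    ext y
    simp only [Set.mem_ofPred_eq, mem_closedBall, dist_zero_right]
    have := norm_nonneg y
    constructor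
    · intro h
      exact abs_le_of_sq_le_sq' (by rw [hr]; linarith) hr0 |>.2
    · intro h
      have := pow_le_pow_left₀ this h 2
      rw [hr] at this
      linarith
  rw [hball, volume_ball_le _ hr0]
  -- the fibre of the body
  have hcz : Convex ℝ {y : EuclideanSpace ℝ (Fin (N + 1)) | A z + B y ∈ C} := by
    intro x hx y hy a b ha hb hab
    have h1 := hconv hx hy ha hb hab
    have h2 : a • (A z + B x) + b • (A z + B y) = A z + B (a • x + b • y) := by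
      rw [map_add, map_smul, map_smul, smul_add, smul_add]
      have : A z = (a + b) • A z := by rw [hab, one_smul]
      nth_rewrite 3 [this]
      rw [add_smul]; abel
    rw [h2] at h1
    exact h1
  have hcc : IsCompact {y : EuclideanSpace ℝ (Fin (N + 1)) | A z + B y ∈ C} := by
    have hcl : IsClosed {y : EuclideanSpace ℝ (Fin (N + 1)) | A z + B y ∈ C} :=
      hCc.isClosed.preimage (by fun_prop)
    obtain ⟨R, hR⟩ := hCc.isBounded.subset_closedBall (A z)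
    refine Metric.isCompact_of_isClosed_isBounded hcl
      ((isBounded_closedBall (x := (0 : EuclideanSpace ℝ (Fin (N + 1)))) (r := R)).subset ?_)
    intro y hy
    have h1 := hR hy
    rw [mem_closedBall, dist_eq_norm, add_sub_cancel_left, B.norm_map] at h1
    rwa [mem_closedBall, dist_zero_right]
  have h1τ : (0 : ℝ) < 1 + τ := by linarith
  have hexit := ball_exit_r _ hcz hcc β (β - p) τ ((1 + τ) * r) hτ (by positivity)
  have hsub : {y : EuclideanSpace ℝ (Fin (N + 1)) |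
        ‖A z + B y - (A α + B β)‖ ≤ 1 ∧ τ * ‖β - p‖ ≤ U ∧
        A z + B (β + (1 + τ) • (y - β)) ∈ C ∧
        A z + B (β + (1 + τ) • (y - β) + τ • (β - p)) ∉ C} ⊆
      AffineMap.homothety β ((1 + τ)⁻¹) '' {x | x ∈ {y : EuclideanSpace ℝ (Fin (N + 1)) |
        A z + B y ∈ C} ∧ x ∈ closedBall β ((1 + τ) * r) ∧
        x + τ • (β - p) ∉ {y : EuclideanSpace ℝ (Fin (N + 1)) | A z + B y ∈ C}} := by
    rintro y ⟨h1, _, h3, h4⟩
    refine ⟨β + (1 + τ) • (y - β), ⟨h3, ?_, h4⟩, ?_⟩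
    · rw [mem_closedBall, dist_eq_norm, add_sub_cancel_left, norm_smul,
        Real.norm_of_nonneg h1τ.le]
      refine mul_le_mul_of_nonneg_left ?_ h1τ.le
      have h5 := frc_norm A B hAB z α y β
      have h6 := norm_nonneg (A z + B y - (A α + B β))
      refine abs_le_of_sq_le_sq' ?_ hr0 |>.2
      rw [hr]
      nlinarith
    · rw [AffineMap.homothety_apply, vsub_eq_sub, add_sub_cancel_left, smul_smul,
        inv_mul_cancel₀ h1τ.ne', one_smul, vadd_eq_add, sub_add_cancel]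
  refine (measure_mono hsub).trans ?_
  rw [addHaar_image_homothety]
  have hq : ENNReal.ofReal |((1 + τ)⁻¹) ^ finrank ℝ (EuclideanSpace ℝ (Fin (N + 1)))| ≤ 1 := by
    rw [← ENNReal.ofReal_one]
    apply ENNReal.ofReal_le_ofReal
    rw [abs_of_nonneg (by positivity)]
    exact pow_le_one₀ (by positivity) (inv_le_one_of_one_le₀ (by linarith))
  refine (mul_le_mul' hq hexit).trans ?_
  rw [one_mul, ← ENNReal.ofReal_mul (by positivity)]
  apply ENNReal.ofReal_le_ofReal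
  have hk := kap_nonneg N
  have h7 : 0 ≤ kap N * ((1 + τ) * r) ^ N := by positivity
  have h8 := mul_le_mul_of_nonneg_right hz2 h7
  rw [mul_pow] at h8 ⊢
  linarith [h8]

theorem fibre_exit {n m N : ℕ} (hn : m + N = n)
    (A : EuclideanSpace ℝ (Fin m) →ₗᵢ[ℝ] EuclideanSpace ℝ (Fin (n + 1)))
    (B : EuclideanSpace ℝ (Fin (N + 1)) →ₗᵢ[ℝ] EuclideanSpace ℝ (Fin (n + 1)))
    (hAB : ∀ z y, inner ℝ (A z) (B y) = 0)
    (C : Set (EuclideanSpace ℝ (Fin (n + 1)))) (hconv : Convex ℝ C) (hCc : IsCompact C)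
    (α : EuclideanSpace ℝ (Fin m)) (β : EuclideanSpace ℝ (Fin (N + 1))) (τ U : ℝ) (hτ : 0 ≤ τ)
    (hU : 0 ≤ U) (p : EuclideanSpace ℝ (Fin m) → EuclideanSpace ℝ (Fin (N + 1)))
    (hp : Measurable p) :
    volume.real {q : EuclideanSpace ℝ (Fin m) × EuclideanSpace ℝ (Fin (N + 1)) |
        ‖A q.1 + B q.2 - (A α + B β)‖ ≤ 1 ∧ τ * ‖β - p q.1‖ ≤ U ∧
        A q.1 + B (β + (1 + τ) • (q.2 - β)) ∈ C ∧
        A q.1 + B (β + (1 + τ) • (q.2 - β) + τ • (β - p q.1)) ∉ C} ≤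
      U * (1 + τ) ^ N * kap n := by
  have hk := kap_nonneg n
  have hA := A.continuous.measurable
  have hB := B.continuous.measurable
  have hC := hCc.measurableSet
  have hm : MeasurableSet {q : EuclideanSpace ℝ (Fin m) × EuclideanSpace ℝ (Fin (N + 1)) |
        ‖A q.1 + B q.2 - (A α + B β)‖ ≤ 1 ∧ τ * ‖β - p q.1‖ ≤ U ∧
        A q.1 + B (β + (1 + τ) • (q.2 - β)) ∈ C ∧
        A q.1 + B (β + (1 + τ) • (q.2 - β) + τ • (β - p q.1)) ∉ C} := by
    have m1 : MeasurableSet {q : EuclideanSpace ℝ (Fin m) × EuclideanSpace ℝ (Fin (N + 1)) |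
        ‖A q.1 + B q.2 - (A α + B β)‖ ≤ 1} := measurableSet_le (by fun_prop) measurable_const
    have m2 : MeasurableSet {q : EuclideanSpace ℝ (Fin m) × EuclideanSpace ℝ (Fin (N + 1)) |
        τ * ‖β - p q.1‖ ≤ U} := measurableSet_le (by fun_prop) measurable_const
    have f3 : Measurable fun q : EuclideanSpace ℝ (Fin m) × EuclideanSpace ℝ (Fin (N + 1)) =>
        A q.1 + B (β + (1 + τ) • (q.2 - β)) := by fun_prop
    have f4 : Measurable fun q : EuclideanSpace ℝ (Fin m) × EuclideanSpace ℝ (Fin (N + 1)) =>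
        A q.1 + B (β + (1 + τ) • (q.2 - β) + τ • (β - p q.1)) := by fun_prop
    exact m1.inter (m2.inter ((f3 hC).inter (f4 hC).compl))
  rw [measureReal_def]
  refine ENNReal.toReal_le_of_le_ofReal (by positivity) ?_
  rw [Measure.volume_eq_prod, Measure.prod_apply hm]
  calc ∫⁻ z : EuclideanSpace ℝ (Fin m), volume (Prod.mk z ⁻¹'
        {q : EuclideanSpace ℝ (Fin m) × EuclideanSpace ℝ (Fin (N + 1)) |
        ‖A q.1 + B q.2 - (A α + B β)‖ ≤ 1 ∧ τ * ‖β - p q.1‖ ≤ U ∧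
        A q.1 + B (β + (1 + τ) • (q.2 - β)) ∈ C ∧
        A q.1 + B (β + (1 + τ) • (q.2 - β) + τ • (β - p q.1)) ∉ C})
      ≤ ∫⁻ z : EuclideanSpace ℝ (Fin m), ENNReal.ofReal (U * (1 + τ) ^ N) *
        volume {y : EuclideanSpace ℝ (Fin N) | ‖z - α‖ ^ 2 + ‖y‖ ^ 2 ≤ 1} :=
        lintegral_mono fun z => frc_fibre A B hAB C hconv hCc α z β (p z) τ U hτ hU
    _ = ENNReal.ofReal (U * (1 + τ) ^ N) * ENNReal.ofReal (kap (m + N)) := by
        rw [lintegral_const_mul' _ _ ENNReal.ofReal_ne_top, frc_ball]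
    _ = ENNReal.ofReal (U * (1 + τ) ^ N * kap n) := by
        rw [← ENNReal.ofReal_mul (by positivity), hn]

end SA70
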