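import Pool.Agent.SA70.M7a
import Pool.Agent.SC70.FirstVar

/-! FrD: dilation of all coordinates against dilation of the normal coordinates only. -/

set_option autoImplicit false

open MeasureTheory Measure Metric Set Module ENNReal

namespace SA70

open SC70

/-- all directions have the same second moment over the unit ball -/
private lemma mom_eq {d : ℕ} (u v : EuclideanSpace ℝ (Fin d)) (h : ‖u‖ = ‖v‖) :
    ∫ x in closedBall (0 : EuclideanSpace ℝ (Fin d)) 1, (inner ℝ u x) ^ 2 =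
      ∫ x in closedBall (0 : EuclideanSpace ℝ (Fin d)) 1, (inner ℝ v x) ^ 2 := by
  set R := (ℝ ∙ (u - v))ᗮ.reflection with hR
  have hRu : R u = v := Submodule.reflection_sub h
  have hmp : MeasurePreserving (fun x => R x) volume volume := R.measurePreserving
  have hpre : (fun x => R x) ⁻¹' closedBall (0 : EuclideanSpace ℝ (Fin d)) 1 = closedBall 0 1 := by
    ext x
    simp
  have h1 := hmp.setIntegral_preimage_emb R.toHomeomorph.measurableEmbedding
    (fun x => (inner ℝ v x) ^ 2) (closedBall (0 : EuclideanSpace ℝ (Fin d)) 1)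
  rw [hpre] at h1
  rw [← h1]
  refine setIntegral_congr_fun measurableSet_closedBall ?_
  intro x _
  have : inner ℝ v (R x) = inner ℝ u x := by
    rw [← hRu]
    exact R.inner_map_map u x
  simp only [this]

private lemma int_sq {d : ℕ} (u : EuclideanSpace ℝ (Fin d)) :
    IntegrableOn (fun x => (inner ℝ u x) ^ 2) (closedBall (0 : EuclideanSpace ℝ (Fin d)) 1) :=
  ((continuous_const.inner continuous_id).pow 2).continuousOn.integrableOn_compact
    (isCompact_closedBall 0 1)

/-- the second moment in one direction -/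
private lemma mom_le {n : ℕ} (u : EuclideanSpace ℝ (Fin (n + 1))) (hu : ‖u‖ = 1) :
    ∫ x in closedBall (0 : EuclideanSpace ℝ (Fin (n + 1))) 1, (inner ℝ u x) ^ 2 ≤
      kap (n + 1) / ((n : ℝ) + 1) := by
  have hb : ∀ i : Fin (n + 1), ∫ x in closedBall (0 : EuclideanSpace ℝ (Fin (n + 1))) 1,
      (inner ℝ (EuclideanSpace.basisFun (Fin (n + 1)) ℝ i) x) ^ 2 =
      ∫ x in closedBall (0 : EuclideanSpace ℝ (Fin (n + 1))) 1, (inner ℝ u x) ^ 2 := by
    intro i
    refine mom_eq _ _ ?_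
    rw [hu]
    exact (EuclideanSpace.basisFun (Fin (n + 1)) ℝ).norm_eq_one i
  have hsum : ∑ i : Fin (n + 1), ∫ x in closedBall (0 : EuclideanSpace ℝ (Fin (n + 1))) 1,
      (inner ℝ (EuclideanSpace.basisFun (Fin (n + 1)) ℝ i) x) ^ 2 =
      ∫ x in closedBall (0 : EuclideanSpace ℝ (Fin (n + 1))) 1, ‖x‖ ^ 2 := by
    rw [← integral_finset_sum]
    · refine setIntegral_congr_fun measurableSet_closedBall ?_
      intro x _
      exact (EuclideanSpace.basisFun (Fin (n + 1)) ℝ).sum_sq_inner_right x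
    · intro i _
      exact int_sq _
  have hle : ∫ x in closedBall (0 : EuclideanSpace ℝ (Fin (n + 1))) 1, ‖x‖ ^ 2 ≤ kap (n + 1) := by
    have h1 : ∫ x in closedBall (0 : EuclideanSpace ℝ (Fin (n + 1))) 1, ‖x‖ ^ 2 ≤
        ∫ x in closedBall (0 : EuclideanSpace ℝ (Fin (n + 1))) 1, (1 : ℝ) := by
      refine setIntegral_mono_on ?_ ?_ measurableSet_closedBall ?_
      · exact (continuous_norm.pow 2).continuousOn.integrableOn_compact (isCompact_closedBall 0 1)
      · exact continuousOn_const.integrableOn_compact (isCompact_closedBall 0 1)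
      · intro x hx
        have : ‖x‖ ≤ 1 := by simpa using hx
        have h0 := norm_nonneg x
        nlinarith
    refine h1.trans (le_of_eq ?_)
    rw [setIntegral_const]
    simp [kap]
  rw [Finset.sum_congr rfl (fun i _ => hb i), Finset.sum_const, Finset.card_univ, Fintype.card_fin,
    nsmul_eq_mul] at hsum
  rw [le_div_iff₀ (by positivity)]
  push_cast at hsum
  linarith [mul_comm ((n : ℝ) + 1) (∫ x in closedBall (0 : EuclideanSpace ℝ (Fin (n + 1))) 1,
    (inner ℝ u x) ^ 2)]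

/-- Markov's inequality for the coordinates in the range of `A` -/
private lemma tail_le {n m : ℕ}
    (A : EuclideanSpace ℝ (Fin m) →ₗᵢ[ℝ] EuclideanSpace ℝ (Fin (n + 1)))
    (w : EuclideanSpace ℝ (Fin (n + 1))) (s : ℝ) (hs : 0 < s) :
    volume.real {x : EuclideanSpace ℝ (Fin (n + 1)) | ‖x - w‖ ≤ 1 ∧
      s ^ 2 < ∑ i : Fin m, (inner ℝ (A (EuclideanSpace.basisFun (Fin m) ℝ i)) (x - w)) ^ 2} ≤
      m / (((n : ℝ) + 1) * s ^ 2) * kap (n + 1) := by
  set g : EuclideanSpace ℝ (Fin (n + 1)) → ℝ := fun x =>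
    ∑ i : Fin m, (inner ℝ (A (EuclideanSpace.basisFun (Fin m) ℝ i)) x) ^ 2 with hg
  have hgc : Continuous g := by
    refine continuous_finset_sum _ fun i _ => ?_
    exact (continuous_const.inner continuous_id).pow 2
  have hg0 : ∀ x, 0 ≤ g x := fun x => Finset.sum_nonneg fun i _ => sq_nonneg _
  -- translate to the origin
  have htr : volume.real {x : EuclideanSpace ℝ (Fin (n + 1)) | ‖x - w‖ ≤ 1 ∧ s ^ 2 < g (x - w)} =
      volume.real {x : EuclideanSpace ℝ (Fin (n + 1)) | ‖x‖ ≤ 1 ∧ s ^ 2 < g x} := by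
    have : {x : EuclideanSpace ℝ (Fin (n + 1)) | ‖x - w‖ ≤ 1 ∧ s ^ 2 < g (x - w)} =
        (fun x => x - w) ⁻¹' {x | ‖x‖ ≤ 1 ∧ s ^ 2 < g x} := rfl
    rw [this]
    have hmp : MeasurePreserving (fun x : EuclideanSpace ℝ (Fin (n + 1)) => x - w) volume volume :=
      measurePreserving_sub_right volume w
    rw [measureReal_def, measureReal_def, hmp.measure_preimage]
    refine MeasurableSet.nullMeasurableSet ?_
    exact (measurableSet_le continuous_norm.measurable measurable_const).inter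
      (measurableSet_lt measurable_const hgc.measurable)
  have hint : IntegrableOn g (closedBall (0 : EuclideanSpace ℝ (Fin (n + 1))) 1) :=
    hgc.continuousOn.integrableOn_compact (isCompact_closedBall 0 1)
  have hI : ∫ x in closedBall (0 : EuclideanSpace ℝ (Fin (n + 1))) 1, g x ≤
      m * (kap (n + 1) / ((n : ℝ) + 1)) := by
    rw [hg, integral_finset_sum _ (fun i _ => int_sq _)]
    calc ∑ i : Fin m, ∫ x in closedBall (0 : EuclideanSpace ℝ (Fin (n + 1))) 1,
          (inner ℝ (A (EuclideanSpace.basisFun (Fin m) ℝ i)) x) ^ 2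
        ≤ ∑ i : Fin m, kap (n + 1) / ((n : ℝ) + 1) := by
          refine Finset.sum_le_sum fun i _ => mom_le _ ?_
          rw [A.norm_map]
          exact (EuclideanSpace.basisFun (Fin m) ℝ).norm_eq_one i
      _ = m * (kap (n + 1) / ((n : ℝ) + 1)) := by simp
  have hmark : s ^ 2 * volume.real {x : EuclideanSpace ℝ (Fin (n + 1)) | ‖x‖ ≤ 1 ∧ s ^ 2 < g x} ≤
      ∫ x in closedBall (0 : EuclideanSpace ℝ (Fin (n + 1))) 1, g x := by
    have hsub : {x : EuclideanSpace ℝ (Fin (n + 1)) | ‖x‖ ≤ 1 ∧ s ^ 2 < g x} ⊆ closedBall 0 1 := by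
      intro x hx
      simpa using hx.1
    have hms : MeasurableSet {x : EuclideanSpace ℝ (Fin (n + 1)) | ‖x‖ ≤ 1 ∧ s ^ 2 < g x} :=
      (measurableSet_le continuous_norm.measurable measurable_const).inter
        (measurableSet_lt measurable_const hgc.measurable)
    have hfin : volume {x : EuclideanSpace ℝ (Fin (n + 1)) | ‖x‖ ≤ 1 ∧ s ^ 2 < g x} ≠ ⊤ :=
      ne_top_of_le_ne_top (isCompact_closedBall (0 : EuclideanSpace ℝ (Fin (n + 1))) 1).measure_lt_top.ne
        (measure_mono hsub)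
    calc s ^ 2 * volume.real {x : EuclideanSpace ℝ (Fin (n + 1)) | ‖x‖ ≤ 1 ∧ s ^ 2 < g x}
        = ∫ x in {x : EuclideanSpace ℝ (Fin (n + 1)) | ‖x‖ ≤ 1 ∧ s ^ 2 < g x}, s ^ 2 := by
          rw [setIntegral_const, smul_eq_mul, mul_comm]
      _ ≤ ∫ x in {x : EuclideanSpace ℝ (Fin (n + 1)) | ‖x‖ ≤ 1 ∧ s ^ 2 < g x}, g x := by
          refine setIntegral_mono_on ?_ (hint.mono_set hsub) hms ?_
          · exact integrableOn_const (hs := hfin)
          · intro x hx
            exact hx.2.le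
      _ ≤ ∫ x in closedBall (0 : EuclideanSpace ℝ (Fin (n + 1))) 1, g x :=
          setIntegral_mono_set hint (ae_of_all _ hg0) (ae_of_all _ hsub)
  have hs2 : 0 < s ^ 2 := by positivity
  rw [htr]
  have h1 : volume.real {x : EuclideanSpace ℝ (Fin (n + 1)) | ‖x‖ ≤ 1 ∧ s ^ 2 < g x} ≤
      m * (kap (n + 1) / ((n : ℝ) + 1)) / s ^ 2 := by
    rw [le_div_iff₀ hs2]
    linarith [hmark, hI, mul_comm (s ^ 2)
      (volume.real {x : EuclideanSpace ℝ (Fin (n + 1)) | ‖x‖ ≤ 1 ∧ s ^ 2 < g x})]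
  refine h1.trans (le_of_eq ?_)
  field_simp

theorem fibre_layer {n m N : ℕ} (hn : m + N = n) (hn4 : 4 ≤ n)
    (A : EuclideanSpace ℝ (Fin m) →ₗᵢ[ℝ] EuclideanSpace ℝ (Fin (n + 1)))
    (B : EuclideanSpace ℝ (Fin (N + 1)) →ₗᵢ[ℝ] EuclideanSpace ℝ (Fin (n + 1)))
    (hAB : ∀ z y, inner ℝ (A z) (B y) = 0)
    (hmp : MeasurePreserving (fun q : EuclideanSpace ℝ (Fin m) × EuclideanSpace ℝ (Fin (N + 1)) =>
        A q.1 + B q.2) volume volume)
    (C : Set (EuclideanSpace ℝ (Fin (n + 1)))) (hconv : Convex ℝ C) (hCc : IsCompact C)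
    (α : EuclideanSpace ℝ (Fin m)) (β : EuclideanSpace ℝ (Fin (N + 1))) (τ s : ℝ) (hτ : 0 < τ)
    (hs : 0 < s) :
    volume.real {q : EuclideanSpace ℝ (Fin m) × EuclideanSpace ℝ (Fin (N + 1)) |
        ‖A q.1 + B q.2 - (A α + B β)‖ ≤ 1 ∧
        (A α + B β) + (1 + τ) • (A q.1 + B q.2 - (A α + B β)) ∈ C ∧
        A q.1 + B (β + (1 + τ) • (q.2 - β)) ∉ C} ≤
      (4 * (τ * s) * ((n : ℝ) + 1) + m / (((n : ℝ) + 1) * s ^ 2)) * kap (n + 1) := by
  set w : EuclideanSpace ℝ (Fin (n + 1)) := A α + B β with hw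
  set Φ : EuclideanSpace ℝ (Fin m) × EuclideanSpace ℝ (Fin (N + 1)) →
    EuclideanSpace ℝ (Fin (n + 1)) := fun q => A q.1 + B q.2 with hΦ
  set K : Set (EuclideanSpace ℝ (Fin (n + 1))) :=
    {x | ‖x - w‖ ≤ 1 ∧ w + (1 + τ) • (x - w) ∈ C} with hK
  have h1τ : 0 < 1 + τ := by linarith
  have hcont : Continuous fun x : EuclideanSpace ℝ (Fin (n + 1)) => w + (1 + τ) • (x - w) := by
    fun_prop
  have hKeq : K = closedBall w 1 ∩ (fun x => w + (1 + τ) • (x - w)) ⁻¹' C := by
    ext x
    simp [hK, dist_eq_norm]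
  have hKc : IsCompact K := by
    rw [hKeq]
    exact (isCompact_closedBall w 1).inter_right (hCc.isClosed.preimage hcont)
  have hKcl : IsClosed K := hKc.isClosed
  have hKconv : Convex ℝ K := by
    intro x hx y hy a b ha hb hab
    refine ⟨?_, ?_⟩
    · have h1 : a • x + b • y - w = a • (x - w) + b • (y - w) := by
        have : w = a • w + b • w := by rw [← add_smul, hab, one_smul]
        calc a • x + b • y - w = a • x + b • y - (a • w + b • w) := by rw [← this]
          _ = a • (x - w) + b • (y - w) := by module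
      rw [h1]
      calc ‖a • (x - w) + b • (y - w)‖ ≤ ‖a • (x - w)‖ + ‖b • (y - w)‖ := norm_add_le _ _
        _ = a * ‖x - w‖ + b * ‖y - w‖ := by
            rw [norm_smul, norm_smul, Real.norm_of_nonneg ha, Real.norm_of_nonneg hb]
        _ ≤ a * 1 + b * 1 := by
            have h2 := mul_le_mul_of_nonneg_left hx.1 ha
            have h3 := mul_le_mul_of_nonneg_left hy.1 hb
            exact add_le_add h2 h3
        _ = 1 := by linarith
    · have h1 : w + (1 + τ) • (a • x + b • y - w) =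
          a • (w + (1 + τ) • (x - w)) + b • (w + (1 + τ) • (y - w)) := by
        have : w = a • w + b • w := by rw [← add_smul, hab, one_smul]
        calc w + (1 + τ) • (a • x + b • y - w)
            = (a • w + b • w) + (1 + τ) • (a • x + b • y - (a • w + b • w)) := by rw [← this]
          _ = a • (w + (1 + τ) • (x - w)) + b • (w + (1 + τ) • (y - w)) := by module
      show w + (1 + τ) • (a • x + b • y - w) ∈ C
      rw [h1]
      exact hconv hx.2 hy.2 ha hb hab
  have hKsub : K ⊆ closedBall w 1 := by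
    rw [hKeq]
    exact inter_subset_left
  have hlay := layer_bound hn4 K hKconv hKc w hKsub (τ * s) (by positivity)
  set T1 : Set (EuclideanSpace ℝ (Fin (n + 1))) := {x | x ∈ K ∧ ¬ closedBall x (τ * s) ⊆ K} with hT1
  set T2 : Set (EuclideanSpace ℝ (Fin (n + 1))) := {x | ‖x - w‖ ≤ 1 ∧
      s ^ 2 < ∑ i : Fin m, (inner ℝ (A (EuclideanSpace.basisFun (Fin m) ℝ i)) (x - w)) ^ 2} with hT2
  have htail := tail_le A w s hs
  have hsub : {q : EuclideanSpace ℝ (Fin m) × EuclideanSpace ℝ (Fin (N + 1)) |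
        ‖A q.1 + B q.2 - w‖ ≤ 1 ∧ w + (1 + τ) • (A q.1 + B q.2 - w) ∈ C ∧
        A q.1 + B (β + (1 + τ) • (q.2 - β)) ∉ C} ⊆ Φ ⁻¹' (T1 ∪ T2) := by
    rintro q ⟨h1, h2, h3⟩
    have hx : Φ q - w = A (q.1 - α) + B (q.2 - β) := by
      simp only [hΦ, hw, map_sub]
      abel
    by_cases hq : ‖q.1 - α‖ ≤ s
    · left
      refine ⟨⟨h1, h2⟩, ?_⟩
      intro hcon
      have hmem : Φ q - (τ / (1 + τ)) • A (q.1 - α) ∈ closedBall (Φ q) (τ * s) := by
        rw [mem_closedBall, dist_eq_norm]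
        have : Φ q - (τ / (1 + τ)) • A (q.1 - α) - Φ q = -((τ / (1 + τ)) • A (q.1 - α)) := by abel
        rw [this, norm_neg, norm_smul, A.norm_map, Real.norm_of_nonneg (by positivity)]
        have h4 : τ / (1 + τ) ≤ τ := div_le_self hτ.le (by linarith)
        exact mul_le_mul h4 hq (norm_nonneg _) hτ.le
      have h5 := (hcon hmem).2
      apply h3
      have h6 : w + (1 + τ) • (Φ q - (τ / (1 + τ)) • A (q.1 - α) - w) =
          A q.1 + B (β + (1 + τ) • (q.2 - β)) := by
        have h7 : Φ q - (τ / (1 + τ)) • A (q.1 - α) - w =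
            (A (q.1 - α) + B (q.2 - β)) - (τ / (1 + τ)) • A (q.1 - α) := by
          rw [← hx]; abel
        rw [h7, smul_sub, smul_smul, mul_div_cancel₀ _ h1τ.ne', hw]
        simp only [map_sub, map_add, map_smul]
        module
      rw [← h6]
      exact h5
    · right
      push Not at hq
      refine ⟨h1, ?_⟩
      have h8 : ∑ i : Fin m, (inner ℝ (A (EuclideanSpace.basisFun (Fin m) ℝ i)) (Φ q - w)) ^ 2 =
          ‖q.1 - α‖ ^ 2 := by
        rw [← (EuclideanSpace.basisFun (Fin m) ℝ).sum_sq_inner_right (q.1 - α)]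
        refine Finset.sum_congr rfl fun i _ => ?_
        rw [hx, inner_add_right, hAB, add_zero, A.inner_map_map]
      rw [h8]
      have h0 := norm_nonneg (q.1 - α)
      nlinarith
  have hm1 : volume T1 ≠ ⊤ :=
    ne_top_of_le_ne_top (isCompact_closedBall w 1).measure_lt_top.ne
      (measure_mono (fun x hx => hKsub hx.1))
  have hm2 : volume T2 ≠ ⊤ :=
    ne_top_of_le_ne_top (isCompact_closedBall w 1).measure_lt_top.ne
      (measure_mono (fun x hx => by simpa [dist_eq_norm] using hx.1))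
  -- outer measure of the preimage: pass to a measurable hull
  have hpre : volume (Φ ⁻¹' (T1 ∪ T2)) ≤ volume (T1 ∪ T2) := by
    calc volume (Φ ⁻¹' (T1 ∪ T2)) ≤ volume (Φ ⁻¹' (toMeasurable volume (T1 ∪ T2))) :=
          measure_mono (preimage_mono (subset_toMeasurable _ _))
      _ = volume (toMeasurable volume (T1 ∪ T2)) :=
          hmp.measure_preimage (measurableSet_toMeasurable _ _).nullMeasurableSet
      _ = volume (T1 ∪ T2) := measure_toMeasurable _
  have hU : volume (T1 ∪ T2) ≠ ⊤ := ((measure_union_le T1 T2).trans_lt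
    (ENNReal.add_lt_top.mpr ⟨hm1.lt_top, hm2.lt_top⟩)).ne
  calc volume.real {q : EuclideanSpace ℝ (Fin m) × EuclideanSpace ℝ (Fin (N + 1)) |
        ‖A q.1 + B q.2 - w‖ ≤ 1 ∧ w + (1 + τ) • (A q.1 + B q.2 - w) ∈ C ∧
        A q.1 + B (β + (1 + τ) • (q.2 - β)) ∉ C}
      ≤ volume.real (T1 ∪ T2) := by
        rw [measureReal_def, measureReal_def]
        exact ENNReal.toReal_mono hU ((measure_mono hsub).trans hpre)
    _ ≤ volume.real T1 + volume.real T2 := measureReal_union_le _ _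
    _ ≤ 4 * (τ * s) * ((n : ℝ) + 1) * kap (n + 1) +
        m / (((n : ℝ) + 1) * s ^ 2) * kap (n + 1) := add_le_add hlay htail
    _ = (4 * (τ * s) * ((n : ℝ) + 1) + m / (((n : ℝ) + 1) * s ^ 2)) * kap (n + 1) := by ring

end SA70
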