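import Pool.Agent.SA70.Basic

/-! LPa: the concave function `Φ(x, a) = max_{z ∈ C} min_{w ∈ W} (‖w‖² + a_w + 2⟨z, x - w⟩)` and its
derivatives in `a` (idea: helper1). -/

set_option autoImplicit false

open MeasureTheory Measure Metric Set Module

namespace SA70

namespace LPW

variable {E : Type*} [NormedAddCommGroup E] [InnerProductSpace ℝ E]
variable {ι : Type*} [Fintype ι]

/-- the affine functions -/
noncomputable def FF (w : ι → E) (z x : E) (a : ι → ℝ) (i : ι) : ℝ :=
  ‖w i‖ ^ 2 + a i + 2 * inner ℝ z (x - w i)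

/-- their minimum -/
noncomputable def mF (w : ι → E) (z x : E) (a : ι → ℝ) : ℝ := ⨅ i, FF w z x a i

/-- the value function -/
noncomputable def Phi (C : Set E) (w : ι → E) (x : E) (a : ι → ℝ) : ℝ :=
  sSup ((fun z => mF w z x a) '' C)

theorem mF_le (w : ι → E) (z x : E) (a : ι → ℝ) (i : ι) : mF w z x a ≤ FF w z x a i :=
  ciInf_le (Set.finite_range _).bddBelow i

theorem le_mF [Nonempty ι] (w : ι → E) (z x : E) (a : ι → ℝ) {c : ℝ}
    (h : ∀ i, c ≤ FF w z x a i) : c ≤ mF w z x a := le_ciInf h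

theorem bdd [Nonempty ι] {C : Set E} {M : ℝ} (hM : ∀ z ∈ C, ‖z‖ ≤ M) (w : ι → E) (x : E)
    (a : ι → ℝ) : BddAbove ((fun z => mF w z x a) '' C) := by
  obtain ⟨i⟩ := (inferInstance : Nonempty ι)
  refine ⟨‖w i‖ ^ 2 + a i + 2 * (M * ‖x - w i‖), ?_⟩
  rintro _ ⟨z, hz, rfl⟩
  refine (mF_le w z x a i).trans ?_
  unfold FF
  have h1 : inner ℝ z (x - w i) ≤ ‖z‖ * ‖x - w i‖ := real_inner_le_norm _ _
  have h2 : ‖z‖ * ‖x - w i‖ ≤ M * ‖x - w i‖ :=
    mul_le_mul_of_nonneg_right (hM z hz) (norm_nonneg _)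
  linarith

theorem le_Phi [Nonempty ι] {C : Set E} {M : ℝ} (hM : ∀ z ∈ C, ‖z‖ ≤ M) (w : ι → E) (x : E)
    (a : ι → ℝ) {z : E} (hz : z ∈ C) : mF w z x a ≤ Phi C w x a :=
  le_csSup (bdd hM w x a) ⟨z, hz, rfl⟩

theorem Phi_le {C : Set E} (hne : C.Nonempty) (w : ι → E) (x : E) (a : ι → ℝ) {c : ℝ}
    (h : ∀ z ∈ C, mF w z x a ≤ c) : Phi C w x a ≤ c := by
  refine csSup_le (hne.image _) ?_
  rintro _ ⟨z, hz, rfl⟩
  exact h z hz

theorem Phi_lip [Nonempty ι] {C : Set E} (hne : C.Nonempty) {M : ℝ} (hM : ∀ z ∈ C, ‖z‖ ≤ M)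
    (w : ι → E) (x x' : E) (a a' : ι → ℝ) :
    Phi C w x a ≤ Phi C w x' a' + ‖a - a'‖ + 2 * M * ‖x - x'‖ := by
  refine Phi_le hne w x a (fun z hz => ?_)
  have h1 : mF w z x a ≤ mF w z x' a' + ‖a - a'‖ + 2 * M * ‖x - x'‖ := by
    have : mF w z x a - ‖a - a'‖ - 2 * M * ‖x - x'‖ ≤ mF w z x' a' := by
      refine le_mF w z x' a' (fun i => ?_)
      have h2 := mF_le w z x a i
      have h3 : a i - a' i ≤ ‖a - a'‖ := (le_abs_self _).trans (norm_le_pi_norm (a - a') i)
      have h4 : inner ℝ z (x - w i) - inner ℝ z (x' - w i) ≤ M * ‖x - x'‖ := by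
        rw [← inner_sub_right]
        have e : x - w i - (x' - w i) = x - x' := by abel
        rw [e]
        exact (real_inner_le_norm _ _).trans
          (mul_le_mul_of_nonneg_right (hM z hz) (norm_nonneg _))
      unfold FF at h2 ⊢
      linarith
    linarith
  have h5 := le_Phi hM w x' a' hz
  linarith

theorem Phi_add [Nonempty ι] {C : Set E} (hne : C.Nonempty) {M : ℝ} (hM : ∀ z ∈ C, ‖z‖ ≤ M)
    (w : ι → E) (x : E) (a : ι → ℝ) (c : ℝ) :
    Phi C w x (fun i => a i + c) = Phi C w x a + c := by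
  have key : ∀ (b : ι → ℝ) (c : ℝ), Phi C w x (fun i => b i + c) ≤ Phi C w x b + c := by
    intro b c
    refine Phi_le hne w x _ (fun z hz => ?_)
    have h1 : mF w z x (fun i => b i + c) - c ≤ mF w z x b := by
      refine le_mF w z x b (fun i => ?_)
      have := mF_le w z x (fun i => b i + c) i
      unfold FF at this ⊢
      linarith
    have := le_Phi hM w x b hz
    linarith
  refine le_antisymm (key a c) ?_
  have h := key (fun i => a i + c) (-c)
  have e : (fun i => a i + c + -c) = a := by funext i; ring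
  rw [e] at h
  linarith

theorem Phi_mono [Nonempty ι] {C : Set E} (hne : C.Nonempty) {M : ℝ} (hM : ∀ z ∈ C, ‖z‖ ≤ M)
    (w : ι → E) (x : E) {a b : ι → ℝ} (h : ∀ i, a i ≤ b i) : Phi C w x a ≤ Phi C w x b := by
  refine Phi_le hne w x a (fun z hz => ?_)
  refine le_trans (le_mF w z x b (fun i => ?_)) (le_Phi hM w x b hz)
  have := mF_le w z x a i
  have := h i
  unfold FF at *
  linarith

theorem Phi_concave [Nonempty ι] {C : Set E} (hC : Convex ℝ C) (hne : C.Nonempty) {M : ℝ}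
    (hM : ∀ z ∈ C, ‖z‖ ≤ M) (w : ι → E) (x : E) : ConcaveOn ℝ Set.univ (Phi C w x) := by
  refine ⟨convex_univ, fun a _ b _ s t hs ht hst => ?_⟩
  -- approximate maximisers
  refine le_of_forall_pos_le_add (fun e he => ?_)
  obtain ⟨_, ⟨z, hz, rfl⟩, h1⟩ := exists_lt_of_lt_csSup (hne.image _)
    (show Phi C w x a - e < sSup ((fun z => mF w z x a) '' C) by unfold Phi; linarith)
  obtain ⟨_, ⟨z', hz', rfl⟩, h2⟩ := exists_lt_of_lt_csSup (hne.image _)
    (show Phi C w x b - e < sSup ((fun z => mF w z x b) '' C) by unfold Phi; linarith)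
  have h3 : s • mF w z x a + t • mF w z' x b ≤ mF w (s • z + t • z') x (s • a + t • b) := by
    refine le_mF w _ x _ (fun i => ?_)
    have e1 := mF_le w z x a i
    have e2 := mF_le w z' x b i
    have e3 : FF w (s • z + t • z') x (s • a + t • b) i = s * FF w z x a i + t * FF w z' x b i := by
      unfold FF
      rw [inner_add_left, inner_smul_left, inner_smul_left]
      simp only [Pi.add_apply, Pi.smul_apply, smul_eq_mul, RCLike.conj_to_real]
      have : ‖w i‖ ^ 2 = (s + t) * ‖w i‖ ^ 2 := by rw [hst, one_mul]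
      linear_combination this
    rw [e3, smul_eq_mul, smul_eq_mul]
    exact add_le_add (mul_le_mul_of_nonneg_left e1 hs) (mul_le_mul_of_nonneg_left e2 ht)
  have h4 := le_Phi hM w x (s • a + t • b) (hC hz hz' hs ht hst)
  simp only [smul_eq_mul] at h3 h4 ⊢
  have h5 : s * Phi C w x a ≤ s * mF w z x a + s * e := by nlinarith
  have h6 : t * Phi C w x b ≤ t * mF w z' x b + t * e := by nlinarith
  have h7 : s * e + t * e = e := by rw [← add_mul, hst, one_mul]
  linarith

/-- supergradient inequality -/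
theorem Phi_super [Nonempty ι] {C : Set E} (hC : Convex ℝ C) (hne : C.Nonempty) {M : ℝ}
    (hM : ∀ z ∈ C, ‖z‖ ≤ M) (w : ι → E) (x : E) {a : ι → ℝ}
    (hd : DifferentiableAt ℝ (Phi C w x) a) (b : ι → ℝ) :
    Phi C w x b ≤ Phi C w x a + fderiv ℝ (Phi C w x) a (b - a) := by
  have hconc := Phi_concave hC hne hM w x
  set L : ℝ → (ι → ℝ) := fun s => a + s • (b - a) with hL
  have hg : ConcaveOn ℝ Set.univ (fun s : ℝ => Phi C w x (L s)) := by
    refine ⟨convex_univ, fun s _ t _ α β hα hβ hαβ => ?_⟩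
    have h := hconc.2 (Set.mem_univ (L s)) (Set.mem_univ (L t)) hα hβ hαβ
    have e : α • L s + β • L t = L (α • s + β • t) := by
      simp only [hL, smul_eq_mul]
      have e1 : α • (a + s • (b - a)) + β • (a + t • (b - a)) =
          (α + β) • a + (α * s + β * t) • (b - a) := by module
      rw [e1, hαβ, one_smul]
    rw [e] at h
    exact h
  have hLd : HasDerivAt L (b - a) 0 := by
    have h1 : HasDerivAt (fun s : ℝ => s • (b - a)) ((1 : ℝ) • (b - a)) 0 :=
      (hasDerivAt_id (0 : ℝ)).smul_const (b - a)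
    rw [one_smul] at h1
    exact h1.const_add a
  have hL0 : L 0 = a := by simp [hL]
  have hL1 : L 1 = b := by simp [hL]
  have hder : HasDerivAt (fun s : ℝ => Phi C w x (L s)) (fderiv ℝ (Phi C w x) a (b - a)) 0 := by
    have h1 : HasFDerivAt (Phi C w x) (fderiv ℝ (Phi C w x) a) (L 0) := by
      rw [hL0]; exact hd.hasFDerivAt
    exact h1.comp_hasDerivAt (0 : ℝ) hLd
  have h := hg.slope_le_of_hasDerivAt (Set.mem_univ 0) (Set.mem_univ 1) (by norm_num) hder
  rw [slope_def_field, hL0, hL1] at h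
  linarith

variable [DecidableEq ι]

/-- the derivative in terms of the partial derivatives -/
theorem fderiv_sum (f : (ι → ℝ) → ℝ) (a v : ι → ℝ) :
    fderiv ℝ f a v = ∑ i, v i * fderiv ℝ f a (Pi.single i 1) := by
  conv_lhs => rw [← Finset.univ_sum_single v]
  rw [_root_.map_sum]
  refine Finset.sum_congr rfl (fun i _ => ?_)
  have : (Pi.single i (v i) : ι → ℝ) = v i • Pi.single i (1 : ℝ) := by
    rw [← Pi.single_smul, smul_eq_mul, mul_one]
  rw [this, map_smul, smul_eq_mul]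

/-- the weights -/
noncomputable def lam (C : Set E) (w : ι → E) (a : ι → ℝ) (i : ι) (x : E) : ℝ :=
  fderiv ℝ (Phi C w x) a (Pi.single i 1)

theorem lam_nonneg [Nonempty ι] {C : Set E} (hC : Convex ℝ C) (hne : C.Nonempty) {M : ℝ}
    (hM : ∀ z ∈ C, ‖z‖ ≤ M) (w : ι → E) (x : E) {a : ι → ℝ}
    (hd : DifferentiableAt ℝ (Phi C w x) a) (i : ι) : 0 ≤ lam C w a i x := by
  have h := Phi_super hC hne hM w x hd (a - Pi.single i 1)
  have h2 : Phi C w x (a - Pi.single i 1) ≤ Phi C w x a := by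
    refine Phi_mono hne hM w x (fun j => ?_)
    by_cases hj : j = i
    · subst hj; simp
    · simp [hj]
  have h3 : Phi C w x (a + Pi.single i 1) ≥ Phi C w x a := by
    refine Phi_mono hne hM w x (fun j => ?_)
    by_cases hj : j = i
    · subst hj; simp
    · simp [hj]
  have h4 := Phi_super hC hne hM w x hd (a + Pi.single i 1)
  rw [add_sub_cancel_left] at h4
  unfold lam
  linarith

theorem lam_sum [Nonempty ι] {C : Set E} (hC : Convex ℝ C) (hne : C.Nonempty) {M : ℝ}
    (hM : ∀ z ∈ C, ‖z‖ ≤ M) (w : ι → E) (x : E) {a : ι → ℝ}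
    (hd : DifferentiableAt ℝ (Phi C w x) a) : ∑ i, lam C w a i x = 1 := by
  have key : ∀ c : ℝ, c ≤ c * ∑ i, lam C w a i x := by
    intro c
    have h := Phi_super hC hne hM w x hd (fun i => a i + c)
    rw [Phi_add hne hM] at h
    have e : (fun i => a i + c) - a = fun _ => c := by funext i; simp
    rw [e, fderiv_sum] at h
    unfold lam
    rw [Finset.mul_sum]
    linarith
  have h1 := key 1
  have h2 := key (-1)
  linarith

/-- dual feasibility -/
theorem lam_dual [Nonempty ι] {C : Set E} (hC : Convex ℝ C) (hne : C.Nonempty) {M : ℝ}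
    (hM : ∀ z ∈ C, ‖z‖ ≤ M) (w : ι → E) (x : E) {a : ι → ℝ}
    (hd : DifferentiableAt ℝ (Phi C w x) a) {z : E} (hz : z ∈ C) :
    ∑ i, lam C w a i x * FF w z x a i ≤ Phi C w x a := by
  set b : ι → ℝ := fun i => -‖w i‖ ^ 2 - 2 * inner ℝ z (x - w i) with hb
  have h1 : 0 ≤ Phi C w x b := by
    refine le_trans (le_mF w z x b (fun i => ?_)) (le_Phi hM w x b hz)
    unfold FF
    simp only [hb]
    linarith
  have h2 := Phi_super hC hne hM w x hd b
  rw [fderiv_sum] at h2
  have e : ∑ i, (b - a) i * fderiv ℝ (Phi C w x) a (Pi.single i 1) =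
      - ∑ i, lam C w a i x * FF w z x a i := by
    rw [← Finset.sum_neg_distrib]
    refine Finset.sum_congr rfl (fun i _ => ?_)
    unfold lam FF
    simp only [hb, Pi.sub_apply]
    ring
  rw [e] at h2
  linarith

theorem lam_cost [Nonempty ι] {C : Set E} (hC : Convex ℝ C) (hne : C.Nonempty) {M : ℝ}
    (hM : ∀ z ∈ C, ‖z‖ ≤ M) (w : ι → E) {x : E} (hx : x ∈ C) {a : ι → ℝ} (ha : ∀ i, 0 ≤ a i)
    (hd : DifferentiableAt ℝ (Phi C w x) a) :
    ∑ i, lam C w a i x * ‖x - w i‖ ^ 2 ≤ Phi C w x a - ‖x‖ ^ 2 := by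
  have h := lam_dual hC hne hM w x hd hx
  have hs := lam_sum hC hne hM w x hd
  have e : ∀ i, FF w x x a i = ‖x - w i‖ ^ 2 + ‖x‖ ^ 2 + a i := by
    intro i
    unfold FF
    rw [inner_sub_right, real_inner_self_eq_norm_sq, @norm_sub_sq_real]
    ring
  have h2 : ∑ i, lam C w a i x * FF w x x a i =
      ∑ i, lam C w a i x * ‖x - w i‖ ^ 2 + ‖x‖ ^ 2 + ∑ i, lam C w a i x * a i := by
    have : ‖x‖ ^ 2 = ∑ i, lam C w a i x * ‖x‖ ^ 2 := by rw [← Finset.sum_mul, hs, one_mul]
    conv_rhs => rw [this]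
    rw [← Finset.sum_add_distrib, ← Finset.sum_add_distrib]
    refine Finset.sum_congr rfl (fun i _ => ?_)
    rw [e i]
    ring
  have h3 : 0 ≤ ∑ i, lam C w a i x * a i :=
    Finset.sum_nonneg (fun i _ => mul_nonneg (lam_nonneg hC hne hM w x hd i) (ha i))
  linarith

/-- bound of the value for a covered set -/
theorem Phi_cov [Nonempty ι] {C : Set E} (hne : C.Nonempty) (w : ι → E)
    (hcov : ∀ z ∈ C, ∃ i, ‖z - w i‖ ≤ 1) {a : ι → ℝ} {δ : ℝ} (ha : ∀ i, a i ≤ δ) (x : E) :
    Phi C w x a ≤ 1 + δ + ‖x‖ ^ 2 := by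
  refine Phi_le hne w x a (fun z hz => ?_)
  obtain ⟨i, hi⟩ := hcov z hz
  refine (mF_le w z x a i).trans ?_
  have h1 : ‖z - w i‖ ^ 2 ≤ 1 := by nlinarith [norm_nonneg (z - w i)]
  rw [@norm_sub_sq_real] at h1
  have h2 : 0 ≤ ‖x - z‖ ^ 2 := by positivity
  rw [@norm_sub_sq_real, real_inner_comm] at h2
  have h3 := ha i
  unfold FF
  rw [inner_sub_right]
  linarith

/-- KEY: linear behaviour along the rays from `w i` -/
theorem lam_key [Nonempty ι] {C : Set E} (hC : Convex ℝ C) (hne : C.Nonempty) {M : ℝ}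
    (hM : ∀ z ∈ C, ‖z‖ ≤ M) (w : ι → E) (x : E) {a : ι → ℝ} (i : ι) {τ : ℝ} (hτ : 0 ≤ τ)
    (hd : DifferentiableAt ℝ (Phi C w x) a)
    (hd' : DifferentiableAt ℝ (Phi C w (w i + (1 + τ) • (x - w i))) a) :
    (1 + τ) * lam C w a i x - τ ≤ lam C w a i (w i + (1 + τ) • (x - w i)) := by
  set x' := w i + (1 + τ) • (x - w i) with hx'
  have hn' := lam_nonneg hC hne hM w x' hd' i
  by_cases hlt : (1 + τ) * lam C w a i x < τ
  · linarith
  push Not at hlt
  have hFF : ∀ (z : E) (b : ι → ℝ) (j : ι), FF w z x' b j =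
      FF w z x b j + 2 * τ * inner ℝ z (x - w i) := by
    intro z b j
    unfold FF
    have e : x' - w j = (x - w j) + τ • (x - w i) := by
      rw [hx']
      module
    rw [e, inner_add_right, inner_smul_right]
    ring
  -- (1) one inequality everywhere
  have h1 : ∀ b : ι → ℝ, (1 + τ) * Phi C w x b - τ * (‖w i‖ ^ 2 + b i) ≤ Phi C w x' b := by
    intro b
    have h0 : Phi C w x b ≤ (Phi C w x' b + τ * (‖w i‖ ^ 2 + b i)) / (1 + τ) := by
      refine Phi_le hne w x b (fun z hz => ?_)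
      rw [le_div_iff₀ (by linarith)]
      have h2 : mF w z x b * (1 + τ) - τ * (‖w i‖ ^ 2 + b i) ≤ mF w z x' b := by
        refine le_mF w z x' b (fun j => ?_)
        have e1 := mF_le w z x b j
        have e2 := mF_le w z x b i
        rw [hFF]
        have e3 : τ * mF w z x b ≤ τ * FF w z x b i := mul_le_mul_of_nonneg_left e2 hτ
        have e4 : FF w z x b i = ‖w i‖ ^ 2 + b i + 2 * inner ℝ z (x - w i) := rfl
        rw [e4] at e3
        nlinarith
      have h3 := le_Phi hM w x' b hz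
      linarith
    rw [le_div_iff₀ (by linarith)] at h0
    linarith
  -- (2) equality at `a`
  have h2 : Phi C w x' a ≤ (1 + τ) * Phi C w x a - τ * (‖w i‖ ^ 2 + a i) := by
    refine Phi_le hne w x' a (fun z hz => ?_)
    have hs := lam_sum hC hne hM w x hd
    have hdual := lam_dual hC hne hM w x hd hz
    set l : ι → ℝ := fun j => (1 + τ) * lam C w a j x - (if j = i then τ else 0) with hl
    have hl0 : ∀ j, 0 ≤ l j := by
      intro j
      simp only [hl]
      split_ifs with hj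
      · subst hj; linarith
      · have := lam_nonneg hC hne hM w x hd j
        have : 0 ≤ (1 + τ) * lam C w a j x := mul_nonneg (by linarith) this
        linarith
    have hl1 : ∑ j, l j = 1 := by
      simp only [hl]
      rw [Finset.sum_sub_distrib, ← Finset.mul_sum, hs, Finset.sum_ite_eq' Finset.univ i]
      simp
    have hmin : mF w z x' a ≤ ∑ j, l j * FF w z x' a j := by
      calc mF w z x' a = ∑ j, l j * mF w z x' a := by rw [← Finset.sum_mul, hl1, one_mul]
        _ ≤ _ := Finset.sum_le_sum (fun j _ => mul_le_mul_of_nonneg_left (mF_le w z x' a j) (hl0 j))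
    have e : ∑ j, l j * FF w z x' a j =
        (1 + τ) * ∑ j, lam C w a j x * FF w z x a j - τ * (‖w i‖ ^ 2 + a i) := by
      have e1 : ∀ j, l j * FF w z x' a j = (1 + τ) * (lam C w a j x * FF w z x a j) -
          (if j = i then τ * FF w z x a i else 0) + l j * (2 * τ * inner ℝ z (x - w i)) := by
        intro j
        rw [hFF]
        simp only [hl]
        split_ifs with hj
        · subst hj; ring
        · ring
      simp only [e1]
      rw [Finset.sum_add_distrib, Finset.sum_sub_distrib, ← Finset.mul_sum, ← Finset.sum_mul, hl1,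
        Finset.sum_ite_eq' Finset.univ i]
      simp only [Finset.mem_univ, if_true]
      unfold FF
      ring
    rw [e] at hmin
    have : (1 + τ) * ∑ j, lam C w a j x * FF w z x a j ≤ (1 + τ) * Phi C w x a :=
      mul_le_mul_of_nonneg_left hdual (by linarith)
    linarith
  -- (3) the derivatives agree
  set g : (ι → ℝ) → ℝ := fun b => Phi C w x' b -
    ((1 + τ) * Phi C w x b - τ * (‖w i‖ ^ 2 + b i)) with hg
  have hmin : IsLocalMin g a := by
    refine Filter.Eventually.of_forall (fun b => ?_)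
    have := h1 b
    simp only [hg]
    linarith
  have hproj : HasFDerivAt (fun b : ι → ℝ => b i) (ContinuousLinearMap.proj i : (ι → ℝ) →L[ℝ] ℝ) a :=
    (ContinuousLinearMap.proj i : (ι → ℝ) →L[ℝ] ℝ).hasFDerivAt
  have hD : HasFDerivAt g (fderiv ℝ (Phi C w x') a - ((1 + τ) • fderiv ℝ (Phi C w x) a -
      τ • (ContinuousLinearMap.proj i : (ι → ℝ) →L[ℝ] ℝ))) a := by
    refine hd'.hasFDerivAt.sub ((hd.hasFDerivAt.const_mul (1 + τ)).sub ?_)
    exact (hproj.const_add (‖w i‖ ^ 2)).const_mul τ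
  have h0 := hmin.hasFDerivAt_eq_zero hD
  have h5 := congrArg (fun T => T (Pi.single i (1 : ℝ))) h0
  simp only [_root_.sub_apply, _root_.smul_apply, smul_eq_mul,
    ContinuousLinearMap.proj_apply, Pi.single_eq_same, mul_one, _root_.zero_apply]
    at h5
  unfold lam
  linarith

end LPW

open SC70 LPW

theorem phi_exists {n : ℕ} (C : Set (EuclideanSpace ℝ (Fin (n + 1))))
    (W : Finset (EuclideanSpace ℝ (Fin (n + 1)))) (hconv : Convex ℝ C) (hCc : IsCompact C)
    (hne : C.Nonempty) (hcov : C ⊆ ⋃ w ∈ W, closedBall w 1) (δ : ℝ) (hδ : 0 < δ) :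
    ∃ Φ : EuclideanSpace ℝ (Fin (n + 1)) → (W → ℝ) → ℝ,
      (Continuous fun q : EuclideanSpace ℝ (Fin (n + 1)) × (W → ℝ) => Φ q.1 q.2) ∧
      (∀ x, LipschitzWith 1 (Φ x)) ∧
      (∀ x a, DifferentiableAt ℝ (Φ x) a →
        (∀ w, 0 ≤ fderiv ℝ (Φ x) a (Pi.single w 1)) ∧
        ∑ w, fderiv ℝ (Φ x) a (Pi.single w 1) = 1 ∧
        (x ∈ C → (∀ w, 0 ≤ a w ∧ a w ≤ δ) →
          ∑ w : W, fderiv ℝ (Φ x) a (Pi.single w 1) *
            ‖x - (w : EuclideanSpace ℝ (Fin (n + 1)))‖ ^ 2 ≤ 1 + δ)) ∧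
      (∀ x a (w : W) (τ : ℝ), 0 < τ → DifferentiableAt ℝ (Φ x) a →
        DifferentiableAt ℝ (Φ ((w : EuclideanSpace ℝ (Fin (n + 1))) + (1 + τ) • (x - w))) a →
        (1 + τ) * fderiv ℝ (Φ x) a (Pi.single w 1) - τ ≤
          fderiv ℝ (Φ ((w : EuclideanSpace ℝ (Fin (n + 1))) + (1 + τ) • (x - w))) a
            (Pi.single w 1)) := by
  obtain ⟨M, hM⟩ := hCc.isBounded.exists_norm_le
  obtain ⟨z0, hz0⟩ := hne
  have hM0 : 0 ≤ M := (norm_nonneg _).trans (hM z0 hz0)
  have hcov' : ∀ z ∈ C, ∃ i : W, ‖z - (i : EuclideanSpace ℝ (Fin (n + 1)))‖ ≤ 1 := by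
    intro z hz
    have := hcov hz
    simp only [Set.mem_iUnion, mem_closedBall, dist_eq_norm] at this
    obtain ⟨w, hw, h⟩ := this
    exact ⟨⟨w, hw⟩, h⟩
  haveI : Nonempty W := by
    obtain ⟨i, _⟩ := hcov' z0 hz0
    exact ⟨i⟩
  have hne : C.Nonempty := ⟨z0, hz0⟩
  set v : W → EuclideanSpace ℝ (Fin (n + 1)) := fun i => (i : EuclideanSpace ℝ (Fin (n + 1))) with hv
  refine ⟨Phi C v, ?_, ?_, ?_, ?_⟩
  · -- continuity
    have hl : LipschitzWith (Real.toNNReal (1 + 2 * M))
        (fun q : EuclideanSpace ℝ (Fin (n + 1)) × (W → ℝ) => Phi C v q.1 q.2) := by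
      refine LipschitzWith.of_le_add_mul _ (fun q q' => ?_)
      have h := Phi_lip hne hM v q.1 q'.1 q.2 q'.2
      rw [Real.coe_toNNReal _ (by linarith)]
      have h1 : ‖q.2 - q'.2‖ ≤ dist q q' := by
        rw [← dist_eq_norm]
        exact le_max_right _ _
      have h2 : ‖q.1 - q'.1‖ ≤ dist q q' := by
        rw [← dist_eq_norm]
        exact le_max_left _ _
      have h3 : 2 * M * ‖q.1 - q'.1‖ ≤ 2 * M * dist q q' :=
        mul_le_mul_of_nonneg_left h2 (by linarith)
      linarith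
    exact hl.continuous
  · intro x
    refine LipschitzWith.of_le_add (fun a a' => ?_)
    have h := Phi_lip hne hM v x x a a'
    rw [sub_self, norm_zero, mul_zero, add_zero, ← dist_eq_norm] at h
    exact h
  · intro x a hd
    refine ⟨fun w => lam_nonneg hconv hne hM v x hd w, lam_sum hconv hne hM v x hd, ?_⟩
    intro hx ha
    have h1 := lam_cost hconv hne hM v hx (fun i => (ha i).1) hd
    have h2 := Phi_cov hne v hcov' (fun i => (ha i).2) x
    have h3 : ∑ w : W, lam C v a w x * ‖x - v w‖ ^ 2 ≤ 1 + δ := by linarith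
    exact h3
  · intro x a w τ hτ hd hd'
    exact lam_key hconv hne hM v x w hτ.le hd hd'

end SA70
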