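import Pool.Agent.SA70.LPa

/-! LPb: the weights. -/

set_option autoImplicit false

open MeasureTheory Measure Metric Set Module ENNReal

namespace SA70

open SC70

private theorem lpb_dil {n : ℕ} {p : EuclideanSpace ℝ (Fin (n + 1)) → Prop} (h : ∀ᵐ x, p x)
    (w : EuclideanSpace ℝ (Fin (n + 1))) (τ : ℝ) (hτ : 0 < τ) :
    ∀ᵐ x : EuclideanSpace ℝ (Fin (n + 1)), p (w + (1 + τ) • (x - w)) := by
  have h1 : volume {x | ¬ p x} = 0 := h
  have h2 : volume (AffineMap.homothety w (1 + τ)⁻¹ '' {x | ¬ p x}) = 0 := by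
    rw [Measure.addHaar_image_homothety, h1, mul_zero]
  refine measure_mono_null (fun x hx => ?_) h2
  refine ⟨w + (1 + τ) • (x - w), hx, ?_⟩
  have hne : (1 + τ : ℝ) ≠ 0 := by positivity
  rw [AffineMap.homothety_apply, vsub_eq_sub, vadd_eq_add, add_sub_cancel_left, smul_smul,
    inv_mul_cancel₀ hne, one_smul, sub_add_cancel]

/-- From `phi_exists`: `{(x,a) | Φ x differentiable at a}` is measurable
(`measurableSet_of_differentiableAt_with_param`), for every `x` almost every `a` is in it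
(Rademacher, `LipschitzWith.ae_differentiableAt`), so by Fubini (`Measure.ae_ae_comm` or
`measure_prod_null`) for almost every `a`, in particular for some `a` in the box `[0,δ]^W` (positive
measure), almost every `x`. `lam w x = max 0 (fderiv ℝ (Φ x) a (Pi.single w 1))` (measurable:
`measurable_fderiv_apply_const_with_param`), `0` for `w ∉ W`. The map `x ↦ w + (1+τ)(x-w)` preserves
null sets. -/
theorem lp_weights {n : ℕ} (C : Set (EuclideanSpace ℝ (Fin (n + 1))))
    (W : Finset (EuclideanSpace ℝ (Fin (n + 1)))) (hconv : Convex ℝ C) (hCc : IsCompact C)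
    (hne : C.Nonempty) (hcov : C ⊆ ⋃ w ∈ W, closedBall w 1) (δ : ℝ) (hδ : 0 < δ) :
    ∃ lam : EuclideanSpace ℝ (Fin (n + 1)) → EuclideanSpace ℝ (Fin (n + 1)) → ℝ,
      (∀ w, Measurable (lam w)) ∧ (∀ w x, 0 ≤ lam w x) ∧
      (∀ᵐ x, ∑ w ∈ W, lam w x = 1) ∧
      (∀ᵐ x, x ∈ C → ∑ w ∈ W, lam w x * ‖x - w‖ ^ 2 ≤ 1 + δ) ∧
      (∀ w ∈ W, ∀ τ : ℝ, 0 < τ → ∀ᵐ x, (1 + τ) * lam w x - τ ≤ lam w (w + (1 + τ) • (x - w))) := by
  classical
  obtain ⟨Φ, hcont, hLip, hder, hkey⟩ := phi_exists C W hconv hCc hne hcov δ hδ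
  have hcont' : Continuous (Function.uncurry Φ) := hcont
  have hmeas : MeasurableSet {q : EuclideanSpace ℝ (Fin (n + 1)) × (W → ℝ) |
      DifferentiableAt ℝ (Φ q.1) q.2} := measurableSet_of_differentiableAt_with_param ℝ hcont'
  have h1 : ∀ᵐ x : EuclideanSpace ℝ (Fin (n + 1)), ∀ᵐ a : W → ℝ, DifferentiableAt ℝ (Φ x) a :=
    Filter.Eventually.of_forall fun x => (hLip x).ae_differentiableAt
  have h2 : ∀ᵐ a : W → ℝ, ∀ᵐ x : EuclideanSpace ℝ (Fin (n + 1)), DifferentiableAt ℝ (Φ x) a :=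
    (ae_ae_comm hmeas).1 h1
  -- a point of the box
  obtain ⟨a, ha, hgood⟩ : ∃ a : W → ℝ, a ∈ closedBall (fun _ : W => δ / 2) (δ / 2) ∧
      ∀ᵐ x : EuclideanSpace ℝ (Fin (n + 1)), DifferentiableAt ℝ (Φ x) a := by
    by_contra hcon
    have hpos : 0 < volume (closedBall (fun _ : W => δ / 2) (δ / 2)) :=
      Metric.measure_closedBall_pos volume _ (by positivity)
    have hnull : volume {a : W → ℝ |
        ¬ ∀ᵐ x : EuclideanSpace ℝ (Fin (n + 1)), DifferentiableAt ℝ (Φ x) a} = 0 := h2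
    have h3 := measure_mono_null (μ := volume)
      (s := closedBall (fun _ : W => δ / 2) (δ / 2))
      (fun a ha hg => hcon ⟨a, ha, hg⟩) hnull
    rw [h3] at hpos
    exact lt_irrefl _ hpos
  have hbox : ∀ w, 0 ≤ a w ∧ a w ≤ δ := by
    intro w
    have h3 := (dist_pi_le_iff (by positivity)).1 (mem_closedBall.1 ha) w
    rw [Real.dist_eq, abs_le] at h3
    constructor <;> linarith [h3.1, h3.2]
  obtain ⟨lam, hlam1, hlam2⟩ : ∃ lam : EuclideanSpace ℝ (Fin (n + 1)) →
      EuclideanSpace ℝ (Fin (n + 1)) → ℝ,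
      (∀ (w : W) x, lam w x = max 0 (fderiv ℝ (Φ x) a (Pi.single w 1))) ∧
      ∀ w, w ∉ W → ∀ x, lam w x = 0 :=
    ⟨fun w x => if hw : w ∈ W then max 0 (fderiv ℝ (Φ x) a (Pi.single ⟨w, hw⟩ 1)) else 0,
      fun w x => dif_pos w.2, fun w hw x => dif_neg hw⟩
  have hval : ∀ᵐ x, ∀ w : W, lam w x = fderiv ℝ (Φ x) a (Pi.single w 1) := by
    filter_upwards [hgood] with x hx w
    rw [hlam1, max_eq_right ((hder x a hx).1 w)]
  refine ⟨lam, ?_, ?_, ?_, ?_, ?_⟩
  · intro w
    by_cases hw : w ∈ W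
    · have h3 : lam w = fun x => max 0 (fderiv ℝ (Φ x) a (Pi.single (⟨w, hw⟩ : W) 1)) := by
        funext x
        exact hlam1 ⟨w, hw⟩ x
      rw [h3]
      refine measurable_const.max ?_
      exact (measurable_fderiv_apply_const_with_param ℝ hcont'
        (Pi.single (⟨w, hw⟩ : W) (1 : ℝ))).comp measurable_prodMk_right
    · have h3 : lam w = fun _ => 0 := by
        funext x
        exact hlam2 w hw x
      rw [h3]
      exact measurable_const
  · intro w x
    by_cases hw : w ∈ W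
    · rw [hlam1 ⟨w, hw⟩ x]
      exact le_max_left _ _
    · rw [hlam2 w hw x]
  · filter_upwards [hgood, hval] with x hx hv
    rw [← Finset.sum_coe_sort W (fun w => lam w x), ← (hder x a hx).2.1]
    exact Finset.sum_congr rfl fun w _ => hv w
  · filter_upwards [hgood, hval] with x hx hv hxC
    rw [← Finset.sum_coe_sort W (fun w => lam w x * ‖x - w‖ ^ 2)]
    refine le_of_eq_of_le (Finset.sum_congr rfl fun w _ => ?_) ((hder x a hx).2.2 hxC hbox)
    rw [hv w]
  · intro w hw τ hτ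
    filter_upwards [hgood, hval, lpb_dil hgood w τ hτ, lpb_dil hval w τ hτ] with x hx hv hx' hv'
    rw [hv ⟨w, hw⟩, hv' ⟨w, hw⟩]
    exact hkey x a ⟨w, hw⟩ τ hτ hx hx'

end SA70
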