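import Pool.Agent.WSB71.VPL

/-!
# [SA70-PL] the Prékopa-Leindler inequality with general weights in `ℝ^n` (helper1)
-/

set_option autoImplicit false

open MeasureTheory Filter Topology
open scoped NNReal ENNReal Pointwise

namespace Pool.Agent.SA70

open Pool.Agent.WSB71

/-- Brunn-Minkowski on the line with weights -/
lemma bm_line {a b : ℝ} (ha : 0 < a) (hb : 0 < b) {A B C : Set ℝ} (hA : MeasurableSet A)
    (hB : MeasurableSet B) (hA0 : A.Nonempty) (hB0 : B.Nonempty)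
    (h : ∀ x ∈ A, ∀ y ∈ B, a * x + b * y ∈ C) :
    ENNReal.ofReal a * volume A + ENNReal.ofReal b * volume B ≤ volume C := by
  have key : ∀ K L : Set ℝ, K ⊆ A → L ⊆ B → IsCompact K → IsCompact L → K.Nonempty →
      L.Nonempty → ENNReal.ofReal a * volume K + ENNReal.ofReal b * volume L ≤ volume C := by
    intro K L hKA hLB hK hL hK0 hL0
    have e : ∀ (s : ℝ) (S : Set ℝ), 0 < s → volume (s • S) = ENNReal.ofReal s * volume S := by
      intro s S hs
      rw [Measure.addHaar_smul, Module.finrank_self, pow_one, abs_of_pos hs]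
    rw [← e a K ha, ← e b L hb]
    refine (bm_compact (hK.smul a) (hL.smul b) hK0.smul_set hL0.smul_set).trans (measure_mono ?_)
    rintro _ ⟨_, ⟨k, hk, rfl⟩, _, ⟨l, hl, rfl⟩, rfl⟩
    exact h k (hKA hk) l (hLB hl)
  obtain ⟨x, hx⟩ := hA0
  obtain ⟨y, hy⟩ := hB0
  have hne : ∀ {K : Set ℝ} {c : ℝ≥0∞}, c < volume K → K.Nonempty := by
    intro K c hc
    rw [Set.nonempty_iff_ne_empty]
    rintro rfl
    simp at hc
  have ha0 : ENNReal.ofReal a ≠ 0 := (ENNReal.ofReal_pos.2 ha).ne'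
  have hb0 : ENNReal.ofReal b ≠ 0 := (ENNReal.ofReal_pos.2 hb).ne'
  have sup : ∀ (s : ℝ) (S : Set ℝ), 0 < s → MeasurableSet S → ∀ c < ENNReal.ofReal s * volume S,
      ∃ K ⊆ S, IsCompact K ∧ c < ENNReal.ofReal s * volume K ∧ K.Nonempty := by
    intro s S hs hS c hc
    have hs0 : ENNReal.ofReal s ≠ 0 := (ENNReal.ofReal_pos.2 hs).ne'
    have h1 : c / ENNReal.ofReal s < volume S := by
      rw [ENNReal.div_lt_iff (Or.inl hs0) (Or.inl ENNReal.ofReal_ne_top), mul_comm]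
      exact hc
    obtain ⟨K, hKS, hK, hcK⟩ := hS.exists_lt_isCompact h1
    refine ⟨K, hKS, hK, ?_, hne hcK⟩
    rwa [ENNReal.div_lt_iff (Or.inl hs0) (Or.inl ENNReal.ofReal_ne_top), mul_comm] at hcK
  by_cases h0 : volume A = 0
  · rw [h0, mul_zero, zero_add]
    refine le_of_forall_lt fun c hc => ?_
    obtain ⟨L, hLB, hL, hcL, hL0⟩ := sup b B hb hB c hc
    have := key {x} L (Set.singleton_subset_iff.2 hx) hLB isCompact_singleton hL
      (Set.singleton_nonempty x) hL0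
    rw [measure_singleton, mul_zero, zero_add] at this
    exact hcL.trans_le this
  by_cases h0' : volume B = 0
  · rw [h0', mul_zero, add_zero]
    refine le_of_forall_lt fun c hc => ?_
    obtain ⟨L, hLB, hL, hcL, hL0⟩ := sup a A ha hA c hc
    have := key L {y} hLB (Set.singleton_subset_iff.2 hy) hL isCompact_singleton hL0
      (Set.singleton_nonempty y)
    rw [measure_singleton, mul_zero, add_zero] at this
    exact hcL.trans_le this
  refine le_of_forall_lt fun c hc => ?_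
  obtain ⟨u, hu, v, hv, huv⟩ := ENNReal.exists_lt_add_of_lt_add hc (mul_ne_zero ha0 h0)
    (mul_ne_zero hb0 h0')
  obtain ⟨K, hKA, hK, huK, hK0⟩ := sup a A ha hA u hu
  obtain ⟨L, hLB, hL, hvL, hL0⟩ := sup b B hb hB v hv
  exact huv.trans_le ((add_le_add huK.le hvL.le).trans (key K L hKA hLB hK hL hK0 hL0))

section

variable {a b : ℝ}

lemma rpow_add_one {a b : ℝ} (ha : 0 < a) (hb : 0 < b) (hab : a + b = 1) (t : ℝ≥0∞) :
    t ^ a * t ^ b = t := by
  rw [← ENNReal.rpow_add_of_nonneg _ _ ha.le hb.le, hab, ENNReal.rpow_one]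

/-- weighted AM-GM -/
lemma amgm (ha : 0 < a) (hb : 0 < b) (hab : a + b = 1) (x y : ℝ≥0∞) :
    x ^ a * y ^ b ≤ ENNReal.ofReal a * x + ENNReal.ofReal b * y := by
  have ha0 : ENNReal.ofReal a ≠ 0 := (ENNReal.ofReal_pos.2 ha).ne'
  have hb0 : ENNReal.ofReal b ≠ 0 := (ENNReal.ofReal_pos.2 hb).ne'
  by_cases hx : x = ⊤
  · rw [hx, ENNReal.mul_top ha0, top_add]
    exact le_top
  by_cases hy : y = ⊤
  · rw [hy, ENNReal.mul_top hb0, add_top]
    exact le_top
  lift x to ℝ≥0 using hx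
  lift y to ℝ≥0 using hy
  have h1 := NNReal.geom_mean_le_arith_mean2_weighted a.toNNReal b.toNNReal x y (by
    rw [← Real.toNNReal_add ha.le hb.le, hab, Real.toNNReal_one])
  rw [Real.coe_toNNReal _ ha.le, Real.coe_toNNReal _ hb.le] at h1
  rw [← ENNReal.coe_rpow_of_nonneg _ ha.le, ← ENNReal.coe_rpow_of_nonneg _ hb.le]
  rw [ENNReal.ofReal, ENNReal.ofReal]
  exact_mod_cast h1

/-- normalised form -/
lemma plw_norm (ha : 0 < a) (hb : 0 < b) (hab : a + b = 1) {f g h : ℝ → ℝ≥0∞} (hf : Measurable f)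
    (hg : Measurable g) (hh : Measurable h)
    (hf1 : ∀ x, f x ≤ 1) (hg1 : ∀ x, g x ≤ 1)
    (sf : ∀ t : ℝ, t < 1 → ∃ x, ENNReal.ofReal t < f x)
    (sg : ∀ t : ℝ, t < 1 → ∃ x, ENNReal.ofReal t < g x)
    (H : ∀ x y, f x ^ a * g y ^ b ≤ h (a * x + b * y)) :
    ENNReal.ofReal a * (∫⁻ x, f x) + ENNReal.ofReal b * (∫⁻ x, g x) ≤ ∫⁻ x, h x := by
  -- layer cake
  have cake : ∀ p : ℝ → ℝ≥0∞, Measurable p → (∀ x, p x ≤ 1) →
      ∫⁻ x, p x = ∫⁻ t in Set.Ioi (0 : ℝ), volume {a : ℝ | t < (p a).toReal} := by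
    intro p hp hp1
    rw [← lintegral_eq_lintegral_meas_lt volume (f := fun x => (p x).toReal)
      (Eventually.of_forall fun x => ENNReal.toReal_nonneg) hp.ennreal_toReal.aemeasurable]
    refine lintegral_congr fun x => ?_
    rw [ENNReal.ofReal_toReal (ne_top_of_le_ne_top ENNReal.one_ne_top (hp1 x))]
  have lt_iff : ∀ (p : ℝ → ℝ≥0∞), (∀ x, p x ≤ 1) → ∀ t : ℝ, 0 < t → ∀ x,
      (t < (p x).toReal ↔ ENNReal.ofReal t < p x) := by
    intro p hp1 t ht x
    rw [ENNReal.ofReal_lt_iff_lt_toReal ht.le (ne_top_of_le_ne_top ENNReal.one_ne_top (hp1 x))]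
  let k : ℝ → ℝ≥0∞ := fun x => min (h x) 1
  have hk : Measurable k := hh.min measurable_const
  have hk1 : ∀ x, k x ≤ 1 := fun x => min_le_right _ _
  have hkh : ∫⁻ x, k x ≤ ∫⁻ x, h x := lintegral_mono fun x => min_le_left _ _
  refine le_trans ?_ hkh
  rw [cake f hf hf1, cake g hg hg1, cake k hk hk1]
  have hanti : Measurable fun t : ℝ => volume {a : ℝ | t < (f a).toReal} := by
    refine Antitone.measurable fun s t hst => measure_mono fun x hx => ?_
    exact lt_of_le_of_lt hst hx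
  rw [← lintegral_const_mul' _ _ ENNReal.ofReal_ne_top, ← lintegral_const_mul' _ _ ENNReal.ofReal_ne_top,
    ← lintegral_add_left (hanti.const_mul _)]
  refine setLIntegral_mono' measurableSet_Ioi fun t ht => ?_
  have ht0 : 0 < t := ht
  by_cases ht1 : t < 1
  · obtain ⟨x0, hx0⟩ := sf t ht1
    obtain ⟨y0, hy0⟩ := sg t ht1
    refine bm_line ha hb (measurableSet_lt measurable_const hf.ennreal_toReal)
      (measurableSet_lt measurable_const hg.ennreal_toReal)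
      ⟨x0, (lt_iff f hf1 t ht0 x0).2 hx0⟩ ⟨y0, (lt_iff g hg1 t ht0 y0).2 hy0⟩ ?_
    intro x hx y hy
    have hx' := (lt_iff f hf1 t ht0 x).1 hx
    have hy' := (lt_iff g hg1 t ht0 y).1 hy
    refine (lt_iff k hk1 t ht0 _).2 ?_
    refine lt_min ?_ ?_
    · refine lt_of_lt_of_le ?_ (H x y)
      calc ENNReal.ofReal t = ENNReal.ofReal t ^ a * ENNReal.ofReal t ^ b := (rpow_add_one ha hb hab _).symm
        _ < f x ^ a * g y ^ b := ENNReal.mul_lt_mul (ENNReal.rpow_lt_rpow hx' ha) (ENNReal.rpow_lt_rpow hy' hb)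
    · exact ENNReal.ofReal_lt_one.2 ht1
  · have e : ∀ p : ℝ → ℝ≥0∞, (∀ x, p x ≤ 1) → {a : ℝ | t < (p a).toReal} = ∅ := by
      intro p hp1
      rw [Set.eq_empty_iff_forall_notMem]
      intro x hx
      have h1 := (lt_iff p hp1 t ht0 x).1 hx
      have h2 : (1 : ℝ≥0∞) ≤ ENNReal.ofReal t := ENNReal.one_le_ofReal.2 (not_lt.1 ht1)
      exact absurd (h2.trans_lt h1) (not_lt.2 (hp1 x))
    rw [e f hf1, e g hg1, measure_empty, mul_zero, mul_zero, add_zero]
    exact zero_le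

/-- bounded form -/
lemma plw_bdd (ha : 0 < a) (hb : 0 < b) (hab : a + b = 1) {f g h : ℝ → ℝ≥0∞} (hf : Measurable f)
    (hg : Measurable g) (hh : Measurable h)
    (Mf Mg : ℕ) (hMf : ∀ x, f x ≤ Mf) (hMg : ∀ x, g x ≤ Mg)
    (H : ∀ x y, f x ^ a * g y ^ b ≤ h (a * x + b * y)) :
    (∫⁻ x, f x) ^ a * (∫⁻ x, g x) ^ b ≤ ∫⁻ x, h x := by
  set A := ⨆ x, f x with hA
  set B := ⨆ x, g x with hB
  have hAT : A ≠ ⊤ := ne_top_of_le_ne_top (ENNReal.natCast_ne_top Mf) (iSup_le hMf)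
  have hBT : B ≠ ⊤ := ne_top_of_le_ne_top (ENNReal.natCast_ne_top Mg) (iSup_le hMg)
  by_cases hA0 : A = 0
  · have : ∀ x, f x = 0 := fun x => le_antisymm ((le_iSup f x).trans hA0.le) zero_le
    simp [this, ha]
  by_cases hB0 : B = 0
  · have : ∀ x, g x = 0 := fun x => le_antisymm ((le_iSup g x).trans hB0.le) zero_le
    simp [this, hb]
  set c := A ^ a * B ^ b with hc
  have hAa0 : A ^ a ≠ 0 := (ENNReal.rpow_pos (pos_iff_ne_zero.2 hA0) hAT).ne'
  have hBb0 : B ^ b ≠ 0 := (ENNReal.rpow_pos (pos_iff_ne_zero.2 hB0) hBT).ne'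
  have hAaT : A ^ a ≠ ⊤ := ENNReal.rpow_ne_top_of_nonneg ha.le hAT
  have hBbT : B ^ b ≠ ⊤ := ENNReal.rpow_ne_top_of_nonneg hb.le hBT
  have hc0 : c ≠ 0 := mul_ne_zero hAa0 hBb0
  have hcT : c ≠ ⊤ := ENNReal.mul_ne_top hAaT hBbT
  have hsup : ∀ (p : ℝ → ℝ≥0∞) (s : ℝ≥0∞), s = ⨆ x, p x → s ≠ 0 → s ≠ ⊤ →
      (∀ x, s⁻¹ * p x ≤ 1) ∧ ∀ t : ℝ, t < 1 → ∃ x, ENNReal.ofReal t < s⁻¹ * p x := by
    intro p s hs hs0 hsT
    constructor
    · intro x
      calc s⁻¹ * p x ≤ s⁻¹ * s := by gcongr; rw [hs]; exact le_iSup p x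
        _ = 1 := ENNReal.inv_mul_cancel hs0 hsT
    · intro t ht
      have h1 : ENNReal.ofReal t * s < s := by
        have h2 : ENNReal.ofReal t < 1 := ENNReal.ofReal_lt_one.2 ht
        calc ENNReal.ofReal t * s < 1 * s := (ENNReal.mul_lt_mul_iff_left hs0 hsT).2 h2
          _ = s := one_mul s
      conv_rhs at h1 => rw [hs]
      obtain ⟨x, hx⟩ := lt_iSup_iff.1 h1
      refine ⟨x, ?_⟩
      calc ENNReal.ofReal t = s⁻¹ * (ENNReal.ofReal t * s) := by
            rw [mul_comm, mul_assoc, ENNReal.mul_inv_cancel hs0 hsT, mul_one]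
        _ < s⁻¹ * p x := (ENNReal.mul_lt_mul_iff_right (ENNReal.inv_ne_zero.2 hsT)
            (ENNReal.inv_ne_top.2 hs0)).2 hx
  obtain ⟨f1, f2⟩ := hsup f A hA hA0 hAT
  obtain ⟨g1, g2⟩ := hsup g B hB hB0 hBT
  have hn := plw_norm ha hb hab (f := fun x => A⁻¹ * f x) (g := fun x => B⁻¹ * g x)
    (h := fun x => c⁻¹ * h x)
    (hf.const_mul _) (hg.const_mul _) (hh.const_mul _) f1 g1 f2 g2 (by
      intro x y
      have e1 : c⁻¹ = A⁻¹ ^ a * B⁻¹ ^ b := by
        rw [hc, ENNReal.mul_inv (Or.inl hAa0) (Or.inl hAaT), ENNReal.inv_rpow, ENNReal.inv_rpow]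
      calc (A⁻¹ * f x) ^ a * (B⁻¹ * g y) ^ b = A⁻¹ ^ a * B⁻¹ ^ b * (f x ^ a * g y ^ b) := by
            rw [ENNReal.mul_rpow_of_nonneg _ _ ha.le, ENNReal.mul_rpow_of_nonneg _ _ hb.le]
            ring
        _ ≤ A⁻¹ ^ a * B⁻¹ ^ b * h (a * x + b * y) := by gcongr; exact H x y
        _ = c⁻¹ * h (a * x + b * y) := by rw [e1])
  rw [lintegral_const_mul _ hf, lintegral_const_mul _ hg, lintegral_const_mul _ hh] at hn
  have h4 := (amgm ha hb hab _ _).trans hn
  calc (∫⁻ x, f x) ^ a * (∫⁻ x, g x) ^ b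
      = c * ((A⁻¹ * ∫⁻ x, f x) ^ a * (B⁻¹ * ∫⁻ x, g x) ^ b) := by
        have e1 : A ^ a * (A⁻¹) ^ a = 1 := by
          rw [ENNReal.inv_rpow, ENNReal.mul_inv_cancel hAa0 hAaT]
        have e2 : B ^ b * (B⁻¹) ^ b = 1 := by
          rw [ENNReal.inv_rpow, ENNReal.mul_inv_cancel hBb0 hBbT]
        rw [ENNReal.mul_rpow_of_nonneg _ _ ha.le, ENNReal.mul_rpow_of_nonneg _ _ hb.le, hc]
        calc (∫⁻ x, f x) ^ a * (∫⁻ x, g x) ^ b
            = (A ^ a * (A⁻¹) ^ a) * (B ^ b * (B⁻¹) ^ b) * ((∫⁻ x, f x) ^ a * (∫⁻ x, g x) ^ b) := by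
              rw [e1, e2, one_mul, one_mul]
          _ = _ := by ring
    _ ≤ c * (c⁻¹ * ∫⁻ x, h x) := by gcongr
    _ = ∫⁻ x, h x := by rw [← mul_assoc, ENNReal.mul_inv_cancel hc0 hcT, one_mul]

/-- Prékopa-Leindler on the line -/
theorem plw_line (ha : 0 < a) (hb : 0 < b) (hab : a + b = 1) {f g h : ℝ → ℝ≥0∞} (hf : Measurable f)
    (hg : Measurable g) (hh : Measurable h)
    (H : ∀ x y, f x ^ a * g y ^ b ≤ h (a * x + b * y)) :
    (∫⁻ x, f x) ^ a * (∫⁻ x, g x) ^ b ≤ ∫⁻ x, h x := by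
  have trunc : ∀ p : ℝ → ℝ≥0∞, Measurable p →
      ∫⁻ x, p x = ⨆ n : ℕ, ∫⁻ x, min (p x) n := by
    intro p hp
    rw [← lintegral_iSup (fun n => hp.min measurable_const)]
    · refine lintegral_congr fun x => ?_
      apply le_antisymm
      · by_cases hx : p x = ⊤
        · rw [hx]
          simp only [min_eq_right le_top]
          rw [ENNReal.iSup_natCast]
        · obtain ⟨n, hn⟩ := ENNReal.exists_nat_gt hx
          exact le_iSup_of_le n (le_min le_rfl hn.le)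
      · exact iSup_le fun n => min_le_left _ _
    · intro n m hnm x
      exact min_le_min le_rfl (by exact_mod_cast hnm)
  have sup : ∀ (s : ℝ) (_ : 0 < s) (u : ℕ → ℝ≥0∞), (⨆ n, u n) ^ s = ⨆ n, (u n) ^ s := by
    intro s hs u
    exact (ENNReal.orderIsoRpow s hs).map_iSup u
  rw [trunc f hf, trunc g hg, sup a ha, sup b hb, ENNReal.iSup_mul]
  refine iSup_le fun n => ?_
  rw [ENNReal.mul_iSup]
  refine iSup_le fun m => ?_
  refine plw_bdd ha hb hab (hf.min measurable_const) (hg.min measurable_const) hh n m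
    (fun x => min_le_right _ _) (fun x => min_le_right _ _) fun x y => ?_
  exact (mul_le_mul' (ENNReal.rpow_le_rpow (min_le_left _ _) ha.le)
    (ENNReal.rpow_le_rpow (min_le_left _ _) hb.le)).trans (H x y)

/-- Prékopa-Leindler on `ℝ^n` -/
theorem plw_pi (ha : 0 < a) (hb : 0 < b) (hab : a + b = 1) (n : ℕ) :
    ∀ {f g h : (Fin n → ℝ) → ℝ≥0∞}, Measurable f → Measurable g → Measurable h →
    (∀ x y, f x ^ a * g y ^ b ≤ h (a • x + b • y)) →
    (∫⁻ x, f x) ^ a * (∫⁻ x, g x) ^ b ≤ ∫⁻ x, h x := by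
  induction n with
  | zero =>
    intro f g h hf hg hh H
    have e : ∀ p : (Fin 0 → ℝ) → ℝ≥0∞, ∫⁻ x, p x = p 0 := by
      intro p
      rw [lintegral_unique, Measure.volume_pi_eq_dirac (0 : Fin 0 → ℝ), measure_univ, mul_one]
      congr 1
      exact Subsingleton.elim _ _
    rw [e, e, e]
    have h1 := H 0 0
    rwa [smul_zero, smul_zero, add_zero] at h1
  | succ n ih =>
    intro f g h hf hg hh H
    have hE := (volume_preserving_piFinSuccAbove (fun _ : Fin (n + 1) => ℝ) 0).symm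
    set E := (MeasurableEquiv.piFinSuccAbove (fun _ : Fin (n + 1) => ℝ) 0).symm with hEd
    have tr : ∀ p : (Fin (n + 1) → ℝ) → ℝ≥0∞, Measurable p →
        ∫⁻ x, p x = ∫⁻ x : ℝ, ∫⁻ y : Fin n → ℝ, p (E (x, y)) := by
      intro p hp
      rw [← hE.lintegral_comp hp, Measure.volume_eq_prod]
      exact lintegral_prod _ (hp.comp hE.measurable).aemeasurable
    rw [tr f hf, tr g hg, tr h hh]
    have hm : ∀ p : (Fin (n + 1) → ℝ) → ℝ≥0∞, Measurable p →
        Measurable fun x : ℝ => ∫⁻ y : Fin n → ℝ, p (E (x, y)) :=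
      fun p hp => Measurable.lintegral_prod_right' (hp.comp hE.measurable)
    have hm2 : ∀ p : (Fin (n + 1) → ℝ) → ℝ≥0∞, Measurable p → ∀ x : ℝ,
        Measurable fun y : Fin n → ℝ => p (E (x, y)) :=
      fun p hp x => (hp.comp hE.measurable).comp measurable_prodMk_left
    refine plw_line ha hb hab (hm f hf) (hm g hg) (hm h hh) fun x x' => ?_
    refine ih (hm2 f hf x) (hm2 g hg x') (hm2 h hh _) fun y y' => ?_
    have e : E (a * x + b * x', a • y + b • y') = a • E (x, y) + b • E (x', y') := by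
      funext i
      refine Fin.cases ?_ (fun j => ?_) i
      · simp [hEd, MeasurableEquiv.piFinSuccAbove]
      · simp [hEd, MeasurableEquiv.piFinSuccAbove]
    rw [e]
    exact H _ _

/-- Prékopa-Leindler on the Euclidean space -/
theorem pl_euclid {n : ℕ} (ha : 0 < a) (hb : 0 < b) (hab : a + b = 1)
    {f g h : EuclideanSpace ℝ (Fin n) → ℝ≥0∞} (hf : Measurable f) (hg : Measurable g) (hh : Measurable h)
    (H : ∀ x y, f x ^ a * g y ^ b ≤ h (a • x + b • y)) :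
    (∫⁻ x, f x) ^ a * (∫⁻ x, g x) ^ b ≤ ∫⁻ x, h x := by
  have hE := PiLp.volume_preserving_toLp (Fin n)
  have tr : ∀ p : EuclideanSpace ℝ (Fin n) → ℝ≥0∞, Measurable p →
      ∫⁻ x, p x = ∫⁻ x : Fin n → ℝ, p (WithLp.toLp 2 x) := by
    intro p hp
    rw [← hE.lintegral_comp hp]
  rw [tr f hf, tr g hg, tr h hh]
  refine plw_pi ha hb hab n (hf.comp hE.measurable) (hg.comp hE.measurable) (hh.comp hE.measurable)
    fun x y => ?_
  have h1 := H (WithLp.toLp 2 x) (WithLp.toLp 2 y)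
  rw [← WithLp.toLp_smul, ← WithLp.toLp_smul, ← WithLp.toLp_add] at h1
  exact h1

end

end Pool.Agent.SA70
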