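import Pool.Agent.SA70.Basic
import Pool.Agent.SA70.PL

/-! M1: Prekopa-Leindler in `ℝ^n`, general weights (from `PL.pl_euclid`), and the log-concavity of the
tilted volume of the part of a convex body in a moving ball. -/

set_option autoImplicit false

open MeasureTheory Measure Metric Set Module ENNReal

namespace SA70

theorem pl_general {n : ℕ} (s : ℝ) (hs0 : 0 < s) (hs1 : s < 1)
    {f g h : EuclideanSpace ℝ (Fin n) → ℝ≥0∞} (hf : Measurable f) (hg : Measurable g)
    (hh : Measurable h) (H : ∀ x y, f x ^ (1 - s) * g y ^ s ≤ h ((1 - s) • x + s • y)) :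
    (∫⁻ x, f x) ^ (1 - s) * (∫⁻ x, g x) ^ s ≤ ∫⁻ x, h x :=
  Pool.Agent.SA70.pl_euclid (by linarith) hs0 (by ring) hf hg hh H

/-- the tilted volume of a compact set as a lower integral over the space -/
theorem om_lintegral {n : ℕ} (h : EuclideanSpace ℝ (Fin (n + 1)))
    {A : Set (EuclideanSpace ℝ (Fin (n + 1)))} (hA : IsCompact A) :
    ENNReal.ofReal (om h A) = ∫⁻ x, A.indicator
      (fun x => ENNReal.ofReal (Real.exp (√((n : ℝ) + 1) * inner ℝ h x))) x := by
  have hc : Continuous fun x : EuclideanSpace ℝ (Fin (n + 1)) =>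
      Real.exp (√((n : ℝ) + 1) * inner ℝ h x) := by fun_prop
  rw [lintegral_indicator hA.measurableSet, om,
    ofReal_integral_eq_lintegral_ofReal (hc.continuousOn.integrableOn_compact hA)
      (Filter.Eventually.of_forall fun x => (Real.exp_pos _).le)]

theorem om_nonneg {n : ℕ} (h : EuclideanSpace ℝ (Fin (n + 1)))
    (A : Set (EuclideanSpace ℝ (Fin (n + 1)))) : 0 ≤ om h A :=
  integral_nonneg fun _ => (Real.exp_pos _).le

/-- log-concavity of the tilted volume of the part of a convex body in a moving ball -/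
theorem om_logconcave {n : ℕ} (C : Set (EuclideanSpace ℝ (Fin (n + 1)))) (hconv : Convex ℝ C)
    (hCc : IsCompact C) (h p q : EuclideanSpace ℝ (Fin (n + 1))) (s : ℝ) (hs0 : 0 < s)
    (hs1 : s < 1) :
    om h (C ∩ closedBall p 1) ^ (1 - s) * om h (C ∩ closedBall q 1) ^ s ≤
      om h (C ∩ closedBall ((1 - s) • p + s • q) 1) := by
  have hs2 : 0 < 1 - s := by linarith
  have hk : ∀ r : EuclideanSpace ℝ (Fin (n + 1)), IsCompact (C ∩ closedBall r 1) :=
    fun r => hCc.inter_right isClosed_closedBall
  have hc : Continuous fun x : EuclideanSpace ℝ (Fin (n + 1)) =>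
      Real.exp (√((n : ℝ) + 1) * inner ℝ h x) := by fun_prop
  have hm : ∀ r : EuclideanSpace ℝ (Fin (n + 1)), Measurable ((C ∩ closedBall r 1).indicator
      (fun x => ENNReal.ofReal (Real.exp (√((n : ℝ) + 1) * inner ℝ h x)))) :=
    fun r => (hc.measurable.ennreal_ofReal).indicator (hk r).measurableSet
  have key := pl_general s hs0 hs1 (hm p) (hm q) (hm ((1 - s) • p + s • q)) (by
    intro x y
    by_cases hx : x ∈ C ∩ closedBall p 1
    · by_cases hy : y ∈ C ∩ closedBall q 1
      · have hz : (1 - s) • x + s • y ∈ C ∩ closedBall ((1 - s) • p + s • q) 1 := by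
          refine ⟨hconv hx.1 hy.1 hs2.le hs0.le (by ring), ?_⟩
          rw [mem_closedBall, dist_eq_norm]
          have hx2 := hx.2
          have hy2 := hy.2
          rw [mem_closedBall, dist_eq_norm] at hx2 hy2
          calc ‖(1 - s) • x + s • y - ((1 - s) • p + s • q)‖
              = ‖(1 - s) • (x - p) + s • (y - q)‖ := by
                congr 1
                module
            _ ≤ ‖(1 - s) • (x - p)‖ + ‖s • (y - q)‖ := norm_add_le _ _
            _ = (1 - s) * ‖x - p‖ + s * ‖y - q‖ := by
                rw [norm_smul, norm_smul, Real.norm_of_nonneg hs2.le, Real.norm_of_nonneg hs0.le]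
            _ ≤ (1 - s) * 1 + s * 1 := by gcongr
            _ = 1 := by ring
        rw [indicator_of_mem hx, indicator_of_mem hy, indicator_of_mem hz,
          ENNReal.ofReal_rpow_of_pos (Real.exp_pos _), ENNReal.ofReal_rpow_of_pos (Real.exp_pos _),
          ← ENNReal.ofReal_mul (by positivity), ← Real.exp_mul, ← Real.exp_mul, ← Real.exp_add]
        refine le_of_eq ?_
        congr 2
        rw [inner_add_right, inner_smul_right, inner_smul_right]
        ring
      · rw [indicator_of_notMem hy, ENNReal.zero_rpow_of_pos hs0, mul_zero]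
        exact zero_le
    · rw [indicator_of_notMem hx, ENNReal.zero_rpow_of_pos hs2, zero_mul]
      exact zero_le)
  rw [← om_lintegral h (hk p), ← om_lintegral h (hk q), ← om_lintegral h (hk _),
    ENNReal.ofReal_rpow_of_nonneg (om_nonneg _ _) hs2.le,
    ENNReal.ofReal_rpow_of_nonneg (om_nonneg _ _) hs0.le,
    ← ENNReal.ofReal_mul (Real.rpow_nonneg (om_nonneg _ _) _)] at key
  exact (ENNReal.ofReal_le_ofReal_iff (om_nonneg _ _)).1 key

end SA70
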