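import Pool.Agent.SA70.M2

/-! M4: averaging over almost orthogonal tilts. With `m_j = om (h j) B / κ` (all within `1 ± ε` of
`exp (β²/2)`, M2): `V(S) ≤ (1/M) ∑_j om (h j) S / m_j + ∫_B |1 - (1/M) ∑_j ω_j / m_j|`, and
`∫_B ω_j ω_l = om (h j + h l) B ≤ (1+ε) exp (‖h_j + h_l‖²/2) κ` with
`‖h_j + h_l‖² ≤ 2 β² (1 + ε₁)` for `j ≠ l` and `≤ 4 β²` for `j = l` (choose `M ≫ exp (β²)`). -/

set_option autoImplicit false

open MeasureTheory Measure Metric Set Module ENNReal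

namespace SA70

open SC70

/-- the tilt -/
noncomputable def omg {n : ℕ} (h x : EuclideanSpace ℝ (Fin (n + 1))) : ℝ :=
  Real.exp (√((n : ℝ) + 1) * inner ℝ h x)

lemma omg_cont {n : ℕ} (h : EuclideanSpace ℝ (Fin (n + 1))) : Continuous (omg h) := by
  unfold omg
  fun_prop

lemma omg_pos {n : ℕ} (h x : EuclideanSpace ℝ (Fin (n + 1))) : 0 < omg h x := Real.exp_pos _

lemma omg_mul {n : ℕ} (h k x : EuclideanSpace ℝ (Fin (n + 1))) :
    omg h x * omg k x = omg (h + k) x := by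
  unfold omg
  rw [← Real.exp_add, inner_add_left]
  congr 1
  ring

lemma om_eq {n : ℕ} (h : EuclideanSpace ℝ (Fin (n + 1)))
    (A : Set (EuclideanSpace ℝ (Fin (n + 1)))) : om h A = ∫ x in A, omg h x := rfl

lemma cont_ball {n : ℕ} {f : EuclideanSpace ℝ (Fin (n + 1)) → ℝ} (hf : Continuous f) :
    IntegrableOn f (closedBall 0 1) :=
  hf.continuousOn.integrableOn_compact (isCompact_closedBall _ _)

/-- the average of the squares -/
lemma sum_bound {n M : ℕ} (hM : 1 ≤ M) {h : Fin M → EuclideanSpace ℝ (Fin (n + 1))}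
    {κ q p r : ℝ} (hκ : 0 ≤ κ) (hp : 0 ≤ p) {c : Fin M → ℝ} (hc : ∀ j, 0 < c j)
    (hcq : ∀ j, q ≤ c j) (hq : 0 < q)
    (hne : ∀ j l, j ≠ l → om (h j + h l) (closedBall 0 1) ≤ p * κ)
    (heq : ∀ j, om (h j + h j) (closedBall 0 1) ≤ r * κ) :
    (1 / (M : ℝ)) ^ 2 * ∑ j, ∑ l, (c j)⁻¹ * (c l)⁻¹ * om (h j + h l) (closedBall 0 1) ≤
      (p / q ^ 2 + r / q ^ 2 / M) * κ := by
  have hM0 : (0 : ℝ) < M := by exact_mod_cast hM
  have hom : ∀ k : EuclideanSpace ℝ (Fin (n + 1)), 0 ≤ om k (closedBall 0 1) := by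
    intro k
    rw [om_eq]
    exact setIntegral_nonneg measurableSet_closedBall fun x _ => (omg_pos k x).le
  have hterm : ∀ j l, (c j)⁻¹ * (c l)⁻¹ * om (h j + h l) (closedBall 0 1) ≤
      p / q ^ 2 * κ + (if j = l then r / q ^ 2 * κ else 0) := by
    intro j l
    have h1 : (c j)⁻¹ * (c l)⁻¹ ≤ 1 / q ^ 2 := by
      rw [pow_two, one_div, mul_inv]
      have h2 := inv_anti₀ hq (hcq j)
      have h3 := inv_anti₀ hq (hcq l)
      exact mul_le_mul h2 h3 (inv_nonneg.2 (hc l).le) (inv_nonneg.2 hq.le)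
    have h4 := mul_le_mul_of_nonneg_right h1 (hom (h j + h l))
    refine h4.trans ?_
    have hq2 : (0 : ℝ) < q ^ 2 := by positivity
    split_ifs with hjl
    · subst hjl
      have h5 := heq j
      have h6 : 1 / q ^ 2 * om (h j + h j) (closedBall 0 1) ≤ 1 / q ^ 2 * (r * κ) :=
        mul_le_mul_of_nonneg_left h5 (by positivity)
      have h7 : 0 ≤ p / q ^ 2 * κ := by positivity
      have h8 : 1 / q ^ 2 * (r * κ) = r / q ^ 2 * κ := by ring
      linarith
    · have h5 := hne j l hjl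
      have h6 : 1 / q ^ 2 * om (h j + h l) (closedBall 0 1) ≤ 1 / q ^ 2 * (p * κ) :=
        mul_le_mul_of_nonneg_left h5 (by positivity)
      have h8 : 1 / q ^ 2 * (p * κ) = p / q ^ 2 * κ := by ring
      linarith
  have hsum : ∑ j, ∑ l, (c j)⁻¹ * (c l)⁻¹ * om (h j + h l) (closedBall 0 1) ≤
      ∑ j : Fin M, ∑ l : Fin M, (p / q ^ 2 * κ + (if j = l then r / q ^ 2 * κ else 0)) :=
    Finset.sum_le_sum fun j _ => Finset.sum_le_sum fun l _ => hterm j l
  have hval : ∑ j : Fin M, ∑ l : Fin M, (p / q ^ 2 * κ + (if j = l then r / q ^ 2 * κ else 0)) =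
      (M : ℝ) * ((M : ℝ) * (p / q ^ 2 * κ) + r / q ^ 2 * κ) := by
    simp only [Finset.sum_add_distrib, Finset.sum_ite_eq, Finset.mem_univ, if_true,
      Finset.sum_const, Finset.card_univ, Fintype.card_fin, nsmul_eq_mul]
    ring
  rw [hval] at hsum
  calc (1 / (M : ℝ)) ^ 2 * ∑ j, ∑ l, (c j)⁻¹ * (c l)⁻¹ * om (h j + h l) (closedBall 0 1)
      ≤ (1 / (M : ℝ)) ^ 2 * ((M : ℝ) * ((M : ℝ) * (p / q ^ 2 * κ) + r / q ^ 2 * κ)) :=
        mul_le_mul_of_nonneg_left hsum (by positivity)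
    _ = (p / q ^ 2 + r / q ^ 2 / M) * κ := by
        field_simp

/-- the deterministic step -/
lemma avg_core {n M : ℕ} (hM : 1 ≤ M) {h : Fin M → EuclideanSpace ℝ (Fin (n + 1))}
    {ε₃ : ℝ} (hε₃ : 0 < ε₃) {c : Fin M → ℝ} (hc : ∀ j, 0 < c j)
    (hcB : ∀ j, om (h j) (closedBall 0 1) = c j * kap (n + 1))
    (hsq : (1 / (M : ℝ)) ^ 2 * ∑ j, ∑ l, (c j)⁻¹ * (c l)⁻¹ * om (h j + h l) (closedBall 0 1) ≤
      (1 + ε₃ ^ 2) * kap (n + 1))
    {S : Set (EuclideanSpace ℝ (Fin (n + 1)))} (hS : S ⊆ closedBall 0 1) (hSm : MeasurableSet S)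
    {ε₂ : ℝ} (hε₂ : 0 ≤ ε₂) (hj : ∀ j, om (h j) S ≤ ε₂ * om (h j) (closedBall 0 1)) :
    volume.real S ≤ (ε₂ + ε₃) * kap (n + 1) := by
  have hM0 : (0 : ℝ) < M := by exact_mod_cast hM
  have hκ := kap_pos (n + 1)
  set g : EuclideanSpace ℝ (Fin (n + 1)) → ℝ := fun x => (1 / (M : ℝ)) * ∑ j, (c j)⁻¹ * omg (h j) x
    with hg
  have hgc : Continuous g := by
    rw [hg]
    refine continuous_const.mul (continuous_finsetSum _ fun j _ => ?_)
    exact continuous_const.mul (omg_cont _)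
  -- integral of `g` over a subset
  have hgS : ∀ A : Set (EuclideanSpace ℝ (Fin (n + 1))), A ⊆ closedBall 0 1 →
      ∫ x in A, g x = (1 / (M : ℝ)) * ∑ j, (c j)⁻¹ * om (h j) A := by
    intro A hA
    rw [hg, integral_const_mul, integral_finsetSum]
    · congr 1
      refine Finset.sum_congr rfl fun j _ => ?_
      rw [integral_const_mul, om_eq]
    · intro j _
      exact ((cont_ball (omg_cont (h j))).mono_set hA).integrable.const_mul _
  have hgB : ∫ x in closedBall 0 1, g x = kap (n + 1) := by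
    rw [hgS _ subset_rfl]
    have : ∀ j ∈ Finset.univ, (c j)⁻¹ * om (h j) (closedBall 0 1) = kap (n + 1) := by
      intro j _
      rw [hcB j, ← mul_assoc, inv_mul_cancel₀ (hc j).ne', one_mul]
    rw [Finset.sum_congr rfl this, Finset.sum_const, Finset.card_univ, Fintype.card_fin,
      nsmul_eq_mul, ← mul_assoc, one_div, inv_mul_cancel₀ hM0.ne', one_mul]
  have hgS' : ∫ x in S, g x ≤ ε₂ * kap (n + 1) := by
    have h0 : (1 / (M : ℝ)) * ∑ j, (c j)⁻¹ * om (h j) (closedBall 0 1) = kap (n + 1) := by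
      rw [← hgS _ subset_rfl, hgB]
    have h1 : ∑ j, (c j)⁻¹ * om (h j) S ≤ ε₂ * ∑ j, (c j)⁻¹ * om (h j) (closedBall 0 1) := by
      rw [Finset.mul_sum]
      refine Finset.sum_le_sum fun j _ => ?_
      have := mul_le_mul_of_nonneg_left (hj j) (inv_nonneg.2 (hc j).le)
      linarith
    have h2 := mul_le_mul_of_nonneg_left h1 (by positivity : (0 : ℝ) ≤ 1 / (M : ℝ))
    rw [hgS S hS]
    calc (1 / (M : ℝ)) * ∑ j, (c j)⁻¹ * om (h j) S
        ≤ 1 / (M : ℝ) * (ε₂ * ∑ j, (c j)⁻¹ * om (h j) (closedBall 0 1)) := h2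
      _ = ε₂ * ((1 / (M : ℝ)) * ∑ j, (c j)⁻¹ * om (h j) (closedBall 0 1)) := by ring
      _ = ε₂ * kap (n + 1) := by rw [h0]
  have hg2 : ∫ x in closedBall 0 1, (g x) ^ 2 ≤ (1 + ε₃ ^ 2) * kap (n + 1) := by
    refine le_of_eq_of_le ?_ hsq
    have e1 : ∀ x, (g x) ^ 2 = (1 / (M : ℝ)) ^ 2 *
        ∑ j, ∑ l, (c j)⁻¹ * (c l)⁻¹ * omg (h j + h l) x := by
      intro x
      rw [hg]
      simp only
      rw [mul_pow, pow_two (∑ j, (c j)⁻¹ * omg (h j) x), Finset.sum_mul_sum]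
      congr 1
      refine Finset.sum_congr rfl fun j _ => Finset.sum_congr rfl fun l _ => ?_
      rw [← omg_mul]
      ring
    rw [integral_congr_ae (Filter.Eventually.of_forall e1), integral_const_mul,
      integral_finsetSum]
    · congr 1
      refine Finset.sum_congr rfl fun j _ => ?_
      rw [integral_finsetSum]
      · refine Finset.sum_congr rfl fun l _ => ?_
        rw [integral_const_mul, om_eq]
      · intro l _
        exact (cont_ball (omg_cont (h j + h l))).integrable.const_mul _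
    · intro j _
      refine integrable_finsetSum _ fun l _ => ?_
      exact (cont_ball (omg_cont (h j + h l))).integrable.const_mul _
  have hB1 : ∫ x in closedBall (0 : EuclideanSpace ℝ (Fin (n + 1))) 1, (1 : ℝ) = kap (n + 1) := by
    rw [setIntegral_const, smul_eq_mul, mul_one]
    rfl
  -- the error
  have herr : ∫ x in closedBall 0 1, (ε₃ / 2 + (1 - g x) ^ 2 / (2 * ε₃)) ≤
      ε₃ * kap (n + 1) := by
    have i1 : IntegrableOn (fun _ : EuclideanSpace ℝ (Fin (n + 1)) => (1 : ℝ)) (closedBall 0 1) :=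
      cont_ball continuous_const
    have i2 : IntegrableOn g (closedBall 0 1) := cont_ball hgc
    have i3 : IntegrableOn (fun x => g x ^ 2) (closedBall 0 1) := cont_ball (hgc.pow 2)
    have e1 : ∀ x, ε₃ / 2 + (1 - g x) ^ 2 / (2 * ε₃) =
        (ε₃ / 2 + 1 / (2 * ε₃)) * 1 - (1 / ε₃) * g x + (1 / (2 * ε₃)) * g x ^ 2 := by
      intro x
      field_simp
      ring
    have j1 : Integrable (fun x : EuclideanSpace ℝ (Fin (n + 1)) => (ε₃ / 2 + 1 / (2 * ε₃)) * 1)
        (volume.restrict (closedBall 0 1)) := i1.integrable.const_mul _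
    have j2 : Integrable (fun x => (1 / ε₃) * g x) (volume.restrict (closedBall 0 1)) :=
      i2.integrable.const_mul _
    have j3 : Integrable (fun x => (1 / (2 * ε₃)) * g x ^ 2) (volume.restrict (closedBall 0 1)) :=
      i3.integrable.const_mul _
    have j12 : Integrable (fun x => (ε₃ / 2 + 1 / (2 * ε₃)) * 1 - (1 / ε₃) * g x)
        (volume.restrict (closedBall 0 1)) := j1.sub j2
    have k1 : ∫ x in closedBall (0 : EuclideanSpace ℝ (Fin (n + 1))) 1,
        (ε₃ / 2 + 1 / (2 * ε₃)) * (1 : ℝ) = (ε₃ / 2 + 1 / (2 * ε₃)) * kap (n + 1) := by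
      rw [integral_const_mul, hB1]
    have k2 : ∫ x in closedBall 0 1, (1 / ε₃) * g x = 1 / ε₃ * kap (n + 1) :=
      (integral_const_mul (1 / ε₃) g).trans (by rw [hgB])
    have k3 : ∫ x in closedBall 0 1, (1 / (2 * ε₃)) * g x ^ 2 =
        1 / (2 * ε₃) * ∫ x in closedBall 0 1, g x ^ 2 :=
      integral_const_mul (1 / (2 * ε₃)) fun x => g x ^ 2
    rw [integral_congr_ae (Filter.Eventually.of_forall e1), integral_add j12 j3,
      integral_sub j1 j2, k1, k2, k3]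
    have h1 : 1 / (2 * ε₃) * ∫ x in closedBall 0 1, g x ^ 2 ≤
        1 / (2 * ε₃) * ((1 + ε₃ ^ 2) * kap (n + 1)) :=
      mul_le_mul_of_nonneg_left hg2 (by positivity)
    have h2 : (ε₃ / 2 + 1 / (2 * ε₃)) * kap (n + 1) - 1 / ε₃ * kap (n + 1) +
        1 / (2 * ε₃) * ((1 + ε₃ ^ 2) * kap (n + 1)) = ε₃ * kap (n + 1) := by
      field_simp
      ring
    linarith
  have hec : Continuous fun x => ε₃ / 2 + (1 - g x) ^ 2 / (2 * ε₃) := by fun_prop
  have herrS : ∫ x in S, (ε₃ / 2 + (1 - g x) ^ 2 / (2 * ε₃)) ≤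
      ∫ x in closedBall 0 1, (ε₃ / 2 + (1 - g x) ^ 2 / (2 * ε₃)) := by
    refine setIntegral_mono_set (cont_ball hec) ?_ hS.eventuallyLE
    exact Filter.Eventually.of_forall fun x => by
      simp only [Pi.zero_apply]
      positivity
  have hS1 : volume.real S = ∫ x in S, (1 : ℝ) := by
    rw [setIntegral_const, smul_eq_mul, mul_one]
  have hle : ∫ x in S, (1 : ℝ) ≤ ∫ x in S, (g x + (ε₃ / 2 + (1 - g x) ^ 2 / (2 * ε₃))) := by
    refine integral_mono ((cont_ball continuous_const).mono_set hS).integrable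
      ((cont_ball (hgc.add hec)).mono_set hS).integrable fun x => ?_
    simp only
    have h1 : 1 - g x ≤ ε₃ / 2 + (1 - g x) ^ 2 / (2 * ε₃) := by
      have h2 : ε₃ / 2 + (1 - g x) ^ 2 / (2 * ε₃) - (1 - g x) =
          (ε₃ - (1 - g x)) ^ 2 / (2 * ε₃) := by
        field_simp
        ring
      have h3 : 0 ≤ (ε₃ - (1 - g x)) ^ 2 / (2 * ε₃) := by positivity
      linarith
    linarith
  rw [integral_add ((cont_ball hgc).mono_set hS).integrable
    ((cont_ball hec).mono_set hS).integrable] at hle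
  rw [hS1]
  linarith

theorem avg_tilt (β ε₃ : ℝ) (hβ : 0 < β) (hε₃ : 0 < ε₃) : ∃ M : ℕ, 1 ≤ M ∧ ∃ ε₁ : ℝ, 0 < ε₁ ∧
    ∃ d₀ : ℕ, ∀ n : ℕ, d₀ ≤ n → ∀ h : Fin M → EuclideanSpace ℝ (Fin (n + 1)),
      (∀ j, ‖h j‖ = β) → (∀ j l, j ≠ l → |inner ℝ (h j) (h l)| ≤ ε₁ * β ^ 2) →
      ∀ S : Set (EuclideanSpace ℝ (Fin (n + 1))), S ⊆ closedBall 0 1 → MeasurableSet S →
      ∀ ε₂ : ℝ, 0 ≤ ε₂ → (∀ j, om (h j) S ≤ ε₂ * om (h j) (closedBall 0 1)) →
      volume.real S ≤ (ε₂ + ε₃) * kap (n + 1) := by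
  set η : ℝ := min (ε₃ ^ 2) 1 with hη
  have hη0 : 0 < η := lt_min (by positivity) one_pos
  have hη1 : η ≤ 1 := min_le_right _ _
  have hη2 : η ≤ ε₃ ^ 2 := min_le_left _ _
  set ε : ℝ := η / 16 with hε
  have hε0 : 0 < ε := by positivity
  have hε1 : ε ≤ 1 / 16 := by rw [hε]; linarith
  obtain ⟨d₀, hd⟩ := mgf_ball (2 * β) ε (by positivity) hε0
  set M : ℕ := ⌈4 * Real.exp (β ^ 2) / η⌉₊ + 1 with hM
  have hM1 : 1 ≤ M := by omega
  have hM0 : (0 : ℝ) < M := by exact_mod_cast hM1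
  have hMη : 4 * Real.exp (β ^ 2) / η ≤ M := by
    rw [hM]
    push_cast
    exact (Nat.le_ceil _).trans (by linarith)
  set ε₁ : ℝ := Real.log (1 + η / 4) / β ^ 2 with hε₁
  have hlog : 0 < Real.log (1 + η / 4) := Real.log_pos (by linarith)
  have hβ2 : 0 < β ^ 2 := by positivity
  have hε₁β : ε₁ * β ^ 2 = Real.log (1 + η / 4) := by
    rw [hε₁, div_mul_cancel₀ _ hβ2.ne']
  refine ⟨M, hM1, ε₁, by positivity, d₀, fun n hn h hhβ hor S hS hSm ε₂ hε₂ hj => ?_⟩
  have hκ := kap_pos (n + 1)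
  have hd' := hd n hn
  set κ := kap (n + 1) with hκd
  have hq : 0 < (1 - ε) * Real.exp (β ^ 2 / 2) := mul_pos (by linarith) (Real.exp_pos _)
  have hlow : ∀ j, (1 - ε) * Real.exp (β ^ 2 / 2) * κ ≤ om (h j) (closedBall 0 1) := by
    intro j
    have h1 := (hd' (h j) (by rw [hhβ j]; linarith)).1
    rwa [hhβ j] at h1
  have hcpos : ∀ j, 0 < om (h j) (closedBall 0 1) / κ := fun j =>
    div_pos (lt_of_lt_of_le (mul_pos hq hκ) (hlow j)) hκ
  have hcq : ∀ j, (1 - ε) * Real.exp (β ^ 2 / 2) ≤ om (h j) (closedBall 0 1) / κ := fun j => by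
    rw [le_div_iff₀ hκ]
    exact hlow j
  have hup : ∀ j l, om (h j + h l) (closedBall 0 1) ≤
      (1 + ε) * Real.exp (β ^ 2 + inner ℝ (h j) (h l)) * κ := by
    intro j l
    have h1 : ‖h j + h l‖ ≤ 2 * β := by
      have := norm_add_le (h j) (h l)
      rw [hhβ j, hhβ l] at this
      linarith
    have h2 := (hd' (h j + h l) h1).2
    have h3 : ‖h j + h l‖ ^ 2 / 2 = β ^ 2 + inner ℝ (h j) (h l) := by
      rw [norm_add_sq_real, hhβ j, hhβ l]
      ring
    rwa [h3] at h2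
  have hsum := sum_bound hM1 (h := h) (κ := κ) (q := (1 - ε) * Real.exp (β ^ 2 / 2))
    (p := (1 + ε) * (Real.exp (β ^ 2) * (1 + η / 4))) (r := (1 + ε) * (Real.exp (β ^ 2)) ^ 2)
    hκ.le (by positivity) hcpos hcq hq
    (by
      intro j l hjl
      refine (hup j l).trans ?_
      refine mul_le_mul_of_nonneg_right ?_ hκ.le
      refine mul_le_mul_of_nonneg_left ?_ (by linarith)
      rw [Real.exp_add]
      refine mul_le_mul_of_nonneg_left ?_ (Real.exp_pos _).le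
      have h1 := (le_abs_self _).trans (hor j l hjl)
      rw [hε₁β] at h1
      calc Real.exp (inner ℝ (h j) (h l)) ≤ Real.exp (Real.log (1 + η / 4)) :=
            Real.exp_le_exp.2 h1
        _ = 1 + η / 4 := Real.exp_log (by linarith))
    (by
      intro j
      refine (hup j j).trans ?_
      refine mul_le_mul_of_nonneg_right ?_ hκ.le
      refine mul_le_mul_of_nonneg_left ?_ (by linarith)
      rw [real_inner_self_eq_norm_sq, hhβ j, Real.exp_add, pow_two (Real.exp (β ^ 2))])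
  refine avg_core hM1 hε₃ hcpos (fun j => ?_) (hsum.trans ?_) hS hSm hε₂ hj
  · rw [div_mul_cancel₀ _ hκ.ne']
  · refine mul_le_mul_of_nonneg_right ?_ hκ.le
    set E : ℝ := Real.exp (β ^ 2) with hE
    have hE0 : 0 < E := Real.exp_pos _
    have hq2 : ((1 - ε) * Real.exp (β ^ 2 / 2)) ^ 2 = (1 - ε) ^ 2 * E := by
      rw [mul_pow, hE, pow_two (Real.exp (β ^ 2 / 2)), ← Real.exp_add]
      congr 2
      ring
    rw [hq2]
    have h1ε : 0 < (1 - ε) ^ 2 := by
      have : 0 < 1 - ε := by linarith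
      positivity
    have hA : (1 + ε) / (1 - ε) ^ 2 ≤ 1 + η / 4 := by
      rw [div_le_iff₀ h1ε]
      have h16 : η = 16 * ε := by rw [hε]; ring
      rw [h16]
      nlinarith [mul_nonneg hε0.le (sub_nonneg.2 hε1), mul_pos hε0 hε0,
        mul_nonneg (mul_nonneg hε0.le hε0.le) hε0.le]
    have hA0 : 0 ≤ (1 + ε) / (1 - ε) ^ 2 := by positivity
    have e1 : (1 + ε) * (E * (1 + η / 4)) / ((1 - ε) ^ 2 * E) =
        (1 + ε) / (1 - ε) ^ 2 * (1 + η / 4) := by
      field_simp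
    have e2 : (1 + ε) * E ^ 2 / ((1 - ε) ^ 2 * E) / M = (1 + ε) / (1 - ε) ^ 2 * (E / M) := by
      field_simp
    have hEM : E / M ≤ η / 4 := by
      rw [div_le_iff₀ hM0]
      rw [div_le_iff₀ hη0] at hMη
      linarith
    have hEM0 : 0 ≤ E / M := by positivity
    rw [e1, e2, ← mul_add]
    calc (1 + ε) / (1 - ε) ^ 2 * (1 + η / 4 + E / M)
        ≤ (1 + η / 4) * (1 + η / 4 + η / 4) :=
          mul_le_mul hA (by linarith) (by positivity) (by linarith)
      _ ≤ 1 + ε₃ ^ 2 := by nlinarith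

end SA70
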