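import Pool.Agent.SA70.Basic

/-! M5: many separated unit vectors give `M` almost orthogonal unit vectors. -/

set_option autoImplicit false

open MeasureTheory Measure Metric Set Module ENNReal

namespace SA70

theorem almost_orth (δ ε₁ : ℝ) (hδ : 0 < δ) (hε₁ : 0 < ε₁) (M : ℕ) : ∃ N₀ : ℕ,
    ∀ (n : ℕ) (U : Finset (EuclideanSpace ℝ (Fin n))), (∀ e ∈ U, ‖e‖ = 1) →
      (∀ e ∈ U, ∀ e' ∈ U, e ≠ e' → δ ≤ ‖e - e'‖) → N₀ ≤ U.card →
      ∃ f : Fin M → EuclideanSpace ℝ (Fin n), (∀ j, ‖f j‖ = 1) ∧
        (∀ j l, j ≠ l → |inner ℝ (f j) (f l)| ≤ ε₁) ∧ ∀ j, ∃ e ∈ U, δ / 2 ≤ inner ℝ (f j) e := by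
  have hεδ : 0 < ε₁ * δ := mul_pos hε₁ hδ
  obtain ⟨m, hm⟩ : ∃ m : ℕ, 1 / (ε₁ * δ) ≤ m := exists_nat_ge _
  induction M with
  | zero =>
    exact ⟨0, fun n U _ _ _ => ⟨fun j => j.elim0, fun j => j.elim0, fun j => j.elim0,
      fun j => j.elim0⟩⟩
  | succ k ih =>
    obtain ⟨N₀, hN⟩ := ih
    refine ⟨max N₀ ((2 * m + 3) ^ k + 1), fun n U hU1 hU2 hcard => ?_⟩
    obtain ⟨f, hf1, hf2, hf3⟩ := hN n U hU1 hU2 (le_trans (le_max_left _ _) hcard)
    by_cases hex : ∃ e ∈ U, ∃ e' ∈ U, e ≠ e' ∧
        ∀ a, |inner ℝ (f a) ((1 / ‖e - e'‖) • (e - e'))| ≤ ε₁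
    · obtain ⟨e, he, e', he', hne, hall⟩ := hex
      have hpos : 0 < ‖e - e'‖ := norm_pos_iff.mpr (sub_ne_zero.mpr hne)
      have hunit : ‖(1 / ‖e - e'‖) • (e - e')‖ = 1 := by
        rw [norm_smul, Real.norm_of_nonneg (by positivity)]
        field_simp
      refine ⟨Fin.cons ((1 / ‖e - e'‖) • (e - e')) f, ?_, ?_, ?_⟩
      · intro j
        refine Fin.cases ?_ (fun i => ?_) j
        · simpa using hunit
        · simpa using hf1 i
      · intro j l
        refine Fin.cases ?_ (fun i => ?_) j
        · refine Fin.cases ?_ (fun i' => ?_) l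
          · intro h; exact absurd rfl h
          · intro _
            rw [Fin.cons_zero, Fin.cons_succ, real_inner_comm]
            exact hall i'
        · refine Fin.cases ?_ (fun i' => ?_) l
          · intro _
            rw [Fin.cons_zero, Fin.cons_succ]
            exact hall i
          · intro h
            rw [Fin.cons_succ, Fin.cons_succ]
            exact hf2 i i' (fun h' => h (by rw [h']))
      · intro j
        refine Fin.cases ?_ (fun i => ?_) j
        · refine ⟨e, he, ?_⟩
          rw [Fin.cons_zero, real_inner_smul_left, inner_sub_left]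
          have h1 : ‖e - e'‖ ^ 2 = ‖e‖ ^ 2 - 2 * inner ℝ e e' + ‖e'‖ ^ 2 := norm_sub_sq_real e e'
          have h2 : inner ℝ e e = (1 : ℝ) := by
            rw [real_inner_self_eq_norm_sq, hU1 e he]; norm_num
          rw [hU1 e he, hU1 e' he'] at h1
          rw [h2, real_inner_comm e e', ]
          have h3 := hU2 e he e' he' hne
          have h4 : 1 / ‖e - e'‖ * (1 - inner ℝ e e') = ‖e - e'‖ / 2 := by
            have : 1 - inner ℝ e e' = ‖e - e'‖ ^ 2 / 2 := by linarith
            rw [this]; field_simp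
          rw [h4]; linarith
        · obtain ⟨e1, he1, h1⟩ := hf3 i
          exact ⟨e1, he1, by simpa using h1⟩
    · exfalso
      push Not at hex
      have hle : U.card ≤
          (Fintype.piFinset (fun _ : Fin k => Finset.Icc (-((m : ℤ) + 1)) ((m : ℤ) + 1))).card := by
        refine Finset.card_le_card_of_injOn
          (fun e a => ⌊inner ℝ (f a) e / (ε₁ * δ)⌋) ?_ ?_
        · intro e he
          rw [Finset.mem_coe, Fintype.mem_piFinset]
          intro a
          have h1 : |inner ℝ (f a) e| ≤ 1 := by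
            refine (abs_real_inner_le_norm _ _).trans ?_
            rw [hf1 a, hU1 e he]; norm_num
          have h2 := abs_le.mp h1
          have hbnd : |inner ℝ (f a) e / (ε₁ * δ)| ≤ m := by
            rw [abs_div, abs_of_pos hεδ]
            exact (div_le_div_of_nonneg_right h1 hεδ.le).trans hm
          have h3 := abs_le.mp hbnd
          rw [Finset.mem_Icc]
          constructor
          · rw [Int.le_floor]; push_cast; linarith [h3.1]
          · have : (⌊inner ℝ (f a) e / (ε₁ * δ)⌋ : ℝ) ≤ m := (Int.floor_le _).trans h3.2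
            have h5 : ⌊inner ℝ (f a) e / (ε₁ * δ)⌋ ≤ (m : ℤ) := by exact_mod_cast this
            linarith
        · intro e he e' he' heq
          by_contra hne
          obtain ⟨a, ha⟩ := hex e he e' he' hne
          have h1 : ⌊inner ℝ (f a) e / (ε₁ * δ)⌋ = ⌊inner ℝ (f a) e' / (ε₁ * δ)⌋ := congrFun heq a
          have h2 := Int.abs_sub_lt_one_of_floor_eq_floor h1
          rw [← sub_div, abs_div, abs_of_pos hεδ, div_lt_one hεδ] at h2
          have hpos : 0 < ‖e - e'‖ := norm_pos_iff.mpr (sub_ne_zero.mpr hne)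
          have h3 := hU2 e he e' he' hne
          rw [real_inner_smul_right, abs_mul, abs_of_nonneg (by positivity), inner_sub_right] at ha
          have h4 : ε₁ * ‖e - e'‖ < |inner ℝ (f a) e - inner ℝ (f a) e'| := by
            have := mul_lt_mul_of_pos_right ha hpos
            rwa [one_div, mul_comm (‖e - e'‖⁻¹), mul_assoc, inv_mul_cancel₀ hpos.ne',
              mul_one] at this
          have h5 : ε₁ * δ ≤ ε₁ * ‖e - e'‖ := mul_le_mul_of_nonneg_left h3 hε₁.le
          linarith
      rw [Fintype.card_piFinset] at hle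
      simp only [Int.card_Icc, Finset.prod_const, Finset.card_univ, Fintype.card_fin] at hle
      have h6 : ((m : ℤ) + 1 + 1 - -((m : ℤ) + 1)).toNat = 2 * m + 3 := by omega
      rw [h6] at hle
      have h7 := le_trans (le_max_right _ _) hcard
      omega

end SA70
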