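import Pool.Agent.SA70.M3
import Pool.Agent.SA70.M4
import Pool.Agent.SA70.M5
import Pool.Agent.SC70.RoundFin

/-!
# The asymptotic sausage theorem: an efficient centre sees the others in few directions
-/

set_option autoImplicit false

open MeasureTheory Measure Metric Set Module ENNReal

namespace SA70

open SC70

lemma kap_succ_le' {n : ℕ} (hn : 1 ≤ n) : kap (n + 1) ≤ 5 * (Mn n * kap n) := by
  have hpi := Real.pi_pos
  have hn' : (1 : ℝ) ≤ n := by exact_mod_cast hn
  have hκ := kap_pos n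
  have hG1 : 0 < Real.Gamma ((n : ℝ) / 2 + 1) := Real.Gamma_pos_of_pos (by positivity)
  have hG2 : 0 < Real.Gamma ((n : ℝ) / 2 + 1 + 1 / 2) := Real.Gamma_pos_of_pos (by positivity)
  -- the quotient of the Gamma values
  have hquot : √(((n : ℝ) + 1) / 2) * Real.Gamma ((n : ℝ) / 2 + 1) ≤
      Real.Gamma ((n : ℝ) / 2 + 1 + 1 / 2) := by
    have h1 := gamma_half_le ((n : ℝ) / 2 + 1 + 1 / 2) (by positivity)
    have e1 : (n : ℝ) / 2 + 1 + 1 / 2 + 1 / 2 = ((n : ℝ) / 2 + 1) + 1 := by ring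
    rw [e1, Real.Gamma_add_one (by positivity)] at h1
    have hs : 0 < √((n : ℝ) / 2 + 1 + 1 / 2) := Real.sqrt_pos.mpr (by positivity)
    have h2 : √(((n : ℝ) + 1) / 2) * √((n : ℝ) / 2 + 1 + 1 / 2) ≤ (n : ℝ) / 2 + 1 := by
      rw [← Real.sqrt_mul (by positivity), Real.sqrt_le_left (by positivity)]
      nlinarith
    have h3 : √((n : ℝ) / 2 + 1 + 1 / 2) * (√(((n : ℝ) + 1) / 2) * Real.Gamma ((n : ℝ) / 2 + 1)) ≤
        √((n : ℝ) / 2 + 1 + 1 / 2) * Real.Gamma ((n : ℝ) / 2 + 1 + 1 / 2) := by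
      refine le_trans ?_ h1
      calc √((n : ℝ) / 2 + 1 + 1 / 2) * (√(((n : ℝ) + 1) / 2) * Real.Gamma ((n : ℝ) / 2 + 1))
          = (√(((n : ℝ) + 1) / 2) * √((n : ℝ) / 2 + 1 + 1 / 2)) *
              Real.Gamma ((n : ℝ) / 2 + 1) := by ring
        _ ≤ _ := mul_le_mul_of_nonneg_right h2 hG1.le
    exact le_of_mul_le_mul_left h3 hs
  have hk1 : kap (n + 1) * √(((n : ℝ) + 1) / 2) ≤ √Real.pi * kap n := by
    rw [kap_formula hn, kap_formula (n := n + 1) (by omega)]
    have e1 : (((n + 1 : ℕ) : ℝ)) / 2 + 1 = (n : ℝ) / 2 + 1 + 1 / 2 := by push_cast; ring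
    rw [e1, pow_succ, div_mul_eq_mul_div, mul_div_assoc', div_le_div_iff₀ hG2 hG1]
    have hp : 0 ≤ √Real.pi ^ n * √Real.pi := by positivity
    calc √Real.pi ^ n * √Real.pi * √(((n : ℝ) + 1) / 2) * Real.Gamma ((n : ℝ) / 2 + 1)
        = √Real.pi ^ n * √Real.pi * (√(((n : ℝ) + 1) / 2) * Real.Gamma ((n : ℝ) / 2 + 1)) := by ring
      _ ≤ √Real.pi ^ n * √Real.pi * Real.Gamma ((n : ℝ) / 2 + 1 + 1 / 2) :=
          mul_le_mul_of_nonneg_left hquot hp
      _ = _ := by ring
  have hM := Mn_ge hn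
  have hs1 : 0 < √(((n : ℝ) + 1) / 2) := Real.sqrt_pos.mpr (by positivity)
  have h5 : √Real.pi ≤ 5 * (1 / √(Real.exp 1 * ((n : ℝ) + 1))) * √(((n : ℝ) + 1) / 2) := by
    have h6 : (1 / √(Real.exp 1 * ((n : ℝ) + 1))) * √(((n : ℝ) + 1) / 2) =
        √(1 / (2 * Real.exp 1)) := by
      rw [one_div, ← Real.sqrt_inv, ← Real.sqrt_mul (by positivity)]
      congr 1
      field_simp
    rw [mul_assoc, h6]
    have h7 : √Real.pi ≤ √(25 * (1 / (2 * Real.exp 1))) := by
      apply Real.sqrt_le_sqrt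
      have he := Real.exp_one_lt_d9
      have he0 := Real.exp_pos 1
      have hp := Real.pi_lt_d2
      rw [mul_one_div, le_div_iff₀ (by positivity)]
      nlinarith
    have h8 : √(25 * (1 / (2 * Real.exp 1))) = 5 * √(1 / (2 * Real.exp 1)) := by
      rw [Real.sqrt_mul (by norm_num)]
      congr 1
      rw [show (25 : ℝ) = 5 ^ 2 by norm_num, Real.sqrt_sq (by norm_num)]
    rw [← h8]; exact h7
  have h9 : √(((n : ℝ) + 1) / 2) * kap (n + 1) ≤ √(((n : ℝ) + 1) / 2) * (5 * (Mn n * kap n)) := by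
    calc √(((n : ℝ) + 1) / 2) * kap (n + 1) ≤ √Real.pi * kap n := by linarith
      _ ≤ 5 * (1 / √(Real.exp 1 * ((n : ℝ) + 1))) * √(((n : ℝ) + 1) / 2) * kap n :=
          mul_le_mul_of_nonneg_right h5 hκ.le
      _ ≤ 5 * Mn n * √(((n : ℝ) + 1) / 2) * kap n := by gcongr
      _ = _ := by ring
  exact le_of_mul_le_mul_left h9 hs1

/-- moving a centre into the body -/
lemma move_in {E : Type*} [NormedAddCommGroup E] [InnerProductSpace ℝ E] (C : Set E)
    (hconv : Convex ℝ C) (hCc : IsCompact C) (hne : C.Nonempty) :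
    ∃ f : E → E, (∀ w, f w ∈ C) ∧ ∀ w, ∀ x ∈ C, ‖x - f w‖ ≤ ‖x - w‖ := by
  have h : ∀ w : E, ∃ v ∈ C, ∀ x ∈ C, ‖x - v‖ ≤ ‖x - w‖ := by
    intro w
    obtain ⟨v, hv, hvw⟩ := exists_norm_eq_iInf_of_complete_convex hne hCc.isComplete hconv w
    refine ⟨v, hv, ?_⟩
    intro x hx
    have h1 := (norm_eq_iInf_iff_real_inner_le_zero hconv hv).mp hvw x hx
    have h2 : ‖x - w‖ ^ 2 = ‖x - v‖ ^ 2 - 2 * inner ℝ (w - v) (x - v) + ‖w - v‖ ^ 2 := by
      have e : x - w = (x - v) - (w - v) := by abel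
      rw [e, @norm_sub_sq_real, real_inner_comm]
    have h3 : ‖x - v‖ ^ 2 ≤ ‖x - w‖ ^ 2 := by nlinarith [sq_nonneg ‖w - v‖]
    exact abs_le_of_sq_le_sq' h3 (norm_nonneg _) |>.2
  choose f hf1 hf2 using h
  exact ⟨f, hf1, hf2⟩

variable {n : ℕ}

lemma Sout_meas (C : Set (EuclideanSpace ℝ (Fin (n + 1)))) (hCc : IsCompact C) (τ : ℝ) :
    MeasurableSet (Sout C τ) := by
  have h1 : Measurable (fun x : EuclideanSpace ℝ (Fin (n + 1)) => ((1 + τ) / ‖x‖) • x) := by
    exact (measurable_const.div measurable_norm).smul measurable_id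
  have h2 : Sout C τ = C ∩ ({x | ‖x‖ ≤ 1} ∩
      ((fun x : EuclideanSpace ℝ (Fin (n + 1)) => ((1 + τ) / ‖x‖) • x) ⁻¹' C)ᶜ) := by
    ext x
    simp only [Sout, mem_inter_iff, mem_compl_iff, mem_preimage, Set.mem_setOf_eq]
  rw [h2]
  exact hCc.measurableSet.inter ((measurableSet_le measurable_norm measurable_const).inter
    (h1 hCc.measurableSet).compl)

lemma Inn_sub_Sout {E : Type*} [NormedAddCommGroup E] [InnerProductSpace ℝ E] (C : Set E)
    (hconv : Convex ℝ C) (h0 : (0 : E) ∈ C) (τ : ℝ) : Inn C τ 0 ⊆ Sout C τ := by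
  rintro x ⟨hx, hx1, hxo⟩
  rw [sub_zero] at hx1 hxo
  rw [zero_add] at hxo
  refine ⟨hx, hx1, ?_⟩
  intro hy
  apply hxo
  rcases eq_or_ne x 0 with rfl | hx0
  · rw [smul_zero]; exact h0
  have hn : 0 < ‖x‖ := norm_pos_iff.mpr hx0
  have h := hconv hy h0 hn.le (by linarith : 0 ≤ 1 - ‖x‖) (by ring)
  rw [smul_zero, add_zero, smul_smul, mul_div_cancel₀ _ hn.ne'] at h
  exact h

/-- the translated body -/
def shiftC {E : Type*} [NormedAddCommGroup E] (C : Set E) (w : E) : Set E := (fun x => x + w) ⁻¹' C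

lemma shiftC_convex {E : Type*} [NormedAddCommGroup E] [InnerProductSpace ℝ E] (C : Set E) (w : E)
    (hconv : Convex ℝ C) : Convex ℝ (shiftC C w) := by
  intro x hx y hy a b ha hb hab
  have h := hconv hx hy ha hb hab
  simp only at h
  have e : a • (x + w) + b • (y + w) = a • x + b • y + w := by
    have : (a + b) • w = w := by rw [hab, one_smul]
    rw [smul_add, smul_add]
    nth_rewrite 3 [← this]
    rw [add_smul]; abel
  rw [e] at h
  exact h

lemma shiftC_compact {E : Type*} [NormedAddCommGroup E] (C : Set E) (w : E)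
    (hCc : IsCompact C) : IsCompact (shiftC C w) := by
  unfold shiftC
  exact (Homeomorph.addRight w).isCompact_preimage.mpr hCc

lemma vol_shift (A : Set (EuclideanSpace ℝ (Fin (n + 1)))) (w : EuclideanSpace ℝ (Fin (n + 1))) :
    volume.real (shiftC A w) = volume.real A := by
  unfold shiftC
  rw [measureReal_def, measure_preimage_add_right, measureReal_def]

lemma Inn_shift {E : Type*} [NormedAddCommGroup E] [InnerProductSpace ℝ E] (C : Set E)
    (w : E) (τ : ℝ) : Inn (shiftC C w) τ 0 = shiftC (Inn C τ w) w := by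
  ext x
  simp only [Inn, shiftC, mem_preimage, Set.mem_setOf_eq, sub_zero, zero_add, add_sub_cancel_right,
    add_comm w]

lemma ball_shift {E : Type*} [NormedAddCommGroup E] [InnerProductSpace ℝ E] (C : Set E)
    (w a : E) : shiftC C w ∩ closedBall (a - w) 1 = shiftC (C ∩ closedBall a 1) w := by
  ext x
  simp only [shiftC, mem_inter_iff, mem_preimage, mem_closedBall, dist_eq_norm]
  have e : x - (a - w) = x + w - a := by abel
  rw [e]

/-- **Few directions.** -/
theorem few_dirs (η' δ : ℝ) (hη' : 0 < η') (hδ : 0 < δ) (hδ1 : δ ≤ 1) : ∃ N₀ : ℕ, ∃ R₁ : ℝ,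
    ∃ d₀ : ℕ, ∀ n : ℕ, d₀ ≤ n → ∀ (C : Set (EuclideanSpace ℝ (Fin (n + 1)))), Convex ℝ C →
      IsCompact C → ∀ w ∈ C, ∀ τ : ℝ, 0 < τ → τ ≤ 1 / ((n : ℝ) + 1) →
      η' * kap (n + 1) ≤ volume.real (Inn C τ w) →
      ∀ U : Finset (EuclideanSpace ℝ (Fin (n + 1))),
        (∀ u ∈ U, R₁ ≤ √((n : ℝ) + 1) * ‖u - w‖) →
        (∀ u ∈ U, η' * kap (n + 1) ≤ volume.real (C ∩ closedBall u 1)) →
        (∀ u ∈ U, ∀ u' ∈ U, u ≠ u' → δ ≤ ‖dir w u - dir w u'‖) → U.card ≤ N₀ := by
  classical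
  obtain ⟨β, hβ, hfar⟩ := far_tilt (η' / 4) (δ / 2) (by positivity) (by positivity) (by linarith)
  obtain ⟨R₀, d₁, hfar⟩ := hfar η' hη'
  obtain ⟨M, hM, ε₁, hε₁, d₂, havg⟩ := avg_tilt β (η' / 4) hβ (by positivity)
  obtain ⟨N₀, hN₀⟩ := almost_orth δ ε₁ hδ hε₁ M
  refine ⟨N₀, max R₀ 1, max d₁ d₂, ?_⟩
  intro n hn C hconv hCc w hw τ hτ0 hτ1 hInn U hUfar hUvol hUsep
  by_contra hcard
  push Not at hcard
  have hκ := kap_pos (n + 1)
  have hUpos : ∀ u ∈ U, 0 < ‖u - w‖ := by
    intro u hu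
    have h1 := (le_max_right R₀ 1).trans (hUfar u hu)
    by_contra hcon
    have h2 : ‖u - w‖ = 0 := le_antisymm (not_lt.mp hcon) (norm_nonneg _)
    rw [h2, mul_zero] at h1
    linarith
  -- the set of directions
  have hinj : ∀ u ∈ U, ∀ u' ∈ U, dir w u = dir w u' → u = u' := by
    intro u hu u' hu' h
    by_contra hne
    have := hUsep u hu u' hu' hne
    rw [h, sub_self, norm_zero] at this
    linarith
  have hdir1 : ∀ u ∈ U, ‖dir w u‖ = 1 := by
    intro u hu
    unfold dir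
    have := hUpos u hu
    rw [norm_smul, Real.norm_of_nonneg (by positivity)]
    field_simp
  obtain ⟨f, hf1, hf2, hf3⟩ := hN₀ (n + 1) (U.image (dir w)) (by
      intro e he
      obtain ⟨u, hu, rfl⟩ := Finset.mem_image.mp he
      exact hdir1 u hu) (by
      intro e he e' he' hne
      obtain ⟨u, hu, rfl⟩ := Finset.mem_image.mp he
      obtain ⟨u', hu', rfl⟩ := Finset.mem_image.mp he'
      exact hUsep u hu u' hu' (fun h => hne (by rw [h]))) (by
      rw [Finset.card_image_of_injOn (fun u hu u' hu' h => hinj u hu u' hu' h)]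
      exact hcard.le)
  have hC0 : (0 : EuclideanSpace ℝ (Fin (n + 1))) ∈ shiftC C w := by
    simp only [shiftC, mem_preimage, zero_add]; exact hw
  have hS : Sout (shiftC C w) τ ⊆ closedBall 0 1 := by
    intro x hx
    rw [mem_closedBall, dist_zero_right]
    exact hx.2.1
  have hkey := havg n ((le_max_right _ _).trans hn) (fun j => β • f j) (by
      intro j
      rw [norm_smul, hf1, mul_one, Real.norm_of_nonneg hβ.le]) (by
      intro j l hjl
      rw [real_inner_smul_left, real_inner_smul_right, ← mul_assoc, abs_mul,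
        abs_of_pos (by positivity)]
      calc β * β * |inner ℝ (f j) (f l)| ≤ β * β * ε₁ :=
            mul_le_mul_of_nonneg_left (hf2 j l hjl) (by positivity)
        _ = _ := by ring) (Sout (shiftC C w) τ) hS
      (Sout_meas _ (shiftC_compact C w hCc) τ) (η' / 4) (by positivity) (by
      intro j
      obtain ⟨e, he, hje⟩ := hf3 j
      obtain ⟨u, hu, rfl⟩ := Finset.mem_image.mp he
      apply hfar n ((le_max_left _ _).trans hn) (shiftC C w) (shiftC_convex C w hconv)
        (shiftC_compact C w hCc) hC0 (u - w) ((le_max_left _ _).trans (hUfar u hu)) ?_ (β • f j)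
        ?_ ?_ τ hτ0 hτ1
      · rw [ball_shift, vol_shift]
        exact hUvol u hu
      · rw [norm_smul, hf1, mul_one, Real.norm_of_nonneg hβ.le]
      · have hpos := hUpos u hu
        have e : u - w = ‖u - w‖ • dir w u := by
          unfold dir
          rw [smul_smul]
          have : ‖u - w‖ * (1 / ‖u - w‖) = 1 := by field_simp
          rw [this, one_smul]
        have h4 : inner ℝ (β • f j) (u - w) = β * (‖u - w‖ * inner ℝ (f j) (dir w u)) := by
          nth_rewrite 1 [e]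
          rw [real_inner_smul_left, real_inner_smul_right]
        rw [h4]
        have h5 : ‖u - w‖ * (δ / 2) ≤ ‖u - w‖ * inner ℝ (f j) (dir w u) :=
          mul_le_mul_of_nonneg_left hje hpos.le
        nlinarith)
  have h6 : volume.real (Inn C τ w) ≤ volume.real (Sout (shiftC C w) τ) := by
    rw [← vol_shift (Inn C τ w) w, ← Inn_shift]
    exact measureReal_mono (Inn_sub_Sout _ (shiftC_convex C w hconv) hC0 τ)
      (ne_top_of_le_ne_top
        (isCompact_closedBall (0 : EuclideanSpace ℝ (Fin (n + 1))) 1).measure_ne_top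
        (measure_mono hS))
  nlinarith

end SA70
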