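import Pool.Agent.SA70.FrA
import Pool.Agent.SA70.FrB
import Pool.Agent.SA70.FrC
import Pool.Agent.SA70.FrD
import Pool.Agent.SA70.M7c
import Pool.Agent.SA70.M8

/-! M7e: the Voronoi sum for bodies near a flat (any number of balls). -/

set_option autoImplicit false

open MeasureTheory Measure Metric Set Module ENNReal

namespace SA70

open SC70 M7cAux

theorem voronoi_sum3 (ε₅ θ : ℝ) (hε₅ : 0 < ε₅) (hε₅1 : ε₅ ≤ 1) (hθ0 : 0 < θ) (hθ1 : θ ≤ 1) :
    ∃ c : ℝ, 0 < c ∧ ∃ d₀ : ℕ, ∀ n : ℕ, d₀ ≤ n →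
      ∀ (C : Set (EuclideanSpace ℝ (Fin (n + 1)))) (W : Finset (EuclideanSpace ℝ (Fin (n + 1)))),
      Convex ℝ C → IsCompact C → (∀ w ∈ W, w ∈ C) → C ⊆ ⋃ w ∈ W, closedBall w 1 →
      ∀ S : AffineSubspace ℝ (EuclideanSpace ℝ (Fin (n + 1))),
      (finrank ℝ S.direction : ℝ) ≤ c * ((n : ℝ) + 1) →
      (∀ x ∈ C, ∃ y ∈ S, ‖x - y‖ ^ 2 ≤ c * ((n : ℝ) + 1)) →
      (1 - ε₅) * (θ / (1 + θ)) * volume.real C ≤
        ∑ w ∈ W, volume.real (Inn C (θ / ((n : ℝ) + 1)) w ∩ Vor W w) +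
          ε₅ * θ * W.card * kap (n + 1) := by
  classical
  obtain ⟨c, hc⟩ : ∃ c : ℝ, c = ε₅ ^ 3 * θ / 1024 := ⟨_, rfl⟩
  have hc0 : 0 < c := by rw [hc]; positivity
  have hε3 : ε₅ ^ 3 ≤ ε₅ ^ 2 := pow_le_pow_of_le_one hε₅.le hε₅1 (by norm_num)
  have hε2 : ε₅ ^ 2 ≤ ε₅ := by
    have := pow_le_pow_of_le_one hε₅.le hε₅1 (show 1 ≤ 2 by norm_num)
    rwa [pow_one] at this
  have hcε2 : c ≤ ε₅ ^ 2 / 1024 := by
    rw [hc]
    have : ε₅ ^ 3 * θ ≤ ε₅ ^ 2 * 1 := mul_le_mul hε3 hθ1 hθ0.le (by positivity)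
    linarith
  have hcε : c ≤ ε₅ := by linarith
  have hc2 : c ≤ 1 / 2 := by linarith
  refine ⟨c, hc0, 4, fun n hn C W hconv hCc hWC hcov S hSm hSd => ?_⟩
  have hd : (0 : ℝ) < (n : ℝ) + 1 := by positivity
  have hn4 : (4 : ℝ) ≤ n := by exact_mod_cast hn
  have hκ0 := kap_nonneg (n + 1)
  have hκn := kap_nonneg n
  rcases C.eq_empty_or_nonempty with hCe | ⟨x₀, hx₀⟩
  · rw [hCe, measureReal_empty, mul_zero]
    have h1 : 0 ≤ ∑ w ∈ W, volume.real (Inn (∅ : Set (EuclideanSpace ℝ (Fin (n + 1))))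
        (θ / ((n : ℝ) + 1)) w ∩ Vor W w) := Finset.sum_nonneg fun _ _ => measureReal_nonneg
    positivity
  obtain ⟨τ, hτ⟩ : ∃ τ : ℝ, τ = θ / ((n : ℝ) + 1) := ⟨_, rfl⟩
  rw [← hτ]
  have hτ0 : 0 < τ := by rw [hτ]; positivity
  have hτd : τ * ((n : ℝ) + 1) = θ := by rw [hτ]; field_simp
  obtain ⟨m, hm⟩ : ∃ m : ℕ, m = finrank ℝ S.direction := ⟨_, rfl⟩
  rw [← hm] at hSm
  have hmn : m ≤ n := by
    have h1 : (m : ℝ) < (n : ℝ) + 1 := by nlinarith
    have h2 : m < n + 1 := by exact_mod_cast h1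
    omega
  obtain ⟨N, hN⟩ : ∃ N : ℕ, m + N = n := ⟨n - m, by omega⟩
  obtain ⟨A, B, hAB, hVA, hmp, hsurj⟩ := exists_frame2 S.direction m N hm.symm hN
  obtain ⟨p, hpm, hp⟩ := fibre_dil A B hAB hmp C hconv hCc τ hτ0
  choose g hg using hsurj
  have hg' : ∀ w, A (g w).1 + B (g w).2 = w := hg
  obtain ⟨D, hD⟩ : ∃ D : ℝ, D = √(c * ((n : ℝ) + 1)) := ⟨_, rfl⟩
  have hD0 : 0 ≤ D := by rw [hD]; exact Real.sqrt_nonneg _
  -- the distance of the normal coordinates
  have hUb : ∀ w ∈ C, ∀ z, A z + B (p z) ∈ C → τ * ‖(g w).2 - p z‖ ≤ 2 * τ * D := by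
    intro w hw z hz
    obtain ⟨y1, hy1, h1⟩ := hSd w hw
    obtain ⟨y2, hy2, h2⟩ := hSd _ hz
    have h1' : ‖w - y1‖ ≤ D := by rw [hD]; exact Real.le_sqrt_of_sq_le h1
    have h2' : ‖A z + B (p z) - y2‖ ≤ D := by rw [hD]; exact Real.le_sqrt_of_sq_le h2
    have h3 : y1 - y2 ∈ S.direction := by
      have := AffineSubspace.vsub_mem_direction hy1 hy2
      rwa [vsub_eq_sub] at this
    obtain ⟨z', hz'⟩ := hVA _ h3
    obtain ⟨u, hu⟩ : ∃ u, u = (g w).2 - p z := ⟨_, rfl⟩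
    rw [← hu]
    have h5 : w - (A z + B (p z)) = A ((g w).1 - z) + B u := by
      rw [hu, map_sub, map_sub]
      conv_lhs => rw [← hg' w]
      abel
    have h6 : inner ℝ (w - (A z + B (p z))) (B u) = ‖u‖ ^ 2 := by
      rw [h5, inner_add_left, hAB, zero_add, LinearIsometry.inner_map_map,
        real_inner_self_eq_norm_sq]
    have h7 : w - (A z + B (p z)) = ((w - y1) - (A z + B (p z) - y2)) + A z' := by
      rw [hz']; abel
    rw [h7, inner_add_left, hAB, add_zero] at h6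
    have h8 : ‖u‖ ^ 2 ≤ 2 * D * ‖u‖ := by
      rw [← h6]
      refine (real_inner_le_norm _ _).trans ?_
      rw [LinearIsometry.norm_map]
      refine mul_le_mul_of_nonneg_right ((norm_sub_le _ _).trans ?_) (norm_nonneg _)
      linarith
    have h9 : ‖u‖ ≤ 2 * D := by
      rcases (norm_nonneg u).eq_or_lt with h | h
      · rw [← h]; positivity
      · nlinarith
    nlinarith
  -- the three kinds of points
  have hsub : {q : EuclideanSpace ℝ (Fin m) × EuclideanSpace ℝ (Fin (N + 1)) |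
          A q.1 + B q.2 ∈ C ∧ A q.1 + B (p q.1) ∈ C ∧
            A q.1 + B (q.2 + τ • (q.2 - p q.1)) ∉ C} ⊆
      ⋃ w ∈ W, ((fun q : EuclideanSpace ℝ (Fin m) × EuclideanSpace ℝ (Fin (N + 1)) =>
          A q.1 + B q.2) ⁻¹' (Inn C τ w ∩ Vor W w) ∪
        ({q : EuclideanSpace ℝ (Fin m) × EuclideanSpace ℝ (Fin (N + 1)) |
            ‖A q.1 + B q.2 - (A (g w).1 + B (g w).2)‖ ≤ 1 ∧
            (A (g w).1 + B (g w).2) + (1 + τ) • (A q.1 + B q.2 - (A (g w).1 + B (g w).2)) ∈ C ∧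
            A q.1 + B ((g w).2 + (1 + τ) • (q.2 - (g w).2)) ∉ C} ∪
          {q : EuclideanSpace ℝ (Fin m) × EuclideanSpace ℝ (Fin (N + 1)) |
            ‖A q.1 + B q.2 - (A (g w).1 + B (g w).2)‖ ≤ 1 ∧
            τ * ‖(g w).2 - p q.1‖ ≤ 2 * τ * D ∧
            A q.1 + B ((g w).2 + (1 + τ) • (q.2 - (g w).2)) ∈ C ∧
            A q.1 + B ((g w).2 + (1 + τ) • (q.2 - (g w).2) + τ • ((g w).2 - p q.1)) ∉ C})) := by
    rintro q ⟨hq1, hq2, hq3⟩
    obtain ⟨w, hw, hxw⟩ := mem_iUnion₂.1 (cell_cover hcov hq1)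
    have hx1 := cell_sub hcov w hxw
    rw [mem_closedBall, dist_eq_norm] at hx1
    refine mem_iUnion₂.2 ⟨w, hw, ?_⟩
    by_cases h1 : w + (1 + τ) • (A q.1 + B q.2 - w) ∈ C
    · right
      by_cases h2 : A q.1 + B ((g w).2 + (1 + τ) • (q.2 - (g w).2)) ∈ C
      · right
        refine ⟨?_, hUb w (hWC w hw) q.1 hq2, h2, ?_⟩
        · rw [hg' w]; exact hx1
        · have h3 : (g w).2 + (1 + τ) • (q.2 - (g w).2) + τ • ((g w).2 - p q.1) =
              q.2 + τ • (q.2 - p q.1) := by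
            module
          rw [h3]
          exact hq3
      · left
        refine ⟨?_, ?_, h2⟩
        · rw [hg' w]; exact hx1
        · rw [hg' w]; exact h1
    · exact Or.inl ⟨⟨hq1, hx1, h1⟩, hxw.2⟩
  -- finiteness
  have hballfin : ∀ w, volume ((fun q : EuclideanSpace ℝ (Fin m) × EuclideanSpace ℝ (Fin (N + 1)) =>
      A q.1 + B q.2) ⁻¹' closedBall w 1) ≠ ⊤ := by
    intro w
    rw [hmp.measure_preimage measurableSet_closedBall.nullMeasurableSet]
    exact measure_closedBall_lt_top.ne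
  obtain ⟨s, hs⟩ : ∃ s : ℝ, s = ε₅ / 16 := ⟨_, rfl⟩
  have hs0 : 0 < s := by rw [hs]; positivity
  -- the numbers
  have hκκ : kap n ≤ √((n : ℝ) + 1) * kap (n + 1) := by
    have h3 := kap_succ_ge (n := n) (by omega)
    have hpi := Real.pi_gt_d2
    have h4 : 1 ≤ √((n : ℝ) + 1) * √(2 * Real.pi / ((n : ℝ) + 2)) := by
      rw [← Real.sqrt_mul hd.le, Real.one_le_sqrt, ← mul_div_assoc, le_div_iff₀ (by positivity)]
      nlinarith
    have h5 := mul_le_mul_of_nonneg_left h3 (Real.sqrt_nonneg ((n : ℝ) + 1))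
    have h6 := mul_le_mul_of_nonneg_right h4 hκn
    nlinarith
  have hpow : (1 + τ) ^ N ≤ 3 := by
    have h1 : (1 + τ) ^ N ≤ (Real.exp τ) ^ N := by
      refine pow_le_pow_left₀ (by positivity) ?_ _
      linarith [Real.add_one_le_exp τ]
    rw [← Real.exp_nat_mul] at h1
    have h2 : (N : ℝ) * τ ≤ 1 := by
      have h3 : (N : ℝ) ≤ (n : ℝ) + 1 := by
        have : (N : ℝ) ≤ n := by exact_mod_cast (by omega : N ≤ n)
        linarith
      nlinarith
    have h3 := Real.exp_le_exp.2 h2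
    have h4 := Real.exp_one_lt_d9
    linarith
  have hDD : D ^ 2 = c * ((n : ℝ) + 1) := by rw [hD]; exact Real.sq_sqrt (by positivity)
  have hlay : 4 * (τ * s) * ((n : ℝ) + 1) + m / (((n : ℝ) + 1) * s ^ 2) ≤ ε₅ * θ / 2 := by
    have h1 : 4 * (τ * s) * ((n : ℝ) + 1) = ε₅ * θ / 4 := by
      rw [hs]
      calc 4 * (τ * (ε₅ / 16)) * ((n : ℝ) + 1) = ε₅ / 4 * (τ * ((n : ℝ) + 1)) := by ring
        _ = ε₅ * θ / 4 := by rw [hτd]; ring
    have h2 : m / (((n : ℝ) + 1) * s ^ 2) ≤ ε₅ * θ / 4 := by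
      rw [div_le_iff₀ (by positivity)]
      refine hSm.trans (le_of_eq ?_)
      rw [hc, hs]
      ring
    linarith
  have hexit : 2 * τ * D * (1 + τ) ^ N * kap n ≤ ε₅ * θ / 2 * kap (n + 1) := by
    have h1 : D * √((n : ℝ) + 1) ≤ ε₅ / 12 * ((n : ℝ) + 1) := by
      refine le_of_sq_le_sq ?_ (by positivity)
      rw [mul_pow, hDD, Real.sq_sqrt hd.le, mul_pow]
      have h2 : c ≤ (ε₅ / 12) ^ 2 := by nlinarith
      have h3 := mul_le_mul_of_nonneg_right h2 (sq_nonneg ((n : ℝ) + 1))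
      nlinarith
    calc 2 * τ * D * (1 + τ) ^ N * kap n ≤ 2 * τ * D * 3 * (√((n : ℝ) + 1) * kap (n + 1)) := by
          refine mul_le_mul (mul_le_mul_of_nonneg_left hpow (by positivity)) hκκ hκn
            (by positivity)
      _ = 6 * τ * kap (n + 1) * (D * √((n : ℝ) + 1)) := by ring
      _ ≤ 6 * τ * kap (n + 1) * (ε₅ / 12 * ((n : ℝ) + 1)) :=
          mul_le_mul_of_nonneg_left h1 (by positivity)
      _ = ε₅ / 2 * kap (n + 1) * (τ * ((n : ℝ) + 1)) := by ring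
      _ = ε₅ * θ / 2 * kap (n + 1) := by rw [hτd]; ring
  -- the sum
  have hsum : volume.real {q : EuclideanSpace ℝ (Fin m) × EuclideanSpace ℝ (Fin (N + 1)) |
          A q.1 + B q.2 ∈ C ∧ A q.1 + B (p q.1) ∈ C ∧
            A q.1 + B (q.2 + τ • (q.2 - p q.1)) ∉ C} ≤
      ∑ w ∈ W, volume.real (Inn C τ w ∩ Vor W w) + ε₅ * θ * W.card * kap (n + 1) := by
    refine (measureReal_mono hsub ?_).trans ((measureReal_biUnion_finset_le _ _).trans ?_)
    · refine ((measure_biUnion_finset_le _ _).trans_lt ?_).ne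
      refine ENNReal.sum_lt_top.2 fun w _ => ?_
      refine (measure_mono ?_).trans_lt (hballfin w).lt_top
      rintro q (hq | hq | hq)
      · have h1 := hq.1.2.1
        rw [mem_preimage, mem_closedBall, dist_eq_norm]
        exact h1
      · have h1 := hq.1
        rw [hg' w] at h1
        rw [mem_preimage, mem_closedBall, dist_eq_norm]
        exact h1
      · have h1 := hq.1
        rw [hg' w] at h1
        rw [mem_preimage, mem_closedBall, dist_eq_norm]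
        exact h1
    · have h1 : ∀ w ∈ W, volume.real
          ((fun q : EuclideanSpace ℝ (Fin m) × EuclideanSpace ℝ (Fin (N + 1)) =>
            A q.1 + B q.2) ⁻¹' (Inn C τ w ∩ Vor W w) ∪
          ({q : EuclideanSpace ℝ (Fin m) × EuclideanSpace ℝ (Fin (N + 1)) |
            ‖A q.1 + B q.2 - (A (g w).1 + B (g w).2)‖ ≤ 1 ∧
            (A (g w).1 + B (g w).2) + (1 + τ) • (A q.1 + B q.2 - (A (g w).1 + B (g w).2)) ∈ C ∧
            A q.1 + B ((g w).2 + (1 + τ) • (q.2 - (g w).2)) ∉ C} ∪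
          {q : EuclideanSpace ℝ (Fin m) × EuclideanSpace ℝ (Fin (N + 1)) |
            ‖A q.1 + B q.2 - (A (g w).1 + B (g w).2)‖ ≤ 1 ∧
            τ * ‖(g w).2 - p q.1‖ ≤ 2 * τ * D ∧
            A q.1 + B ((g w).2 + (1 + τ) • (q.2 - (g w).2)) ∈ C ∧
            A q.1 + B ((g w).2 + (1 + τ) • (q.2 - (g w).2) + τ • ((g w).2 - p q.1)) ∉ C})) ≤
          volume.real (Inn C τ w ∩ Vor W w) + ε₅ * θ * kap (n + 1) := by
        intro w hw
        have hInnm : MeasurableSet (Inn C τ w) := by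
          have e : Inn C τ w = C ∩ ({x | ‖x - w‖ ≤ 1} ∩
              ((fun x => w + (1 + τ) • (x - w)) ⁻¹' C)ᶜ) := rfl
          rw [e]
          refine hCc.measurableSet.inter (MeasurableSet.inter ?_ (MeasurableSet.compl ?_))
          · exact (isClosed_le (by fun_prop) continuous_const).measurableSet
          · exact hCc.measurableSet.preimage (by fun_prop)
        have h2 : volume.real ((fun q : EuclideanSpace ℝ (Fin m) × EuclideanSpace ℝ (Fin (N + 1)) =>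
            A q.1 + B q.2) ⁻¹' (Inn C τ w ∩ Vor W w)) = volume.real (Inn C τ w ∩ Vor W w) := by
          rw [Measure.real, Measure.real, hmp.measure_preimage
            (hInnm.inter (vor_closed W w).measurableSet).nullMeasurableSet]
        have h3 := fibre_layer hN hn A B hAB hmp C hconv hCc (g w).1 (g w).2 τ s hτ0 hs0
        have h4 := fibre_exit hN A B hAB C hconv hCc (g w).1 (g w).2 τ (2 * τ * D) hτ0.le
          (by positivity) p hpm
        refine (measureReal_union_le _ _).trans ?_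
        rw [h2]
        refine add_le_add le_rfl ((measureReal_union_le _ _).trans ?_)
        refine (add_le_add h3 h4).trans ?_
        have h5 := mul_le_mul_of_nonneg_right hlay hκ0
        linarith
      refine (Finset.sum_le_sum h1).trans (le_of_eq ?_)
      rw [Finset.sum_add_distrib, Finset.sum_const, nsmul_eq_mul]
      ring
  -- the factor
  have hfac : (1 - ε₅) * (θ / (1 + θ)) ≤ 1 - ((1 + τ) ^ (N + 1))⁻¹ := by
    have h1 : 1 + (1 - ε₅) * θ ≤ (1 + τ) ^ (N + 1) := by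
      have h2 := one_add_mul_le_pow (show (-2 : ℝ) ≤ τ by linarith) (N + 1)
      have h3 : (1 - ε₅) * ((n : ℝ) + 1) ≤ ((N + 1 : ℕ) : ℝ) := by
        have h4 : (m : ℝ) + N = n := by exact_mod_cast hN
        push_cast
        nlinarith
      have h4 : (1 - ε₅) * θ ≤ ((N + 1 : ℕ) : ℝ) * τ := by
        rw [← hτd]
        nlinarith
      linarith
    have h2 : ((1 + τ) ^ (N + 1))⁻¹ ≤ (1 + (1 - ε₅) * θ)⁻¹ := by
      refine inv_anti₀ ?_ h1
      nlinarith
    have h3 : (1 - ε₅) * (θ / (1 + θ)) ≤ 1 - (1 + (1 - ε₅) * θ)⁻¹ := by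
      have h4 : 0 < 1 + (1 - ε₅) * θ := by nlinarith
      have h5 : 1 - (1 + (1 - ε₅) * θ)⁻¹ = (1 - ε₅) * θ / (1 + (1 - ε₅) * θ) := by
        field_simp
        ring
      rw [h5, ← mul_div_assoc]
      refine div_le_div_of_nonneg_left (by nlinarith) h4 ?_
      nlinarith
    linarith
  exact (mul_le_mul_of_nonneg_right hfac measureReal_nonneg).trans (hp.trans hsum)

end SA70
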