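import Pool.Agent.SA70.M10
import Pool.Agent.SA70.M7d
import Pool.Agent.SA70.M7e

/-!
# The asymptotic sausage theorem for coverings, any number of balls
-/

set_option autoImplicit false

open MeasureTheory Measure Metric Set Module ENNReal

namespace SA70

open SC70

variable {n : ℕ}

/-- the sum of the cell shells, for any finite set of centres in a convex body -/
theorem core_sum (ε₅ θ : ℝ) (hε₅0 : 0 < ε₅) (hθ0 : 0 < θ) (hθ1 : θ ≤ 1) : ∃ C₃ d₀ : ℕ,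
    ∀ n : ℕ, d₀ ≤ n → 1 ≤ n → ∀ (C : Set (EuclideanSpace ℝ (Fin (n + 1))))
      (S : Finset (EuclideanSpace ℝ (Fin (n + 1)))), Convex ℝ C → IsCompact C →
      (∀ w ∈ S, w ∈ C) →
      ∑ w ∈ S, volume.real (Inn C (θ / ((n : ℝ) + 1)) w ∩ Vor S w) ≤
        S.card * (2 * Mn n * θ * kap n + ε₅ * θ * kap (n + 1)) + C₃ * kap (n + 1) := by
  classical
  obtain ⟨η', hη'⟩ : ∃ η' : ℝ, η' = ε₅ * θ := ⟨_, rfl⟩
  have hη'0 : 0 < η' := by rw [hη']; positivity
  obtain ⟨δ', hδ'0, Ra, da, htwo⟩ := two_sided (ε₅ * θ) η' θ (by positivity) hη'0 hθ0 hθ1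
  obtain ⟨δ, hδ⟩ : ∃ δ : ℝ, δ = min (δ' / 6) 1 := ⟨_, rfl⟩
  have hδ0 : 0 < δ := by rw [hδ]; exact lt_min (by positivity) one_pos
  have hδ1 : δ ≤ 1 := by rw [hδ]; exact min_le_right _ _
  have hδδ : 6 * δ ≤ δ' := by
    have : δ ≤ δ' / 6 := by rw [hδ]; exact min_le_left _ _
    linarith
  obtain ⟨N₀, Rb, db, hfew⟩ := few_dirs η' δ hη'0 hδ0 hδ1
  obtain ⟨R, hR⟩ : ∃ R : ℝ, R = max (max Ra Rb) 1 := ⟨_, rfl⟩
  have hRa : Ra ≤ R := by rw [hR]; exact (le_max_left _ _).trans (le_max_left _ _)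
  have hRb : Rb ≤ R := by rw [hR]; exact (le_max_right _ _).trans (le_max_left _ _)
  have hR1 : 1 ≤ R := by rw [hR]; exact le_max_right _ _
  obtain ⟨N₁, hpack⟩ := packing η' R hη'0 (by linarith)
  obtain ⟨C₃, htri⟩ := opposite_triple N₀ N₁ δ hδ0
  refine ⟨C₃, max da db, ?_⟩
  intro n hn hn1 C S hconv hCc hSC
  have hnda : da ≤ n := (le_max_left _ _).trans hn
  have hndb : db ≤ n := (le_max_right _ _).trans hn
  have hκ := kap_pos (n + 1)
  have hκn := kap_pos n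
  have hMn := Mn_pos hn1
  have hd0 : (0 : ℝ) < (n : ℝ) + 1 := by positivity
  have hsd : 0 < √((n : ℝ) + 1) := Real.sqrt_pos.mpr hd0
  obtain ⟨τ, hτ⟩ : ∃ τ : ℝ, τ = θ / ((n : ℝ) + 1) := ⟨_, rfl⟩
  have hτ0 : 0 < τ := by rw [hτ]; positivity
  have hτ1 : τ ≤ 1 / ((n : ℝ) + 1) := by rw [hτ]; gcongr
  rw [← hτ]
  -- the cells
  obtain ⟨J, hJ⟩ : ∃ J : EuclideanSpace ℝ (Fin (n + 1)) → ℝ,
      ∀ w, J w = volume.real (Inn C τ w ∩ Vor S w) := ⟨_, fun _ => rfl⟩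
  have hCfin : ∀ A : Set (EuclideanSpace ℝ (Fin (n + 1))), A ⊆ C → volume A ≠ ⊤ := fun A hA =>
    ne_top_of_le_ne_top hCc.measure_ne_top (measure_mono hA)
  have hInnC : ∀ w, Inn C τ w ⊆ C := fun w x hx => hx.1
  have hJ1 : ∀ w, J w ≤ volume.real (Inn C τ w) := by
    intro w
    rw [hJ]
    exact measureReal_mono inter_subset_left (hCfin _ (hInnC w))
  have hJ2 : ∀ w, J w ≤ volume.real ((C ∩ closedBall w 1) ∩ Vor S w) := by
    intro w
    rw [hJ]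
    refine measureReal_mono (inter_subset_inter_left _ fun x hx => ⟨hx.1, ?_⟩)
      (hCfin _ (inter_subset_left.trans inter_subset_left))
    rw [mem_closedBall, dist_eq_norm]
    exact hx.2.1
  have hcell : ∀ w ∈ S, (C ∩ closedBall w 1) ∩ Vor S w ⊆ C ∩ closedBall w 1 :=
    fun w _ => inter_subset_left
  have hJ3 : ∀ w ∈ S, J w ≤ volume.real (C ∩ closedBall w 1) := by
    intro w hw
    exact (hJ2 w).trans (measureReal_mono (hcell w hw) (hCfin _ inter_subset_left))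
  have hJ4 : ∀ w ∈ S, J w ≤ kap (n + 1) := by
    intro w hw
    refine (hJ3 w hw).trans ?_
    rw [← vol_ball_real w]
    exact measureReal_mono inter_subset_right (isCompact_closedBall w 1).measure_ne_top
  obtain ⟨G, hG⟩ : ∃ G : Finset (EuclideanSpace ℝ (Fin (n + 1))),
      G = S.filter (fun w => η' * kap (n + 1) ≤ J w) := ⟨_, rfl⟩
  have hGmem : ∀ w, w ∈ G ↔ w ∈ S ∧ η' * kap (n + 1) ≤ J w := by
    intro w; rw [hG, Finset.mem_filter]
  obtain ⟨P, hP⟩ : ∃ P : Finset (EuclideanSpace ℝ (Fin (n + 1))),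
      P = G.filter (fun w => ¬ ∃ a ∈ G, ∃ b ∈ G, R / √((n : ℝ) + 1) ≤ ‖a - w‖ ∧
        R / √((n : ℝ) + 1) ≤ ‖b - w‖ ∧ ‖dir w a + dir w b‖ ≤ 6 * δ) := ⟨_, rfl⟩
  have hPmem : ∀ w, w ∈ P ↔ w ∈ G ∧ ¬ ∃ a ∈ G, ∃ b ∈ G, R / √((n : ℝ) + 1) ≤ ‖a - w‖ ∧
        R / √((n : ℝ) + 1) ≤ ‖b - w‖ ∧ ‖dir w a + dir w b‖ ≤ 6 * δ := by
    intro w; rw [hP, Finset.mem_filter]
  have hPG : ∀ w ∈ P, w ∈ G := fun w hw => ((hPmem w).mp hw).1
  have hPcard : P.card ≤ C₃ := by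
    by_contra hcon
    push Not at hcon
    obtain ⟨w, hw, a, ha, b, hb, h1, h2, h3⟩ := htri (n + 1) (R / √((n : ℝ) + 1)) P
      (by positivity) hcon (by
        intro w hw T hT hTw
        apply hpack n hn1 G (fun w => (C ∩ closedBall w 1) ∩ Vor S w) ?_ ?_ ?_ ?_ w T
          (fun u hu => hPG u (hT hu)) ?_
        · intro w hw
          exact (hCc.measurableSet.inter measurableSet_closedBall).inter
            (Vor_closed S w).measurableSet
        · intro w hw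
          exact (hcell w ((hGmem w).mp hw).1).trans inter_subset_right
        · intro w hw w' hw' hne
          apply measure_mono_null _ (vor_inter S w w' ((hGmem w).mp hw).1 ((hGmem w').mp hw').1 hne)
          rintro x ⟨⟨_, h1⟩, ⟨_, h2⟩⟩
          exact ⟨h1, h2⟩
        · intro w hw
          exact ((hGmem w).mp hw).2.trans (hJ2 w)
        · intro u hu
          have h4 := hTw u hu
          rw [lt_div_iff₀ hsd] at h4
          linarith) (by
        intro w hw U hU hUfar hUsep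
        have hwG := (hGmem w).mp (hPG w hw)
        apply hfew n hndb C hconv hCc w (hSC w hwG.1) τ hτ0 hτ1 (hwG.2.trans (hJ1 w)) U ?_ ?_ hUsep
        · intro u hu
          have h4 := hUfar u hu
          rw [div_le_iff₀ hsd] at h4
          linarith
        · intro u hu
          have huG := (hGmem u).mp (hPG u (hU hu))
          exact huG.2.trans (hJ3 u huG.1))
    exact ((hPmem w).mp hw).2 ⟨a, hPG a ha, b, hPG b hb, h1, h2, h3⟩
  -- the bound for each cell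
  have hJle : ∀ w ∈ S, J w ≤ (2 * Mn n * θ * kap n + ε₅ * θ * kap (n + 1)) +
      (if w ∈ P then kap (n + 1) else 0) := by
    intro w hw
    have hpos : 0 ≤ 2 * Mn n * θ * kap n := by positivity
    have hpos2 : 0 ≤ ε₅ * θ * kap (n + 1) := by positivity
    by_cases hwP : w ∈ P
    · rw [if_pos hwP]
      have := hJ4 w hw
      linarith
    · rw [if_neg hwP, add_zero]
      by_cases hwG : w ∈ G
      · have h1 : ∃ a ∈ G, ∃ b ∈ G, R / √((n : ℝ) + 1) ≤ ‖a - w‖ ∧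
            R / √((n : ℝ) + 1) ≤ ‖b - w‖ ∧ ‖dir w a + dir w b‖ ≤ 6 * δ := by
          by_contra hcon
          exact hwP ((hPmem w).mpr ⟨hwG, hcon⟩)
        obtain ⟨a, ha, b, hb, hfa, hfb, hab⟩ := h1
        have haG := (hGmem a).mp ha
        have hbG := (hGmem b).mp hb
        rw [div_le_iff₀ hsd] at hfa hfb
        have h2 := htwo n hnda (shiftC C w) (shiftC_convex C w hconv) (shiftC_compact C w hCc)
          (by simp only [shiftC, mem_preimage, zero_add]; exact hSC w hw) (a - w) (b - w)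
          (by linarith) (by linarith) (by rw [dir_shift, dir_shift]; linarith)
          (by rw [ball_shift, vol_shift]; exact haG.2.trans (hJ3 a haG.1))
          (by rw [ball_shift, vol_shift]; exact hbG.2.trans (hJ3 b hbG.1))
        rw [← hτ, Inn_shift, vol_shift] at h2
        exact (hJ1 w).trans h2
      · have h1 : J w < η' * kap (n + 1) := by
          by_contra hcon
          exact hwG ((hGmem w).mpr ⟨hw, not_lt.mp hcon⟩)
        rw [hη'] at h1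
        linarith
  have h1 : ∑ w ∈ S, volume.real (Inn C τ w ∩ Vor S w) = ∑ w ∈ S, J w :=
    Finset.sum_congr rfl fun w _ => (hJ w).symm
  rw [h1]
  calc ∑ w ∈ S, J w ≤ ∑ w ∈ S, ((2 * Mn n * θ * kap n + ε₅ * θ * kap (n + 1)) +
        (if w ∈ P then kap (n + 1) else 0)) := Finset.sum_le_sum hJle
    _ = S.card * (2 * Mn n * θ * kap n + ε₅ * θ * kap (n + 1)) +
        ∑ w ∈ S, (if w ∈ P then kap (n + 1) else 0) := by
        rw [Finset.sum_add_distrib, Finset.sum_const, nsmul_eq_mul]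
    _ ≤ _ := by
        rw [← Finset.sum_filter, Finset.sum_const, nsmul_eq_mul]
        have h1 : (S.filter (fun w => w ∈ P)).card ≤ C₃ := by
          refine (Finset.card_le_card ?_).trans hPcard
          intro w hw
          exact (Finset.mem_filter.mp hw).2
        have h2 : ((S.filter (fun w => w ∈ P)).card : ℝ) ≤ C₃ := by exact_mod_cast h1
        gcongr

/-- from the cell sums to the volume -/
lemma core_num (ε θ ε₅ V k Q c₃ : ℝ) (hε : 0 < ε) (hε1 : ε ≤ 1) (hθ : θ = ε / 20)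
    (hε₅ : ε₅ = ε / 100) (hV : 0 ≤ V) (hk : 50 * (c₃ + 1) / (θ * ε) ≤ k) (hQ : 0 < Q)
    (hc : 0 ≤ c₃)
    (h : (1 - ε₅) * (θ / (1 + θ)) * V ≤ k * (2 * θ * Q + 10 * ε₅ * θ * Q) + c₃ * (5 * Q)) :
    V ≤ (1 + ε) * (2 * k * Q) := by
  have hθ0 : 0 < θ := by rw [hθ]; positivity
  have hθε : 0 < θ * ε := by positivity
  have hkpos : 0 < k := lt_of_lt_of_le (by positivity) hk
  have hkQ : 0 < k * Q := by positivity
  have hC₃ : c₃ * 50 ≤ θ * ε * k := by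
    rw [div_le_iff₀ hθε] at hk
    nlinarith
  have h10 : c₃ * (5 * Q) ≤ θ * (ε * k * Q / 10) := by nlinarith
  have hq : 0 < (1 - ε₅) * (θ / (1 + θ)) := by
    have : 0 < 1 - ε₅ := by rw [hε₅]; linarith
    positivity
  by_contra hcon
  push Not at hcon
  have h11 : (1 - ε₅) * (θ / (1 + θ)) * ((1 + ε) * (2 * k * Q)) <
      (1 - ε₅) * (θ / (1 + θ)) * V := mul_lt_mul_of_pos_left hcon hq
  have h12 : (1 - ε₅) * (θ / (1 + θ)) * ((1 + ε) * (2 * k * Q)) <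
      k * (2 * θ * Q + 10 * ε₅ * θ * Q) + θ * (ε * k * Q / 10) := by linarith
  have h13 : (1 - ε₅) * (θ / (1 + θ)) * ((1 + ε) * (2 * k * Q)) =
      (θ * (k * Q)) * ((1 - ε₅) * (2 * (1 + ε)) / (1 + θ)) := by field_simp
  have h14 : k * (2 * θ * Q + 10 * ε₅ * θ * Q) + θ * (ε * k * Q / 10) =
      (θ * (k * Q)) * (2 + 10 * ε₅ + ε / 10) := by ring
  rw [h13, h14] at h12
  have h15 := lt_of_mul_lt_mul_left h12 (by positivity)
  rw [div_lt_iff₀ (by linarith)] at h15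
  rw [hθ, hε₅] at h15
  nlinarith

/-- **The asymptotic sausage theorem**, general form. -/
theorem asymptotic3 (ε : ℝ) (hε : 0 < ε) (hε1 : ε ≤ 1) : ∃ c : ℝ, 0 < c ∧ ∃ k₀ d₀ : ℕ,
    1 ≤ d₀ ∧ ∀ n : ℕ, d₀ ≤ n → ∀ (C : Set (EuclideanSpace ℝ (Fin (n + 1))))
      (X : Finset (EuclideanSpace ℝ (Fin (n + 1)))), Convex ℝ C → IsCompact C →
      C ⊆ ⋃ x ∈ X, closedBall x 1 → k₀ ≤ X.card →
      ((∀ x ∈ C, volume.real (C ∩ closedBall x 4) ≤
        Real.exp (c * ((n : ℝ) + 1)) * kap (n + 1)) ∨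
       (∃ S : AffineSubspace ℝ (EuclideanSpace ℝ (Fin (n + 1))),
        (finrank ℝ S.direction : ℝ) ≤ c * ((n : ℝ) + 1) ∧
        ∀ x ∈ C, ∃ y ∈ S, ‖x - y‖ ^ 2 ≤ c * ((n : ℝ) + 1))) →
      volume.real C ≤ (1 + ε) * (2 * X.card * (kap n * Mn n)) := by
  classical
  obtain ⟨θ, hθ⟩ : ∃ θ : ℝ, θ = ε / 20 := ⟨_, rfl⟩
  obtain ⟨ε₅, hε₅⟩ : ∃ ε₅ : ℝ, ε₅ = ε / 100 := ⟨_, rfl⟩
  have hθ0 : 0 < θ := by rw [hθ]; positivity
  have hθ1 : θ ≤ 1 := by rw [hθ]; linarith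
  have hε₅0 : 0 < ε₅ := by rw [hε₅]; positivity
  have hε₅1 : ε₅ ≤ 1 := by rw [hε₅]; linarith
  obtain ⟨C₃, da, hcore⟩ := core_sum ε₅ θ hε₅0 hθ0 hθ1
  obtain ⟨c₂, hc₂, d₂, hv2⟩ := voronoi_sum2 ε₅ θ hε₅0 hθ0 hθ1
  obtain ⟨c₃, hc₃, d₃, hv3⟩ := voronoi_sum3 ε₅ θ hε₅0 hε₅1 hθ0 hθ1
  refine ⟨min c₂ c₃, lt_min hc₂ hc₃, ⌈50 * ((C₃ : ℝ) + 1) / (θ * ε)⌉₊ + 1,
    max (max d₂ d₃) (max da 1), ?_, ?_⟩
  · exact (le_max_right _ _).trans (le_max_right _ _)
  intro n hn C X hconv hCc hcov hk hloc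
  have hn1 : 1 ≤ n := ((le_max_right _ _).trans (le_max_right _ _)).trans hn
  have hnda : da ≤ n := ((le_max_left _ _).trans (le_max_right _ _)).trans hn
  have hnd2 : d₂ ≤ n := ((le_max_left _ _).trans (le_max_left _ _)).trans hn
  have hnd3 : d₃ ≤ n := ((le_max_right _ _).trans (le_max_left _ _)).trans hn
  have hκ := kap_pos (n + 1)
  have hκn := kap_pos n
  have hMn := Mn_pos hn1
  have hd0 : (0 : ℝ) < (n : ℝ) + 1 := by positivity
  rcases C.eq_empty_or_nonempty with hCe | hCne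
  · rw [hCe, measureReal_empty]; positivity
  obtain ⟨f, hf1, hf2⟩ := move_in C hconv hCc hCne
  obtain ⟨W, hW⟩ : ∃ W : Finset (EuclideanSpace ℝ (Fin (n + 1))), W = X.image f := ⟨_, rfl⟩
  have hWC : ∀ w ∈ W, w ∈ C := by
    intro w hw
    rw [hW] at hw
    obtain ⟨x, _, rfl⟩ := Finset.mem_image.mp hw
    exact hf1 x
  have hcovW : C ⊆ ⋃ w ∈ W, closedBall w 1 := by
    intro x hx
    have h1 := hcov hx
    simp only [mem_iUnion] at h1 ⊢
    obtain ⟨w, hw, hxw⟩ := h1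
    rw [mem_closedBall, dist_eq_norm] at hxw
    exact ⟨f w, by rw [hW]; exact Finset.mem_image_of_mem f hw,
      by rw [mem_closedBall, dist_eq_norm]; exact (hf2 w x hx).trans hxw⟩
  have hWcard : (W.card : ℝ) ≤ X.card := by
    rw [hW]; exact_mod_cast Finset.card_image_le
  -- the volume is controlled by the cell sum of some set of centres
  obtain ⟨S, hSW, hsum⟩ : ∃ S : Finset (EuclideanSpace ℝ (Fin (n + 1))), S ⊆ W ∧
      (1 - ε₅) * (θ / (1 + θ)) * volume.real C ≤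
        ∑ w ∈ S, volume.real (Inn C (θ / ((n : ℝ) + 1)) w ∩ Vor S w) +
          ε₅ * θ * W.card * kap (n + 1) := by
    have hV0 : 0 ≤ volume.real C := measureReal_nonneg
    rcases hloc with hloc | ⟨S, hS1, hS2⟩
    · have hexp : Real.exp (min c₂ c₃ * ((n : ℝ) + 1)) ≤ Real.exp (c₂ * ((n : ℝ) + 1)) :=
        Real.exp_le_exp.mpr (mul_le_mul_of_nonneg_right (min_le_left _ _) hd0.le)
      obtain ⟨S, hSW, hsum⟩ := hv2 n hnd2 C W hconv hCc hWC hcovW
        (fun w hw => (hloc w (hWC w hw)).trans (mul_le_mul_of_nonneg_right hexp hκ.le))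
      refine ⟨S, hSW, le_trans ?_ hsum⟩
      apply mul_le_mul_of_nonneg_right _ hV0
      have hb := one_add_mul_le_pow (a := θ / ((n : ℝ) + 1))
        (by have : 0 ≤ θ / ((n : ℝ) + 1) := by positivity
            linarith) (n + 1)
      have h1 : ((n + 1 : ℕ) : ℝ) * (θ / ((n : ℝ) + 1)) = θ := by push_cast; field_simp
      rw [h1] at hb
      have h2 : ((1 + θ / ((n : ℝ) + 1)) ^ (n + 1))⁻¹ ≤ (1 + θ)⁻¹ :=
        inv_anti₀ (by linarith) hb
      have h3 : θ / (1 + θ) = 1 - (1 + θ)⁻¹ := by field_simp; ring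
      have h4 : (1 - ε₅) * (θ / (1 + θ)) ≤ 1 * (θ / (1 + θ)) :=
        mul_le_mul_of_nonneg_right (by linarith) (by positivity)
      linarith
    · have h5 : min c₂ c₃ * ((n : ℝ) + 1) ≤ c₃ * ((n : ℝ) + 1) :=
        mul_le_mul_of_nonneg_right (min_le_right _ _) hd0.le
      refine ⟨W, Finset.Subset.refl W, hv3 n hnd3 C W hconv hCc hWC hcovW S (hS1.trans h5) ?_⟩
      intro x hx
      obtain ⟨y, hy, hxy⟩ := hS2 x hx
      exact ⟨y, hy, hxy.trans h5⟩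
  have hJ := hcore n hnda hn1 C S hconv hCc (fun w hw => hWC w (hSW hw))
  have hScard : (S.card : ℝ) ≤ X.card :=
    le_trans (by exact_mod_cast Finset.card_le_card hSW) hWcard
  have hκle := kap_succ_le' hn1
  obtain ⟨Q, hQ⟩ : ∃ Q : ℝ, Q = kap n * Mn n := ⟨_, rfl⟩
  have hQ0 : 0 < Q := by rw [hQ]; positivity
  have hκQ : kap (n + 1) ≤ 5 * Q := by rw [hQ]; linarith
  rw [← hQ]
  have hk0 : 50 * ((C₃ : ℝ) + 1) / (θ * ε) ≤ X.card := by
    have h1 := Nat.le_ceil (50 * ((C₃ : ℝ) + 1) / (θ * ε))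
    have h2 : ⌈50 * ((C₃ : ℝ) + 1) / (θ * ε)⌉₊ ≤ X.card := by omega
    have h3 : ((⌈50 * ((C₃ : ℝ) + 1) / (θ * ε)⌉₊ : ℕ) : ℝ) ≤ (X.card : ℝ) := by exact_mod_cast h2
    linarith
  apply core_num ε θ ε₅ (volume.real C) X.card Q C₃ hε hε1 hθ hε₅ measureReal_nonneg hk0 hQ0
    (Nat.cast_nonneg _)
  have hX0 : (0 : ℝ) ≤ X.card := Nat.cast_nonneg _
  have e1 : 2 * Mn n * θ * kap n = 2 * θ * Q := by rw [hQ]; ring
  rw [e1] at hJ
  have h6 : ε₅ * θ * kap (n + 1) ≤ ε₅ * θ * (5 * Q) :=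
    mul_le_mul_of_nonneg_left hκQ (by positivity)
  calc (1 - ε₅) * (θ / (1 + θ)) * volume.real C
      ≤ ∑ w ∈ S, volume.real (Inn C (θ / ((n : ℝ) + 1)) w ∩ Vor S w) +
          ε₅ * θ * W.card * kap (n + 1) := hsum
    _ ≤ (S.card * (2 * θ * Q + ε₅ * θ * kap (n + 1)) + C₃ * kap (n + 1)) +
          W.card * (ε₅ * θ * kap (n + 1)) := by linarith
    _ ≤ (X.card * (2 * θ * Q + ε₅ * θ * (5 * Q)) + C₃ * (5 * Q)) +
          X.card * (ε₅ * θ * (5 * Q)) := by gcongr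
    _ = X.card * (2 * θ * Q + 10 * ε₅ * θ * Q) + C₃ * (5 * Q) := by ring

end SA70
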