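import Pool.Agent.SA70.M12
import Pool.Agent.SA70.M7f

/-! M13: the asymptotic sausage theorem for coverings, all bodies, any number of balls. -/

set_option autoImplicit false

open MeasureTheory Measure Metric Set Module ENNReal

namespace SA70

open SC70

/-- **The asymptotic sausage theorem**, all bodies. -/
theorem asymptotic4 (ε : ℝ) (hε : 0 < ε) (hε1 : ε ≤ 1) : ∃ k₀ d₀ : ℕ,
    1 ≤ d₀ ∧ ∀ n : ℕ, d₀ ≤ n → ∀ (C : Set (EuclideanSpace ℝ (Fin (n + 1))))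
      (X : Finset (EuclideanSpace ℝ (Fin (n + 1)))), Convex ℝ C → IsCompact C →
      C ⊆ ⋃ x ∈ X, closedBall x 1 → k₀ ≤ X.card →
      volume.real C ≤ (1 + ε) * (2 * X.card * (kap n * Mn n)) := by
  classical
  obtain ⟨θ, hθ⟩ : ∃ θ : ℝ, θ = ε / 20 := ⟨_, rfl⟩
  obtain ⟨ε₅, hε₅⟩ : ∃ ε₅ : ℝ, ε₅ = ε / 100 := ⟨_, rfl⟩
  have hθ0 : 0 < θ := by rw [hθ]; positivity
  have hθ1 : θ ≤ 1 := by rw [hθ]; linarith
  have hε₅0 : 0 < ε₅ := by rw [hε₅]; positivity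
  have hε₅1 : ε₅ ≤ 1 := by rw [hε₅]; linarith
  obtain ⟨C₃, da, hcore⟩ := core_sum ε₅ θ hε₅0 hθ0 hθ1
  obtain ⟨d₂, hv⟩ := voronoi_sum4 (ε₅ / 2) θ (by positivity) (by linarith) hθ0 hθ1
  refine ⟨⌈50 * ((C₃ : ℝ) + 1) / (θ * ε)⌉₊ + 1, max d₂ (max da 1), ?_, ?_⟩
  · exact (le_max_right _ _).trans (le_max_right _ _)
  intro n hn C X hconv hCc hcov hk
  have hn1 : 1 ≤ n := ((le_max_right _ _).trans (le_max_right _ _)).trans hn
  have hnda : da ≤ n := ((le_max_left _ _).trans (le_max_right _ _)).trans hn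
  have hnd2 : d₂ ≤ n := (le_max_left _ _).trans hn
  have hκ := kap_pos (n + 1)
  have hκn := kap_pos n
  have hMn := Mn_pos hn1
  have hd0 : (0 : ℝ) < (n : ℝ) + 1 := by positivity
  rcases C.eq_empty_or_nonempty with hCe | hCne
  · rw [hCe, measureReal_empty]; positivity
  obtain ⟨f, hf1, hf2⟩ := move_in C hconv hCc hCne
  obtain ⟨W, hW⟩ : ∃ W : Finset (EuclideanSpace ℝ (Fin (n + 1))), W = X.image f := ⟨_, rfl⟩
  have hWC : ∀ w ∈ W, w ∈ C := by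
    intro w hw
    rw [hW] at hw
    obtain ⟨x, _, rfl⟩ := Finset.mem_image.mp hw
    exact hf1 x
  have hcovW : C ⊆ ⋃ w ∈ W, closedBall w 1 := by
    intro x hx
    have h1 := hcov hx
    simp only [mem_iUnion] at h1 ⊢
    obtain ⟨w, hw, hxw⟩ := h1
    rw [mem_closedBall, dist_eq_norm] at hxw
    exact ⟨f w, by rw [hW]; exact Finset.mem_image_of_mem f hw,
      by rw [mem_closedBall, dist_eq_norm]; exact (hf2 w x hx).trans hxw⟩
  have hWcard : (W.card : ℝ) ≤ X.card := by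
    rw [hW]; exact_mod_cast Finset.card_image_le
  have hV0 : 0 ≤ volume.real C := measureReal_nonneg
  -- the volume is controlled by the cell sum of some set of centres
  obtain ⟨S, hSW, hsum⟩ : ∃ S : Finset (EuclideanSpace ℝ (Fin (n + 1))), S ⊆ W ∧
      (1 - ε₅) * (θ / (1 + θ)) * volume.real C ≤
        ∑ w ∈ S, volume.real (Inn C (θ / ((n : ℝ) + 1)) w ∩ Vor S w) +
          ε₅ * θ * W.card * kap (n + 1) := by
    obtain ⟨S, hSW, hsum⟩ := hv n hnd2 C W hconv hCc hWC hcovW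
    refine ⟨S, hSW, ?_⟩
    have hb := one_add_mul_le_pow (a := θ / ((n : ℝ) + 1))
      (by have : 0 ≤ θ / ((n : ℝ) + 1) := by positivity
          linarith) (n + 1)
    have h1 : ((n + 1 : ℕ) : ℝ) * (θ / ((n : ℝ) + 1)) = θ := by push_cast; field_simp
    rw [h1] at hb
    have h2 : ((1 + θ / ((n : ℝ) + 1)) ^ (n + 1))⁻¹ ≤ (1 + θ)⁻¹ :=
      inv_anti₀ (by linarith) hb
    have h3 : θ / (1 + θ) = 1 - (1 + θ)⁻¹ := by field_simp; ring
    have h4 : (1 - ε₅) * (θ / (1 + θ)) ≤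
        1 - ((1 + θ / ((n : ℝ) + 1)) ^ (n + 1))⁻¹ - ε₅ / 2 * θ := by
      have h5 : ε₅ / 2 * θ ≤ ε₅ * (θ / (1 + θ)) := by
        have h6 : θ / 2 ≤ θ / (1 + θ) := div_le_div_of_nonneg_left hθ0.le (by linarith) (by linarith)
        calc ε₅ / 2 * θ = ε₅ * (θ / 2) := by ring
          _ ≤ ε₅ * (θ / (1 + θ)) := mul_le_mul_of_nonneg_left h6 hε₅0.le
      have h7 : (1 - ε₅) * (θ / (1 + θ)) = θ / (1 + θ) - ε₅ * (θ / (1 + θ)) := by ring
      rw [h7]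
      linarith
    have h8 := mul_le_mul_of_nonneg_right h4 hV0
    have h9 : ε₅ / 2 * θ * (W.card * kap (n + 1)) ≤ ε₅ * θ * W.card * kap (n + 1) := by
      have : 0 ≤ ε₅ * θ * W.card * kap (n + 1) := by positivity
      linarith
    linarith [h8, h9, hsum]
  have hJ := hcore n hnda hn1 C S hconv hCc (fun w hw => hWC w (hSW hw))
  have hScard : (S.card : ℝ) ≤ X.card :=
    le_trans (by exact_mod_cast Finset.card_le_card hSW) hWcard
  have hκle := kap_succ_le' hn1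
  obtain ⟨Q, hQ⟩ : ∃ Q : ℝ, Q = kap n * Mn n := ⟨_, rfl⟩
  have hQ0 : 0 < Q := by rw [hQ]; positivity
  have hκQ : kap (n + 1) ≤ 5 * Q := by rw [hQ]; linarith
  rw [← hQ]
  have hk0 : 50 * ((C₃ : ℝ) + 1) / (θ * ε) ≤ X.card := by
    have h1 := Nat.le_ceil (50 * ((C₃ : ℝ) + 1) / (θ * ε))
    have h2 : ⌈50 * ((C₃ : ℝ) + 1) / (θ * ε)⌉₊ ≤ X.card := by omega
    have h3 : ((⌈50 * ((C₃ : ℝ) + 1) / (θ * ε)⌉₊ : ℕ) : ℝ) ≤ (X.card : ℝ) := by exact_mod_cast h2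
    linarith
  apply core_num ε θ ε₅ (volume.real C) X.card Q C₃ hε hε1 hθ hε₅ measureReal_nonneg hk0 hQ0
    (Nat.cast_nonneg _)
  have hX0 : (0 : ℝ) ≤ X.card := Nat.cast_nonneg _
  have e1 : 2 * Mn n * θ * kap n = 2 * θ * Q := by rw [hQ]; ring
  rw [e1] at hJ
  have h6 : ε₅ * θ * kap (n + 1) ≤ ε₅ * θ * (5 * Q) :=
    mul_le_mul_of_nonneg_left hκQ (by positivity)
  calc (1 - ε₅) * (θ / (1 + θ)) * volume.real C
      ≤ ∑ w ∈ S, volume.real (Inn C (θ / ((n : ℝ) + 1)) w ∩ Vor S w) +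
          ε₅ * θ * W.card * kap (n + 1) := hsum
    _ ≤ (S.card * (2 * θ * Q + ε₅ * θ * kap (n + 1)) + C₃ * kap (n + 1)) +
          W.card * (ε₅ * θ * kap (n + 1)) := by linarith
    _ ≤ (X.card * (2 * θ * Q + ε₅ * θ * (5 * Q)) + C₃ * (5 * Q)) +
          X.card * (ε₅ * θ * (5 * Q)) := by gcongr
    _ = X.card * (2 * θ * Q + 10 * ε₅ * θ * Q) + C₃ * (5 * Q) := by ring

end SA70
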