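import Pool.Agent.SA70.Basic
import Pool.Agent.SC70.Frame

/-!
# SA70, M2: the moment generating function of the unit ball
-/

set_option autoImplicit false

open MeasureTheory Measure Metric Set Module ENNReal
open scoped RealInnerProductSpace

namespace SA70

/-- the one dimensional weight -/
noncomputable def sw (n : ℕ) (t : ℝ) : ℝ := √(1 - t ^ 2) ^ n

lemma sw_cont (n : ℕ) : Continuous (sw n) := by
  unfold sw
  fun_prop

lemma sw_nonneg (n : ℕ) (t : ℝ) : 0 ≤ sw n t := pow_nonneg (Real.sqrt_nonneg _) _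

lemma sw_add_two (n : ℕ) {t : ℝ} (ht : t ^ 2 ≤ 1) : sw (n + 2) t = (1 - t ^ 2) * sw n t := by
  unfold sw
  rw [pow_add, Real.sq_sqrt (by linarith), mul_comm]

lemma sw_deriv (n : ℕ) {t : ℝ} (ht : t ^ 2 < 1) :
    HasDerivAt (sw (n + 2)) (-((n : ℝ) + 2) * t * sw n t) t := by
  have h0 : 1 - t ^ 2 ≠ 0 := by linarith
  have h1 : HasDerivAt (fun t : ℝ => 1 - t ^ 2) (-(2 * t)) t := by
    have := (hasDerivAt_pow 2 t).const_sub 1
    simpa using this
  have h2 := (h1.sqrt h0).pow (n + 2)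
  have h3 : 0 < √(1 - t ^ 2) := Real.sqrt_pos.2 (by linarith)
  refine HasDerivAt.congr_deriv h2 ?_
  unfold sw
  have e : n + 2 - 1 = n + 1 := rfl
  rw [e, pow_succ]
  push_cast
  field_simp

/-- integration by parts -/
lemma sw_parts (n : ℕ) {v v' : ℝ → ℝ} (hv : ∀ t, HasDerivAt v (v' t) t) (hv' : Continuous v') :
    ((n : ℝ) + 2) * ∫ t in (-1 : ℝ)..1, t * v t * sw n t = ∫ t in (-1 : ℝ)..1, v' t * sw (n + 2) t := by
  have hvc : Continuous v := continuous_iff_continuousAt.2 fun t => (hv t).continuousAt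
  have hs := sw_cont n
  have hs2 := sw_cont (n + 2)
  have key : ∫ t in (-1 : ℝ)..1, ((-((n : ℝ) + 2) * t * sw n t) * v t + sw (n + 2) t * v' t) =
      sw (n + 2) 1 * v 1 - sw (n + 2) (-1) * v (-1) := by
    refine intervalIntegral.integral_eq_sub_of_hasDerivAt_of_le (by norm_num)
      (f := fun t => sw (n + 2) t * v t) (hs2.mul hvc).continuousOn ?_ ?_
    · intro t ht
      have h1 : t ^ 2 < 1 := by
        obtain ⟨h1, h2⟩ := ht
        nlinarith
      exact (sw_deriv n h1).mul (hv t)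
    · apply Continuous.intervalIntegrable
      fun_prop
  have e1 : sw (n + 2) 1 = 0 := by simp [sw]
  have e2 : sw (n + 2) (-1) = 0 := by simp [sw]
  rw [e1, e2, zero_mul, zero_mul, sub_zero, intervalIntegral.integral_add] at key
  · have e3 : ∫ t in (-1 : ℝ)..1, (-((n : ℝ) + 2) * t * sw n t) * v t =
        -(((n : ℝ) + 2) * ∫ t in (-1 : ℝ)..1, t * v t * sw n t) := by
      rw [← intervalIntegral.integral_const_mul, ← intervalIntegral.integral_neg]
      refine intervalIntegral.integral_congr fun t _ => ?_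
      ring
    have e4 : ∫ t in (-1 : ℝ)..1, sw (n + 2) t * v' t = ∫ t in (-1 : ℝ)..1, v' t * sw (n + 2) t :=
      intervalIntegral.integral_congr fun t _ => mul_comm _ _
    rw [e3, e4] at key
    linarith
  · apply Continuous.intervalIntegrable
    fun_prop
  · apply Continuous.intervalIntegrable
    fun_prop

/-- the one dimensional moment generating function -/
noncomputable def ph (n : ℕ) (l : ℝ) : ℝ := ∫ t in (-1 : ℝ)..1, Real.exp (l * t) * sw n t

lemma ph_nonneg (n : ℕ) (l : ℝ) : 0 ≤ ph n l :=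
  intervalIntegral.integral_nonneg (by norm_num) fun t _ =>
    mul_nonneg (Real.exp_pos _).le (sw_nonneg _ _)

lemma ph_deriv (n : ℕ) (l : ℝ) :
    HasDerivAt (ph n) (∫ t in (-1 : ℝ)..1, t * Real.exp (l * t) * sw n t) l := by
  have hs := sw_cont n
  have h := intervalIntegral.hasDerivAt_integral_of_dominated_loc_of_deriv_le
    (μ := volume) (a := (-1 : ℝ)) (b := 1) (s := ball l 1)
    (F := fun l t => Real.exp (l * t) * sw n t)
    (F' := fun l t => t * Real.exp (l * t) * sw n t)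
    (x₀ := l) (bound := fun t => Real.exp (|l| + 1) * sw n t)
    (ball_mem_nhds l one_pos) ?_ ?_ ?_ ?_ ?_ ?_
  · exact h.2
  · refine Filter.Eventually.of_forall fun x => ?_
    apply Continuous.aestronglyMeasurable
    fun_prop
  · apply Continuous.intervalIntegrable
    fun_prop
  · apply Continuous.aestronglyMeasurable
    fun_prop
  · refine Filter.Eventually.of_forall fun t ht x hx => ?_
    rw [uIoc_of_le (by norm_num)] at ht
    have ht1 : |t| ≤ 1 := abs_le.2 ⟨ht.1.le, ht.2⟩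
    have hx1 : |x| ≤ |l| + 1 := by
      have := mem_ball.1 hx
      rw [Real.dist_eq] at this
      have h2 := abs_sub_abs_le_abs_sub x l
      linarith
    rw [norm_mul, norm_mul, Real.norm_eq_abs, Real.norm_eq_abs, Real.norm_eq_abs,
      abs_of_nonneg (sw_nonneg n t), abs_of_pos (Real.exp_pos _)]
    refine mul_le_mul_of_nonneg_right ?_ (sw_nonneg n t)
    have h3 : x * t ≤ |l| + 1 := by
      calc x * t ≤ |x * t| := le_abs_self _
        _ = |x| * |t| := abs_mul _ _
        _ ≤ (|l| + 1) * 1 := mul_le_mul hx1 ht1 (abs_nonneg _) (by positivity)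
        _ = _ := mul_one _
    calc |t| * Real.exp (x * t) ≤ 1 * Real.exp (|l| + 1) :=
          mul_le_mul ht1 (Real.exp_le_exp.2 h3) (Real.exp_pos _).le zero_le_one
      _ = _ := one_mul _
  · apply Continuous.intervalIntegrable
    fun_prop
  · refine Filter.Eventually.of_forall fun t _ x _ => ?_
    have h1 : HasDerivAt (fun x : ℝ => x * t) t x := by
      simpa using (hasDerivAt_id x).mul_const t
    have h2 := (h1.exp).mul_const (sw n t)
    refine HasDerivAt.congr_deriv h2 ?_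
    ring

lemma ph_one (n : ℕ) (l : ℝ) :
    ((n : ℝ) + 2) * ∫ t in (-1 : ℝ)..1, t * Real.exp (l * t) * sw n t = l * ph (n + 2) l := by
  have hv : ∀ t, HasDerivAt (fun t : ℝ => Real.exp (l * t)) (l * Real.exp (l * t)) t := by
    intro t
    have h1 : HasDerivAt (fun t : ℝ => l * t) l t := by
      simpa using (hasDerivAt_id t).const_mul l
    refine HasDerivAt.congr_deriv h1.exp ?_
    ring
  have h := sw_parts n (v := fun t => Real.exp (l * t)) (v' := fun t => l * Real.exp (l * t)) hv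
    (by fun_prop)
  rw [h, ph, ← intervalIntegral.integral_const_mul]
  refine intervalIntegral.integral_congr fun t _ => ?_
  ring

lemma ph_eq (n : ℕ) (l : ℝ) : ((n : ℝ) + 2) * ph n l = ((n : ℝ) + 3) * ph (n + 2) l +
    l ^ 2 / ((n : ℝ) + 4) * ph (n + 2 + 2) l := by
  have hs := sw_cont n
  have hs2 := sw_cont (n + 2)
  have hv : ∀ t, HasDerivAt (fun t : ℝ => t * Real.exp (l * t))
      (Real.exp (l * t) + l * (t * Real.exp (l * t))) t := by
    intro t
    have h1 : HasDerivAt (fun t : ℝ => l * t) l t := by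
      simpa using (hasDerivAt_id t).const_mul l
    refine HasDerivAt.congr_deriv ((hasDerivAt_id t).mul h1.exp) ?_
    simp only [id]
    ring
  have h := sw_parts n (v := fun t => t * Real.exp (l * t))
    (v' := fun t => Real.exp (l * t) + l * (t * Real.exp (l * t))) hv (by fun_prop)
  have e1 : ∫ t in (-1 : ℝ)..1, (Real.exp (l * t) + l * (t * Real.exp (l * t))) * sw (n + 2) t =
      ph (n + 2) l + l * ∫ t in (-1 : ℝ)..1, t * Real.exp (l * t) * sw (n + 2) t := by
    rw [ph, ← intervalIntegral.integral_const_mul, ← intervalIntegral.integral_add]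
    · refine intervalIntegral.integral_congr fun t _ => ?_
      ring
    · apply Continuous.intervalIntegrable
      fun_prop
    · apply Continuous.intervalIntegrable
      fun_prop
  have e2 : ph n l = ph (n + 2) l + ∫ t in (-1 : ℝ)..1, t * (t * Real.exp (l * t)) * sw n t := by
    rw [ph, ph, ← intervalIntegral.integral_add]
    · refine intervalIntegral.integral_congr fun t ht => ?_
      rw [uIcc_of_le (by norm_num)] at ht
      have h1 : t ^ 2 ≤ 1 := by
        obtain ⟨h1, h2⟩ := ht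
        nlinarith
      rw [sw_add_two n h1]
      ring
    · apply Continuous.intervalIntegrable
      fun_prop
    · apply Continuous.intervalIntegrable
      fun_prop
  have e3 := ph_one (n + 2) l
  have h5 : (0 : ℝ) < (n : ℝ) + 4 := by positivity
  have e4 : l * ∫ t in (-1 : ℝ)..1, t * Real.exp (l * t) * sw (n + 2) t =
      l ^ 2 / ((n : ℝ) + 4) * ph (n + 2 + 2) l := by
    rw [div_mul_eq_mul_div, eq_div_iff h5.ne', sq, mul_assoc l l, ← e3]
    push_cast
    ring
  rw [e1] at h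
  rw [← e4, e2, mul_add, h]
  ring

lemma ph_two (n : ℕ) (l : ℝ) : ((n : ℝ) + 3) * ph (n + 2) l ≤ ((n : ℝ) + 2) * ph n l := by
  rw [ph_eq]
  have h : 0 ≤ l ^ 2 / ((n : ℝ) + 4) * ph (n + 2 + 2) l :=
    mul_nonneg (by positivity) (ph_nonneg _ _)
  linarith

lemma ph_anti (n : ℕ) (l : ℝ) : ph (n + 2) l ≤ ph n l := by
  have hs := sw_cont n
  have hs2 := sw_cont (n + 2)
  refine intervalIntegral.integral_mono_on (by norm_num) ?_ ?_ fun t ht => ?_
  · apply Continuous.intervalIntegrable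
    fun_prop
  · apply Continuous.intervalIntegrable
    fun_prop
  · have h1 : t ^ 2 ≤ 1 := by
      obtain ⟨h1, h2⟩ := ht
      nlinarith
    refine mul_le_mul_of_nonneg_left ?_ (Real.exp_pos _).le
    rw [sw_add_two n h1]
    nlinarith [sw_nonneg n t, sq_nonneg t]

lemma ph_three (n : ℕ) (l : ℝ) :
    ((n : ℝ) + 2) * ph n l ≤ ((n : ℝ) + 3 + l ^ 2 / ((n : ℝ) + 4)) * ph (n + 2) l := by
  rw [ph_eq, add_mul]
  have h : l ^ 2 / ((n : ℝ) + 4) * ph (n + 2 + 2) l ≤ l ^ 2 / ((n : ℝ) + 4) * ph (n + 2) l :=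
    mul_le_mul_of_nonneg_left (ph_anti _ _) (by positivity)
  linarith

lemma ph_G (n : ℕ) (D : ℝ) (hD : 0 < D) (x : ℝ) :
    HasDerivAt (fun x => ph n x * Real.exp (-(x ^ 2 / (2 * D))))
      ((x * ph (n + 2) x / ((n : ℝ) + 2) - x / D * ph n x) * Real.exp (-(x ^ 2 / (2 * D)))) x := by
  have hn2 : (0 : ℝ) < (n : ℝ) + 2 := by positivity
  have h1 : HasDerivAt (fun x : ℝ => -(x ^ 2 / (2 * D))) (-(x / D)) x := by
    have := ((hasDerivAt_pow 2 x).div_const (2 * D)).neg
    refine HasDerivAt.congr_deriv this ?_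
    push_cast
    field_simp
    try ring
  refine HasDerivAt.congr_deriv ((ph_deriv n x).mul h1.exp) ?_
  have h2 := ph_one n x
  have h4 : (∫ t in (-1 : ℝ)..1, t * Real.exp (x * t) * sw n t) =
      x * ph (n + 2) x / ((n : ℝ) + 2) := by
    rw [eq_div_iff hn2.ne', ← h2]
    ring
  rw [h4]
  ring

lemma ph_le (n : ℕ) {l : ℝ} (hl : 0 ≤ l) :
    ph n l ≤ Real.exp (l ^ 2 / (2 * ((n : ℝ) + 3))) * ph n 0 := by
  have hn3 : (0 : ℝ) < (n : ℝ) + 3 := by positivity
  have hn2 : (0 : ℝ) < (n : ℝ) + 2 := by positivity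
  have hG := ph_G n _ hn3
  have hanti : AntitoneOn (fun x => ph n x * Real.exp (-(x ^ 2 / (2 * ((n : ℝ) + 3))))) (Ici 0) := by
    refine antitoneOn_of_deriv_nonpos (convex_Ici 0)
      (fun x _ => (hG x).continuousAt.continuousWithinAt)
      (fun x _ => (hG x).differentiableAt.differentiableWithinAt) ?_
    intro x hx
    rw [interior_Ici] at hx
    have hx0 : 0 < x := hx
    rw [(hG x).deriv]
    refine mul_nonpos_of_nonpos_of_nonneg (sub_nonpos.2 ?_) (Real.exp_pos _).le
    rw [div_le_iff₀ hn2]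
    have h5 : x * (((n : ℝ) + 3) * ph (n + 2) x) ≤ x * (((n : ℝ) + 2) * ph n x) :=
      mul_le_mul_of_nonneg_left (ph_two n x) hx0.le
    have h6 : x / ((n : ℝ) + 3) * ph n x * ((n : ℝ) + 2) =
        (x * (((n : ℝ) + 2) * ph n x)) / ((n : ℝ) + 3) := by ring
    rw [h6, le_div_iff₀ hn3]
    linarith
  have h1 := hanti (self_mem_Ici) (show l ∈ Ici (0 : ℝ) from hl) hl
  simp only [ne_eq, OfNat.ofNat_ne_zero, not_false_eq_true, zero_pow, zero_div, neg_zero,
    Real.exp_zero, mul_one] at h1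
  rw [Real.exp_neg, ← div_eq_mul_inv, div_le_iff₀ (Real.exp_pos _)] at h1
  linarith

lemma ph_ge (n : ℕ) {l c : ℝ} (hl : 0 ≤ l) (hc : l ^ 2 ≤ c * ((n : ℝ) + 4)) (hc0 : 0 ≤ c) :
    Real.exp (l ^ 2 / (2 * ((n : ℝ) + 3 + c))) * ph n 0 ≤ ph n l := by
  have hn3 : (0 : ℝ) < (n : ℝ) + 3 + c := by positivity
  have hn4 : (0 : ℝ) < (n : ℝ) + 4 := by positivity
  have hn2 : (0 : ℝ) < (n : ℝ) + 2 := by positivity
  have hG := ph_G n _ hn3
  have hmono : MonotoneOn (fun x => ph n x * Real.exp (-(x ^ 2 / (2 * ((n : ℝ) + 3 + c)))))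
      (Icc 0 l) := by
    refine monotoneOn_of_deriv_nonneg (convex_Icc 0 l)
      (fun x _ => (hG x).continuousAt.continuousWithinAt)
      (fun x _ => (hG x).differentiableAt.differentiableWithinAt) ?_
    intro x hx
    rw [interior_Icc] at hx
    have hx0 : 0 < x := hx.1
    have hxl : x ^ 2 / ((n : ℝ) + 4) ≤ c := by
      rw [div_le_iff₀ hn4]
      have : x ^ 2 ≤ l ^ 2 := pow_le_pow_left₀ hx0.le hx.2.le 2
      linarith
    rw [(hG x).deriv]
    refine mul_nonneg (sub_nonneg.2 ?_) (Real.exp_pos _).le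
    rw [le_div_iff₀ hn2]
    have h4 : ((n : ℝ) + 2) * ph n x ≤ ((n : ℝ) + 3 + c) * ph (n + 2) x :=
      (ph_three n x).trans (mul_le_mul_of_nonneg_right (by linarith) (ph_nonneg _ _))
    have h5 := mul_le_mul_of_nonneg_left h4 hx0.le
    have h6 : x / ((n : ℝ) + 3 + c) * ph n x * ((n : ℝ) + 2) =
        (x * (((n : ℝ) + 2) * ph n x)) / ((n : ℝ) + 3 + c) := by ring
    rw [h6, div_le_iff₀ hn3]
    linarith
  have h1 := hmono (left_mem_Icc.2 hl) (right_mem_Icc.2 hl) hl
  simp only [ne_eq, OfNat.ofNat_ne_zero, not_false_eq_true, zero_pow, zero_div, neg_zero,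
    Real.exp_zero, mul_one] at h1
  rw [Real.exp_neg, ← div_eq_mul_inv, le_div_iff₀ (Real.exp_pos _)] at h1
  linarith

/-- the fibres of the ball -/
lemma ball_fibre (n : ℕ) (e : EuclideanSpace ℝ (Fin (n + 1))) (he : ‖e‖ = 1) (l : ℝ) :
    ∫⁻ x in closedBall (0 : EuclideanSpace ℝ (Fin (n + 1))) 1, ENNReal.ofReal (Real.exp (l * ⟪e, x⟫)) =
      ENNReal.ofReal (ph n l) * volume (ball (0 : EuclideanSpace ℝ (Fin n)) 1) := by
  obtain ⟨L, hL, hmp, -⟩ := SC70.exists_frame e he
  have hs := sw_cont n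
  have hin : ∀ (t : ℝ) (y : EuclideanSpace ℝ (Fin n)), ⟪e, t • e + L y⟫ = t := by
    intro t y
    rw [inner_add_right, hL, inner_smul_right, real_inner_self_eq_norm_sq, he]
    norm_num
  have hm : Measurable (fun x : EuclideanSpace ℝ (Fin (n + 1)) =>
      ENNReal.ofReal (Real.exp (l * ⟪e, x⟫))) := by fun_prop
  have hfm : Measurable (fun z : ℝ × EuclideanSpace ℝ (Fin n) =>
      ((closedBall (0 : EuclideanSpace ℝ (Fin (n + 1))) 1).indicator
        (fun x => ENNReal.ofReal (Real.exp (l * ⟪e, x⟫)))) (z.1 • e + L z.2)) :=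
    (hm.indicator isClosed_closedBall.measurableSet).comp hmp.measurable
  rw [← lintegral_indicator isClosed_closedBall.measurableSet,
    ← hmp.lintegral_comp (hm.indicator isClosed_closedBall.measurableSet), Measure.volume_eq_prod,
    lintegral_prod _ hfm.aemeasurable]
  have hinner : ∀ t : ℝ, ∫⁻ y : EuclideanSpace ℝ (Fin n),
      ((closedBall (0 : EuclideanSpace ℝ (Fin (n + 1))) 1).indicator
        (fun x => ENNReal.ofReal (Real.exp (l * ⟪e, x⟫)))) (t • e + L y) =
      (Ioc (-1 : ℝ) 1).indicator (fun t => ENNReal.ofReal (Real.exp (l * t) * sw n t) *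
        volume (ball (0 : EuclideanSpace ℝ (Fin n)) 1)) t +
      (({-1} : Set ℝ)).indicator (fun t => ENNReal.ofReal (Real.exp (l * t) * sw n t) *
        volume (ball (0 : EuclideanSpace ℝ (Fin n)) 1)) t := by
    intro t
    by_cases ht : t ^ 2 ≤ 1
    · have hmem : ∀ y : EuclideanSpace ℝ (Fin n), (t • e + L y ∈
          closedBall (0 : EuclideanSpace ℝ (Fin (n + 1))) 1) ↔
          y ∈ closedBall (0 : EuclideanSpace ℝ (Fin n)) (√(1 - t ^ 2)) := by
        intro y
        have h1 := SC70.frame_norm he L hL t y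
        have h2 : ‖y‖ ≤ √(1 - t ^ 2) ↔ ‖y‖ ^ 2 ≤ 1 - t ^ 2 := by
          constructor
          · intro h
            calc ‖y‖ ^ 2 ≤ √(1 - t ^ 2) ^ 2 := pow_le_pow_left₀ (norm_nonneg _) h 2
              _ = 1 - t ^ 2 := Real.sq_sqrt (by linarith)
          · intro h
            exact Real.le_sqrt_of_sq_le h
        rw [mem_closedBall_zero_iff, mem_closedBall_zero_iff, h2,
          ← sq_le_one_iff₀ (norm_nonneg _), h1]
        constructor <;> intro h <;> linarith
      have e1 : (fun y : EuclideanSpace ℝ (Fin n) =>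
          ((closedBall (0 : EuclideanSpace ℝ (Fin (n + 1))) 1).indicator
          (fun x => ENNReal.ofReal (Real.exp (l * ⟪e, x⟫)))) (t • e + L y)) =
          (closedBall (0 : EuclideanSpace ℝ (Fin n)) (√(1 - t ^ 2))).indicator
            (fun _ => ENNReal.ofReal (Real.exp (l * t))) := by
        funext y
        by_cases hy : y ∈ closedBall (0 : EuclideanSpace ℝ (Fin n)) (√(1 - t ^ 2))
        · rw [indicator_of_mem hy, indicator_of_mem ((hmem y).2 hy), hin]
        · rw [indicator_of_notMem hy, indicator_of_notMem (fun h => hy ((hmem y).1 h))]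
      rw [e1, lintegral_indicator isClosed_closedBall.measurableSet, lintegral_const,
        Measure.restrict_apply MeasurableSet.univ, univ_inter,
        Measure.addHaar_closedBall _ _ (Real.sqrt_nonneg _), finrank_euclideanSpace,
        Fintype.card_fin, ← mul_assoc, ← ENNReal.ofReal_mul (Real.exp_pos _).le]
      by_cases ht1 : t = -1
      · subst ht1
        rw [indicator_of_notMem (by simp), indicator_of_mem (by simp), zero_add]
        rfl
      · have ht2 : t ∈ Ioc (-1 : ℝ) 1 := by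
          have h1 : |t| ≤ 1 := by rwa [← sq_le_one_iff_abs_le_one]
          obtain ⟨h2, h3⟩ := abs_le.1 h1
          exact ⟨lt_of_le_of_ne h2 (Ne.symm ht1), h3⟩
        rw [indicator_of_mem ht2, indicator_of_notMem (by simpa using ht1), add_zero]
        rfl
    · have e1 : (fun y : EuclideanSpace ℝ (Fin n) =>
          ((closedBall (0 : EuclideanSpace ℝ (Fin (n + 1))) 1).indicator
          (fun x => ENNReal.ofReal (Real.exp (l * ⟪e, x⟫)))) (t • e + L y)) = fun _ => 0 := by
        funext y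
        refine indicator_of_notMem ?_ _
        intro h
        rw [mem_closedBall_zero_iff, ← sq_le_one_iff₀ (norm_nonneg _),
          SC70.frame_norm he L hL t y] at h
        nlinarith [sq_nonneg ‖y‖]
      have h2 : t ∉ Ioc (-1 : ℝ) 1 := by
        rintro ⟨h2, h3⟩
        exact ht (by nlinarith)
      have h3 : t ∉ ({-1} : Set ℝ) := by
        intro h3
        rw [mem_singleton_iff] at h3
        exact ht (by rw [h3]; norm_num)
      rw [e1, lintegral_zero, indicator_of_notMem h2, indicator_of_notMem h3, add_zero]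
  rw [lintegral_congr hinner]
  have hmeas : Measurable (fun t : ℝ => ENNReal.ofReal (Real.exp (l * t) * sw n t) *
        volume (ball (0 : EuclideanSpace ℝ (Fin n)) 1)) := by
    refine Measurable.mul_const ?_ _
    refine ENNReal.measurable_ofReal.comp ?_
    exact Continuous.measurable (by fun_prop)
  rw [lintegral_add_left (hmeas.indicator measurableSet_Ioc),
    lintegral_indicator measurableSet_Ioc, lintegral_indicator (measurableSet_singleton _),
    Measure.restrict_singleton]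
  simp only [Real.volume_singleton, zero_smul, lintegral_zero_measure, add_zero]
  rw [lintegral_mul_const _ (by
    refine ENNReal.measurable_ofReal.comp ?_
    exact Continuous.measurable (by fun_prop)), ← ofReal_integral_eq_lintegral_ofReal, ph,
    intervalIntegral.integral_of_le (by norm_num)]
  · have : IntervalIntegrable (fun t => Real.exp (l * t) * sw n t) volume (-1) 1 := by
      apply Continuous.intervalIntegrable
      fun_prop
    exact (intervalIntegrable_iff_integrableOn_Ioc_of_le (by norm_num)).1 this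
  · exact Filter.Eventually.of_forall fun t => mul_nonneg (Real.exp_pos _).le (sw_nonneg _ _)

open SC70

lemma om_ball (n : ℕ) (e : EuclideanSpace ℝ (Fin (n + 1))) (he : ‖e‖ = 1) (l : ℝ) :
    ∫ x in closedBall (0 : EuclideanSpace ℝ (Fin (n + 1))) 1, Real.exp (l * ⟪e, x⟫) =
      ph n l * volume.real (ball (0 : EuclideanSpace ℝ (Fin n)) 1) := by
  rw [integral_eq_lintegral_of_nonneg_ae]
  · rw [ball_fibre n e he l, ENNReal.toReal_mul, ENNReal.toReal_ofReal (ph_nonneg n l)]
    rfl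
  · exact Filter.Eventually.of_forall fun x => (Real.exp_pos _).le
  · apply Continuous.aestronglyMeasurable
    fun_prop

theorem mgf_ball (b ε : ℝ) (hb : 0 ≤ b) (hε : 0 < ε) : ∃ d₀ : ℕ, ∀ n : ℕ, d₀ ≤ n →
    ∀ h : EuclideanSpace ℝ (Fin (n + 1)), ‖h‖ ≤ b →
      (1 - ε) * Real.exp (‖h‖ ^ 2 / 2) * kap (n + 1) ≤ om h (closedBall 0 1) ∧
      om h (closedBall 0 1) ≤ (1 + ε) * Real.exp (‖h‖ ^ 2 / 2) * kap (n + 1) := by
  refine ⟨⌈b ^ 2 * (2 + b ^ 2) / (2 * ε)⌉₊, fun n hn h hh => ?_⟩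
  have hn1 : b ^ 2 * (2 + b ^ 2) / (2 * ε) ≤ n := (Nat.le_ceil _).trans (by exact_mod_cast hn)
  rw [div_le_iff₀ (by positivity)] at hn1
  obtain ⟨e, he, hhe⟩ : ∃ e : EuclideanSpace ℝ (Fin (n + 1)), ‖e‖ = 1 ∧ h = ‖h‖ • e := by
    by_cases hs : h = 0
    · exact ⟨EuclideanSpace.single 0 1, by simp, by rw [hs]; simp⟩
    · have hs0 : 0 < ‖h‖ := norm_pos_iff.2 hs
      refine ⟨‖h‖⁻¹ • h, ?_, ?_⟩
      · rw [norm_smul, norm_inv, norm_norm, inv_mul_cancel₀ hs0.ne']
      · rw [smul_smul, mul_inv_cancel₀ hs0.ne', one_smul]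
  set l : ℝ := √((n : ℝ) + 1) * ‖h‖ with hl
  have hl0 : 0 ≤ l := by positivity
  have hl2 : l ^ 2 = ((n : ℝ) + 1) * ‖h‖ ^ 2 := by
    rw [hl, mul_pow, Real.sq_sqrt (by positivity)]
  have h2 : ∀ x : EuclideanSpace ℝ (Fin (n + 1)), √((n : ℝ) + 1) * ⟪h, x⟫ = l * ⟪e, x⟫ := by
    intro x
    conv_lhs => rw [hhe]
    rw [real_inner_smul_left, hl]
    ring
  have hom : om h (closedBall 0 1) = ph n l * volume.real (ball (0 : EuclideanSpace ℝ (Fin n)) 1) := by
    rw [om, ← om_ball n e he l]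
    simp only [h2]
  have hkap : kap (n + 1) = ph n 0 * volume.real (ball (0 : EuclideanSpace ℝ (Fin n)) 1) := by
    rw [kap, ← om_ball n e he 0]
    simp [Measure.real]
  set V : ℝ := volume.real (ball (0 : EuclideanSpace ℝ (Fin n)) 1) with hV
  have hV0 : 0 ≤ V := measureReal_nonneg
  have hp0 : 0 ≤ ph n 0 := ph_nonneg n 0
  have hhb : ‖h‖ ^ 2 ≤ b ^ 2 := pow_le_pow_left₀ (norm_nonneg _) hh 2
  rw [hom, hkap]
  constructor
  · have h1 := ph_ge n (c := b ^ 2) hl0 (by
      rw [hl2]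
      have h3 : ((n : ℝ) + 1) * ‖h‖ ^ 2 ≤ ((n : ℝ) + 1) * b ^ 2 :=
        mul_le_mul_of_nonneg_left hhb (by positivity)
      nlinarith [sq_nonneg b]) (sq_nonneg b)
    have hD : (0 : ℝ) < (n : ℝ) + 3 + b ^ 2 := by positivity
    have h3 : (1 - ε) * Real.exp (‖h‖ ^ 2 / 2) ≤ Real.exp (l ^ 2 / (2 * ((n : ℝ) + 3 + b ^ 2))) := by
      have h4 : l ^ 2 / (2 * ((n : ℝ) + 3 + b ^ 2)) =
          ‖h‖ ^ 2 / 2 - ‖h‖ ^ 2 * (2 + b ^ 2) / (2 * ((n : ℝ) + 3 + b ^ 2)) := by
        rw [hl2]
        field_simp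
        ring
      have h5 : ‖h‖ ^ 2 * (2 + b ^ 2) / (2 * ((n : ℝ) + 3 + b ^ 2)) ≤ ε := by
        rw [div_le_iff₀ (by positivity)]
        have h6 : ‖h‖ ^ 2 * (2 + b ^ 2) ≤ b ^ 2 * (2 + b ^ 2) :=
          mul_le_mul_of_nonneg_right hhb (by positivity)
        nlinarith [sq_nonneg b, mul_nonneg hε.le (sq_nonneg b)]
      have h7 : 1 - ε ≤ Real.exp (-ε) := by
        have := Real.add_one_le_exp (-ε)
        linarith
      calc (1 - ε) * Real.exp (‖h‖ ^ 2 / 2) ≤ Real.exp (-ε) * Real.exp (‖h‖ ^ 2 / 2) :=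
            mul_le_mul_of_nonneg_right h7 (Real.exp_pos _).le
        _ = Real.exp (‖h‖ ^ 2 / 2 - ε) := by rw [← Real.exp_add]; congr 1; ring
        _ ≤ _ := by
            rw [h4]
            exact Real.exp_le_exp.2 (by linarith)
    calc (1 - ε) * Real.exp (‖h‖ ^ 2 / 2) * (ph n 0 * V)
        ≤ Real.exp (l ^ 2 / (2 * ((n : ℝ) + 3 + b ^ 2))) * (ph n 0 * V) :=
          mul_le_mul_of_nonneg_right h3 (mul_nonneg hp0 hV0)
      _ = (Real.exp (l ^ 2 / (2 * ((n : ℝ) + 3 + b ^ 2))) * ph n 0) * V := by ring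
      _ ≤ ph n l * V := mul_le_mul_of_nonneg_right h1 hV0
  · have h1 := ph_le n hl0
    have h3 : Real.exp (l ^ 2 / (2 * ((n : ℝ) + 3))) ≤ (1 + ε) * Real.exp (‖h‖ ^ 2 / 2) := by
      have h4 : l ^ 2 / (2 * ((n : ℝ) + 3)) ≤ ‖h‖ ^ 2 / 2 := by
        rw [div_le_div_iff₀ (by positivity) (by norm_num), hl2]
        nlinarith [sq_nonneg ‖h‖]
      calc Real.exp (l ^ 2 / (2 * ((n : ℝ) + 3))) ≤ 1 * Real.exp (‖h‖ ^ 2 / 2) := by
            rw [one_mul]
            exact Real.exp_le_exp.2 h4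
        _ ≤ _ := mul_le_mul_of_nonneg_right (by linarith) (Real.exp_pos _).le
    calc ph n l * V ≤ (Real.exp (l ^ 2 / (2 * ((n : ℝ) + 3))) * ph n 0) * V :=
          mul_le_mul_of_nonneg_right h1 hV0
      _ = Real.exp (l ^ 2 / (2 * ((n : ℝ) + 3))) * (ph n 0 * V) := by ring
      _ ≤ _ := mul_le_mul_of_nonneg_right h3 (mul_nonneg hp0 hV0)

end SA70
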