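import Pool.Agent.SA70.M2

/-! M3a: three facts on tilted volumes. -/

set_option autoImplicit false

open MeasureTheory Measure Metric Set Module ENNReal
open scoped Pointwise

namespace SA70

open SC70

lemma om_cont {n : ℕ} (h : EuclideanSpace ℝ (Fin (n + 1))) :
    Continuous fun x : EuclideanSpace ℝ (Fin (n + 1)) =>
      Real.exp (√((n : ℝ) + 1) * inner ℝ h x) := by
  fun_prop

lemma om_intOn {n : ℕ} (h p : EuclideanSpace ℝ (Fin (n + 1))) (r : ℝ)
    {A : Set (EuclideanSpace ℝ (Fin (n + 1)))} (hA : A ⊆ closedBall p r) :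
    IntegrableOn (fun x : EuclideanSpace ℝ (Fin (n + 1)) =>
      Real.exp (√((n : ℝ) + 1) * inner ℝ h x)) A := by
  have h1 : IntegrableOn (fun x : EuclideanSpace ℝ (Fin (n + 1)) =>
      Real.exp (√((n : ℝ) + 1) * inner ℝ h x)) (closedBall p r) :=
    (om_cont h).continuousOn.integrableOn_compact (isCompact_closedBall _ _)
  exact h1.mono_set hA

lemma om_trans {n : ℕ} (g p : EuclideanSpace ℝ (Fin (n + 1))) :
    om g (closedBall p 1) =
      Real.exp (√((n : ℝ) + 1) * inner ℝ g p) * om g (closedBall 0 1) := by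
  unfold om
  rw [← integral_indicator measurableSet_closedBall, ← integral_indicator measurableSet_closedBall,
    ← integral_const_mul,
    ← integral_add_right_eq_self (μ := (volume : Measure (EuclideanSpace ℝ (Fin (n + 1))))) _ p]
  congr 1
  funext x
  have h1 : x + p ∈ closedBall p 1 ↔ x ∈ closedBall (0 : EuclideanSpace ℝ (Fin (n + 1))) 1 := by
    rw [mem_closedBall, mem_closedBall_zero_iff, dist_eq_norm, add_sub_cancel_right]
  by_cases h2 : x ∈ closedBall (0 : EuclideanSpace ℝ (Fin (n + 1))) 1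
  · rw [indicator_of_mem (h1.2 h2), indicator_of_mem h2, ← Real.exp_add, inner_add_right]
    congr 1
    ring
  · rw [indicator_of_notMem (fun h3 => h2 (h1.1 h3)), indicator_of_notMem h2, mul_zero]

theorem om_smul {n : ℕ} (h : EuclideanSpace ℝ (Fin (n + 1)))
    (A : Set (EuclideanSpace ℝ (Fin (n + 1)))) (hA : A ⊆ closedBall 0 1) (hAm : MeasurableSet A)
    (s : ℝ) (hs : 0 ≤ s) :
    om h ((1 + s) • A) ≤
      (1 + s) ^ (n + 1) * Real.exp (s * √((n : ℝ) + 1) * ‖h‖) * om h A := by
  have h1 := Measure.setIntegral_comp_smul_of_pos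
    (volume : Measure (EuclideanSpace ℝ (Fin (n + 1))))
    (fun x => Real.exp (√((n : ℝ) + 1) * inner ℝ h x)) A (by linarith : (0 : ℝ) < 1 + s)
  rw [finrank_euclideanSpace_fin, smul_eq_mul] at h1
  have h2 : om h ((1 + s) • A) = (1 + s) ^ (n + 1) *
      ∫ x in A, Real.exp (√((n : ℝ) + 1) * inner ℝ h ((1 + s) • x)) := by
    rw [h1, ← mul_assoc, mul_inv_cancel₀ (by positivity), one_mul]
    rfl
  rw [h2, mul_assoc]
  apply mul_le_mul_of_nonneg_left _ (by positivity)
  unfold om
  rw [← integral_const_mul]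
  apply setIntegral_mono_on _ _ hAm
  · intro x hx
    rw [← Real.exp_add]
    apply Real.exp_le_exp.2
    rw [inner_smul_right]
    have h3 : ‖x‖ ≤ 1 := by simpa using hA hx
    have h4 : inner ℝ h x ≤ ‖h‖ := by
      calc inner ℝ h x ≤ ‖h‖ * ‖x‖ := real_inner_le_norm h x
        _ ≤ ‖h‖ * 1 := mul_le_mul_of_nonneg_left h3 (norm_nonneg h)
        _ = ‖h‖ := mul_one _
    have h5 : s * √((n : ℝ) + 1) * inner ℝ h x ≤ s * √((n : ℝ) + 1) * ‖h‖ :=
      mul_le_mul_of_nonneg_left h4 (by positivity)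
    linarith
  · have h3 : IntegrableOn (fun x : EuclideanSpace ℝ (Fin (n + 1)) =>
        Real.exp (√((n : ℝ) + 1) * inner ℝ h ((1 + s) • x))) (closedBall 0 1) := by
      apply ContinuousOn.integrableOn_compact (isCompact_closedBall _ _)
      fun_prop
    exact h3.mono_set hA
  · exact (om_intOn h 0 1 hA).const_mul _

theorem om_lens {n : ℕ} (h e : EuclideanSpace ℝ (Fin (n + 1))) (he : ‖e‖ = 1)
    (lam s k₁ : ℝ) (hlam : 0 < lam) (hs : 0 ≤ s) (hk : 0 ≤ k₁) :
    om h (closedBall ((lam / √((n : ℝ) + 1)) • e) 1 \ closedBall 0 (1 + s)) ≤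
      Real.exp (-(k₁ * s * ((n : ℝ) + 1) / lam) + lam * (inner ℝ h e + k₁)) *
        om (h + k₁ • e) (closedBall 0 1) := by
  have hd : 0 < √((n : ℝ) + 1) := Real.sqrt_pos.2 (by positivity)
  have hd2 : √((n : ℝ) + 1) * √((n : ℝ) + 1) = (n : ℝ) + 1 :=
    Real.mul_self_sqrt (by positivity)
  set u : EuclideanSpace ℝ (Fin (n + 1)) := (lam / √((n : ℝ) + 1)) • e with hu
  have h1 : √((n : ℝ) + 1) * inner ℝ (h + k₁ • e) u = lam * (inner ℝ h e + k₁) := by
    rw [hu, inner_smul_right, inner_add_left, inner_smul_left, real_inner_self_eq_norm_sq, he]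
    simp only [conj_trivial]
    field_simp
  have h2 : om h (closedBall u 1 \ closedBall 0 (1 + s)) ≤
      Real.exp (-(k₁ * s * ((n : ℝ) + 1) / lam)) * om (h + k₁ • e) (closedBall u 1) := by
    have hsub : closedBall u 1 \ closedBall 0 (1 + s) ⊆ closedBall u 1 := diff_subset
    have h3 : om h (closedBall u 1 \ closedBall 0 (1 + s)) ≤
        ∫ x in closedBall u 1 \ closedBall 0 (1 + s), Real.exp (-(k₁ * s * ((n : ℝ) + 1) / lam)) *
          Real.exp (√((n : ℝ) + 1) * inner ℝ (h + k₁ • e) x) := by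
      unfold om
      apply setIntegral_mono_on (om_intOn h u 1 hsub) ((om_intOn _ u 1 hsub).const_mul _)
        (measurableSet_closedBall.diff measurableSet_closedBall)
      intro x hx
      rw [← Real.exp_add]
      apply Real.exp_le_exp.2
      have hx1 : ‖x - u‖ ≤ 1 := by
        have := hx.1
        rwa [mem_closedBall, dist_eq_norm] at this
      have hx2 : 1 + s < ‖x‖ := by
        have := hx.2
        rw [mem_closedBall_zero_iff, not_le] at this
        exact this
      have h4 : ‖x - u‖ ^ 2 ≤ 1 := pow_le_one₀ (norm_nonneg _) hx1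
      rw [norm_sub_sq_real, hu, inner_smul_right, norm_smul, he, mul_one, Real.norm_eq_abs,
        sq_abs, real_inner_comm] at h4
      have h5 : (1 + s) ^ 2 ≤ ‖x‖ ^ 2 := pow_le_pow_left₀ (by linarith) hx2.le 2
      have h6 : s ≤ lam / √((n : ℝ) + 1) * inner ℝ e x := by
        have h7 : 0 ≤ (lam / √((n : ℝ) + 1)) ^ 2 := by positivity
        nlinarith [sq_nonneg s]
      have h7 : s * ((n : ℝ) + 1) / lam ≤ √((n : ℝ) + 1) * inner ℝ e x := by
        rw [div_le_iff₀ hlam]
        calc s * ((n : ℝ) + 1) ≤ lam / √((n : ℝ) + 1) * inner ℝ e x * ((n : ℝ) + 1) :=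
              mul_le_mul_of_nonneg_right h6 (by positivity)
          _ = lam / √((n : ℝ) + 1) * inner ℝ e x * (√((n : ℝ) + 1) * √((n : ℝ) + 1)) := by
              rw [hd2]
          _ = √((n : ℝ) + 1) * inner ℝ e x * lam := by
              field_simp
      have h8 : k₁ * s * ((n : ℝ) + 1) / lam ≤ k₁ * (√((n : ℝ) + 1) * inner ℝ e x) := by
        have h9 := mul_le_mul_of_nonneg_left h7 hk
        calc k₁ * s * ((n : ℝ) + 1) / lam = k₁ * (s * ((n : ℝ) + 1) / lam) := by ring
          _ ≤ _ := h9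
      rw [inner_add_left, inner_smul_left]
      simp only [conj_trivial]
      linarith
    rw [integral_const_mul] at h3
    refine le_trans h3 (mul_le_mul_of_nonneg_left ?_ (Real.exp_pos _).le)
    unfold om
    apply setIntegral_mono_set (om_intOn _ u 1 subset_rfl)
    · exact Filter.Eventually.of_forall fun x => (Real.exp_pos _).le
    · exact hsub.eventuallyLE
  refine le_trans h2 (le_of_eq ?_)
  rw [om_trans, h1, Real.exp_add]
  ring

theorem om_far (β η₁ : ℝ) (hβ : 0 ≤ β) (hη₁ : 0 < η₁) : ∃ B : ℝ, 0 ≤ B ∧ ∃ d₀ : ℕ, ∀ n : ℕ,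
    d₀ ≤ n → ∀ (h p : EuclideanSpace ℝ (Fin (n + 1))) (S : Set (EuclideanSpace ℝ (Fin (n + 1)))),
      ‖h‖ ≤ β → S ⊆ closedBall p 1 → MeasurableSet S → η₁ * kap (n + 1) ≤ volume.real S →
      Real.exp (√((n : ℝ) + 1) * inner ℝ h p - B) * kap (n + 1) ≤ om h S := by
  obtain ⟨d₀, hd₀⟩ := mgf_ball β 1 hβ one_pos
  obtain ⟨a, ha⟩ : ∃ a : ℝ, Real.exp a = 4 * Real.exp (β ^ 2 / 2) / η₁ :=
    ⟨Real.log (4 * Real.exp (β ^ 2 / 2) / η₁), Real.exp_log (by positivity)⟩
  refine ⟨|a - Real.log (η₁ / 2)|, abs_nonneg _, d₀, fun n hn h p S hh hS hSm hSv => ?_⟩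
  have hkap := kap_pos (n + 1)
  -- the bad part
  obtain ⟨T, hT⟩ : ∃ T, T = {x : EuclideanSpace ℝ (Fin (n + 1)) |
      Real.exp a ≤ Real.exp (√((n : ℝ) + 1) * inner ℝ (-h) x) *
        Real.exp (√((n : ℝ) + 1) * inner ℝ h p)} := ⟨_, rfl⟩
  have hcont : Continuous fun x : EuclideanSpace ℝ (Fin (n + 1)) =>
      Real.exp (√((n : ℝ) + 1) * inner ℝ (-h) x) * Real.exp (√((n : ℝ) + 1) * inner ℝ h p) := by
    fun_prop
  have hTm : MeasurableSet T := by
    rw [hT]
    exact measurableSet_le measurable_const hcont.measurable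
  have h1 : Real.exp a * volume.real (T ∩ closedBall p 1) ≤
      2 * Real.exp (β ^ 2 / 2) * kap (n + 1) := by
    have h2 := mul_meas_ge_le_integral_of_nonneg
      (μ := (volume : Measure (EuclideanSpace ℝ (Fin (n + 1)))).restrict (closedBall p 1))
      (f := fun x => Real.exp (√((n : ℝ) + 1) * inner ℝ (-h) x) *
        Real.exp (√((n : ℝ) + 1) * inner ℝ h p))
      (Filter.Eventually.of_forall fun x => (by positivity))
      ((om_intOn (-h) p 1 subset_rfl).mul_const _) (Real.exp a)
    rw [← hT, integral_mul_const] at h2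
    have h3 : ((volume : Measure (EuclideanSpace ℝ (Fin (n + 1)))).restrict
        (closedBall p 1)).real T = volume.real (T ∩ closedBall p 1) := by
      rw [measureReal_def, measureReal_def, Measure.restrict_apply hTm]
    rw [h3] at h2
    have h4 : ∫ x in closedBall p 1, Real.exp (√((n : ℝ) + 1) * inner ℝ (-h) x) =
        om (-h) (closedBall p 1) := rfl
    rw [h4, om_trans] at h2
    have h5 : Real.exp (√((n : ℝ) + 1) * inner ℝ (-h) p) * om (-h) (closedBall 0 1) *
        Real.exp (√((n : ℝ) + 1) * inner ℝ h p) = om (-h) (closedBall 0 1) := by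
      rw [mul_right_comm, ← Real.exp_add, inner_neg_left]
      have : √((n : ℝ) + 1) * -inner ℝ h p + √((n : ℝ) + 1) * inner ℝ h p = 0 := by ring
      rw [this, Real.exp_zero, one_mul]
    rw [h5] at h2
    have h6 := (hd₀ n hn (-h) (by rwa [norm_neg])).2
    refine le_trans h2 (le_trans h6 ?_)
    rw [norm_neg]
    have h7 : Real.exp (‖h‖ ^ 2 / 2) ≤ Real.exp (β ^ 2 / 2) := by
      apply Real.exp_le_exp.2
      have := pow_le_pow_left₀ (norm_nonneg h) hh 2
      linarith
    nlinarith
  have h2 : volume.real (T ∩ closedBall p 1) ≤ η₁ / 2 * kap (n + 1) := by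
    rw [ha] at h1
    have h3 : 0 < Real.exp (β ^ 2 / 2) := Real.exp_pos _
    have h4 : 4 * Real.exp (β ^ 2 / 2) / η₁ * volume.real (T ∩ closedBall p 1) =
        (2 * Real.exp (β ^ 2 / 2)) * (2 / η₁ * volume.real (T ∩ closedBall p 1)) := by ring
    have h5 : 2 / η₁ * volume.real (T ∩ closedBall p 1) ≤ kap (n + 1) := by
      rw [h4] at h1
      exact le_of_mul_le_mul_left h1 (by positivity)
    calc volume.real (T ∩ closedBall p 1) =
          η₁ / 2 * (2 / η₁ * volume.real (T ∩ closedBall p 1)) := by field_simp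
      _ ≤ _ := mul_le_mul_of_nonneg_left h5 (by positivity)
  -- the good part
  have hfin : volume (closedBall p (1 : ℝ)) ≠ ∞ := (isCompact_closedBall _ _).measure_lt_top.ne
  have h3 : η₁ / 2 * kap (n + 1) ≤ volume.real (S \ T) := by
    have h4 : volume.real S ≤ volume.real (S \ T) + volume.real (T ∩ closedBall p 1) := by
      have h5 : S ⊆ (S \ T) ∪ (T ∩ closedBall p 1) := by
        intro x hx
        by_cases hxT : x ∈ T
        · exact Or.inr ⟨hxT, hS hx⟩
        · exact Or.inl ⟨hx, hxT⟩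
      refine le_trans (measureReal_mono h5 ?_) (measureReal_union_le _ _)
      apply measure_ne_top_of_subset _ hfin
      exact union_subset (diff_subset.trans hS) inter_subset_right
    linarith
  have hsub : S \ T ⊆ closedBall p 1 := diff_subset.trans hS
  have h4 : Real.exp (√((n : ℝ) + 1) * inner ℝ h p - a) * volume.real (S \ T) ≤ om h (S \ T) := by
    have h5 : ∫ x in S \ T, Real.exp (√((n : ℝ) + 1) * inner ℝ h p - a) =
        Real.exp (√((n : ℝ) + 1) * inner ℝ h p - a) * volume.real (S \ T) := by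
      rw [setIntegral_const, smul_eq_mul, mul_comm]
    rw [← h5]
    unfold om
    apply setIntegral_mono_on _ (om_intOn h p 1 hsub) (hSm.diff hTm)
    · intro x hx
      have h6 : x ∉ T := hx.2
      rw [hT, mem_setOf_eq, not_le, ← Real.exp_add, inner_neg_left] at h6
      have h7 := Real.exp_lt_exp.1 h6
      apply Real.exp_le_exp.2
      linarith
    · exact integrableOn_const (measure_ne_top_of_subset hsub hfin)
  have h5 : om h (S \ T) ≤ om h S := by
    unfold om
    apply setIntegral_mono_set (om_intOn h p 1 hS)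
    · exact Filter.Eventually.of_forall fun x => (Real.exp_pos _).le
    · exact (diff_subset : S \ T ⊆ S).eventuallyLE
  refine le_trans ?_ (le_trans h4 h5)
  have h6 : Real.exp (√((n : ℝ) + 1) * inner ℝ h p - |a - Real.log (η₁ / 2)|) ≤
      Real.exp (√((n : ℝ) + 1) * inner ℝ h p - a) * (η₁ / 2) := by
    have h7 : η₁ / 2 = Real.exp (Real.log (η₁ / 2)) := (Real.exp_log (by positivity)).symm
    calc Real.exp (√((n : ℝ) + 1) * inner ℝ h p - |a - Real.log (η₁ / 2)|)
        ≤ Real.exp (√((n : ℝ) + 1) * inner ℝ h p - (a - Real.log (η₁ / 2))) := by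
          apply Real.exp_le_exp.2
          have := le_abs_self (a - Real.log (η₁ / 2))
          linarith
      _ = Real.exp (√((n : ℝ) + 1) * inner ℝ h p - a) * Real.exp (Real.log (η₁ / 2)) := by
          rw [← Real.exp_add]
          congr 1
          ring
      _ = _ := by rw [← h7]
  calc Real.exp (√((n : ℝ) + 1) * inner ℝ h p - |a - Real.log (η₁ / 2)|) * kap (n + 1)
      ≤ Real.exp (√((n : ℝ) + 1) * inner ℝ h p - a) * (η₁ / 2) * kap (n + 1) :=
        mul_le_mul_of_nonneg_right h6 hkap.le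
    _ = Real.exp (√((n : ℝ) + 1) * inner ℝ h p - a) * (η₁ / 2 * kap (n + 1)) := by ring
    _ ≤ _ := mul_le_mul_of_nonneg_left h3 (Real.exp_pos _).le

end SA70
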