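import Pool.Agent.SA70.M1
import Pool.Agent.SA70.M3a

/-! M3: a centre which sees a far good point in a direction with `⟨h, e⟩ ≥ c₀ β` has a small tilted
shell. -/

set_option autoImplicit false

open MeasureTheory Measure Metric Set Module ENNReal
open scoped Pointwise

namespace SA70

open SC70

/-- the points of `C` in the unit ball whose direction leaves `C` before the radius `1 + τ` -/
def Sout {E : Type*} [NormedAddCommGroup E] [InnerProductSpace ℝ E] (C : Set E) (τ : ℝ) : Set E :=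
  {x | x ∈ C ∧ ‖x‖ ≤ 1 ∧ ((1 + τ) / ‖x‖) • x ∉ C}

section omfacts

variable {n : ℕ}

/-- the tilted volume as an upper integral -/
noncomputable def omW (h : EuclideanSpace ℝ (Fin (n + 1))) (A : Set (EuclideanSpace ℝ (Fin (n + 1)))) :
    ℝ≥0∞ :=
  ∫⁻ x in A, ENNReal.ofReal (Real.exp (√((n : ℝ) + 1) * inner ℝ h x))

theorem om_eq_omW (h : EuclideanSpace ℝ (Fin (n + 1))) (A : Set (EuclideanSpace ℝ (Fin (n + 1)))) :
    om h A = (omW h A).toReal := by
  rw [om, omW, integral_eq_lintegral_of_nonneg_ae]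
  · exact Filter.Eventually.of_forall fun x => (Real.exp_pos _).le
  · exact Continuous.aestronglyMeasurable (by fun_prop)

theorem omW_ne_top (h : EuclideanSpace ℝ (Fin (n + 1))) {A : Set (EuclideanSpace ℝ (Fin (n + 1)))}
    {r : ℝ} (hA : A ⊆ closedBall 0 r) : omW h A ≠ ⊤ := by
  have h1 : omW h A ≤ omW h (closedBall 0 r) := lintegral_mono_set hA
  have h2 : omW h (closedBall 0 r) ≤
      ∫⁻ _ in closedBall (0 : EuclideanSpace ℝ (Fin (n + 1))) r,
        ENNReal.ofReal (Real.exp (√((n : ℝ) + 1) * (‖h‖ * r))) := by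
    refine setLIntegral_mono' measurableSet_closedBall fun x hx => ?_
    refine ENNReal.ofReal_le_ofReal (Real.exp_le_exp.2 ?_)
    refine mul_le_mul_of_nonneg_left ?_ (Real.sqrt_nonneg _)
    rw [mem_closedBall, dist_zero_right] at hx
    exact (real_inner_le_norm h x).trans (mul_le_mul_of_nonneg_left hx (norm_nonneg _))
  rw [setLIntegral_const] at h2
  refine ne_top_of_le_ne_top ?_ (h1.trans h2)
  exact ENNReal.mul_ne_top ENNReal.ofReal_ne_top measure_closedBall_lt_top.ne

theorem om_nonneg' (h : EuclideanSpace ℝ (Fin (n + 1))) (A : Set (EuclideanSpace ℝ (Fin (n + 1)))) :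
    0 ≤ om h A := by
  rw [om_eq_omW]
  exact ENNReal.toReal_nonneg

theorem om_mono' (h : EuclideanSpace ℝ (Fin (n + 1))) {A S : Set (EuclideanSpace ℝ (Fin (n + 1)))}
    {r : ℝ} (hS : S ⊆ closedBall 0 r) (hAS : A ⊆ S) : om h A ≤ om h S := by
  rw [om_eq_omW, om_eq_omW]
  exact ENNReal.toReal_mono (omW_ne_top h hS) (lintegral_mono_set hAS)

theorem om_le_add (h : EuclideanSpace ℝ (Fin (n + 1))) {A S T : Set (EuclideanSpace ℝ (Fin (n + 1)))}
    {r : ℝ} (hS : S ⊆ closedBall 0 r) (hT : T ⊆ closedBall 0 r) (hA : A ⊆ S ∪ T) :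
    om h A ≤ om h S + om h T := by
  rw [om_eq_omW, om_eq_omW, om_eq_omW, ← ENNReal.toReal_add (omW_ne_top h hS) (omW_ne_top h hT)]
  refine ENNReal.toReal_mono (ENNReal.add_ne_top.2 ⟨omW_ne_top h hS, omW_ne_top h hT⟩) ?_
  exact (lintegral_mono_set hA).trans (lintegral_union_le _ _ _)

theorem om_add_le (h : EuclideanSpace ℝ (Fin (n + 1))) {A S T : Set (EuclideanSpace ℝ (Fin (n + 1)))}
    {r : ℝ} (hA : A ⊆ closedBall 0 r) (hS : S ⊆ A) (hT : T ⊆ A) (hd : Disjoint S T)
    (hTm : MeasurableSet T) : om h S + om h T ≤ om h A := by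
  rw [om_eq_omW, om_eq_omW, om_eq_omW,
    ← ENNReal.toReal_add (omW_ne_top h (hS.trans hA)) (omW_ne_top h (hT.trans hA))]
  refine ENNReal.toReal_mono (omW_ne_top h hA) ?_
  have h1 : omW h (S ∪ T) = omW h S + omW h T := lintegral_union hTm hd
  rw [← h1]
  exact lintegral_mono_set (union_subset hS hT)

end omfacts

/-- the geometric part -/
theorem far_tilt_geo {n : ℕ} (C : Set (EuclideanSpace ℝ (Fin (n + 1)))) (hconv : Convex ℝ C)
    (hCc : IsCompact C) (h0 : (0 : EuclideanSpace ℝ (Fin (n + 1))) ∈ C)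
    (h : EuclideanSpace ℝ (Fin (n + 1))) (τ : ℝ) (hτ : 0 < τ) (u : EuclideanSpace ℝ (Fin (n + 1)))
    (s : ℝ) (hs : 0 ≤ s) :
    ∃ OX : ℝ, 0 ≤ OX ∧ om h (Sout C τ) + OX ≤ om h (C ∩ closedBall 0 1) ∧
      om h (C ∩ closedBall u 1) ≤
        (1 + τ) ^ (n + 1) * Real.exp (τ * √((n : ℝ) + 1) * ‖h‖) * om h (Sout C τ) +
        ((1 + s) ^ (n + 1) * Real.exp (s * √((n : ℝ) + 1) * ‖h‖) * OX +
          om h (closedBall u 1 \ closedBall 0 (1 + s))) := by
  obtain ⟨X, hX⟩ : ∃ X : Set (EuclideanSpace ℝ (Fin (n + 1))), X = {x | ((1 + τ) / ‖x‖) • x ∈ C} :=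
    ⟨_, rfl⟩
  have hCm : MeasurableSet C := hCc.isClosed.measurableSet
  have hXm : MeasurableSet X := by
    rw [hX]
    have h1 : Measurable fun x : EuclideanSpace ℝ (Fin (n + 1)) => ((1 + τ) / ‖x‖) • x :=
      (measurable_const.div measurable_norm).smul measurable_id
    exact h1 hCm
  have hBm : MeasurableSet (closedBall (0 : EuclideanSpace ℝ (Fin (n + 1))) 1) := measurableSet_closedBall
  -- star-shapedness
  have hstar : ∀ x ∈ C, ∀ t : ℝ, 0 ≤ t → t ≤ 1 → t • x ∈ C := by
    intro x hx t ht0 ht1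
    have h1 := hconv h0 hx (sub_nonneg.2 ht1) ht0 (by ring)
    rwa [smul_zero, zero_add] at h1
  -- the cone in the ball is in `C`
  have hXC : X ∩ closedBall 0 1 ⊆ C := by
    rintro x ⟨hx, hx1⟩
    rw [hX] at hx
    rw [mem_closedBall, dist_zero_right] at hx1
    by_cases hx0 : x = 0
    · rw [hx0]; exact h0
    have hn : 0 < ‖x‖ := norm_pos_iff.2 hx0
    have h1 := hstar _ hx (‖x‖ / (1 + τ)) (by positivity) (by
      rw [div_le_one (by linarith)]
      linarith)
    rw [smul_smul] at h1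
    have h2 : ‖x‖ / (1 + τ) * ((1 + τ) / ‖x‖) = 1 := by
      have : (1 + τ) ≠ 0 := by linarith
      field_simp
    rwa [h2, one_smul] at h1
  obtain ⟨r, hr⟩ := hCc.isBounded.subset_closedBall (0 : EuclideanSpace ℝ (Fin (n + 1)))
  refine ⟨om h (X ∩ closedBall 0 1), om_nonneg' _ _, ?_, ?_⟩
  · refine om_add_le h (r := 1) inter_subset_right ?_ ?_ ?_ (hXm.inter hBm)
    · rintro x ⟨hx1, hx2, -⟩
      exact ⟨hx1, by rwa [mem_closedBall, dist_zero_right]⟩
    · exact fun x hx => ⟨hXC hx, hx.2⟩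
    · rw [Set.disjoint_left]
      rintro x ⟨-, -, h3⟩ ⟨hx, -⟩
      rw [hX] at hx
      exact h3 hx
  · -- the part outside the cone
    have hout : C \ X ⊆ (1 + τ) • Sout C τ := by
      rintro x ⟨hxC, hxX⟩
      rw [hX, mem_setOf_eq] at hxX
      have hx0 : x ≠ 0 := by
        rintro rfl
        rw [smul_zero] at hxX
        exact hxX h0
      have hn : 0 < ‖x‖ := norm_pos_iff.2 hx0
      have hlt : ‖x‖ < 1 + τ := by
        by_contra hcon
        push Not at hcon
        exact hxX (hstar x hxC _ (by positivity) (by rwa [div_le_one hn]))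
      refine ⟨(1 / (1 + τ)) • x, ⟨hstar x hxC _ (by positivity) (by
        rw [div_le_one (by linarith)]; linarith), ?_, ?_⟩, ?_⟩
      · rw [norm_smul, Real.norm_of_nonneg (by positivity), div_mul_eq_mul_div, one_mul,
          div_le_one (by linarith)]
        exact hlt.le
      · rw [norm_smul, Real.norm_of_nonneg (by positivity), smul_smul]
        have h2 : (1 + τ) / (1 / (1 + τ) * ‖x‖) * (1 / (1 + τ)) = (1 + τ) / ‖x‖ := by
          have h3 : (1 + τ) ≠ 0 := by linarith
          field_simp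
        rwa [h2]
      · change (1 + τ) • ((1 / (1 + τ)) • x) = x
        rw [smul_smul, mul_one_div_cancel (by linarith), one_smul]
    have hSm : MeasurableSet (Sout C τ) := by
      have : Sout C τ = (C ∩ closedBall 0 1) ∩ Xᶜ := by
        ext x
        rw [hX]
        simp only [Sout, mem_setOf_eq, mem_inter_iff, mem_closedBall, dist_zero_right, mem_compl_iff]
        tauto
      rw [this]
      exact (hCm.inter hBm).inter hXm.compl
    have hS1 : Sout C τ ⊆ closedBall 0 1 := by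
      rintro x ⟨-, hx, -⟩
      rwa [mem_closedBall, dist_zero_right]
    have hSb : (1 + τ) • Sout C τ ⊆ closedBall 0 (1 + τ) := by
      rintro _ ⟨x, hx, rfl⟩
      have h1 := hS1 hx
      rw [mem_closedBall, dist_zero_right] at h1 ⊢
      change ‖(1 + τ) • x‖ ≤ 1 + τ
      rw [norm_smul, Real.norm_of_nonneg (by linarith)]
      nlinarith
    have hXb : (1 + s) • (X ∩ closedBall 0 1) ⊆ closedBall 0 (1 + s) := by
      rintro _ ⟨x, hx, rfl⟩
      have h1 := hx.2
      rw [mem_closedBall, dist_zero_right] at h1 ⊢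
      change ‖(1 + s) • x‖ ≤ 1 + s
      rw [norm_smul, Real.norm_of_nonneg (by linarith)]
      nlinarith
    have hub : closedBall u 1 \ closedBall 0 (1 + s) ⊆
        closedBall (0 : EuclideanSpace ℝ (Fin (n + 1))) (‖u‖ + 1) := by
      rintro x ⟨hx, -⟩
      rw [mem_closedBall, dist_eq_norm] at hx
      rw [mem_closedBall, dist_zero_right]
      calc ‖x‖ = ‖u + (x - u)‖ := by congr 1; abel
        _ ≤ ‖u‖ + ‖x - u‖ := norm_add_le _ _
        _ ≤ ‖u‖ + 1 := by linarith
    obtain ⟨ρ, hρ⟩ : ∃ ρ, ρ = (1 + τ) + (1 + s) + (‖u‖ + 1) := ⟨_, rfl⟩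
    have hu0 := norm_nonneg u
    have big : ∀ ρ' ≤ ρ, closedBall (0 : EuclideanSpace ℝ (Fin (n + 1))) ρ' ⊆ closedBall 0 ρ :=
      fun ρ' h' => closedBall_subset_closedBall h'
    have b1 := hSb.trans (big _ (by rw [hρ]; linarith))
    have b2 := hXb.trans (big _ (by rw [hρ]; linarith))
    have b3 := hub.trans (big _ (by rw [hρ]; linarith))
    have hcov : C ∩ closedBall u 1 ⊆ (1 + τ) • Sout C τ ∪
        ((1 + s) • (X ∩ closedBall 0 1) ∪ (closedBall u 1 \ closedBall 0 (1 + s))) := by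
      rintro x ⟨hxC, hxu⟩
      by_cases hxX : x ∈ X
      · right
        by_cases hxs : x ∈ closedBall (0 : EuclideanSpace ℝ (Fin (n + 1))) (1 + s)
        · left
          have hs1 : 0 < 1 + s := by linarith
          rw [mem_closedBall, dist_zero_right] at hxs
          refine ⟨(1 / (1 + s)) • x, ⟨?_, ?_⟩, ?_⟩
          · rw [hX, mem_setOf_eq] at hxX ⊢
            rw [norm_smul, Real.norm_of_nonneg (by positivity), smul_smul]
            by_cases hx0 : x = 0
            · rw [hx0, smul_zero]; exact h0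
            have hn : 0 < ‖x‖ := norm_pos_iff.2 hx0
            have h2 : (1 + τ) / (1 / (1 + s) * ‖x‖) * (1 / (1 + s)) = (1 + τ) / ‖x‖ := by
              field_simp
            rwa [h2]
          · rw [mem_closedBall, dist_zero_right, norm_smul, Real.norm_of_nonneg (by positivity),
              div_mul_eq_mul_div, one_mul, div_le_one hs1]
            exact hxs
          · change (1 + s) • ((1 / (1 + s)) • x) = x
            rw [smul_smul, mul_one_div_cancel hs1.ne', one_smul]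
        · right
          exact ⟨hxu, hxs⟩
      · left
        exact hout ⟨hxC, hxX⟩
    refine (om_le_add h b1 (union_subset b2 b3) hcov).trans (add_le_add ?_ ?_)
    · exact om_smul h _ hS1 hSm τ hτ.le
    · refine (om_le_add h b2 b3 subset_rfl).trans (add_le_add ?_ le_rfl)
      exact om_smul h _ inter_subset_right (hXm.inter hBm) s hs

/-- the constants -/
theorem far_tilt_num {c e4 I OX OC OB OU F K G L : ℝ} (he4 : 0 < e4) (he41 : e4 ≤ 1 / 4)
    (hc : 300 ≤ c) (hI : 0 ≤ I) (hOX : 0 ≤ OX) (h1 : I + OX ≤ OC) (hCB : OC ≤ OB)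
    (h2 : OU ≤ F * I + (G * OX + L)) (hF : F ≤ 4) (hG : G ≤ c * (1 + 4 * e4)) (hL : L ≤ e4 * OB)
    (h3 : c * OC ≤ OU) (hK : K = 6 * e4) : I ≤ K * OB := by
  have h4 : F * I ≤ 4 * I := mul_le_mul_of_nonneg_right hF hI
  have h5 : G * OX ≤ c * (1 + 4 * e4) * OX := mul_le_mul_of_nonneg_right hG hOX
  have h6 : c * (I + OX) ≤ c * OC := mul_le_mul_of_nonneg_left h1 (by linarith)
  have h7 : OX ≤ OB := by linarith
  have h8 : (c - 4) * I ≤ 4 * e4 * c * OB + e4 * OB := by
    have h9 : c * (4 * e4) * OX ≤ c * (4 * e4) * OB := mul_le_mul_of_nonneg_left h7 (by positivity)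
    nlinarith
  have hOB : 0 ≤ OB := by linarith
  rw [hK]
  have h10 : 4 * e4 * c * OB + e4 * OB ≤ (c - 4) * (6 * e4 * OB) := by
    have h11 : 0 ≤ e4 * OB := by positivity
    nlinarith
  by_contra hcon
  push Not at hcon
  have h12 : (c - 4) * (6 * e4 * OB) < (c - 4) * I := mul_lt_mul_of_pos_left hcon (by linarith)
  linarith

theorem far_tilt (ε₂ c₀ : ℝ) (hε₂ : 0 < ε₂) (hc₀ : 0 < c₀) (hc₁ : c₀ ≤ 1) : ∃ β : ℝ, 0 < β ∧
    ∀ η₁ : ℝ, 0 < η₁ → ∃ R₁ : ℝ, ∃ d₀ : ℕ, ∀ n : ℕ, d₀ ≤ n →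
      ∀ (C : Set (EuclideanSpace ℝ (Fin (n + 1)))), Convex ℝ C → IsCompact C → 0 ∈ C →
      ∀ p : EuclideanSpace ℝ (Fin (n + 1)), R₁ ≤ √((n : ℝ) + 1) * ‖p‖ →
      η₁ * kap (n + 1) ≤ volume.real (C ∩ closedBall p 1) →
      ∀ h : EuclideanSpace ℝ (Fin (n + 1)), ‖h‖ = β → c₀ * β * ‖p‖ ≤ inner ℝ h p →
      ∀ τ : ℝ, 0 < τ → τ ≤ 1 / ((n : ℝ) + 1) →
      om h (Sout C τ) ≤ ε₂ * om h (closedBall 0 1) := by
  -- `e4`
  obtain ⟨e4, he4d⟩ : ∃ e4, e4 = min (ε₂ / 6) (1 / 4) := ⟨_, rfl⟩
  have he4 : 0 < e4 := by rw [he4d]; exact lt_min (by positivity) (by norm_num)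
  have he41 : e4 ≤ 1 / 4 := he4d ▸ min_le_right _ _
  have he42 : 6 * e4 ≤ ε₂ := by
    have := min_le_left (ε₂ / 6) (1 / 4)
    rw [← he4d] at this
    linarith
  have hlog8 : 0 < Real.log (8 / e4) := Real.log_pos (by rw [lt_div_iff₀ he4]; linarith)
  -- `β`
  obtain ⟨β, hβd⟩ : ∃ β, β = √(72 / (e4 ^ 2 * c₀ ^ 2) * (8 + Real.log (8 / e4))) := ⟨_, rfl⟩
  have hβ : 0 < β := by rw [hβd]; exact Real.sqrt_pos.2 (by positivity)
  have hβ2 : e4 ^ 2 * c₀ ^ 2 * β ^ 2 / 72 = 8 + Real.log (8 / e4) := by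
    rw [hβd, Real.sq_sqrt (by positivity)]
    field_simp
  refine ⟨β, hβ, fun η₁ hη₁ => ?_⟩
  obtain ⟨B, hB, d₁, hfar⟩ := om_far β η₁ hβ.le hη₁
  obtain ⟨d₂, hmgf⟩ := mgf_ball (2 * β) (1 / 2) (by positivity) (by norm_num)
  obtain ⟨B', hB'd⟩ : ∃ B', B' = B + β ^ 2 / 2 + Real.log 2 := ⟨_, rfl⟩
  have hlog2 : 0 < Real.log 2 := Real.log_pos (by norm_num)
  have hB' : 0 < B' := by rw [hB'd]; positivity
  obtain ⟨Lam, hLamd⟩ : ∃ Lam, Lam = 6 / (c₀ * β) := ⟨_, rfl⟩
  have hLam : 0 < Lam := by rw [hLamd]; positivity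
  obtain ⟨d₃, hd₃⟩ := exists_nat_ge ((14 * β / e4 + 4 * β) ^ 2)
  refine ⟨Lam + 1 + 4 * Lam * B' + β * B', max (max d₁ d₂) d₃, fun n hn C hconv hCc h0 p hp hvol h hhβ
    hin τ hτ hτ1 => ?_⟩
  have hn1 : d₁ ≤ n := (le_max_left _ _).trans ((le_max_left _ _).trans hn)
  have hn2 : d₂ ≤ n := (le_max_right _ _).trans ((le_max_left _ _).trans hn)
  have hn3 : d₃ ≤ n := (le_max_right _ _).trans hn
  obtain ⟨q, hqd⟩ : ∃ q, q = √((n : ℝ) + 1) := ⟨_, rfl⟩
  have hq2 : q ^ 2 = (n : ℝ) + 1 := by rw [hqd]; exact Real.sq_sqrt (by positivity)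
  have hq : 0 < q := by rw [hqd]; exact Real.sqrt_pos.2 (by positivity)
  have hqbig : 14 * β / e4 + 4 * β ≤ q := by
    rw [hqd]
    apply Real.le_sqrt_of_sq_le
    have : (d₃ : ℝ) ≤ n := by exact_mod_cast hn3
    linarith
  rw [← hqd] at hp
  have hκ : 0 < kap (n + 1) := kap_pos _
  obtain ⟨κ, hκd⟩ : ∃ κ, κ = kap (n + 1) := ⟨_, rfl⟩
  -- `p ≠ 0`
  have hp0 : 0 < ‖p‖ := by
    by_contra hcon
    have h1 : ‖p‖ = 0 := le_antisymm (not_lt.1 hcon) (norm_nonneg _)
    rw [h1, mul_zero] at hp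
    have : 0 < Lam + 1 + 4 * Lam * B' + β * B' := by positivity
    linarith
  obtain ⟨R, hRd⟩ : ∃ R, R = q * ‖p‖ := ⟨_, rfl⟩
  have hR : 0 < R := by rw [hRd]; positivity
  rw [← hRd] at hp
  obtain ⟨e, hed⟩ : ∃ e : EuclideanSpace ℝ (Fin (n + 1)), e = (1 / ‖p‖) • p := ⟨_, rfl⟩
  have he : ‖e‖ = 1 := by
    rw [hed, norm_smul, Real.norm_of_nonneg (by positivity)]
    field_simp
  have hpe : p = ‖p‖ • e := by
    rw [hed, smul_smul, mul_one_div_cancel hp0.ne', one_smul]
  obtain ⟨b', hb'd⟩ : ∃ b' : ℝ, b' = inner ℝ h e := ⟨_, rfl⟩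
  have hinp : inner ℝ h p = ‖p‖ * b' := by
    rw [hb'd]
    conv_lhs => rw [hpe]
    rw [inner_smul_right]
  have hb1 : c₀ * β ≤ b' := by
    rw [hinp] at hin
    by_contra hcon
    push Not at hcon
    have := mul_lt_mul_of_pos_left hcon hp0
    linarith
  have hb2 : b' ≤ β := by
    have := real_inner_le_norm h e
    rw [he, hhβ, mul_one] at this
    rw [hb'd]
    exact this
  have hb0 : 0 < b' := lt_of_lt_of_le (by positivity) hb1
  obtain ⟨lam, hlamd⟩ : ∃ lam, lam = 6 / b' := ⟨_, rfl⟩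
  have hlam : 0 < lam := by rw [hlamd]; positivity
  have hlamb : lam * b' = 6 := by rw [hlamd]; field_simp
  have hlamL : lam ≤ Lam := by
    rw [hlamd, hLamd]
    exact div_le_div_of_nonneg_left (by norm_num) (by positivity) hb1
  obtain ⟨t, htd⟩ : ∃ t, t = lam / R := ⟨_, rfl⟩
  have ht0 : 0 < t := by rw [htd]; positivity
  have ht1 : t < 1 := by
    rw [htd, div_lt_one hR]
    have h1 : 0 ≤ 4 * Lam * B' + β * B' := by positivity
    linarith
  have htB : t * B' ≤ 1 / 4 := by
    rw [htd, div_mul_eq_mul_div, div_le_iff₀ hR]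
    have h1 : lam * B' ≤ Lam * B' := mul_le_mul_of_nonneg_right hlamL hB'.le
    have h2 : 0 ≤ β * B' := by positivity
    nlinarith
  have hβB : β * B' / R ≤ 1 := by
    rw [div_le_one hR]
    have h1 : 0 ≤ 4 * Lam * B' := by positivity
    linarith
  -- the exponent
  obtain ⟨lc, hlcd⟩ : ∃ lc, lc = 6 - t * B' := ⟨_, rfl⟩
  have hlc1 : 23 / 4 ≤ lc := by rw [hlcd]; linarith
  have hlc2 : lc ≤ 6 := by rw [hlcd]; linarith [mul_pos ht0 hB']
  obtain ⟨s, hsd⟩ : ∃ s, s = (lc + e4) / ((n : ℝ) + 1) := ⟨_, rfl⟩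
  have hs : 0 ≤ s := by rw [hsd]; positivity
  have hsn : s * ((n : ℝ) + 1) = lc + e4 := by rw [hsd]; field_simp
  have hu : (lam / √((n : ℝ) + 1)) • e = t • p := by
    rw [hpe, smul_smul, ← hqd, htd, hRd]
    congr 1
    field_simp
  obtain ⟨OX, hOX, h1, h2⟩ := far_tilt_geo C hconv hCc h0 h τ hτ (t • p) s hs
  obtain ⟨rC, hrC⟩ := hCc.isBounded.subset_closedBall (0 : EuclideanSpace ℝ (Fin (n + 1)))
  have hCB : om h (C ∩ closedBall 0 1) ≤ om h (closedBall 0 1) := om_mono' h subset_rfl inter_subset_right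
  -- moment generating function
  obtain ⟨m1, m2⟩ := hmgf n hn2 h (by rw [hhβ]; linarith)
  rw [hhβ] at m1 m2
  have hG : Real.exp lc * om h (C ∩ closedBall 0 1) ≤ om h (C ∩ closedBall (t • p) 1) := by
    have l1 := om_logconcave C hconv hCc h 0 p t ht0 ht1
    rw [smul_zero, zero_add] at l1
    refine le_trans ?_ l1
    have f1 := hfar n hn1 h p (C ∩ closedBall p 1) hhβ.le inter_subset_right
      (hCc.isClosed.measurableSet.inter measurableSet_closedBall) hvol
    have hO0 : 0 ≤ om h (C ∩ closedBall 0 1) := om_nonneg' _ _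
    rcases hO0.eq_or_lt with hO | hO
    · rw [← hO, mul_zero]
      exact mul_nonneg (Real.rpow_nonneg le_rfl _) (Real.rpow_nonneg (om_nonneg' _ _) _)
    have h3 : om h (C ∩ closedBall 0 1) ^ (1 - t) * om h (C ∩ closedBall p 1) ^ t =
        om h (C ∩ closedBall 0 1) * (om h (C ∩ closedBall p 1) / om h (C ∩ closedBall 0 1)) ^ t := by
      rw [Real.rpow_sub hO, Real.rpow_one, Real.div_rpow (om_nonneg' _ _) hO.le]
      ring
    rw [h3, mul_comm]
    refine mul_le_mul_of_nonneg_left ?_ hO.le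
    have h4 : Real.exp (R * b' - B') ≤ om h (C ∩ closedBall p 1) / om h (C ∩ closedBall 0 1) := by
      rw [le_div_iff₀ hO]
      have h5 : om h (C ∩ closedBall 0 1) ≤ (1 + 1 / 2) * Real.exp (β ^ 2 / 2) * kap (n + 1) := hCB.trans m2
      calc Real.exp (R * b' - B') * om h (C ∩ closedBall 0 1)
          ≤ Real.exp (R * b' - B') * ((1 + 1 / 2) * Real.exp (β ^ 2 / 2) * kap (n + 1)) :=
            mul_le_mul_of_nonneg_left h5 (Real.exp_pos _).le
        _ ≤ Real.exp (R * b' - B') * (2 * Real.exp (β ^ 2 / 2) * kap (n + 1)) := by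
            gcongr
            norm_num
        _ = Real.exp (q * inner ℝ h p - B) * kap (n + 1) := by
            have h6 : (2 : ℝ) = Real.exp (Real.log 2) := (Real.exp_log (by norm_num)).symm
            rw [hinp]
            calc Real.exp (R * b' - B') * (2 * Real.exp (β ^ 2 / 2) * kap (n + 1))
                = Real.exp (R * b' - B') * (Real.exp (Real.log 2) * Real.exp (β ^ 2 / 2) * kap (n + 1)) := by
                  rw [← h6]
              _ = Real.exp (R * b' - B' + Real.log 2 + β ^ 2 / 2) * kap (n + 1) := by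
                  rw [Real.exp_add, Real.exp_add]
                  ring
              _ = _ := by
                  congr 2
                  rw [hB'd, hRd]
                  ring
        _ ≤ om h (C ∩ closedBall p 1) := by rw [hqd]; exact f1
    have h7 : Real.exp lc = Real.exp (R * b' - B') ^ t := by
      rw [← Real.exp_mul]
      congr 1
      rw [hlcd]
      have h8 : R * t = lam := by rw [htd]; field_simp
      nlinarith
    rw [h7]
    exact Real.rpow_le_rpow (Real.exp_pos _).le h4 ht0.le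
  -- the lens
  obtain ⟨k₁, hk₁d⟩ : ∃ k₁, k₁ = e4 / lam := ⟨_, rfl⟩
  have hk₁ : 0 < k₁ := by rw [hk₁d]; positivity
  have hk₁lam : lam * k₁ = e4 := by rw [hk₁d]; field_simp
  have hk₁b : k₁ = e4 * b' / 6 := by rw [hk₁d, hlamd]; field_simp
  have hk₁β : k₁ ≤ β := by
    rw [hk₁b]
    have : e4 * b' ≤ 1 / 4 * β := mul_le_mul he41 hb2 hb0.le (by norm_num)
    linarith
  have hL : om h (closedBall (t • p) 1 \ closedBall 0 (1 + s)) ≤ e4 * om h (closedBall 0 1) := by
    have l1 := om_lens h e he lam s k₁ hlam hs hk₁.le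
    rw [hu] at l1
    refine l1.trans ?_
    have hnorm : ‖h + k₁ • e‖ ^ 2 = β ^ 2 + 2 * (k₁ * b') + k₁ ^ 2 := by
      rw [norm_add_sq_real, inner_smul_right, ← hb'd, hhβ, norm_smul, he, mul_one,
        Real.norm_of_nonneg hk₁.le]
    have hnle : ‖h + k₁ • e‖ ≤ 2 * β := by
      refine (norm_add_le _ _).trans ?_
      rw [norm_smul, he, mul_one, Real.norm_of_nonneg hk₁.le, hhβ]
      linarith
    obtain ⟨-, m3⟩ := hmgf n hn2 (h + k₁ • e) hnle
    have l2 : om (h + k₁ • e) (closedBall 0 1) ≤ 2 * Real.exp (‖h + k₁ • e‖ ^ 2 / 2) * kap (n + 1) := by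
      refine m3.trans ?_
      gcongr
      norm_num
    rw [← hb'd]
    calc Real.exp (-(k₁ * s * ((n : ℝ) + 1) / lam) + lam * (b' + k₁)) * om (h + k₁ • e) (closedBall 0 1)
        ≤ Real.exp (-(k₁ * s * ((n : ℝ) + 1) / lam) + lam * (b' + k₁)) *
          (2 * Real.exp (‖h + k₁ • e‖ ^ 2 / 2) * kap (n + 1)) :=
          mul_le_mul_of_nonneg_left l2 (Real.exp_pos _).le
      _ = 2 * Real.exp (β ^ 2 / 2) * Real.exp (-(k₁ * s * ((n : ℝ) + 1) / lam) + lam * (b' + k₁) +
            (k₁ * b' + k₁ ^ 2 / 2)) * kap (n + 1) := by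
          rw [hnorm]
          have h5 : (β ^ 2 + 2 * (k₁ * b') + k₁ ^ 2) / 2 = β ^ 2 / 2 + (k₁ * b' + k₁ ^ 2 / 2) := by ring
          rw [h5, Real.exp_add (β ^ 2 / 2),
            Real.exp_add (-(k₁ * s * ((n : ℝ) + 1) / lam) + lam * (b' + k₁))]
          ring
      _ ≤ 2 * Real.exp (β ^ 2 / 2) * (e4 / 4) * kap (n + 1) := by
          have h6 : Real.exp (-(k₁ * s * ((n : ℝ) + 1) / lam) + lam * (b' + k₁) +
              (k₁ * b' + k₁ ^ 2 / 2)) ≤ e4 / 4 := by
            rw [← Real.exp_log (show (0 : ℝ) < e4 / 4 by positivity)]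
            refine Real.exp_le_exp.2 ?_
            -- the exponent
            have e1 : k₁ * s * ((n : ℝ) + 1) / lam = k₁ * (lc + e4) / lam := by
              rw [mul_assoc, hsn]
            have e2 : k₁ * b' = 6 * k₁ / lam := by rw [hlamd]; field_simp
            have e3 : k₁ ^ 2 = e4 * k₁ / lam := by rw [hk₁d]; field_simp
            have e4' : lam * (b' + k₁) = 6 + e4 := by rw [mul_add, hlamb, hk₁lam]
            have e5 : k₁ * (lc + e4) / lam = 6 * k₁ / lam - k₁ * B' / R + e4 * k₁ / lam := by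
              rw [hlcd, htd]
              field_simp
            have e6 : k₁ * B' / R ≤ 1 := by
              refine le_trans ?_ hβB
              gcongr
            have e7 : (8 + Real.log (8 / e4)) ≤ e4 * k₁ / lam / 2 := by
              rw [← hβ2]
              have e8 : e4 * k₁ / lam / 2 = e4 ^ 2 * b' ^ 2 / 72 := by
                rw [hk₁b, hlamd]
                field_simp
                ring
              rw [e8]
              have e9 : (c₀ * β) ^ 2 ≤ b' ^ 2 := pow_le_pow_left₀ (by positivity) hb1 2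
              have e10 : e4 ^ 2 * (c₀ * β) ^ 2 ≤ e4 ^ 2 * b' ^ 2 :=
                mul_le_mul_of_nonneg_left e9 (by positivity)
              nlinarith
            have e11 : Real.log (e4 / 4) = - Real.log (8 / e4) + Real.log 2 := by
              rw [Real.log_div he4.ne' (by norm_num), Real.log_div (by norm_num) he4.ne',
                show (8 : ℝ) = 4 * 2 by norm_num, Real.log_mul (by norm_num) (by norm_num)]
              ring
            rw [e1, e5, e4', e2, e3, e11]
            linarith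
          have h7 : 0 ≤ 2 * Real.exp (β ^ 2 / 2) := by positivity
          exact mul_le_mul_of_nonneg_right (mul_le_mul_of_nonneg_left h6 h7) hκ.le
      _ = e4 * ((1 - 1 / 2) * Real.exp (β ^ 2 / 2) * kap (n + 1)) := by ring
      _ ≤ e4 * om h (closedBall 0 1) := mul_le_mul_of_nonneg_left m1 he4.le
  have hF : (1 + τ) ^ (n + 1) * Real.exp (τ * √((n : ℝ) + 1) * ‖h‖) ≤ 4 := by
    rw [← hqd, hhβ]
    have f1 : (1 + τ) ^ (n + 1) ≤ Real.exp 1 := by
      calc (1 + τ) ^ (n + 1) ≤ Real.exp τ ^ (n + 1) := by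
            gcongr
            rw [add_comm]
            exact Real.add_one_le_exp τ
        _ = Real.exp (((n + 1 : ℕ) : ℝ) * τ) := (Real.exp_nat_mul _ _).symm
        _ ≤ Real.exp 1 := by
            refine Real.exp_le_exp.2 ?_
            push_cast
            rw [le_div_iff₀ (by positivity)] at hτ1
            linarith
    have f2 : Real.exp (τ * q * β) ≤ Real.exp (1 / 4) := by
      refine Real.exp_le_exp.2 ?_
      have f3 : τ * q ≤ 1 / q := by
        rw [le_div_iff₀ hq]
        rw [← hq2, le_div_iff₀ (by positivity)] at hτ1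
        linarith [hτ1]
      have f4 : 4 * β ≤ q := by
        have : 0 < 14 * β / e4 := by positivity
        linarith
      calc τ * q * β ≤ 1 / q * β := mul_le_mul_of_nonneg_right f3 hβ.le
        _ = β / q := by ring
        _ ≤ 1 / 4 := by
            rw [div_le_div_iff₀ hq (by norm_num)]
            linarith
    calc (1 + τ) ^ (n + 1) * Real.exp (τ * q * β) ≤ Real.exp 1 * Real.exp (1 / 4) :=
          mul_le_mul f1 f2 (Real.exp_pos _).le (Real.exp_pos _).le
      _ ≤ 4 := by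
          have f5 := Real.exp_one_lt_d9
          have f6 : Real.exp (1 / 4) ≤ 4 / 3 := by
            have := Real.exp_bound_div_one_sub_of_interval (x := 1 / 4) (by norm_num) (by norm_num)
            norm_num at this ⊢
            exact this
          have f7 : Real.exp 1 * Real.exp (1 / 4) ≤ 3 * (4 / 3) :=
            mul_le_mul (by linarith) f6 (Real.exp_pos _).le (by norm_num)
          linarith
  have hGG : (1 + s) ^ (n + 1) * Real.exp (s * √((n : ℝ) + 1) * ‖h‖) ≤ Real.exp lc * (1 + 4 * e4) := by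
    rw [← hqd, hhβ]
    have f1 : (1 + s) ^ (n + 1) ≤ Real.exp (lc + e4) := by
      calc (1 + s) ^ (n + 1) ≤ Real.exp s ^ (n + 1) := by
            gcongr
            rw [add_comm]
            exact Real.add_one_le_exp s
        _ = Real.exp (((n + 1 : ℕ) : ℝ) * s) := (Real.exp_nat_mul _ _).symm
        _ ≤ Real.exp (lc + e4) := by
            refine Real.exp_le_exp.2 ?_
            push_cast
            linarith
    have f2 : Real.exp (s * q * β) ≤ Real.exp (e4 / 2) := by
      refine Real.exp_le_exp.2 ?_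
      have f3 : s * q = (lc + e4) / q := by
        rw [hsd, ← hq2]
        field_simp
      have f4 : 14 * β / e4 ≤ q := by linarith
      rw [div_le_iff₀ he4] at f4
      rw [f3, div_mul_eq_mul_div, div_le_iff₀ hq]
      have f5 : (lc + e4) * β ≤ 7 * β := mul_le_mul_of_nonneg_right (by linarith) hβ.le
      linarith
    calc (1 + s) ^ (n + 1) * Real.exp (s * q * β) ≤ Real.exp (lc + e4) * Real.exp (e4 / 2) :=
          mul_le_mul f1 f2 (Real.exp_pos _).le (Real.exp_pos _).le
      _ = Real.exp lc * Real.exp (3 / 2 * e4) := by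
          rw [← Real.exp_add, ← Real.exp_add]
          congr 1
          ring
      _ ≤ Real.exp lc * (1 + 4 * e4) := by
          refine mul_le_mul_of_nonneg_left ?_ (Real.exp_pos _).le
          refine (Real.exp_bound_div_one_sub_of_interval (by positivity) (by linarith)).trans ?_
          rw [div_le_iff₀ (by linarith)]
          nlinarith
  have hc300 : 300 ≤ Real.exp lc := by
    have f1 := Real.quadratic_le_exp_of_nonneg (x := 3 / 4) (by norm_num)
    have f2 : (2.7182818283 : ℝ) ^ 5 ≤ Real.exp 1 ^ 5 :=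
      pow_le_pow_left₀ (by norm_num) Real.exp_one_gt_d9.le 5
    rw [← Real.exp_nat_mul] at f2
    calc (300 : ℝ) ≤ 2.7182818283 ^ 5 * (1 + 3 / 4 + (3 / 4) ^ 2 / 2) := by norm_num
      _ ≤ Real.exp (((5 : ℕ) : ℝ) * 1) * Real.exp (3 / 4) :=
          mul_le_mul f2 f1 (by norm_num) (Real.exp_pos _).le
      _ = Real.exp (23 / 4) := by
          rw [← Real.exp_add]
          norm_num
      _ ≤ Real.exp lc := Real.exp_le_exp.2 hlc1
  have := far_tilt_num he4 he41 hc300 (om_nonneg' h (Sout C τ)) hOX h1 hCB h2 hF hGG hL hG rfl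
  refine this.trans (mul_le_mul_of_nonneg_right he42 (om_nonneg' _ _))

end SA70
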