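import Pool.Agent.SA70.Basic

/-! M6b: the shell of a cylinder. Polar coordinates (`SC70.polar_le`): on the ray in direction `θ`
the set is contained in `(ρ/(1+τ), ρ]`, and `r^n √(1-r²) ≤ M_n`, so
`∫ r^{n-1} 2√(1-r²) dr ≤ 2 M_n ((1+τ)/ρ) (ρ - ρ/(1+τ)) = 2 M_n τ`, and
`2 M_n τ = 2 M_n τ n ∫_0^1 r^{n-1} dr`. -/

set_option autoImplicit false

open MeasureTheory Measure Metric Set Module ENNReal

namespace SA70

open SC70

theorem m6b_bern (s : ℝ) (hs : 0 ≤ s) : ∀ n : ℕ, ((n : ℝ) + 1) * s ^ n ≤ n * s ^ (n + 1) + 1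
  | 0 => by simp
  | n + 1 => by
    have ih := mul_le_mul_of_nonneg_left (m6b_bern s hs n) hs
    have h1 : 0 ≤ (s - 1) * (s ^ (n + 1) - 1) := by
      rcases le_total s 1 with h | h
      · have h2 : s ^ (n + 1) ≤ 1 := pow_le_one₀ hs h
        nlinarith
      · have h2 : 1 ≤ s ^ (n + 1) := one_le_pow₀ h
        nlinarith
    have e1 : s ^ (n + 1 + 1) = s * s ^ (n + 1) := by ring
    have e2 : s ^ (n + 1) = s * s ^ n := by ring
    push_cast
    rw [e1]
    nlinarith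

theorem m6b_pow_sqrt_le {n : ℕ} (hn : 1 ≤ n) (r : ℝ) (hr : 0 ≤ r) :
    r ^ n * √(1 - r ^ 2) ≤ Mn n := by
  have hn' : (0 : ℝ) < n := by exact_mod_cast hn
  have hM : 0 ≤ Mn n := by unfold Mn; positivity
  rcases le_total (1 - r ^ 2) 0 with h | h
  · rw [Real.sqrt_eq_zero_of_nonpos h, mul_zero]
    exact hM
  have hM2 : Mn n ^ 2 = ((n : ℝ) / (n + 1)) ^ n * (1 / (n + 1)) := by
    unfold Mn
    rw [mul_pow, ← pow_mul, mul_comm n 2, pow_mul, Real.sq_sqrt (by positivity),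
      div_pow 1 (√((n : ℝ) + 1)) 2, one_pow, Real.sq_sqrt (by positivity)]
  refine (pow_le_pow_iff_left₀ (by positivity) hM (two_ne_zero)).1 ?_
  rw [hM2, mul_pow, Real.sq_sqrt h]
  set s : ℝ := r ^ 2 * ((n + 1) / n) with hs
  have hs0 : 0 ≤ s := by positivity
  have e1 : r ^ 2 = s * (n / (n + 1)) := by rw [hs]; field_simp
  have e2 : (r ^ n) ^ 2 = (r ^ 2) ^ n := by rw [← pow_mul, ← pow_mul, mul_comm]
  have h3 := m6b_bern s hs0 n
  have h4 : s ^ n * ((n : ℝ) + 1 - n * s) ≤ 1 := by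
    have : s ^ (n + 1) = s ^ n * s := by ring
    rw [this] at h3
    nlinarith
  rw [e2, e1, mul_pow]
  have e3 : s ^ n * (↑n / (↑n + 1)) ^ n * (1 - s * (↑n / (↑n + 1))) =
      (s ^ n * ((n : ℝ) + 1 - n * s)) * (((n : ℝ) / (n + 1)) ^ n * (1 / (n + 1))) := by
    have : (1 : ℝ) - s * (n / (n + 1)) = ((n : ℝ) + 1 - n * s) * (1 / (n + 1)) := by
      field_simp
    rw [this]; ring
  rw [e3]
  have h5 : 0 ≤ ((n : ℝ) / (n + 1)) ^ n * (1 / (n + 1)) := by positivity
  nlinarith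

/-- along a ray -/
theorem m6b_ray {n : ℕ} (hn : 1 ≤ n) (K : Set (EuclideanSpace ℝ (Fin n))) (hconv : Convex ℝ K)
    (hKc : IsCompact K) (h0 : (0 : EuclideanSpace ℝ (Fin n)) ∈ K) (τ : ℝ) (hτ : 0 < τ)
    (θ : EuclideanSpace ℝ (Fin n)) (hθ : ‖θ‖ = 1) :
    ∫⁻ r : ℝ in Ioi (0 : ℝ), ENNReal.ofReal (r ^ (n - 1)) *
      {z | z ∈ K ∧ (1 + τ) • z ∉ K}.indicator
        (fun z => ENNReal.ofReal (2 * √(1 - ‖z‖ ^ 2))) (r • θ) ≤ ENNReal.ofReal (2 * Mn n * τ) := by
  have hM : 0 ≤ Mn n := by unfold Mn; positivity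
  -- the last point on the ray
  have hR : IsCompact {r : ℝ | r • θ ∈ K ∧ 0 ≤ r} := by
    obtain ⟨B, hB⟩ := hKc.isBounded.exists_norm_le
    have hcl : IsClosed {r : ℝ | r • θ ∈ K ∧ 0 ≤ r} := by
      apply IsClosed.inter
      · exact hKc.isClosed.preimage (by fun_prop : Continuous fun r : ℝ => r • θ)
      · exact isClosed_Ici
    refine isCompact_Icc.of_isClosed_subset hcl (s := Icc (0 : ℝ) B) ?_
    rintro r ⟨h1, h2⟩
    refine ⟨h2, ?_⟩
    have h3 := hB _ h1
    rw [norm_smul, hθ, mul_one, Real.norm_eq_abs, abs_of_nonneg h2] at h3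
    exact h3
  obtain ⟨ρ, ⟨hρK, hρ0⟩, hρ⟩ := hR.exists_isGreatest ⟨0, by simp [h0]⟩
  have hin : ∀ r : ℝ, 0 ≤ r → r ≤ ρ → r • θ ∈ K := by
    intro r hr hrρ
    rcases hρ0.eq_or_lt with h | h
    · have : r = 0 := by linarith
      rw [this, zero_smul]; exact h0
    · have e : r • θ = (1 - r / ρ) • (0 : EuclideanSpace ℝ (Fin n)) + (r / ρ) • (ρ • θ) := by
        rw [smul_zero, zero_add, smul_smul, div_mul_cancel₀ _ h.ne']
      rw [e]
      refine hconv h0 hρK ?_ (by positivity) (by ring)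
      rw [sub_nonneg, div_le_one h]
      exact hrρ
  have hmem : ∀ r : ℝ, 0 < r → r • θ ∈ {z | z ∈ K ∧ (1 + τ) • z ∉ K} →
      r ∈ Ioc (ρ / (1 + τ)) ρ := by
    rintro r hr ⟨h1, h2⟩
    refine ⟨?_, hρ ⟨h1, hr.le⟩⟩
    by_contra hcon
    push Not at hcon
    apply h2
    rw [smul_smul]
    refine hin _ (by positivity) ?_
    rw [le_div_iff₀ (by linarith)] at hcon
    linarith
  rcases hρ0.eq_or_lt with hz | hρpos
  · rw [← hz] at hmem
    have h1 : ∀ r ∈ Ioi (0 : ℝ), ENNReal.ofReal (r ^ (n - 1)) *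
      {z | z ∈ K ∧ (1 + τ) • z ∉ K}.indicator
        (fun z => ENNReal.ofReal (2 * √(1 - ‖z‖ ^ 2))) (r • θ) ≤ (fun _ => (0 : ℝ≥0∞)) r := by
      intro r hr
      by_cases hk : r • θ ∈ {z | z ∈ K ∧ (1 + τ) • z ∉ K}
      · have := (hmem r hr hk).2
        exact absurd this (not_le.2 hr)
      · rw [indicator_of_notMem hk, mul_zero]
    refine (setLIntegral_mono' measurableSet_Ioi h1).trans ?_
    simp
  set c : ℝ := 2 * Mn n * ((1 + τ) / ρ) with hc
  have hc0 : 0 ≤ c := by positivity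
  have h1 : ∀ r ∈ Ioi (0 : ℝ), ENNReal.ofReal (r ^ (n - 1)) *
      {z | z ∈ K ∧ (1 + τ) • z ∉ K}.indicator
        (fun z => ENNReal.ofReal (2 * √(1 - ‖z‖ ^ 2))) (r • θ) ≤
      (Ioc (ρ / (1 + τ)) ρ).indicator (fun _ => ENNReal.ofReal c) r := by
    intro r hr
    have hr0 : 0 < r := hr
    by_cases hk : r • θ ∈ {z | z ∈ K ∧ (1 + τ) • z ∉ K}
    · have h2 := hmem r hr hk
      rw [indicator_of_mem hk, indicator_of_mem h2, ← ENNReal.ofReal_mul (by positivity)]
      apply ENNReal.ofReal_le_ofReal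
      rw [norm_smul, hθ, mul_one, Real.norm_eq_abs, sq_abs]
      have h3 := m6b_pow_sqrt_le hn r hr0.le
      have h4 : r ^ (n - 1) * (2 * √(1 - r ^ 2)) = 2 * (r ^ n * √(1 - r ^ 2)) / r := by
        obtain ⟨m, rfl⟩ : ∃ m, n = m + 1 := ⟨n - 1, by omega⟩
        rw [Nat.add_sub_cancel]
        field_simp
        ring
      have h5 : 1 / r ≤ (1 + τ) / ρ := by
        rw [div_le_div_iff₀ hr0 hρpos]
        have h6 := h2.1
        rw [div_lt_iff₀ (by linarith)] at h6
        linarith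
      rw [h4, hc]
      calc 2 * (r ^ n * √(1 - r ^ 2)) / r = 2 * (r ^ n * √(1 - r ^ 2)) * (1 / r) := by ring
        _ ≤ 2 * Mn n * ((1 + τ) / ρ) := by
          apply mul_le_mul _ h5 (by positivity) (by positivity)
          linarith
    · rw [indicator_of_notMem hk, mul_zero]
      exact zero_le
  calc _ ≤ ∫⁻ r : ℝ in Ioi (0 : ℝ),
        (Ioc (ρ / (1 + τ)) ρ).indicator (fun _ => ENNReal.ofReal c) r :=
        setLIntegral_mono' measurableSet_Ioi h1
    _ ≤ ∫⁻ r : ℝ, (Ioc (ρ / (1 + τ)) ρ).indicator (fun _ => ENNReal.ofReal c) r :=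
        setLIntegral_le_lintegral _ _
    _ = ENNReal.ofReal c * ENNReal.ofReal (ρ - ρ / (1 + τ)) := by
        rw [lintegral_indicator measurableSet_Ioc, setLIntegral_const, Real.volume_Ioc]
    _ = ENNReal.ofReal (2 * Mn n * τ) := by
        rw [← ENNReal.ofReal_mul hc0]
        congr 1
        rw [hc]
        field_simp
        ring

theorem cyl_bound {n : ℕ} (hn : 1 ≤ n) (K : Set (EuclideanSpace ℝ (Fin n))) (hconv : Convex ℝ K)
    (hKc : IsCompact K) (h0 : (0 : EuclideanSpace ℝ (Fin n)) ∈ K) (τ : ℝ) (hτ : 0 < τ) :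
    ∫⁻ z in {z | z ∈ K ∧ (1 + τ) • z ∉ K}, ENNReal.ofReal (2 * √(1 - ‖z‖ ^ 2)) ≤
      ENNReal.ofReal (2 * Mn n * τ * n * kap n) := by
  have hn' : (0 : ℝ) < n := by exact_mod_cast hn
  have hM : 0 ≤ Mn n := by unfold Mn; positivity
  have : Nonempty (Fin n) := ⟨⟨0, by omega⟩⟩
  have hSm : MeasurableSet {z | z ∈ K ∧ (1 + τ) • z ∉ K} := by
    apply MeasurableSet.inter hKc.isClosed.measurableSet
    exact ((hKc.isClosed.preimage (by fun_prop :
      Continuous fun z : EuclideanSpace ℝ (Fin n) => (1 + τ) • z)).measurableSet).compl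
  have hfm : Measurable (fun z : EuclideanSpace ℝ (Fin n) =>
      ENNReal.ofReal (2 * √(1 - ‖z‖ ^ 2))) := by fun_prop
  rw [← lintegral_indicator hSm]
  set c : ℝ≥0∞ := ENNReal.ofReal (2 * Mn n * τ * n) with hc
  have hle : ∫⁻ z, {z | z ∈ K ∧ (1 + τ) • z ∉ K}.indicator
      (fun z => ENNReal.ofReal (2 * √(1 - ‖z‖ ^ 2))) z ≤
      ∫⁻ z : EuclideanSpace ℝ (Fin n), (closedBall (0 : EuclideanSpace ℝ (Fin n)) 1).indicator
        (fun _ => c) z := by
    apply polar_le volume _ _ (hfm.indicator hSm) (measurable_const.indicator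
      measurableSet_closedBall)
    intro θ hθ
    rw [finrank_euclideanSpace_fin]
    refine (m6b_ray hn K hconv hKc h0 τ hτ θ hθ).trans ?_
    calc ENNReal.ofReal (2 * Mn n * τ)
        = c * ENNReal.ofReal (∫ r in Ioc (0 : ℝ) 1, r ^ (n - 1)) := by
          rw [← intervalIntegral.integral_of_le zero_le_one, integral_pow, hc,
            ← ENNReal.ofReal_mul (by positivity)]
          congr 1
          obtain ⟨m, rfl⟩ : ∃ m, n = m + 1 := ⟨n - 1, by omega⟩
          rw [Nat.add_sub_cancel]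
          push_cast
          rw [one_pow, zero_pow (by omega)]
          field_simp
          ring
      _ = c * ∫⁻ r in Ioc (0 : ℝ) 1, ENNReal.ofReal (r ^ (n - 1)) := by
          rw [ofReal_integral_eq_lintegral_ofReal]
          · exact ((by fun_prop : Continuous fun r : ℝ => r ^ (n - 1)).integrableOn_Icc).mono_set
              Ioc_subset_Icc_self
          · filter_upwards [ae_restrict_mem measurableSet_Ioc] with r hr
            exact pow_nonneg hr.1.le _
      _ = ∫⁻ r in Ioc (0 : ℝ) 1, c * ENNReal.ofReal (r ^ (n - 1)) := by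
          rw [lintegral_const_mul _ (by fun_prop)]
      _ = ∫⁻ r in Ioc (0 : ℝ) 1, ENNReal.ofReal (r ^ (n - 1)) *
            (closedBall (0 : EuclideanSpace ℝ (Fin n)) 1).indicator (fun _ => c) (r • θ) := by
          apply setLIntegral_congr_fun measurableSet_Ioc
          intro r hr
          have hm : r • θ ∈ closedBall (0 : EuclideanSpace ℝ (Fin n)) 1 := by
            rw [mem_closedBall_zero_iff, norm_smul, hθ, mul_one, Real.norm_eq_abs,
              abs_of_pos hr.1]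
            exact hr.2
          simp only
          rw [indicator_of_mem hm, mul_comm]
      _ ≤ _ := lintegral_mono_set Ioc_subset_Ioi_self
  refine hle.trans ?_
  rw [lintegral_indicator measurableSet_closedBall, setLIntegral_const, hc]
  have hk : volume (closedBall (0 : EuclideanSpace ℝ (Fin n)) 1) = ENNReal.ofReal (kap n) := by
    unfold kap
    rw [ofReal_measureReal (h := measure_closedBall_lt_top.ne)]
  rw [hk, ← ENNReal.ofReal_mul (by positivity)]

end SA70
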