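import Pool.Agent.SC70.FirstVar
import Pool.Agent.SC70.TNum
import Pool.Agent.SC70.WMaj

/-! Auxiliary facts for M6c: a far section, the real inequality, differences of balls. -/

set_option autoImplicit false

open MeasureTheory Measure Metric Set Module ENNReal

namespace SA70

open SC70

theorem kap_le_sqrt {n : ℕ} (hn : 1 ≤ n) : kap n ≤ √((n : ℝ) + 1) * kap (n + 1) := by
  have h1 := kap_succ_ge hn
  have h2 : (1 : ℝ) ≤ √(2 * Real.pi / ((n : ℝ) + 2)) * √((n : ℝ) + 1) := by
    rw [← Real.sqrt_mul (by positivity)]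
    rw [Real.one_le_sqrt]
    rw [div_mul_eq_mul_div, le_div_iff₀ (by positivity)]
    have h3 := Real.pi_gt_three
    have hn' : (1 : ℝ) ≤ n := by exact_mod_cast hn
    nlinarith
  have hk := kap_nonneg n
  calc kap n ≤ kap n * (√(2 * Real.pi / ((n : ℝ) + 2)) * √((n : ℝ) + 1)) :=
        le_mul_of_one_le_right hk h2
    _ = √((n : ℝ) + 1) * (kap n * √(2 * Real.pi / ((n : ℝ) + 2))) := by ring
    _ ≤ _ := mul_le_mul_of_nonneg_left h1 (Real.sqrt_nonneg _)

theorem slab_far {n : ℕ} (e : EuclideanSpace ℝ (Fin (n + 1))) (he : ‖e‖ = 1)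
    (p : EuclideanSpace ℝ (Fin (n + 1))) (a : ℝ) (ha : 0 < a) :
    volume {x | x ∈ closedBall p 1 ∧ a < |inner ℝ e (x - p)|} ≤
      ENNReal.ofReal (kap (n + 1) / (((n : ℝ) + 3) * a ^ 2)) := by
  have hkap := kap_nonneg (n + 1)
  have hsqc : Continuous (fun x : EuclideanSpace ℝ (Fin (n + 1)) => inner ℝ e (x - p) ^ 2) := by
    fun_prop
  have hsq : IntegrableOn (fun x : EuclideanSpace ℝ (Fin (n + 1)) => inner ℝ e (x - p) ^ 2)
      (closedBall p 1) := (hsqc.continuousOn).integrableOn_compact (isCompact_closedBall _ _)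
  have hsqv : ∫ x in closedBall p 1, inner ℝ e (x - p) ^ 2 = kap (n + 1) / ((n : ℝ) + 3) := by
    have h0 := integral_inner_sq_ball (n := n + 1) (by omega) e
    have h1 : ∫ x in closedBall p 1, inner ℝ e (x - p) ^ 2 =
        ∫ u in closedBall (0 : EuclideanSpace ℝ (Fin (n + 1))) 1, inner ℝ e u ^ 2 := by
      rw [← integral_indicator measurableSet_closedBall,
        ← integral_indicator measurableSet_closedBall, ← integral_add_right_eq_self _ p]
      congr 1
      funext x
      by_cases hx : x ∈ closedBall (0 : EuclideanSpace ℝ (Fin (n + 1))) 1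
      · rw [indicator_of_mem hx, indicator_of_mem (by simpa using hx), add_sub_cancel_right]
      · rw [indicator_of_notMem hx, indicator_of_notMem (by simpa using hx)]
    rw [h1, h0, he]
    push_cast
    ring_nf
  have hm : Measurable (fun x : EuclideanSpace ℝ (Fin (n + 1)) =>
      ENNReal.ofReal (inner ℝ e (x - p) ^ 2)) := hsqc.measurable.ennreal_ofReal
  have h2 := mul_meas_ge_le_lintegral (μ := volume.restrict (closedBall p 1)) hm
    (ENNReal.ofReal (a ^ 2))
  have h3 : ∫⁻ x in closedBall p 1, ENNReal.ofReal (inner ℝ e (x - p) ^ 2) =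
      ENNReal.ofReal (kap (n + 1) / ((n : ℝ) + 3)) := by
    rw [← hsqv, ofReal_integral_eq_lintegral_ofReal hsq
      (Filter.Eventually.of_forall (fun x => sq_nonneg _))]
  rw [h3] at h2
  have h4 : volume {x | x ∈ closedBall p 1 ∧ a < |inner ℝ e (x - p)|} ≤
      (volume.restrict (closedBall p 1))
        {x | ENNReal.ofReal (a ^ 2) ≤ ENNReal.ofReal (inner ℝ e (x - p) ^ 2)} := by
    rw [Measure.restrict_apply (measurableSet_le measurable_const hm)]
    refine measure_mono ?_
    rintro x ⟨h5, h6⟩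
    refine ⟨?_, h5⟩
    apply ENNReal.ofReal_le_ofReal
    rw [← sq_abs (inner ℝ e (x - p))]
    exact pow_le_pow_left₀ ha.le h6.le 2
  have h5 : ENNReal.ofReal (a ^ 2) * volume {x | x ∈ closedBall p 1 ∧ a < |inner ℝ e (x - p)|} ≤
      ENNReal.ofReal (kap (n + 1) / ((n : ℝ) + 3)) := le_trans (mul_le_mul_right h4 _) h2
  have ha2 : 0 < a ^ 2 := by positivity
  have h6 : ENNReal.ofReal (kap (n + 1) / (((n : ℝ) + 3) * a ^ 2)) =
      ENNReal.ofReal (kap (n + 1) / ((n : ℝ) + 3)) / ENNReal.ofReal (a ^ 2) := by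
    rw [← ENNReal.ofReal_div_of_pos ha2, div_div]
  rw [h6, ENNReal.le_div_iff_mul_le (Or.inl (by simpa using ha.ne')) (Or.inl ENNReal.ofReal_ne_top),
    mul_comm]
  exact h5

/-- the real inequality -/
theorem real_pl (V₁ V₂ V₃ κ M η s : ℝ) (hκ : 0 < κ) (hM : 1 ≤ M) (hη : 0 < η) (hs0 : 0 < s)
    (hV₁ : 0 ≤ V₁) (hV₁M : V₁ ≤ M * κ) (hV₂ : η * κ ≤ V₂) (hV₃ : 0 ≤ V₃)
    (h : V₁ ^ (1 - s) * V₂ ^ s ≤ V₃) :
    V₁ ≤ V₃ + s * (M * max 0 (Real.log (M / η))) * κ := by
  have hmax : 0 ≤ max 0 (Real.log (M / η)) := le_max_left _ _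
  rcases hV₁.eq_or_lt with h0 | h0
  · rw [← h0]
    have : 0 ≤ s * (M * max 0 (Real.log (M / η))) * κ := by positivity
    linarith
  · have hV₂0 : 0 < V₂ := lt_of_lt_of_le (by positivity) hV₂
    have h1 : V₁ ^ (1 - s) * V₂ ^ s = V₁ * Real.exp (s * Real.log (V₂ / V₁)) := by
      rw [Real.rpow_sub h0, Real.rpow_one, Real.log_div hV₂0.ne' h0.ne', mul_sub, Real.exp_sub,
        mul_comm s (Real.log V₂), mul_comm s (Real.log V₁), ← Real.rpow_def_of_pos hV₂0,
        ← Real.rpow_def_of_pos h0]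
      field_simp
    have h2 : 1 + s * Real.log (V₂ / V₁) ≤ Real.exp (s * Real.log (V₂ / V₁)) := by
      have := Real.add_one_le_exp (s * Real.log (V₂ / V₁))
      linarith
    have h3 : V₁ * (1 + s * Real.log (V₂ / V₁)) ≤ V₃ :=
      le_trans (mul_le_mul_of_nonneg_left h2 h0.le) (h1 ▸ h)
    have h4 : Real.log (V₁ / V₂) = - Real.log (V₂ / V₁) := by
      rw [← Real.log_inv, inv_div]
    have h5 : V₁ * Real.log (V₁ / V₂) ≤ M * κ * max 0 (Real.log (M / η)) := by
      rcases le_or_gt (Real.log (V₁ / V₂)) 0 with h6 | h6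
      · have h7 : V₁ * Real.log (V₁ / V₂) ≤ 0 := mul_nonpos_of_nonneg_of_nonpos h0.le h6
        have : 0 ≤ M * κ * max 0 (Real.log (M / η)) := by positivity
        linarith
      · have h7 : V₁ / V₂ ≤ M / η := by
          rw [div_le_div_iff₀ hV₂0 hη]
          calc V₁ * η ≤ M * κ * η := mul_le_mul_of_nonneg_right hV₁M hη.le
            _ = M * (η * κ) := by ring
            _ ≤ M * V₂ := mul_le_mul_of_nonneg_left hV₂ (by linarith)
        have h8 : Real.log (V₁ / V₂) ≤ Real.log (M / η) :=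
          Real.log_le_log (div_pos h0 hV₂0) h7
        exact mul_le_mul hV₁M (h8.trans (le_max_right _ _)) h6.le (by positivity)
    have h9 : s * (V₁ * Real.log (V₁ / V₂)) ≤ s * (M * κ * max 0 (Real.log (M / η))) :=
      mul_le_mul_of_nonneg_left h5 hs0.le
    rw [h4] at h9
    nlinarith

theorem pow_sub_le (a b : ℝ) (ha : 0 ≤ a) (hab : a ≤ b) (hb : b ≤ 1) (n : ℕ) :
    b ^ n - a ^ n ≤ n * (b - a) := by
  induction n with
  | zero => simp
  | succ n ih =>
    have h1 : b ^ (n + 1) - a ^ (n + 1) = b * (b ^ n - a ^ n) + a ^ n * (b - a) := by ring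
    have h2 : a ^ n ≤ 1 := pow_le_one₀ ha (hab.trans hb)
    have h3 : 0 ≤ b ^ n - a ^ n := by
      have := pow_le_pow_left₀ ha hab n
      linarith
    have h4 : b * (b ^ n - a ^ n) ≤ 1 * (b ^ n - a ^ n) := mul_le_mul_of_nonneg_right hb h3
    have h5 : a ^ n * (b - a) ≤ 1 * (b - a) := mul_le_mul_of_nonneg_right h2 (by linarith)
    rw [h1]
    push_cast
    linarith

theorem ball_diff {N : ℕ} (v : EuclideanSpace ℝ (Fin (N + 1))) (r ρ c : ℝ) (hr : 0 ≤ r)
    (hρ : 0 ≤ ρ) (hc : 0 ≤ c) (hrρ : r ≤ ρ → ρ ^ (N + 1) - r ^ (N + 1) ≤ c) :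
    volume (closedBall v ρ \ closedBall 0 r) ≤
      ENNReal.ofReal (c * kap (N + 1) + ‖v‖ * (kap N * r ^ N)) := by
  have hk := kap_nonneg (N + 1)
  have hk' := kap_nonneg N
  have h1 : volume (closedBall v r \ closedBall (0 : EuclideanSpace ℝ (Fin (N + 1))) r) ≤
      ENNReal.ofReal (‖v‖ * (kap N * r ^ N)) := by
    have h2 := ball_exit_r (closedBall (0 : EuclideanSpace ℝ (Fin (N + 1))) r)
      (convex_closedBall _ _) (isCompact_closedBall _ _) 0 v 1 r zero_le_one hr
    rw [one_mul] at h2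
    refine le_trans ?_ h2
    have h3 : closedBall v r \ closedBall (0 : EuclideanSpace ℝ (Fin (N + 1))) r =
        (fun x => x + (-v)) ⁻¹' {x | x ∈ closedBall (0 : EuclideanSpace ℝ (Fin (N + 1))) r ∧
          x ∈ closedBall (0 : EuclideanSpace ℝ (Fin (N + 1))) r ∧
          x + (1 : ℝ) • v ∉ closedBall (0 : EuclideanSpace ℝ (Fin (N + 1))) r} := by
      ext x
      simp [dist_eq_norm, sub_eq_add_neg]
    rw [h3, measure_preimage_add_right]
  rcases le_or_gt r ρ with h | h
  · have h2 : closedBall v ρ \ closedBall (0 : EuclideanSpace ℝ (Fin (N + 1))) r ⊆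
        (closedBall v ρ \ closedBall v r) ∪ (closedBall v r \ closedBall 0 r) := by
      intro x hx
      by_cases h3 : x ∈ closedBall v r
      · exact Or.inr ⟨h3, hx.2⟩
      · exact Or.inl ⟨hx.1, h3⟩
    have h3 : volume (closedBall v ρ \ closedBall v r) ≤ ENNReal.ofReal (c * kap (N + 1)) := by
      rw [measure_sdiff (closedBall_subset_closedBall h) measurableSet_closedBall.nullMeasurableSet
        (isCompact_closedBall _ _).measure_lt_top.ne, volume_ball_le v hρ, volume_ball_le v hr,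
        ← ENNReal.ofReal_sub _ (by positivity)]
      apply ENNReal.ofReal_le_ofReal
      have := hrρ h
      nlinarith
    calc volume (closedBall v ρ \ closedBall 0 r)
        ≤ volume ((closedBall v ρ \ closedBall v r) ∪ (closedBall v r \ closedBall 0 r)) :=
          measure_mono h2
      _ ≤ volume (closedBall v ρ \ closedBall v r) + volume (closedBall v r \ closedBall 0 r) :=
          measure_union_le _ _
      _ ≤ _ := by
          rw [ENNReal.ofReal_add (by positivity) (by positivity)]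
          exact add_le_add h3 h1
  · have h2 : closedBall v ρ \ closedBall (0 : EuclideanSpace ℝ (Fin (N + 1))) r ⊆
        closedBall v r \ closedBall 0 r := fun x hx =>
      ⟨closedBall_subset_closedBall h.le hx.1, hx.2⟩
    refine (measure_mono h2).trans (h1.trans (ENNReal.ofReal_le_ofReal ?_))
    have : 0 ≤ c * kap (N + 1) := by positivity
    linarith

end SA70
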