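import Pool.Agent.SA70.M1
import Pool.Agent.SA70.M6c1

/-! Auxiliary facts for M6c: the far section, Prekopa-Leindler for sections. -/

set_option autoImplicit false

open MeasureTheory Measure Metric Set Module ENNReal

namespace SA70

open SC70

theorem sec_compact {n : ℕ} (e : EuclideanSpace ℝ (Fin (n + 1)))
    (L : EuclideanSpace ℝ (Fin n) →ₗᵢ[ℝ] EuclideanSpace ℝ (Fin (n + 1)))
    (C : Set (EuclideanSpace ℝ (Fin (n + 1)))) (hCc : IsCompact C) (t r : ℝ)
    (q : EuclideanSpace ℝ (Fin n)) :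
    IsCompact {z : EuclideanSpace ℝ (Fin n) | t • e + L z ∈ C ∧ ‖z - q‖ ≤ r} := by
  have hLc : Continuous L := L.continuous
  have hc : Continuous (fun z : EuclideanSpace ℝ (Fin n) => t • e + L z) := by fun_prop
  have h1 : IsClosed {z : EuclideanSpace ℝ (Fin n) | t • e + L z ∈ C} :=
    hCc.isClosed.preimage hc
  have h2 : {z : EuclideanSpace ℝ (Fin n) | t • e + L z ∈ C ∧ ‖z - q‖ ≤ r} =
      {z : EuclideanSpace ℝ (Fin n) | t • e + L z ∈ C} ∩ closedBall q r := by
    ext z
    simp [dist_eq_norm]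
  rw [h2]
  exact (isCompact_closedBall q r).inter_left h1

theorem far_section {n : ℕ} (hn : 1 ≤ n) (e : EuclideanSpace ℝ (Fin (n + 1))) (he : ‖e‖ = 1)
    (L : EuclideanSpace ℝ (Fin n) →ₗᵢ[ℝ] EuclideanSpace ℝ (Fin (n + 1)))
    (hL : ∀ y, inner ℝ e (L y) = 0)
    (hmp : MeasurePreserving
          (fun z : ℝ × EuclideanSpace ℝ (Fin n) => z.1 • e + L z.2) volume volume)
    (C : Set (EuclideanSpace ℝ (Fin (n + 1)))) (hCc : IsCompact C)
    (tp : ℝ) (q : EuclideanSpace ℝ (Fin n)) (η A₁ : ℝ) (hη : 0 < η) (hA₁ : 0 < A₁)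
    (hηA : 2 ≤ η * A₁ ^ 2)
    (hvol : η * kap (n + 1) ≤ volume.real (C ∩ closedBall (tp • e + L q) 1)) :
    ∃ tb : ℝ, |tb - tp| ≤ A₁ / √((n : ℝ) + 1) ∧ η / (8 * A₁) * kap n ≤
      volume.real {z : EuclideanSpace ℝ (Fin n) | tb • e + L z ∈ C ∧ ‖z - q‖ ≤ 1} := by
  by_contra hcon
  push Not at hcon
  set a : ℝ := A₁ / √((n : ℝ) + 1) with ha
  have hd : 0 < √((n : ℝ) + 1) := by positivity
  have ha0 : 0 < a := by positivity
  have hk := kap_pos n
  have hk' := kap_pos (n + 1)
  set w : ℝ := η / (8 * A₁) * kap n with hw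
  have hw0 : 0 < w := by positivity
  set p : EuclideanSpace ℝ (Fin (n + 1)) := tp • e + L q with hp
  set χ : ℝ × EuclideanSpace ℝ (Fin n) → EuclideanSpace ℝ (Fin (n + 1)) :=
    fun z => z.1 • e + L z.2 with hχ
  have hLc : Continuous L := L.continuous
  have hχc : Continuous χ := by
    simp only [hχ]
    fun_prop
  have hinner : ∀ z : ℝ × EuclideanSpace ℝ (Fin n), inner ℝ e (χ z - p) = z.1 - tp := by
    intro z
    simp only [hχ, hp]
    rw [inner_sub_right, inner_add_right, inner_add_right, inner_smul_right, inner_smul_right, hL,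
      hL, real_inner_self_eq_norm_sq, he]
    ring
  have hnorm : ∀ z : ℝ × EuclideanSpace ℝ (Fin n), ‖χ z - p‖ ^ 2 = (z.1 - tp) ^ 2 +
      ‖z.2 - q‖ ^ 2 := by
    intro z
    rw [← frame_norm he L hL]
    congr 2
    simp only [hχ, hp, sub_smul, map_sub]
    abel
  set S : Set (EuclideanSpace ℝ (Fin (n + 1))) :=
    {x | x ∈ C ∧ x ∈ closedBall p 1 ∧ |inner ℝ e (x - p)| ≤ a} with hS
  have hSm : MeasurableSet S := by
    have h1 : MeasurableSet {x : EuclideanSpace ℝ (Fin (n + 1)) | |inner ℝ e (x - p)| ≤ a} :=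
      (isClosed_le (by fun_prop) continuous_const).measurableSet
    exact hCc.measurableSet.inter (measurableSet_closedBall.inter h1)
  have h1 : volume S ≤ ENNReal.ofReal (2 * a * w) := by
    rw [← hmp.measure_preimage hSm.nullMeasurableSet, Measure.volume_eq_prod,
      Measure.prod_apply (hχc.measurable hSm)]
    calc ∫⁻ t : ℝ, volume (Prod.mk t ⁻¹' (χ ⁻¹' S))
        ≤ ∫⁻ t : ℝ, (Icc (tp - a) (tp + a)).indicator (fun _ => ENNReal.ofReal w) t := by
          apply lintegral_mono
          intro t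
          simp only
          by_cases ht : t ∈ Icc (tp - a) (tp + a)
          · rw [indicator_of_mem ht]
            have h2 := hcon t (by rw [abs_le]; constructor <;> [linarith [ht.1]; linarith [ht.2]])
            have h3 : Prod.mk t ⁻¹' (χ ⁻¹' S) ⊆
                {z : EuclideanSpace ℝ (Fin n) | t • e + L z ∈ C ∧ ‖z - q‖ ≤ 1} := by
              intro z hz
              obtain ⟨h4, h5, _⟩ := hz
              refine ⟨h4, ?_⟩
              rw [mem_closedBall, dist_eq_norm] at h5
              have h6 : ‖χ (t, z) - p‖ ^ 2 ≤ 1 ^ 2 := pow_le_pow_left₀ (norm_nonneg _) h5 2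
              rw [hnorm] at h6
              have h7 : ‖z - q‖ ^ 2 ≤ 1 ^ 2 := by nlinarith [sq_nonneg (t - tp)]
              exact abs_le_of_sq_le_sq' h7 zero_le_one |>.2
            refine (measure_mono h3).trans ?_
            rw [ENNReal.le_ofReal_iff_toReal_le
              (sec_compact e L C hCc t 1 q).measure_lt_top.ne hw0.le]
            exact h2.le
          · rw [indicator_of_notMem ht]
            have h3 : Prod.mk t ⁻¹' (χ ⁻¹' S) = ∅ := by
              ext z
              simp only [mem_preimage, mem_empty_iff_false, iff_false]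
              rintro ⟨_, _, h5⟩
              rw [hinner, abs_le] at h5
              apply ht
              simp only at h5
              exact ⟨by linarith [h5.1], by linarith [h5.2]⟩
            rw [h3, measure_empty]
      _ = ENNReal.ofReal (2 * a * w) := by
          rw [lintegral_indicator measurableSet_Icc, setLIntegral_const, Real.volume_Icc,
            ← ENNReal.ofReal_mul hw0.le]
          congr 1; ring
  have h2 := slab_far e he p a ha0
  have h3 : C ∩ closedBall p 1 ⊆ S ∪ {x | x ∈ closedBall p 1 ∧ a < |inner ℝ e (x - p)|} := by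
    rintro x ⟨h4, h5⟩
    rcases le_or_gt (|inner ℝ e (x - p)|) a with h6 | h6
    · exact Or.inl ⟨h4, h5, h6⟩
    · exact Or.inr ⟨h5, h6⟩
  have h4 : volume (C ∩ closedBall p 1) ≤
      ENNReal.ofReal (2 * a * w + kap (n + 1) / (((n : ℝ) + 3) * a ^ 2)) := by
    rw [ENNReal.ofReal_add (by positivity) (by positivity)]
    exact (measure_mono h3).trans ((measure_union_le _ _).trans (add_le_add h1 h2))
  have h5 : volume.real (C ∩ closedBall p 1) ≤
      2 * a * w + kap (n + 1) / (((n : ℝ) + 3) * a ^ 2) := by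
    rw [measureReal_def]
    exact ENNReal.toReal_le_of_le_ofReal (by positivity) h4
  have h6 : kap n ≤ √((n : ℝ) + 1) * kap (n + 1) := kap_le_sqrt hn
  have h7 : 2 * a * w ≤ η / 4 * kap (n + 1) := by
    have h8 : 2 * a * w = η / 4 * (kap n / √((n : ℝ) + 1)) := by
      rw [hw, ha]; field_simp; ring
    rw [h8]
    apply mul_le_mul_of_nonneg_left _ (by positivity)
    rw [div_le_iff₀ hd]
    linarith
  have h8 : kap (n + 1) / (((n : ℝ) + 3) * a ^ 2) ≤ η / 2 * kap (n + 1) := by
    have h9 : a ^ 2 = A₁ ^ 2 / ((n : ℝ) + 1) := by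
      rw [ha, div_pow, Real.sq_sqrt (by positivity)]
    have h10 : A₁ ^ 2 ≤ ((n : ℝ) + 3) * a ^ 2 := by
      rw [h9, ← mul_div_assoc, le_div_iff₀ (by positivity)]
      nlinarith [sq_nonneg A₁]
    rw [div_le_iff₀ (by positivity)]
    have h11 : 1 ≤ η / 2 * (((n : ℝ) + 3) * a ^ 2) := by nlinarith
    nlinarith
  have h9 : η * kap (n + 1) ≤ η / 4 * kap (n + 1) + η / 2 * kap (n + 1) := by
    linarith
  have h10 : 0 < η * kap (n + 1) := by positivity
  linarith

theorem sec_pl {n : ℕ} (s : ℝ) (hs0 : 0 < s) (hs1 : s < 1) (K₁ K₂ K₃ : Set (EuclideanSpace ℝ (Fin n)))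
    (h1 : IsCompact K₁) (h2 : IsCompact K₂) (h3 : IsCompact K₃)
    (H : ∀ x ∈ K₁, ∀ y ∈ K₂, (1 - s) • x + s • y ∈ K₃) :
    volume.real K₁ ^ (1 - s) * volume.real K₂ ^ s ≤ volume.real K₃ := by
  have h4 := pl_general s hs0 hs1 (f := K₁.indicator 1) (g := K₂.indicator 1)
    (h := K₃.indicator 1) (measurable_one.indicator h1.measurableSet)
    (measurable_one.indicator h2.measurableSet) (measurable_one.indicator h3.measurableSet) (by
      intro x y
      by_cases hx : x ∈ K₁
      · by_cases hy : y ∈ K₂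
        · rw [indicator_of_mem hx, indicator_of_mem hy, indicator_of_mem (H x hx y hy)]
          simp
        · rw [indicator_of_notMem hy, ENNReal.zero_rpow_of_pos hs0, mul_zero]
          exact zero_le
      · rw [indicator_of_notMem hx, ENNReal.zero_rpow_of_pos (by linarith), zero_mul]
        exact zero_le)
  rw [lintegral_indicator_one h1.measurableSet, lintegral_indicator_one h2.measurableSet,
    lintegral_indicator_one h3.measurableSet] at h4
  have h5 := ENNReal.toReal_mono h3.measure_lt_top.ne h4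
  rw [ENNReal.toReal_mul, ← ENNReal.toReal_rpow, ← ENNReal.toReal_rpow] at h5
  exact h5

end SA70
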