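import Pool.Agent.SA70.M6c
import Pool.Agent.SA70.M7a

/-! QA: convexity of the set of big points; its length. -/

set_option autoImplicit false

open MeasureTheory Measure Metric Set Module ENNReal

namespace SA70

open SC70

/-- Prekopa-Leindler (`m6c_pl`) for `C ∩ closedBall x 1`, `C ∩ closedBall y 1`:
`V(mid) ≥ V(x)^(1-s) V(y)^s ≥ η κ`. -/
theorem big_mid {n : ℕ} (C : Set (EuclideanSpace ℝ (Fin (n + 1)))) (hconv : Convex ℝ C)
    (hCc : IsCompact C) (η : ℝ) (hη : 0 < η) (x y : EuclideanSpace ℝ (Fin (n + 1)))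
    (hx : η * kap (n + 1) ≤ volume.real (C ∩ closedBall x 1))
    (hy : η * kap (n + 1) ≤ volume.real (C ∩ closedBall y 1)) (s : ℝ) (hs0 : 0 ≤ s)
    (hs1 : s ≤ 1) :
    η * kap (n + 1) ≤ volume.real (C ∩ closedBall ((1 - s) • x + s • y) 1) := by
  have hk := kap_pos (n + 1)
  have hηk : 0 < η * kap (n + 1) := by positivity
  rcases hs0.eq_or_lt with h0 | h0
  · rw [← h0]; simpa using hx
  rcases hs1.eq_or_lt with h1 | h1
  · rw [h1]; simpa using hy
  have key := m6c_pl s h0 h1 (C ∩ closedBall x 1) (C ∩ closedBall y 1)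
    (C ∩ closedBall ((1 - s) • x + s • y) 1)
    (hCc.measurableSet.inter measurableSet_closedBall)
    (hCc.measurableSet.inter measurableSet_closedBall)
    (hCc.measurableSet.inter measurableSet_closedBall)
    ((measure_mono inter_subset_left).trans_lt hCc.measure_lt_top).ne
    (by
      rintro a ⟨ha, ha'⟩ b ⟨hb, hb'⟩
      refine ⟨hconv ha hb (by linarith) hs0 (by ring), ?_⟩
      rw [mem_closedBall, dist_eq_norm] at ha' hb' ⊢
      have e : (1 - s) • a + s • b - ((1 - s) • x + s • y) = (1 - s) • (a - x) + s • (b - y) := by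
        rw [smul_sub, smul_sub]; abel
      rw [e]
      refine (norm_add_le _ _).trans ?_
      rw [norm_smul, norm_smul, Real.norm_of_nonneg (by linarith : 0 ≤ 1 - s),
        Real.norm_of_nonneg hs0]
      have h2 : (1 - s) * ‖a - x‖ ≤ (1 - s) * 1 := mul_le_mul_of_nonneg_left ha' (by linarith)
      have h3 : s * ‖b - y‖ ≤ s * 1 := mul_le_mul_of_nonneg_left hb' hs0
      linarith)
  refine le_trans ?_ key
  calc η * kap (n + 1) = (η * kap (n + 1)) ^ ((1 - s) + s) := by
        rw [show (1 - s) + s = (1 : ℝ) by ring, Real.rpow_one]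
    _ = (η * kap (n + 1)) ^ (1 - s) * (η * kap (n + 1)) ^ s := Real.rpow_add hηk _ _
    _ ≤ _ := mul_le_mul (Real.rpow_le_rpow hηk.le hx (by linarith))
        (Real.rpow_le_rpow hηk.le hy hs0) (by positivity) (by positivity)

private theorem qa_cap {n : ℕ} (v c : EuclideanSpace ℝ (Fin (n + 1))) (hv : ‖v‖ = 1) (s : ℝ)
    (hs0 : 0 ≤ s) :
    volume.real {x | x ∈ closedBall c 1 ∧ s ≤ inner ℝ v (x - c)} ≤
      Real.exp (-(s ^ 2 * ((n : ℝ) + 1) / 2)) * kap (n + 1) := by
  refine le_trans (le_of_eq ?_) (cap_le v hv s hs0)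
  rw [measureReal_def, measureReal_def, ← measure_preimage_add_right (volume :
    Measure (EuclideanSpace ℝ (Fin (n + 1)))) (-c) {x | x ∈ closedBall 0 1 ∧ s ≤ inner ℝ v x}]
  congr 2
  ext x
  simp only [Set.mem_ofPred_eq, mem_preimage, mem_closedBall, dist_eq_norm, sub_zero,
    ← sub_eq_add_neg]

/-- Choose `A` with `2 exp(-A²/8) ≤ η/2`. `u = (y-x)/‖y-x‖`, `x_i = x + i (A/√d) u`,
`i = 0..m = ⌊√d ‖x-y‖/A⌋`, are big (`big_mid`); the sets `C ∩ closedBall x_i 1 ∩ {|⟨z - x_i, u⟩| < A/(2√d)}`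
are disjoint and have volume at least `(η - 2 exp(-A²/8)) κ ≥ (η/2) κ` (`cap_le`). So
`V(C) ≥ (m+1)(η/2) κ ≥ √d ‖x-y‖ (η/(2A)) κ`, `Λ = 2A/η`. -/
theorem length_bound (η : ℝ) (hη : 0 < η) : ∃ Λ : ℝ, 0 < Λ ∧ ∀ n : ℕ, 1 ≤ n →
    ∀ (C : Set (EuclideanSpace ℝ (Fin (n + 1)))), Convex ℝ C → IsCompact C →
    ∀ x y : EuclideanSpace ℝ (Fin (n + 1)),
      η * kap (n + 1) ≤ volume.real (C ∩ closedBall x 1) →
      η * kap (n + 1) ≤ volume.real (C ∩ closedBall y 1) →
      √((n : ℝ) + 1) * ‖x - y‖ * kap (n + 1) ≤ Λ * volume.real C := by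
  obtain ⟨A, hA0, hA⟩ : ∃ A : ℝ, 0 < A ∧ Real.exp (-(A ^ 2 / 8)) ≤ η / 4 := by
    refine ⟨√(8 * max 1 (Real.log (4 / η))), by positivity, ?_⟩
    rw [Real.sq_sqrt (by positivity)]
    have h1 : Real.log (4 / η) ≤ max 1 (Real.log (4 / η)) := le_max_right _ _
    calc Real.exp (-(8 * max 1 (Real.log (4 / η)) / 8)) ≤ Real.exp (-Real.log (4 / η)) := by
          apply Real.exp_le_exp.mpr; linarith
      _ = η / 4 := by
          rw [Real.exp_neg, Real.exp_log (by positivity), inv_div]
  refine ⟨2 * A / η, by positivity, ?_⟩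
  intro n hn C hconv hCc x y hx hy
  have hk := kap_pos (n + 1)
  by_cases hxy : ‖x - y‖ = 0
  · rw [hxy, mul_zero, zero_mul]; positivity
  have hL : 0 < ‖x - y‖ := lt_of_le_of_ne (norm_nonneg _) (Ne.symm hxy)
  set L := ‖x - y‖ with hLdef
  set D := √((n : ℝ) + 1) with hDdef
  have hD : 0 < D := by positivity
  have hD2 : D ^ 2 = (n : ℝ) + 1 := Real.sq_sqrt (by positivity)
  set u : EuclideanSpace ℝ (Fin (n + 1)) := L⁻¹ • (y - x) with hu
  have hu1 : ‖u‖ = 1 := by
    rw [hu, norm_smul, norm_inv, Real.norm_of_nonneg hL.le, norm_sub_rev, ← hLdef,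
      inv_mul_cancel₀ hL.ne']
  set p : ℕ → EuclideanSpace ℝ (Fin (n + 1)) := fun i => x + ((i : ℝ) * (A / D)) • u with hp
  set m : ℕ := ⌊D * L / A⌋₊ with hm
  set S : ℕ → Set (EuclideanSpace ℝ (Fin (n + 1))) := fun i =>
    {z | (z ∈ C ∩ closedBall (p i) 1) ∧ |inner ℝ u (z - p i)| < A / (2 * D)} with hS
  have hSm : ∀ i, MeasurableSet (S i) := fun i =>
    (hCc.measurableSet.inter measurableSet_closedBall).inter
      (measurableSet_lt (f := fun z : EuclideanSpace ℝ (Fin (n + 1)) => |inner ℝ u (z - p i)|)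
        (by fun_prop) measurable_const)
  have hSC : ∀ i, S i ⊆ C := fun i z hz => hz.1.1
  have hCfin : volume C ≠ ⊤ := hCc.measure_lt_top.ne
  have hbig : ∀ i ∈ Finset.range (m + 1), η / 2 * kap (n + 1) ≤ volume.real (S i) := by
    intro i hi
    have him : i ≤ m := Nat.lt_succ_iff.mp (Finset.mem_range.mp hi)
    have hi2 : (i : ℝ) ≤ D * L / A :=
      (Nat.cast_le.mpr him).trans (Nat.floor_le (by positivity))
    have h1 : η * kap (n + 1) ≤ volume.real (C ∩ closedBall (p i) 1) := by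
      have h2 := big_mid C hconv hCc η hη x y hx hy ((i : ℝ) * (A / D) / L) (by positivity)
        (by
          rw [div_le_one hL]
          rw [le_div_iff₀ hA0] at hi2
          rw [mul_div_assoc', div_le_iff₀ hD]
          linarith)
      have e : (1 - (i : ℝ) * (A / D) / L) • x + ((i : ℝ) * (A / D) / L) • y = p i := by
        rw [hp, hu]
        simp only
        rw [smul_smul, sub_smul, one_smul, smul_sub, div_eq_mul_inv _ L]
        abel
      rwa [e] at h2
    have hsub : C ∩ closedBall (p i) 1 ⊆ S i ∪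
        ({z | z ∈ closedBall (p i) 1 ∧ A / (2 * D) ≤ inner ℝ u (z - p i)} ∪
          {z | z ∈ closedBall (p i) 1 ∧ A / (2 * D) ≤ inner ℝ (-u) (z - p i)}) := by
      intro z hz
      by_cases h : |inner ℝ u (z - p i)| < A / (2 * D)
      · exact Or.inl ⟨hz, h⟩
      · right
        rcases le_abs.mp (not_lt.mp h) with h2 | h2
        · exact Or.inl ⟨hz.2, h2⟩
        · right
          refine ⟨hz.2, ?_⟩
          rwa [inner_neg_left]
    have hcap := qa_cap u (p i) hu1 (A / (2 * D)) (by positivity)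
    have hcap2 := qa_cap (-u) (p i) (by rw [norm_neg, hu1]) (A / (2 * D)) (by positivity)
    have he : (A / (2 * D)) ^ 2 * ((n : ℝ) + 1) / 2 = A ^ 2 / 8 := by
      rw [← hD2]; field_simp; norm_num
    rw [he] at hcap hcap2
    have h3 : volume.real (C ∩ closedBall (p i) 1) ≤ volume.real (S i) +
        (volume.real {z | z ∈ closedBall (p i) 1 ∧ A / (2 * D) ≤ inner ℝ u (z - p i)} +
          volume.real {z | z ∈ closedBall (p i) 1 ∧ A / (2 * D) ≤ inner ℝ (-u) (z - p i)}) := by
      refine (measureReal_mono hsub ?_).trans ((measureReal_union_le _ _).trans ?_)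
      · refine ((measure_mono (union_subset (fun z hz => hz.1.2) (union_subset
          (fun z hz => hz.1) (fun z hz => hz.1)))).trans_lt
          (isCompact_closedBall (p i) 1).measure_lt_top).ne
      · gcongr
        exact measureReal_union_le _ _
    have h4 : Real.exp (-(A ^ 2 / 8)) * kap (n + 1) ≤ η / 4 * kap (n + 1) := by gcongr
    linarith
  have hdisj : Set.PairwiseDisjoint (↑(Finset.range (m + 1)) : Set ℕ) S := by
    intro i _ j _ hij
    rw [Function.onFun, Set.disjoint_left]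
    rintro z ⟨_, h1⟩ ⟨_, h2⟩
    apply hij
    have huu : inner ℝ u u = (1 : ℝ) := by rw [real_inner_self_eq_norm_sq, hu1]; norm_num
    have e : ∀ k : ℕ, inner ℝ u (z - p k) = inner ℝ u (z - x) - (k : ℝ) * (A / D) := by
      intro k
      rw [hp]
      simp only
      rw [← sub_sub, inner_sub_right _ (z - x), inner_smul_right, huu, mul_one]
    rw [e, abs_lt] at h1 h2
    have hAD : 0 < A / D := by positivity
    have e2 : A / (2 * D) = (A / D) / 2 := by field_simp
    rw [e2] at h1 h2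
    have h3 : (i : ℝ) < j + 1 := by
      have : (i : ℝ) * (A / D) < (j + 1) * (A / D) := by linarith
      exact lt_of_mul_lt_mul_right this hAD.le
    have h4 : (j : ℝ) < i + 1 := by
      have : (j : ℝ) * (A / D) < (i + 1) * (A / D) := by linarith
      exact lt_of_mul_lt_mul_right this hAD.le
    have h5 : i < j + 1 := by exact_mod_cast h3
    have h6 : j < i + 1 := by exact_mod_cast h4
    omega
  have hsum : ((m : ℝ) + 1) * (η / 2 * kap (n + 1)) ≤ volume.real C := by
    have h1 : volume.real (⋃ i ∈ Finset.range (m + 1), S i) =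
        ∑ i ∈ Finset.range (m + 1), volume.real (S i) :=
      measureReal_biUnion_finset hdisj (fun i _ => hSm i)
        (fun i _ => ((measure_mono (hSC i)).trans_lt hCc.measure_lt_top).ne)
    have h2 : volume.real (⋃ i ∈ Finset.range (m + 1), S i) ≤ volume.real C :=
      measureReal_mono (iUnion₂_subset fun i _ => hSC i) hCfin
    have h3 := Finset.card_nsmul_le_sum _ _ _ hbig
    rw [Finset.card_range, nsmul_eq_mul] at h3
    push_cast at h3
    linarith
  have hm1 : D * L / A < m + 1 := Nat.lt_floor_add_one _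
  rw [div_lt_iff₀ hA0] at hm1
  have h7 : D * L * kap (n + 1) ≤ (m + 1) * A * kap (n + 1) := by gcongr
  refine h7.trans ?_
  rw [div_mul_eq_mul_div, le_div_iff₀ hη]
  nlinarith [mul_le_mul_of_nonneg_left hsum (by positivity : 0 ≤ 2 * A)]

end SA70
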