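import Pool.Agent.SA70.QA

/-! QB: the third far point in the section. -/

set_option autoImplicit false

open MeasureTheory Measure Metric Set Module ENNReal

namespace SA70

open SC70

namespace QBAux

variable {n : ℕ}

lemma norm_dir {E : Type*} [NormedAddCommGroup E] [InnerProductSpace ℝ E] (a : E) (ha : a ≠ 0) :
    ‖dir 0 a‖ = 1 := by
  unfold dir
  rw [sub_zero, norm_smul, Real.norm_of_nonneg (by positivity)]
  have := norm_ne_zero_iff.2 ha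
  field_simp

/-- the point at distance `ρ` on the segment from `0` to `a` -/
lemma point (C : Set (EuclideanSpace ℝ (Fin (n + 1)))) (hconv : Convex ℝ C) (hCc : IsCompact C)
    (η : ℝ) (hη : 0 < η) (h0 : (0 : EuclideanSpace ℝ (Fin (n + 1))) ∈ C)
    (a : EuclideanSpace ℝ (Fin (n + 1))) (ha : a ∈ C) (ρ : ℝ) (hρ : 0 < ρ) (hρa : ρ ≤ ‖a‖)
    (hv0 : η * kap (n + 1) ≤ volume.real (C ∩ closedBall 0 1))
    (hva : η * kap (n + 1) ≤ volume.real (C ∩ closedBall a 1)) :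
    ρ • dir 0 a ∈ C ∧ η * kap (n + 1) ≤ volume.real (C ∩ closedBall (ρ • dir 0 a) 1) := by
  have hna : 0 < ‖a‖ := lt_of_lt_of_le hρ hρa
  have hs0 : 0 ≤ ρ / ‖a‖ := by positivity
  have hs1 : ρ / ‖a‖ ≤ 1 := (div_le_one hna).2 hρa
  have he : ρ • dir 0 a = (1 - ρ / ‖a‖) • (0 : EuclideanSpace ℝ (Fin (n + 1))) +
      (ρ / ‖a‖) • a := by
    unfold dir
    rw [sub_zero, smul_smul, smul_zero, zero_add]
    congr 1
    ring
  rw [he]
  refine ⟨hconv h0 ha (by linarith) hs0 (by ring), ?_⟩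
  exact big_mid C hconv hCc η hη 0 a hv0 hva (ρ / ‖a‖) hs0 hs1

lemma norm_decomp (e : EuclideanSpace ℝ (Fin (n + 1))) (he : ‖e‖ = 1)
    (L : EuclideanSpace ℝ (Fin n) →ₗᵢ[ℝ] EuclideanSpace ℝ (Fin (n + 1)))
    (hL : ∀ y, inner ℝ e (L y) = 0) (t : ℝ) (q : EuclideanSpace ℝ (Fin n)) :
    ‖t • e + L q‖ ^ 2 = t ^ 2 + ‖q‖ ^ 2 := by
  rw [norm_add_sq_real, norm_smul, he, L.norm_map, inner_smul_left, hL]
  simp

lemma inner_decomp (e : EuclideanSpace ℝ (Fin (n + 1))) (he : ‖e‖ = 1)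
    (L : EuclideanSpace ℝ (Fin n) →ₗᵢ[ℝ] EuclideanSpace ℝ (Fin (n + 1)))
    (hL : ∀ y, inner ℝ e (L y) = 0) (t : ℝ) (q : EuclideanSpace ℝ (Fin n)) :
    inner ℝ e (t • e + L q) = t := by
  rw [inner_add_right, hL, inner_smul_right, real_inner_self_eq_norm_sq, he]
  ring

lemma norm_q_le (e : EuclideanSpace ℝ (Fin (n + 1))) (he : ‖e‖ = 1)
    (L : EuclideanSpace ℝ (Fin n) →ₗᵢ[ℝ] EuclideanSpace ℝ (Fin (n + 1)))
    (hL : ∀ y, inner ℝ e (L y) = 0) (t c : ℝ) (q : EuclideanSpace ℝ (Fin n))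
    (h : ‖t • e + L q‖ ≤ c) : ‖q‖ ≤ c := by
  have h1 := norm_decomp e he L hL t q
  have hc : 0 ≤ c := (norm_nonneg _).trans h
  have h2 : ‖q‖ ^ 2 ≤ c ^ 2 := by
    have h3 : ‖t • e + L q‖ ^ 2 ≤ c ^ 2 := pow_le_pow_left₀ (norm_nonneg _) h 2
    nlinarith [sq_nonneg t]
  exact (pow_le_pow_iff_left₀ (norm_nonneg _) hc two_ne_zero).1 h2

lemma sec_meas (e : EuclideanSpace ℝ (Fin (n + 1)))
    (L : EuclideanSpace ℝ (Fin n) →ₗᵢ[ℝ] EuclideanSpace ℝ (Fin (n + 1)))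
    (C : Set (EuclideanSpace ℝ (Fin (n + 1)))) (hCc : IsCompact C) (t : ℝ)
    (q : EuclideanSpace ℝ (Fin n)) :
    MeasurableSet {y : EuclideanSpace ℝ (Fin n) | t • e + L y ∈ C ∧ ‖y - q‖ ≤ 1} := by
  have hLc : Continuous L := L.continuous
  have h1 : IsClosed {y : EuclideanSpace ℝ (Fin n) | t • e + L y ∈ C} :=
    hCc.isClosed.preimage (by fun_prop)
  have h2 : IsClosed {y : EuclideanSpace ℝ (Fin n) | ‖y - q‖ ≤ 1} :=
    isClosed_le (by fun_prop) continuous_const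
  exact (h1.inter h2).measurableSet

lemma half_decomp (e : EuclideanSpace ℝ (Fin (n + 1)))
    (L : EuclideanSpace ℝ (Fin n) →ₗᵢ[ℝ] EuclideanSpace ℝ (Fin (n + 1)))
    (t₁ t₂ : ℝ) (q₁ q₂ : EuclideanSpace ℝ (Fin n)) :
    ((t₁ + t₂) / 2) • e + L ((1 / 2 : ℝ) • (q₁ + q₂)) =
      (1 / 2 : ℝ) • ((t₁ • e + L q₁) + (t₂ • e + L q₂)) := by
  rw [map_smul, map_add]
  module

lemma comb_decomp (e : EuclideanSpace ℝ (Fin (n + 1)))
    (L : EuclideanSpace ℝ (Fin n) →ₗᵢ[ℝ] EuclideanSpace ℝ (Fin (n + 1)))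
    (s t₁ t₂ : ℝ) (q₁ q₂ : EuclideanSpace ℝ (Fin n)) :
    (1 - s) • (t₁ • e + L q₁) + s • (t₂ • e + L q₂) =
      ((1 - s) * t₁ + s * t₂) • e + L ((1 - s) • q₁ + s • q₂) := by
  rw [map_add, map_smul, map_smul]
  module

lemma sq_aux (β c : ℝ) (h1 : c ≤ 1 - β ^ 2 / 2) (h2 : -1 + β ^ 2 / 2 ≤ c) :
    β ^ 2 / 4 ≤ (1 - c) * (1 + c) := by
  rcases le_total 0 c with h | h
  · nlinarith [sq_nonneg β]
  · nlinarith [sq_nonneg β]

lemma comb_le (t x y c : ℝ) (ht0 : 0 ≤ t) (ht1 : t ≤ 1) (hx : x ≤ c) (hy : y ≤ c) :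
    (1 - t) * x + t * y ≤ c := by
  have h1 := mul_le_mul_of_nonneg_left hx (show 0 ≤ 1 - t by linarith)
  have h2 := mul_le_mul_of_nonneg_left hy ht0
  linarith

end QBAux

open QBAux

/-- `d = n + 1`, `ρ = R₃/√d` with `R₃` large, `R₁ = R₃`. `a' = ρ dir 0 a`, `b' = ρ dir 0 b`, `z' = ρ dir 0 z` lie
on the segments from `0` and are big (`big_mid` with `0`), and in `C`. `z₊ = (z' + b')/2`,
`z₋ = (z' + a')/2`. With `f₀ = dir 0 z`: `⟪e, f₀⟫ ≤ 1 - β²/2` and `≥ -1 + β²/2`, so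
`⟪e, z₊⟫ ≥ ρβ²/8`, `⟪e, z₋⟫ ≤ -ρβ²/8` (`δ' ≤ β²/8`). `m6c_far` (η₁ ↦ η₂, A₁) at `z₊ = tp e + L q₊` and `z₋`: heights
`tb₊ > 0 > tb₋` (`R₃ β²/8 > A₁`) with sections of `C` in the unit balls about `q₊`, `q₋` of volume
`≥ η₂ κ_n`. `(1-s) tb₋ + s tb₊ = 0`: `p = (1-s) q₋ + s q₊`, `m6c_pl`: last claim. `p* = (1-s*) q₋ + s* q₊` with
`(1-s*) z₋ + s* z₊ = L p*` (height `0`) is in `{y | L y ∈ C}`; `q± = P(z' + ..)/2`, `‖P a'‖, ‖P b'‖ ≤ δ' ρ`,
`‖P z'‖ ≥ ρ β/2`: `‖p - p*‖ ≤ ρ δ'`, `‖p*‖, ‖p‖ ≥ ρ β/8` for `δ' ≤ β/8`. `f = p*/‖p*‖`;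
`δ' ≤ δ₂ β/32`, `R₃ β/16 ≥ R₂`. -/
theorem third_section (η₁ : ℝ) (hη₁ : 0 < η₁) : ∃ η₂ : ℝ, 0 < η₂ ∧ ∀ β δ₂ R₂ : ℝ, 0 < β → 0 < δ₂ →
    ∃ δ' : ℝ, 0 < δ' ∧ ∃ R₁ : ℝ, ∀ n : ℕ, 1 ≤ n →
      ∀ (e : EuclideanSpace ℝ (Fin (n + 1))) (_ : ‖e‖ = 1)
        (L : EuclideanSpace ℝ (Fin n) →ₗᵢ[ℝ] EuclideanSpace ℝ (Fin (n + 1)))
        (_ : ∀ y, inner ℝ e (L y) = 0)
        (_ : MeasurePreserving
          (fun z : ℝ × EuclideanSpace ℝ (Fin n) => z.1 • e + L z.2) volume volume)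
        (_ : Function.Surjective (fun z : ℝ × EuclideanSpace ℝ (Fin n) => z.1 • e + L z.2))
        (C : Set (EuclideanSpace ℝ (Fin (n + 1)))) (_ : Convex ℝ C) (_ : IsCompact C),
        0 ∈ C → ∀ a ∈ C, ∀ b ∈ C, ∀ z ∈ C,
        R₁ ≤ √((n : ℝ) + 1) * ‖a‖ → R₁ ≤ √((n : ℝ) + 1) * ‖b‖ → R₁ ≤ √((n : ℝ) + 1) * ‖z‖ →
        ‖dir 0 b - e‖ ≤ δ' → ‖dir 0 a + e‖ ≤ δ' → β ≤ ‖dir 0 z - e‖ → β ≤ ‖dir 0 z + e‖ →
        η₁ * kap (n + 1) ≤ volume.real (C ∩ closedBall 0 1) →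
        η₁ * kap (n + 1) ≤ volume.real (C ∩ closedBall a 1) →
        η₁ * kap (n + 1) ≤ volume.real (C ∩ closedBall b 1) →
        η₁ * kap (n + 1) ≤ volume.real (C ∩ closedBall z 1) →
        ∃ f p : EuclideanSpace ℝ (Fin n), ‖f‖ = 1 ∧
          (∀ t : ℝ, 0 ≤ t → √(n : ℝ) * t ≤ R₂ → L (t • f) ∈ C) ∧
          R₂ ≤ √(n : ℝ) * ‖p‖ ∧ ‖p - ‖p‖ • f‖ ≤ δ₂ * ‖p‖ ∧
          η₂ * kap n ≤ volume.real ({y | L y ∈ C} ∩ closedBall p 1) := by
  obtain ⟨η₂, hη₂, A₁, hA₁, hfar⟩ := m6c_far η₁ hη₁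
  refine ⟨η₂, hη₂, ?_⟩
  intro β δ₂ R₂ hβ hδ₂
  obtain ⟨δ', hδ'0, hδ'1, hδ'2⟩ : ∃ δ' : ℝ, 0 < δ' ∧ δ' ≤ β / 4 ∧ δ' ≤ δ₂ * β / 16 :=
    ⟨min (β / 4) (δ₂ * β / 16), lt_min (by positivity) (by positivity), min_le_left _ _,
      min_le_right _ _⟩
  obtain ⟨R₃, hR₃0, hR₃1, hR₃2⟩ : ∃ R₃ : ℝ, 0 < R₃ ∧ A₁ < R₃ * β ^ 2 / 8 ∧ R₂ ≤ R₃ * β / 16 := by
    refine ⟨8 * (A₁ + 1) / β ^ 2 + 16 * |R₂| / β, by positivity, ?_, ?_⟩
    · have h1 : (8 * (A₁ + 1) / β ^ 2 + 16 * |R₂| / β) * β ^ 2 / 8 =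
          A₁ + 1 + 2 * |R₂| * β := by
        field_simp
        ring
      rw [h1]
      have : 0 ≤ 2 * |R₂| * β := by positivity
      linarith
    · have h1 : (8 * (A₁ + 1) / β ^ 2 + 16 * |R₂| / β) * β / 16 =
          (A₁ + 1) / (2 * β) + |R₂| := by
        field_simp
        ring
      rw [h1]
      have : 0 ≤ (A₁ + 1) / (2 * β) := by positivity
      have := le_abs_self R₂
      linarith
  refine ⟨δ', hδ'0, R₃, ?_⟩
  intro n hn e he L hL hmp hsurj C hconv hCc h0 a ha b hb z hz hRa hRb hRz hdb hda hz1 hz2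
    hv0 hva hvb hvz
  have hn0 : (0 : ℝ) < n := by exact_mod_cast hn
  have hd : (0 : ℝ) < (n : ℝ) + 1 := by positivity
  obtain ⟨σ, hσ⟩ : ∃ σ : ℝ, σ = √((n : ℝ) + 1) := ⟨_, rfl⟩
  have hσ0 : 0 < σ := by rw [hσ]; exact Real.sqrt_pos.2 hd
  have hκn : 0 < kap n := kap_pos n
  rw [← hσ] at hRa hRb hRz
  obtain ⟨ρ, hρ⟩ : ∃ ρ : ℝ, ρ = R₃ / σ := ⟨_, rfl⟩
  have hρ0 : 0 < ρ := by rw [hρ]; positivity
  have hσρ : σ * ρ = R₃ := by rw [hρ]; field_simp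
  have hle : ∀ u : EuclideanSpace ℝ (Fin (n + 1)), R₃ ≤ σ * ‖u‖ → ρ ≤ ‖u‖ := by
    intro u hu
    rw [hρ, div_le_iff₀ hσ0]
    linarith
  have hne : ∀ u : EuclideanSpace ℝ (Fin (n + 1)), R₃ ≤ σ * ‖u‖ → u ≠ 0 := by
    intro u hu h
    rw [h, norm_zero] at hu
    linarith
  obtain ⟨ha1, ha2⟩ := point C hconv hCc η₁ hη₁ h0 a ha ρ hρ0 (hle a hRa) hv0 hva
  obtain ⟨hb1, hb2⟩ := point C hconv hCc η₁ hη₁ h0 b hb ρ hρ0 (hle b hRb) hv0 hvb
  obtain ⟨hz3, hz4⟩ := point C hconv hCc η₁ hη₁ h0 z hz ρ hρ0 (hle z hRz) hv0 hvz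
  have hua := norm_dir a (hne a hRa)
  have hub := norm_dir b (hne b hRb)
  have huz := norm_dir z (hne z hRz)
  obtain ⟨ua, hua'⟩ : ∃ u, u = dir 0 a := ⟨_, rfl⟩
  obtain ⟨ub, hub'⟩ : ∃ u, u = dir 0 b := ⟨_, rfl⟩
  obtain ⟨uz, huz'⟩ : ∃ u, u = dir 0 z := ⟨_, rfl⟩
  rw [← hua'] at hua ha1 ha2 hda
  rw [← hub'] at hub hb1 hb2 hdb
  rw [← huz'] at huz hz3 hz4 hz1 hz2
  obtain ⟨⟨ta, qa⟩, hqa⟩ := hsurj (ρ • ua)
  obtain ⟨⟨tb, qb⟩, hqb⟩ := hsurj (ρ • ub)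
  obtain ⟨⟨tz, qz⟩, hqz⟩ := hsurj (ρ • uz)
  simp only at hqa hqb hqz
  -- heights
  have hta : ta = ρ * inner ℝ e ua := by
    have h1 := inner_decomp e he L hL ta qa
    rw [hqa, inner_smul_right] at h1
    exact h1.symm
  have htb : tb = ρ * inner ℝ e ub := by
    have h1 := inner_decomp e he L hL tb qb
    rw [hqb, inner_smul_right] at h1
    exact h1.symm
  have htz : tz = ρ * inner ℝ e uz := by
    have h1 := inner_decomp e he L hL tz qz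
    rw [hqz, inner_smul_right] at h1
    exact h1.symm
  have hsubsq : ∀ u : EuclideanSpace ℝ (Fin (n + 1)), ‖u‖ = 1 →
      inner ℝ e u = 1 - ‖u - e‖ ^ 2 / 2 := by
    intro u hu
    rw [norm_sub_sq_real, hu, he, real_inner_comm]
    ring
  have haddsq : ∀ u : EuclideanSpace ℝ (Fin (n + 1)), ‖u‖ = 1 →
      inner ℝ e u = -1 + ‖u + e‖ ^ 2 / 2 := by
    intro u hu
    rw [norm_add_sq_real, hu, he, real_inner_comm]
    ring
  have hδsq : δ' ^ 2 ≤ β ^ 2 / 16 := by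
    calc δ' ^ 2 ≤ (β / 4) ^ 2 := pow_le_pow_left₀ hδ'0.le hδ'1 2
      _ = β ^ 2 / 16 := by ring
  have ia : inner ℝ e ua ≤ -1 + β ^ 2 / 32 := by
    rw [haddsq ua hua]
    have := pow_le_pow_left₀ (norm_nonneg _) hda 2
    linarith
  have ib : 1 - β ^ 2 / 32 ≤ inner ℝ e ub := by
    rw [hsubsq ub hub]
    have := pow_le_pow_left₀ (norm_nonneg _) hdb 2
    linarith
  have iz1 : inner ℝ e uz ≤ 1 - β ^ 2 / 2 := by
    rw [hsubsq uz huz]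
    have := pow_le_pow_left₀ hβ.le hz1 2
    linarith
  have iz2 : -1 + β ^ 2 / 2 ≤ inner ℝ e uz := by
    rw [haddsq uz huz]
    have := pow_le_pow_left₀ hβ.le hz2 2
    linarith
  have hβ2 : 0 < β ^ 2 := by positivity
  -- the projections
  have hqa' : ‖qa‖ ≤ ρ * δ' := by
    refine norm_q_le e he L hL (ta + ρ) (ρ * δ') qa ?_
    have h1 : (ta + ρ) • e + L qa = ρ • (ua + e) := by
      rw [add_smul, smul_add, ← hqa]
      abel
    rw [h1, norm_smul, Real.norm_of_nonneg hρ0.le]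
    exact mul_le_mul_of_nonneg_left hda hρ0.le
  have hqb' : ‖qb‖ ≤ ρ * δ' := by
    refine norm_q_le e he L hL (tb - ρ) (ρ * δ') qb ?_
    have h1 : (tb - ρ) • e + L qb = ρ • (ub - e) := by
      rw [sub_smul, smul_sub, ← hqb]
      abel
    rw [h1, norm_smul, Real.norm_of_nonneg hρ0.le]
    exact mul_le_mul_of_nonneg_left hdb hρ0.le
  have hqz' : ρ * β / 2 ≤ ‖qz‖ := by
    have h1 := norm_decomp e he L hL tz qz
    rw [hqz, norm_smul, Real.norm_of_nonneg hρ0.le, huz, mul_one, htz] at h1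
    obtain ⟨c, hc⟩ : ∃ c : ℝ, c = inner ℝ e uz := ⟨_, rfl⟩
    rw [← hc] at h1 iz1 iz2
    have h2 : ‖qz‖ ^ 2 = ρ ^ 2 * ((1 - c) * (1 + c)) := by
      have : ρ ^ 2 * ((1 - c) * (1 + c)) = ρ ^ 2 - (ρ * c) ^ 2 := by ring
      rw [this]
      linarith
    have h3 : β ^ 2 / 4 ≤ (1 - c) * (1 + c) := sq_aux β c iz1 iz2
    have h4 : (ρ * β / 2) ^ 2 ≤ ‖qz‖ ^ 2 := by
      rw [h2]
      have := mul_le_mul_of_nonneg_left h3 (sq_nonneg ρ)
      calc (ρ * β / 2) ^ 2 = ρ ^ 2 * (β ^ 2 / 4) := by ring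
        _ ≤ _ := this
    exact (pow_le_pow_iff_left₀ (by positivity) (norm_nonneg _) two_ne_zero).1 h4
  -- the points z₊, z₋
  have hhalf : ∀ x y : EuclideanSpace ℝ (Fin (n + 1)),
      (1 - (1 / 2 : ℝ)) • x + (1 / 2 : ℝ) • y = (1 / 2 : ℝ) • (x + y) := by
    intro x y
    rw [smul_add]
    norm_num
  have hzp : ((tz + tb) / 2) • e + L ((1 / 2 : ℝ) • (qz + qb)) =
      (1 / 2 : ℝ) • (ρ • uz + ρ • ub) := by
    rw [half_decomp, hqz, hqb]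
  have hzm : ((tz + ta) / 2) • e + L ((1 / 2 : ℝ) • (qz + qa)) =
      (1 / 2 : ℝ) • (ρ • uz + ρ • ua) := by
    rw [half_decomp, hqz, hqa]
  obtain ⟨tp, htp⟩ : ∃ t, t = (tz + tb) / 2 := ⟨_, rfl⟩
  obtain ⟨tm, htm⟩ : ∃ t, t = (tz + ta) / 2 := ⟨_, rfl⟩
  obtain ⟨qp, hqp⟩ : ∃ q, q = (1 / 2 : ℝ) • (qz + qb) := ⟨_, rfl⟩
  obtain ⟨qm, hqm⟩ : ∃ q, q = (1 / 2 : ℝ) • (qz + qa) := ⟨_, rfl⟩
  rw [← htp, ← hqp] at hzp
  rw [← htm, ← hqm] at hzm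
  have hCp : tp • e + L qp ∈ C := by
    rw [hzp, ← hhalf]
    exact hconv hz3 hb1 (by norm_num) (by norm_num) (by norm_num)
  have hCm : tm • e + L qm ∈ C := by
    rw [hzm, ← hhalf]
    exact hconv hz3 ha1 (by norm_num) (by norm_num) (by norm_num)
  have hVp : η₁ * kap (n + 1) ≤ volume.real (C ∩ closedBall (tp • e + L qp) 1) := by
    rw [hzp, ← hhalf]
    exact big_mid C hconv hCc η₁ hη₁ _ _ hz4 hb2 (1 / 2) (by norm_num) (by norm_num)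
  have hVm : η₁ * kap (n + 1) ≤ volume.real (C ∩ closedBall (tm • e + L qm) 1) := by
    rw [hzm, ← hhalf]
    exact big_mid C hconv hCc η₁ hη₁ _ _ hz4 ha2 (1 / 2) (by norm_num) (by norm_num)
  have hp1 : ρ * β ^ 2 / 8 ≤ tp := by
    rw [htp, htz, htb]
    have : β ^ 2 / 4 ≤ inner ℝ e uz + inner ℝ e ub := by linarith
    have := mul_le_mul_of_nonneg_left this hρ0.le
    linarith
  have hm1 : tm ≤ -(ρ * β ^ 2 / 8) := by
    rw [htm, htz, hta]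
    have : inner ℝ e uz + inner ℝ e ua ≤ -(β ^ 2 / 4) := by linarith
    have := mul_le_mul_of_nonneg_left this hρ0.le
    linarith
  obtain ⟨bp, hbp1, hbp2⟩ := hfar n hn e he L hL hmp C hCc tp qp hVp
  obtain ⟨bm, hbm1, hbm2⟩ := hfar n hn e he L hL hmp C hCc tm qm hVm
  rw [← hσ] at hbp1 hbm1
  have hσρβ : σ * (ρ * β ^ 2 / 8) = R₃ * β ^ 2 / 8 := by
    rw [← hσρ]; ring
  have hbp0 : 0 < bp := by
    have h1 : σ * (tp - bp) ≤ A₁ := by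
      refine le_trans (mul_le_mul_of_nonneg_left ?_ hσ0.le) hbp1
      rw [abs_sub_comm]
      exact le_abs_self _
    have h2 : σ * (ρ * β ^ 2 / 8) ≤ σ * tp := mul_le_mul_of_nonneg_left hp1 hσ0.le
    have h3 : 0 < σ * bp := by
      have : σ * (tp - bp) = σ * tp - σ * bp := by ring
      linarith
    exact (mul_pos_iff_of_pos_left hσ0).1 h3
  have hbm0 : bm < 0 := by
    have h1 : σ * (bm - tm) ≤ A₁ :=
      le_trans (mul_le_mul_of_nonneg_left (le_abs_self _) hσ0.le) hbm1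
    have h2 : σ * tm ≤ σ * -(ρ * β ^ 2 / 8) := mul_le_mul_of_nonneg_left hm1 hσ0.le
    have h3 : 0 < σ * (-bm) := by
      have h4 : σ * (bm - tm) = -(σ * (-bm)) - σ * tm := by ring
      have h5 : σ * -(ρ * β ^ 2 / 8) = -(σ * (ρ * β ^ 2 / 8)) := by ring
      linarith
    have := (mul_pos_iff_of_pos_left hσ0).1 h3
    linarith
  -- the point p
  obtain ⟨s, hs⟩ : ∃ s : ℝ, s = -bm / (bp - bm) := ⟨_, rfl⟩
  have hs0 : 0 < s := by rw [hs]; exact div_pos (by linarith) (by linarith)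
  have hs1 : s < 1 := by rw [hs, div_lt_one (by linarith)]; linarith
  have hsb : (1 - s) * bm + s * bp = 0 := by
    rw [hs]
    have : bp - bm ≠ 0 := by
      have : 0 < bp - bm := by linarith
      exact this.ne'
    field_simp
    ring
  obtain ⟨p, hp⟩ : ∃ p, p = (1 - s) • qm + s • qp := ⟨_, rfl⟩
  -- the point p*
  have hβρ : 0 < ρ * β ^ 2 / 8 := by positivity
  have htp0 : 0 < tp := by linarith
  have htm0 : tm < 0 := by linarith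
  obtain ⟨s', hs'⟩ : ∃ s' : ℝ, s' = -tm / (tp - tm) := ⟨_, rfl⟩
  have hs'0 : 0 < s' := by rw [hs']; exact div_pos (by linarith) (by linarith)
  have hs'1 : s' < 1 := by rw [hs', div_lt_one (by linarith)]; linarith
  have hsb' : (1 - s') * tm + s' * tp = 0 := by
    rw [hs']
    have : tp - tm ≠ 0 := by
      have : 0 < tp - tm := by linarith
      exact this.ne'
    field_simp
    ring
  obtain ⟨p', hp'⟩ : ∃ p', p' = (1 - s') • qm + s' • qp := ⟨_, rfl⟩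
  have hp'C : L p' ∈ C := by
    have h1 := hconv hCm hCp (show 0 ≤ 1 - s' by linarith) hs'0.le (by ring)
    have h2 : (1 - s') • (tm • e + L qm) + s' • (tp • e + L qp) = L p' := by
      rw [comb_decomp, hsb', zero_smul, zero_add, hp']
    rwa [h2] at h1
  -- norms
  have hform : ∀ t : ℝ, (1 - t) • qm + t • qp =
      (1 / 2 : ℝ) • qz + (1 / 2 : ℝ) • ((1 - t) • qa + t • qb) := by
    intro t
    rw [hqm, hqp]
    module
  have hcomb : ∀ t : ℝ, 0 ≤ t → t ≤ 1 → ‖(1 - t) • qa + t • qb‖ ≤ ρ * δ' := by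
    intro t ht0 ht1
    refine (norm_add_le _ _).trans ?_
    rw [norm_smul, norm_smul, Real.norm_of_nonneg ht0, Real.norm_of_nonneg (by linarith)]
    exact comb_le t _ _ _ ht0 ht1 hqa' hqb'
  have hlow : ∀ t : ℝ, 0 ≤ t → t ≤ 1 → ρ * β / 8 ≤ ‖(1 - t) • qm + t • qp‖ := by
    intro t ht0 ht1
    rw [hform t]
    have h1 := norm_sub_norm_le ((1 / 2 : ℝ) • qz) (-((1 / 2 : ℝ) • ((1 - t) • qa + t • qb)))
    rw [sub_neg_eq_add, norm_neg, norm_smul, norm_smul, Real.norm_of_nonneg (by norm_num)] at h1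
    have h2 := hcomb t ht0 ht1
    have h3 : ρ * δ' ≤ ρ * (β / 4) := mul_le_mul_of_nonneg_left hδ'1 hρ0.le
    linarith
  have hpn : ρ * β / 8 ≤ ‖p‖ := by rw [hp]; exact hlow s hs0.le hs1.le
  have hpn' : ρ * β / 8 ≤ ‖p'‖ := by rw [hp']; exact hlow s' hs'0.le hs'1.le
  have hρβ : 0 < ρ * β / 8 := by positivity
  have hpos' : 0 < ‖p'‖ := by linarith
  have hdiff : ‖p - p'‖ ≤ ρ * δ' := by
    rw [hp, hp', hform s, hform s']
    have h1 : (1 / 2 : ℝ) • qz + (1 / 2 : ℝ) • ((1 - s) • qa + s • qb) -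
        ((1 / 2 : ℝ) • qz + (1 / 2 : ℝ) • ((1 - s') • qa + s' • qb)) =
        (1 / 2 : ℝ) • (((1 - s) • qa + s • qb) - ((1 - s') • qa + s' • qb)) := by
      module
    rw [h1, norm_smul, Real.norm_of_nonneg (by norm_num)]
    have h2 := norm_sub_le ((1 - s) • qa + s • qb) ((1 - s') • qa + s' • qb)
    have h3 := hcomb s hs0.le hs1.le
    have h4 := hcomb s' hs'0.le hs'1.le
    linarith
  -- √n against σ
  have hsn : 0 < √(n : ℝ) := Real.sqrt_pos.2 hn0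
  have hσn : σ ≤ 2 * √(n : ℝ) := by
    rw [hσ]
    apply Real.sqrt_le_iff.2
    refine ⟨by positivity, ?_⟩
    rw [mul_pow, Real.sq_sqrt hn0.le]
    have : (1 : ℝ) ≤ n := by exact_mod_cast hn
    linarith
  have hbig : ∀ x : ℝ, ρ * β / 8 ≤ x → R₂ ≤ √(n : ℝ) * x := by
    intro x hx
    have h1 : √(n : ℝ) * (ρ * β / 8) ≤ √(n : ℝ) * x := mul_le_mul_of_nonneg_left hx hsn.le
    have h2 : σ / 2 * (ρ * β / 8) ≤ √(n : ℝ) * (ρ * β / 8) :=
      mul_le_mul_of_nonneg_right (by linarith) hρβ.le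
    have h3 : σ / 2 * (ρ * β / 8) = R₃ * β / 16 := by rw [← hσρ]; ring
    linarith
  refine ⟨(1 / ‖p'‖) • p', p, ?_, ?_, hbig _ hpn, ?_, ?_⟩
  · rw [norm_smul, Real.norm_of_nonneg (by positivity)]
    field_simp
  · intro t ht0 ht1
    have h1 := hbig _ hpn'
    have h2 : t ≤ ‖p'‖ := le_of_mul_le_mul_left (ht1.trans h1) hsn
    have h3 : L (t • (1 / ‖p'‖) • p') = (1 - t / ‖p'‖) • (0 : EuclideanSpace ℝ (Fin (n + 1))) +
        (t / ‖p'‖) • L p' := by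
      rw [smul_smul, map_smul, smul_zero, zero_add]
      congr 1
      ring
    rw [h3]
    have h4 : t / ‖p'‖ ≤ 1 := (div_le_one hpos').2 h2
    exact hconv h0 hp'C (by linarith) (by positivity) (by ring)
  · have h1 : p - ‖p‖ • (1 / ‖p'‖) • p' = (p - p') + ((‖p'‖ - ‖p‖) / ‖p'‖) • p' := by
      have h2 : (‖p'‖ - ‖p‖) / ‖p'‖ = 1 - ‖p‖ * (1 / ‖p'‖) := by field_simp
      rw [h2, smul_smul, sub_smul, one_smul]
      abel
    have h3 : ‖((‖p'‖ - ‖p‖) / ‖p'‖) • p'‖ ≤ ‖p - p'‖ := by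
      rw [norm_smul, norm_div, norm_norm, div_mul_cancel₀ _ hpos'.ne', Real.norm_eq_abs,
        abs_sub_comm]
      exact abs_norm_sub_norm_le p p'
    have h4 : ‖p - ‖p‖ • (1 / ‖p'‖) • p'‖ ≤ 2 * (ρ * δ') := by
      rw [h1]
      refine (norm_add_le _ _).trans ?_
      linarith
    refine h4.trans ?_
    have h5 : δ₂ * (ρ * β / 8) ≤ δ₂ * ‖p‖ := mul_le_mul_of_nonneg_left hpn hδ₂.le
    have h6 : ρ * δ' ≤ ρ * (δ₂ * β / 16) := mul_le_mul_of_nonneg_left hδ'2 hρ0.le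
    linarith
  · have hm3 : MeasurableSet ({y | L y ∈ C} ∩ closedBall p 1) := by
      have hLc : Continuous L := L.continuous
      have h1 : IsClosed {y : EuclideanSpace ℝ (Fin n) | L y ∈ C} :=
        hCc.isClosed.preimage hLc
      exact (h1.inter isClosed_closedBall).measurableSet
    have hfin : volume ({y | L y ∈ C} ∩ closedBall p 1) ≠ ∞ :=
      ne_top_of_le_ne_top (measure_closedBall_lt_top (x := p) (r := 1)).ne
        (measure_mono inter_subset_right)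
    have h1 := m6c_pl s hs0 hs1 _ _ _ (sec_meas e L C hCc bm qm) (sec_meas e L C hCc bp qp)
      hm3 hfin (by
        rintro x ⟨hx1, hx2⟩ y ⟨hy1, hy2⟩
        refine ⟨?_, ?_⟩
        · show L ((1 - s) • x + s • y) ∈ C
          have h2 := hconv hx1 hy1 (show 0 ≤ 1 - s by linarith) hs0.le (by ring)
          have h3 : (1 - s) • (bm • e + L x) + s • (bp • e + L y) =
              L ((1 - s) • x + s • y) := by
            rw [comb_decomp, hsb, zero_smul, zero_add]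
          rwa [h3] at h2
        · rw [mem_closedBall, dist_eq_norm, hp]
          have h2 : (1 - s) • x + s • y - ((1 - s) • qm + s • qp) =
              (1 - s) • (x - qm) + s • (y - qp) := by
            module
          rw [h2]
          refine (norm_add_le _ _).trans ?_
          rw [norm_smul, norm_smul, Real.norm_of_nonneg hs0.le,
            Real.norm_of_nonneg (show 0 ≤ 1 - s by linarith)]
          exact comb_le s _ _ _ hs0.le hs1.le hx2 hy2)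
    refine le_trans ?_ h1
    have hpos : 0 < η₂ * kap n := by positivity
    have h2 : (η₂ * kap n) ^ (1 - s) * (η₂ * kap n) ^ s = η₂ * kap n := by
      rw [← Real.rpow_add hpos, sub_add_cancel, Real.rpow_one]
    calc η₂ * kap n = (η₂ * kap n) ^ (1 - s) * (η₂ * kap n) ^ s := h2.symm
      _ ≤ _ := mul_le_mul (Real.rpow_le_rpow hpos.le hbm2 (by linarith))
          (Real.rpow_le_rpow hpos.le hbp2 hs0.le) (by positivity)
          (Real.rpow_nonneg measureReal_nonneg _)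

end SA70
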