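import Pool.Agent.SA70.M6b

/-! QD: bounds along rays, and the half of a shell. -/

set_option autoImplicit false

open MeasureTheory Measure Metric Set Module ENNReal

namespace SA70

open SC70

namespace QDAux

/-- the integral of a constant over a part of a ray -/
theorem ray_const {m : ℕ} (hm : 1 ≤ m) (T c : ℝ) (hT : 0 ≤ T) (hc : 0 ≤ c) :
    ∫⁻ r : ℝ in Ioi (0 : ℝ), ENNReal.ofReal (r ^ (m - 1)) *
      (Iic T).indicator (fun _ => ENNReal.ofReal c) r = ENNReal.ofReal (c * T ^ m / m) := by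
  have hm' : (0 : ℝ) < m := by exact_mod_cast hm
  have h1 : ∫⁻ r : ℝ in Ioi (0 : ℝ), ENNReal.ofReal (r ^ (m - 1)) *
      (Iic T).indicator (fun _ => ENNReal.ofReal c) r =
      ∫⁻ r : ℝ in Ioc (0 : ℝ) T, ENNReal.ofReal (c * r ^ (m - 1)) := by
    rw [← lintegral_indicator measurableSet_Ioi, ← lintegral_indicator measurableSet_Ioc]
    congr 1
    funext r
    by_cases h0 : 0 < r
    · by_cases h2 : r ≤ T
      · rw [indicator_of_mem (show r ∈ Ioi (0 : ℝ) from h0),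
          indicator_of_mem (show r ∈ Ioc (0 : ℝ) T from ⟨h0, h2⟩),
          indicator_of_mem (show r ∈ Iic T from h2), ENNReal.ofReal_mul hc, mul_comm]
      · rw [indicator_of_mem (show r ∈ Ioi (0 : ℝ) from h0),
          indicator_of_notMem (show r ∉ Ioc (0 : ℝ) T from fun h => h2 h.2),
          indicator_of_notMem (show r ∉ Iic T from h2), mul_zero]
    · rw [indicator_of_notMem (show r ∉ Ioi (0 : ℝ) from h0),
        indicator_of_notMem (show r ∉ Ioc (0 : ℝ) T from fun h => h0 h.1)]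
  rw [h1, ← ofReal_integral_eq_lintegral_ofReal]
  · rw [← intervalIntegral.integral_of_le hT, intervalIntegral.integral_const_mul, integral_pow]
    congr 1
    obtain ⟨k, rfl⟩ : ∃ k, m = k + 1 := ⟨m - 1, by omega⟩
    rw [Nat.add_sub_cancel]
    push_cast
    rw [zero_pow (by omega)]
    ring
  · exact ((by fun_prop : Continuous fun r : ℝ => c * r ^ (m - 1)).integrableOn_Icc).mono_set
      Ioc_subset_Icc_self
  · filter_upwards [ae_restrict_mem measurableSet_Ioc] with r hr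
    exact mul_nonneg hc (pow_nonneg hr.1.le _)

/-- the last point of a ray, and the shell on this ray -/
theorem ray_shell {m : ℕ} (hm : 1 ≤ m) (S : Set (EuclideanSpace ℝ (Fin m))) (hS : Convex ℝ S)
    (hSc : IsCompact S) (h0 : (0 : EuclideanSpace ℝ (Fin m)) ∈ S) (τ ρ₀ : ℝ) (hτ : 0 < τ)
    (g : ℝ → ℝ) (hg0 : ∀ r, 0 ≤ g r) (θ : EuclideanSpace ℝ (Fin m)) (hθ : ‖θ‖ = 1) :
    ∃ ρ : ℝ, 0 ≤ ρ ∧ (∀ r : ℝ, 0 ≤ r → (r • θ ∈ S ↔ r ≤ ρ)) ∧
      ∀ c₀ : ℝ, 0 ≤ c₀ → (∀ r, 0 < r → r ≤ ρ₀ → r ≤ ρ → ρ < (1 + τ) * r → r ^ m * g r ≤ c₀) →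
        ∫⁻ r : ℝ in Ioi (0 : ℝ), ENNReal.ofReal (r ^ (m - 1)) *
          {y | y ∈ S ∧ (1 + τ) • y ∉ S ∧ ‖y‖ ≤ ρ₀}.indicator
            (fun y => ENNReal.ofReal (g ‖y‖)) (r • θ) ≤ ENNReal.ofReal (τ * c₀) := by
  have hR : IsCompact {r : ℝ | r • θ ∈ S ∧ 0 ≤ r} := by
    obtain ⟨B, hB⟩ := hSc.isBounded.exists_norm_le
    have hcl : IsClosed {r : ℝ | r • θ ∈ S ∧ 0 ≤ r} := by
      apply IsClosed.inter
      · exact hSc.isClosed.preimage (by fun_prop : Continuous fun r : ℝ => r • θ)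
      · exact isClosed_Ici
    refine isCompact_Icc.of_isClosed_subset hcl (s := Icc (0 : ℝ) B) ?_
    rintro r ⟨h1, h2⟩
    refine ⟨h2, ?_⟩
    have h3 := hB _ h1
    rw [norm_smul, hθ, mul_one, Real.norm_eq_abs, abs_of_nonneg h2] at h3
    exact h3
  obtain ⟨ρ, ⟨hρK, hρ0⟩, hρ⟩ := hR.exists_isGreatest ⟨0, by simp [h0]⟩
  have hin : ∀ r : ℝ, 0 ≤ r → r ≤ ρ → r • θ ∈ S := by
    intro r hr hrρ
    rcases hρ0.eq_or_lt with h | h
    · have : r = 0 := by linarith
      rw [this, zero_smul]; exact h0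
    · have e : r • θ = (1 - r / ρ) • (0 : EuclideanSpace ℝ (Fin m)) + (r / ρ) • (ρ • θ) := by
        rw [smul_zero, zero_add, smul_smul, div_mul_cancel₀ _ h.ne']
      rw [e]
      refine hS h0 hρK ?_ (by positivity) (by ring)
      rw [sub_nonneg, div_le_one h]
      exact hrρ
  refine ⟨ρ, hρ0, fun r hr => ⟨fun h => hρ ⟨h, hr⟩, hin r hr⟩, ?_⟩
  intro c₀ hc₀ hbd
  have hmem : ∀ r : ℝ, 0 < r → r • θ ∈ {y | y ∈ S ∧ (1 + τ) • y ∉ S ∧ ‖y‖ ≤ ρ₀} →
      r ∈ Ioc (ρ / (1 + τ)) ρ ∧ r ≤ ρ₀ := by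
    rintro r hr ⟨h1, h2, h3⟩
    refine ⟨⟨?_, hρ ⟨h1, hr.le⟩⟩, ?_⟩
    · by_contra hcon
      push Not at hcon
      apply h2
      rw [smul_smul]
      refine hin _ (by positivity) ?_
      rw [le_div_iff₀ (by linarith)] at hcon
      linarith
    · rwa [norm_smul, hθ, mul_one, Real.norm_eq_abs, abs_of_pos hr] at h3
  rcases hρ0.eq_or_lt with hz | hρpos
  · rw [← hz] at hmem
    have h1 : ∀ r ∈ Ioi (0 : ℝ), ENNReal.ofReal (r ^ (m - 1)) *
      {y | y ∈ S ∧ (1 + τ) • y ∉ S ∧ ‖y‖ ≤ ρ₀}.indicator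
        (fun y => ENNReal.ofReal (g ‖y‖)) (r • θ) ≤ (fun _ => (0 : ℝ≥0∞)) r := by
      intro r hr
      by_cases hk : r • θ ∈ {y | y ∈ S ∧ (1 + τ) • y ∉ S ∧ ‖y‖ ≤ ρ₀}
      · have := (hmem r hr hk).1.2
        exact absurd this (not_le.2 hr)
      · rw [indicator_of_notMem hk, mul_zero]
    refine (setLIntegral_mono' measurableSet_Ioi h1).trans ?_
    simp
  obtain ⟨c, hc⟩ : ∃ c : ℝ, c = c₀ * ((1 + τ) / ρ) := ⟨_, rfl⟩
  have hc0 : 0 ≤ c := by rw [hc]; positivity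
  have h1 : ∀ r ∈ Ioi (0 : ℝ), ENNReal.ofReal (r ^ (m - 1)) *
      {y | y ∈ S ∧ (1 + τ) • y ∉ S ∧ ‖y‖ ≤ ρ₀}.indicator
        (fun y => ENNReal.ofReal (g ‖y‖)) (r • θ) ≤
      (Ioc (ρ / (1 + τ)) ρ).indicator (fun _ => ENNReal.ofReal c) r := by
    intro r hr
    have hr0 : 0 < r := hr
    by_cases hk : r • θ ∈ {y | y ∈ S ∧ (1 + τ) • y ∉ S ∧ ‖y‖ ≤ ρ₀}
    · obtain ⟨h2, h3⟩ := hmem r hr hk
      rw [indicator_of_mem hk, indicator_of_mem h2, ← ENNReal.ofReal_mul (by positivity)]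
      apply ENNReal.ofReal_le_ofReal
      rw [norm_smul, hθ, mul_one, Real.norm_eq_abs, abs_of_pos hr0]
      have h6 := h2.1
      rw [div_lt_iff₀ (by linarith)] at h6
      have h7 := hbd r hr0 h3 h2.2 (by linarith)
      have h4 : r ^ (m - 1) * g r = (r ^ m * g r) * (1 / r) := by
        obtain ⟨k, rfl⟩ : ∃ k, m = k + 1 := ⟨m - 1, by omega⟩
        rw [Nat.add_sub_cancel]
        field_simp
        ring
      have h5 : 1 / r ≤ (1 + τ) / ρ := by
        rw [div_le_div_iff₀ hr0 hρpos]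
        linarith
      rw [h4, hc]
      exact mul_le_mul h7 h5 (by positivity) hc₀
    · rw [indicator_of_notMem hk, mul_zero]
      exact zero_le
  calc _ ≤ ∫⁻ r : ℝ in Ioi (0 : ℝ),
        (Ioc (ρ / (1 + τ)) ρ).indicator (fun _ => ENNReal.ofReal c) r :=
        setLIntegral_mono' measurableSet_Ioi h1
    _ ≤ ∫⁻ r : ℝ, (Ioc (ρ / (1 + τ)) ρ).indicator (fun _ => ENNReal.ofReal c) r :=
        setLIntegral_le_lintegral _ _
    _ = ENNReal.ofReal c * ENNReal.ofReal (ρ - ρ / (1 + τ)) := by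
        rw [lintegral_indicator measurableSet_Ioc, setLIntegral_const, Real.volume_Ioc]
    _ = ENNReal.ofReal (τ * c₀) := by
        rw [← ENNReal.ofReal_mul hc0]
        congr 1
        rw [hc]
        field_simp
        ring

theorem ball_ray {m : ℕ} (hm : 1 ≤ m) (c : ℝ) (hc : 0 ≤ c) (θ : EuclideanSpace ℝ (Fin m))
    (hθ : ‖θ‖ = 1) :
    ∫⁻ r : ℝ in Ioi (0 : ℝ), ENNReal.ofReal (r ^ (m - 1)) *
      (closedBall (0 : EuclideanSpace ℝ (Fin m)) 1).indicator (fun _ => ENNReal.ofReal c) (r • θ) =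
      ENNReal.ofReal (c / m) := by
  rw [show c / m = c * 1 ^ m / m by rw [one_pow, mul_one], ← ray_const hm 1 c zero_le_one hc]
  refine setLIntegral_congr_fun measurableSet_Ioi fun r hr => ?_
  have hr0 : 0 < r := hr
  have h1 : r • θ ∈ closedBall (0 : EuclideanSpace ℝ (Fin m)) 1 ↔ r ∈ Iic (1 : ℝ) := by
    rw [mem_closedBall_zero_iff, norm_smul, hθ, mul_one, Real.norm_eq_abs, abs_of_pos hr0, mem_Iic]
  by_cases h : r ∈ Iic (1 : ℝ)
  · rw [indicator_of_mem h, indicator_of_mem (h1.2 h)]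
  · rw [indicator_of_notMem h, indicator_of_notMem (fun h2 => h (h1.1 h2))]

theorem part_ray {m : ℕ} (hm : 1 ≤ m) (S : Set (EuclideanSpace ℝ (Fin m))) (c r₁ ρ : ℝ)
    (hc : 0 ≤ c) (hr₁ : 0 ≤ r₁) (hρ : 0 ≤ ρ) (θ : EuclideanSpace ℝ (Fin m)) (hθ : ‖θ‖ = 1)
    (hiff : ∀ r : ℝ, 0 ≤ r → (r • θ ∈ S ↔ r ≤ ρ)) :
    ∫⁻ r : ℝ in Ioi (0 : ℝ), ENNReal.ofReal (r ^ (m - 1)) *
      (S ∩ closedBall 0 r₁).indicator (fun _ => ENNReal.ofReal c) (r • θ) =
      ENNReal.ofReal (c * min ρ r₁ ^ m / m) := by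
  rw [← ray_const hm (min ρ r₁) c (le_min hρ hr₁) hc]
  refine setLIntegral_congr_fun measurableSet_Ioi fun r hr => ?_
  have hr0 : 0 < r := hr
  have h1 : r • θ ∈ S ∩ closedBall 0 r₁ ↔ r ∈ Iic (min ρ r₁) := by
    rw [mem_inter_iff, hiff r hr0.le, mem_closedBall_zero_iff, norm_smul, hθ, mul_one,
      Real.norm_eq_abs, abs_of_pos hr0, mem_Iic, le_min_iff]
  by_cases h : r ∈ Iic (min ρ r₁)
  · rw [indicator_of_mem h, indicator_of_mem (h1.2 h)]
  · rw [indicator_of_notMem h, indicator_of_notMem (fun h2 => h (h1.1 h2))]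

theorem shell_meas {m : ℕ} (S : Set (EuclideanSpace ℝ (Fin m))) (hSc : IsCompact S) (τ ρ₀ : ℝ) :
    MeasurableSet {y | y ∈ S ∧ (1 + τ) • y ∉ S ∧ ‖y‖ ≤ ρ₀} := by
  apply MeasurableSet.inter hSc.isClosed.measurableSet
  apply MeasurableSet.inter
  · exact ((hSc.isClosed.preimage (by fun_prop :
      Continuous fun z : EuclideanSpace ℝ (Fin m) => (1 + τ) • z)).measurableSet).compl
  · exact measurableSet_le measurable_norm measurable_const

theorem vol_ball {m : ℕ} :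
    volume (closedBall (0 : EuclideanSpace ℝ (Fin m)) 1) = ENNReal.ofReal (kap m) := by
  unfold kap
  rw [ofReal_measureReal (h := measure_closedBall_lt_top.ne)]

theorem vol_part {m : ℕ} (S : Set (EuclideanSpace ℝ (Fin m))) (r₁ : ℝ) :
    volume (S ∩ closedBall 0 r₁) = ENNReal.ofReal (volume.real (S ∩ closedBall 0 r₁)) := by
  rw [ofReal_measureReal (h := ((measure_mono inter_subset_right).trans_lt
    measure_closedBall_lt_top).ne)]

end QDAux

open QDAux

/-- As `cyl_bound` (`polar_le`, `m6b_ray`): along a ray `S` is `[0, ρ]`, the shell is `(ρ/(1+τ), ρ]`, and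
`∫ r^(m-1) g dr ≤ τ (P + μ min(ρ,r₁)^m)` (`1/r ≤ (1+τ)/ρ`), `= ∫ r^(m-1) τ m (P 1_{r≤1} + μ 1_{r ≤ min(ρ,r₁)}) dr`. -/
theorem ray_up {m : ℕ} (hm : 1 ≤ m) (S : Set (EuclideanSpace ℝ (Fin m))) (hS : Convex ℝ S)
    (hSc : IsCompact S) (h0 : (0 : EuclideanSpace ℝ (Fin m)) ∈ S) (τ ρ₀ r₁ P μ : ℝ) (hτ : 0 < τ)
    (hρ₀ : 0 ≤ ρ₀) (hr₁ : 0 ≤ r₁) (hP : 0 ≤ P) (hμ : 0 ≤ μ) (g : ℝ → ℝ) (hg : Continuous g)
    (hg0 : ∀ r, 0 ≤ g r) (H : ∀ r, 0 < r → r ≤ ρ₀ → r ^ m * g r ≤ P + μ * min r r₁ ^ m) :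
    ∫⁻ y in {y | y ∈ S ∧ (1 + τ) • y ∉ S ∧ ‖y‖ ≤ ρ₀}, ENNReal.ofReal (g ‖y‖) ≤
      ENNReal.ofReal (τ * m * (P * kap m + μ * volume.real (S ∩ closedBall 0 r₁))) := by
  have hm' : (0 : ℝ) < m := by exact_mod_cast hm
  have : Nonempty (Fin m) := ⟨⟨0, by omega⟩⟩
  have hSm := shell_meas S hSc τ ρ₀
  have hfm : Measurable (fun y : EuclideanSpace ℝ (Fin m) => ENNReal.ofReal (g ‖y‖)) := by
    fun_prop
  have hPm : MeasurableSet (S ∩ closedBall (0 : EuclideanSpace ℝ (Fin m)) r₁) :=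
    hSc.measurableSet.inter measurableSet_closedBall
  rw [← lintegral_indicator hSm]
  have hle : ∫⁻ y, {y | y ∈ S ∧ (1 + τ) • y ∉ S ∧ ‖y‖ ≤ ρ₀}.indicator
      (fun y => ENNReal.ofReal (g ‖y‖)) y ≤
      ∫⁻ y : EuclideanSpace ℝ (Fin m), ((closedBall (0 : EuclideanSpace ℝ (Fin m)) 1).indicator
        (fun _ => ENNReal.ofReal (τ * m * P)) y +
        (S ∩ closedBall 0 r₁).indicator (fun _ => ENNReal.ofReal (τ * m * μ)) y) := by
    apply polar_le volume _ _ (hfm.indicator hSm) ((measurable_const.indicator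
      measurableSet_closedBall).add (measurable_const.indicator hPm))
    intro θ hθ
    rw [finrank_euclideanSpace_fin]
    obtain ⟨ρ, hρ0, hiff, hbd⟩ := ray_shell hm S hS hSc h0 τ ρ₀ hτ g hg0 θ hθ
    have hmin0 : 0 ≤ min ρ r₁ := le_min hρ0 hr₁
    refine (hbd (P + μ * min ρ r₁ ^ m) (by positivity) ?_).trans (le_of_eq ?_)
    · intro r hr0 hr1 hr2 _
      refine (H r hr0 hr1).trans ?_
      have h1 : min r r₁ ^ m ≤ min ρ r₁ ^ m :=
        pow_le_pow_left₀ (le_min hr0.le hr₁) (min_le_min_right _ hr2) m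
      have := mul_le_mul_of_nonneg_left h1 hμ
      linarith
    · simp only [Pi.add_apply, mul_add]
      rw [lintegral_add_left]
      · rw [ball_ray hm _ (by positivity) θ hθ,
          part_ray hm S (τ * m * μ) r₁ ρ (by positivity) hr₁ hρ0 θ hθ hiff,
          ← ENNReal.ofReal_add (by positivity) (by positivity)]
        congr 1
        field_simp
      · refine Measurable.mul (by fun_prop) ?_
        exact (measurable_const.indicator measurableSet_closedBall).comp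
          (by fun_prop : Measurable fun r : ℝ => r • θ)
  refine hle.trans (le_of_eq ?_)
  rw [lintegral_add_left (measurable_const.indicator measurableSet_closedBall),
    lintegral_indicator measurableSet_closedBall, setLIntegral_const, lintegral_indicator hPm,
    setLIntegral_const, vol_ball, vol_part, ← ENNReal.ofReal_mul (by positivity),
    ← ENNReal.ofReal_mul (by positivity), ← ENNReal.ofReal_add]
  · congr 1
    ring
  · have := kap_nonneg m
    positivity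
  · positivity

/-- The same with a negative coefficient, written additively; on the shell `min(ρ,r₁) ≤ min((1+τ)r,r₁)`;
if the shell does not meet the ball of radius `ρ₀` use `hP`. -/
theorem ray_down {m : ℕ} (hm : 1 ≤ m) (S : Set (EuclideanSpace ℝ (Fin m))) (hS : Convex ℝ S)
    (hSc : IsCompact S) (h0 : (0 : EuclideanSpace ℝ (Fin m)) ∈ S) (τ ρ₀ r₁ P μ : ℝ) (hτ : 0 < τ)
    (hρ₀ : 0 ≤ ρ₀) (hr₁ : 0 ≤ r₁) (hP : μ * r₁ ^ m ≤ P) (hμ : 0 ≤ μ) (g : ℝ → ℝ)
    (hg : Continuous g) (hg0 : ∀ r, 0 ≤ g r)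
    (H : ∀ r, 0 < r → r ≤ ρ₀ → r ^ m * g r ≤ P - μ * min ((1 + τ) * r) r₁ ^ m) :
    (∫⁻ y in {y | y ∈ S ∧ (1 + τ) • y ∉ S ∧ ‖y‖ ≤ ρ₀}, ENNReal.ofReal (g ‖y‖)) +
        ENNReal.ofReal (τ * m * (μ * volume.real (S ∩ closedBall 0 r₁))) ≤
      ENNReal.ofReal (τ * m * (P * kap m)) := by
  have hm' : (0 : ℝ) < m := by exact_mod_cast hm
  have : Nonempty (Fin m) := ⟨⟨0, by omega⟩⟩
  have hSm := shell_meas S hSc τ ρ₀
  have hP0 : 0 ≤ P := le_trans (by positivity) hP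
  have hfm : Measurable (fun y : EuclideanSpace ℝ (Fin m) => ENNReal.ofReal (g ‖y‖)) := by
    fun_prop
  have hPm : MeasurableSet (S ∩ closedBall (0 : EuclideanSpace ℝ (Fin m)) r₁) :=
    hSc.measurableSet.inter measurableSet_closedBall
  rw [← lintegral_indicator hSm]
  have hle : ∫⁻ y, ({y | y ∈ S ∧ (1 + τ) • y ∉ S ∧ ‖y‖ ≤ ρ₀}.indicator
      (fun y => ENNReal.ofReal (g ‖y‖)) y +
        (S ∩ closedBall 0 r₁).indicator (fun _ => ENNReal.ofReal (τ * m * μ)) y) ≤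
      ∫⁻ y : EuclideanSpace ℝ (Fin m), (closedBall (0 : EuclideanSpace ℝ (Fin m)) 1).indicator
        (fun _ => ENNReal.ofReal (τ * m * P)) y := by
    apply polar_le volume _ _ ((hfm.indicator hSm).add (measurable_const.indicator hPm))
      (measurable_const.indicator measurableSet_closedBall)
    intro θ hθ
    rw [finrank_euclideanSpace_fin]
    obtain ⟨ρ, hρ0, hiff, hbd⟩ := ray_shell hm S hS hSc h0 τ ρ₀ hτ g hg0 θ hθ
    have hmin0 : 0 ≤ min ρ r₁ := le_min hρ0 hr₁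
    have hmin1 : min ρ r₁ ^ m ≤ r₁ ^ m := pow_le_pow_left₀ hmin0 (min_le_right _ _) m
    have hc0 : 0 ≤ P - μ * min ρ r₁ ^ m := by
      have := mul_le_mul_of_nonneg_left hmin1 hμ
      linarith
    have h2 := hbd (P - μ * min ρ r₁ ^ m) hc0 (by
      intro r hr0 hr1 _ hr3
      refine (H r hr0 hr1).trans ?_
      have h1 : min ρ r₁ ^ m ≤ min ((1 + τ) * r) r₁ ^ m :=
        pow_le_pow_left₀ hmin0 (min_le_min_right _ hr3.le) m
      have := mul_le_mul_of_nonneg_left h1 hμ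
      linarith)
    simp only [Pi.add_apply, mul_add]
    rw [lintegral_add_right]
    · rw [ball_ray hm _ (by positivity) θ hθ,
        part_ray hm S (τ * m * μ) r₁ ρ (by positivity) hr₁ hρ0 θ hθ hiff]
      refine (add_le_add_left h2 _).trans (le_of_eq ?_)
      rw [← ENNReal.ofReal_add (by positivity) (by positivity)]
      congr 1
      field_simp
      ring
    · refine Measurable.mul (by fun_prop) ?_
      exact (measurable_const.indicator hPm).comp (by fun_prop : Measurable fun r : ℝ => r • θ)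
  rw [lintegral_add_right _ (measurable_const.indicator hPm), lintegral_indicator hPm,
    setLIntegral_const, lintegral_indicator measurableSet_closedBall, setLIntegral_const,
    vol_ball, vol_part, ← ENNReal.ofReal_mul (by positivity),
    ← ENNReal.ofReal_mul (by positivity)] at hle
  have e1 : τ * m * (μ * volume.real (S ∩ closedBall 0 r₁)) =
      τ * m * μ * volume.real (S ∩ closedBall 0 r₁) := by ring
  have e2 : τ * m * (P * kap m) = τ * m * P * kap m := by ring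
  rw [e1, e2]
  exact hle

/-- `cyl_bound` for the directions with `⟪f, z⟫ < 0`: half of the ball. -/
theorem half_rays {m : ℕ} (K : Set (EuclideanSpace ℝ (Fin (m + 1)))) (hconv : Convex ℝ K)
    (hKc : IsCompact K) (h0 : (0 : EuclideanSpace ℝ (Fin (m + 1))) ∈ K)
    (f : EuclideanSpace ℝ (Fin (m + 1))) (hf : ‖f‖ = 1) (τ : ℝ) (hτ : 0 < τ) :
    ∫⁻ z in {z | z ∈ K ∧ (1 + τ) • z ∉ K ∧ inner ℝ f z < 0}, ENNReal.ofReal (2 * √(1 - ‖z‖ ^ 2)) ≤
      ENNReal.ofReal (Mn (m + 1) * τ * ((m : ℝ) + 1) * kap (m + 1)) := by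
  have hn' : (0 : ℝ) < (m : ℝ) + 1 := by positivity
  have hM : 0 ≤ Mn (m + 1) := by unfold Mn; positivity
  have hκ := kap_nonneg (m + 1)
  have hHm : MeasurableSet {z : EuclideanSpace ℝ (Fin (m + 1)) | inner ℝ f z < 0} :=
    measurableSet_lt (by fun_prop) measurable_const
  have hSm : MeasurableSet {z | z ∈ K ∧ (1 + τ) • z ∉ K ∧ inner ℝ f z < 0} := by
    apply MeasurableSet.inter hKc.isClosed.measurableSet
    apply MeasurableSet.inter
    · exact ((hKc.isClosed.preimage (by fun_prop :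
        Continuous fun z : EuclideanSpace ℝ (Fin (m + 1)) => (1 + τ) • z)).measurableSet).compl
    · exact hHm
  have hfm : Measurable (fun z : EuclideanSpace ℝ (Fin (m + 1)) =>
      ENNReal.ofReal (2 * √(1 - ‖z‖ ^ 2))) := by fun_prop
  have hBm : MeasurableSet (closedBall (0 : EuclideanSpace ℝ (Fin (m + 1))) 1 ∩
      {z | inner ℝ f z < 0}) := measurableSet_closedBall.inter hHm
  -- half of the ball
  have hhalf : 2 * volume (closedBall (0 : EuclideanSpace ℝ (Fin (m + 1))) 1 ∩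
      {z | inner ℝ f z < 0}) ≤ ENNReal.ofReal (kap (m + 1)) := by
    have h1 : volume (closedBall (0 : EuclideanSpace ℝ (Fin (m + 1))) 1 ∩
        {z | 0 < inner ℝ f z}) = volume (closedBall (0 : EuclideanSpace ℝ (Fin (m + 1))) 1 ∩
        {z | inner ℝ f z < 0}) := by
      rw [← Measure.measure_preimage_neg volume (closedBall (0 : EuclideanSpace ℝ (Fin (m + 1))) 1 ∩
        {z | inner ℝ f z < 0})]
      congr 1
      ext z
      simp
    rw [two_mul]
    nth_rewrite 1 [← h1]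
    rw [← vol_ball, ← measure_union _ hBm]
    · exact measure_mono (union_subset inter_subset_left inter_subset_left)
    · rw [Set.disjoint_left]
      rintro z ⟨_, h2⟩ ⟨_, h3⟩
      exact lt_asymm (show 0 < inner ℝ f z from h2) (show inner ℝ f z < 0 from h3)
  rw [← lintegral_indicator hSm]
  have hle : ∫⁻ z, {z | z ∈ K ∧ (1 + τ) • z ∉ K ∧ inner ℝ f z < 0}.indicator
      (fun z => ENNReal.ofReal (2 * √(1 - ‖z‖ ^ 2))) z ≤
      ∫⁻ z : EuclideanSpace ℝ (Fin (m + 1)), (closedBall (0 : EuclideanSpace ℝ (Fin (m + 1))) 1 ∩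
        {z | inner ℝ f z < 0}).indicator
        (fun _ => ENNReal.ofReal (2 * Mn (m + 1) * τ * ((m : ℝ) + 1))) z := by
    apply polar_le volume _ _ (hfm.indicator hSm) (measurable_const.indicator hBm)
    intro θ hθ
    rw [finrank_euclideanSpace_fin]
    by_cases hfθ : inner ℝ f θ < 0
    · have h1 : ∫⁻ r : ℝ in Ioi (0 : ℝ), ENNReal.ofReal (r ^ (m + 1 - 1)) *
          {z | z ∈ K ∧ (1 + τ) • z ∉ K ∧ inner ℝ f z < 0}.indicator
            (fun z => ENNReal.ofReal (2 * √(1 - ‖z‖ ^ 2))) (r • θ) ≤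
          ∫⁻ r : ℝ in Ioi (0 : ℝ), ENNReal.ofReal (r ^ (m + 1 - 1)) *
          {z | z ∈ K ∧ (1 + τ) • z ∉ K}.indicator
            (fun z => ENNReal.ofReal (2 * √(1 - ‖z‖ ^ 2))) (r • θ) := by
        refine lintegral_mono fun r => ?_
        refine mul_le_mul' le_rfl ?_
        have hsub : {z | z ∈ K ∧ (1 + τ) • z ∉ K ∧ inner ℝ f z < 0} ⊆
            {z | z ∈ K ∧ (1 + τ) • z ∉ K} := fun z hz => ⟨hz.1, hz.2.1⟩
        exact indicator_le_indicator_of_subset hsub (fun _ => zero_le) _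
      refine h1.trans ((m6b_ray (by omega) K hconv hKc h0 τ hτ θ hθ).trans (le_of_eq ?_))
      have h2 : ∫⁻ r : ℝ in Ioi (0 : ℝ), ENNReal.ofReal (r ^ (m + 1 - 1)) *
          (closedBall (0 : EuclideanSpace ℝ (Fin (m + 1))) 1 ∩
            {z | inner ℝ f z < 0}).indicator
            (fun _ => ENNReal.ofReal (2 * Mn (m + 1) * τ * ((m : ℝ) + 1))) (r • θ) =
          ∫⁻ r : ℝ in Ioi (0 : ℝ), ENNReal.ofReal (r ^ (m + 1 - 1)) *
          (closedBall (0 : EuclideanSpace ℝ (Fin (m + 1))) 1).indicator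
            (fun _ => ENNReal.ofReal (2 * Mn (m + 1) * τ * ((m : ℝ) + 1))) (r • θ) := by
        refine setLIntegral_congr_fun measurableSet_Ioi fun r hr => ?_
        have hr0 : 0 < r := hr
        have h3 : inner ℝ f (r • θ) < 0 := by
          rw [inner_smul_right]
          exact mul_neg_of_pos_of_neg hr0 hfθ
        by_cases h : r • θ ∈ closedBall (0 : EuclideanSpace ℝ (Fin (m + 1))) 1
        · rw [indicator_of_mem h, indicator_of_mem (show r • θ ∈
            closedBall (0 : EuclideanSpace ℝ (Fin (m + 1))) 1 ∩ {z | inner ℝ f z < 0} from ⟨h, h3⟩)]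
        · rw [indicator_of_notMem h, indicator_of_notMem (fun h4 => h h4.1)]
      rw [h2, ball_ray (by omega) _ (by positivity) θ hθ]
      congr 1
      push_cast
      field_simp
    · have h1 : ∀ r ∈ Ioi (0 : ℝ), ENNReal.ofReal (r ^ (m + 1 - 1)) *
          {z | z ∈ K ∧ (1 + τ) • z ∉ K ∧ inner ℝ f z < 0}.indicator
            (fun z => ENNReal.ofReal (2 * √(1 - ‖z‖ ^ 2))) (r • θ) ≤ (fun _ => (0 : ℝ≥0∞)) r := by
        intro r hr
        have hr0 : 0 < r := hr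
        rw [indicator_of_notMem, mul_zero]
        rintro ⟨-, -, h2⟩
        rw [inner_smul_right] at h2
        push Not at hfθ
        have := mul_nonneg hr0.le hfθ
        linarith
      refine (setLIntegral_mono' measurableSet_Ioi h1).trans ?_
      simp
  refine hle.trans ?_
  rw [lintegral_indicator hBm, setLIntegral_const]
  have e1 : ENNReal.ofReal (2 * Mn (m + 1) * τ * ((m : ℝ) + 1)) =
      ENNReal.ofReal (Mn (m + 1) * τ * ((m : ℝ) + 1)) * 2 := by
    rw [show (2 : ℝ≥0∞) = ENNReal.ofReal 2 by norm_num, ← ENNReal.ofReal_mul (by positivity)]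
    congr 1
    ring
  rw [e1, mul_assoc]
  refine (mul_le_mul' le_rfl hhalf).trans (le_of_eq ?_)
  rw [← ENNReal.ofReal_mul (by positivity)]

end SA70
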