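import Mathlib

/-! QE: numbers for the sections. -/

set_option autoImplicit false

open Real

namespace SA70

lemma qe_exp_half_lt : exp (-(1 / 2 : ℝ)) ≤ 0.60654 := by
  have h1 : exp (-(1 / 2 : ℝ)) * exp (-(1 / 2 : ℝ)) * exp 1 = 1 := by
    rw [← exp_add, ← exp_add]; norm_num
  have h2 := exp_one_gt_d9
  have h3 := exp_pos (-(1 / 2 : ℝ))
  by_contra hcon
  push Not at hcon
  have h4 : (0.60654 : ℝ) * 0.60654 < exp (-(1 / 2 : ℝ)) * exp (-(1 / 2 : ℝ)) := by nlinarith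
  nlinarith

lemma qe_exp_half_gt : 0.6065 ≤ exp (-(1 / 2 : ℝ)) := by
  have h1 : exp (-(1 / 2 : ℝ)) * exp (-(1 / 2 : ℝ)) * exp 1 = 1 := by
    rw [← exp_add, ← exp_add]; norm_num
  have h2 := exp_one_lt_d9
  have h3 := exp_pos (-(1 / 2 : ℝ))
  by_contra hcon
  push Not at hcon
  have h4 : exp (-(1 / 2 : ℝ)) * exp (-(1 / 2 : ℝ)) < (0.6065 : ℝ) * 0.6065 := by nlinarith
  have h5 : exp (-(1 / 2 : ℝ)) * exp (-(1 / 2 : ℝ)) * exp 1 < 0.6065 * 0.6065 * 2.7182818286 := by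
    have h6 := exp_pos (1 : ℝ)
    nlinarith [mul_pos h3 h3]
  norm_num at h5
  linarith

/-- `exp (-(9/8)) ≤ 0.3247` -/
lemma qe_exp_98 : exp (-(9 / 8 : ℝ)) ≤ 0.33 := by
  -- exp (-1) * exp (-1/8), exp (1/8) ≥ 9/8
  have h1 : exp (-(9 / 8 : ℝ)) * exp 1 * exp (1 / 8) = 1 := by
    rw [← exp_add, ← exp_add]; norm_num
  have h2 := exp_one_gt_d9
  have h3 := add_one_le_exp (1 / 8 : ℝ)
  have h4 := exp_pos (-(9 / 8 : ℝ))
  by_contra hcon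
  push Not at hcon
  have h5 : (3.058 : ℝ) ≤ exp 1 * exp (1 / 8) := by nlinarith
  have h6 : exp (-(9 / 8 : ℝ)) * (exp 1 * exp (1 / 8)) = 1 := by rw [← mul_assoc]; exact h1
  nlinarith

lemma qe_exp_two : exp (-2 : ℝ) ≤ 0.1354 := by
  have h1 : exp (-2 : ℝ) * (exp 1 * exp 1) = 1 := by
    rw [← exp_add, ← exp_add]; norm_num
  have h2 := exp_one_gt_d9
  have h4 := exp_pos (-2 : ℝ)
  by_contra hcon
  push Not at hcon
  have h5 : (7.389 : ℝ) ≤ exp 1 * exp 1 := by nlinarith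
  nlinarith

lemma qe_exp_two_gt : 0.1353 ≤ exp (-2 : ℝ) := by
  have h1 : exp (-2 : ℝ) * (exp 1 * exp 1) = 1 := by
    rw [← exp_add, ← exp_add]; norm_num
  have h2 := exp_one_lt_d9
  have h3 := exp_pos (1 : ℝ)
  have h4 := exp_pos (-2 : ℝ)
  by_contra hcon
  push Not at hcon
  have h5 : exp 1 * exp 1 ≤ (7.38906 : ℝ) := by nlinarith
  nlinarith

/-- the basic substitution -/
lemma qe_sub {m : ℕ} (hm : 1 ≤ m) (c r : ℝ) (hr0 : 0 < r) :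
    √(1 - c ^ 2 / m - r ^ 2) ≤ √(-(2 * (m * log r)) - c ^ 2) / √(m : ℝ) := by
  have hm0 : (0 : ℝ) < m := by exact_mod_cast hm
  rw [← sqrt_div' _ hm0.le]
  apply sqrt_le_sqrt
  have h1 : 1 + 2 * log r ≤ r ^ 2 := by
    have h2 := add_one_le_exp (2 * log r)
    have h3 : exp (2 * log r) = r ^ 2 := by
      rw [two_mul, exp_add, exp_log hr0]; ring
    rw [h3] at h2
    linarith
  have h4 : (-(2 * (m * log r)) - c ^ 2) / m = -(2 * log r) - c ^ 2 / m := by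
    field_simp
  rw [h4]
  linarith

lemma qe_pow {m : ℕ} (r : ℝ) (hr0 : 0 < r) : r ^ m = exp (m * log r) := by
  rw [← log_pow, exp_log (pow_pos hr0 m)]

/-- `x = r^m` in terms of `v` -/
lemma qe_x {m : ℕ} (c r : ℝ) (hr0 : 0 < r) (h : 0 ≤ -(2 * (m * log r)) - c ^ 2) :
    r ^ m = exp (-(c ^ 2 / 2)) * exp (-(√(-(2 * (m * log r)) - c ^ 2) ^ 2 / 2)) := by
  rw [sq_sqrt h, qe_pow r hr0, ← exp_add]
  congr 1
  ring

lemma qe_v (v : ℝ) : exp (-(v ^ 2 / 2)) * v ≤ exp (-(1 / 2)) := by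
  have h1 : v ≤ exp ((v ^ 2 - 1) / 2) := by
    have h2 := add_one_le_exp ((v ^ 2 - 1) / 2)
    nlinarith [sq_nonneg (v - 1)]
  calc exp (-(v ^ 2 / 2)) * v ≤ exp (-(v ^ 2 / 2)) * exp ((v ^ 2 - 1) / 2) :=
        mul_le_mul_of_nonneg_left h1 (exp_pos _).le
    _ = exp (-(1 / 2)) := by rw [← exp_add]; congr 1; ring

/-- `x v ≤ exp(-1/2) exp(-c²/2)` -/
lemma qe_xv {m : ℕ} (c r : ℝ) (hr0 : 0 < r) :
    r ^ m * √(-(2 * (m * log r)) - c ^ 2) ≤ exp (-(1 / 2)) * exp (-(c ^ 2 / 2)) := by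
  rcases le_total 0 (-(2 * (m * log r)) - c ^ 2) with h | h
  · rw [qe_x c r hr0 h]
    have h1 := qe_v (√(-(2 * (m * log r)) - c ^ 2))
    have h2 := exp_pos (-(c ^ 2 / 2))
    calc exp (-(c ^ 2 / 2)) * exp (-(√(-(2 * (m * log r)) - c ^ 2) ^ 2 / 2)) *
          √(-(2 * (m * log r)) - c ^ 2)
        = exp (-(c ^ 2 / 2)) * (exp (-(√(-(2 * (m * log r)) - c ^ 2) ^ 2 / 2)) *
          √(-(2 * (m * log r)) - c ^ 2)) := by ring
      _ ≤ exp (-(c ^ 2 / 2)) * exp (-(1 / 2)) := mul_le_mul_of_nonneg_left h1 h2.le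
      _ = _ := by ring
  · rw [sqrt_eq_zero_of_nonpos h, mul_zero]
    positivity

/-- `x = r^m`, `1 - r² ≤ -(2/m) log x`; `v² = -2 log x - a²`, `x = exp(-a²/2) exp(-v²/2)`:
the left side is at most `2 x v/√m`, and `v ≤ exp((v²-1)/2)`. -/
theorem num_std {m : ℕ} (hm : 1 ≤ m) (a r : ℝ) (hr0 : 0 < r) :
    r ^ m * (2 * √(1 - a ^ 2 / m - r ^ 2)) ≤
      2 * exp (-(1 / 2)) * exp (-(a ^ 2 / 2)) / √(m : ℝ) := by
  have hm0 : (0 : ℝ) < √(m : ℝ) := sqrt_pos.2 (by exact_mod_cast hm)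
  have h1 := qe_sub hm a r hr0
  have h2 := qe_xv (m := m) a r hr0
  have hx : 0 < r ^ m := pow_pos hr0 m
  calc r ^ m * (2 * √(1 - a ^ 2 / m - r ^ 2))
      ≤ r ^ m * (2 * (√(-(2 * (m * log r)) - a ^ 2) / √(m : ℝ))) := by gcongr
    _ = 2 * (r ^ m * √(-(2 * (m * log r)) - a ^ 2)) / √(m : ℝ) := by ring
    _ ≤ 2 * (exp (-(1 / 2)) * exp (-(a ^ 2 / 2))) / √(m : ℝ) := by gcongr
    _ = _ := by ring

/-- `exp(-(a+3/2)²/2) ≤ exp(-a²/2) exp(-9/8)` -/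
lemma qe_beta (a : ℝ) (ha : 0 ≤ a) :
    exp (-((a + 3 / 2) ^ 2 / 2)) ≤ exp (-(a ^ 2 / 2)) * exp (-(9 / 8)) := by
  rw [← exp_add]
  apply exp_le_exp.2
  nlinarith

/-- `β = exp(-(a+3/2)²/2) = r₁^m`. For `x ≥ β` as `num_std`. For `x < β`: `v² ≥ 9/4`,
`2 x v + 3(β - x) = exp(-a²/2)((2v-3) exp(-v²/2) + 3 exp(-(9/4+3a)/2)) ≤ exp(-a²/2)(exp(-2) + 3 exp(-9/8))`,
from `2v - 3 ≤ exp((v²-4)/2)`. -/
theorem num_up {m : ℕ} (hm : 1 ≤ m) (a r μ : ℝ) (ha : 0 ≤ a) (hr0 : 0 < r) (hμ0 : 0 ≤ μ)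
    (hμ : μ ≤ 3) :
    r ^ m * (2 * √(1 - a ^ 2 / m - r ^ 2)) ≤
      (2 * exp (-(1 / 2)) * exp (-(a ^ 2 / 2)) - μ * exp (-((a + 3 / 2) ^ 2 / 2))) / √(m : ℝ) +
        μ / √(m : ℝ) * min r (exp (-((a + 3 / 2) ^ 2 / (2 * m)))) ^ m := by
  have hmR : (0 : ℝ) < m := by exact_mod_cast hm
  have hm0 : (0 : ℝ) < √(m : ℝ) := sqrt_pos.2 hmR
  have hx : 0 < r ^ m := pow_pos hr0 m
  have hr1 : exp (-((a + 3 / 2) ^ 2 / (2 * m))) ^ m = exp (-((a + 3 / 2) ^ 2 / 2)) := by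
    rw [← exp_nat_mul]
    congr 1
    field_simp
  set β := exp (-((a + 3 / 2) ^ 2 / 2)) with hβ
  set v := √(-(2 * (m * log r)) - a ^ 2) with hv
  have hv0 : 0 ≤ v := sqrt_nonneg _
  have h1 : √(1 - a ^ 2 / m - r ^ 2) ≤ v / √(m : ℝ) := qe_sub hm a r hr0
  have h2 : r ^ m * v ≤ exp (-(1 / 2)) * exp (-(a ^ 2 / 2)) := qe_xv (m := m) a r hr0
  -- the main inequality
  have key : 2 * (r ^ m * v) ≤ 2 * exp (-(1 / 2)) * exp (-(a ^ 2 / 2)) - μ * β +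
      μ * min r (exp (-((a + 3 / 2) ^ 2 / (2 * m)))) ^ m := by
    rcases le_total (exp (-((a + 3 / 2) ^ 2 / (2 * m)))) r with hc | hc
    · rw [min_eq_right hc, hr1]
      linarith
    · rw [min_eq_left hc]
      have hxβ : r ^ m ≤ β := by
        rw [← hr1]
        exact pow_le_pow_left₀ hr0.le hc m
      have hlog : m * log r ≤ -((a + 3 / 2) ^ 2 / 2) := by
        have := hxβ
        rw [qe_pow r hr0, hβ] at this
        exact exp_le_exp.1 this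
      have hnn : 0 ≤ -(2 * (m * log r)) - a ^ 2 := by nlinarith
      have hxe := qe_x (m := m) a r hr0 hnn
      rw [← hv] at hxe
      have hE := exp_pos (-(a ^ 2 / 2))
      have hβ1 := qe_beta a ha
      rw [← hβ] at hβ1
      have h3 : exp (-(v ^ 2 / 2)) * (2 * v - 3) ≤ exp (-2) := by
        have h4 : 2 * v - 3 ≤ exp ((v ^ 2 - 4) / 2) := by
          have h5 := add_one_le_exp ((v ^ 2 - 4) / 2)
          nlinarith [sq_nonneg (v - 2)]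
        calc exp (-(v ^ 2 / 2)) * (2 * v - 3) ≤ exp (-(v ^ 2 / 2)) * exp ((v ^ 2 - 4) / 2) :=
              mul_le_mul_of_nonneg_left h4 (exp_pos _).le
          _ = exp (-2) := by rw [← exp_add]; congr 1; ring
      have h6 : r ^ m * (2 * v - 3) ≤ exp (-(a ^ 2 / 2)) * exp (-2) := by
        rw [hxe, mul_assoc]
        exact mul_le_mul_of_nonneg_left h3 hE.le
      have h7 : exp (-2 : ℝ) + 3 * exp (-(9 / 8)) ≤ 2 * exp (-(1 / 2)) := by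
        have e1 := qe_exp_two
        have e2 := qe_exp_98
        have e3 := qe_exp_half_gt
        linarith
      have h8 : exp (-(a ^ 2 / 2)) * (exp (-2 : ℝ) + 3 * exp (-(9 / 8))) ≤
          exp (-(a ^ 2 / 2)) * (2 * exp (-(1 / 2))) := mul_le_mul_of_nonneg_left h7 hE.le
      have h9 : μ * (β - r ^ m) ≤ 3 * (β - r ^ m) :=
        mul_le_mul_of_nonneg_right hμ (sub_nonneg.2 hxβ)
      nlinarith [h6, h8, h9, hβ1]
  calc r ^ m * (2 * √(1 - a ^ 2 / m - r ^ 2))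
      ≤ r ^ m * (2 * (v / √(m : ℝ))) := by gcongr
    _ = 2 * (r ^ m * v) / √(m : ℝ) := by ring
    _ ≤ (2 * exp (-(1 / 2)) * exp (-(a ^ 2 / 2)) - μ * β +
      μ * min r (exp (-((a + 3 / 2) ^ 2 / (2 * m)))) ^ m) / √(m : ℝ) := by gcongr
    _ = _ := by ring

theorem num_up_pos (a μ : ℝ) (ha : 0 ≤ a) (hμ : μ ≤ 3) :
    0 ≤ 2 * exp (-(1 / 2)) * exp (-(a ^ 2 / 2)) - μ * exp (-((a + 3 / 2) ^ 2 / 2)) := by
  have h1 := qe_beta a ha
  have h2 := exp_pos (-((a + 3 / 2) ^ 2 / 2))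
  have h3 := exp_pos (-(a ^ 2 / 2))
  have h4 : μ * exp (-((a + 3 / 2) ^ 2 / 2)) ≤ 3 * exp (-((a + 3 / 2) ^ 2 / 2)) :=
    mul_le_mul_of_nonneg_right hμ h2.le
  have h5 : 3 * exp (-(9 / 8)) ≤ 2 * exp (-(1 / 2)) := by
    have e2 := qe_exp_98
    have e3 := qe_exp_half_gt
    linarith
  have h6 : exp (-(a ^ 2 / 2)) * (3 * exp (-(9 / 8))) ≤
      exp (-(a ^ 2 / 2)) * (2 * exp (-(1 / 2))) := mul_le_mul_of_nonneg_left h5 h3.le
  nlinarith [h1, h4, h6]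

/-- `x ≤ β = exp(-b²/2)`, `v² = -2 log x - b²`, `2 v + 3 ≤ (18/5) exp(v²/2)`: the left side is at most
`((18/5) β - 3 x)/√m`, and `μ min((1+τ)r, r₁)^m ≤ μ (1+τ)^m x ≤ 3 x`. -/
theorem num_down {m : ℕ} (hm : 1 ≤ m) (b r μ τ : ℝ) (hr0 : 0 < r) (hr : r ^ 2 ≤ 1 - b ^ 2 / m)
    (hμ0 : 0 ≤ μ) (hτ : 0 < τ) (hμ : μ * (1 + τ) ^ m ≤ 3) :
    r ^ m * (2 * √(1 - b ^ 2 / m - r ^ 2)) ≤
      18 / 5 * exp (-(b ^ 2 / 2)) / √(m : ℝ) -
        μ / √(m : ℝ) * min ((1 + τ) * r) (exp (-(b ^ 2 / (2 * m)))) ^ m := by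
  have hmR : (0 : ℝ) < m := by exact_mod_cast hm
  have hm0 : (0 : ℝ) < √(m : ℝ) := sqrt_pos.2 hmR
  have hx : 0 < r ^ m := pow_pos hr0 m
  have hnn : 0 ≤ -(2 * (m * log r)) - b ^ 2 := by
    have h2 := add_one_le_exp (2 * log r)
    have h3 : exp (2 * log r) = r ^ 2 := by
      rw [two_mul, exp_add, exp_log hr0]; ring
    rw [h3] at h2
    have h4 : b ^ 2 / m ≤ -(2 * log r) := by linarith
    rw [div_le_iff₀ hmR] at h4
    linarith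
  set v := √(-(2 * (m * log r)) - b ^ 2) with hv
  have hv0 : 0 ≤ v := sqrt_nonneg _
  have h1 : √(1 - b ^ 2 / m - r ^ 2) ≤ v / √(m : ℝ) := qe_sub hm b r hr0
  have hxe := qe_x (m := m) b r hr0 hnn
  rw [← hv] at hxe
  have hE := exp_pos (-(b ^ 2 / 2))
  have h2 : (2 * v + 3) * exp (-(v ^ 2 / 2)) ≤ 18 / 5 := by
    have h3 : 2 * v + 3 ≤ 18 / 5 * exp (v ^ 2 / 2) := by
      have h4 := add_one_le_exp (v ^ 2 / 2)
      nlinarith [sq_nonneg (v - 5 / 9)]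
    calc (2 * v + 3) * exp (-(v ^ 2 / 2)) ≤ 18 / 5 * exp (v ^ 2 / 2) * exp (-(v ^ 2 / 2)) :=
          mul_le_mul_of_nonneg_right h3 (exp_pos _).le
      _ = 18 / 5 := by
          rw [mul_assoc, ← exp_add]
          norm_num
  have h5 : r ^ m * (2 * v + 3) ≤ 18 / 5 * exp (-(b ^ 2 / 2)) := by
    rw [hxe]
    calc exp (-(b ^ 2 / 2)) * exp (-(v ^ 2 / 2)) * (2 * v + 3)
        = exp (-(b ^ 2 / 2)) * ((2 * v + 3) * exp (-(v ^ 2 / 2))) := by ring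
      _ ≤ exp (-(b ^ 2 / 2)) * (18 / 5) := mul_le_mul_of_nonneg_left h2 hE.le
      _ = _ := by ring
  have h6 : μ * min ((1 + τ) * r) (exp (-(b ^ 2 / (2 * m)))) ^ m ≤ 3 * r ^ m := by
    have h7 : min ((1 + τ) * r) (exp (-(b ^ 2 / (2 * m)))) ^ m ≤ ((1 + τ) * r) ^ m :=
      pow_le_pow_left₀ (le_min (by positivity) (exp_pos _).le) (min_le_left _ _) m
    rw [mul_pow] at h7
    calc μ * min ((1 + τ) * r) (exp (-(b ^ 2 / (2 * m)))) ^ m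
        ≤ μ * ((1 + τ) ^ m * r ^ m) := mul_le_mul_of_nonneg_left h7 hμ0
      _ = μ * (1 + τ) ^ m * r ^ m := by ring
      _ ≤ 3 * r ^ m := mul_le_mul_of_nonneg_right hμ hx.le
  calc r ^ m * (2 * √(1 - b ^ 2 / m - r ^ 2))
      ≤ r ^ m * (2 * (v / √(m : ℝ))) := by gcongr
    _ = (2 * (r ^ m * v)) / √(m : ℝ) := by ring
    _ ≤ (18 / 5 * exp (-(b ^ 2 / 2)) -
        μ * min ((1 + τ) * r) (exp (-(b ^ 2 / (2 * m)))) ^ m) / √(m : ℝ) := by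
        gcongr
        linarith
    _ = _ := by ring

lemma qe_integral : (83 / 1000 : ℝ) ≤ ∫ b in (3 / 2 : ℝ)..2, exp (-(b ^ 2 / 2)) := by
  have hcont : Continuous (fun b : ℝ => exp (-(b ^ 2 / 2))) := by fun_prop
  have hii : ∀ x y : ℝ, IntervalIntegrable (fun b : ℝ => exp (-(b ^ 2 / 2)))
      MeasureTheory.volume x y := fun x y => hcont.intervalIntegrable x y
  rw [← intervalIntegral.integral_add_adjacent_intervals (hii (3 / 2) (7 / 4)) (hii (7 / 4) 2)]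
  have h1 : (1 / 4 : ℝ) * exp (-(49 / 32)) ≤ ∫ b in (3 / 2 : ℝ)..(7 / 4), exp (-(b ^ 2 / 2)) := by
    have h := intervalIntegral.integral_mono_on (a := (3 / 2 : ℝ)) (b := 7 / 4) (by norm_num)
      (f := fun _ => exp (-(49 / 32 : ℝ))) (g := fun b : ℝ => exp (-(b ^ 2 / 2)))
      (by simp) (hii _ _) (by
        intro x hx
        apply exp_le_exp.2
        nlinarith [hx.1, hx.2])
    rw [intervalIntegral.integral_const] at h
    norm_num at h ⊢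
    linarith
  have h2 : (1 / 4 : ℝ) * exp (-2) ≤ ∫ b in (7 / 4 : ℝ)..2, exp (-(b ^ 2 / 2)) := by
    have h := intervalIntegral.integral_mono_on (a := (7 / 4 : ℝ)) (b := 2) (by norm_num)
      (f := fun _ => exp (-2 : ℝ)) (g := fun b : ℝ => exp (-(b ^ 2 / 2)))
      (by simp) (hii _ _) (by
        intro x hx
        apply exp_le_exp.2
        nlinarith [hx.1, hx.2])
    rw [intervalIntegral.integral_const] at h
    norm_num at h ⊢
    linarith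
  have h3 : exp (-2 : ℝ) * (47 / 32) ≤ exp (-(49 / 32)) := by
    have h4 : exp (-(49 / 32 : ℝ)) = exp (-2) * exp (15 / 32) := by
      rw [← exp_add]; congr 1; norm_num
    rw [h4]
    have h5 := add_one_le_exp (15 / 32 : ℝ)
    exact mul_le_mul_of_nonneg_left (by linarith) (exp_pos _).le
  have h6 := qe_exp_two_gt
  linarith

/-- `∫_0^∞ exp(-a²/2) da = √(π/2)`; `∫_{3/2}^2 exp(-b²/2) db ≥ (exp(-49/32) + exp(-2))/4`. Values: the left side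
is about `0.24197 - 0.0085 = 0.2335`. -/
theorem num_total (c : ℝ) (hc0 : 0 ≤ c) (hc : c ≤ 603 / 1000) :
    1 / (2 * π) * (2 * exp (-(1 / 2)) * √(π / 2) -
      (2 * exp (-(1 / 2)) - c) * ∫ b in (3 / 2 : ℝ)..2, exp (-(b ^ 2 / 2))) ≤ 235 / 1000 := by
  have h1 := qe_exp_half_lt
  have h2 := qe_exp_half_gt
  have h3 := qe_integral
  have h4 : √(π / 2) ≤ 1.25332 := by
    rw [sqrt_le_left (by norm_num)]
    have := pi_lt_d6
    norm_num at this ⊢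
    linarith
  have h5 : (0 : ℝ) ≤ √(π / 2) := sqrt_nonneg _
  set I := ∫ b in (3 / 2 : ℝ)..2, exp (-(b ^ 2 / 2)) with hI
  have h6 : 2 * exp (-(1 / 2)) * √(π / 2) ≤ 2 * 0.60654 * 1.25332 := by
    have e0 := exp_pos (-(1 / 2 : ℝ))
    have e1 : exp (-(1 / 2 : ℝ)) * √(π / 2) ≤ 0.60654 * 1.25332 :=
      mul_le_mul h1 h4 h5 (by norm_num)
    linarith
  have h7 : (0.61 : ℝ) * (83 / 1000) ≤ (2 * exp (-(1 / 2)) - c) * I :=
    mul_le_mul (by norm_num at h2 hc ⊢; linarith) h3 (by norm_num) (by norm_num at h2 hc ⊢; linarith)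
  have hpi := pi_gt_d6
  rw [one_div, inv_mul_eq_div, div_le_iff₀ (by positivity)]
  norm_num at h6 h7 hpi ⊢
  linarith

end SA70
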