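import Pool.Agent.SA70.M6

/-! QF: one section of the shell of `K`. -/

set_option autoImplicit false

open MeasureTheory Measure Metric Set Module ENNReal

namespace SA70

open SC70

namespace QFAux

theorem gauss_tail {m : ℕ} (hm : 1 ≤ m) (s₀ : ℝ) (hs₀ : 0 < s₀) :
    ∫⁻ s in Ioi s₀, ENNReal.ofReal (Real.exp (-(m * s ^ 2 / 2))) ≤
      ENNReal.ofReal (Real.exp (-(m * s₀ ^ 2 / 2)) / (m * s₀)) := by
  have hm0 : (0 : ℝ) < m := by exact_mod_cast hm
  have hms : 0 < (m : ℝ) * s₀ := mul_pos hm0 hs₀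
  have ha : -((m : ℝ) * s₀) < 0 := by linarith
  calc ∫⁻ s in Ioi s₀, ENNReal.ofReal (Real.exp (-(m * s ^ 2 / 2)))
      ≤ ∫⁻ s in Ioi s₀, ENNReal.ofReal
          (Real.exp (m * s₀ ^ 2 / 2) * Real.exp (-((m : ℝ) * s₀) * s)) := by
        refine lintegral_mono fun s => ENNReal.ofReal_le_ofReal ?_
        rw [← Real.exp_add]
        exact Real.exp_le_exp.2 (by nlinarith [mul_nonneg hm0.le (sq_nonneg (s - s₀))])
    _ = ENNReal.ofReal (∫ s in Ioi s₀,
          Real.exp (m * s₀ ^ 2 / 2) * Real.exp (-((m : ℝ) * s₀) * s)) := by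
        rw [ofReal_integral_eq_lintegral_ofReal]
        · exact (integrableOn_exp_mul_Ioi ha s₀).const_mul _
        · exact Filter.Eventually.of_forall fun s => by positivity
    _ = ENNReal.ofReal (Real.exp (-(m * s₀ ^ 2 / 2)) / (m * s₀)) := by
        rw [integral_const_mul, integral_exp_mul_Ioi ha]
        congr 1
        have h1 : Real.exp (m * s₀ ^ 2 / 2) * Real.exp (-((m : ℝ) * s₀) * s₀) =
            Real.exp (-(m * s₀ ^ 2 / 2)) := by
          rw [← Real.exp_add]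
          congr 1
          ring
        rw [← h1]
        field_simp

theorem layer {m : ℕ} (S : Set (EuclideanSpace ℝ (Fin m))) (hS : MeasurableSet S) (q : ℝ) :
    ∫⁻ y in S, ENNReal.ofReal (2 * √(q - ‖y‖ ^ 2)) =
      2 * ∫⁻ s in Ioi (0 : ℝ),
        volume {y : EuclideanSpace ℝ (Fin m) | y ∈ S ∧ ‖y‖ ^ 2 ≤ q - s ^ 2} := by
  obtain ⟨D, hD⟩ : ∃ D : Set (ℝ × EuclideanSpace ℝ (Fin m)),
      D = {p | p.2 ∈ S ∧ (0 < p.1 ∧ p.1 ^ 2 + ‖p.2‖ ^ 2 ≤ q)} := ⟨_, rfl⟩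
  have hDm : MeasurableSet D := by
    rw [hD]
    exact (hS.preimage measurable_snd).inter
      ((measurableSet_lt (f := fun _ : ℝ × EuclideanSpace ℝ (Fin m) => (0 : ℝ))
        (g := fun p : ℝ × EuclideanSpace ℝ (Fin m) => p.1) measurable_const measurable_fst).inter
      (measurableSet_le (f := fun p : ℝ × EuclideanSpace ℝ (Fin m) => p.1 ^ 2 + ‖p.2‖ ^ 2)
        (Continuous.measurable (by fun_prop)) measurable_const))
  have h1 : (volume.prod volume) D = ∫⁻ s in Ioi (0 : ℝ),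
      volume {y : EuclideanSpace ℝ (Fin m) | y ∈ S ∧ ‖y‖ ^ 2 ≤ q - s ^ 2} := by
    rw [Measure.prod_apply hDm, ← lintegral_indicator measurableSet_Ioi]
    refine lintegral_congr fun s => ?_
    by_cases hs : s ∈ Ioi (0 : ℝ)
    · rw [indicator_of_mem hs]
      congr 1
      ext y
      rw [hD]
      constructor
      · rintro ⟨g1, g2, g3⟩
        have g4 : s ^ 2 + ‖y‖ ^ 2 ≤ q := g3
        exact ⟨g1, by linarith⟩
      · rintro ⟨g1, g2⟩
        exact ⟨g1, hs, by show s ^ 2 + ‖y‖ ^ 2 ≤ q; linarith⟩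
    · rw [indicator_of_notMem hs]
      have : Prod.mk s ⁻¹' D = ∅ := by
        ext y
        simp only [mem_preimage, mem_empty_iff_false, iff_false]
        intro hy
        rw [hD] at hy
        exact hs hy.2.1
      rw [this, measure_empty]
  have h2 : (volume.prod volume) D = ∫⁻ y in S, ENNReal.ofReal (√(q - ‖y‖ ^ 2)) := by
    rw [Measure.prod_apply_symm hDm, ← lintegral_indicator hS]
    refine lintegral_congr fun y => ?_
    by_cases hy : y ∈ S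
    · rw [indicator_of_mem hy]
      have : (fun s : ℝ => (s, y)) ⁻¹' D = Ioc 0 (√(q - ‖y‖ ^ 2)) := by
        ext s
        rw [hD]
        constructor
        · rintro ⟨_, g2, g3⟩
          have g4 : s ^ 2 + ‖y‖ ^ 2 ≤ q := g3
          exact ⟨g2, (Real.le_sqrt' g2).2 (by linarith)⟩
        · rintro ⟨g1, g2⟩
          have g3 := (Real.le_sqrt' g1).1 g2
          exact ⟨hy, g1, by show s ^ 2 + ‖y‖ ^ 2 ≤ q; linarith⟩
      rw [this, Real.volume_Ioc, sub_zero]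
    · rw [indicator_of_notMem hy]
      have : (fun s : ℝ => (s, y)) ⁻¹' D = ∅ := by
        ext s
        simp only [mem_preimage, mem_empty_iff_false, iff_false]
        intro hs
        rw [hD] at hs
        exact hy hs.1
      rw [this, measure_empty]
  rw [← h1, h2, ← lintegral_const_mul _ (by fun_prop)]
  refine lintegral_congr fun y => ?_
  rw [ENNReal.ofReal_mul zero_le_two, ENNReal.ofReal_ofNat]

/-- the dilated section -/
theorem sec_smul {n : ℕ} (C : Set (EuclideanSpace ℝ (Fin (n + 1))))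
    (e : EuclideanSpace ℝ (Fin (n + 1)))
    (L : EuclideanSpace ℝ (Fin n) →ₗᵢ[ℝ] EuclideanSpace ℝ (Fin (n + 1))) (τ t ρ : ℝ)
    (hτ : 0 < τ) :
    volume.real {z : EuclideanSpace ℝ (Fin n) | (1 + τ) • (t • e + L z) ∈ C ∧ ‖z‖ ≤ ρ} =
      ((1 + τ) ^ n)⁻¹ * sec C e L ((1 + τ) * t) ((1 + τ) * ρ) := by
  have h1 : (0 : ℝ) < 1 + τ := by linarith
  have e1 : {z : EuclideanSpace ℝ (Fin n) | (1 + τ) • (t • e + L z) ∈ C ∧ ‖z‖ ≤ ρ} =
      (fun z => (1 + τ) • z) ⁻¹'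
        {z | ((1 + τ) * t) • e + L z ∈ C ∧ ‖z‖ ≤ (1 + τ) * ρ} := by
    ext z
    simp only [Set.mem_ofPred_eq, Set.mem_preimage, map_smul, norm_smul,
      Real.norm_of_nonneg h1.le, smul_add, smul_smul]
    constructor
    · rintro ⟨h2, h3⟩
      exact ⟨h2, mul_le_mul_of_nonneg_left h3 h1.le⟩
    · rintro ⟨h2, h3⟩
      exact ⟨h2, le_of_mul_le_mul_left h3 h1⟩
  rw [e1, measureReal_def, addHaar_preimage_smul _ h1.ne', ENNReal.toReal_mul,
    ENNReal.toReal_ofReal (abs_nonneg _), finrank_euclideanSpace_fin,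
    abs_of_nonneg (by positivity)]
  rfl

/-- the section, dilated in its plane -/
theorem sec_smul2 {n : ℕ} (C : Set (EuclideanSpace ℝ (Fin (n + 1))))
    (e : EuclideanSpace ℝ (Fin (n + 1)))
    (L : EuclideanSpace ℝ (Fin n) →ₗᵢ[ℝ] EuclideanSpace ℝ (Fin (n + 1))) (τ t ρ : ℝ)
    (hτ : 0 < τ) :
    volume.real {z : EuclideanSpace ℝ (Fin n) | t • e + L ((1 + τ) • z) ∈ C ∧ ‖z‖ ≤ ρ} =
      ((1 + τ) ^ n)⁻¹ * sec C e L t ((1 + τ) * ρ) := by
  have h1 : (0 : ℝ) < 1 + τ := by linarith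
  have e1 : {z : EuclideanSpace ℝ (Fin n) | t • e + L ((1 + τ) • z) ∈ C ∧ ‖z‖ ≤ ρ} =
      (fun z => (1 + τ) • z) ⁻¹' {z | t • e + L z ∈ C ∧ ‖z‖ ≤ (1 + τ) * ρ} := by
    ext z
    simp only [Set.mem_ofPred_eq, Set.mem_preimage, norm_smul, Real.norm_of_nonneg h1.le]
    constructor
    · rintro ⟨h2, h3⟩
      exact ⟨h2, mul_le_mul_of_nonneg_left h3 h1.le⟩
    · rintro ⟨h2, h3⟩
      exact ⟨h2, le_of_mul_le_mul_left h3 h1⟩
  rw [e1, measureReal_def, addHaar_preimage_smul _ h1.ne', ENNReal.toReal_mul,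
    ENNReal.toReal_ofReal (abs_nonneg _), finrank_euclideanSpace_fin,
    abs_of_nonneg (by positivity)]
  rfl

theorem slice_one {m : ℕ} (K : Set (EuclideanSpace ℝ (Fin (m + 1))))
    (hconv : Convex ℝ K) (hKc : IsCompact K) (h0 : (0 : EuclideanSpace ℝ (Fin (m + 1))) ∈ K)
    (f : EuclideanSpace ℝ (Fin (m + 1)))
    (L : EuclideanSpace ℝ (Fin m) →ₗᵢ[ℝ] EuclideanSpace ℝ (Fin (m + 1)))
    (τ t ρ η : ℝ) (hτ : 0 < τ) (hη : 0 ≤ η)
    (H : sec K f L t ((1 + τ) * ρ) ≤ sec K f L ((1 + τ) * t) ((1 + τ) * ρ) + η) :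
    volume {y : EuclideanSpace ℝ (Fin m) |
        (t • f + L y ∈ K ∧ (1 + τ) • (t • f + L y) ∉ K) ∧ ‖y‖ ≤ ρ} ≤
      volume {y : EuclideanSpace ℝ (Fin m) |
        (t • f + L y ∈ K ∧ t • f + L ((1 + τ) • y) ∉ K) ∧ ‖y‖ ≤ ρ} + ENNReal.ofReal η := by
  have h1τ : (0 : ℝ) < 1 + τ := by linarith
  have hKm : MeasurableSet K := hKc.measurableSet
  have hfin : ∀ S : Set (EuclideanSpace ℝ (Fin m)), S ⊆ {z | ‖z‖ ≤ ρ} → volume S ≠ ⊤ := by
    intro S hS
    refine ((measure_mono (hS.trans ?_)).trans_lt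
      (isCompact_closedBall (0 : EuclideanSpace ℝ (Fin m)) ρ).measure_lt_top).ne
    intro z hz
    rw [mem_closedBall_zero_iff]
    exact hz
  have hLc : Continuous (fun z : EuclideanSpace ℝ (Fin m) => t • f + L z) := by
    have := L.continuous
    fun_prop
  have k1 : volume.real {y : EuclideanSpace ℝ (Fin m) |
        (t • f + L y ∈ K ∧ (1 + τ) • (t • f + L y) ∉ K) ∧ ‖y‖ ≤ ρ} =
      sec K f L t ρ - ((1 + τ) ^ m)⁻¹ * sec K f L ((1 + τ) * t) ((1 + τ) * ρ) := by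
    have hPm : MeasurableSet {z : EuclideanSpace ℝ (Fin m) |
        (1 + τ) • (t • f + L z) ∈ K ∧ ‖z‖ ≤ ρ} :=
      (hKm.preimage (hLc.const_smul (1 + τ)).measurable).inter
        (measurableSet_le measurable_norm measurable_const)
    have hsub : {z : EuclideanSpace ℝ (Fin m) | (1 + τ) • (t • f + L z) ∈ K ∧ ‖z‖ ≤ ρ} ⊆
        {z | t • f + L z ∈ K ∧ ‖z‖ ≤ ρ} := by
      rintro z ⟨hz1, hz2⟩
      refine ⟨?_, hz2⟩
      have h3 := hconv hz1 h0 (a := 1 / (1 + τ)) (b := τ / (1 + τ)) (by positivity)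
        (by positivity) (by field_simp)
      rw [smul_zero, add_zero, smul_smul, one_div, inv_mul_cancel₀ h1τ.ne', one_smul] at h3
      exact h3
    rw [← sec_smul K f L τ t ρ hτ]
    unfold sec
    rw [← measureReal_sdiff hsub hPm (hfin _ (fun z hz => hz.2))]
    congr 1
    ext z
    simp only [Set.mem_ofPred_eq, Set.mem_sdiff]
    tauto
  have k2 : sec K f L t ρ - ((1 + τ) ^ m)⁻¹ * sec K f L t ((1 + τ) * ρ) ≤
      volume.real {y : EuclideanSpace ℝ (Fin m) |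
        (t • f + L y ∈ K ∧ t • f + L ((1 + τ) • y) ∉ K) ∧ ‖y‖ ≤ ρ} := by
    rw [← sec_smul2 K f L τ t ρ hτ]
    have h2 : sec K f L t ρ ≤ volume.real ({y : EuclideanSpace ℝ (Fin m) |
        (t • f + L y ∈ K ∧ t • f + L ((1 + τ) • y) ∉ K) ∧ ‖y‖ ≤ ρ} ∪
        {z : EuclideanSpace ℝ (Fin m) | t • f + L ((1 + τ) • z) ∈ K ∧ ‖z‖ ≤ ρ}) := by
      unfold sec
      refine measureReal_mono ?_ (hfin _ ?_)
      · rintro z ⟨g1, g2⟩
        by_cases g3 : t • f + L ((1 + τ) • z) ∈ K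
        · exact Or.inr ⟨g3, g2⟩
        · exact Or.inl ⟨⟨g1, g3⟩, g2⟩
      · rintro z (⟨_, g2⟩ | ⟨_, g2⟩)
        · exact g2
        · exact g2
    have h3 := h2.trans (measureReal_union_le _ _)
    linarith
  have hc0 : 0 ≤ ((1 + τ) ^ m)⁻¹ := by positivity
  have hc1 : ((1 + τ) ^ m)⁻¹ ≤ 1 := inv_le_one_of_one_le₀ (one_le_pow₀ (by linarith))
  have h3 : volume.real {y : EuclideanSpace ℝ (Fin m) |
        (t • f + L y ∈ K ∧ (1 + τ) • (t • f + L y) ∉ K) ∧ ‖y‖ ≤ ρ} ≤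
      volume.real {y : EuclideanSpace ℝ (Fin m) |
        (t • f + L y ∈ K ∧ t • f + L ((1 + τ) • y) ∉ K) ∧ ‖y‖ ≤ ρ} + η := by
    rw [k1]
    have h4 := mul_le_mul_of_nonneg_left H hc0
    have h5 := mul_le_mul_of_nonneg_right hc1 hη
    rw [mul_add] at h4
    linarith
  have f1 := hfin {y : EuclideanSpace ℝ (Fin m) |
        (t • f + L y ∈ K ∧ (1 + τ) • (t • f + L y) ∉ K) ∧ ‖y‖ ≤ ρ} (fun z hz => hz.2)
  have f2 := hfin {y : EuclideanSpace ℝ (Fin m) |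
        (t • f + L y ∈ K ∧ t • f + L ((1 + τ) • y) ∉ K) ∧ ‖y‖ ≤ ρ} (fun z hz => hz.2)
  rw [measureReal_def, measureReal_def] at h3
  rw [← ENNReal.ofReal_toReal f1, ← ENNReal.ofReal_toReal f2,
    ← ENNReal.ofReal_add ENNReal.toReal_nonneg hη]
  exact ENNReal.ofReal_le_ofReal h3

theorem ball_bound {m : ℕ} (q s : ℝ) (hq : q ≤ 1) :
    volume {y : EuclideanSpace ℝ (Fin m) | ‖y‖ ^ 2 ≤ q - s ^ 2} ≤
      ENNReal.ofReal (Real.exp (-(m * s ^ 2 / 2))) * ENNReal.ofReal (kap m) := by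
  by_cases h : 0 ≤ q - s ^ 2
  · have h1 : {y : EuclideanSpace ℝ (Fin m) | ‖y‖ ^ 2 ≤ q - s ^ 2} ⊆
        closedBall 0 (√(q - s ^ 2)) := by
      intro y hy
      rw [mem_closedBall_zero_iff]
      exact Real.le_sqrt_of_sq_le hy
    refine (measure_mono h1).trans ?_
    rw [addHaar_closedBall' volume _ (Real.sqrt_nonneg _), ofReal_kap, finrank_euclideanSpace_fin]
    refine mul_le_mul' (ENNReal.ofReal_le_ofReal ?_) le_rfl
    have h2 : √(q - s ^ 2) ≤ Real.exp (-(s ^ 2 / 2)) := by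
      rw [Real.sqrt_le_left (Real.exp_pos _).le, ← Real.exp_nat_mul]
      have h3 := Real.add_one_le_exp (-s ^ 2)
      have h4 : ((2 : ℕ) : ℝ) * -(s ^ 2 / 2) = -s ^ 2 := by push_cast; ring
      rw [h4]
      linarith
    calc √(q - s ^ 2) ^ m ≤ Real.exp (-(s ^ 2 / 2)) ^ m :=
          pow_le_pow_left₀ (Real.sqrt_nonneg _) h2 m
      _ = Real.exp (-(m * s ^ 2 / 2)) := by
          rw [← Real.exp_nat_mul]
          congr 1
          ring
  · have h1 : {y : EuclideanSpace ℝ (Fin m) | ‖y‖ ^ 2 ≤ q - s ^ 2} = ∅ := by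
      ext y
      simp only [Set.mem_ofPred_eq, mem_empty_iff_false, iff_false, not_le]
      have := sq_nonneg ‖y‖
      linarith [not_le.1 h]
    rw [h1, measure_empty]
    exact bot_le

end QFAux

theorem slice_cyl {m : ℕ} (hm : 1 ≤ m) (K : Set (EuclideanSpace ℝ (Fin (m + 1))))
    (hconv : Convex ℝ K) (hKc : IsCompact K) (h0 : (0 : EuclideanSpace ℝ (Fin (m + 1))) ∈ K)
    (f : EuclideanSpace ℝ (Fin (m + 1)))
    (L : EuclideanSpace ℝ (Fin m) →ₗᵢ[ℝ] EuclideanSpace ℝ (Fin (m + 1)))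
    (τ t s₀ η : ℝ) (hτ : 0 < τ) (hs₀ : 0 < s₀) (ht : t ^ 2 + s₀ ^ 2 ≤ 1) (hη : 0 ≤ η)
    (H : ∀ ρ : ℝ, 0 ≤ ρ → ρ ≤ 1 → 1 - t ^ 2 - s₀ ^ 2 ≤ ρ ^ 2 →
      sec K f L t ((1 + τ) * ρ) ≤ sec K f L ((1 + τ) * t) ((1 + τ) * ρ) + η) :
    ∫⁻ y in {y : EuclideanSpace ℝ (Fin m) | t • f + L y ∈ K ∧ (1 + τ) • (t • f + L y) ∉ K},
        ENNReal.ofReal (2 * √(1 - t ^ 2 - ‖y‖ ^ 2)) ≤
      (∫⁻ y in {y : EuclideanSpace ℝ (Fin m) | t • f + L y ∈ K ∧ t • f + L ((1 + τ) • y) ∉ K},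
        ENNReal.ofReal (2 * √(1 - t ^ 2 - ‖y‖ ^ 2))) +
      ENNReal.ofReal (2 * s₀ * η + 2 * Real.exp (-(m * s₀ ^ 2 / 2)) / (m * s₀) * kap m) := by
  have hm0 : (0 : ℝ) < m := by exact_mod_cast hm
  have hKm : MeasurableSet K := hKc.measurableSet
  have hκ := kap_nonneg m
  have hLc : Continuous (fun z : EuclideanSpace ℝ (Fin m) => t • f + L z) := by
    have := L.continuous
    fun_prop
  have hLc2 : Continuous (fun z : EuclideanSpace ℝ (Fin m) => t • f + L ((1 + τ) • z)) :=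
    hLc.comp (continuous_const_smul (1 + τ))
  have hS1 : MeasurableSet {y : EuclideanSpace ℝ (Fin m) |
      t • f + L y ∈ K ∧ (1 + τ) • (t • f + L y) ∉ K} :=
    (hKm.preimage hLc.measurable).inter ((hKm.preimage (hLc.const_smul (1 + τ)).measurable).compl)
  have hS2 : MeasurableSet {y : EuclideanSpace ℝ (Fin m) |
      t • f + L y ∈ K ∧ t • f + L ((1 + τ) • y) ∉ K} :=
    (hKm.preimage hLc.measurable).inter ((hKm.preimage hLc2.measurable).compl)
  rw [QFAux.layer _ hS1 (1 - t ^ 2), QFAux.layer _ hS2 (1 - t ^ 2)]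
  have hq1 : 1 - t ^ 2 ≤ 1 := by linarith [sq_nonneg t]
  -- pointwise
  have hpt : ∀ s ∈ Ioi (0 : ℝ),
      volume {y : EuclideanSpace ℝ (Fin m) | y ∈ {y : EuclideanSpace ℝ (Fin m) |
        t • f + L y ∈ K ∧ (1 + τ) • (t • f + L y) ∉ K} ∧ ‖y‖ ^ 2 ≤ 1 - t ^ 2 - s ^ 2} ≤
      volume {y : EuclideanSpace ℝ (Fin m) | y ∈ {y : EuclideanSpace ℝ (Fin m) |
        t • f + L y ∈ K ∧ t • f + L ((1 + τ) • y) ∉ K} ∧ ‖y‖ ^ 2 ≤ 1 - t ^ 2 - s ^ 2} +
      ((Ioc 0 s₀).indicator (fun _ => ENNReal.ofReal η) s +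
        (Ioi s₀).indicator (fun s => ENNReal.ofReal (Real.exp (-(m * s ^ 2 / 2))) *
          ENNReal.ofReal (kap m)) s) := by
    intro s hs
    have hs0 : (0 : ℝ) < s := hs
    by_cases hss : s ≤ s₀
    · rw [indicator_of_mem (show s ∈ Ioc 0 s₀ from ⟨hs0, hss⟩),
        indicator_of_notMem (show s ∉ Ioi s₀ from not_lt.2 hss), add_zero]
      have hsq : s ^ 2 ≤ s₀ ^ 2 := pow_le_pow_left₀ hs0.le hss 2
      have hq0 : 0 ≤ 1 - t ^ 2 - s ^ 2 := by linarith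
      have hρ2 : √(1 - t ^ 2 - s ^ 2) ^ 2 = 1 - t ^ 2 - s ^ 2 := Real.sq_sqrt hq0
      have h1 := QFAux.slice_one K hconv hKc h0 f L τ t (√(1 - t ^ 2 - s ^ 2)) η hτ hη
        (H _ (Real.sqrt_nonneg _) (by
          rw [Real.sqrt_le_one]
          nlinarith [sq_nonneg t, sq_nonneg s]) (by rw [hρ2]; linarith))
      have h2 : ∀ y : EuclideanSpace ℝ (Fin m),
          ‖y‖ ≤ √(1 - t ^ 2 - s ^ 2) ↔ ‖y‖ ^ 2 ≤ 1 - t ^ 2 - s ^ 2 := fun y =>
        Real.le_sqrt (norm_nonneg y) hq0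
      simp only [h2] at h1
      exact h1
    · rw [not_le] at hss
      rw [indicator_of_notMem (show s ∉ Ioc 0 s₀ from fun h => absurd h.2 (not_le.2 hss)),
        indicator_of_mem (show s ∈ Ioi s₀ from hss), zero_add]
      refine le_trans ?_ le_add_self
      exact (measure_mono fun y hy => hy.2).trans (QFAux.ball_bound (1 - t ^ 2) s hq1)
  have hm2 : Measurable fun s : ℝ => ((Ioc 0 s₀).indicator (fun _ => ENNReal.ofReal η) s +
        (Ioi s₀).indicator (fun s => ENNReal.ofReal (Real.exp (-(m * s ^ 2 / 2))) *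
          ENNReal.ofReal (kap m)) s) :=
    (measurable_const.indicator measurableSet_Ioc).add
      (Measurable.indicator (by fun_prop) measurableSet_Ioi)
  have htail : ∫⁻ s in Ioi (0 : ℝ), ((Ioc 0 s₀).indicator (fun _ => ENNReal.ofReal η) s +
        (Ioi s₀).indicator (fun s => ENNReal.ofReal (Real.exp (-(m * s ^ 2 / 2))) *
          ENNReal.ofReal (kap m)) s) ≤
      ENNReal.ofReal (s₀ * η + Real.exp (-(m * s₀ ^ 2 / 2)) / (m * s₀) * kap m) := by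
    rw [lintegral_add_left (measurable_const.indicator measurableSet_Ioc),
      ENNReal.ofReal_add (by positivity) (by positivity)]
    refine add_le_add ?_ ?_
    · refine (setLIntegral_le_lintegral _ _).trans ?_
      rw [lintegral_indicator_const measurableSet_Ioc, Real.volume_Ioc, sub_zero,
        ← ENNReal.ofReal_mul hη, mul_comm]
    · refine (setLIntegral_le_lintegral _ _).trans ?_
      rw [lintegral_indicator measurableSet_Ioi, lintegral_mul_const _ (by fun_prop),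
        ENNReal.ofReal_mul (by positivity)]
      exact mul_le_mul' (QFAux.gauss_tail hm s₀ hs₀) le_rfl
  calc 2 * ∫⁻ s in Ioi (0 : ℝ), volume {y : EuclideanSpace ℝ (Fin m) |
        y ∈ {y : EuclideanSpace ℝ (Fin m) |
        t • f + L y ∈ K ∧ (1 + τ) • (t • f + L y) ∉ K} ∧ ‖y‖ ^ 2 ≤ 1 - t ^ 2 - s ^ 2}
      ≤ 2 * ∫⁻ s in Ioi (0 : ℝ), (volume {y : EuclideanSpace ℝ (Fin m) |
        y ∈ {y : EuclideanSpace ℝ (Fin m) |
        t • f + L y ∈ K ∧ t • f + L ((1 + τ) • y) ∉ K} ∧ ‖y‖ ^ 2 ≤ 1 - t ^ 2 - s ^ 2} +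
      ((Ioc 0 s₀).indicator (fun _ => ENNReal.ofReal η) s +
        (Ioi s₀).indicator (fun s => ENNReal.ofReal (Real.exp (-(m * s ^ 2 / 2))) *
          ENNReal.ofReal (kap m)) s)) :=
        mul_le_mul' le_rfl (setLIntegral_mono' measurableSet_Ioi hpt)
    _ ≤ 2 * ((∫⁻ s in Ioi (0 : ℝ), volume {y : EuclideanSpace ℝ (Fin m) |
        y ∈ {y : EuclideanSpace ℝ (Fin m) |
        t • f + L y ∈ K ∧ t • f + L ((1 + τ) • y) ∉ K} ∧ ‖y‖ ^ 2 ≤ 1 - t ^ 2 - s ^ 2}) +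
        ENNReal.ofReal (s₀ * η + Real.exp (-(m * s₀ ^ 2 / 2)) / (m * s₀) * kap m)) := by
        refine mul_le_mul' le_rfl ?_
        rw [lintegral_add_right _ hm2]
        exact add_le_add le_rfl htail
    _ = _ := by
        rw [mul_add]
        congr 1
        rw [← ENNReal.ofReal_ofNat 2, ← ENNReal.ofReal_mul (by norm_num)]
        congr 1
        ring

end SA70
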