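import Pool.Agent.SA70.QD
import Pool.Agent.SA70.QE

/-! QG: one section, two sections. -/

set_option autoImplicit false

open MeasureTheory Measure Metric Set Module ENNReal

namespace SA70

open SC70

/-- the integrand vanishes outside the ball of radius `ρ₀` -/
lemma qg_restrict {m : ℕ} (A : Set (EuclideanSpace ℝ (Fin m))) (q : ℝ) :
    ∫⁻ y in A, ENNReal.ofReal (2 * √(q - ‖y‖ ^ 2)) =
      ∫⁻ y in {y | y ∈ A ∧ ‖y‖ ≤ √q}, ENNReal.ofReal (2 * √(q - ‖y‖ ^ 2)) := by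
  have hB : MeasurableSet {y : EuclideanSpace ℝ (Fin m) | ‖y‖ ≤ √q} :=
    (isClosed_le continuous_norm continuous_const).measurableSet
  have h1 : (fun y : EuclideanSpace ℝ (Fin m) => ENNReal.ofReal (2 * √(q - ‖y‖ ^ 2))) =
      {y : EuclideanSpace ℝ (Fin m) | ‖y‖ ≤ √q}.indicator
        (fun y => ENNReal.ofReal (2 * √(q - ‖y‖ ^ 2))) := by
    funext y
    by_cases hy : ‖y‖ ≤ √q
    · rw [indicator_of_mem (show y ∈ {y : EuclideanSpace ℝ (Fin m) | ‖y‖ ≤ √q} from hy)]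
    · rw [indicator_of_notMem (show y ∉ {y : EuclideanSpace ℝ (Fin m) | ‖y‖ ≤ √q} from hy)]
      push Not at hy
      have h2 : q < ‖y‖ ^ 2 := by
        rcases le_total 0 q with hq | hq
        · calc q = √q ^ 2 := (Real.sq_sqrt hq).symm
            _ < ‖y‖ ^ 2 := pow_lt_pow_left₀ hy (Real.sqrt_nonneg _) (by norm_num)
        · rw [Real.sqrt_eq_zero_of_nonpos hq] at hy
          have : 0 < ‖y‖ ^ 2 := by positivity
          linarith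
      rw [Real.sqrt_eq_zero_of_nonpos (by linarith)]
      simp
  rw [show (∫⁻ y in A, ENNReal.ofReal (2 * √(q - ‖y‖ ^ 2))) =
    ∫⁻ y in A, {y : EuclideanSpace ℝ (Fin m) | ‖y‖ ≤ √q}.indicator
        (fun y => ENNReal.ofReal (2 * √(q - ‖y‖ ^ 2))) y by rw [← h1]]
  rw [lintegral_indicator hB, Measure.restrict_restrict hB]
  congr 2
  ext y
  simp [and_comm]

/-- `ray_up` with `μ = 0`, `g r = 2√(1 - a²/m - r²)`, `ρ₀ = √(1 - a²/m)`, `num_std`. -/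
theorem slice_std {m : ℕ} (hm : 1 ≤ m) (S : Set (EuclideanSpace ℝ (Fin m))) (hS : Convex ℝ S)
    (hSc : IsCompact S) (h0 : (0 : EuclideanSpace ℝ (Fin m)) ∈ S) (τ a : ℝ) (hτ : 0 < τ) :
    ∫⁻ y in {y | y ∈ S ∧ (1 + τ) • y ∉ S}, ENNReal.ofReal (2 * √(1 - a ^ 2 / m - ‖y‖ ^ 2)) ≤
      ENNReal.ofReal (τ * √(m : ℝ) * kap m *
        (2 * Real.exp (-(1 / 2)) * Real.exp (-(a ^ 2 / 2)))) := by
  have hm0 : (0 : ℝ) < √(m : ℝ) := Real.sqrt_pos.2 (by exact_mod_cast hm)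
  have hmm : √(m : ℝ) * √(m : ℝ) = m := Real.mul_self_sqrt (Nat.cast_nonneg m)
  rw [qg_restrict]
  have hset : {y | y ∈ {y | y ∈ S ∧ (1 + τ) • y ∉ S} ∧ ‖y‖ ≤ √(1 - a ^ 2 / m)} =
      {y | y ∈ S ∧ (1 + τ) • y ∉ S ∧ ‖y‖ ≤ √(1 - a ^ 2 / m)} := by
    ext y; simp [and_assoc]
  rw [hset]
  have h := ray_up hm S hS hSc h0 τ (√(1 - a ^ 2 / m)) 0
    (2 * Real.exp (-(1 / 2)) * Real.exp (-(a ^ 2 / 2)) / √(m : ℝ)) 0 hτ (Real.sqrt_nonneg _)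
    le_rfl (by positivity) le_rfl (fun r => 2 * √(1 - a ^ 2 / m - r ^ 2)) (by fun_prop)
    (fun r => by positivity) (by
      intro r hr0 _
      have := num_std hm a r hr0
      simpa using this)
  refine h.trans (ENNReal.ofReal_le_ofReal (le_of_eq ?_))
  rw [zero_mul, add_zero]
  have h2 : (m : ℝ) / √(m : ℝ) = √(m : ℝ) := by
    rw [div_eq_iff hm0.ne', hmm]
  calc τ * m * (2 * Real.exp (-(1 / 2)) * Real.exp (-(a ^ 2 / 2)) / √(m : ℝ) * kap m)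
      = τ * ((m : ℝ) / √(m : ℝ)) * kap m *
        (2 * Real.exp (-(1 / 2)) * Real.exp (-(a ^ 2 / 2))) := by ring
    _ = _ := by rw [h2]

/-- `ray_up` (`num_up`) for `S`, `ray_down` (`num_down`, `b = a + 3/2`) for `S'`, `r₁ = exp(-b²/(2m))`. -/
theorem slice_pair {m : ℕ} (hm : 1 ≤ m) (S S' : Set (EuclideanSpace ℝ (Fin m)))
    (hS : Convex ℝ S) (hSc : IsCompact S) (h0 : (0 : EuclideanSpace ℝ (Fin m)) ∈ S)
    (hS' : Convex ℝ S') (hSc' : IsCompact S') (h0' : (0 : EuclideanSpace ℝ (Fin m)) ∈ S')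
    (τ μ a η : ℝ) (hτ : 0 < τ) (ha : 0 ≤ a) (hμ0 : 0 ≤ μ) (hμ : μ * (1 + τ) ^ m ≤ 3) (hη : 0 ≤ η)
    (H : volume.real (S ∩ closedBall 0 (Real.exp (-((a + 3 / 2) ^ 2 / (2 * m))))) ≤
      volume.real (S' ∩ closedBall 0 (Real.exp (-((a + 3 / 2) ^ 2 / (2 * m))))) + η) :
    (∫⁻ y in {y | y ∈ S ∧ (1 + τ) • y ∉ S}, ENNReal.ofReal (2 * √(1 - a ^ 2 / m - ‖y‖ ^ 2))) +
      (∫⁻ y in {y | y ∈ S' ∧ (1 + τ) • y ∉ S'},
        ENNReal.ofReal (2 * √(1 - (a + 3 / 2) ^ 2 / m - ‖y‖ ^ 2))) ≤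
      ENNReal.ofReal (τ * √(m : ℝ) * (kap m * (2 * Real.exp (-(1 / 2)) * Real.exp (-(a ^ 2 / 2)) +
        (18 / 5 - μ) * Real.exp (-((a + 3 / 2) ^ 2 / 2))) + μ * η)) := by
  have hmR : (0 : ℝ) < m := by exact_mod_cast hm
  have hm0 : (0 : ℝ) < √(m : ℝ) := Real.sqrt_pos.2 hmR
  have hmm : √(m : ℝ) * √(m : ℝ) = m := Real.mul_self_sqrt (Nat.cast_nonneg m)
  have hκ : 0 ≤ kap m := measureReal_nonneg
  have hμ3 : μ ≤ 3 := by
    have h1 : (1 : ℝ) ≤ (1 + τ) ^ m := one_le_pow₀ (by linarith)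
    nlinarith
  obtain ⟨b, hb⟩ : ∃ b : ℝ, b = a + 3 / 2 := ⟨_, rfl⟩
  rw [← hb] at H ⊢
  obtain ⟨r₁, hr₁⟩ : ∃ r₁ : ℝ, r₁ = Real.exp (-(b ^ 2 / (2 * m))) := ⟨_, rfl⟩
  obtain ⟨β, hβ⟩ : ∃ β : ℝ, β = Real.exp (-(b ^ 2 / 2)) := ⟨_, rfl⟩
  obtain ⟨E, hE⟩ : ∃ E : ℝ, E = 2 * Real.exp (-(1 / 2)) * Real.exp (-(a ^ 2 / 2)) := ⟨_, rfl⟩
  rw [← hr₁] at H
  rw [← hβ, ← hE]
  have hβ0 : 0 < β := by rw [hβ]; exact Real.exp_pos _
  have hr₁0 : 0 ≤ r₁ := by rw [hr₁]; exact (Real.exp_pos _).le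
  have hr₁m : r₁ ^ m = β := by
    rw [hr₁, hβ, ← Real.exp_nat_mul]
    congr 1
    field_simp
  set VS := volume.real (S ∩ closedBall 0 r₁) with hVS
  set VS' := volume.real (S' ∩ closedBall 0 r₁) with hVS'
  have hVS0 : 0 ≤ VS' := measureReal_nonneg
  -- the first part
  have hP : 0 ≤ (E - μ * β) / √(m : ℝ) := by
    have h1 := num_up_pos a μ ha hμ3
    rw [← hb, ← hβ, ← hE] at h1
    positivity
  have h1 : ∫⁻ y in {y | y ∈ S ∧ (1 + τ) • y ∉ S}, ENNReal.ofReal (2 * √(1 - a ^ 2 / m - ‖y‖ ^ 2)) ≤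
      ENNReal.ofReal (τ * m * ((E - μ * β) / √(m : ℝ) * kap m + μ / √(m : ℝ) * VS)) := by
    rw [qg_restrict]
    have hset : {y | y ∈ {y | y ∈ S ∧ (1 + τ) • y ∉ S} ∧ ‖y‖ ≤ √(1 - a ^ 2 / m)} =
        {y | y ∈ S ∧ (1 + τ) • y ∉ S ∧ ‖y‖ ≤ √(1 - a ^ 2 / m)} := by
      ext y; simp [and_assoc]
    rw [hset]
    refine ray_up hm S hS hSc h0 τ (√(1 - a ^ 2 / m)) r₁ ((E - μ * β) / √(m : ℝ))
      (μ / √(m : ℝ)) hτ (Real.sqrt_nonneg _) hr₁0 hP (by positivity)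
      (fun r => 2 * √(1 - a ^ 2 / m - r ^ 2)) (by fun_prop) (fun r => by positivity) ?_
    intro r hr0 _
    have h2 := num_up hm a r μ ha hr0 hμ0 hμ3
    rw [← hb, ← hβ, ← hE, ← hr₁] at h2
    exact h2
  -- the second part
  have h2 : (∫⁻ y in {y | y ∈ S' ∧ (1 + τ) • y ∉ S'},
        ENNReal.ofReal (2 * √(1 - b ^ 2 / m - ‖y‖ ^ 2))) +
        ENNReal.ofReal (τ * m * (μ / √(m : ℝ) * VS')) ≤
      ENNReal.ofReal (τ * m * (18 / 5 * β / √(m : ℝ) * kap m)) := by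
    rw [qg_restrict]
    have hset : {y | y ∈ {y | y ∈ S' ∧ (1 + τ) • y ∉ S'} ∧ ‖y‖ ≤ √(1 - b ^ 2 / m)} =
        {y | y ∈ S' ∧ (1 + τ) • y ∉ S' ∧ ‖y‖ ≤ √(1 - b ^ 2 / m)} := by
      ext y; simp [and_assoc]
    rw [hset]
    refine ray_down hm S' hS' hSc' h0' τ (√(1 - b ^ 2 / m)) r₁ (18 / 5 * β / √(m : ℝ))
      (μ / √(m : ℝ)) hτ (Real.sqrt_nonneg _) hr₁0 ?_ (by positivity)
      (fun r => 2 * √(1 - b ^ 2 / m - r ^ 2)) (by fun_prop) (fun r => by positivity) ?_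
    · rw [hr₁m]
      calc μ / √(m : ℝ) * β = μ * β / √(m : ℝ) := by ring
        _ ≤ 18 / 5 * β / √(m : ℝ) := by gcongr; linarith
    · intro r hr0 hr
      have h3 : r ^ 2 ≤ 1 - b ^ 2 / m := by
        rcases le_total 0 (1 - b ^ 2 / (m : ℝ)) with hq | hq
        · calc r ^ 2 ≤ √(1 - b ^ 2 / m) ^ 2 := pow_le_pow_left₀ hr0.le hr 2
            _ = _ := Real.sq_sqrt hq
        · rw [Real.sqrt_eq_zero_of_nonpos hq] at hr
          linarith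
      have h4 := num_down hm b r μ τ hr0 h3 hμ0 hτ hμ
      rw [← hβ, ← hr₁] at h4
      exact h4
  -- together
  have h5 : ENNReal.ofReal (τ * m * ((E - μ * β) / √(m : ℝ) * kap m + μ / √(m : ℝ) * VS)) ≤
      ENNReal.ofReal (τ * m * ((E - μ * β) / √(m : ℝ) * kap m + μ / √(m : ℝ) * η)) +
        ENNReal.ofReal (τ * m * (μ / √(m : ℝ) * VS')) := by
    rw [← ENNReal.ofReal_add (by positivity) (by positivity)]
    apply ENNReal.ofReal_le_ofReal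
    have : μ / √(m : ℝ) * VS ≤ μ / √(m : ℝ) * (VS' + η) :=
      mul_le_mul_of_nonneg_left H (by positivity)
    have h6 : τ * m * ((E - μ * β) / √(m : ℝ) * kap m + μ / √(m : ℝ) * VS) ≤
        τ * m * ((E - μ * β) / √(m : ℝ) * kap m + μ / √(m : ℝ) * (VS' + η)) :=
      mul_le_mul_of_nonneg_left (by linarith) (by positivity)
    refine h6.trans (le_of_eq ?_)
    ring
  calc (∫⁻ y in {y | y ∈ S ∧ (1 + τ) • y ∉ S}, ENNReal.ofReal (2 * √(1 - a ^ 2 / m - ‖y‖ ^ 2))) +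
      (∫⁻ y in {y | y ∈ S' ∧ (1 + τ) • y ∉ S'},
        ENNReal.ofReal (2 * √(1 - b ^ 2 / m - ‖y‖ ^ 2)))
      ≤ (ENNReal.ofReal (τ * m * ((E - μ * β) / √(m : ℝ) * kap m + μ / √(m : ℝ) * η)) +
        ENNReal.ofReal (τ * m * (μ / √(m : ℝ) * VS'))) +
        (∫⁻ y in {y | y ∈ S' ∧ (1 + τ) • y ∉ S'},
        ENNReal.ofReal (2 * √(1 - b ^ 2 / m - ‖y‖ ^ 2))) := by gcongr; exact h1.trans h5
    _ = ENNReal.ofReal (τ * m * ((E - μ * β) / √(m : ℝ) * kap m + μ / √(m : ℝ) * η)) +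
        ((∫⁻ y in {y | y ∈ S' ∧ (1 + τ) • y ∉ S'},
        ENNReal.ofReal (2 * √(1 - b ^ 2 / m - ‖y‖ ^ 2))) +
        ENNReal.ofReal (τ * m * (μ / √(m : ℝ) * VS'))) := by
        rw [add_assoc]
        congr 1
        exact add_comm _ _
    _ ≤ ENNReal.ofReal (τ * m * ((E - μ * β) / √(m : ℝ) * kap m + μ / √(m : ℝ) * η)) +
        ENNReal.ofReal (τ * m * (18 / 5 * β / √(m : ℝ) * kap m)) := by gcongr
    _ = ENNReal.ofReal (τ * √(m : ℝ) * (kap m * (E + (18 / 5 - μ) * β) + μ * η)) := by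
        rw [← ENNReal.ofReal_add (by positivity) (by positivity)]
        congr 1
        have h7 : (m : ℝ) / √(m : ℝ) = √(m : ℝ) := by rw [div_eq_iff hm0.ne', hmm]
        calc τ * m * ((E - μ * β) / √(m : ℝ) * kap m + μ / √(m : ℝ) * η) +
            τ * m * (18 / 5 * β / √(m : ℝ) * kap m)
            = τ * ((m : ℝ) / √(m : ℝ)) * (kap m * (E + (18 / 5 - μ) * β) + μ * η) := by ring
          _ = _ := by rw [h7]

end SA70
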