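import Pool.Agent.SA70.QE

/-! QH, the one-dimensional part. -/

set_option autoImplicit false

open MeasureTheory Measure Metric Set Module ENNReal

namespace SA70

namespace QHline

/-- the Gaussian -/
noncomputable def E (a : ℝ) : ℝ := Real.exp (-(a ^ 2 / 2))

theorem E_cont : Continuous E := by unfold E; fun_prop

theorem E_nonneg (a : ℝ) : 0 ≤ E a := (Real.exp_pos _).le

theorem E_eq : E = fun a => Real.exp (-(1 / 2) * a ^ 2) := by
  ext a; unfold E; congr 1; ring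

theorem E_int : Integrable E := by
  rw [E_eq]; exact integrable_exp_neg_mul_sq (by norm_num)

theorem E_Ioi : ∫ a in Ioi (0 : ℝ), E a = √(Real.pi / 2) := by
  rw [E_eq, integral_gaussian_Ioi]
  rw [show Real.pi / (1 / 2) = 2 ^ 2 * (Real.pi / 2) by ring, Real.sqrt_mul (by norm_num),
    Real.sqrt_sq (by norm_num)]
  ring

theorem E_split : (∫ a in (0 : ℝ)..(1 / 2), E a) + (∫ a in (1 / 2 : ℝ)..(3 / 2), E a) +
    (∫ a in (3 / 2 : ℝ)..2, E a) + (∫ a in Ioi (2 : ℝ), E a) = √(Real.pi / 2) := by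
  have h : ∀ a b : ℝ, IntervalIntegrable E volume a b := fun a b =>
    E_cont.intervalIntegrable a b
  rw [intervalIntegral.integral_add_adjacent_intervals (h _ _) (h _ _),
    intervalIntegral.integral_add_adjacent_intervals (h _ _) (h _ _),
    intervalIntegral.integral_interval_add_Ioi E_int.integrableOn E_int.integrableOn, E_Ioi]

end QHline

open QHline

theorem mono_line {m : ℕ} (hm : 1 ≤ m) (J : ℝ → ENNReal) (t₀ B c ν : ℝ) (hB : 0 ≤ B)
    (hc0 : 0 ≤ c) (hc : c ≤ 603 / 1000) (hν : 0 ≤ ν) (ht₀ : 2 / √(m : ℝ) ≤ t₀)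
    (h1 : ∀ t, 0 ≤ t → t ≤ t₀ → J t ≤ ENNReal.ofReal (B * (2 * Real.exp (-(1 / 2)) *
      Real.exp (-((t * √(m : ℝ)) ^ 2 / 2)))))
    (h2 : ∀ t, 0 ≤ t → t ≤ 1 / 2 / √(m : ℝ) → J t + J (t + 3 / 2 / √(m : ℝ)) ≤
      ENNReal.ofReal (B * (2 * Real.exp (-(1 / 2)) * Real.exp (-((t * √(m : ℝ)) ^ 2 / 2)) +
        c * Real.exp (-((t * √(m : ℝ) + 3 / 2) ^ 2 / 2)) + ν))) :
    ∫⁻ t in Set.Icc 0 t₀, J t ≤
      ENNReal.ofReal (B / √(m : ℝ) * (2 * Real.pi * (235 / 1000) + ν / 2)) := by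
  obtain ⟨s, hs⟩ : ∃ s : ℝ, s = √(m : ℝ) := ⟨_, rfl⟩
  have hs0 : 0 < s := by
    rw [hs]; exact Real.sqrt_pos.mpr (by exact_mod_cast hm)
  rw [← hs] at ht₀ h1 h2 ⊢
  obtain ⟨K, hK⟩ : ∃ K : ℝ, K = 2 * Real.exp (-(1 / 2)) := ⟨_, rfl⟩
  have hK0 : 0 ≤ K := by rw [hK]; positivity
  have h1' : ∀ t, 0 ≤ t → t ≤ t₀ → J t ≤ ENNReal.ofReal (B * (K * E (t * s))) := by
    intro t ht ht'; rw [hK]; exact h1 t ht ht'
  have h2' : ∀ t, 0 ≤ t → t ≤ 1 / 2 / s → J t + J (t + 3 / 2 / s) ≤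
      ENNReal.ofReal (B * (K * E (t * s) + c * E (t * s + 3 / 2) + ν)) := by
    intro t ht ht'; rw [hK]; exact h2 t ht ht'
  -- the three kinds of pieces
  have hcov : Icc 0 t₀ ⊆ (Icc 0 (1 / 2 / s) ∪ Icc (3 / 2 / s) (2 / s)) ∪
      (Icc (1 / 2 / s) (3 / 2 / s) ∪ Ioc (2 / s) t₀) := by
    rintro t ⟨ht0, ht1⟩
    rcases le_or_gt t (1 / 2 / s) with h | h
    · exact Or.inl (Or.inl ⟨ht0, h⟩)
    rcases le_or_gt t (3 / 2 / s) with h' | h'
    · exact Or.inr (Or.inl ⟨h.le, h'⟩)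
    rcases le_or_gt t (2 / s) with h'' | h''
    · exact Or.inl (Or.inr ⟨h'.le, h''⟩)
    · exact Or.inr (Or.inr ⟨h'', ht1⟩)
  have hshift : ∫⁻ t in Icc (3 / 2 / s) (2 / s), J t =
      ∫⁻ t in Icc 0 (1 / 2 / s), J (t + 3 / 2 / s) := by
    rw [← lintegral_indicator measurableSet_Icc, ← lintegral_indicator measurableSet_Icc,
      ← lintegral_add_right_eq_self (fun t => (Icc (3 / 2 / s) (2 / s)).indicator J t)
        (3 / 2 / s)]
    congr 1
    ext t
    have e : (2 : ℝ) / s = 1 / 2 / s + 3 / 2 / s := by ring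
    by_cases ht : t ∈ Icc 0 (1 / 2 / s)
    · rw [indicator_of_mem ht, indicator_of_mem]
      exact ⟨by linarith [ht.1], by rw [e]; linarith [ht.2]⟩
    · rw [indicator_of_notMem ht, indicator_of_notMem]
      rintro ⟨g1, g2⟩
      rw [e] at g2
      exact ht ⟨by linarith, by linarith⟩
  -- real integrals
  have hG : ∀ f : ℝ → ℝ, Continuous f → (∀ t, 0 ≤ f t) → ∀ a b : ℝ, a ≤ b →
      ∫⁻ t in Icc a b, ENNReal.ofReal (f t) = ENNReal.ofReal (∫ t in a..b, f t) := by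
    intro f hf hf0 a b hab
    rw [intervalIntegral.integral_of_le hab, ← integral_Icc_eq_integral_Ioc]
    exact (ofReal_integral_eq_lintegral_ofReal (hf.integrableOn_Icc)
      (Filter.Eventually.of_forall hf0)).symm
  have hE := E_cont
  have hEn := E_nonneg
  have p1 : ∫⁻ t in (Icc 0 (1 / 2 / s) ∪ Icc (3 / 2 / s) (2 / s)), J t ≤
      ENNReal.ofReal (∫ t in (0 : ℝ)..(1 / 2 / s),
        B * (K * E (t * s) + c * E (t * s + 3 / 2) + ν)) := by
    refine (lintegral_union_le J _ _).trans ?_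
    rw [hshift]
    refine (le_lintegral_add _ _).trans ?_
    rw [← hG _ (by fun_prop) (fun t => by
      have := hEn (t * s); have := hEn (t * s + 3 / 2); positivity) _ _ (by positivity)]
    exact setLIntegral_mono' measurableSet_Icc fun t ht => h2' t ht.1 ht.2
  have p2 : ∫⁻ t in Icc (1 / 2 / s) (3 / 2 / s), J t ≤
      ENNReal.ofReal (∫ t in (1 / 2 / s)..(3 / 2 / s), B * (K * E (t * s))) := by
    have e : (1 : ℝ) / 2 / s ≤ 3 / 2 / s := by gcongr; norm_num
    rw [← hG _ (by fun_prop) (fun t => by have := hEn (t * s); positivity) _ _ e]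
    refine setLIntegral_mono' measurableSet_Icc fun t ht => h1' t ?_ ?_
    · exact le_trans (by positivity) ht.1
    · refine ht.2.trans (le_trans ?_ ht₀)
      gcongr; norm_num
  have p3 : ∫⁻ t in Ioc (2 / s) t₀, J t ≤
      ENNReal.ofReal (∫ t in Ioi (2 / s), B * (K * E (t * s))) := by
    have hint : Integrable (fun t => B * (K * E (t * s))) :=
      ((E_int.comp_mul_right' hs0.ne').const_mul K).const_mul B
    rw [ofReal_integral_eq_lintegral_ofReal hint.integrableOn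
      (Filter.Eventually.of_forall fun t => by have := hEn (t * s); positivity)]
    refine (setLIntegral_mono' measurableSet_Ioc fun t ht => h1' t
      (le_trans (by positivity) ht.1.le) ht.2).trans ?_
    exact lintegral_mono_set Ioc_subset_Ioi_self
  -- the values
  obtain ⟨I₁, hI₁⟩ : ∃ x : ℝ, x = ∫ a in (0 : ℝ)..(1 / 2), E a := ⟨_, rfl⟩
  obtain ⟨I₂, hI₂⟩ : ∃ x : ℝ, x = ∫ a in (1 / 2 : ℝ)..(3 / 2), E a := ⟨_, rfl⟩
  obtain ⟨I₃, hI₃⟩ : ∃ x : ℝ, x = ∫ a in (3 / 2 : ℝ)..2, E a := ⟨_, rfl⟩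
  obtain ⟨I₄, hI₄⟩ : ∃ x : ℝ, x = ∫ a in Ioi (2 : ℝ), E a := ⟨_, rfl⟩
  have hsum : I₁ + I₂ + I₃ + I₄ = √(Real.pi / 2) := by
    rw [hI₁, hI₂, hI₃, hI₄]; exact E_split
  have v1 : (∫ t in (0 : ℝ)..(1 / 2 / s), B * (K * E (t * s) + c * E (t * s + 3 / 2) + ν)) =
      s⁻¹ * (B * (K * I₁ + c * I₃ + ν / 2)) := by
    rw [intervalIntegral.integral_comp_mul_right
      (fun a => B * (K * E a + c * E (a + 3 / 2) + ν)) hs0.ne', smul_eq_mul, zero_mul,
      div_mul_cancel₀ _ hs0.ne', intervalIntegral.integral_const_mul,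
      intervalIntegral.integral_add ?_ (by simp), intervalIntegral.integral_add ?_ ?_,
      intervalIntegral.integral_const_mul, intervalIntegral.integral_const_mul,
      intervalIntegral.integral_comp_add_right (fun a => E a) (3 / 2)]
    · rw [intervalIntegral.integral_const, ← hI₁]
      have e1 : (0 : ℝ) + 3 / 2 = 3 / 2 := by norm_num
      have e2 : (1 : ℝ) / 2 + 3 / 2 = 2 := by norm_num
      rw [e1, e2, ← hI₃, smul_eq_mul]
      ring
    · exact Continuous.intervalIntegrable (by fun_prop) _ _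
    · exact Continuous.intervalIntegrable (by fun_prop) _ _
    · exact Continuous.intervalIntegrable (by fun_prop) _ _
  have v2 : (∫ t in (1 / 2 / s)..(3 / 2 / s), B * (K * E (t * s))) = s⁻¹ * (B * (K * I₂)) := by
    rw [intervalIntegral.integral_comp_mul_right (fun a => B * (K * E a)) hs0.ne', smul_eq_mul,
      div_mul_cancel₀ _ hs0.ne', div_mul_cancel₀ _ hs0.ne', intervalIntegral.integral_const_mul,
      intervalIntegral.integral_const_mul, ← hI₂]
  have v3 : (∫ t in Ioi (2 / s), B * (K * E (t * s))) = s⁻¹ * (B * (K * I₄)) := by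
    rw [integral_comp_mul_right_Ioi (fun a => B * (K * E a)) _ hs0, smul_eq_mul,
      div_mul_cancel₀ _ hs0.ne', integral_const_mul, integral_const_mul, ← hI₄]
  rw [v1] at p1
  rw [v2] at p2
  rw [v3] at p3
  have hI₁0 : 0 ≤ I₁ := by
    rw [hI₁]; exact intervalIntegral.integral_nonneg (by norm_num) fun a _ => hEn a
  have hI₂0 : 0 ≤ I₂ := by
    rw [hI₂]; exact intervalIntegral.integral_nonneg (by norm_num) fun a _ => hEn a
  have hI₃0 : 0 ≤ I₃ := by
    rw [hI₃]; exact intervalIntegral.integral_nonneg (by norm_num) fun a _ => hEn a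
  have hI₄0 : 0 ≤ I₄ := by
    rw [hI₄]; exact setIntegral_nonneg measurableSet_Ioi fun a _ => hEn a
  refine (lintegral_mono_set hcov).trans ((lintegral_union_le J _ _).trans ((add_le_add p1
    ((lintegral_union_le J _ _).trans (add_le_add p2 p3))).trans ?_))
  rw [← ENNReal.ofReal_add (by positivity) (by positivity),
    ← ENNReal.ofReal_add (by positivity) (by positivity)]
  apply ENNReal.ofReal_le_ofReal
  have hnum := num_total c hc0 hc
  have hnum' : 1 / (2 * Real.pi) * (K * √(Real.pi / 2) - (K - c) * I₃) ≤ 235 / 1000 := by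
    rw [hK, hI₃]; exact hnum
  have hpi := Real.pi_pos
  have hnum2 : K * √(Real.pi / 2) - (K - c) * I₃ ≤ 2 * Real.pi * (235 / 1000) := by
    rw [one_div, inv_mul_le_iff₀ (by positivity)] at hnum'
    exact hnum'
  rw [← hsum] at hnum2
  have e3 : s⁻¹ * (B * (K * I₁ + c * I₃ + ν / 2)) + (s⁻¹ * (B * (K * I₂)) +
      s⁻¹ * (B * (K * I₄))) = B / s * ((K * (I₁ + I₂ + I₃ + I₄) - (K - c) * I₃) + ν / 2) := by
    field_simp
    ring
  rw [e3]
  apply mul_le_mul_of_nonneg_left _ (by positivity)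
  linarith

end SA70
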