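import Pool.Agent.SA70.QF
import Pool.Agent.SA70.QG

/-! QHs: the sections in the proof of `mono_bound`. -/

set_option autoImplicit false

open MeasureTheory Measure Metric Set Module ENNReal

namespace SA70

open SC70

section

variable {m : ℕ}

/-- the integral over the shell of a section -/
noncomputable def secJ (K : Set (EuclideanSpace ℝ (Fin (m + 1))))
    (f : EuclideanSpace ℝ (Fin (m + 1)))
    (L : EuclideanSpace ℝ (Fin m) →ₗᵢ[ℝ] EuclideanSpace ℝ (Fin (m + 1))) (τ t : ℝ) : ℝ≥0∞ :=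
  ∫⁻ y in {y : EuclideanSpace ℝ (Fin m) | t • f + L y ∈ K ∧ t • f + L ((1 + τ) • y) ∉ K},
    ENNReal.ofReal (2 * √(1 - t ^ 2 - ‖y‖ ^ 2))

/-- the section -/
def secS (K : Set (EuclideanSpace ℝ (Fin (m + 1)))) (f : EuclideanSpace ℝ (Fin (m + 1)))
    (L : EuclideanSpace ℝ (Fin m) →ₗᵢ[ℝ] EuclideanSpace ℝ (Fin (m + 1))) (t : ℝ) :
    Set (EuclideanSpace ℝ (Fin m)) := {y | t • f + L y ∈ K}

lemma secS_convex (K : Set (EuclideanSpace ℝ (Fin (m + 1)))) (hK : Convex ℝ K)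
    (f : EuclideanSpace ℝ (Fin (m + 1)))
    (L : EuclideanSpace ℝ (Fin m) →ₗᵢ[ℝ] EuclideanSpace ℝ (Fin (m + 1))) (t : ℝ) :
    Convex ℝ (secS K f L t) := by
  intro x hx y hy a b ha hb hab
  have h := hK hx hy ha hb hab
  have e : a • (t • f + L x) + b • (t • f + L y) = t • f + L (a • x + b • y) := by
    calc a • (t • f + L x) + b • (t • f + L y) = (a + b) • (t • f) + (a • L x + b • L y) := by
          module
      _ = t • f + L (a • x + b • y) := by rw [hab, one_smul, map_add, map_smul, map_smul]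
  rw [e] at h
  exact h

lemma secS_compact (K : Set (EuclideanSpace ℝ (Fin (m + 1)))) (hKc : IsCompact K)
    (f : EuclideanSpace ℝ (Fin (m + 1)))
    (L : EuclideanSpace ℝ (Fin m) →ₗᵢ[ℝ] EuclideanSpace ℝ (Fin (m + 1))) (t : ℝ) :
    IsCompact (secS K f L t) := by
  have hiso : Isometry (fun y : EuclideanSpace ℝ (Fin m) => t • f + L y) := by
    apply Isometry.of_dist_eq
    intro x y
    rw [dist_add_left, L.dist_map]
  exact hiso.isClosedEmbedding.isCompact_preimage hKc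

lemma secJ_eq (K : Set (EuclideanSpace ℝ (Fin (m + 1))))
    (f : EuclideanSpace ℝ (Fin (m + 1)))
    (L : EuclideanSpace ℝ (Fin m) →ₗᵢ[ℝ] EuclideanSpace ℝ (Fin (m + 1))) (hm : 1 ≤ m)
    (τ t a : ℝ) (ha : a = t * √(m : ℝ)) :
    secJ K f L τ t = ∫⁻ y in {y | y ∈ secS K f L t ∧ (1 + τ) • y ∉ secS K f L t},
      ENNReal.ofReal (2 * √(1 - a ^ 2 / m - ‖y‖ ^ 2)) := by
  have hm0 : (0 : ℝ) < m := by exact_mod_cast hm
  have h1 : a ^ 2 / m = t ^ 2 := by
    rw [ha, mul_pow, Real.sq_sqrt hm0.le]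
    field_simp
  rw [h1]
  rfl

end

theorem mono_slices {m : ℕ} (hm : 1 ≤ m) (K : Set (EuclideanSpace ℝ (Fin (m + 1))))
    (hK : Convex ℝ K) (hKc : IsCompact K) (h0 : (0 : EuclideanSpace ℝ (Fin (m + 1))) ∈ K)
    (f : EuclideanSpace ℝ (Fin (m + 1))) (hf : ‖f‖ = 1)
    (L : EuclideanSpace ℝ (Fin m) →ₗᵢ[ℝ] EuclideanSpace ℝ (Fin (m + 1)))
    (hL : ∀ y, inner ℝ f (L y) = 0)
    (A ε' τ μ : ℝ) (hA : 5 ≤ A) (hAm : A ^ 2 ≤ (m : ℝ) + 1) (hε' : 0 ≤ ε') (hτ : 0 < τ)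
    (hτ1 : τ * ((m : ℝ) + 1) ≤ 1) (hμ0 : 0 ≤ μ) (hμ : μ * (1 + τ) ^ m ≤ 3)
    (h1 : ∀ t : ℝ, 0 ≤ t → √((m : ℝ) + 1) * t ≤ A → t • f ∈ K)
    (h2 : ∀ t t' r : ℝ, -A ≤ √((m : ℝ) + 1) * t → t ≤ t' → √((m : ℝ) + 1) * t' ≤ A →
        |r - 1| ≤ A ^ 2 / ((m : ℝ) + 1) → sec K f L t r ≤ sec K f L t' r + ε' * kap m) :
    (∀ t : ℝ, 0 ≤ t → t ≤ A / (2 * √((m : ℝ) + 1)) →
      ∫⁻ y in {y : EuclideanSpace ℝ (Fin m) | t • f + L y ∈ K ∧ (1 + τ) • (t • f + L y) ∉ K},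
        ENNReal.ofReal (2 * √(1 - t ^ 2 - ‖y‖ ^ 2)) ≤
      secJ K f L τ t + ENNReal.ofReal (2 * (A / (2 * √((m : ℝ) + 1))) * (ε' * kap m) +
        2 * Real.exp (-(m * (A / (2 * √((m : ℝ) + 1))) ^ 2 / 2)) /
          (m * (A / (2 * √((m : ℝ) + 1)))) * kap m)) ∧
    (∀ t : ℝ, 0 ≤ t → t ≤ A / (2 * √((m : ℝ) + 1)) →
      secJ K f L τ t ≤ ENNReal.ofReal (τ * √(m : ℝ) * kap m *
        (2 * Real.exp (-(1 / 2)) * Real.exp (-((t * √(m : ℝ)) ^ 2 / 2))))) ∧
    (∀ t : ℝ, 0 ≤ t → t ≤ 1 / 2 / √(m : ℝ) →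
      secJ K f L τ t + secJ K f L τ (t + 3 / 2 / √(m : ℝ)) ≤
        ENNReal.ofReal (τ * √(m : ℝ) * kap m *
          (2 * Real.exp (-(1 / 2)) * Real.exp (-((t * √(m : ℝ)) ^ 2 / 2)) +
            (18 / 5 - μ) * Real.exp (-((t * √(m : ℝ) + 3 / 2) ^ 2 / 2)) + μ * ε'))) := by
  have hm0 : (0 : ℝ) < m := by exact_mod_cast hm
  have hm1 : (1 : ℝ) ≤ m := by exact_mod_cast hm
  have hs0 : 0 < √(m : ℝ) := Real.sqrt_pos.2 hm0
  have hs1 : 0 < √((m : ℝ) + 1) := Real.sqrt_pos.2 (by linarith)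
  have hss : √(m : ℝ) ^ 2 = m := Real.sq_sqrt hm0.le
  have hss1 : √((m : ℝ) + 1) ^ 2 = m + 1 := Real.sq_sqrt (by linarith)
  have hkap := kap_nonneg m
  set t₀ := A / (2 * √((m : ℝ) + 1)) with ht₀
  have ht₀pos : 0 < t₀ := by positivity
  have hst : √((m : ℝ) + 1) * t₀ = A / 2 := by
    rw [ht₀]; field_simp
  have ht₀sq : t₀ ^ 2 = A ^ 2 / (4 * ((m : ℝ) + 1)) := by
    rw [ht₀, div_pow, mul_pow, hss1]; norm_num
  have hzero : ∀ t : ℝ, 0 ≤ t → √((m : ℝ) + 1) * t ≤ A →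
      (0 : EuclideanSpace ℝ (Fin m)) ∈ secS K f L t := by
    intro t ht ht'
    change t • f + L 0 ∈ K
    rw [map_zero, add_zero]
    exact h1 t ht ht'
  have hA2 : 0 < A ^ 2 / ((m : ℝ) + 1) := by positivity
  refine ⟨?_, ?_, ?_⟩
  · intro t ht ht'
    have htA : √((m : ℝ) + 1) * t ≤ A / 2 := by
      rw [← hst]; exact mul_le_mul_of_nonneg_left ht' hs1.le
    refine slice_cyl hm K hK hKc h0 f L τ t t₀ (ε' * kap m) hτ ht₀pos ?_ (by positivity) ?_
    · have h3 : t ^ 2 ≤ t₀ ^ 2 := pow_le_pow_left₀ ht ht' 2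
      have h4 : t₀ ^ 2 ≤ 1 / 4 := by
        rw [ht₀sq, div_le_iff₀ (by linarith)]
        linarith
      linarith
    · intro ρ hρ0 hρ1 hρ2
      have h3 : t ^ 2 ≤ t₀ ^ 2 := pow_le_pow_left₀ ht ht' 2
      have hρ3 : 1 - A ^ 2 / (2 * ((m : ℝ) + 1)) ≤ ρ := by
        have h4 : ρ ^ 2 ≤ ρ := by nlinarith
        have h5 : A ^ 2 / (2 * ((m : ℝ) + 1)) = t₀ ^ 2 + t₀ ^ 2 := by
          rw [ht₀sq]; field_simp; ring
        linarith
      apply h2
      · have : 0 ≤ √((m : ℝ) + 1) * t := by positivity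
        linarith
      · nlinarith
      · have hτ2 : τ ≤ 1 := by nlinarith
        calc √((m : ℝ) + 1) * ((1 + τ) * t) = (1 + τ) * (√((m : ℝ) + 1) * t) := by ring
          _ ≤ 2 * (A / 2) := by
            apply mul_le_mul (by linarith) htA (by positivity) (by norm_num)
          _ = A := by ring
      · rw [abs_le]
        have h6 : A ^ 2 / (2 * ((m : ℝ) + 1)) ≤ A ^ 2 / ((m : ℝ) + 1) := by
          apply div_le_div_of_nonneg_left (by positivity) (by positivity) (by linarith)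
        have h7 : τ ≤ A ^ 2 / ((m : ℝ) + 1) := by
          rw [le_div_iff₀ (by positivity)]
          nlinarith
        constructor
        · nlinarith
        · nlinarith
  · intro t ht ht'
    rw [secJ_eq K f L hm τ t (t * √(m : ℝ)) rfl]
    apply slice_std hm _ (secS_convex K hK f L t) (secS_compact K hKc f L t)
      (hzero t ht _) τ _ hτ
    have : √((m : ℝ) + 1) * t ≤ A / 2 := by
      rw [← hst]; exact mul_le_mul_of_nonneg_left ht' hs1.le
    linarith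
  · intro t ht ht'
    set t' := t + 3 / 2 / √(m : ℝ) with ht'd
    have ha' : t * √(m : ℝ) + 3 / 2 = t' * √(m : ℝ) := by
      rw [ht'd, add_mul, div_mul_cancel₀ _ hs0.ne']
    have ha1 : t * √(m : ℝ) ≤ 1 / 2 := by
      calc t * √(m : ℝ) ≤ 1 / 2 / √(m : ℝ) * √(m : ℝ) := by gcongr
        _ = 1 / 2 := by field_simp
    have ha0 : 0 ≤ t * √(m : ℝ) := by positivity
    have hss2 : √((m : ℝ) + 1) ≤ 3 / 2 * √(m : ℝ) := by
      apply Real.sqrt_le_iff.2 ⟨by positivity, ?_⟩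
      rw [mul_pow, hss]
      nlinarith
    have htA' : √((m : ℝ) + 1) * t' ≤ A := by
      have ht'0 : 0 ≤ t' := by rw [ht'd]; positivity
      calc √((m : ℝ) + 1) * t' ≤ 3 / 2 * √(m : ℝ) * t' := by gcongr
        _ = 3 / 2 * (t * √(m : ℝ) + 3 / 2) := by rw [ha']; ring
        _ ≤ A := by linarith
    have htt' : t ≤ t' := by
      rw [ht'd]; have : 0 ≤ 3 / 2 / √(m : ℝ) := by positivity
      linarith
    have htA : √((m : ℝ) + 1) * t ≤ A := (mul_le_mul_of_nonneg_left htt' hs1.le).trans htA'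
    rw [secJ_eq K f L hm τ t (t * √(m : ℝ)) rfl, secJ_eq K f L hm τ t' _ ha']
    refine (slice_pair hm (secS K f L t) (secS K f L t') (secS_convex K hK f L t)
      (secS_compact K hKc f L t) (hzero t ht htA) (secS_convex K hK f L t')
      (secS_compact K hKc f L t') (hzero t' (ht.trans htt') htA') τ μ (t * √(m : ℝ))
      (ε' * kap m) hτ ha0 hμ0 hμ (by positivity) ?_).trans ?_
    · have hsec : ∀ s r : ℝ, volume.real (secS K f L s ∩ closedBall 0 r) = sec K f L s r := by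
        intro s r
        unfold sec
        congr 1
        ext y
        simp [secS]
      rw [hsec, hsec]
      apply h2 t t' _ _ htt' htA' _
      · have : 0 ≤ √((m : ℝ) + 1) * t := by positivity
        linarith
      · set x := (t * √(m : ℝ) + 3 / 2) ^ 2 / (2 * m) with hx
        have hx0 : 0 ≤ x := by positivity
        have hx1 : x ≤ 2 / m := by
          rw [hx, div_le_div_iff₀ (by positivity) hm0]
          have : (t * √(m : ℝ) + 3 / 2) ^ 2 ≤ 4 := by nlinarith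
          nlinarith
        have h8 : 2 / (m : ℝ) ≤ A ^ 2 / ((m : ℝ) + 1) := by
          rw [div_le_div_iff₀ hm0 (by linarith)]
          have hA25 : 25 ≤ A ^ 2 := by nlinarith
          have h11 : 25 * (m : ℝ) ≤ A ^ 2 * m := mul_le_mul_of_nonneg_right hA25 hm0.le
          linarith
        rw [abs_le]
        have h9 := Real.add_one_le_exp (-x)
        have h10 : Real.exp (-x) ≤ 1 := Real.exp_le_one_iff.2 (by linarith)
        constructor <;> linarith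
    · apply ENNReal.ofReal_le_ofReal
      apply le_of_eq
      ring

end SA70
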