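import Pool.Agent.SA70.QHa
import Pool.Agent.SA70.QHs
import Pool.Agent.SA70.QHl
import Pool.Agent.SC70.TNum
import Pool.Agent.SA70.M10a

/-! QH: the shell of a body with monotone sections. -/

set_option autoImplicit false

open MeasureTheory Measure Metric Set Module ENNReal

namespace SA70

open SC70

private lemma qh_kap_two {m : ℕ} (hm : 1 ≤ m) :
    kap (m + 2) = 2 * Real.pi / ((m : ℝ) + 2) * kap m := by
  rw [kap_formula hm, kap_formula (n := m + 2) (by omega)]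
  have h1 : (((m + 2 : ℕ) : ℝ)) / 2 + 1 = ((m : ℝ) / 2 + 1) + 1 := by push_cast; ring
  have h2 : (m : ℝ) / 2 + 1 ≠ 0 := by positivity
  have hG : Real.Gamma ((m : ℝ) / 2 + 1) ≠ 0 := (Real.Gamma_pos_of_pos (by positivity)).ne'
  rw [h1, Real.Gamma_add_one h2, pow_add, Real.sq_sqrt Real.pi_pos.le]
  field_simp

/-- The part `⟪f,z⟫ < 0` of the shell: `half_rays`. The part `⟪f,z⟫ ≥ A/(2√(m+1))`: `qh_tail`. The rest: `qh_fub`,
`mono_slices`, `mono_line`. -/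
theorem mono_bound (ε θ : ℝ) (hε : 0 < ε) (hθ0 : 0 < θ) (hθ1 : θ ≤ 1 / 1000) :
    ∃ A : ℝ, 1 ≤ A ∧ ∃ ε' : ℝ, 0 < ε' ∧ ∃ d₀ : ℕ, ∀ m : ℕ, d₀ ≤ m →
      ∀ (K : Set (EuclideanSpace ℝ (Fin (m + 1)))), Convex ℝ K → IsCompact K → 0 ∈ K →
      ∀ (f : EuclideanSpace ℝ (Fin (m + 1))) (_ : ‖f‖ = 1)
        (L : EuclideanSpace ℝ (Fin m) →ₗᵢ[ℝ] EuclideanSpace ℝ (Fin (m + 1)))
        (_ : ∀ y, inner ℝ f (L y) = 0)
        (_ : MeasurePreserving
          (fun z : ℝ × EuclideanSpace ℝ (Fin m) => z.1 • f + L z.2) volume volume)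
        (_ : Function.Surjective (fun z : ℝ × EuclideanSpace ℝ (Fin m) => z.1 • f + L z.2)),
      (∀ t : ℝ, 0 ≤ t → √((m : ℝ) + 1) * t ≤ A → t • f ∈ K) →
      (∀ t t' r : ℝ, -A ≤ √((m : ℝ) + 1) * t → t ≤ t' → √((m : ℝ) + 1) * t' ≤ A →
        |r - 1| ≤ A ^ 2 / ((m : ℝ) + 1) → sec K f L t r ≤ sec K f L t' r + ε' * kap m) →
      ∫⁻ z in {z | z ∈ K ∧ (1 + θ / ((m : ℝ) + 2)) • z ∉ K},
          ENNReal.ofReal (2 * √(1 - ‖z‖ ^ 2)) ≤
        ENNReal.ofReal (Mn (m + 1) * θ * kap (m + 1) +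
          (235 / 1000 * θ + ε) * kap (m + 2)) := by
  obtain ⟨A, hAd⟩ : ∃ A : ℝ, A = 8 + 16 / ε := ⟨_, rfl⟩
  have h16 : 0 < 16 / ε := by positivity
  have hA8 : 8 ≤ A := by rw [hAd]; linarith
  have hA0 : 0 < A := by linarith
  have hAε : 16 / ε ≤ A := by rw [hAd]; linarith
  have hAexp : Real.exp (-(A ^ 2 / 16)) ≤ ε / 8 := by
    have h1 : A / 2 ≤ A ^ 2 / 16 := by nlinarith
    have h2 : Real.exp (-(A ^ 2 / 16)) ≤ Real.exp (-(A / 2)) :=
      Real.exp_le_exp.2 (by linarith)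
    have h3 : Real.exp (-(A / 2)) ≤ 1 / (A / 2) := by
      rw [Real.exp_neg, ← one_div]
      apply one_div_le_one_div_of_le (by positivity)
      linarith [Real.add_one_le_exp (A / 2)]
    have h4 : 1 / (A / 2) ≤ ε / 8 := by
      rw [div_le_div_iff₀ (by positivity) (by norm_num)]
      rw [div_le_iff₀ hε] at hAε
      linarith
    linarith
  obtain ⟨ε', hε'd⟩ : ∃ ε' : ℝ, ε' = ε / (8 * A ^ 2) := ⟨_, rfl⟩
  have hε'0 : 0 < ε' := by rw [hε'd]; positivity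
  have hε'A : A ^ 2 * ε' = ε / 8 := by rw [hε'd]; field_simp
  have hε'1 : ε' ≤ ε / 8 := by
    rw [hε'd]
    apply div_le_div_of_nonneg_left hε.le (by norm_num)
    nlinarith
  refine ⟨A, by linarith, ε', hε'0, ⌈A ^ 2⌉₊ + 1, ?_⟩
  intro m hmd K hK hKc h0 f hf L hL hmp _ hray hsec
  have hm1 : 1 ≤ m := by omega
  have hm1' : (1 : ℝ) ≤ m := by exact_mod_cast hm1
  have hAm : A ^ 2 ≤ (m : ℝ) + 1 := by
    have h1 := Nat.le_ceil (A ^ 2)
    have h2 : ((⌈A ^ 2⌉₊ : ℕ) : ℝ) ≤ m := by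
      have : ⌈A ^ 2⌉₊ ≤ m := by omega
      exact_mod_cast this
    linarith
  obtain ⟨τ, hτ⟩ : ∃ τ : ℝ, τ = θ / ((m : ℝ) + 2) := ⟨_, rfl⟩
  rw [← hτ]
  have hm2 : (0 : ℝ) < (m : ℝ) + 2 := by positivity
  have hm0 : (0 : ℝ) < (m : ℝ) + 1 := by positivity
  have hτ0 : 0 < τ := by rw [hτ]; positivity
  have hτm : τ * ((m : ℝ) + 2) = θ := by rw [hτ]; field_simp
  have hτm1 : τ * ((m : ℝ) + 1) ≤ θ := by nlinarith
  have hpow : (1 + τ) ^ m ≤ Real.exp θ := by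
    have h1 : 1 + τ ≤ Real.exp τ := by linarith [Real.add_one_le_exp τ]
    refine (pow_le_pow_left₀ (by positivity) h1 m).trans ?_
    rw [← Real.exp_nat_mul]
    apply Real.exp_le_exp.2
    nlinarith
  have hpow0 : 0 < (1 + τ) ^ m := by positivity
  have hpow1 : 1 ≤ (1 + τ) ^ m := one_le_pow₀ (by linarith)
  obtain ⟨μ, hμd⟩ : ∃ μ : ℝ, μ = 3 / (1 + τ) ^ m := ⟨_, rfl⟩
  have hμ0 : 0 ≤ μ := by rw [hμd]; positivity
  have hμ3 : μ ≤ 3 := by rw [hμd]; exact div_le_self (by norm_num) hpow1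
  have hμτ : μ * (1 + τ) ^ m ≤ 3 := by rw [hμd, div_mul_cancel₀ _ hpow0.ne']
  have hμl : 2997 / 1000 ≤ μ := by
    rw [hμd, le_div_iff₀ hpow0]
    have h1 : Real.exp θ * (1 - θ) ≤ 1 := by
      have h2 : 1 - θ ≤ Real.exp (-θ) := by linarith [Real.add_one_le_exp (-θ)]
      calc Real.exp θ * (1 - θ) ≤ Real.exp θ * Real.exp (-θ) :=
            mul_le_mul_of_nonneg_left h2 (Real.exp_pos _).le
        _ = 1 := by rw [← Real.exp_add]; simp
    have h3 : (1 + τ) ^ m * (1 - θ) ≤ 1 :=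
      (mul_le_mul_of_nonneg_right hpow (by linarith)).trans h1
    nlinarith
  obtain ⟨t₀, ht₀⟩ : ∃ t₀ : ℝ, t₀ = A / (2 * √((m : ℝ) + 1)) := ⟨_, rfl⟩
  have hs1 : 0 < √((m : ℝ) + 1) := Real.sqrt_pos.mpr hm0
  have hs : 0 < √(m : ℝ) := Real.sqrt_pos.mpr (by linarith)
  have ht₀0 : 0 < t₀ := by rw [ht₀]; positivity
  have ht₀2 : t₀ ^ 2 = A ^ 2 / (4 * ((m : ℝ) + 1)) := by
    rw [ht₀, div_pow, mul_pow, Real.sq_sqrt hm0.le]; norm_num
  have hκ := kap_nonneg m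
  have hκ1 := kap_nonneg (m + 1)
  have hκ2 := kap_nonneg (m + 2)
  have hM := (Mn_pos (n := m + 1) (by omega)).le
  have hpi := Real.pi_gt_three
  have hκκ : kap (m + 2) = 2 * Real.pi / ((m : ℝ) + 2) * kap m := qh_kap_two hm1
  have hκm : kap m = ((m : ℝ) + 2) / (2 * Real.pi) * kap (m + 2) := by
    rw [hκκ]; field_simp
  -- the parts
  obtain ⟨S1, S2, S3⟩ := mono_slices hm1 K hK hKc h0 f hf L hL A ε' τ μ (by linarith) hAm
    hε'0.le hτ0 (by linarith) hμ0 hμτ hray hsec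
  rw [← ht₀] at S1 S2
  have hneg := half_rays K hK hKc h0 f hf τ hτ0
  have htail := QHa.qh_tail f hf t₀ ht₀0.le
  have hmid := QHa.qh_fub K hKc f hf L hL hmp τ t₀
  have hline := mono_line hm1 (fun t => ∫⁻ y in {y : EuclideanSpace ℝ (Fin m) |
      t • f + L y ∈ K ∧ t • f + L ((1 + τ) • y) ∉ K},
      ENNReal.ofReal (2 * √(1 - t ^ 2 - ‖y‖ ^ 2))) t₀ (τ * √(m : ℝ) * kap m) (18 / 5 - μ)
    (μ * ε') (by positivity) (by linarith) (by linarith) (by positivity) (by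
      rw [ht₀, div_le_div_iff₀ hs (by positivity)]
      have h1 : √((m : ℝ) + 1) ≤ 2 * √(m : ℝ) := by
        rw [Real.sqrt_le_left (by positivity), mul_pow, Real.sq_sqrt (by positivity)]
        linarith
      nlinarith) S2 S3
  have hmid2 : ∫⁻ z in {z | z ∈ K ∧ (1 + τ) • z ∉ K ∧ 0 ≤ inner ℝ f z ∧ inner ℝ f z ≤ t₀},
        ENNReal.ofReal (2 * √(1 - ‖z‖ ^ 2)) ≤
      ENNReal.ofReal (τ * √(m : ℝ) * kap m / √(m : ℝ) *
        (2 * Real.pi * (235 / 1000) + μ * ε' / 2)) +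
      ENNReal.ofReal ((2 * t₀ * (ε' * kap m) +
        2 * Real.exp (-(m * t₀ ^ 2 / 2)) / (m * t₀) * kap m) * t₀) := by
    rw [hmid]
    refine (setLIntegral_mono' measurableSet_Icc fun t ht => S1 t ht.1 ht.2).trans ?_
    rw [lintegral_add_right _ measurable_const]
    refine add_le_add hline ?_
    rw [setLIntegral_const, Real.volume_Icc, sub_zero, ← ENNReal.ofReal_mul (by positivity)]
  have hcov : {z | z ∈ K ∧ (1 + τ) • z ∉ K} ⊆
      {z | z ∈ K ∧ (1 + τ) • z ∉ K ∧ inner ℝ f z < 0} ∪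
      ({z | z ∈ K ∧ (1 + τ) • z ∉ K ∧ 0 ≤ inner ℝ f z ∧ inner ℝ f z ≤ t₀} ∪
        {z | t₀ ≤ inner ℝ f z}) := by
    rintro z ⟨h1, h2⟩
    rcases lt_or_ge (inner ℝ f z) 0 with h | h
    · exact Or.inl ⟨h1, h2, h⟩
    · rcases le_or_gt (inner ℝ f z) t₀ with h' | h'
      · exact Or.inr (Or.inl ⟨h1, h2, h, h'⟩)
      · exact Or.inr (Or.inr h'.le)
  refine (lintegral_mono_set hcov).trans ((lintegral_union_le _ _ _).trans ((add_le_add hneg
    ((lintegral_union_le _ _ _).trans (add_le_add hmid2 htail))).trans ?_))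
  have g1 : 0 ≤ (2 * t₀ * (ε' * kap m) +
        2 * Real.exp (-(m * t₀ ^ 2 / 2)) / (m * t₀) * kap m) * t₀ := by positivity
  have g2 : 0 ≤ τ * √(m : ℝ) * kap m / √(m : ℝ) *
        (2 * Real.pi * (235 / 1000) + μ * ε' / 2) := by positivity
  have g3 : 0 ≤ Real.exp (-(t₀ ^ 2 * ((m : ℝ) + 2) / 2)) * kap (m + 2) := by positivity
  rw [← ENNReal.ofReal_add g2 g1, ← ENNReal.ofReal_add (add_nonneg g2 g1) g3,
    ← ENNReal.ofReal_add (by positivity) (add_nonneg (add_nonneg g2 g1) g3)]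
  apply ENNReal.ofReal_le_ofReal
  -- numbers
  have n1 : Mn (m + 1) * τ * ((m : ℝ) + 1) * kap (m + 1) ≤ Mn (m + 1) * θ * kap (m + 1) := by
    have e : Mn (m + 1) * τ * ((m : ℝ) + 1) * kap (m + 1) =
        (Mn (m + 1) * kap (m + 1)) * (τ * ((m : ℝ) + 1)) := by ring
    rw [e]
    calc (Mn (m + 1) * kap (m + 1)) * (τ * ((m : ℝ) + 1)) ≤ (Mn (m + 1) * kap (m + 1)) * θ :=
          mul_le_mul_of_nonneg_left hτm1 (by positivity)
      _ = _ := by ring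
  have n2 : τ * √(m : ℝ) * kap m / √(m : ℝ) * (2 * Real.pi * (235 / 1000) + μ * ε' / 2) ≤
      (235 / 1000 * θ + ε / 8) * kap (m + 2) := by
    have e : τ * √(m : ℝ) * kap m / √(m : ℝ) = θ / (2 * Real.pi) * kap (m + 2) := by
      rw [hκκ, hτ]
      field_simp
    rw [e]
    have e2 : θ / (2 * Real.pi) * kap (m + 2) * (2 * Real.pi * (235 / 1000) + μ * ε' / 2) =
        (235 / 1000 * θ + θ * (μ * ε') / (4 * Real.pi)) * kap (m + 2) := by
      field_simp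
      ring
    rw [e2]
    apply mul_le_mul_of_nonneg_right _ hκ2
    have h1 : θ * (μ * ε') / (4 * Real.pi) ≤ ε / 8 := by
      rw [div_le_iff₀ (by positivity)]
      have h2 : θ * (μ * ε') ≤ 1 * (3 * (ε / 8)) := by
        apply mul_le_mul (by linarith) _ (by positivity) (by norm_num)
        exact mul_le_mul hμ3 hε'1 hε'0.le (by norm_num)
      nlinarith
    linarith
  have n3 : (2 * t₀ * (ε' * kap m) +
        2 * Real.exp (-(m * t₀ ^ 2 / 2)) / (m * t₀) * kap m) * t₀ ≤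
      (ε / 8 + ε / 8) * kap (m + 2) := by
    have e : (2 * t₀ * (ε' * kap m) +
        2 * Real.exp (-(m * t₀ ^ 2 / 2)) / (m * t₀) * kap m) * t₀ =
        (2 * t₀ ^ 2 * ε' * (((m : ℝ) + 2) / (2 * Real.pi)) +
          2 * Real.exp (-(m * t₀ ^ 2 / 2)) / m * (((m : ℝ) + 2) / (2 * Real.pi))) *
          kap (m + 2) := by
      rw [hκm]
      field_simp
    rw [e]
    apply mul_le_mul_of_nonneg_right _ hκ2
    apply add_le_add
    · rw [ht₀2, ← hε'A]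
      have h1 : 2 * (A ^ 2 / (4 * ((m : ℝ) + 1))) * ε' * (((m : ℝ) + 2) / (2 * Real.pi)) =
          A ^ 2 * ε' * (((m : ℝ) + 2) / (4 * Real.pi * ((m : ℝ) + 1))) := by
        field_simp
      rw [h1]
      apply mul_le_of_le_one_right (by positivity)
      rw [div_le_one (by positivity)]
      nlinarith
    · have h1 : Real.exp (-(m * t₀ ^ 2 / 2)) ≤ Real.exp (-(A ^ 2 / 16)) := by
        apply Real.exp_le_exp.2
        rw [ht₀2]
        have h2 : A ^ 2 / 16 ≤ m * (A ^ 2 / (4 * ((m : ℝ) + 1))) / 2 := by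
          rw [mul_div_assoc', div_div, div_le_div_iff₀ (by norm_num) (by positivity)]
          nlinarith [sq_nonneg A]
        linarith
      have h3 : 2 * Real.exp (-(m * t₀ ^ 2 / 2)) / m * (((m : ℝ) + 2) / (2 * Real.pi)) =
          Real.exp (-(m * t₀ ^ 2 / 2)) * (((m : ℝ) + 2) / (Real.pi * m)) := by
        field_simp
      rw [h3]
      refine (mul_le_of_le_one_right (Real.exp_pos _).le ?_).trans (h1.trans hAexp)
      rw [div_le_one (by positivity)]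
      nlinarith
  have n4 : Real.exp (-(t₀ ^ 2 * ((m : ℝ) + 2) / 2)) * kap (m + 2) ≤ ε / 8 * kap (m + 2) := by
    apply mul_le_mul_of_nonneg_right _ hκ2
    refine le_trans ?_ hAexp
    apply Real.exp_le_exp.2
    rw [ht₀2]
    have h2 : A ^ 2 / 16 ≤ A ^ 2 / (4 * ((m : ℝ) + 1)) * ((m : ℝ) + 2) / 2 := by
      rw [div_mul_eq_mul_div, div_div, div_le_div_iff₀ (by norm_num) (by positivity)]
      nlinarith [sq_nonneg A]
    linarith
  have n5 : 0 ≤ ε * kap (m + 2) := by positivity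
  linarith

end SA70
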