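import Pool.Agent.SA70.M7a

/-! QHa: pieces of QH: the tail, Fubini in the frame, the bound of one ball section. -/

set_option autoImplicit false

open MeasureTheory Measure Metric Set Module ENNReal

namespace SA70

open SC70

namespace QHa

theorem qh_tail {m : ℕ} (f : EuclideanSpace ℝ (Fin (m + 1))) (hf : ‖f‖ = 1) (t : ℝ) (ht : 0 ≤ t) :
    ∫⁻ z in {z | t ≤ inner ℝ f z}, ENNReal.ofReal (2 * √(1 - ‖z‖ ^ 2)) ≤
      ENNReal.ofReal (Real.exp (-(t ^ 2 * ((m : ℝ) + 2) / 2)) * kap (m + 2)) := by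
  obtain ⟨e, he⟩ : ∃ e : EuclideanSpace ℝ (Fin (m + 1 + 1)), ‖e‖ = 1 :=
    ⟨EuclideanSpace.single 0 1, by simp⟩
  obtain ⟨L, hL, hmp, hsurj⟩ := exists_frame e he
  have hLf : ‖L f‖ = 1 := by rw [L.norm_map, hf]
  have hcap := cap_le (L f) hLf t ht
  have hHm : MeasurableSet {z : EuclideanSpace ℝ (Fin (m + 1)) | t ≤ inner ℝ f z} :=
    measurableSet_le measurable_const (Continuous.measurable (by fun_prop))
  have hCm : MeasurableSet {x : EuclideanSpace ℝ (Fin (m + 1 + 1)) |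
      x ∈ closedBall (0 : EuclideanSpace ℝ (Fin (m + 1 + 1))) 1 ∧ t ≤ inner ℝ (L f) x} :=
    measurableSet_closedBall.inter
      (measurableSet_le (g := fun x : EuclideanSpace ℝ (Fin (m + 1 + 1)) => inner ℝ (L f) x)
        measurable_const (Continuous.measurable (by fun_prop)))
  have hpre := hmp.measure_preimage hCm.nullMeasurableSet
  have hDm : MeasurableSet ((fun z : ℝ × EuclideanSpace ℝ (Fin (m + 1)) => z.1 • e + L z.2) ⁻¹'
      {x | x ∈ closedBall (0 : EuclideanSpace ℝ (Fin (m + 1 + 1))) 1 ∧ t ≤ inner ℝ (L f) x}) :=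
    hmp.measurable hCm
  have hnorm : ∀ (s : ℝ) (z : EuclideanSpace ℝ (Fin (m + 1))),
      ‖s • e + L z‖ ^ 2 = s ^ 2 + ‖z‖ ^ 2 := by
    intro s z
    rw [norm_add_sq_real, norm_smul, he, inner_smul_left, hL, L.norm_map, mul_one,
      Real.norm_eq_abs, sq_abs]
    simp
  have hin : ∀ (s : ℝ) (z : EuclideanSpace ℝ (Fin (m + 1))),
      inner ℝ (L f) (s • e + L z) = inner ℝ f z := by
    intro s z
    rw [inner_add_right, inner_smul_right, real_inner_comm, hL, L.inner_map_map]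
    simp
  have hvol : volume {x : EuclideanSpace ℝ (Fin (m + 1 + 1)) |
      x ∈ closedBall (0 : EuclideanSpace ℝ (Fin (m + 1 + 1))) 1 ∧ t ≤ inner ℝ (L f) x} ≤
      ENNReal.ofReal (Real.exp (-(t ^ 2 * ((m : ℝ) + 2) / 2)) * kap (m + 2)) := by
    have hfin : volume {x : EuclideanSpace ℝ (Fin (m + 1 + 1)) |
        x ∈ closedBall (0 : EuclideanSpace ℝ (Fin (m + 1 + 1))) 1 ∧ t ≤ inner ℝ (L f) x} ≠ ⊤ :=
      ((measure_mono (fun x hx => hx.1)).trans_lt
        (isCompact_closedBall (0 : EuclideanSpace ℝ (Fin (m + 1 + 1))) 1).measure_lt_top).ne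
    rw [← ENNReal.ofReal_toReal hfin]
    apply ENNReal.ofReal_le_ofReal
    refine hcap.trans (le_of_eq ?_)
    have e1 : (((m + 1 : ℕ) : ℝ)) + 1 = (m : ℝ) + 2 := by push_cast; ring
    rw [e1]
  refine le_trans ?_ hvol
  rw [← hpre, Measure.volume_eq_prod, Measure.prod_apply_symm hDm, ← lintegral_indicator hHm]
  apply lintegral_mono
  intro z
  by_cases hz : t ≤ inner ℝ f z
  · rw [indicator_of_mem (show z ∈ {z | t ≤ inner ℝ f z} from hz)]
    rcases le_or_gt (‖z‖ ^ 2) 1 with h1 | h1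
    · refine le_trans (b := volume (Icc (-√(1 - ‖z‖ ^ 2)) (√(1 - ‖z‖ ^ 2)))) ?_ ?_
      · rw [Real.volume_Icc]
        apply ENNReal.ofReal_le_ofReal
        linarith
      · apply measure_mono
        intro s hs
        have h2 : |s| ≤ √(1 - ‖z‖ ^ 2) := abs_le.mpr hs
        have h3 : s ^ 2 ≤ 1 - ‖z‖ ^ 2 := by
          have := Real.sq_sqrt (show 0 ≤ 1 - ‖z‖ ^ 2 by linarith)
          rw [← sq_abs, ← this]
          exact pow_le_pow_left₀ (abs_nonneg _) h2 2
        simp only [Set.mem_preimage, Set.mem_ofPred_eq, mem_closedBall_zero_iff]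
        refine ⟨?_, by rw [hin]; exact hz⟩
        have h4 := hnorm s z
        nlinarith [norm_nonneg (s • e + L z)]
    · rw [Real.sqrt_eq_zero_of_nonpos (by linarith)]
      simp
  · rw [indicator_of_notMem (show z ∉ {z | t ≤ inner ℝ f z} from hz)]
    simp

theorem qh_fub {m : ℕ} (K : Set (EuclideanSpace ℝ (Fin (m + 1)))) (hKc : IsCompact K)
    (f : EuclideanSpace ℝ (Fin (m + 1))) (hf : ‖f‖ = 1)
    (L : EuclideanSpace ℝ (Fin m) →ₗᵢ[ℝ] EuclideanSpace ℝ (Fin (m + 1)))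
    (hL : ∀ y, inner ℝ f (L y) = 0)
    (hmp : MeasurePreserving
      (fun z : ℝ × EuclideanSpace ℝ (Fin m) => z.1 • f + L z.2) volume volume) (τ t₀ : ℝ) :
    ∫⁻ z in {z | z ∈ K ∧ (1 + τ) • z ∉ K ∧ 0 ≤ inner ℝ f z ∧ inner ℝ f z ≤ t₀},
        ENNReal.ofReal (2 * √(1 - ‖z‖ ^ 2)) =
      ∫⁻ t in Icc (0 : ℝ) t₀,
        ∫⁻ y in {y : EuclideanSpace ℝ (Fin m) | t • f + L y ∈ K ∧ (1 + τ) • (t • f + L y) ∉ K},
          ENNReal.ofReal (2 * √(1 - t ^ 2 - ‖y‖ ^ 2)) := by
  have hKm : MeasurableSet K := hKc.measurableSet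
  have hnorm : ∀ (s : ℝ) (z : EuclideanSpace ℝ (Fin m)),
      ‖s • f + L z‖ ^ 2 = s ^ 2 + ‖z‖ ^ 2 := by
    intro s z
    rw [norm_add_sq_real, norm_smul, hf, inner_smul_left, hL, L.norm_map, mul_one,
      Real.norm_eq_abs, sq_abs]
    simp
  have hin : ∀ (s : ℝ) (z : EuclideanSpace ℝ (Fin m)), inner ℝ f (s • f + L z) = s := by
    intro s z
    rw [inner_add_right, inner_smul_right, hL, real_inner_self_eq_norm_sq, hf]
    simp
  have hSm : MeasurableSet {z : EuclideanSpace ℝ (Fin (m + 1)) | z ∈ K ∧ (1 + τ) • z ∉ K ∧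
      0 ≤ inner ℝ f z ∧ inner ℝ f z ≤ t₀} :=
    hKm.inter ((hKm.preimage (Continuous.measurable (by fun_prop))).compl.inter
      ((measurableSet_le (g := fun x : EuclideanSpace ℝ (Fin (m + 1)) => inner ℝ f x)
        measurable_const (Continuous.measurable (by fun_prop))).inter
        (measurableSet_le (f := fun x : EuclideanSpace ℝ (Fin (m + 1)) => inner ℝ f x)
          (Continuous.measurable (by fun_prop)) measurable_const)))
  have hgm : Measurable (fun z : EuclideanSpace ℝ (Fin (m + 1)) =>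
      ENNReal.ofReal (2 * √(1 - ‖z‖ ^ 2))) :=
    ENNReal.measurable_ofReal.comp (Continuous.measurable (by fun_prop))
  have hLc := L.continuous
  have hpm : Measurable (fun a : ℝ × EuclideanSpace ℝ (Fin m) =>
      {z : EuclideanSpace ℝ (Fin (m + 1)) | z ∈ K ∧ (1 + τ) • z ∉ K ∧
        0 ≤ inner ℝ f z ∧ inner ℝ f z ≤ t₀}.indicator
          (fun z => ENNReal.ofReal (2 * √(1 - ‖z‖ ^ 2))) (a.1 • f + L a.2)) :=
    (hgm.indicator hSm).comp hmp.measurable
  rw [← lintegral_indicator hSm, ← hmp.lintegral_comp (hgm.indicator hSm),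
    Measure.volume_eq_prod, lintegral_prod _ hpm.aemeasurable,
    ← lintegral_indicator measurableSet_Icc]
  apply lintegral_congr
  intro t
  have hTm : MeasurableSet {y : EuclideanSpace ℝ (Fin m) | t • f + L y ∈ K ∧
      (1 + τ) • (t • f + L y) ∉ K} :=
    (hKm.preimage (Continuous.measurable (by fun_prop))).inter
      (hKm.preimage (Continuous.measurable (by fun_prop))).compl
  by_cases ht : t ∈ Icc (0 : ℝ) t₀
  · rw [indicator_of_mem ht, ← lintegral_indicator hTm]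
    apply lintegral_congr
    intro y
    by_cases hy : y ∈ {y : EuclideanSpace ℝ (Fin m) | t • f + L y ∈ K ∧
      (1 + τ) • (t • f + L y) ∉ K}
    · rw [indicator_of_mem hy, indicator_of_mem]
      · have e2 : 1 - ‖t • f + L y‖ ^ 2 = 1 - t ^ 2 - ‖y‖ ^ 2 := by rw [hnorm]; ring
        change ENNReal.ofReal (2 * √(1 - ‖t • f + L y‖ ^ 2)) = _
        rw [e2]
      · refine ⟨hy.1, hy.2, ?_, ?_⟩
        · rw [hin]; exact ht.1
        · rw [hin]; exact ht.2
    · rw [indicator_of_notMem hy, indicator_of_notMem]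
      rintro ⟨h1, h2, -, -⟩
      exact hy ⟨h1, h2⟩
  · rw [indicator_of_notMem ht]
    refine (lintegral_congr fun y => ?_).trans lintegral_zero
    rw [indicator_of_notMem]
    rintro ⟨-, -, h3, h4⟩
    rw [hin] at h3 h4
    exact ht ⟨h3, h4⟩

end QHa

end SA70
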