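import Pool.Agent.SA70.QB
import Pool.Agent.SA70.QC
import Pool.Agent.SA70.QH
import Pool.Agent.SA70.DB

/-! QJ: centres with a third far direction. -/

set_option autoImplicit false

open MeasureTheory Measure Metric Set Module ENNReal

namespace SA70

open SC70

theorem three_sided (ε η₁ θ β : ℝ) (hε : 0 < ε) (hη₁ : 0 < η₁) (hθ0 : 0 < θ)
    (hθ1 : θ ≤ 1 / 1000) (hβ : 0 < β) :
    ∃ δ' : ℝ, 0 < δ' ∧ ∃ R₁ : ℝ, ∃ d₀ : ℕ, ∀ n : ℕ, d₀ ≤ n →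
      ∀ (C : Set (EuclideanSpace ℝ (Fin (n + 1)))), Convex ℝ C → IsCompact C → 0 ∈ C →
      ∀ a ∈ C, ∀ b ∈ C, ∀ z ∈ C, R₁ ≤ √((n : ℝ) + 1) * ‖a‖ → R₁ ≤ √((n : ℝ) + 1) * ‖b‖ →
      R₁ ≤ √((n : ℝ) + 1) * ‖z‖ → ‖dir 0 a + dir 0 b‖ ≤ δ' →
      β ≤ ‖dir 0 z - dir 0 b‖ → β ≤ ‖dir 0 z + dir 0 b‖ →
      η₁ * kap (n + 1) ≤ volume.real (C ∩ closedBall 0 1) →
      η₁ * kap (n + 1) ≤ volume.real (C ∩ closedBall a 1) →
      η₁ * kap (n + 1) ≤ volume.real (C ∩ closedBall b 1) →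
      η₁ * kap (n + 1) ≤ volume.real (C ∩ closedBall z 1) →
      volume.real (Inn C (θ / ((n : ℝ) + 1)) 0) ≤
        199 / 200 * (2 * Mn n * θ * kap n) + ε * kap (n + 1) := by
  have hε2 : 0 < ε / 2 := by linarith
  obtain ⟨δ₀, hδ₀, R₀, da, Hinn⟩ := inn_cyl (ε / 2) η₁ hε2 hη₁
  obtain ⟨A, hA1, ε', hε', db, Hmono⟩ := mono_bound (ε / 2) θ hε2 hθ0 hθ1
  obtain ⟨η₂, hη₂, Hthird⟩ := third_section η₁ hη₁
  obtain ⟨δ₂, hδ₂, R₂, dc, Hmove⟩ := sec_move A ε' η₂ hA1 hε' hη₂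
  obtain ⟨δ₃, hδ₃, R₃, Hsec⟩ := Hthird β δ₂ (max R₂ A) hβ hδ₂
  obtain ⟨dd, Hge⟩ := sausage_ge
  refine ⟨min δ₀ δ₃, lt_min hδ₀ hδ₃, max (max R₀ R₃) 1, max (max da (db + 1)) (max (dc + 1) (dd + 1)), ?_⟩
  intro n hn C hconv hCc h0 a ha b hb z hz hRa hRb hRz hab hzb1 hzb2 hV0 hVa hVb hVz
  have hna : da ≤ n := (le_max_left _ _).trans ((le_max_left _ _).trans hn)
  have hnb : db + 1 ≤ n := (le_max_right _ _).trans ((le_max_left _ _).trans hn)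
  have hnc : dc + 1 ≤ n := (le_max_left _ _).trans ((le_max_right _ _).trans hn)
  have hnd : dd + 1 ≤ n := (le_max_right _ _).trans ((le_max_right _ _).trans hn)
  obtain ⟨m, rfl⟩ : ∃ m, n = m + 1 := ⟨n - 1, by omega⟩
  have hR0 : R₀ ≤ max (max R₀ R₃) 1 := (le_max_left _ _).trans (le_max_left _ _)
  have hR3 : R₃ ≤ max (max R₀ R₃) 1 := (le_max_right _ _).trans (le_max_left _ _)
  have hR1 : (1 : ℝ) ≤ max (max R₀ R₃) 1 := le_max_right _ _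
  have hd0 : (0 : ℝ) < ((m + 1 : ℕ) : ℝ) + 1 := by positivity
  have hsd : 0 < √(((m + 1 : ℕ) : ℝ) + 1) := Real.sqrt_pos.mpr hd0
  have hb0 : 0 < ‖b‖ := by
    have h1 : 0 < √(((m + 1 : ℕ) : ℝ) + 1) * ‖b‖ := lt_of_lt_of_le one_pos (hR1.trans hRb)
    exact (pos_iff_pos_of_mul_pos h1).mp hsd
  obtain ⟨e, hed⟩ : ∃ e : EuclideanSpace ℝ (Fin (m + 1 + 1)), e = dir 0 b := ⟨_, rfl⟩
  have he : ‖e‖ = 1 := by
    rw [hed]
    unfold dir
    rw [sub_zero, norm_smul, Real.norm_of_nonneg (by positivity)]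
    field_simp
  obtain ⟨L, hL, hmp, hsurj⟩ := exists_frame e he
  have hbe : ‖dir 0 b - e‖ = 0 := by rw [hed, sub_self, norm_zero]
  have hae : ‖dir 0 a + e‖ ≤ min δ₀ δ₃ := by rw [hed]; exact hab
  -- the third direction in the central section
  obtain ⟨f, p, hf, hseg, hp1, hp2, hp3⟩ := Hsec (m + 1) (by omega) e he L hL hmp hsurj C hconv
    hCc h0 a ha b hb z hz (hR3.trans hRa) (hR3.trans hRb) (hR3.trans hRz)
    (by rw [hbe]; exact hδ₃.le) (hae.trans (min_le_right _ _)) (by rw [hed]; exact hzb1)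
    (by rw [hed]; exact hzb2) hV0 hVa hVb hVz
  have hcm : ((m + 1 : ℕ) : ℝ) = (m : ℝ) + 1 := by push_cast; ring
  rw [hcm] at hseg hp1
  obtain ⟨K, hK⟩ : ∃ K : Set (EuclideanSpace ℝ (Fin (m + 1))), K = {y | L y ∈ C} := ⟨_, rfl⟩
  have hKconv : Convex ℝ K := by
    rw [hK]
    exact hconv.linear_preimage L.toLinearMap
  have hKc : IsCompact K := by
    rw [hK]
    exact L.isometry.isClosedEmbedding.isCompact_preimage hCc
  have hK0 : (0 : EuclideanSpace ℝ (Fin (m + 1))) ∈ K := by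
    rw [hK]
    simpa using h0
  obtain ⟨L', hL', hmp', hsurj'⟩ := exists_frame f hf
  have hmono : ∀ t t' r : ℝ, -A ≤ √((m : ℝ) + 1) * t → t ≤ t' → √((m : ℝ) + 1) * t' ≤ A →
      |r - 1| ≤ A ^ 2 / ((m : ℝ) + 1) → sec K f L' t r ≤ sec K f L' t' r + ε' * kap m := by
    refine Hmove m (by omega) f hf L' hL' hmp' hsurj' K hKconv hKc p
      ((le_max_left _ _).trans hp1) hp2 ?_
    rw [hK]
    exact hp3
  have hray : ∀ t : ℝ, 0 ≤ t → √((m : ℝ) + 1) * t ≤ A → t • f ∈ K := by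
    intro t ht0 htA
    rw [hK]
    exact hseg t ht0 (htA.trans (le_max_right _ _))
  have h1 := Hmono m (by omega) K hKconv hKc hK0 f hf L' hL' hmp' hsurj' hray hmono
  -- the shell
  have hτ0 : 0 < θ / (((m + 1 : ℕ) : ℝ) + 1) := by positivity
  have hτ1 : θ / (((m + 1 : ℕ) : ℝ) + 1) ≤ 1 / (((m + 1 : ℕ) : ℝ) + 1) := by
    apply div_le_div_of_nonneg_right _ hd0.le
    linarith
  have h2 := Hinn (m + 1) hna e he L hL hmp hsurj C hconv hCc h0 a b (hR0.trans hRa)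
    (hR0.trans hRb) (by rw [hbe]; exact hδ₀.le) (hae.trans (min_le_left _ _)) hVa hVb _ hτ0 hτ1
  have hset : {z : EuclideanSpace ℝ (Fin (m + 1)) | L z ∈ C ∧
      (1 + θ / (((m + 1 : ℕ) : ℝ) + 1)) • L z ∉ C} =
      {z | z ∈ K ∧ (1 + θ / ((m : ℝ) + 2)) • z ∉ K} := by
    have hc2 : ((m + 1 : ℕ) : ℝ) + 1 = (m : ℝ) + 2 := by push_cast; ring
    rw [hc2, hK]
    ext y
    simp only [Set.mem_ofPred_eq, map_smul]
  rw [hset] at h2
  have hkn := kap_nonneg (m + 1)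
  have hkn1 := kap_nonneg (m + 1 + 1)
  have hMn : 0 ≤ Mn (m + 1) := by unfold Mn; positivity
  have hx0 : 0 ≤ Mn (m + 1) * θ * kap (m + 1) + (235 / 1000 * θ + ε / 2) * kap (m + 2) := by
    have : 0 ≤ kap (m + 2) := kap_nonneg _
    positivity
  have h3 : volume (Inn C (θ / (((m + 1 : ℕ) : ℝ) + 1)) 0) ≤
      ENNReal.ofReal ((Mn (m + 1) * θ * kap (m + 1) + (235 / 1000 * θ + ε / 2) * kap (m + 2)) +
        ε / 2 * kap (m + 1 + 1)) := by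
    rw [ENNReal.ofReal_add hx0 (by positivity)]
    exact h2.trans (add_le_add h1 le_rfl)
  have h4 : volume.real (Inn C (θ / (((m + 1 : ℕ) : ℝ) + 1)) 0) ≤
      (Mn (m + 1) * θ * kap (m + 1) + (235 / 1000 * θ + ε / 2) * kap (m + 2)) +
        ε / 2 * kap (m + 1 + 1) := by
    rw [measureReal_def]
    exact ENNReal.toReal_le_of_le_ofReal (by positivity) h3
  have h5 := Hge (m + 1) (by omega)
  have h6 : kap (m + 2) = kap (m + 1 + 1) := rfl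
  rw [h6] at h4
  nlinarith [mul_le_mul_of_nonneg_left h5 hθ0.le, mul_nonneg hθ0.le hkn1,
    mul_nonneg hθ0.le (mul_nonneg hMn hkn)]

end SA70
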