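import Pool.Agent.SA70.QJ
import Pool.Agent.SA70.M12

/-! QK: the cell sum with a gain. -/

set_option autoImplicit false

open MeasureTheory Measure Metric Set Module ENNReal

namespace SA70

open SC70

/-- As `core_sum` (M12; copy its proof). `η₁ = min η (ε₅ θ)`, `three_sided (ε₅θ) η₁ θ β` gives `δ₃, R₃`; in `core_sum`
take also `6δ ≤ δ₃`, `R ≥ R₃` and return `R₁ ≥ R₃`. For `w ∈ T` with a small cell there is nothing to do (the
right side of the cell bound is `≥ ε₅θκ`); for the other `w ∈ T` outside `P` (so with opposite far big `a, b ∈ G`)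
use the hypothesis with `e = dir w b` and `three_sided` for `shiftC C w`, `a - w`, `b - w`, `z - w`. So
`J w ≤ (1 - 1_{w ∈ T}/200) 2 M_n θ κ_n + ε₅ θ κ + 1_{w ∈ P} κ`. -/
theorem core_sum3 (ε₅ θ β η : ℝ) (hε₅0 : 0 < ε₅) (hθ0 : 0 < θ) (hθ1 : θ ≤ 1 / 1000)
    (hβ : 0 < β) (hη : 0 < η) : ∃ C₃ d₀ : ℕ, ∃ R₁ : ℝ, 1 ≤ R₁ ∧
    ∀ n : ℕ, d₀ ≤ n → 1 ≤ n → ∀ (C : Set (EuclideanSpace ℝ (Fin (n + 1))))
      (S T : Finset (EuclideanSpace ℝ (Fin (n + 1)))), Convex ℝ C → IsCompact C →
      (∀ w ∈ S, w ∈ C) → T ⊆ S →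
      (∀ w ∈ T, volume.real (Inn C (θ / ((n : ℝ) + 1)) w ∩ Vor S w) < ε₅ * θ * kap (n + 1) ∨
        ∀ e : EuclideanSpace ℝ (Fin (n + 1)), ‖e‖ = 1 → ∃ z ∈ C,
          R₁ ≤ √((n : ℝ) + 1) * ‖z - w‖ ∧ η * kap (n + 1) ≤ volume.real (C ∩ closedBall z 1) ∧
          β ≤ ‖dir w z - e‖ ∧ β ≤ ‖dir w z + e‖) →
      ∑ w ∈ S, volume.real (Inn C (θ / ((n : ℝ) + 1)) w ∩ Vor S w) ≤
        (S.card - T.card / 200) * (2 * Mn n * θ * kap n) + S.card * (ε₅ * θ * kap (n + 1)) +
          C₃ * kap (n + 1) := by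
  classical
  obtain ⟨η', hη'⟩ : ∃ η' : ℝ, η' = ε₅ * θ := ⟨_, rfl⟩
  have hη'0 : 0 < η' := by rw [hη']; positivity
  obtain ⟨δ', hδ'0, Ra, da, htwo⟩ := two_sided (ε₅ * θ) η' θ (by positivity) hη'0 hθ0
    (by linarith)
  obtain ⟨η₁, hη₁⟩ : ∃ η₁ : ℝ, η₁ = min η η' := ⟨_, rfl⟩
  have hη₁0 : 0 < η₁ := by rw [hη₁]; exact lt_min hη hη'0
  have hη₁η : η₁ ≤ η := by rw [hη₁]; exact min_le_left _ _
  have hη₁η' : η₁ ≤ η' := by rw [hη₁]; exact min_le_right _ _
  obtain ⟨δ₃, hδ₃0, R₃, d₃, hthree⟩ :=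
    three_sided (ε₅ * θ) η₁ θ β (by positivity) hη₁0 hθ0 hθ1 hβ
  obtain ⟨δ, hδ⟩ : ∃ δ : ℝ, δ = min (min (δ' / 6) (δ₃ / 6)) 1 := ⟨_, rfl⟩
  have hδ0 : 0 < δ := by
    rw [hδ]; exact lt_min (lt_min (by positivity) (by positivity)) one_pos
  have hδ1 : δ ≤ 1 := by rw [hδ]; exact min_le_right _ _
  have hδδ : 6 * δ ≤ δ' := by
    have : δ ≤ δ' / 6 := by rw [hδ]; exact (min_le_left _ _).trans (min_le_left _ _)
    linarith
  have hδδ₃ : 6 * δ ≤ δ₃ := by
    have : δ ≤ δ₃ / 6 := by rw [hδ]; exact (min_le_left _ _).trans (min_le_right _ _)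
    linarith
  obtain ⟨N₀, Rb, db, hfew⟩ := few_dirs η' δ hη'0 hδ0 hδ1
  obtain ⟨R, hR⟩ : ∃ R : ℝ, R = max (max Ra Rb) (max R₃ 1) := ⟨_, rfl⟩
  have hRa : Ra ≤ R := by rw [hR]; exact (le_max_left _ _).trans (le_max_left _ _)
  have hRb : Rb ≤ R := by rw [hR]; exact (le_max_right _ _).trans (le_max_left _ _)
  have hR₃ : R₃ ≤ R := by rw [hR]; exact (le_max_left _ _).trans (le_max_right _ _)
  have hR1 : 1 ≤ R := by rw [hR]; exact (le_max_right _ _).trans (le_max_right _ _)
  obtain ⟨N₁, hpack⟩ := packing η' R hη'0 (by linarith)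
  obtain ⟨C₃, htri⟩ := opposite_triple N₀ N₁ δ hδ0
  refine ⟨C₃, max (max da db) d₃, R, hR1, ?_⟩
  intro n hn hn1 C S T hconv hCc hSC hTS hT
  have hnda : da ≤ n := ((le_max_left _ _).trans (le_max_left _ _)).trans hn
  have hndb : db ≤ n := ((le_max_right _ _).trans (le_max_left _ _)).trans hn
  have hnd₃ : d₃ ≤ n := (le_max_right _ _).trans hn
  have hκ := kap_pos (n + 1)
  have hκn := kap_pos n
  have hMn := Mn_pos hn1
  have hd0 : (0 : ℝ) < (n : ℝ) + 1 := by positivity
  have hsd : 0 < √((n : ℝ) + 1) := Real.sqrt_pos.mpr hd0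
  obtain ⟨τ, hτ⟩ : ∃ τ : ℝ, τ = θ / ((n : ℝ) + 1) := ⟨_, rfl⟩
  have hτ0 : 0 < τ := by rw [hτ]; positivity
  have hτ1 : τ ≤ 1 / ((n : ℝ) + 1) := by
    rw [hτ]; exact div_le_div_of_nonneg_right (by linarith) hd0.le
  rw [← hτ] at hT ⊢
  -- the cells
  obtain ⟨J, hJ⟩ : ∃ J : EuclideanSpace ℝ (Fin (n + 1)) → ℝ,
      ∀ w, J w = volume.real (Inn C τ w ∩ Vor S w) := ⟨_, fun _ => rfl⟩
  have hCfin : ∀ A : Set (EuclideanSpace ℝ (Fin (n + 1))), A ⊆ C → volume A ≠ ⊤ := fun A hA =>
    ne_top_of_le_ne_top hCc.measure_ne_top (measure_mono hA)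
  have hInnC : ∀ w, Inn C τ w ⊆ C := fun w x hx => hx.1
  have hJ1 : ∀ w, J w ≤ volume.real (Inn C τ w) := by
    intro w
    rw [hJ]
    exact measureReal_mono inter_subset_left (hCfin _ (hInnC w))
  have hJ2 : ∀ w, J w ≤ volume.real ((C ∩ closedBall w 1) ∩ Vor S w) := by
    intro w
    rw [hJ]
    refine measureReal_mono (inter_subset_inter_left _ fun x hx => ⟨hx.1, ?_⟩)
      (hCfin _ (inter_subset_left.trans inter_subset_left))
    rw [mem_closedBall, dist_eq_norm]
    exact hx.2.1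
  have hcell : ∀ w ∈ S, (C ∩ closedBall w 1) ∩ Vor S w ⊆ C ∩ closedBall w 1 :=
    fun w _ => inter_subset_left
  have hJ3 : ∀ w ∈ S, J w ≤ volume.real (C ∩ closedBall w 1) := by
    intro w hw
    exact (hJ2 w).trans (measureReal_mono (hcell w hw) (hCfin _ inter_subset_left))
  have hJ4 : ∀ w ∈ S, J w ≤ kap (n + 1) := by
    intro w hw
    refine (hJ3 w hw).trans ?_
    rw [← vol_ball_real w]
    exact measureReal_mono inter_subset_right (isCompact_closedBall w 1).measure_ne_top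
  obtain ⟨G, hG⟩ : ∃ G : Finset (EuclideanSpace ℝ (Fin (n + 1))),
      G = S.filter (fun w => η' * kap (n + 1) ≤ J w) := ⟨_, rfl⟩
  have hGmem : ∀ w, w ∈ G ↔ w ∈ S ∧ η' * kap (n + 1) ≤ J w := by
    intro w; rw [hG, Finset.mem_filter]
  obtain ⟨P, hP⟩ : ∃ P : Finset (EuclideanSpace ℝ (Fin (n + 1))),
      P = G.filter (fun w => ¬ ∃ a ∈ G, ∃ b ∈ G, R / √((n : ℝ) + 1) ≤ ‖a - w‖ ∧
        R / √((n : ℝ) + 1) ≤ ‖b - w‖ ∧ ‖dir w a + dir w b‖ ≤ 6 * δ) := ⟨_, rfl⟩
  have hPmem : ∀ w, w ∈ P ↔ w ∈ G ∧ ¬ ∃ a ∈ G, ∃ b ∈ G, R / √((n : ℝ) + 1) ≤ ‖a - w‖ ∧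
        R / √((n : ℝ) + 1) ≤ ‖b - w‖ ∧ ‖dir w a + dir w b‖ ≤ 6 * δ := by
    intro w; rw [hP, Finset.mem_filter]
  have hPG : ∀ w ∈ P, w ∈ G := fun w hw => ((hPmem w).mp hw).1
  have hPcard : P.card ≤ C₃ := by
    by_contra hcon
    push Not at hcon
    obtain ⟨w, hw, a, ha, b, hb, h1, h2, h3⟩ := htri (n + 1) (R / √((n : ℝ) + 1)) P
      (by positivity) hcon (by
        intro w hw T hT hTw
        apply hpack n hn1 G (fun w => (C ∩ closedBall w 1) ∩ Vor S w) ?_ ?_ ?_ ?_ w T
          (fun u hu => hPG u (hT hu)) ?_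
        · intro w hw
          exact (hCc.measurableSet.inter measurableSet_closedBall).inter
            (Vor_closed S w).measurableSet
        · intro w hw
          exact (hcell w ((hGmem w).mp hw).1).trans inter_subset_right
        · intro w hw w' hw' hne
          apply measure_mono_null _ (vor_inter S w w' ((hGmem w).mp hw).1 ((hGmem w').mp hw').1 hne)
          rintro x ⟨⟨_, h1⟩, ⟨_, h2⟩⟩
          exact ⟨h1, h2⟩
        · intro w hw
          exact ((hGmem w).mp hw).2.trans (hJ2 w)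
        · intro u hu
          have h4 := hTw u hu
          rw [lt_div_iff₀ hsd] at h4
          linarith) (by
        intro w hw U hU hUfar hUsep
        have hwG := (hGmem w).mp (hPG w hw)
        apply hfew n hndb C hconv hCc w (hSC w hwG.1) τ hτ0 hτ1 (hwG.2.trans (hJ1 w)) U ?_ ?_ hUsep
        · intro u hu
          have h4 := hUfar u hu
          rw [div_le_iff₀ hsd] at h4
          linarith
        · intro u hu
          have huG := (hGmem u).mp (hPG u (hU hu))
          exact huG.2.trans (hJ3 u huG.1))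
    exact ((hPmem w).mp hw).2 ⟨a, hPG a ha, b, hPG b hb, h1, h2, h3⟩
  -- the bound for each cell
  obtain ⟨Z, hZ⟩ : ∃ Z : ℝ, Z = 2 * Mn n * θ * kap n := ⟨_, rfl⟩
  have hZ0 : 0 ≤ Z := by rw [hZ]; positivity
  have hJle : ∀ w ∈ S, J w ≤ (Z - (if w ∈ T then Z / 200 else 0)) + ε₅ * θ * kap (n + 1) +
      (if w ∈ P then kap (n + 1) else 0) := by
    intro w hw
    have hpos2 : 0 ≤ ε₅ * θ * kap (n + 1) := by positivity
    have hZT : 0 ≤ Z - (if w ∈ T then Z / 200 else 0) := by
      split_ifs <;> linarith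
    by_cases hwP : w ∈ P
    · rw [if_pos hwP]
      have := hJ4 w hw
      linarith
    · rw [if_neg hwP, add_zero]
      by_cases hwG : w ∈ G
      · have h1 : ∃ a ∈ G, ∃ b ∈ G, R / √((n : ℝ) + 1) ≤ ‖a - w‖ ∧
            R / √((n : ℝ) + 1) ≤ ‖b - w‖ ∧ ‖dir w a + dir w b‖ ≤ 6 * δ := by
          by_contra hcon
          exact hwP ((hPmem w).mpr ⟨hwG, hcon⟩)
        obtain ⟨a, ha, b, hb, hfa, hfb, hab⟩ := h1
        have haG := (hGmem a).mp ha
        have hbG := (hGmem b).mp hb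
        rw [div_le_iff₀ hsd] at hfa hfb
        by_cases hwT : w ∈ T
        · rw [if_pos hwT]
          have hwG' := (hGmem w).mp hwG
          rcases hT w hwT with h3 | h3
          · exfalso
            rw [← hη', ← hJ w] at h3
            linarith [hwG'.2]
          · have hbw : 0 < ‖b - w‖ := by
              by_contra hcon
              have h4 : ‖b - w‖ = 0 := le_antisymm (not_lt.mp hcon) (norm_nonneg _)
              rw [h4, zero_mul] at hfb
              linarith
            have hdir : ‖dir w b‖ = 1 := by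
              unfold dir
              rw [norm_smul, Real.norm_of_nonneg (by positivity)]
              field_simp
            obtain ⟨z, hz, hzR, hzη, hz1, hz2⟩ := h3 (dir w b) hdir
            have hk1 : η₁ * kap (n + 1) ≤ η' * kap (n + 1) :=
              mul_le_mul_of_nonneg_right hη₁η' hκ.le
            have hk2 : η₁ * kap (n + 1) ≤ η * kap (n + 1) :=
              mul_le_mul_of_nonneg_right hη₁η hκ.le
            have hmem : ∀ u ∈ C, u - w ∈ shiftC C w := by
              intro u hu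
              simp only [shiftC, mem_preimage, sub_add_cancel]
              exact hu
            have h2 := hthree n hnd₃ (shiftC C w) (shiftC_convex C w hconv)
              (shiftC_compact C w hCc)
              (by simp only [shiftC, mem_preimage, zero_add]; exact hSC w hw)
              (a - w) (hmem a (hSC a haG.1)) (b - w) (hmem b (hSC b hbG.1)) (z - w) (hmem z hz)
              (by linarith) (by linarith) (by linarith) (by rw [dir_shift, dir_shift]; linarith)
              (by rw [dir_shift, dir_shift]; exact hz1) (by rw [dir_shift, dir_shift]; exact hz2)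
              (by
                have h5 := ball_shift C w w
                rw [sub_self] at h5
                rw [h5, vol_shift]
                exact hk1.trans (hwG'.2.trans (hJ3 w hwG'.1)))
              (by rw [ball_shift, vol_shift]; exact hk1.trans (haG.2.trans (hJ3 a haG.1)))
              (by rw [ball_shift, vol_shift]; exact hk1.trans (hbG.2.trans (hJ3 b hbG.1)))
              (by rw [ball_shift, vol_shift]; exact hk2.trans hzη)
            rw [← hτ, Inn_shift, vol_shift, ← hZ] at h2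
            have h6 := (hJ1 w).trans h2
            linarith
        · rw [if_neg hwT, sub_zero]
          have h2 := htwo n hnda (shiftC C w) (shiftC_convex C w hconv) (shiftC_compact C w hCc)
            (by simp only [shiftC, mem_preimage, zero_add]; exact hSC w hw) (a - w) (b - w)
            (by linarith) (by linarith) (by rw [dir_shift, dir_shift]; linarith)
            (by rw [ball_shift, vol_shift]; exact haG.2.trans (hJ3 a haG.1))
            (by rw [ball_shift, vol_shift]; exact hbG.2.trans (hJ3 b hbG.1))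
          rw [← hτ, Inn_shift, vol_shift, ← hZ] at h2
          exact (hJ1 w).trans h2
      · have h1 : J w < η' * kap (n + 1) := by
          by_contra hcon
          exact hwG ((hGmem w).mpr ⟨hw, not_lt.mp hcon⟩)
        rw [hη'] at h1
        linarith
  have h1 : ∑ w ∈ S, volume.real (Inn C τ w ∩ Vor S w) = ∑ w ∈ S, J w :=
    Finset.sum_congr rfl fun w _ => (hJ w).symm
  rw [h1, ← hZ]
  have hTsum : ∑ w ∈ S, (if w ∈ T then Z / 200 else 0) = T.card * (Z / 200) := by
    rw [← Finset.sum_filter, Finset.sum_const, nsmul_eq_mul]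
    congr 2
    rw [Finset.filter_mem_eq_inter, Finset.inter_eq_right.mpr hTS]
  calc ∑ w ∈ S, J w ≤ ∑ w ∈ S, ((Z - (if w ∈ T then Z / 200 else 0)) +
        ε₅ * θ * kap (n + 1) + (if w ∈ P then kap (n + 1) else 0)) := Finset.sum_le_sum hJle
    _ = (S.card * Z - T.card * (Z / 200)) + S.card * (ε₅ * θ * kap (n + 1)) +
        ∑ w ∈ S, (if w ∈ P then kap (n + 1) else 0) := by
        rw [Finset.sum_add_distrib, Finset.sum_add_distrib, Finset.sum_sub_distrib,
          Finset.sum_const, Finset.sum_const, nsmul_eq_mul, nsmul_eq_mul, hTsum]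
    _ ≤ _ := by
        rw [← Finset.sum_filter, Finset.sum_const, nsmul_eq_mul]
        have h1 : (S.filter (fun w => w ∈ P)).card ≤ C₃ := by
          refine (Finset.card_le_card ?_).trans hPcard
          intro w hw
          exact (Finset.mem_filter.mp hw).2
        have h2 : ((S.filter (fun w => w ∈ P)).card : ℝ) ≤ C₃ := by exact_mod_cast h1
        have h3 : ((S.filter (fun w => w ∈ P)).card : ℝ) * kap (n + 1) ≤ C₃ * kap (n + 1) :=
          mul_le_mul_of_nonneg_right h2 hκ.le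
        have h4 : (S.card : ℝ) * Z - T.card * (Z / 200) = (S.card - T.card / 200) * Z := by ring
        linarith

end SA70
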