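import Pool.Agent.SA70.Basic

/-! QL: a convex set which looks one-dimensional from many of its points is thin. -/

set_option autoImplicit false

open MeasureTheory Measure Metric Set Module ENNReal

namespace SA70

open SC70

/-- near up to sign -/
private def QNear {E : Type*} [NormedAddCommGroup E] (a : ℝ) (u v : E) : Prop :=
  ‖u - v‖ < a ∨ ‖u + v‖ < a

private theorem qnear_symm {E : Type*} [NormedAddCommGroup E] {a : ℝ} {u v : E}
    (h : QNear a u v) : QNear a v u := by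
  rcases h with h | h
  · exact Or.inl (by rwa [norm_sub_rev])
  · exact Or.inr (by rwa [add_comm])

private theorem qnear_neg {E : Type*} [NormedAddCommGroup E] {a : ℝ} {u v : E}
    (h : QNear a (-u) v) : QNear a u v := by
  rcases h with h | h
  · refine Or.inr ?_
    have : -u - v = -(u + v) := by abel
    rwa [this, norm_neg] at h
  · refine Or.inl ?_
    have : -u + v = -(u - v) := by abel
    rwa [this, norm_neg] at h

private theorem qnear_trans {E : Type*} [NormedAddCommGroup E] {a b : ℝ} {u v w : E}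
    (h : QNear a u v) (h' : QNear b v w) : QNear (a + b) u w := by
  rcases h with h | h <;> rcases h' with h' | h'
  · refine Or.inl ?_
    have : u - w = (u - v) + (v - w) := by abel
    rw [this]
    exact lt_of_le_of_lt (norm_add_le _ _) (add_lt_add h h')
  · refine Or.inr ?_
    have : u + w = (u - v) + (v + w) := by abel
    rw [this]
    exact lt_of_le_of_lt (norm_add_le _ _) (add_lt_add h h')
  · refine Or.inr ?_
    have : u + w = (u + v) - (v - w) := by abel
    rw [this]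
    exact lt_of_le_of_lt (norm_sub_le _ _) (add_lt_add h h')
  · refine Or.inl ?_
    have : u - w = (u + v) - (v + w) := by abel
    rw [this]
    exact lt_of_le_of_lt (norm_sub_le _ _) (add_lt_add h h')

private theorem qdir_symm {E : Type*} [NormedAddCommGroup E] [InnerProductSpace ℝ E] (w a : E) :
    dir a w = -dir w a := by
  unfold dir
  rw [norm_sub_rev, ← smul_neg, neg_sub]

private theorem qdir_inner {E : Type*} [NormedAddCommGroup E] [InnerProductSpace ℝ E]
    (w a e : E) : inner ℝ (a - w) e = ‖a - w‖ * inner ℝ (dir w a) e := by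
  unfold dir
  rw [real_inner_smul_left]
  by_cases h : a - w = 0
  · rw [h]
    simp
  · have : ‖a - w‖ ≠ 0 := norm_ne_zero_iff.2 h
    field_simp

private theorem qnear_inner {E : Type*} [NormedAddCommGroup E] [InnerProductSpace ℝ E] {a : ℝ}
    {u e : E} (he : ‖e‖ = 1) (h : QNear a u e) : 1 - a ≤ |inner ℝ u e| := by
  have hee : inner ℝ e e = (1 : ℝ) := by rw [real_inner_self_eq_norm_sq, he, one_pow]
  rcases h with h | h
  · have h1 : inner ℝ u e = 1 + inner ℝ (u - e) e := by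
      rw [inner_sub_left, hee]
      ring
    have h2 : |inner ℝ (u - e) e| ≤ ‖u - e‖ := by
      have := abs_real_inner_le_norm (u - e) e
      rwa [he, mul_one] at this
    have h3 := neg_le_of_abs_le h2
    have h4 := le_abs_self (inner ℝ u e)
    linarith
  · have h1 : inner ℝ u e = inner ℝ (u + e) e - 1 := by
      rw [inner_add_left, hee]
      ring
    have h2 : |inner ℝ (u + e) e| ≤ ‖u + e‖ := by
      have := abs_real_inner_le_norm (u + e) e
      rwa [he, mul_one] at this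
    have h3 := le_of_abs_le h2
    have h4 := neg_le_abs (inner ℝ u e)
    linarith

private theorem q_stepA {E : Type*} [NormedAddCommGroup E] [InnerProductSpace ℝ E] {ρ : ℝ}
    {A : Set E} {B : Finset E} (hBA : ∀ w ∈ B, w ∈ A)
    (H : ∀ w ∈ B, ∃ e : E, ‖e‖ = 1 ∧ ∀ x ∈ A, ρ ≤ ‖x - w‖ →
      ‖dir w x - e‖ < 1 / 40 ∨ ‖dir w x + e‖ < 1 / 40)
    (w r r' x : E) (hw : w ∈ B) (hr : r ∈ B) (hr' : r' ∈ A) (hx : x ∈ A) (h1 : ρ ≤ ‖x - w‖)
    (h2 : ρ ≤ ‖r - w‖) (h3 : ρ ≤ ‖r' - r‖) :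
    QNear (1 / 40 + 1 / 40 + 1 / 40 + 1 / 40) (dir w x) (dir r r') := by
  obtain ⟨ew, -, Hw⟩ := H w hw
  obtain ⟨er, -, Hr⟩ := H r hr
  have a1 : QNear (1 / 40) (dir w x) ew := Hw x hx h1
  have a2 : QNear (1 / 40) (dir w r) ew := Hw r (hBA r hr) h2
  have a3 : QNear (1 / 40) (dir r w) er := Hr w (hBA w hw) (by rwa [norm_sub_rev])
  have a4 : QNear (1 / 40) (dir r r') er := Hr r' hr' h3
  rw [qdir_symm] at a3
  exact qnear_trans (qnear_trans (qnear_trans a1 (qnear_symm a2)) (qnear_neg a3)) (qnear_symm a4)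

private theorem q_stepC {E : Type*} [NormedAddCommGroup E] [InnerProductSpace ℝ E] {ρ : ℝ}
    (hρ : 0 < ρ) {A : Set E} (hA : Convex ℝ A) (w p x e : E) (he : ‖e‖ = 1)
    (h : ∀ z ∈ A, ρ ≤ ‖z - w‖ → ‖z - w‖ / 2 ≤ |inner ℝ (z - w) e|) (hp : p ∈ A) (hx : x ∈ A)
    (τ σ : ℝ) (hτ : τ = inner ℝ (w - p) e) (hσ : σ = inner ℝ (x - p) e) (h0 : 0 < τ)
    (h1 : τ ≤ σ) (hu : p + τ • e ∈ A) : τ * ‖x - (p + σ • e)‖ < 2 * ρ * σ := by
  have hσ0 : 0 < σ := h0.trans_le h1
  have hee : inner ℝ e e = (1 : ℝ) := by rw [real_inner_self_eq_norm_sq, he, one_pow]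
  have hu1 : p + (τ / σ) • (x - p) ∈ A :=
    hA.add_smul_sub_mem hp hx ⟨by positivity, (div_le_one hσ0).2 h1⟩
  have hpw : inner ℝ (p - w) e = -τ := by
    rw [hτ, ← inner_neg_left, neg_sub]
  have key : ∀ z ∈ A, inner ℝ (z - w) e = (0 : ℝ) → ‖z - w‖ < ρ := by
    intro z hz hz0
    by_contra hcon
    have := h z hz (not_lt.1 hcon)
    rw [hz0, abs_zero] at this
    linarith [not_lt.1 hcon]
  have k0 := key _ hu (by
    have : p + τ • e - w = (p - w) + τ • e := by abel
    rw [this, inner_add_left, real_inner_smul_left, hee, hpw]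
    ring)
  have k1 := key _ hu1 (by
    have : p + (τ / σ) • (x - p) - w = (p - w) + (τ / σ) • (x - p) := by abel
    rw [this, inner_add_left, real_inner_smul_left, ← hσ, hpw]
    field_simp
    ring)
  have hd : (τ / σ) • (x - (p + σ • e)) =
      (p + (τ / σ) • (x - p) - w) - (p + τ • e - w) := by
    have : (τ / σ) • σ • e = τ • e := by
      rw [smul_smul, div_mul_cancel₀ _ hσ0.ne']
    have h2 : x - (p + σ • e) = (x - p) - σ • e := by abel
    rw [h2, smul_sub, this]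
    abel
  have hn : (τ / σ) * ‖x - (p + σ • e)‖ < 2 * ρ := by
    have : ‖(τ / σ) • (x - (p + σ • e))‖ = (τ / σ) * ‖x - (p + σ • e)‖ := by
      rw [norm_smul, Real.norm_of_nonneg (by positivity)]
    rw [← this, hd]
    have := norm_sub_le (p + (τ / σ) • (x - p) - w) (p + τ • e - w)
    linarith
  have : τ * ‖x - (p + σ • e)‖ = ((τ / σ) * ‖x - (p + σ • e)‖) * σ := by
    field_simp
  rw [this]
  exact mul_lt_mul_of_pos_right hn hσ0

private theorem q_count {E : Type*} [NormedAddCommGroup E] {ρ : ℝ} (hρ : 0 < ρ) (N₁ : ℕ)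
    (B : Finset E) (s : E → ℝ)
    (hN : ∀ w ∈ B, ∀ T : Finset E, T ⊆ B → (∀ u ∈ T, ‖u - w‖ ≤ 2 * ρ) → T.card ≤ N₁)
    (hs : ∀ w ∈ B, ∀ w' ∈ B, |s w' - s w| < ρ / 2 → ‖w' - w‖ < ρ) (a L : ℝ) (hL : 0 ≤ L)
    (S : Finset E) (hS : S ⊆ B) (hSs : ∀ w ∈ S, a ≤ s w ∧ s w ≤ a + L) :
    (S.card : ℝ) ≤ N₁ * (4 * L / ρ + 1) := by
  classical
  have h1 : S.card ≤ N₁ * (S.image fun w => ⌊(s w - a) / (ρ / 4)⌋₊).card := by
    refine Finset.card_le_mul_card_image S N₁ (fun b _ => ?_)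
    rcases Finset.eq_empty_or_nonempty (S.filter fun w => ⌊(s w - a) / (ρ / 4)⌋₊ = b) with
      he | ⟨w, hw⟩
    · rw [he]
      simp
    · rw [Finset.mem_filter] at hw
      refine hN w (hS hw.1) _ ((Finset.filter_subset _ _).trans hS) (fun u hu => ?_)
      rw [Finset.mem_filter] at hu
      have hlt : ‖u - w‖ < ρ := by
        refine hs w (hS hw.1) u (hS hu.1) ?_
        have n1 : 0 ≤ (s w - a) / (ρ / 4) :=
          div_nonneg (by linarith [(hSs w hw.1).1]) (by linarith)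
        have n2 : 0 ≤ (s u - a) / (ρ / 4) :=
          div_nonneg (by linarith [(hSs u hu.1).1]) (by linarith)
        have f1 := Nat.floor_le n1
        have f2 := Nat.lt_floor_add_one ((s w - a) / (ρ / 4))
        have f3 := Nat.floor_le n2
        have f4 := Nat.lt_floor_add_one ((s u - a) / (ρ / 4))
        rw [hw.2] at f1 f2
        rw [hu.2] at f3 f4
        have hr : (0 : ℝ) < ρ / 4 := by linarith
        rw [le_div_iff₀ hr] at f1 f3
        rw [div_lt_iff₀ hr] at f2 f4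
        rw [abs_lt]
        constructor <;> nlinarith
      linarith
  have h2 : (S.image fun w => ⌊(s w - a) / (ρ / 4)⌋₊) ⊆ Finset.range (⌊4 * L / ρ⌋₊ + 1) := by
    intro b hb
    obtain ⟨w, hw, rfl⟩ := Finset.mem_image.1 hb
    rw [Finset.mem_range, Nat.lt_succ_iff]
    refine Nat.floor_le_floor ?_
    have hr : (0 : ℝ) < ρ / 4 := by linarith
    rw [div_le_div_iff₀ hr hρ]
    nlinarith [(hSs w hw).2]
  have h3 := Finset.card_le_card h2
  rw [Finset.card_range] at h3
  have h4 : (S.card : ℝ) ≤ N₁ * ((⌊4 * L / ρ⌋₊ : ℝ) + 1) := by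
    have := h1.trans (Nat.mul_le_mul_left N₁ h3)
    exact_mod_cast this
  refine h4.trans (mul_le_mul_of_nonneg_left ?_ (Nat.cast_nonneg _))
  have := Nat.floor_le (show 0 ≤ 4 * L / ρ by positivity)
  linarith

/-- `β = 1/40`. Let `p, q ∈ B` be at maximal distance `D`, `e₀ = dir p q`, `s_x = ⟪x - p, e₀⟫`. `D ≥ 2ρ` (else
`|B| ≤ N₁`). `s_w ∈ [0, D]` for `w ∈ B`.
(A) `w ∈ B`, `x ∈ A`, `‖x-w‖ ≥ ρ`: `dir w x` is within `4β` of `±e₀` (one of `p, q`, say `p`, is far from `w`;
`dir w p` is within `β` of `±e_w`; `e₀ = dir p q` and `dir p w = -dir w p` are within `β` of `±e_p`), so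
`|s_x - s_w| ≥ ‖x-w‖/2`.
(B) So `w, w' ∈ B` with `|s_w - s_w'| < ρ/2` have distance `< ρ`, an interval of length `ρ/4` has at most `N₁` of
the `s_w`, an interval `[u,v]` at most `N₁ (4(v-u)/ρ + 2)`.
(C) Let `x ∈ A` have distance `Y ≥ R₂ ρ` from the line `p + R e₀`. For `w ∈ B`, `t = s_w`: the points
`u₀ = p + t e₀` and `u₁ ∈ A` on `[p,x]` (if `t ≤ s_x`) or `[x,q]` (if `t ≥ s_x`) with `s = t` have distance
`μ Y`, `μ = t/s_x` or `(D-t)/(D-s_x)`; one of them has distance `≥ μY/2` from `w`, and `|s - s_w| = 0`: by (A)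
`μ Y < 2ρ`. So all `s_w` are in `[0, 2ρ s⁺/Y] ∪ [D - 2ρ (D-s)⁺/Y, D]` and by (B) and `‖x-p‖, ‖x-q‖ ≤ Λ|B|ρ`
`|B| ≤ N₁ (16 Λ |B|/R₂ + 4)`. With `R₂ = 32 Λ N₁ + 1`: `|B| ≤ 8 N₁`. -/
theorem thin_geo (N₁ : ℕ) (Λ : ℝ) (hΛ : 0 < Λ) : ∃ R₂ : ℝ, 0 < R₂ ∧ ∃ K₀ : ℕ, ∀ (n : ℕ) (ρ : ℝ)
    (A : Set (EuclideanSpace ℝ (Fin n))) (B : Finset (EuclideanSpace ℝ (Fin n))), 0 < ρ →
    Convex ℝ A → (∀ w ∈ B, w ∈ A) → K₀ ≤ B.card →
    (∀ w ∈ B, ∀ T : Finset (EuclideanSpace ℝ (Fin n)), T ⊆ B → (∀ u ∈ T, ‖u - w‖ ≤ 2 * ρ) →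
      T.card ≤ N₁) →
    (∀ w ∈ B, ∃ e : EuclideanSpace ℝ (Fin n), ‖e‖ = 1 ∧ ∀ x ∈ A, ρ ≤ ‖x - w‖ →
      ‖dir w x - e‖ < 1 / 40 ∨ ‖dir w x + e‖ < 1 / 40) →
    (∀ x ∈ A, ∀ y ∈ A, ‖x - y‖ ≤ Λ * B.card * ρ) →
    ∃ p e : EuclideanSpace ℝ (Fin n), ‖e‖ = 1 ∧ ∀ x ∈ A, ∃ t : ℝ, ‖x - (p + t • e)‖ ≤ R₂ * ρ := by
  classical
  have hR : (0 : ℝ) < 32 * Λ * N₁ + 1 := by positivity
  refine ⟨32 * Λ * N₁ + 1, hR, 8 * N₁ + 1, ?_⟩
  intro n ρ A B hρ hA hBA hK hN H hdiam
  have hBne : B.Nonempty := by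
    rw [← Finset.card_pos]
    omega
  obtain ⟨⟨p, q⟩, hpq, hmax⟩ := Finset.exists_max_image (B ×ˢ B) (fun z => ‖z.2 - z.1‖)
    (hBne.product hBne)
  rw [Finset.mem_product] at hpq
  have hpB : p ∈ B := hpq.1
  have hqB : q ∈ B := hpq.2
  have hmax' : ∀ w ∈ B, ∀ w' ∈ B, ‖w' - w‖ ≤ ‖q - p‖ := fun w hw w' hw' =>
    hmax (w, w') (Finset.mem_product.2 ⟨hw, hw'⟩)
  have hD : 2 * ρ < ‖q - p‖ := by
    by_contra hcon
    have := hN p hpB B (Finset.Subset.refl _) (fun u hu => (hmax' p hpB u hu).trans (not_lt.1 hcon))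
    omega
  have hD0 : 0 < ‖q - p‖ := by linarith
  set D := ‖q - p‖ with hDdef
  have he : ‖dir p q‖ = 1 := by
    unfold dir
    rw [norm_smul, ← hDdef, Real.norm_of_nonneg (by positivity)]
    field_simp
  set e := dir p q with hedef
  have hqpe : q - p = D • e := by
    rw [hedef]
    unfold dir
    rw [← hDdef, smul_smul, mul_one_div_cancel hD0.ne', one_smul]
  have hee : inner ℝ e e = (1 : ℝ) := by rw [real_inner_self_eq_norm_sq, he, one_pow]
  have hqe : inner ℝ (q - p) e = D := by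
    rw [hqpe, real_inner_smul_left, hee, mul_one]
  have hle : ∀ v : EuclideanSpace ℝ (Fin n), inner ℝ v e ≤ ‖v‖ := by
    intro v
    have := real_inner_le_norm v e
    rwa [he, mul_one] at this
  -- (A)
  have hAA : ∀ w ∈ B, ∀ x ∈ A, ρ ≤ ‖x - w‖ → ‖x - w‖ / 2 ≤ |inner ℝ (x - w) e| := by
    intro w hw x hx hxw
    have hnear : QNear (1 / 40 + 1 / 40 + 1 / 40 + 1 / 40) (dir w x) e := by
      have htri : ‖q - p‖ ≤ ‖q - w‖ + ‖p - w‖ := by
        have : q - p = (q - w) - (p - w) := by abel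
        rw [this]
        exact norm_sub_le _ _
      rcases le_total ρ ‖p - w‖ with h | h
      · exact q_stepA hBA H w p q x hw hpB (hBA q hqB) hx hxw h (by linarith)
      · have h' : ρ ≤ ‖q - w‖ := by linarith
        have := q_stepA hBA H w q p x hw hqB (hBA p hpB) hx hxw h' (by
          rw [norm_sub_rev]
          linarith)
        rw [qdir_symm p q, ← hedef] at this
        exact qnear_symm (qnear_neg (qnear_symm this))
    have h1 := qnear_inner he hnear
    rw [qdir_inner, abs_mul, abs_norm]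
    have h2 : ‖x - w‖ * (1 / 2) ≤ ‖x - w‖ * |inner ℝ (dir w x) e| :=
      mul_le_mul_of_nonneg_left (by linarith) (norm_nonneg _)
    linarith
  -- the coordinates of the points of `B`
  have hs0 : ∀ w ∈ B, 0 ≤ inner ℝ (w - p) e := by
    intro w hw
    have h1 := hle (q - w)
    have h2 := hmax' w hw q hqB
    have h3 : inner ℝ (w - p) e = D - inner ℝ (q - w) e := by
      rw [← hqe, ← inner_sub_left]
      congr 1
      abel
    linarith
  have hsD : ∀ w ∈ B, inner ℝ (w - p) e ≤ D := fun w hw => (hle _).trans (hmax' p hpB w hw)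
  refine ⟨p, e, he, fun x hx => ⟨inner ℝ (x - p) e, ?_⟩⟩
  by_contra hcon
  rw [not_le] at hcon
  set R₂ : ℝ := 32 * Λ * N₁ + 1 with hR₂
  set Y := ‖x - (p + (inner ℝ (x - p) e : ℝ) • e)‖ with hY
  obtain ⟨m, hm⟩ : ∃ m : ℝ, m = B.card := ⟨_, rfl⟩
  have hm1 : (8 : ℝ) * N₁ + 1 ≤ m := by
    rw [hm]
    exact_mod_cast hK
  have hm0 : 0 < m := by
    have : (0 : ℝ) ≤ N₁ := Nat.cast_nonneg _
    linarith
  -- the points on the axis
  have haxis : ∀ t : ℝ, 0 ≤ t → t ≤ D → p + t • e ∈ A := by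
    intro t h0 h1
    have : p + t • e = p + (t / D) • (q - p) := by
      rw [hqpe, smul_smul, div_mul_cancel₀ _ hD0.ne']
    rw [this]
    exact hA.add_smul_sub_mem (hBA p hpB) (hBA q hqB) ⟨by positivity, (div_le_one hD0).2 h1⟩
  obtain ⟨L, hL⟩ : ∃ L : ℝ, L = 2 * Λ * m * ρ / R₂ := ⟨_, rfl⟩
  have hL0 : 0 ≤ L := by
    rw [hL]
    positivity
  have hLR : L * R₂ = 2 * Λ * m * ρ := by
    rw [hL, div_mul_cancel₀ _ hR.ne']
  -- common end of the two cases
  have hfin : ∀ τ σ : ℝ, 0 < τ → τ * Y < 2 * ρ * σ → σ ≤ Λ * m * ρ → τ ≤ L := by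
    intro τ σ h0 h1 h2
    have h3 : τ * (R₂ * ρ) ≤ τ * Y := mul_le_mul_of_nonneg_left hcon.le h0.le
    have h4 : 2 * ρ * σ ≤ 2 * ρ * (Λ * m * ρ) := mul_le_mul_of_nonneg_left h2 (by linarith)
    have h5 : (τ * R₂) * ρ < (L * R₂) * ρ := by
      rw [hLR]
      nlinarith
    have h6 := lt_of_mul_lt_mul_right h5 hρ.le
    exact (lt_of_mul_lt_mul_right h6 hR.le).le
  have hcases : ∀ w ∈ B, inner ℝ (w - p) e ≤ L ∨ D - L ≤ inner ℝ (w - p) e := by
    intro w hw
    rcases le_total (inner ℝ (w - p) e : ℝ) (inner ℝ (x - p) e) with h | h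
    · left
      rcases (hs0 w hw).eq_or_lt with h0 | h0
      · rw [← h0]
        exact hL0
      · refine hfin _ (inner ℝ (x - p) e) h0 ?_ ?_
        · exact q_stepC hρ hA w p x e he (hAA w hw) (hBA p hpB) hx _ _ rfl rfl h0 h
            (haxis _ h0.le (hsD w hw))
        · have := hdiam x hx p (hBA p hpB)
          rw [← hm] at this
          exact (hle _).trans this
    · right
      rcases (hsD w hw).eq_or_lt with h0 | h0
      · rw [h0]
        linarith
      · have hwq : D - inner ℝ (w - p) e = inner ℝ (w - q) (-e) := by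
          rw [inner_neg_right, ← inner_neg_left, neg_sub, ← hqe, ← inner_sub_left]
          congr 1
          abel
        have hxq : D - inner ℝ (x - p) e = inner ℝ (x - q) (-e) := by
          rw [inner_neg_right, ← inner_neg_left, neg_sub, ← hqe, ← inner_sub_left]
          congr 1
          abel
        have hax : ∀ t : ℝ, q + (D - t) • (-e) = p + t • e := by
          intro t
          have : q = p + D • e := by
            rw [← hqpe]
            abel
          rw [this, smul_neg, sub_smul]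
          abel
        have hst := q_stepC hρ hA w q x (-e) (by rw [norm_neg, he])
          (fun z hz hzw => by
            rw [inner_neg_right, abs_neg]
            exact hAA w hw z hz hzw) (hBA q hqB) hx (D - inner ℝ (w - p) e)
          (D - inner ℝ (x - p) e) hwq hxq (by linarith) (by linarith) (by
            rw [hax]
            exact haxis _ (hs0 w hw) h0.le)
        rw [hax] at hst
        have := hfin _ (D - inner ℝ (x - p) e) (by linarith) hst (by
          have h2 := hdiam q (hBA q hqB) x hx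
          rw [← hm] at h2
          have h3 := hle (q - x)
          have h4 : D - inner ℝ (x - p) e = inner ℝ (q - x) e := by
            rw [← hqe, ← inner_sub_left]
            congr 1
            abel
          linarith)
        linarith
  -- (B)
  have hBB : ∀ w ∈ B, ∀ w' ∈ B, |inner ℝ (w' - p) e - inner ℝ (w - p) e| < ρ / 2 →
      ‖w' - w‖ < ρ := by
    intro w hw w' hw' hlt
    by_contra hcon'
    rw [not_lt] at hcon'
    have h1 := hAA w hw w' (hBA w' hw') hcon'
    have h2 : inner ℝ (w' - w) e = inner ℝ (w' - p) e - inner ℝ (w - p) e := by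
      rw [← inner_sub_left]
      congr 1
      abel
    rw [h2] at h1
    linarith
  have c1 := q_count hρ N₁ B (fun w => inner ℝ (w - p) e) hN hBB 0 L hL0
    (B.filter fun w => inner ℝ (w - p) e ≤ L) (Finset.filter_subset _ _) (fun w hw => by
      rw [Finset.mem_filter] at hw
      exact ⟨hs0 w hw.1, by linarith [hw.2]⟩)
  have c2 := q_count hρ N₁ B (fun w => inner ℝ (w - p) e) hN hBB (D - L) L hL0
    (B.filter fun w => D - L ≤ inner ℝ (w - p) e) (Finset.filter_subset _ _) (fun w hw => by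
      rw [Finset.mem_filter] at hw
      exact ⟨hw.2, by linarith [hsD w hw.1]⟩)
  have hsub : B ⊆ (B.filter fun w => inner ℝ (w - p) e ≤ L) ∪
      (B.filter fun w => D - L ≤ inner ℝ (w - p) e) := by
    intro w hw
    rw [Finset.mem_union, Finset.mem_filter, Finset.mem_filter]
    rcases hcases w hw with h | h
    · exact Or.inl ⟨hw, h⟩
    · exact Or.inr ⟨hw, h⟩
  have hcard := (Finset.card_le_card hsub).trans (Finset.card_union_le _ _)
  have hcard' : m ≤ ((B.filter fun w => inner ℝ (w - p) e ≤ L).card : ℝ) +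
      ((B.filter fun w => D - L ≤ inner ℝ (w - p) e).card : ℝ) := by
    rw [hm]
    exact_mod_cast hcard
  have hNn : (0 : ℝ) ≤ N₁ := Nat.cast_nonneg _
  have hkey : (N₁ : ℝ) * (4 * L / ρ) * 2 ≤ m / 2 := by
    have h1 : 4 * L / ρ = 8 * Λ * m / R₂ := by
      rw [hL]
      field_simp
      ring
    rw [h1]
    have h2 : (N₁ : ℝ) * (8 * Λ * m / R₂) * 2 = 16 * Λ * N₁ * m / R₂ := by
      ring
    rw [h2, div_le_iff₀ hR, hR₂]
    nlinarith
  nlinarith
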