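import Pool.Agent.SA70.QK
import Pool.Agent.SA70.QL
import Pool.Agent.SA70.M7f
import Pool.Agent.SA70.M13

/-! QN: every counterexample is thin. -/

set_option autoImplicit false

open MeasureTheory Measure Metric Set Module ENNReal

namespace SA70

open SC70

/-- the first alternative from the cell sums -/
lemma str_num (θ ε₅ V k Q c₃ : ℝ) (hθ : θ = 1 / 10000) (hε₅ : ε₅ = 1 / 1000000)
    (hk : 100000000000 * (c₃ + 1) ≤ k) (hQ : 0 < Q) (hc : 0 ≤ c₃)
    (h : (1 - ε₅) * (θ / (1 + θ)) * V ≤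
      k * (1 - 1 / 400) * (2 * θ * Q) + 10 * k * (ε₅ * θ * Q) + c₃ * (5 * Q)) :
    V ≤ 499 / 500 * (2 * k * Q) := by
  have hk0 : 0 < k := lt_of_lt_of_le (by positivity) hk
  have hkQ : 0 < k * Q := by positivity
  have h1 : c₃ * Q ≤ k * Q / 100000000000 := by
    rw [le_div_iff₀ (by norm_num)]
    nlinarith
  rw [hθ, hε₅] at h
  by_contra hcon
  push Not at hcon
  nlinarith

/-- the volume of a set covered by balls -/
lemma vol_le_card {n : ℕ} (C : Set (EuclideanSpace ℝ (Fin (n + 1))))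
    (X : Finset (EuclideanSpace ℝ (Fin (n + 1)))) (hcov : C ⊆ ⋃ x ∈ X, closedBall x 1) :
    volume.real C ≤ X.card * kap (n + 1) := by
  have hX0 : (0 : ℝ) ≤ X.card := Nat.cast_nonneg _
  have h1 : volume C ≤ ENNReal.ofReal (X.card * kap (n + 1)) := by
    calc volume C ≤ volume (⋃ x ∈ X, closedBall x (1 : ℝ)) := measure_mono hcov
      _ ≤ ∑ x ∈ X, volume (closedBall x (1 : ℝ)) := measure_biUnion_finset_le _ _
      _ = ∑ x ∈ X, ENNReal.ofReal (kap (n + 1)) := by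
          refine Finset.sum_congr rfl fun x _ => ?_
          rw [← vol_ball_real x, ofReal_measureReal (h := measure_closedBall_lt_top.ne)]
      _ = ENNReal.ofReal (X.card * kap (n + 1)) := by
          rw [Finset.sum_const, nsmul_eq_mul, ENNReal.ofReal_mul hX0, ENNReal.ofReal_natCast]
  exact ENNReal.toReal_le_of_le_ofReal (mul_nonneg hX0 (kap_nonneg _)) h1

/-- every body for which the sausage inequality is nearly sharp is thin -/
theorem structure70 (η : ℝ) (hη : 0 < η) : ∃ R : ℝ, ∃ k₀ d₀ : ℕ, 1 ≤ d₀ ∧ ∀ n : ℕ, d₀ ≤ n →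
    ∀ (C : Set (EuclideanSpace ℝ (Fin (n + 1)))) (X : Finset (EuclideanSpace ℝ (Fin (n + 1)))),
      Convex ℝ C → IsCompact C → C ⊆ ⋃ x ∈ X, closedBall x 1 → k₀ ≤ X.card →
      volume.real C ≤ 499 / 500 * (2 * X.card * (kap n * Mn n)) ∨
      ∃ p e : EuclideanSpace ℝ (Fin (n + 1)), ‖e‖ = 1 ∧
        ∀ x ∈ C, η * kap (n + 1) ≤ volume.real (C ∩ closedBall x 1) →
          ∃ t : ℝ, ‖x - (p + t • e)‖ ≤ R / √((n : ℝ) + 1) := by
  classical
  obtain ⟨θ, hθ⟩ : ∃ θ : ℝ, θ = 1 / 10000 := ⟨_, rfl⟩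
  obtain ⟨ε₅, hε₅⟩ : ∃ ε₅ : ℝ, ε₅ = 1 / 1000000 := ⟨_, rfl⟩
  have hθ0 : 0 < θ := by rw [hθ]; norm_num
  have hθ1 : θ ≤ 1 / 1000 := by rw [hθ]; norm_num
  have hε₅0 : 0 < ε₅ := by rw [hε₅]; norm_num
  have hε₅1 : ε₅ ≤ 1 := by rw [hε₅]; norm_num
  obtain ⟨η', hη'⟩ : ∃ η' : ℝ, η' = min η (ε₅ * θ) := ⟨_, rfl⟩
  have hη'0 : 0 < η' := by rw [hη']; exact lt_min hη (by positivity)
  have hη'η : η' ≤ η := by rw [hη']; exact min_le_left _ _
  have hη'θ : η' ≤ ε₅ * θ := by rw [hη']; exact min_le_right _ _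
  obtain ⟨C₃, da, R₁, hR₁, hcore⟩ :=
    core_sum3 ε₅ θ (1 / 40) η' hε₅0 hθ0 hθ1 (by norm_num) hη'0
  obtain ⟨d₂, hv⟩ := voronoi_sum4 (ε₅ / 2) θ (by positivity) (by linarith) hθ0 (by linarith)
  obtain ⟨N₁, hpack⟩ := packing η' (2 * R₁) hη'0 (by linarith)
  obtain ⟨Λ', hΛ', hlen⟩ := length_bound η' hη'0
  have hR₁0 : 0 < R₁ := by linarith
  obtain ⟨R₂, hR₂, K₀, hgeo⟩ := thin_geo N₁ (2 * Λ' / R₁) (by positivity)
  refine ⟨R₂ * R₁, ⌈100000000000 * ((C₃ : ℝ) + 1)⌉₊ + 2 * K₀ + 1, max d₂ (max da 1), ?_, ?_⟩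
  · exact (le_max_right _ _).trans (le_max_right _ _)
  intro n hn C X hconv hCc hcov hk
  have hn1 : 1 ≤ n := ((le_max_right _ _).trans (le_max_right _ _)).trans hn
  have hnda : da ≤ n := ((le_max_left _ _).trans (le_max_right _ _)).trans hn
  have hnd2 : d₂ ≤ n := (le_max_left _ _).trans hn
  have hκ := kap_pos (n + 1)
  have hκn := kap_pos n
  have hMn := Mn_pos hn1
  have hd0 : (0 : ℝ) < (n : ℝ) + 1 := by positivity
  have hsd : 0 < √((n : ℝ) + 1) := Real.sqrt_pos.mpr hd0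
  rcases C.eq_empty_or_nonempty with hCe | hCne
  · left
    rw [hCe, measureReal_empty]; positivity
  obtain ⟨f, hf1, hf2⟩ := move_in C hconv hCc hCne
  obtain ⟨W, hW⟩ : ∃ W : Finset (EuclideanSpace ℝ (Fin (n + 1))), W = X.image f := ⟨_, rfl⟩
  have hWC : ∀ w ∈ W, w ∈ C := by
    intro w hw
    rw [hW] at hw
    obtain ⟨x, _, rfl⟩ := Finset.mem_image.mp hw
    exact hf1 x
  have hcovW : C ⊆ ⋃ w ∈ W, closedBall w 1 := by
    intro x hx
    have h1 := hcov hx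
    simp only [mem_iUnion] at h1 ⊢
    obtain ⟨w, hw, hxw⟩ := h1
    rw [mem_closedBall, dist_eq_norm] at hxw
    exact ⟨f w, by rw [hW]; exact Finset.mem_image_of_mem f hw,
      by rw [mem_closedBall, dist_eq_norm]; exact (hf2 w x hx).trans hxw⟩
  have hWcard : (W.card : ℝ) ≤ X.card := by
    rw [hW]; exact_mod_cast Finset.card_image_le
  have hV0 : 0 ≤ volume.real C := measureReal_nonneg
  obtain ⟨S, hSW, hsum⟩ := hv n hnd2 C W hconv hCc hWC hcovW
  have hSC : ∀ w ∈ S, w ∈ C := fun w hw => hWC w (hSW hw)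
  have hScard : (S.card : ℝ) ≤ X.card :=
    le_trans (by exact_mod_cast Finset.card_le_card hSW) hWcard
  obtain ⟨τ, hτ⟩ : ∃ τ : ℝ, τ = θ / ((n : ℝ) + 1) := ⟨_, rfl⟩
  have hτ0 : 0 < τ := by rw [hτ]; positivity
  have hX0 : (0 : ℝ) ≤ X.card := Nat.cast_nonneg _
  obtain ⟨T, hTd⟩ : ∃ T : Finset (EuclideanSpace ℝ (Fin (n + 1))),
      T = S.filter (fun w => volume.real (Inn C (θ / ((n : ℝ) + 1)) w ∩ Vor S w) <
        ε₅ * θ * kap (n + 1) ∨
        ∀ e : EuclideanSpace ℝ (Fin (n + 1)), ‖e‖ = 1 → ∃ z ∈ C,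
          R₁ ≤ √((n : ℝ) + 1) * ‖z - w‖ ∧ η' * kap (n + 1) ≤ volume.real (C ∩ closedBall z 1) ∧
          1 / 40 ≤ ‖dir w z - e‖ ∧ 1 / 40 ≤ ‖dir w z + e‖) := ⟨_, rfl⟩
  have hTS : T ⊆ S := by rw [hTd]; exact Finset.filter_subset _ _
  obtain ⟨B, hB⟩ : ∃ B : Finset (EuclideanSpace ℝ (Fin (n + 1))), B = S \ T := ⟨_, rfl⟩
  have hBcard : (T.card : ℝ) + B.card = S.card := by
    rw [hB]
    have := Finset.card_sdiff_add_card_eq_card hTS
    rw [← this]; push_cast; ring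
  have hJ := hcore n hnda hn1 C S T hconv hCc hSC hTS (by
    intro w hw
    rw [hTd] at hw
    exact (Finset.mem_filter.mp hw).2)
  obtain ⟨Q, hQ⟩ : ∃ Q : ℝ, Q = kap n * Mn n := ⟨_, rfl⟩
  have hQ0 : 0 < Q := by rw [hQ]; positivity
  have hκle := kap_succ_le' hn1
  have hκQ : kap (n + 1) ≤ 5 * Q := by rw [hQ]; linarith
  have hk0 : 100000000000 * ((C₃ : ℝ) + 1) ≤ X.card := by
    have h1 := Nat.le_ceil (100000000000 * ((C₃ : ℝ) + 1))
    have h2 : ⌈100000000000 * ((C₃ : ℝ) + 1)⌉₊ ≤ X.card := by omega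
    have h3 : ((⌈100000000000 * ((C₃ : ℝ) + 1)⌉₊ : ℕ) : ℝ) ≤ (X.card : ℝ) := by exact_mod_cast h2
    linarith
  by_cases hcase : 2 * (B.card : ℝ) ≤ X.card
  · left
    rw [← hQ]
    refine str_num θ ε₅ (volume.real C) X.card Q C₃ hθ hε₅ hk0 hQ0 (Nat.cast_nonneg _) ?_
    have hb := one_add_mul_le_pow (a := θ / ((n : ℝ) + 1))
      (by have : 0 ≤ θ / ((n : ℝ) + 1) := by positivity
          linarith) (n + 1)
    have h1 : ((n + 1 : ℕ) : ℝ) * (θ / ((n : ℝ) + 1)) = θ := by push_cast; field_simp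
    rw [h1] at hb
    have h2 : ((1 + θ / ((n : ℝ) + 1)) ^ (n + 1))⁻¹ ≤ (1 + θ)⁻¹ :=
      inv_anti₀ (by linarith) hb
    have h3 : θ / (1 + θ) = 1 - (1 + θ)⁻¹ := by field_simp; ring
    have h4 : (1 - ε₅) * (θ / (1 + θ)) ≤
        1 - ((1 + θ / ((n : ℝ) + 1)) ^ (n + 1))⁻¹ - ε₅ / 2 * θ := by
      have h5 : ε₅ / 2 * θ ≤ ε₅ * (θ / (1 + θ)) := by
        have h6 : θ / 2 ≤ θ / (1 + θ) := div_le_div_of_nonneg_left hθ0.le (by linarith) (by linarith)
        calc ε₅ / 2 * θ = ε₅ * (θ / 2) := by ring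
          _ ≤ ε₅ * (θ / (1 + θ)) := mul_le_mul_of_nonneg_left h6 hε₅0.le
      have h7 : (1 - ε₅) * (θ / (1 + θ)) = θ / (1 + θ) - ε₅ * (θ / (1 + θ)) := by ring
      rw [h7]
      linarith
    have h8 := mul_le_mul_of_nonneg_right h4 hV0
    have h9 : ε₅ / 2 * θ * (W.card * kap (n + 1)) ≤ ε₅ * θ * W.card * kap (n + 1) := by
      have : 0 ≤ ε₅ * θ * W.card * kap (n + 1) := by positivity
      linarith
    have hsum' : (1 - ε₅) * (θ / (1 + θ)) * volume.real C ≤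
        ∑ w ∈ S, volume.real (Inn C (θ / ((n : ℝ) + 1)) w ∩ Vor S w) +
          ε₅ * θ * W.card * kap (n + 1) := by linarith [h8, h9, hsum]
    have e1 : 2 * Mn n * θ * kap n = 2 * θ * Q := by rw [hQ]; ring
    rw [e1] at hJ
    have h10 : (S.card : ℝ) - T.card / 200 ≤ X.card * (1 - 1 / 400) := by linarith
    have h11 : ((S.card : ℝ) - T.card / 200) * (2 * θ * Q) ≤
        X.card * (1 - 1 / 400) * (2 * θ * Q) :=
      mul_le_mul_of_nonneg_right h10 (by positivity)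
    have h12 : (S.card : ℝ) * (ε₅ * θ * kap (n + 1)) ≤ X.card * (ε₅ * θ * (5 * Q)) := by gcongr
    have h13 : ε₅ * θ * W.card * kap (n + 1) ≤ X.card * (ε₅ * θ * (5 * Q)) := by
      calc ε₅ * θ * W.card * kap (n + 1) = W.card * (ε₅ * θ * kap (n + 1)) := by ring
        _ ≤ X.card * (ε₅ * θ * (5 * Q)) := by gcongr
    have h14 : (C₃ : ℝ) * kap (n + 1) ≤ C₃ * (5 * Q) := by gcongr
    have h15 : (X.card : ℝ) * (ε₅ * θ * (5 * Q)) + X.card * (ε₅ * θ * (5 * Q)) =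
        10 * X.card * (ε₅ * θ * Q) := by ring
    linarith
  · right
    push Not at hcase
    obtain ⟨A, hA⟩ : ∃ A : Set (EuclideanSpace ℝ (Fin (n + 1))),
        A = {x | x ∈ C ∧ η' * kap (n + 1) ≤ volume.real (C ∩ closedBall x 1)} := ⟨_, rfl⟩
    have hAmem : ∀ x, x ∈ A ↔ x ∈ C ∧ η' * kap (n + 1) ≤ volume.real (C ∩ closedBall x 1) := by
      intro x; rw [hA]; exact Iff.rfl
    have hAconv : Convex ℝ A := by
      intro x hx y hy s t hs ht hst
      have hx' := (hAmem x).mp hx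
      have hy' := (hAmem y).mp hy
      rw [hAmem]
      refine ⟨hconv hx'.1 hy'.1 hs ht hst, ?_⟩
      have h1 := big_mid C hconv hCc η' hη'0 x y hx'.2 hy'.2 t ht (by linarith)
      have h2 : 1 - t = s := by linarith
      rw [h2] at h1
      exact h1
    have hCfin : ∀ D : Set (EuclideanSpace ℝ (Fin (n + 1))), D ⊆ C → volume D ≠ ⊤ := fun D hD =>
      ne_top_of_le_ne_top hCc.measure_ne_top (measure_mono hD)
    have hBS : ∀ w ∈ B, w ∈ S := by
      intro w hw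
      rw [hB] at hw
      exact (Finset.mem_sdiff.mp hw).1
    have hBnot : ∀ w ∈ B, ¬ (volume.real (Inn C (θ / ((n : ℝ) + 1)) w ∩ Vor S w) <
        ε₅ * θ * kap (n + 1) ∨
        ∀ e : EuclideanSpace ℝ (Fin (n + 1)), ‖e‖ = 1 → ∃ z ∈ C,
          R₁ ≤ √((n : ℝ) + 1) * ‖z - w‖ ∧ η' * kap (n + 1) ≤ volume.real (C ∩ closedBall z 1) ∧
          1 / 40 ≤ ‖dir w z - e‖ ∧ 1 / 40 ≤ ‖dir w z + e‖) := by
      intro w hw hcon
      rw [hB] at hw
      apply (Finset.mem_sdiff.mp hw).2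
      rw [hTd]
      exact Finset.mem_filter.mpr ⟨(Finset.mem_sdiff.mp hw).1, hcon⟩
    have hcellbig : ∀ w ∈ B, η' * kap (n + 1) ≤
        volume.real ((C ∩ closedBall w 1) ∩ Vor S w) := by
      intro w hw
      have h1 := hBnot w hw
      push Not at h1
      have h2 : η' * kap (n + 1) ≤ ε₅ * θ * kap (n + 1) := mul_le_mul_of_nonneg_right hη'θ hκ.le
      refine h2.trans (h1.1.trans (measureReal_mono (inter_subset_inter_left _ ?_)
        (hCfin _ (inter_subset_left.trans inter_subset_left))))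
      intro x hx
      refine ⟨hx.1, ?_⟩
      rw [mem_closedBall, dist_eq_norm]
      exact hx.2.1
    have hballbig : ∀ w ∈ B, η' * kap (n + 1) ≤ volume.real (C ∩ closedBall w 1) := fun w hw =>
      (hcellbig w hw).trans (measureReal_mono inter_subset_left (hCfin _ inter_subset_left))
    have hBA : ∀ w ∈ B, w ∈ A := fun w hw =>
      (hAmem w).mpr ⟨hSC w (hBS w hw), hballbig w hw⟩
    have hXV : volume.real C ≤ X.card * kap (n + 1) := vol_le_card C X hcov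
    have hBX : X.card * kap (n + 1) ≤ 2 * B.card * kap (n + 1) :=
      mul_le_mul_of_nonneg_right hcase.le hκ.le
    obtain ⟨ρ, hρ⟩ : ∃ ρ : ℝ, ρ = R₁ / √((n : ℝ) + 1) := ⟨_, rfl⟩
    have hρ0 : 0 < ρ := by rw [hρ]; exact div_pos hR₁0 hsd
    have hρR : √((n : ℝ) + 1) * ρ = R₁ := by rw [hρ]; exact mul_div_cancel₀ _ hsd.ne'
    obtain ⟨p, e, he, hpe⟩ := hgeo (n + 1) ρ A B hρ0 hAconv hBA (by
        have h1 : 2 * K₀ ≤ X.card := by omega
        have h2 : ((2 * K₀ : ℕ) : ℝ) ≤ X.card := by exact_mod_cast h1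
        push_cast at h2
        have h3 : (K₀ : ℝ) ≤ B.card := by linarith
        exact_mod_cast h3) (by
        intro w hw T' hT' hTw
        refine hpack n hn1 B (fun w => (C ∩ closedBall w 1) ∩ Vor S w) ?_ ?_ ?_ hcellbig w T' hT' ?_
        · intro w _
          exact (hCc.measurableSet.inter measurableSet_closedBall).inter
            (Vor_closed S w).measurableSet
        · intro w _
          exact inter_subset_left.trans inter_subset_right
        · intro w hw w' hw' hne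
          apply measure_mono_null _ (vor_inter S w w' (hBS w hw) (hBS w' hw') hne)
          rintro x ⟨⟨_, h1⟩, ⟨_, h2⟩⟩
          exact ⟨h1, h2⟩
        · intro u hu
          have h4 := mul_le_mul_of_nonneg_left (hTw u hu) hsd.le
          calc √((n : ℝ) + 1) * ‖u - w‖ ≤ √((n : ℝ) + 1) * (2 * ρ) := h4
            _ = 2 * (√((n : ℝ) + 1) * ρ) := by ring
            _ = 2 * R₁ := by rw [hρR]) (by
        intro w hw
        have h1 := hBnot w hw
        push Not at h1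
        obtain ⟨e, he, h2⟩ := h1.2
        refine ⟨e, he, ?_⟩
        intro x hx hxw
        have hx' := (hAmem x).mp hx
        by_contra hcon
        push Not at hcon
        have h3 := h2 x hx'.1 (by rw [← hρR]; exact mul_le_mul_of_nonneg_left hxw hsd.le) hx'.2
          hcon.1
        linarith [hcon.2]) (by
        intro x hx y hy
        have hx' := (hAmem x).mp hx
        have hy' := (hAmem y).mp hy
        have h1 := hlen n hn1 C hconv hCc x y hx'.2 hy'.2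
        have h2 : Λ' * volume.real C ≤ Λ' * (2 * B.card * kap (n + 1)) :=
          mul_le_mul_of_nonneg_left (hXV.trans hBX) hΛ'.le
        have h3 : √((n : ℝ) + 1) * ‖x - y‖ ≤ Λ' * (2 * B.card) := by
          refine le_of_mul_le_mul_right ?_ hκ
          calc √((n : ℝ) + 1) * ‖x - y‖ * kap (n + 1) ≤ Λ' * (2 * B.card * kap (n + 1)) :=
                h1.trans h2
            _ = Λ' * (2 * B.card) * kap (n + 1) := by ring
        have h4 : 2 * Λ' / R₁ * B.card * ρ = Λ' * (2 * B.card) / √((n : ℝ) + 1) := by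
          have h5 : 2 * Λ' / R₁ * B.card * ρ =
              Λ' * (2 * B.card) / √((n : ℝ) + 1) * (R₁ / R₁) := by rw [hρ]; ring
          rw [h5, div_self hR₁0.ne', mul_one]
        rw [h4, le_div_iff₀ hsd]
        linarith)
    refine ⟨p, e, he, ?_⟩
    intro x hx hxη
    obtain ⟨t, ht⟩ := hpe x ((hAmem x).mpr ⟨hx,
      (mul_le_mul_of_nonneg_right hη'η hκ.le).trans hxη⟩)
    refine ⟨t, ht.trans (le_of_eq ?_)⟩
    rw [hρ]; ring

end SA70
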