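import Pool.Agent.SA70.QN
import Pool.Agent.SA70.M7a

/-! QO: every counterexample is thin, for the centres of arbitrary balls. -/

set_option autoImplicit false

open MeasureTheory Measure Metric Set Module ENNReal

namespace SA70

open SC70

/-- a ball with a large part in `C` has its centre near `C` -/
lemma near_body {n : ℕ} (C : Set (EuclideanSpace ℝ (Fin (n + 1)))) (η : ℝ) (hη : 0 < η)
    (x y : EuclideanSpace ℝ (Fin (n + 1))) (hxy : ∀ z ∈ C, ‖z - y‖ ≤ ‖z - x‖)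
    (h : η * kap (n + 1) ≤ volume.real (C ∩ closedBall x 1)) :
    ‖x - y‖ ≤ √(8 / η) / √((n : ℝ) + 1) := by
  have hκ := kap_pos (n + 1)
  have hd0 : (0 : ℝ) < (n : ℝ) + 1 := by positivity
  have hsd : 0 < √((n : ℝ) + 1) := Real.sqrt_pos.mpr hd0
  rcases (norm_nonneg (x - y)).eq_or_lt with h0 | hpos
  · rw [← h0]; positivity
  obtain ⟨v, hv⟩ : ∃ v : EuclideanSpace ℝ (Fin (n + 1)), v = (1 / ‖x - y‖) • (y - x) := ⟨_, rfl⟩
  have hvn : ‖v‖ = 1 := by
    rw [hv, norm_smul, Real.norm_of_nonneg (by positivity), norm_sub_rev y x]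
    field_simp
  obtain ⟨s, hs⟩ : ∃ s : ℝ, s = ‖x - y‖ / 2 := ⟨_, rfl⟩
  have hs0 : 0 < s := by rw [hs]; linarith
  have hcap := cap_le v hvn s hs0.le
  have hsub : C ∩ closedBall x 1 ⊆ (fun z => z - x) ⁻¹'
      {z | z ∈ closedBall (0 : EuclideanSpace ℝ (Fin (n + 1))) 1 ∧ s ≤ inner ℝ v z} := by
    rintro z ⟨hzC, hzx⟩
    refine ⟨?_, ?_⟩
    · rw [mem_closedBall_zero_iff]
      rwa [mem_closedBall, dist_eq_norm] at hzx
    · have h1 := hxy z hzC
      have h2 : ‖z - y‖ ^ 2 ≤ ‖z - x‖ ^ 2 := pow_le_pow_left₀ (norm_nonneg _) h1 2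
      have h3 : z - y = (z - x) - (y - x) := by abel
      rw [h3, norm_sub_sq_real] at h2
      have h4 : ‖y - x‖ ^ 2 ≤ 2 * inner ℝ (z - x) (y - x) := by linarith
      rw [hv, inner_smul_left, hs, real_inner_comm]
      simp only [conj_trivial]
      rw [norm_sub_rev y x] at h4
      have h5 : ‖x - y‖ / 2 * ‖x - y‖ ≤ inner ℝ (z - x) (y - x) := by nlinarith
      rw [one_div, inv_mul_eq_div, le_div_iff₀ hpos]
      exact h5
  have hfin : volume {z | z ∈ closedBall (0 : EuclideanSpace ℝ (Fin (n + 1))) 1 ∧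
      s ≤ inner ℝ v z} ≠ ⊤ :=
    ((measure_mono (fun z hz => hz.1)).trans_lt
      (isCompact_closedBall (0 : EuclideanSpace ℝ (Fin (n + 1))) 1).measure_lt_top).ne
  have hvol : volume.real (C ∩ closedBall x 1) ≤
      Real.exp (-(s ^ 2 * ((n : ℝ) + 1) / 2)) * kap (n + 1) := by
    refine le_trans ?_ hcap
    rw [measureReal_def, measureReal_def]
    refine ENNReal.toReal_mono hfin ((measure_mono hsub).trans ?_)
    have e1 : (fun z : EuclideanSpace ℝ (Fin (n + 1)) => z - x) = fun z => z + (-x) := by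
      funext z; exact sub_eq_add_neg z x
    rw [e1, measure_preimage_add_right]
  have h6 : η ≤ Real.exp (-(s ^ 2 * ((n : ℝ) + 1) / 2)) :=
    le_of_mul_le_mul_right (h.trans hvol) hκ
  have h7 : s ^ 2 * ((n : ℝ) + 1) / 2 ≤ 1 / η := by
    have h8 := Real.add_one_le_exp (s ^ 2 * ((n : ℝ) + 1) / 2)
    rw [Real.exp_neg] at h6
    have h9 : Real.exp (s ^ 2 * ((n : ℝ) + 1) / 2) ≤ 1 / η := by
      rw [one_div]
      exact le_inv_of_le_inv₀ hη h6
    linarith
  rw [le_div_iff₀ hsd]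
  apply Real.le_sqrt_of_sq_le
  rw [mul_pow, Real.sq_sqrt hd0.le]
  have h10 : ‖x - y‖ = 2 * s := by rw [hs]; ring
  rw [h10]
  have h11 : 8 / η = 8 * (1 / η) := by ring
  rw [h11]
  nlinarith

/-- `structure70` for the centres of arbitrary balls -/
theorem structure71 (η : ℝ) (hη : 0 < η) : ∃ R : ℝ, ∃ k₀ d₀ : ℕ, 1 ≤ d₀ ∧ ∀ n : ℕ, d₀ ≤ n →
    ∀ (C : Set (EuclideanSpace ℝ (Fin (n + 1)))) (X : Finset (EuclideanSpace ℝ (Fin (n + 1)))),
      Convex ℝ C → IsCompact C → C ⊆ ⋃ x ∈ X, closedBall x 1 → k₀ ≤ X.card →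
      volume.real C ≤ 499 / 500 * (2 * X.card * (kap n * Mn n)) ∨
      ∃ p e : EuclideanSpace ℝ (Fin (n + 1)), ‖e‖ = 1 ∧
        ∀ x, η * kap (n + 1) ≤ volume.real (C ∩ closedBall x 1) →
          ∃ t : ℝ, ‖x - (p + t • e)‖ ≤ R / √((n : ℝ) + 1) := by
  obtain ⟨R, k₀, d₀, hd₀, H⟩ := structure70 η hη
  refine ⟨√(8 / η) + R, k₀, d₀, hd₀, ?_⟩
  intro n hn C X hconv hCc hcov hk
  have hκ := kap_pos (n + 1)
  rcases H n hn C X hconv hCc hcov hk with h | ⟨p, e, he, h⟩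
  · exact Or.inl h
  · right
    refine ⟨p, e, he, ?_⟩
    intro x hx
    rcases C.eq_empty_or_nonempty with hCe | hCne
    · exfalso
      rw [hCe, empty_inter, measureReal_empty] at hx
      have : 0 < η * kap (n + 1) := mul_pos hη hκ
      linarith
    obtain ⟨f, hf1, hf2⟩ := move_in C hconv hCc hCne
    have h1 := near_body C η hη x (f x) (hf2 x) hx
    have h2 : η * kap (n + 1) ≤ volume.real (C ∩ closedBall (f x) 1) := by
      refine hx.trans (measureReal_mono ?_ (ne_top_of_le_ne_top hCc.measure_ne_top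
        (measure_mono inter_subset_left)))
      rintro z ⟨hz, hzx⟩
      refine ⟨hz, ?_⟩
      rw [mem_closedBall, dist_eq_norm] at hzx ⊢
      exact (hf2 x z hz).trans hzx
    obtain ⟨t, ht⟩ := h (f x) (hf1 x) h2
    refine ⟨t, ?_⟩
    have h3 : x - (p + t • e) = (x - f x) + (f x - (p + t • e)) := by abel
    rw [h3, add_div]
    exact (norm_add_le _ _).trans (add_le_add h1 ht)

end SA70
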