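import Pool.Agent.SA70.Basic

/-! R0: notation for the pair bound. -/

set_option autoImplicit false

open MeasureTheory Measure Metric Set Module ENNReal

namespace SA70

/-- the part left of `T` of a profile below a line with slope `-σ` and below the Gaussian -/
noncomputable def tlt (T σ : ℝ) : ℝ :=
  ∫ s in Iic T, Real.exp (-(max (T ^ 2 / 2 + σ * (s - T)) (s ^ 2 / 2)))

/-- the weight `r^(n-1) dt dr` of a planar set -/
noncomputable def wt (n : ℕ) (S : Set (ℝ × ℝ)) : ℝ≥0∞ :=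
  ∫⁻ p in S, ENNReal.ofReal (p.2 ^ (n - 1))

/-- the shell of `K` near the origin, left of `α` -/
def shl (K : Set (ℝ × ℝ)) (α τ : ℝ) : Set (ℝ × ℝ) :=
  {p | 0 < p.2 ∧ p ∈ K ∧ p.1 ≤ α ∧ p.1 ^ 2 + p.2 ^ 2 ≤ 1 ∧ ((1 + τ) * p.1, (1 + τ) * p.2) ∉ K}

/-- the mirror image of `K` at the line with first coordinate `α` -/
def mir (α : ℝ) (K : Set (ℝ × ℝ)) : Set (ℝ × ℝ) := {p | (2 * α - p.1, p.2) ∈ K}

end SA70
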