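import Pool.Agent.SA70.R0

/-! R1a: `tlt_zero`. -/

set_option autoImplicit false

open MeasureTheory Measure Metric Set Module ENNReal

namespace SA70

namespace tlt_zeroAux

/-- the Gaussian -/
noncomputable def G (s : ℝ) : ℝ := Real.exp (-(s ^ 2 / 2))

theorem G_eq : G = fun s => Real.exp (-(1 / 2) * s ^ 2) := by
  funext s; unfold G; congr 1; ring

theorem G_cont : Continuous G := by unfold G; fun_prop

theorem G_int : Integrable G := by
  rw [G_eq]; exact integrable_exp_neg_mul_sq (by norm_num)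

theorem G_nonneg (s : ℝ) : 0 ≤ G s := (Real.exp_pos _).le

theorem G_Ioi : ∫ s in Ioi (0 : ℝ), G s ≤ 125332 / 100000 := by
  rw [G_eq, integral_gaussian_Ioi]
  rw [div_le_iff₀ (by norm_num)]
  rw [Real.sqrt_le_left (by norm_num)]
  have := Real.pi_lt_d6
  norm_num at this ⊢
  linarith

theorem G_tail : ∫ s in Iic (-(7 / 10) : ℝ), G s ≤ 6105 / 10000 := by
  have h1 : ∫ s in Iic (-(7 / 10) : ℝ), G s = ∫ s in Ioi (7 / 10 : ℝ), G s := by
    have h := integral_comp_neg_Iic (-(7 / 10) : ℝ) G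
    rw [neg_neg] at h
    rw [← h]
    congr 1
    funext s
    unfold G
    rw [neg_sq]
  rw [h1]
  have h2 : (∫ s in (0 : ℝ)..(7 / 10), G s) + ∫ s in Ioi (7 / 10 : ℝ), G s =
      ∫ s in Ioi (0 : ℝ), G s :=
    intervalIntegral.integral_interval_add_Ioi G_int.integrableOn G_int.integrableOn
  have h3 : ∫ s in (0 : ℝ)..(7 / 10), (1 - s ^ 2 / 2) ≤ ∫ s in (0 : ℝ)..(7 / 10), G s := by
    apply intervalIntegral.integral_mono_on (by norm_num)
    · exact (Continuous.intervalIntegrable (by fun_prop) _ _)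
    · exact G_cont.intervalIntegrable _ _
    · intro s _
      have := Real.add_one_le_exp (-(s ^ 2 / 2))
      unfold G
      linarith
  have h4 : ∫ s in (0 : ℝ)..(7 / 10), (1 - s ^ 2 / 2) = 7 / 10 - (7 / 10) ^ 3 / 6 := by
    rw [intervalIntegral.integral_sub (by simp) (Continuous.intervalIntegrable (by fun_prop) _ _),
      intervalIntegral.integral_div, integral_pow]
    norm_num
  rw [h4] at h3
  have h5 := G_Ioi
  norm_num at h3 ⊢
  linarith

theorem mid (T : ℝ) : (T + 7 / 10) * Real.exp (-(T ^ 2 / 2)) ≤ 11095 / 10000 := by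
  have h1 : (41 / 32 : ℝ) ≤ Real.exp (1 / 4) := by
    have := Real.quadratic_le_exp_of_nonneg (x := 1 / 4) (by norm_num)
    norm_num at this ⊢
    linarith
  have h2 : (41 / 32 : ℝ) * (3 / 4 + T ^ 2 / 2) ≤ Real.exp (T ^ 2 / 2) := by
    have h3 : Real.exp (T ^ 2 / 2) = Real.exp (1 / 4) * Real.exp (T ^ 2 / 2 - 1 / 4) := by
      rw [← Real.exp_add]; congr 1; ring
    rw [h3]
    apply mul_le_mul h1 _ (by positivity) (Real.exp_pos _).le
    have := Real.add_one_le_exp (T ^ 2 / 2 - 1 / 4)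
    linarith
  have h4 : T + 7 / 10 ≤ 11095 / 10000 * Real.exp (T ^ 2 / 2) := by
    have : T + 7 / 10 ≤ 11095 / 10000 * ((41 / 32 : ℝ) * (3 / 4 + T ^ 2 / 2)) := by
      nlinarith [sq_nonneg (T - 7 / 10)]
    linarith
  calc (T + 7 / 10) * Real.exp (-(T ^ 2 / 2)) ≤
      (11095 / 10000 * Real.exp (T ^ 2 / 2)) * Real.exp (-(T ^ 2 / 2)) :=
        mul_le_mul_of_nonneg_right h4 (Real.exp_pos _).le
    _ = 11095 / 10000 := by
        rw [mul_assoc, ← Real.exp_add]; simp

end tlt_zeroAux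

open tlt_zeroAux

theorem tlt_zero (T : ℝ) : tlt T 0 ≤ 172 / 100 := by
  unfold tlt
  obtain ⟨f, hf⟩ : ∃ f : ℝ → ℝ, f = fun s =>
    Real.exp (-(max (T ^ 2 / 2 + 0 * (s - T)) (s ^ 2 / 2))) := ⟨_, rfl⟩
  rw [← hf]
  have hfc : Continuous f := by rw [hf]; fun_prop
  have hfG : ∀ s, f s ≤ G s := by
    intro s
    rw [hf]
    exact Real.exp_le_exp.2 (neg_le_neg (le_max_right _ _))
  have hf0 : ∀ s, 0 ≤ f s := by
    intro s
    rw [hf]
    exact (Real.exp_pos _).le
  have hfT : ∀ s, f s ≤ Real.exp (-(T ^ 2 / 2)) := by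
    intro s
    rw [hf]
    apply Real.exp_le_exp.2 (neg_le_neg _)
    refine le_trans (le_of_eq ?_) (le_max_left _ _)
    ring
  have hfi : Integrable f := by
    refine G_int.mono' hfc.aestronglyMeasurable (Filter.Eventually.of_forall fun s => ?_)
    rw [Real.norm_eq_abs, abs_of_nonneg (hf0 s)]
    exact hfG s
  rcases le_or_gt T (-(7 / 10)) with hT | hT
  · calc ∫ s in Iic T, f s ≤ ∫ s in Iic T, G s :=
          setIntegral_mono hfi.integrableOn G_int.integrableOn hfG
      _ ≤ ∫ s in Iic (-(7 / 10) : ℝ), G s :=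
          setIntegral_mono_set G_int.integrableOn (Filter.Eventually.of_forall G_nonneg)
            (Filter.Eventually.of_forall (Iic_subset_Iic.2 hT))
      _ ≤ 6105 / 10000 := G_tail
      _ ≤ _ := by norm_num
  · have h1 : ∫ s in Iic T, f s = (∫ s in Iic (-(7 / 10) : ℝ), f s) +
        ∫ s in (-(7 / 10) : ℝ)..T, f s := by
      have h := intervalIntegral.integral_Iic_sub_Iic (f := f) (a := -(7 / 10)) (b := T)
        (μ := volume) hfi.integrableOn hfi.integrableOn
      linarith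
    have h2 : ∫ s in Iic (-(7 / 10) : ℝ), f s ≤ 6105 / 10000 :=
      (setIntegral_mono hfi.integrableOn G_int.integrableOn hfG).trans G_tail
    have h3 : ∫ s in (-(7 / 10) : ℝ)..T, f s ≤ ∫ _ in (-(7 / 10) : ℝ)..T, Real.exp (-(T ^ 2 / 2)) :=
      intervalIntegral.integral_mono_on hT.le (hfc.intervalIntegrable _ _)
        (continuous_const.intervalIntegrable _ _) fun s _ => hfT s
    rw [intervalIntegral.integral_const, smul_eq_mul] at h3
    have h4 := mid T
    rw [h1]
    have h5 : (T - -(7 / 10)) * Real.exp (-(T ^ 2 / 2)) = (T + 7 / 10) * Real.exp (-(T ^ 2 / 2)) := by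
      ring
    linarith

end SA70
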