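import Pool.Agent.SA70.R0

set_option autoImplicit false

open MeasureTheory Measure Metric Set Module ENNReal

namespace SA70

namespace TltPosAux

theorem gauss_int : Integrable (fun s : ℝ => Real.exp (-(1 / 2 : ℝ) * s ^ 2)) :=
  integrable_exp_neg_mul_sq (by norm_num)

theorem half_gauss : ∫ s in Iic (0 : ℝ), Real.exp (-(1 / 2 : ℝ) * s ^ 2) =
    √(Real.pi / (1 / 2)) / 2 := by
  have h := integral_comp_neg_Iic (0 : ℝ) (fun s : ℝ => Real.exp (-(1 / 2 : ℝ) * s ^ 2))
  rw [neg_zero] at h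
  rw [← integral_gaussian_Ioi, ← h]
  congr 1
  ext s
  rw [neg_sq]

theorem half_le : √(Real.pi / (1 / 2)) / 2 ≤ 12534 / 10000 := by
  have h : √(Real.pi / (1 / 2)) ≤ 25068 / 10000 := by
    apply Real.sqrt_le_iff.2
    refine ⟨by norm_num, ?_⟩
    have := Real.pi_lt_d4
    nlinarith
  linarith

theorem F_le (T σ s : ℝ) :
    Real.exp (-(max (T ^ 2 / 2 + σ * (s - T)) (s ^ 2 / 2))) ≤ Real.exp (-(1 / 2 : ℝ) * s ^ 2) := by
  apply Real.exp_le_exp.2
  have := le_max_right (T ^ 2 / 2 + σ * (s - T)) (s ^ 2 / 2)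
  linarith

theorem F_le' (T σ s : ℝ) :
    Real.exp (-(max (T ^ 2 / 2 + σ * (s - T)) (s ^ 2 / 2))) ≤
      Real.exp (-(T ^ 2 / 2 + σ * (s - T))) := by
  apply Real.exp_le_exp.2
  have := le_max_left (T ^ 2 / 2 + σ * (s - T)) (s ^ 2 / 2)
  linarith

theorem F_cont (T σ : ℝ) : Continuous (fun s : ℝ =>
    Real.exp (-(max (T ^ 2 / 2 + σ * (s - T)) (s ^ 2 / 2)))) := by fun_prop

theorem F_int (T σ : ℝ) : Integrable (fun s : ℝ =>
    Real.exp (-(max (T ^ 2 / 2 + σ * (s - T)) (s ^ 2 / 2)))) := by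
  refine gauss_int.mono' (F_cont T σ).aestronglyMeasurable ?_
  filter_upwards with s
  rw [Real.norm_eq_abs, abs_of_pos (Real.exp_pos _)]
  exact F_le T σ s

theorem F_half (T σ : ℝ) : ∫ s in Iic (0 : ℝ),
    Real.exp (-(max (T ^ 2 / 2 + σ * (s - T)) (s ^ 2 / 2))) ≤ 12534 / 10000 := by
  refine le_trans ?_ half_le
  rw [← half_gauss]
  exact setIntegral_mono (F_int T σ).integrableOn gauss_int.integrableOn (F_le T σ)

theorem line_int (T σ : ℝ) (hσ : 0 < σ) : ∫ s in (0 : ℝ)..T,
    Real.exp (-(T ^ 2 / 2 + σ * (s - T))) =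
      Real.exp (-(T ^ 2 / 2)) * (Real.exp (σ * T) - 1) / σ := by
  have h : ∀ s ∈ Set.uIcc 0 T, HasDerivAt
      (fun s : ℝ => -(Real.exp (-(T ^ 2 / 2 + σ * (s - T))) / σ))
      (Real.exp (-(T ^ 2 / 2 + σ * (s - T)))) s := by
    intro s _
    have h1 : HasDerivAt (fun s : ℝ => -(T ^ 2 / 2 + σ * (s - T))) (-(σ * 1)) s :=
      ((((hasDerivAt_id s).sub_const T).const_mul σ).const_add (T ^ 2 / 2)).neg
    have h2 := (h1.exp.div_const σ).neg
    refine h2.congr_deriv ?_
    field_simp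
  rw [intervalIntegral.integral_eq_sub_of_hasDerivAt h
    (Continuous.intervalIntegrable (by fun_prop) _ _)]
  have e1 : Real.exp (-(T ^ 2 / 2 + σ * (T - T))) = Real.exp (-(T ^ 2 / 2)) := by
    congr 1; ring
  have e2 : Real.exp (-(T ^ 2 / 2 + σ * (0 - T))) =
      Real.exp (-(T ^ 2 / 2)) * Real.exp (σ * T) := by
    rw [← Real.exp_add]; congr 1; ring
  rw [e1, e2]
  field_simp
  ring

theorem exp72 : Real.exp (72 / 100) ≤ 206 / 100 := by
  have h := Real.exp_bound' (x := 72 / 100) (by norm_num) (by norm_num) (n := 6) (by norm_num)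
  refine h.trans ?_
  norm_num [Finset.sum_range_succ, Nat.factorial]

end TltPosAux

open TltPosAux

theorem tlt_pos (T : ℝ) : tlt T (3 / 5) ≤ 213 / 100 := by
  unfold tlt
  rcases le_total T 0 with hT | hT
  · refine le_trans (setIntegral_mono_set (F_int T (3 / 5)).integrableOn ?_ ?_)
      ((F_half T (3 / 5)).trans (by norm_num))
    · filter_upwards with s using (Real.exp_pos _).le
    · exact (Iic_subset_Iic.2 hT).eventuallyLE
  · have h1 := intervalIntegral.integral_Iic_sub_Iic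
      (F_int T (3 / 5)).integrableOn (F_int T (3 / 5)).integrableOn (a := 0) (b := T)
    have h2 : ∫ s in (0 : ℝ)..T,
        Real.exp (-(max (T ^ 2 / 2 + (3 / 5) * (s - T)) (s ^ 2 / 2))) ≤
        ∫ s in (0 : ℝ)..T, Real.exp (-(T ^ 2 / 2 + (3 / 5) * (s - T))) := by
      apply intervalIntegral.integral_mono_on hT
      · exact (F_cont T (3 / 5)).intervalIntegrable _ _
      · exact Continuous.intervalIntegrable (by fun_prop) _ _
      · intro s _
        exact F_le' T (3 / 5) s
    rw [line_int T (3 / 5) (by norm_num)] at h2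
    have h3 := F_half T (3 / 5)
    have h4 : Real.exp (-(T ^ 2 / 2)) * (Real.exp (3 / 5 * T) - 1) ≤
        Real.exp (72 / 100) / 4 := by
      have h5 : Real.exp (-(T ^ 2 / 2)) ≤
          Real.exp (72 / 100) * (Real.exp (-(3 / 5 * T)) * Real.exp (-(3 / 5 * T))) := by
        rw [← Real.exp_add, ← Real.exp_add]
        apply Real.exp_le_exp.2
        nlinarith [sq_nonneg (T - 6 / 5)]
      have h6 : 0 ≤ Real.exp (3 / 5 * T) - 1 := by
        have : Real.exp 0 ≤ Real.exp (3 / 5 * T) := Real.exp_le_exp.2 (by positivity)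
        rw [Real.exp_zero] at this
        linarith
      have h7 : Real.exp (-(3 / 5 * T)) * Real.exp (3 / 5 * T) = 1 := by
        rw [← Real.exp_add]; simp
      set y := Real.exp (-(3 / 5 * T)) with hy
      have h8 : y * y * (Real.exp (3 / 5 * T) - 1) = y - y ^ 2 := by
        linear_combination y * h7
      calc Real.exp (-(T ^ 2 / 2)) * (Real.exp (3 / 5 * T) - 1)
          ≤ Real.exp (72 / 100) * (y * y) * (Real.exp (3 / 5 * T) - 1) :=
            mul_le_mul_of_nonneg_right h5 h6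
        _ = Real.exp (72 / 100) * (y - y ^ 2) := by rw [← h8]; ring
        _ ≤ Real.exp (72 / 100) / 4 := by
            have h9 : y - y ^ 2 ≤ 1 / 4 := by nlinarith [sq_nonneg (y - 1 / 2)]
            have := mul_le_mul_of_nonneg_left h9 (Real.exp_pos (72 / 100)).le
            linarith
    have h5 := exp72
    have h6 : Real.exp (-(T ^ 2 / 2)) * (Real.exp (3 / 5 * T) - 1) / (3 / 5) ≤
        (206 / 100 / 4) / (3 / 5) := by
      apply div_le_div_of_nonneg_right _ (by norm_num)
      linarith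
    norm_num at h6
    linarith

end SA70
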