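import Pool.Agent.SA70.R0

/-! R1, `tlt_neg`: the profile with a line of slope `3/5` decreasing to the left. -/

set_option autoImplicit false

open MeasureTheory Measure Metric Set Module ENNReal

namespace SA70

private theorem tltn_gauss_int : Integrable (fun s : ℝ => Real.exp (-(s ^ 2 / 2))) := by
  have h := integrable_exp_neg_mul_sq (b := 1 / 2) (by norm_num)
  refine h.congr (Filter.Eventually.of_forall fun s => ?_)
  show Real.exp (-(1 / 2) * s ^ 2) = Real.exp (-(s ^ 2 / 2))
  congr 1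
  ring

private theorem tltn_half : ∫ s in Iic (0 : ℝ), Real.exp (-(s ^ 2 / 2)) = √(Real.pi / 2) := by
  have h := integral_gaussian_Ioi (1 / 2)
  have h1 : ∫ s in Iic (0 : ℝ), Real.exp (-(s ^ 2 / 2)) =
      ∫ s in Ioi (0 : ℝ), Real.exp (-(1 / 2) * s ^ 2) := by
    have h2 := integral_comp_neg_Iic (0 : ℝ) (fun s => Real.exp (-(1 / 2) * s ^ 2))
    rw [neg_zero] at h2
    rw [← h2]
    congr 1
    ext s
    congr 1
    ring
  rw [h1, h]
  have h4 : (Real.pi / (1 / 2)) = (Real.pi / 2) * 2 ^ 2 := by ring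
  rw [h4, Real.sqrt_mul (by positivity), Real.sqrt_sq (by norm_num)]
  ring

private theorem tltn_sqrt : √(Real.pi / 2) ≤ 12534 / 10000 := by
  rw [show (12534 / 10000 : ℝ) = √((12534 / 10000) ^ 2) from (Real.sqrt_sq (by norm_num)).symm]
  apply Real.sqrt_le_sqrt
  have := Real.pi_lt_d4
  norm_num at this ⊢
  linarith

private theorem tltn_low : 5 / 6 ≤ ∫ s in (-1 : ℝ)..0, Real.exp (-(s ^ 2 / 2)) := by
  have h1 : ∫ s in (-1 : ℝ)..0, (1 - s ^ 2 / 2) = 5 / 6 := by
    rw [intervalIntegral.integral_sub (by simp) (by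
      apply Continuous.intervalIntegrable
      fun_prop)]
    rw [intervalIntegral.integral_div, integral_pow]
    norm_num
  rw [← h1]
  apply intervalIntegral.integral_mono_on (by norm_num)
  · apply Continuous.intervalIntegrable
    fun_prop
  · apply Continuous.intervalIntegrable
    fun_prop
  · intro s _
    have := Real.add_one_le_exp (-(s ^ 2 / 2))
    linarith

private theorem tltn_exp : Real.exp (39 / 50) ≤ 219 / 100 := by
  have h1 : Real.exp (39 / 50) * Real.exp (11 / 50) = Real.exp 1 := by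
    rw [← Real.exp_add]
    norm_num
  have h2 : (1.2442 : ℝ) ≤ Real.exp (11 / 50) := by
    have := Real.quadratic_le_exp_of_nonneg (x := 11 / 50) (by norm_num)
    norm_num at this ⊢
    linarith
  have h3 := Real.exp_one_lt_d9
  by_contra hc
  push Not at hc
  nlinarith [Real.exp_pos (39 / 50), Real.exp_pos (11 / 50)]

private theorem tltn_prim (T : ℝ) :
    ∫ s in (-1 : ℝ)..T, Real.exp (-(T ^ 2 / 2) - 3 / 5 * (T - s)) =
      Real.exp (-(T ^ 2 / 2)) * (1 - Real.exp (-(3 / 5) * (T + 1))) / (3 / 5) := by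
  have hd : ∀ s ∈ uIcc (-1 : ℝ) T, HasDerivAt
      (fun s => Real.exp (-(T ^ 2 / 2) - 3 / 5 * (T - s)) / (3 / 5))
      (Real.exp (-(T ^ 2 / 2) - 3 / 5 * (T - s))) s := by
    intro s _
    have h1 : HasDerivAt (fun s : ℝ => -(T ^ 2 / 2) - 3 / 5 * (T - s)) (3 / 5) s := by
      have h := (((hasDerivAt_id' s).const_sub T).const_mul (3 / 5)).const_sub (-(T ^ 2 / 2))
      exact h.congr_deriv (by norm_num)
    exact ((h1.exp).div_const (3 / 5)).congr_deriv (by ring)
  rw [intervalIntegral.integral_eq_sub_of_hasDerivAt hd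
    (by apply Continuous.intervalIntegrable; fun_prop)]
  have e1 : -(T ^ 2 / 2) - 3 / 5 * (T - T) = -(T ^ 2 / 2) := by ring
  have e2 : -(T ^ 2 / 2) - 3 / 5 * (T - -1) = -(T ^ 2 / 2) + -(3 / 5) * (T + 1) := by ring
  rw [e1, e2, Real.exp_add]
  ring

/-- `σ = 3/5`. -/
theorem tlt_neg (T : ℝ) : tlt T (-(3 / 5)) ≤ 134 / 100 := by
  have hsq := tltn_sqrt
  unfold tlt
  set F : ℝ → ℝ := fun s => Real.exp (-(max (T ^ 2 / 2 + -(3 / 5) * (s - T)) (s ^ 2 / 2))) with hF
  have hFc : Continuous F := by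
    rw [hF]
    fun_prop
  have hF0 : ∀ s, 0 ≤ F s := fun s => (Real.exp_pos _).le
  have hF1 : ∀ s, F s ≤ Real.exp (-(s ^ 2 / 2)) := fun s =>
    Real.exp_le_exp.2 (neg_le_neg (le_max_right _ _))
  have hF2 : ∀ s, F s ≤ Real.exp (-(T ^ 2 / 2) - 3 / 5 * (T - s)) := fun s =>
    Real.exp_le_exp.2 (by
      have := le_max_left (T ^ 2 / 2 + -(3 / 5) * (s - T)) (s ^ 2 / 2)
      linarith)
  have hFi : Integrable F := by
    refine tltn_gauss_int.mono' hFc.aestronglyMeasurable (Filter.Eventually.of_forall fun s => ?_)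
    rw [Real.norm_of_nonneg (hF0 s)]
    exact hF1 s
  show ∫ s in Iic T, F s ≤ 134 / 100
  rcases le_total T (-1) with hT | hT
  · calc ∫ s in Iic T, F s ≤ ∫ s in Iic T, Real.exp (-(s ^ 2 / 2)) :=
          setIntegral_mono hFi.integrableOn tltn_gauss_int.integrableOn hF1
      _ ≤ ∫ s in Iic (0 : ℝ), Real.exp (-(s ^ 2 / 2)) :=
          setIntegral_mono_set tltn_gauss_int.integrableOn
            (Filter.Eventually.of_forall fun s => (Real.exp_pos _).le)
            (Filter.Eventually.of_forall (Iic_subset_Iic.2 (by linarith)))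
      _ ≤ 134 / 100 := by
          rw [tltn_half]
          linarith
  · have hsplit : ∫ s in Iic T, F s = (∫ s in Iic (-1 : ℝ), F s) + ∫ s in (-1 : ℝ)..T, F s := by
      rw [intervalIntegral.integral_Iic_sub_Iic hFi.integrableOn hFi.integrableOn |>.symm]
      ring
    have h1 : ∫ s in Iic (-1 : ℝ), F s ≤ √(Real.pi / 2) - 5 / 6 := by
      have hs : ∫ s in Iic (-1 : ℝ), F s ≤ ∫ s in Iic (-1 : ℝ), Real.exp (-(s ^ 2 / 2)) :=
        setIntegral_mono hFi.integrableOn tltn_gauss_int.integrableOn hF1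
      have hg := intervalIntegral.integral_Iic_sub_Iic (a := -1) (b := 0)
        tltn_gauss_int.integrableOn tltn_gauss_int.integrableOn
      rw [tltn_half] at hg
      have := tltn_low
      linarith
    have h2 : ∫ s in (-1 : ℝ)..T, F s ≤
        Real.exp (-(T ^ 2 / 2)) * (1 - Real.exp (-(3 / 5) * (T + 1))) / (3 / 5) := by
      rw [← tltn_prim T]
      apply intervalIntegral.integral_mono_on hT
      · exact hFc.intervalIntegrable _ _
      · apply Continuous.intervalIntegrable
        fun_prop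
      · intro s _
        exact hF2 s
    have h3 : Real.exp (-(T ^ 2 / 2)) * (1 - Real.exp (-(3 / 5) * (T + 1))) / (3 / 5) ≤
        219 / 240 := by
      set y := Real.exp (-(3 / 5) * (T + 1)) with hy
      have hy0 : 0 < y := Real.exp_pos _
      have hy1 : y ≤ 1 := by
        rw [hy, Real.exp_le_one_iff]
        nlinarith
      have hT2 : Real.exp (-(T ^ 2 / 2)) ≤ Real.exp (39 / 50) * y := by
        rw [hy, ← Real.exp_add]
        apply Real.exp_le_exp.2
        nlinarith [sq_nonneg (T - 3 / 5)]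
      have he := tltn_exp
      have hq : y * (1 - y) ≤ 1 / 4 := by nlinarith [sq_nonneg (y - 1 / 2)]
      have hq0 : 0 ≤ y * (1 - y) := mul_nonneg hy0.le (by linarith)
      have c1 : Real.exp (-(T ^ 2 / 2)) * (1 - y) ≤ Real.exp (39 / 50) * y * (1 - y) :=
        mul_le_mul_of_nonneg_right hT2 (by linarith)
      have c2 : Real.exp (39 / 50) * y * (1 - y) ≤ 219 / 100 * (1 / 4) := by
        rw [mul_assoc]
        exact mul_le_mul he hq hq0 (by norm_num)
      have c3 : Real.exp (-(T ^ 2 / 2)) * (1 - y) ≤ 219 / 400 := by linarith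
      rw [div_le_iff₀ (by norm_num)]
      linarith
    rw [hsplit]
    linarith

end SA70
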