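import Pool.Agent.SA70.R1a
import Pool.Agent.SA70.R1b
import Pool.Agent.SA70.R1c
import Pool.Agent.SA70.R1d

/-! R1: the one-dimensional inequality. -/

set_option autoImplicit false

open MeasureTheory Measure Metric Set Module ENNReal

namespace SA70

/-- From the five statements: `0 ≤ σ ≤ 3/5`: `2.13 + 1.72`; `σ ≥ 3/5`: `√(2π) + 1.34`, `√(2π) ≤ 2.507`; symmetric. -/
theorem tlt_pair (T T' σ σ' : ℝ) (h : σ' ≤ -σ) : tlt T σ + tlt T' σ' ≤ 385 / 100 := by
  have hpi : √(2 * Real.pi) ≤ 251 / 100 := by
    rw [Real.sqrt_le_left (by norm_num)]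
    have := Real.pi_lt_d6
    norm_num at this ⊢
    linarith
  -- one of the two slopes is nonpositive
  have key : ∀ (A B s s' : ℝ), s' ≤ -s → 0 ≤ s → tlt A s + tlt B s' ≤ 385 / 100 := by
    intro A B s s' hs h0
    rcases le_or_gt s (3 / 5) with h1 | h1
    · have a1 := (tlt_mono A s (3 / 5) h1).trans (tlt_pos A)
      have a2 := (tlt_mono B s' 0 (by linarith)).trans (tlt_zero B)
      linarith
    · have a1 := (tlt_le A s).trans hpi
      have a2 := (tlt_mono B s' (-(3 / 5)) (by linarith)).trans (tlt_neg B)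
      linarith
  rcases le_or_gt 0 σ with h0 | h0
  · exact key T T' σ σ' h h0
  · rcases le_or_gt 0 σ' with h1 | h1
    · have := key T' T σ' σ (by linarith) h1
      linarith
    · have a1 := (tlt_mono T σ 0 h0.le).trans (tlt_zero T)
      have a2 := (tlt_mono T' σ' 0 h1.le).trans (tlt_zero T')
      linarith

end SA70
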