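import Pool.Agent.SA70.R0

/-! R1 (tlt_mono, tlt_le). Notation: `φ x = exp(-x²/2)`, `Q x = ∫_x^∞ φ`. -/

set_option autoImplicit false

open MeasureTheory Measure Metric Set Module ENNReal

namespace SA70

namespace TltAux

theorem integrable_gauss : Integrable fun s : ℝ => Real.exp (-(s ^ 2 / 2)) := by
  have h1 : Integrable fun s : ℝ => Real.exp (-(1 / 2) * s ^ 2) :=
    integrable_exp_neg_mul_sq (by norm_num)
  refine h1.congr (Filter.Eventually.of_forall fun s => ?_)
  show Real.exp (-(1 / 2) * s ^ 2) = Real.exp (-(s ^ 2 / 2))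
  congr 1
  ring

theorem integral_gauss' : ∫ s : ℝ, Real.exp (-(s ^ 2 / 2)) = √(2 * Real.pi) := by
  have h1 := integral_gaussian (1 / 2)
  rw [show Real.pi / (1 / 2) = 2 * Real.pi by ring] at h1
  rw [← h1]
  refine integral_congr_ae (Filter.Eventually.of_forall fun s => ?_)
  show Real.exp (-(s ^ 2 / 2)) = Real.exp (-(1 / 2) * s ^ 2)
  congr 1
  ring

theorem prof_le (T σ s : ℝ) : Real.exp (-(max (T ^ 2 / 2 + σ * (s - T)) (s ^ 2 / 2))) ≤
    Real.exp (-(s ^ 2 / 2)) :=
  Real.exp_le_exp.2 (neg_le_neg (le_max_right _ _))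

theorem integrable_prof (T σ : ℝ) :
    Integrable fun s : ℝ => Real.exp (-(max (T ^ 2 / 2 + σ * (s - T)) (s ^ 2 / 2))) := by
  have hcont : Continuous fun s : ℝ =>
      Real.exp (-(max (T ^ 2 / 2 + σ * (s - T)) (s ^ 2 / 2))) := by fun_prop
  refine integrable_gauss.mono' hcont.aestronglyMeasurable (Filter.Eventually.of_forall fun s => ?_)
  rw [Real.norm_of_nonneg (Real.exp_pos _).le]
  exact prof_le T σ s

end TltAux

/-- dominated by `exp(-s²/2)`, pointwise monotone (`s ≤ T`). -/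
theorem tlt_mono (T σ σ' : ℝ) (h : σ ≤ σ') : tlt T σ ≤ tlt T σ' := by
  refine setIntegral_mono_on (TltAux.integrable_prof T σ).integrableOn
    (TltAux.integrable_prof T σ').integrableOn measurableSet_Iic fun s hs => ?_
  have hs' : s - T ≤ 0 := sub_nonpos.2 hs
  refine Real.exp_le_exp.2 (neg_le_neg (max_le_max ?_ le_rfl))
  have h1 : σ' * (s - T) ≤ σ * (s - T) := mul_le_mul_of_nonpos_right h hs'
  linarith

/-- `tlt T σ ≤ ∫ exp(-s²/2) = √(2π)`. -/
theorem tlt_le (T σ : ℝ) : tlt T σ ≤ √(2 * Real.pi) := by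
  rw [← TltAux.integral_gauss']
  calc tlt T σ ≤ ∫ s : ℝ, Real.exp (-(max (T ^ 2 / 2 + σ * (s - T)) (s ^ 2 / 2))) :=
        setIntegral_le_integral (TltAux.integrable_prof T σ)
          (Filter.Eventually.of_forall fun s => (Real.exp_pos _).le)
    _ ≤ ∫ s : ℝ, Real.exp (-(s ^ 2 / 2)) :=
        integral_mono (TltAux.integrable_prof T σ) TltAux.integrable_gauss
          fun s => TltAux.prof_le T σ s

end SA70
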