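import Pool.Agent.SA70.R0

set_option autoImplicit false

open MeasureTheory Measure Metric Set Module ENNReal

namespace SA70

private theorem circ_pt (n : ℕ) (t : ℝ) :
    √(1 - t ^ 2) ^ n ≤ Real.exp (-((n : ℝ) / 2) * t ^ 2) := by
  have h1 : √(1 - t ^ 2) ≤ Real.exp (-(t ^ 2) / 2) := by
    rw [Real.sqrt_le_left (Real.exp_pos _).le, ← Real.exp_nat_mul]
    have h2 : ((2 : ℕ) : ℝ) * (-(t ^ 2) / 2) = -(t ^ 2) := by push_cast; ring
    rw [h2]
    have h3 := Real.add_one_le_exp (-(t ^ 2))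
    linarith
  calc √(1 - t ^ 2) ^ n ≤ Real.exp (-(t ^ 2) / 2) ^ n :=
        pow_le_pow_left₀ (Real.sqrt_nonneg _) h1 n
    _ = Real.exp (-((n : ℝ) / 2) * t ^ 2) := by
        rw [← Real.exp_nat_mul]
        congr 1
        ring

private theorem circ_const {n : ℕ} (hn : 1 ≤ n) :
    √(Real.pi / ((n : ℝ) / 2)) = √(2 * Real.pi) / √(n : ℝ) := by
  have h0 : (0 : ℝ) < n := by exact_mod_cast hn
  rw [← Real.sqrt_div (by positivity)]
  congr 1
  field_simp

/-- `√(1-t²)^n ≤ exp(-n t²/2)`, half of the Gaussian integral. -/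
theorem circ_half {n : ℕ} (hn : 1 ≤ n) :
    ∫⁻ t in Iic (0 : ℝ), ENNReal.ofReal (√(1 - t ^ 2) ^ n) ≤
      ENNReal.ofReal (√(2 * Real.pi) / 2 / √(n : ℝ)) := by
  have h0 : (0 : ℝ) < n := by exact_mod_cast hn
  have hb : 0 < (n : ℝ) / 2 := by positivity
  have hint : Integrable (fun t : ℝ => Real.exp (-((n : ℝ) / 2) * t ^ 2)) :=
    integrable_exp_neg_mul_sq hb
  calc ∫⁻ t in Iic (0 : ℝ), ENNReal.ofReal (√(1 - t ^ 2) ^ n)
      ≤ ∫⁻ t in Iic (0 : ℝ), ENNReal.ofReal (Real.exp (-((n : ℝ) / 2) * t ^ 2)) :=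
        lintegral_mono fun t => ENNReal.ofReal_le_ofReal (circ_pt n t)
    _ = ENNReal.ofReal (∫ t in Iic (0 : ℝ), Real.exp (-((n : ℝ) / 2) * t ^ 2)) :=
        (ofReal_integral_eq_lintegral_ofReal hint.integrableOn
          (Filter.Eventually.of_forall fun t => (Real.exp_pos _).le)).symm
    _ = ENNReal.ofReal (√(2 * Real.pi) / 2 / √(n : ℝ)) := by
        congr 1
        have h1 : ∫ t in Iic (0 : ℝ), Real.exp (-((n : ℝ) / 2) * t ^ 2) =
            ∫ t in Ioi (0 : ℝ), Real.exp (-((n : ℝ) / 2) * t ^ 2) := by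
          have h2 := integral_comp_neg_Iic (0 : ℝ) (fun t : ℝ => Real.exp (-((n : ℝ) / 2) * t ^ 2))
          simp only [neg_zero, neg_sq] at h2
          exact h2
        rw [h1, integral_gaussian_Ioi, circ_const hn]
        ring

/-- `√(1-t²)^n ≤ exp(-n t²/2)`, the Gaussian integral. -/
theorem circ_full {n : ℕ} (hn : 1 ≤ n) :
    ∫⁻ t : ℝ, ENNReal.ofReal (√(1 - t ^ 2) ^ n) ≤
      ENNReal.ofReal (√(2 * Real.pi) / √(n : ℝ)) := by
  have h0 : (0 : ℝ) < n := by exact_mod_cast hn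
  have hb : 0 < (n : ℝ) / 2 := by positivity
  have hint : Integrable (fun t : ℝ => Real.exp (-((n : ℝ) / 2) * t ^ 2)) :=
    integrable_exp_neg_mul_sq hb
  calc ∫⁻ t : ℝ, ENNReal.ofReal (√(1 - t ^ 2) ^ n)
      ≤ ∫⁻ t : ℝ, ENNReal.ofReal (Real.exp (-((n : ℝ) / 2) * t ^ 2)) :=
        lintegral_mono fun t => ENNReal.ofReal_le_ofReal (circ_pt n t)
    _ = ENNReal.ofReal (∫ t : ℝ, Real.exp (-((n : ℝ) / 2) * t ^ 2)) :=
        (ofReal_integral_eq_lintegral_ofReal hint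
          (Filter.Eventually.of_forall fun t => (Real.exp_pos _).le)).symm
    _ = ENNReal.ofReal (√(2 * Real.pi) / √(n : ℝ)) := by
        rw [integral_gaussian, circ_const hn]

end SA70
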