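import Pool.Agent.SA70.R0

/-! R2 (line_le): a line and a circle, `n`-th powers. -/

set_option autoImplicit false

open MeasureTheory Measure Metric Set Module ENNReal

namespace SA70

namespace LineAux

theorem pow_le {n : ℕ} (τ θ : ℝ) (hτ : 0 < τ) (hθ : (n : ℝ) * τ ≤ θ)
    (hτ1 : τ ≤ 1) (c m t₁ : ℝ) (hc : 0 < c) (hc2 : c ^ 2 ≤ (1 + τ) ^ 2 - t₁ ^ 2) (t : ℝ) :
    min (max 0 (c + m * (t - t₁))) (√(1 - t ^ 2)) ^ n ≤
      Real.exp (3 * θ) * Real.exp (-(max (n * t₁ ^ 2 / 2 - n * m * (t - t₁) / c) (n * t ^ 2 / 2))) := by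
  have hn0 : (0 : ℝ) ≤ n := Nat.cast_nonneg n
  have hnτ : 0 ≤ (n : ℝ) * τ := mul_nonneg hn0 hτ.le
  have hθ0 : 0 ≤ θ := hnτ.trans hθ
  have hA : (0 : ℝ) ≤ max 0 (c + m * (t - t₁)) := le_max_left _ _
  have hmin : 0 ≤ min (max 0 (c + m * (t - t₁))) (√(1 - t ^ 2)) := le_min hA (Real.sqrt_nonneg _)
  -- first bound
  have hcx : c ≤ Real.exp ((2 * τ + τ ^ 2 - t₁ ^ 2) / 2) := by
    refine le_of_sq_le_sq ?_ (Real.exp_pos _).le
    rw [← Real.exp_nat_mul]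
    refine hc2.trans ?_
    have h1 := Real.add_one_le_exp (2 * τ + τ ^ 2 - t₁ ^ 2)
    have h2 : ((2 : ℕ) : ℝ) * ((2 * τ + τ ^ 2 - t₁ ^ 2) / 2) = 2 * τ + τ ^ 2 - t₁ ^ 2 := by
      push_cast; ring
    rw [h2]
    nlinarith
  have hA1 : max 0 (c + m * (t - t₁)) ≤ c * Real.exp (m * (t - t₁) / c) := by
    refine max_le (by positivity) ?_
    have h1 := Real.add_one_le_exp (m * (t - t₁) / c)
    have h2 := mul_le_mul_of_nonneg_left h1 hc.le
    have h3 : c * (m * (t - t₁) / c + 1) = c + m * (t - t₁) := by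
      field_simp
      ring
    rwa [h3] at h2
  have hB1 : min (max 0 (c + m * (t - t₁))) (√(1 - t ^ 2)) ^ n ≤
      Real.exp (3 * θ) * Real.exp (-(n * t₁ ^ 2 / 2 - n * m * (t - t₁) / c)) := by
    calc min (max 0 (c + m * (t - t₁))) (√(1 - t ^ 2)) ^ n
        ≤ (Real.exp ((2 * τ + τ ^ 2 - t₁ ^ 2) / 2) * Real.exp (m * (t - t₁) / c)) ^ n := by
          refine pow_le_pow_left₀ hmin ?_ n
          exact (min_le_left _ _).trans (hA1.trans
            (mul_le_mul_of_nonneg_right hcx (Real.exp_pos _).le))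
      _ = Real.exp (n * ((2 * τ + τ ^ 2 - t₁ ^ 2) / 2 + m * (t - t₁) / c)) := by
          rw [← Real.exp_add, ← Real.exp_nat_mul]
      _ ≤ Real.exp (3 * θ + -(n * t₁ ^ 2 / 2 - n * m * (t - t₁) / c)) := by
          refine Real.exp_le_exp.2 ?_
          have h1 : (n : ℝ) * ((2 * τ + τ ^ 2 - t₁ ^ 2) / 2 + m * (t - t₁) / c) =
              n * τ + n * τ * τ / 2 + -(n * t₁ ^ 2 / 2 - n * m * (t - t₁) / c) := by ring
          rw [h1]
          have h2 : (n : ℝ) * τ * τ ≤ n * τ * 1 := mul_le_mul_of_nonneg_left hτ1 hnτ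
          linarith
      _ = _ := Real.exp_add _ _
  have hB2 : min (max 0 (c + m * (t - t₁))) (√(1 - t ^ 2)) ^ n ≤
      Real.exp (3 * θ) * Real.exp (-(n * t ^ 2 / 2)) := by
    have h1 : √(1 - t ^ 2) ≤ Real.exp (-(t ^ 2) / 2) := by
      rw [Real.sqrt_le_left (Real.exp_pos _).le, ← Real.exp_nat_mul]
      have h2 := Real.add_one_le_exp (-(t ^ 2))
      have h3 : ((2 : ℕ) : ℝ) * (-(t ^ 2) / 2) = -(t ^ 2) := by push_cast; ring
      rw [h3]
      linarith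
    calc min (max 0 (c + m * (t - t₁))) (√(1 - t ^ 2)) ^ n
        ≤ Real.exp (-(t ^ 2) / 2) ^ n :=
          pow_le_pow_left₀ hmin ((min_le_right _ _).trans h1) n
      _ = Real.exp (-(n * t ^ 2 / 2)) := by
          rw [← Real.exp_nat_mul]
          congr 1
          ring
      _ ≤ Real.exp (3 * θ) * Real.exp (-(n * t ^ 2 / 2)) := by
          refine le_mul_of_one_le_left (Real.exp_pos _).le ?_
          exact Real.one_le_exp (by linarith)
  rcases le_total (n * t₁ ^ 2 / 2 - n * m * (t - t₁) / c) (n * t ^ 2 / 2) with h | h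
  · rw [max_eq_right h]
    exact hB2
  · rw [max_eq_left h]
    exact hB1

end LineAux

/-- For `t ≤ t₁`: `√(1-t²)^n ≤ exp(-n t²/2)` (`1 - t² ≤ exp(-t²)`; if `t² > 1` the left side is `0`, `n ≥ 1`), and
`max 0 (c + m(t-t₁)) ≤ c exp(m(t-t₁)/c)` with `c^n ≤ ((1+τ)² - t₁²)^(n/2) ≤ exp(3θ) exp(-n t₁²/2)`
(`(1+τ)² - t₁² = (1+τ)² (1 - t₁²/(1+τ)²)`, `t₁² ≤ (1+τ)²`, `n τ ≤ θ`). So the `n`-th power is at most
`exp(3θ) exp(-max(n t₁²/2 - n m (t-t₁)/c, n t²/2))`; substitute `s = √n t`. -/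
theorem line_le {n : ℕ} (hn : 1 ≤ n) (τ θ : ℝ) (hτ : 0 < τ) (hθ : (n : ℝ) * τ ≤ θ) (hθ1 : θ ≤ 1)
    (hτ1 : τ ≤ 1) (c m t₁ : ℝ) (hc : 0 < c) (hc2 : c ^ 2 ≤ (1 + τ) ^ 2 - t₁ ^ 2) :
    ∫⁻ t in Iic t₁, ENNReal.ofReal (min (max 0 (c + m * (t - t₁))) (√(1 - t ^ 2)) ^ n) ≤
      ENNReal.ofReal (Real.exp (3 * θ) / √(n : ℝ) * tlt (√(n : ℝ) * t₁) (-(√(n : ℝ) * m / c))) := by
  have hn0 : (0 : ℝ) < n := by exact_mod_cast hn
  have hs : 0 < √(n : ℝ) := Real.sqrt_pos.2 hn0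
  have hss : √(n : ℝ) * √(n : ℝ) = n := Real.mul_self_sqrt hn0.le
  -- the profile
  obtain ⟨h, hh⟩ : ∃ h : ℝ → ℝ, h = fun s => Real.exp (-(max ((√(n : ℝ) * t₁) ^ 2 / 2 +
      (-(√(n : ℝ) * m / c)) * (s - √(n : ℝ) * t₁)) (s ^ 2 / 2))) := ⟨_, rfl⟩
  have hcont : Continuous h := by
    rw [hh]
    fun_prop
  have hh0 : ∀ s, 0 ≤ h s := fun s => by rw [hh]; exact (Real.exp_pos _).le
  have hint : Integrable h := by
    have h1 : Integrable fun s : ℝ => Real.exp (-(1 / 2) * s ^ 2) :=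
      integrable_exp_neg_mul_sq (by norm_num)
    refine h1.mono' hcont.aestronglyMeasurable (Filter.Eventually.of_forall fun s => ?_)
    rw [Real.norm_of_nonneg (hh0 s), hh]
    refine Real.exp_le_exp.2 ?_
    have h2 := le_max_right ((√(n : ℝ) * t₁) ^ 2 / 2 +
      (-(√(n : ℝ) * m / c)) * (s - √(n : ℝ) * t₁)) (s ^ 2 / 2)
    linarith
  have htlt : tlt (√(n : ℝ) * t₁) (-(√(n : ℝ) * m / c)) = ∫ s in Iic (√(n : ℝ) * t₁), h s := by
    rw [tlt, hh]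
  -- substitution
  have hsub : ∫ t in Iic t₁, h (√(n : ℝ) * t) = (√(n : ℝ))⁻¹ * ∫ s in Iic (√(n : ℝ) * t₁), h s := by
    rw [← integral_indicator measurableSet_Iic, ← integral_indicator measurableSet_Iic]
    have h1 := Measure.integral_comp_mul_left ((Iic (√(n : ℝ) * t₁)).indicator h) (√(n : ℝ))
    rw [abs_of_pos (inv_pos.2 hs), smul_eq_mul] at h1
    rw [← h1]
    refine integral_congr_ae (Filter.Eventually.of_forall fun t => ?_)
    by_cases ht : t ≤ t₁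
    · have h2 : √(n : ℝ) * t ≤ √(n : ℝ) * t₁ := mul_le_mul_of_nonneg_left ht hs.le
      simp only [indicator, mem_Iic, ht, h2, if_true]
    · have h2 : ¬ √(n : ℝ) * t ≤ √(n : ℝ) * t₁ := fun h3 => ht (le_of_mul_le_mul_left h3 hs)
      simp only [indicator, mem_Iic, ht, h2, if_false]
  have hint2 : Integrable fun t => Real.exp (3 * θ) * h (√(n : ℝ) * t) :=
    (hint.comp_mul_left' hs.ne').const_mul _
  calc ∫⁻ t in Iic t₁, ENNReal.ofReal (min (max 0 (c + m * (t - t₁))) (√(1 - t ^ 2)) ^ n)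
      ≤ ∫⁻ t in Iic t₁, ENNReal.ofReal (Real.exp (3 * θ) * h (√(n : ℝ) * t)) := by
        refine lintegral_mono fun t => ENNReal.ofReal_le_ofReal ?_
        refine (LineAux.pow_le τ θ hτ hθ hτ1 c m t₁ hc hc2 t).trans_eq ?_
        rw [hh]
        congr 3
        have e1 : n * t₁ ^ 2 / 2 - n * m * (t - t₁) / c = (√(n : ℝ) * t₁) ^ 2 / 2 +
            (-(√(n : ℝ) * m / c)) * (√(n : ℝ) * t - √(n : ℝ) * t₁) := by
          have : (n : ℝ) * t₁ ^ 2 / 2 - n * m * (t - t₁) / c =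
              (√(n : ℝ) * √(n : ℝ)) * t₁ ^ 2 / 2 - (√(n : ℝ) * √(n : ℝ)) * m * (t - t₁) / c := by
            rw [hss]
          rw [this]
          ring
        have e2 : (n : ℝ) * t ^ 2 / 2 = (√(n : ℝ) * t) ^ 2 / 2 := by
          rw [mul_pow, sq (√(n : ℝ)), hss]
        rw [e1, e2]
    _ = ENNReal.ofReal (∫ t in Iic t₁, Real.exp (3 * θ) * h (√(n : ℝ) * t)) := by
        rw [ofReal_integral_eq_lintegral_ofReal hint2.integrableOn]
        exact Filter.Eventually.of_forall fun t => mul_nonneg (Real.exp_pos _).le (hh0 _)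
    _ = _ := by
        rw [integral_const_mul, hsub, htlt]
        congr 1
        field_simp

end SA70
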