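import Pool.Agent.SA70.R0

/-! R3: planar measure lemmas. -/

set_option autoImplicit false

open MeasureTheory Measure Metric Set Module ENNReal

namespace SA70

private theorem wt_slice_lint {n : ℕ} (hn : 1 ≤ n) (h : ℝ) (hh : 0 ≤ h) :
    ∫⁻ r in Ioc 0 h, ENNReal.ofReal (r ^ (n - 1)) = ENNReal.ofReal (1 / n) *
      ENNReal.ofReal (h ^ n) := by
  have hint : Integrable (fun r : ℝ => r ^ (n - 1)) (volume.restrict (Ioc 0 h)) := by
    have : IntervalIntegrable (fun r : ℝ => r ^ (n - 1)) volume 0 h :=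
      (continuous_pow _).intervalIntegrable _ _
    exact this.1
  have hnn : 0 ≤ᵐ[volume.restrict (Ioc 0 h)] fun r : ℝ => r ^ (n - 1) := by
    filter_upwards [ae_restrict_mem measurableSet_Ioc] with r hr
    exact pow_nonneg hr.1.le _
  rw [← ofReal_integral_eq_lintegral_ofReal hint hnn, ← intervalIntegral.integral_of_le hh,
    integral_pow, ← ENNReal.ofReal_mul (by positivity)]
  congr 1
  have h1 : n - 1 + 1 = n := Nat.sub_add_cancel hn
  have h2 : ((n - 1 : ℕ) : ℝ) + 1 = n := by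
    rw [Nat.cast_sub hn]
    push_cast
    ring
  rw [h1, h2, zero_pow (by omega)]
  ring

/-- Fubini (first coordinate outside): for fixed `t` the set of the second coordinates is contained in
`(0, h]`, `h = min (max 0 (u t)) √(1-t²)`, and `∫_0^h r^(n-1) dr = h^n/n`. -/
theorem wt_slice {n : ℕ} (hn : 1 ≤ n) (M : Set (ℝ × ℝ)) (hM : MeasurableSet M) (t₁ : ℝ)
    (u : ℝ → ℝ) (hu : Continuous u)
    (h : ∀ p ∈ M, 0 < p.2 ∧ p.1 ≤ t₁ ∧ p.1 ^ 2 + p.2 ^ 2 ≤ 1 ∧ p.2 ≤ u p.1) :
    wt n M ≤ ENNReal.ofReal (1 / n) *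
      ∫⁻ t in Iic t₁, ENNReal.ofReal (min (max 0 (u t)) (√(1 - t ^ 2)) ^ n) := by
  have hf : Measurable fun p : ℝ × ℝ => ENNReal.ofReal (p.2 ^ (n - 1)) := by fun_prop
  have hg : AEMeasurable (M.indicator fun p : ℝ × ℝ => ENNReal.ofReal (p.2 ^ (n - 1)))
      (volume.prod volume) := (hf.indicator hM).aemeasurable
  unfold wt
  rw [← lintegral_indicator hM, volume_eq_prod, lintegral_prod _ hg,
    ← lintegral_const_mul _ (by fun_prop), ← lintegral_indicator measurableSet_Iic]
  refine lintegral_mono fun t => ?_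
  by_cases ht : t ≤ t₁
  · rw [indicator_of_mem (mem_Iic.2 ht)]
    have hh : 0 ≤ min (max 0 (u t)) (√(1 - t ^ 2)) := le_min (le_max_left _ _) (Real.sqrt_nonneg _)
    rw [← wt_slice_lint hn _ hh, ← lintegral_indicator measurableSet_Ioc]
    refine lintegral_mono fun r => ?_
    by_cases hr : (t, r) ∈ M
    · obtain ⟨h1, -, h3, h4⟩ := h _ hr
      have h5 : r ∈ Ioc 0 (min (max 0 (u t)) (√(1 - t ^ 2))) := by
        refine ⟨h1, le_min (le_trans h4 (le_max_right _ _)) ?_⟩
        exact Real.le_sqrt_of_sq_le (by simp only at h3; linarith)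
      rw [indicator_of_mem hr, indicator_of_mem h5]
    · rw [indicator_of_notMem hr]
      exact zero_le
  · rw [indicator_of_notMem (fun h' => ht (mem_Iic.1 h'))]
    have h0 : ∀ r : ℝ, M.indicator (fun p : ℝ × ℝ => ENNReal.ofReal (p.2 ^ (n - 1))) (t, r) = 0 := by
      intro r
      exact indicator_of_notMem (fun hr => ht (h _ hr).2.1) _
    simp only [h0, lintegral_zero, le_refl]

end SA70
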