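import Pool.Agent.SA70.R0

/-! R3: planar measure lemmas (slab, mirror). -/

set_option autoImplicit false

open MeasureTheory Measure Metric Set Module ENNReal

namespace SA70

private theorem wt_slab_fibre {n : ℕ} (hn : 1 ≤ n) :
    ∫⁻ r in Ioc (0 : ℝ) 1, ENNReal.ofReal (r ^ (n - 1)) = ENNReal.ofReal (1 / n) := by
  have hint : IntegrableOn (fun r : ℝ => r ^ (n - 1)) (Ioc 0 1) :=
    (continuous_pow (n - 1)).integrableOn_Icc.mono_set Ioc_subset_Icc_self
  rw [← ofReal_integral_eq_lintegral_ofReal hint ?_]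
  · congr 1
    rw [← intervalIntegral.integral_of_le (by norm_num), integral_pow]
    have h2 : (((n - 1 : ℕ) : ℝ) + 1) = n := by
      have : n - 1 + 1 = n := by omega
      exact_mod_cast this
    rw [h2]
    simp
  · filter_upwards [ae_restrict_mem measurableSet_Ioc] with r hr
    exact pow_nonneg hr.1.le _

/-- The slab `α/(1+τ) < t ≤ α`, `|t| ≤ 1` has width at most `τ` and every fibre has weight at most `1/n`. -/
theorem wt_slab {n : ℕ} (hn : 1 ≤ n) (τ α : ℝ) (hτ : 0 < τ) (hα : 0 < α) (M : Set (ℝ × ℝ))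
    (h : ∀ p ∈ M, 0 < p.2 ∧ p.1 ≤ α ∧ α < (1 + τ) * p.1 ∧ p.1 ^ 2 + p.2 ^ 2 ≤ 1) :
    wt n M ≤ ENNReal.ofReal (τ / n) := by
  have hsub : M ⊆ (Ioc (α / (1 + τ)) (min α 1)) ×ˢ (Ioc (0 : ℝ) 1) := by
    intro p hp
    obtain ⟨h1, h2, h3, h4⟩ := h p hp
    have h5 : p.1 ≤ 1 := by nlinarith [sq_nonneg p.2, sq_nonneg (p.1 - 1), sq_nonneg (p.1 + 1)]
    have h6 : p.2 ≤ 1 := by nlinarith [sq_nonneg p.1, sq_nonneg (p.2 - 1)]
    have h7 : α / (1 + τ) < p.1 := by
      rw [div_lt_iff₀ (by linarith)]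
      linarith
    exact ⟨⟨h7, le_min h2 h5⟩, h1, h6⟩
  have hwidth : min α 1 - α / (1 + τ) ≤ τ := by
    have h1 : 0 < 1 + τ := by linarith
    have h2 : min α 1 ≤ α / (1 + τ) + τ := by
      rcases le_total α 1 with hle | hle
      · rw [min_eq_left hle]
        have h3 : α = α / (1 + τ) + α * τ / (1 + τ) := by
          field_simp
        have h4 : α * τ / (1 + τ) ≤ τ := by
          rw [div_le_iff₀ h1]
          nlinarith
        linarith
      · rw [min_eq_right hle]
        have h3 : (1 : ℝ) = 1 / (1 + τ) + τ / (1 + τ) := by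
          field_simp
        have h4 : τ / (1 + τ) ≤ τ := by
          rw [div_le_iff₀ h1]
          nlinarith
        have h5 : 1 / (1 + τ) ≤ α / (1 + τ) := by
          gcongr
        linarith
    linarith
  calc wt n M ≤ ∫⁻ p in (Ioc (α / (1 + τ)) (min α 1)) ×ˢ (Ioc (0 : ℝ) 1),
        ENNReal.ofReal (p.2 ^ (n - 1)) := lintegral_mono_set hsub
    _ = ∫⁻ p : ℝ × ℝ, (fun _ : ℝ => (1 : ℝ≥0∞)) p.1 * (fun r : ℝ => ENNReal.ofReal (r ^ (n - 1))) p.2
          ∂((volume.restrict (Ioc (α / (1 + τ)) (min α 1))).prod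
            (volume.restrict (Ioc (0 : ℝ) 1))) := by
        rw [Measure.prod_restrict, Measure.volume_eq_prod]
        simp
    _ = (∫⁻ _ in Ioc (α / (1 + τ)) (min α 1), (1 : ℝ≥0∞)) *
          ∫⁻ r in Ioc (0 : ℝ) 1, ENNReal.ofReal (r ^ (n - 1)) := by
        exact lintegral_prod_mul (f := fun _ : ℝ => (1 : ℝ≥0∞))
          (g := fun r : ℝ => ENNReal.ofReal (r ^ (n - 1))) (by fun_prop) (by fun_prop)
    _ = ENNReal.ofReal (min α 1 - α / (1 + τ)) * ENNReal.ofReal (1 / n) := by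
        rw [wt_slab_fibre hn, setLIntegral_one, Real.volume_Ioc]
    _ ≤ ENNReal.ofReal τ * ENNReal.ofReal (1 / n) := by
        gcongr
    _ = ENNReal.ofReal (τ / n) := by
        rw [← ENNReal.ofReal_mul hτ.le]
        congr 1
        ring

/-- the reflection preserves the measure. -/
theorem wt_mir {n : ℕ} (α : ℝ) (S : Set (ℝ × ℝ)) : wt n (mir α S) = wt n S := by
  have h1 : MeasurePreserving (fun x : ℝ => 2 * α - x) volume volume :=
    measurePreserving_sub_left volume (2 * α)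
  have h2 : MeasurePreserving (Prod.map (fun x : ℝ => 2 * α - x) (id : ℝ → ℝ))
      (volume : Measure (ℝ × ℝ)) volume := by
    have := h1.prod (MeasurePreserving.id (volume : Measure ℝ))
    rwa [← Measure.volume_eq_prod] at this
  have h3 : MeasurableEmbedding (Prod.map (fun x : ℝ => 2 * α - x) (id : ℝ → ℝ)) := by
    exact ((MeasurableEquiv.subLeft (2 * α)).prodCongr (MeasurableEquiv.refl ℝ)).measurableEmbedding
  have h4 := h2.setLIntegral_comp_preimage_emb h3 (fun p : ℝ × ℝ => ENNReal.ofReal (p.2 ^ (n - 1))) S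
  exact h4

end SA70
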