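import Pool.Agent.SA70.R0

/-! R3 (wt_shell): the weight of a shell of a star-shaped planar set. -/

set_option autoImplicit false

open MeasureTheory Measure Metric Set Module ENNReal

namespace SA70

private theorem wsh_scale {n : ℕ} (c : ℝ) (hc : 0 < c) (M : Set (ℝ × ℝ))
    (hM : MeasurableSet M) :
    ENNReal.ofReal (c ^ (n - 1)) * wt n {p : ℝ × ℝ | (c * p.1, c * p.2) ∈ M} =
      ENNReal.ofReal ((c ^ 2)⁻¹) * wt n M := by
  have hM' : MeasurableSet {p : ℝ × ℝ | (c * p.1, c * p.2) ∈ M} := by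
    have h1 : Measurable (fun p : ℝ × ℝ => (c * p.1, c * p.2)) := by fun_prop
    exact h1 hM
  obtain ⟨f, hf⟩ : ∃ f : ℝ × ℝ → ℝ≥0∞, f = M.indicator (fun p => ENNReal.ofReal (p.2 ^ (n - 1))) :=
    ⟨_, rfl⟩
  have hfm : Measurable f := by
    rw [hf]
    refine Measurable.indicator ?_ hM
    fun_prop
  have h2 : ∫⁻ p : ℝ × ℝ, f (c • p) = ENNReal.ofReal ((c ^ 2)⁻¹) * ∫⁻ p, f p := by
    have h3 : Measurable (fun p : ℝ × ℝ => c • p) := measurable_const_smul c
    rw [← lintegral_map hfm h3, Measure.map_addHaar_smul volume hc.ne', lintegral_smul_measure]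
    have h4 : finrank ℝ (ℝ × ℝ) = 2 := by simp
    rw [h4, abs_of_pos (by positivity : (0 : ℝ) < (c ^ 2)⁻¹), smul_eq_mul]
  have h5 : ∫⁻ p : ℝ × ℝ, f (c • p) =
      ENNReal.ofReal (c ^ (n - 1)) * wt n {p : ℝ × ℝ | (c * p.1, c * p.2) ∈ M} := by
    unfold wt
    rw [← lintegral_indicator hM', ← lintegral_const_mul']
    · refine lintegral_congr fun p => ?_
      rw [hf]
      by_cases hp : (c * p.1, c * p.2) ∈ M
      · have e1 : c • p ∈ M := hp
        rw [indicator_of_mem e1, indicator_of_mem (show p ∈ {p : ℝ × ℝ | (c * p.1, c * p.2) ∈ M}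
          from hp), ← ENNReal.ofReal_mul (by positivity), ← mul_pow]
        rfl
      · have e1 : c • p ∉ M := hp
        rw [indicator_of_notMem e1, indicator_of_notMem
          (show p ∉ {p : ℝ × ℝ | (c * p.1, c * p.2) ∈ M} from hp), mul_zero]
    · exact ENNReal.ofReal_ne_top
  have h6 : ∫⁻ p, f p = wt n M := by
    rw [hf]
    unfold wt
    exact lintegral_indicator hM _
  rw [← h5, h2, h6]

/-- `S` and `(1+τ)⁻¹ M` are disjoint subsets of `M`, and `wt n ((1+τ)⁻¹ M) = (1+τ)^-(n+1) wt n M` (the map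
`p ↦ (1+τ)⁻¹ p` of `ℝ × ℝ`, Jacobian `(1+τ)⁻²`, weight `(1+τ)^-(n-1)`); Bernoulli: `1 - (1+τ)^-(n+1) ≤ (n+1) τ`. -/
theorem wt_shell {n : ℕ} (hn : 1 ≤ n) (τ : ℝ) (hτ : 0 < τ) (S M : Set (ℝ × ℝ))
    (hS : MeasurableSet S) (hM : MeasurableSet M) (hSM : S ⊆ M) (hfin : wt n M ≠ ⊤)
    (hstar : ∀ p ∈ M, (p.1 / (1 + τ), p.2 / (1 + τ)) ∈ M)
    (hout : ∀ p ∈ S, ((1 + τ) * p.1, (1 + τ) * p.2) ∉ M) :
    wt n S ≤ ENNReal.ofReal (((n : ℝ) + 1) * τ) * wt n M := by
  have hc : 0 < 1 + τ := by linarith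
  obtain ⟨M', hM'⟩ : ∃ M' : Set (ℝ × ℝ), M' = {p : ℝ × ℝ | ((1 + τ) * p.1, (1 + τ) * p.2) ∈ M} :=
    ⟨_, rfl⟩
  have hM'm : MeasurableSet M' := by
    have h1 : Measurable (fun p : ℝ × ℝ => ((1 + τ) * p.1, (1 + τ) * p.2)) := by fun_prop
    rw [hM']
    exact h1 hM
  have hM'M : M' ⊆ M := by
    intro p hp
    rw [hM'] at hp
    have h1 := hstar _ hp
    have h2 : ((1 + τ) * p.1 / (1 + τ), (1 + τ) * p.2 / (1 + τ)) = p := by
      rw [mul_div_cancel_left₀ _ hc.ne', mul_div_cancel_left₀ _ hc.ne']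
    simp only at h1
    rwa [h2] at h1
  have hdisj : Disjoint S M' := by
    rw [Set.disjoint_left]
    intro p hp hp'
    rw [hM'] at hp'
    exact hout p hp hp'
  have hscale := wsh_scale (n := n) (1 + τ) hc M hM
  rw [← hM'] at hscale
  obtain ⟨x, hx⟩ : ∃ x : ℝ, x = 1 / (1 + τ) := ⟨_, rfl⟩
  have hx0 : 0 < x := by rw [hx]; positivity
  have hxc : x * (1 + τ) = 1 := by rw [hx]; field_simp
  have hW : wt n M' = ENNReal.ofReal (x ^ (n + 1)) * wt n M := by
    have e1 : ENNReal.ofReal (x ^ (n - 1)) * (ENNReal.ofReal ((1 + τ) ^ (n - 1)) * wt n M') =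
        wt n M' := by
      rw [← mul_assoc, ← ENNReal.ofReal_mul (by positivity), ← mul_pow, hxc, one_pow,
        ENNReal.ofReal_one, one_mul]
    rw [← e1, hscale, ← mul_assoc, ← ENNReal.ofReal_mul (by positivity)]
    congr 2
    have e2 : ((1 + τ) ^ 2)⁻¹ = x ^ 2 := by
      rw [hx, one_div, inv_pow]
    rw [e2, ← pow_add]
    congr 1
    omega
  have hsum : wt n S + wt n M' ≤ wt n M := by
    unfold wt
    rw [← lintegral_union hM'm hdisj]
    exact lintegral_mono_set (union_subset hSM hM'M)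
  have hb : 1 ≤ ((n : ℝ) + 1) * τ + x ^ (n + 1) := by
    have h1 : (-2 : ℝ) ≤ x - 1 := by linarith
    have h2 := one_add_mul_le_pow h1 (n + 1)
    have h3 : 1 + (x - 1) = x := by ring
    rw [h3] at h2
    push_cast at h2
    have h4 : 1 - x ≤ τ := by
      have : 1 - x = x * τ := by linarith
      rw [this]
      have hx1 : x ≤ 1 := by
        rw [hx, div_le_one hc]
        linarith
      nlinarith
    have h5 : 0 ≤ (n : ℝ) + 1 := by positivity
    nlinarith
  have hW2 : wt n M ≤ ENNReal.ofReal (((n : ℝ) + 1) * τ) * wt n M +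
      ENNReal.ofReal (x ^ (n + 1)) * wt n M := by
    rw [← add_mul, ← ENNReal.ofReal_add (by positivity) (by positivity)]
    calc wt n M = 1 * wt n M := (one_mul _).symm
      _ ≤ _ := by
        refine mul_le_mul' ?_ le_rfl
        rw [← ENNReal.ofReal_one]
        exact ENNReal.ofReal_le_ofReal hb
  have h7 := hsum.trans hW2
  rw [hW] at h7
  have h8 : ENNReal.ofReal (x ^ (n + 1)) * wt n M ≠ ⊤ :=
    ENNReal.mul_ne_top ENNReal.ofReal_ne_top hfin
  exact (ENNReal.add_le_add_iff_right h8).1 h7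

end SA70
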