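import Pool.Agent.SA70.R3

/-! R5a: one side of the planar bound. -/

set_option autoImplicit false

open MeasureTheory Measure Metric Set Module ENNReal

namespace SA70

/-- One side. `S = shl K α τ` is the union of the slab part (`wt_slab`) and of `S' = {p ∈ S | (1+τ) p.1 ≤ α}`,
`S' ⊆ M := {p ∈ K | 0 < p.2, p.1 ≤ t₁, p.1² + p.2² ≤ 1}` (`t₁ ≥ 0`, so `M` is star-shaped): `wt_shell`, `wt_slice`. -/
theorem side_le {n : ℕ} (hn : 1 ≤ n) (K : Set (ℝ × ℝ)) (hK : Convex ℝ K) (hKc : IsCompact K)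
    (α τ : ℝ) (hα : 0 < α) (h0 : ((0 : ℝ), (0 : ℝ)) ∈ K) (hτ : 0 < τ) (t₁ : ℝ) (ht₁ : 0 ≤ t₁)
    (u : ℝ → ℝ) (hu : Continuous u) (hb : ∀ p ∈ K, p.1 ≤ t₁ → p.2 ≤ u p.1)
    (H : ∀ p ∈ shl K α τ, (1 + τ) * p.1 ≤ α → p.1 ≤ t₁) :
    wt n (shl K α τ) ≤ ENNReal.ofReal (τ / n) + ENNReal.ofReal (((n : ℝ) + 1) * τ / n) *
      ∫⁻ t in Iic t₁, ENNReal.ofReal (min (max 0 (u t)) (√(1 - t ^ 2)) ^ n) := by
  have hn0 : (0 : ℝ) < n := by exact_mod_cast hn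
  have hτ1 : 0 < 1 + τ := by linarith
  have hKm : MeasurableSet K := hKc.isClosed.measurableSet
  set S₁ : Set (ℝ × ℝ) := {p | p ∈ shl K α τ ∧ α < (1 + τ) * p.1} with hS₁
  set S₂ : Set (ℝ × ℝ) := {p | p ∈ shl K α τ ∧ (1 + τ) * p.1 ≤ α} with hS₂
  set M : Set (ℝ × ℝ) := {p | 0 < p.2 ∧ p ∈ K ∧ p.1 ≤ t₁ ∧ p.1 ^ 2 + p.2 ^ 2 ≤ 1} with hMdef
  have hshl : MeasurableSet (shl K α τ) := by
    have e : shl K α τ = ({p : ℝ × ℝ | 0 < p.2} ∩ (K ∩ ({p : ℝ × ℝ | p.1 ≤ α} ∩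
        ({p : ℝ × ℝ | p.1 ^ 2 + p.2 ^ 2 ≤ 1} ∩
          ((fun p : ℝ × ℝ => ((1 + τ) * p.1, (1 + τ) * p.2)) ⁻¹' K)ᶜ)))) := by
      ext p
      rfl
    rw [e]
    have m1 : MeasurableSet {p : ℝ × ℝ | 0 < p.2} := measurableSet_lt measurable_const measurable_snd
    have m2 : MeasurableSet {p : ℝ × ℝ | p.1 ≤ α} := measurableSet_le measurable_fst measurable_const
    have m3 : MeasurableSet {p : ℝ × ℝ | p.1 ^ 2 + p.2 ^ 2 ≤ 1} :=
      measurableSet_le (by fun_prop) measurable_const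
    have m4 : MeasurableSet ((fun p : ℝ × ℝ => ((1 + τ) * p.1, (1 + τ) * p.2)) ⁻¹' K) :=
      (Measurable.prodMk (by fun_prop) (by fun_prop)) hKm
    exact m1.inter (hKm.inter (m2.inter (m3.inter m4.compl)))
  have hS₂m : MeasurableSet S₂ :=
    hshl.inter (measurableSet_le (measurable_const.mul measurable_fst) measurable_const)
  have hMm : MeasurableSet M := by
    have m1 : MeasurableSet {p : ℝ × ℝ | 0 < p.2} := measurableSet_lt measurable_const measurable_snd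
    have m2 : MeasurableSet {p : ℝ × ℝ | p.1 ≤ t₁} := measurableSet_le measurable_fst measurable_const
    have m3 : MeasurableSet {p : ℝ × ℝ | p.1 ^ 2 + p.2 ^ 2 ≤ 1} :=
      measurableSet_le (by fun_prop) measurable_const
    exact m1.inter (hKm.inter (m2.inter m3))
  have hsub : shl K α τ ⊆ S₁ ∪ S₂ := by
    intro p hp
    rcases lt_or_ge α ((1 + τ) * p.1) with h | h
    · exact Or.inl ⟨hp, h⟩
    · exact Or.inr ⟨hp, h⟩
  have h1 : wt n S₁ ≤ ENNReal.ofReal (τ / n) := by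
    apply wt_slab hn τ α hτ hα S₁
    rintro p ⟨hp, hp2⟩
    exact ⟨hp.1, hp.2.2.1, hp2, hp.2.2.2.1⟩
  have h2 : wt n M ≤ ENNReal.ofReal (1 / n) *
      ∫⁻ t in Iic t₁, ENNReal.ofReal (min (max 0 (u t)) (√(1 - t ^ 2)) ^ n) := by
    apply wt_slice hn M hMm t₁ u hu
    rintro p ⟨a1, a2, a3, a4⟩
    exact ⟨a1, a3, a4, hb p a2 a3⟩
  have hfin : wt n M ≠ ⊤ := by
    have hbox : M ⊆ Icc ((-1 : ℝ), (-1 : ℝ)) (1, 1) := by
      rintro p ⟨a1, a2, a3, a4⟩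
      have b1 : p.1 ^ 2 ≤ 1 := by nlinarith [sq_nonneg p.2]
      have b2 : p.2 ^ 2 ≤ 1 := by nlinarith [sq_nonneg p.1]
      have c1 := abs_le_of_sq_le_sq' (a := p.1) (b := 1) (by simpa using b1) zero_le_one
      have c2 := abs_le_of_sq_le_sq' (a := p.2) (b := 1) (by simpa using b2) zero_le_one
      exact ⟨⟨c1.1, c2.1⟩, ⟨c1.2, c2.2⟩⟩
    have hle : wt n M ≤ volume M := by
      unfold wt
      calc ∫⁻ p in M, ENNReal.ofReal (p.2 ^ (n - 1)) ≤ ∫⁻ _ in M, 1 := by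
            apply setLIntegral_mono' hMm
            rintro p ⟨a1, a2, a3, a4⟩
            rw [← ENNReal.ofReal_one]
            apply ENNReal.ofReal_le_ofReal
            apply pow_le_one₀ a1.le
            nlinarith [sq_nonneg p.1]
        _ = volume M := by simp
    have hv : volume M < ⊤ :=
      lt_of_le_of_lt (measure_mono hbox) (isCompact_Icc.measure_lt_top)
    exact (lt_of_le_of_lt hle hv).ne
  have hSM : S₂ ⊆ M := by
    rintro p ⟨hp, hp2⟩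
    exact ⟨hp.1, hp.2.1, H p hp hp2, hp.2.2.2.1⟩
  have hstar : ∀ p ∈ M, (p.1 / (1 + τ), p.2 / (1 + τ)) ∈ M := by
    rintro p ⟨a1, a2, a3, a4⟩
    have hinv : 0 < (1 + τ)⁻¹ := inv_pos.2 hτ1
    have hinv1 : (1 + τ)⁻¹ ≤ 1 := inv_le_one_of_one_le₀ (by linarith)
    have hmem : (p.1 / (1 + τ), p.2 / (1 + τ)) ∈ K := by
      have := hK a2 h0 hinv.le (sub_nonneg.2 hinv1) (by ring)
      have e : (1 + τ)⁻¹ • p + (1 - (1 + τ)⁻¹) • ((0 : ℝ), (0 : ℝ)) =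
          (p.1 / (1 + τ), p.2 / (1 + τ)) := by
        ext
        · simp [div_eq_inv_mul]
        · simp [div_eq_inv_mul]
      rwa [e] at this
    refine ⟨div_pos a1 hτ1, hmem, ?_, ?_⟩
    · show p.1 / (1 + τ) ≤ t₁
      rw [div_le_iff₀ hτ1]
      nlinarith [mul_nonneg ht₁ hτ.le]
    · show (p.1 / (1 + τ)) ^ 2 + (p.2 / (1 + τ)) ^ 2 ≤ 1
      rw [div_pow, div_pow, ← add_div, div_le_one (by positivity)]
      nlinarith
  have hout : ∀ p ∈ S₂, ((1 + τ) * p.1, (1 + τ) * p.2) ∉ M := by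
    rintro p ⟨hp, -⟩ hcon
    exact hp.2.2.2.2 hcon.2.1
  have h3 := wt_shell hn τ hτ S₂ M hS₂m hMm hSM hfin hstar hout
  have h4 : wt n (shl K α τ) ≤ wt n S₁ + wt n S₂ := by
    unfold wt
    exact (lintegral_mono_set hsub).trans (lintegral_union_le _ _ _)
  refine h4.trans (add_le_add h1 (h3.trans ?_))
  calc ENNReal.ofReal (((n : ℝ) + 1) * τ) * wt n M
      ≤ ENNReal.ofReal (((n : ℝ) + 1) * τ) * (ENNReal.ofReal (1 / n) *
        ∫⁻ t in Iic t₁, ENNReal.ofReal (min (max 0 (u t)) (√(1 - t ^ 2)) ^ n)) :=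
        mul_le_mul_right h2 _
    _ = ENNReal.ofReal (((n : ℝ) + 1) * τ / n) *
        ∫⁻ t in Iic t₁, ENNReal.ofReal (min (max 0 (u t)) (√(1 - t ^ 2)) ^ n) := by
        rw [← mul_assoc, ← ENNReal.ofReal_mul (by positivity)]
        congr 2
        ring

end SA70
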