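import Pool.Agent.SA70.R1
import Pool.Agent.SA70.R2
import Pool.Agent.SA70.R3
import Pool.Agent.SA70.R4
import Pool.Agent.SA70.R5a

set_option autoImplicit false

open MeasureTheory Measure Metric Set Module ENNReal

namespace SA70

-- needs: side_le (R5), line_le, circ_half, circ_full (R2), tlt_pair (R1), planar_geo (R4)

namespace planar_leAux

theorem mir_convex (K : Set (ℝ × ℝ)) (hK : Convex ℝ K) (α : ℝ) : Convex ℝ (mir α K) := by
  intro p hp q hq a b ha hb hab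
  simp only [mir, mem_ofPred_eq] at hp hq ⊢
  have h := hK hp hq ha hb hab
  have he : a • ((2 * α - p.1, p.2) : ℝ × ℝ) + b • ((2 * α - q.1, q.2) : ℝ × ℝ)
      = (2 * α - (a • p + b • q).1, (a • p + b • q).2) := by
    ext
    · simp only [Prod.fst_add, Prod.smul_fst, smul_eq_mul]
      linear_combination (2 * α) * hab
    · simp only [Prod.snd_add, Prod.smul_snd, smul_eq_mul]
  rw [he] at h
  exact h

theorem mir_compact (K : Set (ℝ × ℝ)) (hKc : IsCompact K) (α : ℝ) : IsCompact (mir α K) := by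
  have h : mir α K = (fun p : ℝ × ℝ => (2 * α - p.1, p.2)) '' K := by
    ext p
    simp only [mir, mem_ofPred_eq, mem_image]
    constructor
    · intro h
      exact ⟨_, h, by ext <;> simp⟩
    · rintro ⟨q, hq, rfl⟩
      simpa using hq
  rw [h]
  exact hKc.image (by fun_prop)

theorem bdd_snd (K : Set (ℝ × ℝ)) (hKc : IsCompact K) : ∃ M : ℝ, ∀ p ∈ K, p.2 ≤ M := by
  obtain ⟨M, hM⟩ := (hKc.image continuous_snd).bddAbove
  exact ⟨M, fun p hp => hM ⟨p, hp, rfl⟩⟩

theorem tlt_nonneg (T σ : ℝ) : 0 ≤ tlt T σ := by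
  unfold tlt
  exact integral_nonneg (fun s => (Real.exp_pos _).le)

theorem sqrt_two_pi : √(2 * Real.pi) ≤ 251 / 100 := by
  rw [Real.sqrt_le_left (by norm_num)]
  have := Real.pi_lt_d2
  nlinarith

theorem exp_small : Real.exp (3 * (1 / 100000)) ≤ 10001 / 10000 := by
  refine (Real.exp_bound_div_one_sub_of_interval (by norm_num) (by norm_num)).trans ?_
  norm_num

theorem final_real {n : ℕ} (hn : 100000000 ≤ n) (x : ℝ)
    (hx : x ≤ Real.exp (3 * (1 / 100000)) / √(n : ℝ) * (385 / 100)) :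
    1 / 100000 / ((n : ℝ) + 1) / n + 1 / 100000 / ((n : ℝ) + 1) / n +
      ((n : ℝ) + 1) * (1 / 100000 / ((n : ℝ) + 1)) / n * x ≤
      3851 / 1000 * (1 / 100000) / (n * √(n : ℝ)) := by
  have hn' : (100000000 : ℝ) ≤ n := by exact_mod_cast hn
  set s : ℝ := √(n : ℝ) with hs
  have hs2 : s ^ 2 = n := Real.sq_sqrt (by linarith)
  have hs0 : 10000 ≤ s := by
    apply Real.le_sqrt_of_sq_le
    linarith
  have hn0 : (0 : ℝ) < n := by linarith
  have hE := exp_small
  have h1 : ((n : ℝ) + 1) * (1 / 100000 / ((n : ℝ) + 1)) = 1 / 100000 := by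
    field_simp
  rw [h1]
  have hx2 : x ≤ (3850385 / 1000000) / s := by
    refine hx.trans ?_
    rw [div_mul_eq_mul_div]
    gcongr
    linarith
  have h2 : 1 / ((n : ℝ) + 1) ≤ (1 / 10000) / s := by
    rw [div_le_div_iff₀ (by linarith) (by linarith)]
    nlinarith
  have h3 : 1 / 100000 / ((n : ℝ) + 1) / n + 1 / 100000 / ((n : ℝ) + 1) / n + 1 / 100000 / n * x
      = (1 / 100000) / n * (2 * (1 / ((n : ℝ) + 1)) + x) := by
    field_simp
    ring
  have h4 : 3851 / 1000 * (1 / 100000) / (n * s) = (1 / 100000) / n * ((3851 / 1000) / s) := by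
    field_simp
  rw [h3, h4]
  gcongr
  have h5 : (1 / 10000) / s * 2 + (3850385 / 1000000) / s ≤ (3851 / 1000) / s := by
    rw [div_mul_eq_mul_div, ← add_div]
    gcongr
    norm_num
  linarith

theorem combine {n : ℕ} (hn : 100000000 ≤ n) (A B : ℝ≥0∞) (x y : ℝ) (hx0 : 0 ≤ x) (hy0 : 0 ≤ y)
    (hA : A ≤ ENNReal.ofReal (1 / 100000 / ((n : ℝ) + 1) / n) +
      ENNReal.ofReal (((n : ℝ) + 1) * (1 / 100000 / ((n : ℝ) + 1)) / n) * ENNReal.ofReal x)
    (hB : B ≤ ENNReal.ofReal (1 / 100000 / ((n : ℝ) + 1) / n) +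
      ENNReal.ofReal (((n : ℝ) + 1) * (1 / 100000 / ((n : ℝ) + 1)) / n) * ENNReal.ofReal y)
    (hxy : x + y ≤ Real.exp (3 * (1 / 100000)) / √(n : ℝ) * (385 / 100)) :
    A + B ≤ ENNReal.ofReal (3851 / 1000 * (1 / 100000) / (n * √(n : ℝ))) := by
  refine (add_le_add hA hB).trans ?_
  have hp : (0 : ℝ) ≤ ((n : ℝ) + 1) * (1 / 100000 / ((n : ℝ) + 1)) / n := by positivity
  have hq : (0 : ℝ) ≤ 1 / 100000 / ((n : ℝ) + 1) / n := by positivity
  rw [← ENNReal.ofReal_mul hp, ← ENNReal.ofReal_mul hp, ← ENNReal.ofReal_add hq (by positivity),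
    ← ENNReal.ofReal_add hq (by positivity), ← ENNReal.ofReal_add (by positivity) (by positivity)]
  apply ENNReal.ofReal_le_ofReal
  have h := final_real hn (x + y) hxy
  linarith

/-- one side with the half Gaussian, `t₁ = 0`. -/
theorem half_side {n : ℕ} (hn : 1 ≤ n) (K : Set (ℝ × ℝ)) (hK : Convex ℝ K) (hKc : IsCompact K)
    (α τ : ℝ) (hα : 0 < α) (h0 : ((0 : ℝ), (0 : ℝ)) ∈ K) (hτ : 0 < τ)
    (H : ∀ p ∈ shl K α τ, (1 + τ) * p.1 ≤ α → p.1 ≤ 0) :
    wt n (shl K α τ) ≤ ENNReal.ofReal (τ / n) + ENNReal.ofReal (((n : ℝ) + 1) * τ / n) *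
      ENNReal.ofReal (√(2 * Real.pi) / 2 / √(n : ℝ)) := by
  obtain ⟨M, hM⟩ := bdd_snd K hKc
  refine (side_le hn K hK hKc α τ hα h0 hτ 0 le_rfl (fun _ => M) continuous_const
    (fun p hp _ => hM p hp) H).trans ?_
  gcongr
  refine le_trans ?_ (circ_half hn)
  apply lintegral_mono
  intro t
  apply ENNReal.ofReal_le_ofReal
  have h1 : (0 : ℝ) ≤ min (max 0 M) (√(1 - t ^ 2)) :=
    le_min (le_max_left _ _) (Real.sqrt_nonneg _)
  exact pow_le_pow_left₀ h1 (min_le_right _ _) n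

/-- one side with the full Gaussian, `t₁ = α`. -/
theorem full_side {n : ℕ} (hn : 1 ≤ n) (K : Set (ℝ × ℝ)) (hK : Convex ℝ K) (hKc : IsCompact K)
    (α τ : ℝ) (hα : 0 < α) (h0 : ((0 : ℝ), (0 : ℝ)) ∈ K) (hτ : 0 < τ) :
    wt n (shl K α τ) ≤ ENNReal.ofReal (τ / n) + ENNReal.ofReal (((n : ℝ) + 1) * τ / n) *
      ENNReal.ofReal (√(2 * Real.pi) / √(n : ℝ)) := by
  obtain ⟨M, hM⟩ := bdd_snd K hKc
  refine (side_le hn K hK hKc α τ hα h0 hτ α hα.le (fun _ => M) continuous_const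
    (fun p hp _ => hM p hp) (fun p hp _ => hp.2.2.1)).trans ?_
  gcongr
  refine le_trans ?_ (circ_full hn)
  refine (setLIntegral_le_lintegral _ _).trans ?_
  apply lintegral_mono
  intro t
  apply ENNReal.ofReal_le_ofReal
  have h1 : (0 : ℝ) ≤ min (max 0 M) (√(1 - t ^ 2)) :=
    le_min (le_max_left _ _) (Real.sqrt_nonneg _)
  exact pow_le_pow_left₀ h1 (min_le_right _ _) n

theorem gauss_sum {n : ℕ} : √(2 * Real.pi) / 2 / √(n : ℝ) + √(2 * Real.pi) / √(n : ℝ) ≤
    Real.exp (3 * (1 / 100000)) / √(n : ℝ) * (385 / 100) := by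
  have h1 := sqrt_two_pi
  have h2 : (1 : ℝ) ≤ Real.exp (3 * (1 / 100000)) := Real.one_le_exp (by norm_num)
  rw [div_mul_eq_mul_div, ← add_div]
  gcongr
  linarith

end planar_leAux

open planar_leAux in
theorem planar_le : ∃ d₀ : ℕ, 1 ≤ d₀ ∧ ∀ n : ℕ, d₀ ≤ n → ∀ (K : Set (ℝ × ℝ)), Convex ℝ K →
    IsCompact K → ∀ α : ℝ, 0 < α → ((0 : ℝ), (0 : ℝ)) ∈ K → (2 * α, (0 : ℝ)) ∈ K →
    wt n (shl K α (1 / 100000 / ((n : ℝ) + 1))) +
        wt n (shl (mir α K) α (1 / 100000 / ((n : ℝ) + 1))) ≤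
      ENNReal.ofReal (3851 / 1000 * (1 / 100000) / (n * √(n : ℝ))) := by
  refine ⟨100000000, by norm_num, ?_⟩
  intro n hn K hK hKc α hα h0 h1
  have hn1 : 1 ≤ n := le_trans (by norm_num) hn
  have hn0 : (0 : ℝ) < n := by exact_mod_cast hn1
  set τ : ℝ := 1 / 100000 / ((n : ℝ) + 1) with hτdef
  have hτ : 0 < τ := by positivity
  have hK' := mir_convex K hK α
  have hKc' := mir_compact K hKc α
  have h0' : ((0 : ℝ), (0 : ℝ)) ∈ mir α K := by
    simp only [mir, mem_ofPred_eq, sub_zero]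
    exact h1
  have hτθ : ((n : ℝ) + 1) * τ = 1 / 100000 := by
    rw [hτdef]
    field_simp
  have hτ1 : τ ≤ 1 := by nlinarith
  have hθ : (n : ℝ) * τ ≤ 1 / 100000 := by nlinarith
  rcases planar_geo K hK hKc α τ hα h0 h1 hτ hτ1 with
    ⟨t₁, t₂, c₁, c₂, m, ht1, ht1a, ht2a, ht2, hc1, hc2, hcc1, hcc2, hm1, hm2, hl1, hl2, hH1, hH2⟩ |
    hH | hH
  · have hA := side_le hn1 K hK hKc α τ hα h0 hτ t₁ ht1 (fun t => c₁ + m * (t - t₁))
      (by fun_prop) hl1 hH1
    have hA2 := line_le hn1 τ (1 / 100000) hτ hθ (by norm_num) hτ1 c₁ m t₁ hc1 hcc1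
    have hB := side_le hn1 (mir α K) hK' hKc' α τ hα h0' hτ (2 * α - t₂) (by linarith)
      (fun t => c₂ + (-m) * (t - (2 * α - t₂))) (by fun_prop)
      (by
        intro p hp hp1
        have h := hl2 (2 * α - p.1, p.2) hp (by simp only; linarith)
        simp only at h ⊢
        linarith)
      hH2
    have hB2 := line_le hn1 τ (1 / 100000) hτ hθ (by norm_num) hτ1 c₂ (-m) (2 * α - t₂) hc2 hcc2
    refine combine hn _ _ _ _ ?_ ?_ (hA.trans (by gcongr)) (hB.trans (by gcongr)) ?_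
    · exact mul_nonneg (by positivity) (tlt_nonneg _ _)
    · exact mul_nonneg (by positivity) (tlt_nonneg _ _)
    · rw [← mul_add]
      apply mul_le_mul_of_nonneg_left _ (by positivity)
      apply tlt_pair
      have hs : 0 ≤ √(n : ℝ) := Real.sqrt_nonneg _
      have h3 : m / c₂ ≤ m / c₁ := by
        rcases le_total m 0 with hm | hm
        · have h4 := hm1 hm
          rw [div_le_div_iff₀ hc2 hc1]
          nlinarith
        · have h4 := hm2 hm
          rw [div_le_div_iff₀ hc2 hc1]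
          nlinarith
      have h5 : √(n : ℝ) * m / c₂ ≤ √(n : ℝ) * m / c₁ := by
        rw [mul_div_assoc, mul_div_assoc]
        exact mul_le_mul_of_nonneg_left h3 hs
      have h6 : -(√(n : ℝ) * -m / c₂) = √(n : ℝ) * m / c₂ := by
        rw [mul_neg, neg_div, neg_neg]
      rw [h6, neg_neg]
      exact h5
  · refine combine hn _ _ _ _ ?_ ?_ (half_side hn1 K hK hKc α τ hα h0 hτ hH)
      (full_side hn1 (mir α K) hK' hKc' α τ hα h0' hτ) gauss_sum
    · positivity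
    · positivity
  · rw [add_comm]
    refine combine hn _ _ _ _ ?_ ?_ (half_side hn1 (mir α K) hK' hKc' α τ hα h0' hτ hH)
      (full_side hn1 K hK hKc α τ hα h0 hτ) gauss_sum
    · positivity
    · positivity

end SA70
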