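import Pool.Agent.SA70.R0

/-! R6, first part: cylinder and polar coordinates. -/

set_option autoImplicit false

open MeasureTheory Measure Metric Set Module ENNReal

namespace SA70

open SC70

private theorem cyl_wt (n : ℕ) (S : Set (ℝ × ℝ)) (hS : MeasurableSet S) :
    wt n {p | 0 < p.2 ∧ p ∈ S} =
      ∫⁻ r : ℝ in Ioi (0 : ℝ), ENNReal.ofReal (r ^ (n - 1)) *
        ∫⁻ t : ℝ, S.indicator (fun _ => (1 : ℝ≥0∞)) (t, r) := by
  have hm : MeasurableSet {p : ℝ × ℝ | 0 < p.2 ∧ p ∈ S} :=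
    (measurableSet_lt measurable_const measurable_snd).inter hS
  unfold wt
  rw [← lintegral_indicator hm, ← lintegral_indicator measurableSet_Ioi]
  have hF : Measurable ({p : ℝ × ℝ | 0 < p.2 ∧ p ∈ S}.indicator
      fun p => ENNReal.ofReal (p.2 ^ (n - 1))) := by
    apply Measurable.indicator _ hm
    fun_prop
  rw [volume_eq_prod, lintegral_prod_symm' _ hF]
  apply lintegral_congr
  intro r
  by_cases hr : 0 < r
  · rw [indicator_of_mem (show r ∈ Ioi (0 : ℝ) from hr)]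
    have hmeas : Measurable fun t : ℝ => S.indicator (fun _ => (1 : ℝ≥0∞)) (t, r) :=
      (measurable_const.indicator hS).comp (by fun_prop)
    rw [← lintegral_const_mul _ hmeas]
    apply lintegral_congr
    intro t
    by_cases ht : (t, r) ∈ S
    · rw [indicator_of_mem (show (t, r) ∈ {p : ℝ × ℝ | 0 < p.2 ∧ p ∈ S} from ⟨hr, ht⟩),
        indicator_of_mem ht, mul_one]
    · rw [indicator_of_notMem (fun h => ht h.2), indicator_of_notMem ht, mul_zero]
  · rw [indicator_of_notMem (show r ∉ Ioi (0 : ℝ) from hr)]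
    have h0 : ∀ t : ℝ, ({p : ℝ × ℝ | 0 < p.2 ∧ p ∈ S}.indicator
        fun p => ENNReal.ofReal (p.2 ^ (n - 1))) (t, r) = 0 := fun t =>
      indicator_of_notMem (fun h => hr h.1) _
    simp only [h0, lintegral_zero]

/-- `hmp`, Fubini, `SC70.polar` in `EuclideanSpace ℝ (Fin n)` (`n ≥ 1`) for fixed `t`, Tonelli (exchange of `t` and
the direction), `toSphere univ = n κ_n` (`toSphere_apply_univ`). -/
theorem cyl_polar {n : ℕ} (hn : 1 ≤ n) (e : EuclideanSpace ℝ (Fin (n + 1)))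
    (L : EuclideanSpace ℝ (Fin n) →ₗᵢ[ℝ] EuclideanSpace ℝ (Fin (n + 1)))
    (hmp : MeasurePreserving
      (fun z : ℝ × EuclideanSpace ℝ (Fin n) => z.1 • e + L z.2) volume volume)
    (w : EuclideanSpace ℝ (Fin (n + 1))) (D D' : Set (EuclideanSpace ℝ (Fin (n + 1))))
    (hD : MeasurableSet D) (hD' : MeasurableSet D') (B : ℝ≥0∞)
    (H : ∀ u : EuclideanSpace ℝ (Fin n), ‖u‖ = 1 →
      wt n {p | 0 < p.2 ∧ w + (p.1 • e + L (p.2 • u)) ∈ D} +
        wt n {p | 0 < p.2 ∧ w + (p.1 • e + L (p.2 • u)) ∈ D'} ≤ B) :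
    volume D + volume D' ≤ ENNReal.ofReal (n * kap n) * B := by
  have hnt : Nontrivial (EuclideanSpace ℝ (Fin n)) := by
    apply Module.nontrivial_of_finrank_pos (R := ℝ)
    rw [finrank_euclideanSpace_fin]
    omega
  have hf : MeasurePreserving (fun z : ℝ × EuclideanSpace ℝ (Fin n) => w + (z.1 • e + L z.2))
      volume volume := (measurePreserving_add_left volume w).comp hmp
  have hfm := hf.measurable
  -- the measure of a set as an integral
  have key : ∀ A : Set (EuclideanSpace ℝ (Fin (n + 1))), MeasurableSet A →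
      Measurable (fun y : EuclideanSpace ℝ (Fin n) =>
        ∫⁻ t : ℝ, A.indicator (fun _ => (1 : ℝ≥0∞)) (w + (t • e + L y))) ∧
      volume A = ∫⁻ y : EuclideanSpace ℝ (Fin n),
        ∫⁻ t : ℝ, A.indicator (fun _ => (1 : ℝ≥0∞)) (w + (t • e + L y)) := by
    intro A hA
    have hm : Measurable (fun z : ℝ × EuclideanSpace ℝ (Fin n) =>
        A.indicator (fun _ => (1 : ℝ≥0∞)) (w + (z.1 • e + L z.2))) :=
      (measurable_const.indicator hA).comp hfm
    refine ⟨hm.lintegral_prod_left', ?_⟩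
    have h1 : volume A = ∫⁻ z : ℝ × EuclideanSpace ℝ (Fin n),
        A.indicator (fun _ => (1 : ℝ≥0∞)) (w + (z.1 • e + L z.2)) := by
      rw [hf.lintegral_comp (measurable_const.indicator hA), lintegral_indicator_const hA, one_mul]
    rw [h1, volume_eq_prod, lintegral_prod_symm' _ hm]
  obtain ⟨hm1, hv1⟩ := key D hD
  obtain ⟨hm2, hv2⟩ := key D' hD'
  rw [hv1, hv2, ← lintegral_add_left hm1, polar volume (fun y : EuclideanSpace ℝ (Fin n) =>
    (∫⁻ t : ℝ, D.indicator (fun _ => (1 : ℝ≥0∞)) (w + (t • e + L y))) +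
      ∫⁻ t : ℝ, D'.indicator (fun _ => (1 : ℝ≥0∞)) (w + (t • e + L y))) (hm1.add hm2)]
  have hB : ∀ θ : sphere (0 : EuclideanSpace ℝ (Fin n)) 1,
      (∫⁻ r : ℝ in Ioi (0 : ℝ), ENNReal.ofReal (r ^ (finrank ℝ (EuclideanSpace ℝ (Fin n)) - 1)) *
        ((∫⁻ t : ℝ, D.indicator (fun _ => (1 : ℝ≥0∞)) (w + (t • e + L (r • (θ : EuclideanSpace ℝ (Fin n)))))) +
        ∫⁻ t : ℝ, D'.indicator (fun _ => (1 : ℝ≥0∞)) (w + (t • e + L (r • (θ : EuclideanSpace ℝ (Fin n))))))) ≤ B := by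
    intro θ
    have hθ : ‖(θ : EuclideanSpace ℝ (Fin n))‖ = 1 := by simp
    refine le_trans (le_of_eq ?_) (H θ hθ)
    have hmap : Measurable (fun p : ℝ × ℝ => w + (p.1 • e + L (p.2 • (θ : EuclideanSpace ℝ (Fin n))))) :=
      hfm.comp (measurable_fst.prodMk (measurable_snd.smul_const _))
    have h1 := cyl_wt n _ (hmap hD)
    have h2 := cyl_wt n _ (hmap hD')
    have e1 : {p : ℝ × ℝ | 0 < p.2 ∧ w + (p.1 • e + L (p.2 • (θ : EuclideanSpace ℝ (Fin n)))) ∈ D} =
      {p : ℝ × ℝ | 0 < p.2 ∧ p ∈ (fun p : ℝ × ℝ => w + (p.1 • e + L (p.2 • (θ : EuclideanSpace ℝ (Fin n))))) ⁻¹' D} := rfl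
    have e2 : {p : ℝ × ℝ | 0 < p.2 ∧ w + (p.1 • e + L (p.2 • (θ : EuclideanSpace ℝ (Fin n)))) ∈ D'} =
      {p : ℝ × ℝ | 0 < p.2 ∧ p ∈ (fun p : ℝ × ℝ => w + (p.1 • e + L (p.2 • (θ : EuclideanSpace ℝ (Fin n))))) ⁻¹' D'} := rfl
    rw [e1, e2, h1, h2, finrank_euclideanSpace_fin]
    have hmr : Measurable fun r : ℝ => ENNReal.ofReal (r ^ (n - 1)) *
        ∫⁻ t : ℝ, ((fun p : ℝ × ℝ => w + (p.1 • e + L (p.2 • (θ : EuclideanSpace ℝ (Fin n))))) ⁻¹' D).indicator
          (fun _ => (1 : ℝ≥0∞)) (t, r) := by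
      apply Measurable.mul (by fun_prop)
      exact (measurable_const.indicator (hmap hD)).lintegral_prod_left'
    rw [← lintegral_add_left hmr]
    apply lintegral_congr
    intro r
    rw [mul_add]
    rfl
  calc _ ≤ ∫⁻ _θ : sphere (0 : EuclideanSpace ℝ (Fin n)) 1, B
        ∂(volume : Measure (EuclideanSpace ℝ (Fin n))).toSphere := lintegral_mono hB
    _ = ENNReal.ofReal (n * kap n) * B := by
        rw [lintegral_const, toSphere_apply_univ, finrank_euclideanSpace_fin, mul_comm,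
          ENNReal.ofReal_mul (Nat.cast_nonneg _), ENNReal.ofReal_natCast]
        congr 2
        unfold kap
        rw [measureReal_def, ENNReal.ofReal_toReal (isCompact_closedBall _ _).measure_ne_top,
          Measure.addHaar_closedBall_eq_addHaar_ball]

end SA70
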