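import Pool.Agent.SA70.R6a
import Pool.Agent.SA70.R5
import Pool.Agent.SA70.M7f
import Pool.Agent.SC70.Frame

/-! R6b: the pair bound in space. -/

set_option autoImplicit false

open MeasureTheory Measure Metric Set Module ENNReal

namespace SA70

open SC70

namespace R6bAux

theorem kap_le_half {n : ℕ} (hn : 1 ≤ n) :
    kap n ≤ √(((n : ℝ) + 2) / (2 * Real.pi)) * kap (n + 1) := by
  rw [kap_formula hn, kap_formula (n := n + 1) (by omega)]
  have h := gamma_half_le ((n : ℝ) / 2 + 1) (by positivity)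
  have hG : 0 < Real.Gamma ((n : ℝ) / 2 + 1) := Real.Gamma_pos_of_pos (by positivity)
  have e1 : (((n + 1 : ℕ) : ℝ)) / 2 + 1 = (n : ℝ) / 2 + 1 + 1 / 2 := by push_cast; ring
  rw [e1]
  have hG2 : 0 < Real.Gamma ((n : ℝ) / 2 + 1 + 1 / 2) := Real.Gamma_pos_of_pos (by positivity)
  have hp : 0 < √Real.pi := Real.sqrt_pos.mpr Real.pi_pos
  have hs : √(((n : ℝ) + 2) / (2 * Real.pi)) * √Real.pi = √((n : ℝ) / 2 + 1) := by
    rw [← Real.sqrt_mul (by positivity)]
    congr 1
    field_simp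
  rw [pow_succ, mul_div_assoc', div_le_div_iff₀ hG hG2]
  calc √Real.pi ^ n * Real.Gamma ((n : ℝ) / 2 + 1 + 1 / 2)
      ≤ √Real.pi ^ n * (√((n : ℝ) / 2 + 1) * Real.Gamma ((n : ℝ) / 2 + 1)) :=
        mul_le_mul_of_nonneg_left h (by positivity)
    _ = √(((n : ℝ) + 2) / (2 * Real.pi)) * (√Real.pi ^ n * √Real.pi) *
        Real.Gamma ((n : ℝ) / 2 + 1) := by rw [← hs]; ring

theorem num {n : ℕ} (hn : 3000 ≤ n) :
    n * kap n * (3851 / 1000 * (1 / 100000) / (n * √(n : ℝ))) ≤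
      1537 / 1000 * (1 / 100000) * kap (n + 1) := by
  have hn1 : 1 ≤ n := by omega
  have hnr : (3000 : ℝ) ≤ n := by exact_mod_cast hn
  have hn0 : (0 : ℝ) < n := by linarith
  have hs : 0 < √(n : ℝ) := Real.sqrt_pos.mpr hn0
  have hκ := kap_nonneg (n + 1)
  have h1 := kap_le_half hn1
  have hπ := Real.pi_gt_d4
  have h2 : 3851 / 1000 * (√(((n : ℝ) + 2) / (2 * Real.pi)) / √(n : ℝ)) ≤ 1537 / 1000 := by
    rw [← Real.sqrt_div' _ hn0.le]
    have h3 : √(((n : ℝ) + 2) / (2 * Real.pi) / n) ≤ 1537 / 3851 := by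
      rw [Real.sqrt_le_left (by norm_num), div_div, div_le_iff₀ (by positivity)]
      nlinarith
    linarith
  have h4 : n * kap n * (3851 / 1000 * (1 / 100000) / (n * √(n : ℝ))) =
      3851 / 1000 * (1 / 100000) * (kap n / √(n : ℝ)) := by field_simp
  rw [h4]
  have h5 : kap n / √(n : ℝ) ≤ √(((n : ℝ) + 2) / (2 * Real.pi)) / √(n : ℝ) * kap (n + 1) := by
    rw [div_mul_eq_mul_div]
    exact div_le_div_of_nonneg_right h1 hs.le
  calc 3851 / 1000 * (1 / 100000) * (kap n / √(n : ℝ))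
      ≤ 3851 / 1000 * (1 / 100000) *
        (√(((n : ℝ) + 2) / (2 * Real.pi)) / √(n : ℝ) * kap (n + 1)) :=
        mul_le_mul_of_nonneg_left h5 (by norm_num)
    _ = 3851 / 1000 * (√(((n : ℝ) + 2) / (2 * Real.pi)) / √(n : ℝ)) *
        ((1 / 100000) * kap (n + 1)) := by ring
    _ ≤ 1537 / 1000 * ((1 / 100000) * kap (n + 1)) :=
        mul_le_mul_of_nonneg_right h2 (by positivity)
    _ = _ := by ring

end R6bAux

open R6bAux in
theorem pair_bound : ∃ d₀ : ℕ, 1 ≤ d₀ ∧ ∀ n : ℕ, d₀ ≤ n →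
    ∀ (C : Set (EuclideanSpace ℝ (Fin (n + 1)))), Convex ℝ C → IsCompact C →
    ∀ w ∈ C, ∀ w' ∈ C, w ≠ w' →
      volume.real (Inn C (1 / 100000 / ((n : ℝ) + 1)) w ∩ {x | ‖x - w‖ ≤ ‖x - w'‖}) +
        volume.real (Inn C (1 / 100000 / ((n : ℝ) + 1)) w' ∩ {x | ‖x - w'‖ ≤ ‖x - w‖}) ≤
      1537 / 1000 * (1 / 100000) * kap (n + 1) := by
  obtain ⟨d₀, hd₀, HP⟩ := planar_le
  refine ⟨max d₀ 3000, hd₀.trans (le_max_left _ _), ?_⟩
  intro n hn C hconv hCc w hw w' hw' hne
  have hn0 : d₀ ≤ n := (le_max_left _ _).trans hn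
  have hn3 : 3000 ≤ n := (le_max_right _ _).trans hn
  have hn1 : 1 ≤ n := by omega
  have hHP := HP n hn0
  obtain ⟨τ, hτ⟩ : ∃ τ : ℝ, τ = 1 / 100000 / ((n : ℝ) + 1) := ⟨_, rfl⟩
  rw [← hτ] at hHP ⊢
  have hd : 0 < ‖w' - w‖ := norm_pos_iff.mpr (sub_ne_zero.mpr (Ne.symm hne))
  obtain ⟨α, hα⟩ : ∃ α : ℝ, α = ‖w' - w‖ / 2 := ⟨_, rfl⟩
  have hα0 : 0 < α := by rw [hα]; positivity
  obtain ⟨e, hed⟩ : ∃ e : EuclideanSpace ℝ (Fin (n + 1)), e = (1 / ‖w' - w‖) • (w' - w) := ⟨_, rfl⟩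
  have he : ‖e‖ = 1 := by
    rw [hed, norm_smul, Real.norm_of_nonneg (by positivity)]
    field_simp
  have hw'e : w' = w + (2 * α) • e := by
    have h2 : 2 * α = ‖w' - w‖ := by rw [hα]; ring
    rw [h2, hed, smul_smul, mul_one_div_cancel hd.ne', one_smul]
    abel
  obtain ⟨L, hL, hmp, hsurj⟩ := exists_frame e he
  have hLc : Continuous L := L.continuous
  have hCm : MeasurableSet C := hCc.measurableSet
  have hInn : ∀ v : EuclideanSpace ℝ (Fin (n + 1)), MeasurableSet (Inn C τ v) := by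
    intro v
    have h1 : Inn C τ v = C ∩ ({x | ‖x - v‖ ≤ 1} ∩
        ((fun x : EuclideanSpace ℝ (Fin (n + 1)) => v + (1 + τ) • (x - v)) ⁻¹' C)ᶜ) := by
      ext x
      simp only [Inn, Set.mem_ofPred_eq, mem_inter_iff, mem_compl_iff, mem_preimage]
    rw [h1]
    refine hCm.inter (MeasurableSet.inter ?_ ?_)
    · exact measurableSet_le (Continuous.measurable (by fun_prop)) measurable_const
    · exact (hCm.preimage (Continuous.measurable (by fun_prop))).compl
  obtain ⟨D, hD⟩ : ∃ D : Set (EuclideanSpace ℝ (Fin (n + 1))),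
    D = Inn C τ w ∩ {x | ‖x - w‖ ≤ ‖x - w'‖} := ⟨_, rfl⟩
  obtain ⟨D', hD'⟩ : ∃ D' : Set (EuclideanSpace ℝ (Fin (n + 1))),
    D' = Inn C τ w' ∩ {x | ‖x - w'‖ ≤ ‖x - w‖} := ⟨_, rfl⟩
  have hDm : MeasurableSet D := by
    rw [hD]
    exact (hInn w).inter (measurableSet_le (Continuous.measurable (by fun_prop))
      (Continuous.measurable (by fun_prop)))
  have hDm' : MeasurableSet D' := by
    rw [hD']
    exact (hInn w').inter (measurableSet_le (Continuous.measurable (by fun_prop))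
      (Continuous.measurable (by fun_prop)))
  have hfin : volume D ≠ ⊤ := by
    refine ((measure_mono ?_).trans_lt hCc.measure_lt_top).ne
    rw [hD]; exact fun x hx => hx.1.1
  have hfin' : volume D' ≠ ⊤ := by
    refine ((measure_mono ?_).trans_lt hCc.measure_lt_top).ne
    rw [hD']; exact fun x hx => hx.1.1
  have key := cyl_polar hn1 e L hmp w D D' hDm hDm'
    (ENNReal.ofReal (3851 / 1000 * (1 / 100000) / (n * √(n : ℝ)))) (by
    intro u hu
    obtain ⟨K, hK⟩ : ∃ K : Set (ℝ × ℝ), K = {p | w + (p.1 • e + L (p.2 • u)) ∈ C} := ⟨_, rfl⟩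
    have hKmem : ∀ p : ℝ × ℝ, p ∈ K ↔ w + (p.1 • e + L (p.2 • u)) ∈ C := by
      intro p; rw [hK]; exact Iff.rfl
    have hno : ∀ a b : ℝ, ‖a • e + L (b • u)‖ ^ 2 = a ^ 2 + b ^ 2 := by
      intro a b
      rw [norm_add_sq_real, norm_smul, he, L.norm_map, norm_smul, hu, inner_smul_left, hL,
        mul_one, mul_one]
      simp
    have hKconv : Convex ℝ K := by
      intro p hp q hq a b ha hb hab
      rw [hKmem] at hp hq ⊢
      have h1 := hconv hp hq ha hb hab
      have h2 : a • (w + (p.1 • e + L (p.2 • u))) + b • (w + (q.1 • e + L (q.2 • u))) =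
          (a + b) • w + ((a • p + b • q).1 • e + L ((a • p + b • q).2 • u)) := by
        simp only [Prod.fst_add, Prod.snd_add, Prod.smul_fst, Prod.smul_snd, smul_eq_mul, map_smul]
        module
      rw [h2, hab, one_smul] at h1
      exact h1
    have hKc : IsCompact K := by
      apply Metric.isCompact_of_isClosed_isBounded
      · rw [hK]
        exact hCc.isClosed.preimage (by fun_prop : Continuous fun p : ℝ × ℝ =>
          w + (p.1 • e + L (p.2 • u)))
      · obtain ⟨M, hM⟩ := hCc.isBounded.subset_closedBall w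
        refine (Metric.isBounded_closedBall (x := (0 : ℝ × ℝ)) (r := M)).subset ?_
        intro p hp
        rw [hKmem] at hp
        have h1 := hM hp
        rw [mem_closedBall, dist_eq_norm, add_sub_cancel_left] at h1
        have h2 := hno p.1 p.2
        have h3 : 0 ≤ ‖p.1 • e + L (p.2 • u)‖ := norm_nonneg _
        have h4 : p.1 ^ 2 + p.2 ^ 2 ≤ M ^ 2 := by
          rw [← h2]; exact pow_le_pow_left₀ h3 h1 2
        have hM0 : 0 ≤ M := h3.trans h1
        rw [mem_closedBall_zero_iff, Prod.norm_def]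
        apply max_le
        · rw [Real.norm_eq_abs]
          exact abs_le_of_sq_le_sq (by nlinarith [sq_nonneg p.2]) hM0
        · rw [Real.norm_eq_abs]
          exact abs_le_of_sq_le_sq (by nlinarith [sq_nonneg p.1]) hM0
    have h0 : ((0 : ℝ), (0 : ℝ)) ∈ K := by
      rw [hKmem]; simpa using hw
    have h1 : (2 * α, (0 : ℝ)) ∈ K := by
      rw [hKmem]
      simp only [zero_smul, map_zero, add_zero]
      rw [← hw'e]; exact hw'
    have h3 := hHP K hKconv hKc α hα0 h0 h1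
    -- norms
    have hx : ∀ a b : ℝ, ‖w + (a • e + L (b • u)) - w‖ ^ 2 = a ^ 2 + b ^ 2 := by
      intro a b
      rw [add_sub_cancel_left, hno]
    have hx' : ∀ a b : ℝ, ‖w + (a • e + L (b • u)) - w'‖ ^ 2 = (2 * α - a) ^ 2 + b ^ 2 := by
      intro a b
      have h4 : w + (a • e + L (b • u)) - w' = (a - 2 * α) • e + L (b • u) := by
        rw [hw'e]; module
      rw [h4, hno]; ring
    refine le_trans (add_le_add ?_ ?_) h3
    · refine lintegral_mono_set ?_
      rintro p ⟨hp0, hp⟩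
      rw [hD] at hp
      obtain ⟨⟨hpC, hp1, hpo⟩, hpv⟩ := hp
      have hpv' : ‖w + (p.1 • e + L (p.2 • u)) - w‖ ≤ ‖w + (p.1 • e + L (p.2 • u)) - w'‖ := hpv
      refine ⟨hp0, (hKmem p).2 hpC, ?_, ?_, ?_⟩
      · have h5 := pow_le_pow_left₀ (norm_nonneg _) hpv' 2
        rw [hx, hx'] at h5
        nlinarith
      · rw [← hx]
        exact pow_le_one₀ (norm_nonneg _) hp1
      · rw [hKmem]
        intro h6
        apply hpo
        have h7 : w + (1 + τ) • (w + (p.1 • e + L (p.2 • u)) - w) =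
            w + (((1 + τ) * p.1) • e + L (((1 + τ) * p.2) • u)) := by
          rw [add_sub_cancel_left, map_smul, map_smul]
          module
        rw [h7]; exact h6
    · rw [← wt_mir (n := n) α (shl (mir α K) α τ)]
      refine lintegral_mono_set ?_
      rintro p ⟨hp0, hp⟩
      rw [hD'] at hp
      obtain ⟨⟨hpC, hp1, hpo⟩, hpv⟩ := hp
      have hpv' : ‖w + (p.1 • e + L (p.2 • u)) - w'‖ ≤ ‖w + (p.1 • e + L (p.2 • u)) - w‖ := hpv
      refine ⟨hp0, ?_, ?_, ?_, ?_⟩
      · have h8 : ((2 * α - (2 * α - p.1), p.2) : ℝ × ℝ) = p :=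
          Prod.ext (by ring) rfl
        change ((2 * α - (2 * α - p.1), p.2) : ℝ × ℝ) ∈ K
        rw [h8]
        exact (hKmem p).2 hpC
      · change 2 * α - p.1 ≤ α
        have h5 := pow_le_pow_left₀ (norm_nonneg _) hpv' 2
        rw [hx, hx'] at h5
        nlinarith
      · change (2 * α - p.1) ^ 2 + p.2 ^ 2 ≤ 1
        rw [← hx']
        exact pow_le_one₀ (norm_nonneg _) hp1
      · change ¬ (2 * α - (1 + τ) * (2 * α - p.1), (1 + τ) * p.2) ∈ K
        rw [hKmem]
        intro h6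
        apply hpo
        have h7 : w' + (1 + τ) • (w + (p.1 • e + L (p.2 • u)) - w') =
            w + ((2 * α - (1 + τ) * (2 * α - p.1)) • e + L (((1 + τ) * p.2) • u)) := by
          rw [hw'e, map_smul, map_smul]
          module
        rw [h7]; exact h6)
  have hκ := kap_nonneg (n + 1)
  have hκn := kap_nonneg n
  have hs : 0 ≤ √(n : ℝ) := Real.sqrt_nonneg _
  rw [← ENNReal.ofReal_mul (by positivity)] at key
  have key2 := key.trans (ENNReal.ofReal_le_ofReal (num hn3))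
  rw [← hD, ← hD', measureReal_def, measureReal_def, ← ENNReal.toReal_add hfin hfin']
  exact (ENNReal.toReal_mono ENNReal.ofReal_ne_top key2).trans
    (le_of_eq (ENNReal.toReal_ofReal (by positivity)))

end SA70
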