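import Pool.Agent.SA70.R0

/-! U0: the constant of two balls. -/

set_option autoImplicit false

open MeasureTheory Measure Metric Set Module ENNReal

namespace SA70

/-- `B1 = √2 e^(-1/4) + ∫_{1/√2}^∞ exp(-s²/2) ds = 1.70235..` -/
noncomputable def B1 : ℝ :=
  2 * (1 / √2) * Real.exp (-(1 / 4)) + ∫ s in Iic (-(1 / √2 : ℝ)), Real.exp (-(s ^ 2 / 2))

/-- the exponent of the one-variable inequality -/
noncomputable def Aex (s : ℝ) : ℝ :=
  1 + s / 6 - 2 / 9 * s ^ 2 + Real.log (1 - 3 * s / (3 + 2 * s)) / (3 * s / (3 + 2 * s)) -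
    Real.log (1 - s / 3)

end SA70
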