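import Pool.Agent.SA70.U0

/-! U1: the one-variable inequality. -/

set_option autoImplicit false

open MeasureTheory Measure Metric Set Module ENNReal

namespace SA70

namespace AexAux

/-- the Pade approximant of the logarithm -/
noncomputable def gp (x : ℝ) : ℝ := Real.log (1 + x) - 3 * x * (2 + x) / (6 + 6 * x + x ^ 2)

theorem gp_deriv (x : ℝ) (hx : -1 < x) :
    HasDerivAt gp (x ^ 4 / ((1 + x) * (6 + 6 * x + x ^ 2) ^ 2)) x := by
  have h1 : (1 + x : ℝ) ≠ 0 := by linarith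
  have h2 : (6 + 6 * x + x ^ 2 : ℝ) ≠ 0 := by nlinarith
  have hl : HasDerivAt (fun x : ℝ => Real.log (1 + x)) (1 / (1 + x)) x := by
    have := ((hasDerivAt_id' x).const_add 1).log h1
    exact this
  have hn : HasDerivAt (fun x : ℝ => 3 * x * (2 + x)) (3 * 1 * (2 + x) + 3 * x * 1) x :=
    ((hasDerivAt_id' x).const_mul 3).mul ((hasDerivAt_id' x).const_add 2)
  have hd : HasDerivAt (fun x : ℝ => 6 + 6 * x + x ^ 2) (6 * 1 + 2 * x) x := by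
    have h3 := ((((hasDerivAt_id' x).const_mul 6).const_add 6).add (hasDerivAt_pow 2 x))
    refine h3.congr_deriv ?_
    norm_num
  have hq := hl.sub (hn.div hd h2)
  refine hq.congr_deriv ?_
  obtain ⟨D, hD⟩ : ∃ D, D = 6 + 6 * x + x ^ 2 := ⟨_, rfl⟩
  rw [← hD] at h2 ⊢
  field_simp
  rw [hD]
  ring

theorem gp_mono : MonotoneOn gp (Ioi (-1)) := by
  apply monotoneOn_of_deriv_nonneg (convex_Ioi _)
  · intro x hx
    exact (gp_deriv x hx).continuousAt.continuousWithinAt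
  · intro x hx
    rw [interior_Ioi] at hx
    exact (gp_deriv x hx).differentiableAt.differentiableWithinAt
  · intro x hx
    rw [interior_Ioi] at hx
    rw [(gp_deriv x hx).deriv]
    have h1 : (0 : ℝ) < 1 + x := by have : -1 < x := hx; linarith
    positivity

theorem gp_zero : gp 0 = 0 := by
  unfold gp
  norm_num

theorem log_ge (x : ℝ) (hx : 0 ≤ x) : 3 * x * (2 + x) / (6 + 6 * x + x ^ 2) ≤ Real.log (1 + x) := by
  have h := gp_mono (show (0 : ℝ) ∈ Ioi (-1) by norm_num) (show x ∈ Ioi (-1 : ℝ) by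
    show -1 < x
    linarith) hx
  rw [gp_zero] at h
  unfold gp at h
  linarith

theorem log_le (x : ℝ) (h0 : -1 < x) (hx : x ≤ 0) :
    Real.log (1 + x) ≤ 3 * x * (2 + x) / (6 + 6 * x + x ^ 2) := by
  have h := gp_mono (show x ∈ Ioi (-1 : ℝ) from h0) (show (0 : ℝ) ∈ Ioi (-1) by norm_num) hx
  rw [gp_zero] at h
  unfold gp at h
  linarith

theorem aex_eq (t : ℝ) (ht : t ≠ 0) (h1 : 0 < 1 - t) (h2 : 0 < 1 + 2 * t) :
    Aex (3 * t) = 1 + t / 2 - 2 * t ^ 2 +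
      ((1 - t) * Real.log (1 - t) - (1 + 2 * t) * Real.log (1 + 2 * t)) / (3 * t) := by
  unfold Aex
  have e2 : 3 * (3 * t) / (3 + 2 * (3 * t)) = 3 * t / (1 + 2 * t) := by
    have : (3 + 2 * (3 * t) : ℝ) = 3 * (1 + 2 * t) := by ring
    rw [this]
    exact mul_div_mul_left _ _ (by norm_num)
  have e1 : 1 - 3 * t / (1 + 2 * t) = (1 - t) / (1 + 2 * t) := by
    rw [eq_div_iff h2.ne', sub_mul, div_mul_cancel₀ _ h2.ne']
    ring
  have e3 : 1 - 3 * t / 3 = 1 - t := by ring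
  rw [e2, e1, e3, Real.log_div h1.ne' h2.ne']
  obtain ⟨E, hE⟩ : ∃ E, E = 1 + 2 * t := ⟨_, rfl⟩
  have hE0 : E ≠ 0 := by rw [hE]; exact h2.ne'
  generalize Real.log (1 - t) = L
  rw [← hE]
  generalize Real.log E = K
  field_simp
  rw [hE]
  ring

theorem exp_le2 (x : ℝ) (hx : x ≤ 0) : Real.exp x ≤ 1 + x + x ^ 2 / 2 := by
  have h := Real.quadratic_le_exp_of_nonneg (x := -x) (by linarith)
  have h1 : Real.exp x * Real.exp (-x) = 1 := by rw [← Real.exp_add]; simp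
  have h2 : (1 : ℝ) ≤ (1 + x + x ^ 2 / 2) * (1 + -x + (-x) ^ 2 / 2) := by
    nlinarith [sq_nonneg (x ^ 2)]
  have h3 : 0 ≤ 1 + x + x ^ 2 / 2 := by nlinarith [sq_nonneg (x + 1)]
  have h4 : (1 + x + x ^ 2 / 2) * (1 + -x + (-x) ^ 2 / 2) ≤ (1 + x + x ^ 2 / 2) * Real.exp (-x) :=
    mul_le_mul_of_nonneg_left h h3
  have h5 : 0 < Real.exp (-x) := Real.exp_pos _
  have h6 : Real.exp x * Real.exp (-x) ≤ (1 + x + x ^ 2 / 2) * Real.exp (-x) := by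
    rw [h1]
    linarith
  exact le_of_mul_le_mul_right h6 h5

theorem aex_pos (t : ℝ) (h0 : 0 < t) (h1 : t ≤ 2 / 5) : Aex (3 * t) ≤ -(3 / 2) * t ^ 2 := by
  rw [aex_eq t h0.ne' (by linarith) (by linarith)]
  have a1 := log_le (-t) (by linarith) (by linarith)
  have a2 := log_ge (2 * t) (by linarith)
  have e1 : (1 + -t : ℝ) = 1 - t := by ring
  rw [e1] at a1
  have d1 : (0 : ℝ) < 6 - 6 * t + t ^ 2 := by nlinarith
  have d2 : (0 : ℝ) < 3 + 6 * t + 2 * t ^ 2 := by positivity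
  have b1 : (1 - t) * Real.log (1 - t) ≤ (1 - t) * (-(3 * t * (2 - t)) / (6 - 6 * t + t ^ 2)) := by
    refine mul_le_mul_of_nonneg_left (a1.trans (le_of_eq ?_)) (by linarith)
    congr 1 <;> ring
  have b2 : (1 + 2 * t) * (6 * t * (1 + t) / (3 + 6 * t + 2 * t ^ 2)) ≤
      (1 + 2 * t) * Real.log (1 + 2 * t) := by
    refine mul_le_mul_of_nonneg_left ((le_of_eq ?_).trans a2) (by linarith)
    have : (6 + 6 * (2 * t) + (2 * t) ^ 2 : ℝ) = 2 * (3 + 6 * t + 2 * t ^ 2) := by ring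
    rw [this]
    field_simp
    ring
  have key : (1 - t) * (-(3 * t * (2 - t)) / (6 - 6 * t + t ^ 2)) -
      (1 + 2 * t) * (6 * t * (1 + t) / (3 + 6 * t + 2 * t ^ 2)) ≤
      (-(1 + t / 2 - t ^ 2 / 2)) * (3 * t) := by
    have hk : (-(1 + t / 2 - t ^ 2 / 2)) * (3 * t) -
        ((1 - t) * (-(3 * t * (2 - t)) / (6 - 6 * t + t ^ 2)) -
      (1 + 2 * t) * (6 * t * (1 + t) / (3 + 6 * t + 2 * t ^ 2))) =
        3 * t * (t ^ 3 * (15 / 2 - 7 / 2 * t - 4 * t ^ 2 + t ^ 3)) /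
          ((6 - 6 * t + t ^ 2) * (3 + 6 * t + 2 * t ^ 2)) := by
      obtain ⟨D, hD⟩ : ∃ D, D = 6 - 6 * t + t ^ 2 := ⟨_, rfl⟩
      obtain ⟨E, hE⟩ : ∃ E, E = 3 + 6 * t + 2 * t ^ 2 := ⟨_, rfl⟩
      have hD0 : D ≠ 0 := by rw [hD]; exact d1.ne'
      have hE0 : E ≠ 0 := by rw [hE]; exact d2.ne'
      rw [← hD, ← hE]
      field_simp
      rw [hD, hE]
      ring
    have hn : 0 ≤ 15 / 2 - 7 / 2 * t - 4 * t ^ 2 + t ^ 3 := by
      have : 0 ≤ t ^ 3 := by positivity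
      nlinarith
    have hp : 0 ≤ 3 * t * (t ^ 3 * (15 / 2 - 7 / 2 * t - 4 * t ^ 2 + t ^ 3)) /
          ((6 - 6 * t + t ^ 2) * (3 + 6 * t + 2 * t ^ 2)) := by
      apply div_nonneg _ (by positivity)
      exact mul_nonneg (by linarith) (mul_nonneg (by positivity) hn)
    linarith
  have h3t : (0 : ℝ) < 3 * t := by linarith
  have hfin : ((1 - t) * Real.log (1 - t) - (1 + 2 * t) * Real.log (1 + 2 * t)) / (3 * t) ≤
      -(1 + t / 2 - t ^ 2 / 2) := by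
    rw [div_le_iff₀ h3t]
    linarith
  linarith

theorem aex_neg (t : ℝ) (h0 : 0 < t) (h1 : t ≤ 2 / 5) :
    Aex (3 * -t) ≤ -(3 / 2) * t ^ 2 + 23 / 20 * t ^ 3 := by
  rw [aex_eq (-t) (by linarith) (by linarith) (by linarith)]
  have a1 := log_ge t h0.le
  have a2 := log_le (-(2 * t)) (by linarith) (by linarith)
  have d1 : (0 : ℝ) < 6 + 6 * t + t ^ 2 := by positivity
  have d2 : (0 : ℝ) < 3 - 6 * t + 2 * t ^ 2 := by nlinarith
  have b1 : (1 + t) * (3 * t * (2 + t) / (6 + 6 * t + t ^ 2)) ≤ (1 + t) * Real.log (1 + t) :=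
    mul_le_mul_of_nonneg_left a1 (by linarith)
  have b2 : (1 - 2 * t) * Real.log (1 + -(2 * t)) ≤
      (1 - 2 * t) * (-(6 * t * (1 - t)) / (3 - 6 * t + 2 * t ^ 2)) := by
    refine mul_le_mul_of_nonneg_left (a2.trans (le_of_eq ?_)) (by linarith)
    have : (6 + 6 * -(2 * t) + (-(2 * t)) ^ 2 : ℝ) = 2 * (3 - 6 * t + 2 * t ^ 2) := by ring
    rw [this]
    field_simp
    ring
  have key : (1 - 2 * t) * (-(6 * t * (1 - t)) / (3 - 6 * t + 2 * t ^ 2)) -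
      (1 + t) * (3 * t * (2 + t) / (6 + 6 * t + t ^ 2)) ≤
      (-(1 - t / 2 - t ^ 2 / 2 - 23 / 20 * t ^ 3)) * (3 * t) := by
    have hk : (-(1 - t / 2 - t ^ 2 / 2 - 23 / 20 * t ^ 3)) * (3 * t) -
        ((1 - 2 * t) * (-(6 * t * (1 - t)) / (3 - 6 * t + 2 * t ^ 2)) -
      (1 + t) * (3 * t * (2 + t) / (6 + 6 * t + t ^ 2))) =
        3 * t * (t ^ 3 * (123 / 10 - 233 / 10 * t - 191 / 10 * t ^ 2 + 38 / 5 * t ^ 3 +
          11 / 5 * t ^ 4 + 1 / 20 * ((6 + 6 * t + t ^ 2) * (3 - 6 * t + 2 * t ^ 2)))) /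
          ((6 + 6 * t + t ^ 2) * (3 - 6 * t + 2 * t ^ 2)) := by
      obtain ⟨D, hD⟩ : ∃ D, D = 6 + 6 * t + t ^ 2 := ⟨_, rfl⟩
      obtain ⟨E, hE⟩ : ∃ E, E = 3 - 6 * t + 2 * t ^ 2 := ⟨_, rfl⟩
      have hD0 : D ≠ 0 := by rw [hD]; exact d1.ne'
      have hE0 : E ≠ 0 := by rw [hE]; exact d2.ne'
      rw [← hD, ← hE]
      field_simp
      rw [hD, hE]
      ring
    have hn : 0 ≤ 123 / 10 - 233 / 10 * t - 191 / 10 * t ^ 2 + 38 / 5 * t ^ 3 +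
          11 / 5 * t ^ 4 + 1 / 20 * ((6 + 6 * t + t ^ 2) * (3 - 6 * t + 2 * t ^ 2)) := by
      have c1 : 0 ≤ t ^ 3 := by positivity
      have c2 : 0 ≤ t ^ 4 := by positivity
      have c3 : (92 / 100 : ℝ) ≤ 3 - 6 * t + 2 * t ^ 2 := by nlinarith
      have c4 : (6 + 24 / 10 : ℝ) * (92 / 100) ≤ (6 + 6 * t + t ^ 2) * (3 - 6 * t + 2 * t ^ 2) := by
        nlinarith
      nlinarith
    have hp : 0 ≤ 3 * t * (t ^ 3 * (123 / 10 - 233 / 10 * t - 191 / 10 * t ^ 2 + 38 / 5 * t ^ 3 +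
          11 / 5 * t ^ 4 + 1 / 20 * ((6 + 6 * t + t ^ 2) * (3 - 6 * t + 2 * t ^ 2)))) /
          ((6 + 6 * t + t ^ 2) * (3 - 6 * t + 2 * t ^ 2)) := by
      apply div_nonneg _ (by positivity)
      exact mul_nonneg (by linarith) (mul_nonneg (by positivity) hn)
    linarith
  have h3t : (0 : ℝ) < 3 * t := by linarith
  have hfin : ((1 - -t) * Real.log (1 - -t) - (1 + 2 * -t) * Real.log (1 + 2 * -t)) / (3 * -t) ≤
      -(1 - t / 2 - t ^ 2 / 2 - 23 / 20 * t ^ 3) := by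
    have e : ((1 - -t) * Real.log (1 - -t) - (1 + 2 * -t) * Real.log (1 + 2 * -t)) / (3 * -t) =
        ((1 - 2 * t) * Real.log (1 + -(2 * t)) - (1 + t) * Real.log (1 + t)) / (3 * t) := by
      have e1 : (1 - -t : ℝ) = 1 + t := by ring
      have e2 : (1 + 2 * -t : ℝ) = 1 + -(2 * t) := by ring
      rw [e1, e2, mul_neg, div_neg, ← neg_div]
      congr 1
      ring
    rw [e, div_le_iff₀ h3t]
    linarith
  have e3 : 1 + -t / 2 - 2 * (-t) ^ 2 = 1 - t / 2 - 2 * t ^ 2 := by ring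
  rw [e3]
  linarith

end AexAux

open AexAux in
/-- Numerically the difference is at least `0.022 s²` on `(0, 6/5]` (`0.083 s²` near `0`; it holds up to `1.35`).
With `s = 3 t`: `3 t Aex(3t) = 3t + 3t²/2 - 6t³ + (1-t) log(1-t) - (1+2t) log(1+2t)`; Pade bounds of the logarithm. -/
theorem aex_le (s : ℝ) (hs0 : 0 < s) (hs1 : s ≤ 6 / 5) :
    Real.exp (Aex s) + Real.exp (Aex (-s)) ≤ 2 - s ^ 2 / 4 := by
  obtain ⟨t, rfl⟩ : ∃ t, s = 3 * t := ⟨s / 3, by ring⟩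
  have h0 : 0 < t := by linarith
  have h1 : t ≤ 2 / 5 := by linarith
  have a1 := aex_pos t h0 h1
  have a2 := aex_neg t h0 h1
  have e1 : -(3 * t) = 3 * -t := by ring
  rw [e1]
  have p0 : -(3 / 2) * t ^ 2 ≤ 0 := by nlinarith
  have p1 : -(3 / 2) * t ^ 2 + 23 / 20 * t ^ 3 ≤ 0 := by nlinarith [sq_nonneg t]
  have b1 := (Real.exp_le_exp.2 a1).trans (exp_le2 _ p0)
  have b2 := (Real.exp_le_exp.2 a2).trans (exp_le2 _ p1)
  have key : -(3 / 2) * t ^ 2 + (-(3 / 2) * t ^ 2) ^ 2 / 2 + (-(3 / 2) * t ^ 2 + 23 / 20 * t ^ 3) +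
      (-(3 / 2) * t ^ 2 + 23 / 20 * t ^ 3) ^ 2 / 2 ≤ -(9 / 4) * t ^ 2 := by
    have hq : 23 / 20 * t + 9 / 4 * t ^ 2 - 69 / 40 * t ^ 3 + 529 / 800 * t ^ 4 ≤ 3 / 4 := by
      have c1 : t ^ 2 ≤ 4 / 25 := by nlinarith
      have c2 : 0 ≤ t ^ 3 := by positivity
      have c4 : t ^ 4 ≤ 2 / 5 * t ^ 3 := by
        have : t ^ 4 = t * t ^ 3 := by ring
        rw [this]
        exact mul_le_mul_of_nonneg_right h1 c2
      have c5 : 9 / 4 * t ^ 2 - 69 / 40 * t ^ 3 + 529 / 800 * t ^ 4 ≤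
          9 / 4 * t ^ 2 - 146 / 100 * t ^ 3 := by linarith
      have c6 : 23 / 20 * t + 9 / 4 * t ^ 2 - 146 / 100 * t ^ 3 ≤ 3 / 4 := by
        nlinarith [mul_nonneg h0.le (sub_nonneg.2 h1), mul_nonneg (mul_nonneg h0.le h0.le)
          (sub_nonneg.2 h1)]
      linarith
    have e : -(3 / 2) * t ^ 2 + (-(3 / 2) * t ^ 2) ^ 2 / 2 + (-(3 / 2) * t ^ 2 + 23 / 20 * t ^ 3) +
        (-(3 / 2) * t ^ 2 + 23 / 20 * t ^ 3) ^ 2 / 2 =
        -(3 * t ^ 2) + t ^ 2 * (23 / 20 * t + 9 / 4 * t ^ 2 - 69 / 40 * t ^ 3 +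
          529 / 800 * t ^ 4) := by ring
    rw [e]
    have := mul_le_mul_of_nonneg_left hq (sq_nonneg t)
    linarith
  have e2 : 2 - (3 * t) ^ 2 / 4 = 2 + -(9 / 4) * t ^ 2 := by ring
  rw [e2]
  linarith

end SA70
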