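import Pool.Agent.SA70.U0

/-! U2b: the bound at slope zero, and two Gaussian tails. -/

set_option autoImplicit false

open MeasureTheory Measure Metric Set Module ENNReal

namespace SA70

private theorem u2b_int : Integrable (fun s : ℝ => Real.exp (-(s ^ 2 / 2))) := by
  have h1 := integrable_exp_neg_mul_sq (b := 1 / 2) (by norm_num)
  refine h1.congr (Filter.Eventually.of_forall fun s => ?_)
  simp only
  congr 1
  ring

private theorem u2b_c : (1 / √2 : ℝ) ^ 2 = 1 / 2 ∧ 0 < (1 / √2 : ℝ) := by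
  constructor
  · rw [div_pow, Real.sq_sqrt (by norm_num : (0 : ℝ) ≤ 2)]
    norm_num
  · positivity

private theorem u2b_tail (c T : ℝ) (hc0 : 0 < c) (hc : c ^ 2 = 1 / 2) :
    (T + c) * Real.exp (-(T ^ 2 / 2)) ≤ 2 * c * Real.exp (-(1 / 4)) := by
  rcases le_or_gt (T + c) 0 with h | h
  · have h1 : (T + c) * Real.exp (-(T ^ 2 / 2)) ≤ 0 :=
      mul_nonpos_of_nonpos_of_nonneg h (Real.exp_pos _).le
    have h2 : 0 ≤ 2 * c * Real.exp (-(1 / 4)) := by positivity
    linarith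
  · have h1 : Real.exp (-(T ^ 2 / 2)) ≤ Real.exp (3 / 4 - c * (T + c)) := by
      apply Real.exp_le_exp.2
      nlinarith [sq_nonneg (T - c)]
    have h2 : c * (T + c) ≤ Real.exp (c * (T + c) - 1) := by
      have := Real.add_one_le_exp (c * (T + c) - 1)
      linarith
    have h3 : c * ((T + c) * Real.exp (-(T ^ 2 / 2))) ≤ Real.exp (-(1 / 4)) := by
      calc c * ((T + c) * Real.exp (-(T ^ 2 / 2)))
          = (c * (T + c)) * Real.exp (-(T ^ 2 / 2)) := by ring
        _ ≤ Real.exp (c * (T + c) - 1) * Real.exp (3 / 4 - c * (T + c)) :=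
            mul_le_mul h2 h1 (Real.exp_pos _).le (Real.exp_pos _).le
        _ = Real.exp (-(1 / 4)) := by
            rw [← Real.exp_add]
            congr 1
            ring
    have h4 : 2 * c * (c * ((T + c) * Real.exp (-(T ^ 2 / 2)))) ≤
        2 * c * Real.exp (-(1 / 4)) := mul_le_mul_of_nonneg_left h3 (by positivity)
    have h5 : 2 * c * (c * ((T + c) * Real.exp (-(T ^ 2 / 2)))) =
        (T + c) * Real.exp (-(T ^ 2 / 2)) := by
      have : 2 * c * (c * ((T + c) * Real.exp (-(T ^ 2 / 2)))) =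
        2 * c ^ 2 * ((T + c) * Real.exp (-(T ^ 2 / 2))) := by ring
      rw [this, hc]
      ring
    linarith

/-- `T ≤ -1/√2`: trivial; else cut at `-1/√2`: `≤ N + (T + 1/√2) exp(-T²/2)`, and
`(T + c) exp(-T²/2) ≤ 2 c exp(-1/4)`, `c = 1/√2` (`T²/2 ≥ cT - c²/2`, `v exp(-c v) ≤ exp(-1)/c`). -/
theorem tlt_zero_sharp (T : ℝ) : tlt T 0 ≤ B1 := by
  obtain ⟨hc, hc0⟩ := u2b_c
  unfold B1 tlt
  obtain ⟨c, hcc⟩ : ∃ c : ℝ, c = 1 / √2 := ⟨_, rfl⟩
  rw [← hcc] at hc hc0 ⊢
  have hle : ∀ s : ℝ, Real.exp (-(max (T ^ 2 / 2 + 0 * (s - T)) (s ^ 2 / 2))) ≤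
      Real.exp (-(s ^ 2 / 2)) := fun s =>
    Real.exp_le_exp.2 (neg_le_neg (le_max_right _ _))
  have hmeas : AEStronglyMeasurable
      (fun s : ℝ => Real.exp (-(max (T ^ 2 / 2 + 0 * (s - T)) (s ^ 2 / 2)))) volume := by
    apply Continuous.aestronglyMeasurable
    fun_prop
  have hint : Integrable (fun s : ℝ => Real.exp (-(max (T ^ 2 / 2 + 0 * (s - T)) (s ^ 2 / 2)))) := by
    refine u2b_int.mono' hmeas (Filter.Eventually.of_forall fun s => ?_)
    rw [Real.norm_of_nonneg (Real.exp_pos _).le]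
    exact hle s
  have htail := u2b_tail c T hc0 hc
  rcases le_or_gt T (-c) with h | h
  · have h1 : ∫ s in Iic T, Real.exp (-(max (T ^ 2 / 2 + 0 * (s - T)) (s ^ 2 / 2))) ≤
        ∫ s in Iic T, Real.exp (-(s ^ 2 / 2)) :=
      setIntegral_mono hint.integrableOn u2b_int.integrableOn hle
    have h2 : ∫ s in Iic T, Real.exp (-(s ^ 2 / 2)) ≤ ∫ s in Iic (-c), Real.exp (-(s ^ 2 / 2)) := by
      refine setIntegral_mono_set u2b_int.integrableOn ?_ ?_
      · exact Filter.Eventually.of_forall fun s => (Real.exp_pos _).le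
      · exact (Iic_subset_Iic.2 h).eventuallyLE
    have h3 : 0 ≤ 2 * c * Real.exp (-(1 / 4)) := by positivity
    linarith
  · have hsplit : ∫ s in Iic T, Real.exp (-(max (T ^ 2 / 2 + 0 * (s - T)) (s ^ 2 / 2))) =
        (∫ s in Iic (-c), Real.exp (-(max (T ^ 2 / 2 + 0 * (s - T)) (s ^ 2 / 2)))) +
        ∫ s in Ioc (-c) T, Real.exp (-(max (T ^ 2 / 2 + 0 * (s - T)) (s ^ 2 / 2))) := by
      have hdj : Disjoint (Iic (-c)) (Ioc (-c) T) :=
        Set.disjoint_left.2 fun s hs hs' => not_lt.2 hs hs'.1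
      rw [← setIntegral_union hdj measurableSet_Ioc hint.integrableOn hint.integrableOn,
        Iic_union_Ioc_eq_Iic h.le]
    have h1 : ∫ s in Iic (-c), Real.exp (-(max (T ^ 2 / 2 + 0 * (s - T)) (s ^ 2 / 2))) ≤
        ∫ s in Iic (-c), Real.exp (-(s ^ 2 / 2)) :=
      setIntegral_mono hint.integrableOn u2b_int.integrableOn hle
    have h2 : ∫ s in Ioc (-c) T, Real.exp (-(max (T ^ 2 / 2 + 0 * (s - T)) (s ^ 2 / 2))) ≤
        ∫ s in Ioc (-c) T, Real.exp (-(T ^ 2 / 2)) := by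
      refine setIntegral_mono hint.integrableOn ?_ fun s => ?_
      · rw [integrableOn_const_iff]
        right
        rw [Real.volume_Ioc]
        exact ENNReal.ofReal_lt_top
      · apply Real.exp_le_exp.2
        apply neg_le_neg
        refine le_trans (le_of_eq ?_) (le_max_left _ _)
        ring
    have h3 : ∫ s in Ioc (-c) T, Real.exp (-(T ^ 2 / 2)) =
        (T + c) * Real.exp (-(T ^ 2 / 2)) := by
      rw [setIntegral_const, measureReal_def, Real.volume_Ioc, ENNReal.toReal_ofReal (by linarith),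
        smul_eq_mul]
      ring
    rw [hsplit]
    linarith

private theorem u2b_sinh (y : ℝ) (hy : 0 ≤ y) : Real.sinh y ≤ y * Real.cosh y := by
  have hd : ∀ x : ℝ, HasDerivAt (fun x => x * Real.cosh x - Real.sinh x) (x * Real.sinh x) x := by
    intro x
    have h1 := ((hasDerivAt_id x).mul (Real.hasDerivAt_cosh x)).sub (Real.hasDerivAt_sinh x)
    have e : 1 * Real.cosh x + id x * Real.sinh x - Real.cosh x = x * Real.sinh x := by
      simp
    rw [e] at h1
    exact h1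
  have hmono : MonotoneOn (fun x => x * Real.cosh x - Real.sinh x) (Ici 0) := by
    refine monotoneOn_of_deriv_nonneg (convex_Ici 0) ?_ ?_ ?_
    · exact fun x _ => (hd x).continuousAt.continuousWithinAt
    · exact fun x _ => (hd x).differentiableAt.differentiableWithinAt
    · intro x hx
      rw [interior_Ici] at hx
      rw [(hd x).deriv]
      exact mul_nonneg (le_of_lt hx) (Real.sinh_nonneg_iff.2 (le_of_lt hx))
  have h0 := hmono (mem_Ici.2 (le_refl (0 : ℝ))) (mem_Ici.2 hy) hy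
  simp only [zero_mul, Real.sinh_zero, sub_zero] at h0
  linarith

private theorem u2b_pt (c t : ℝ) (hc0 : 0 < c) (hc : c ^ 2 = 1 / 2) (ht : 0 ≤ t) :
    Real.exp (-((-c + t) ^ 2 / 2)) - Real.exp (-((-c - t) ^ 2 / 2)) ≤
      2 * c * Real.exp (-(1 / 4)) * t := by
  have e1 : Real.exp (-((-c + t) ^ 2 / 2)) =
      Real.exp (-(1 / 4)) * (Real.exp (-(t ^ 2 / 2)) * Real.exp (c * t)) := by
    rw [← Real.exp_add, ← Real.exp_add]
    congr 1
    nlinarith
  have e2 : Real.exp (-((-c - t) ^ 2 / 2)) =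
      Real.exp (-(1 / 4)) * (Real.exp (-(t ^ 2 / 2)) * Real.exp (-(c * t))) := by
    rw [← Real.exp_add, ← Real.exp_add]
    congr 1
    nlinarith
  have e3 : Real.exp (c * t) - Real.exp (-(c * t)) = 2 * Real.sinh (c * t) := by
    rw [Real.sinh_eq]
    ring
  have h1 := u2b_sinh (c * t) (by positivity)
  have h2 := Real.cosh_le_exp_half_sq (c * t)
  have h3 : Real.sinh (c * t) ≤ c * t * Real.exp ((c * t) ^ 2 / 2) :=
    h1.trans (mul_le_mul_of_nonneg_left h2 (by positivity))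
  have h4 : Real.exp (-(t ^ 2 / 2)) * Real.exp ((c * t) ^ 2 / 2) ≤ 1 := by
    rw [← Real.exp_add, Real.exp_le_one_iff, mul_pow, hc]
    nlinarith [sq_nonneg t]
  calc Real.exp (-((-c + t) ^ 2 / 2)) - Real.exp (-((-c - t) ^ 2 / 2))
      = Real.exp (-(1 / 4)) * (Real.exp (-(t ^ 2 / 2)) * (2 * Real.sinh (c * t))) := by
        rw [e1, e2, ← e3]
        ring
    _ ≤ Real.exp (-(1 / 4)) * (Real.exp (-(t ^ 2 / 2)) *
          (2 * (c * t * Real.exp ((c * t) ^ 2 / 2)))) := by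
        gcongr
    _ = 2 * c * Real.exp (-(1 / 4)) * t *
          (Real.exp (-(t ^ 2 / 2)) * Real.exp ((c * t) ^ 2 / 2)) := by ring
    _ ≤ 2 * c * Real.exp (-(1 / 4)) * t * 1 :=
        mul_le_mul_of_nonneg_left h4 (by positivity)
    _ = _ := mul_one _

/-- `φ(c-t) - φ(c+t) = exp(-1/4) exp(-t²/2) 2 sinh(ct)`, `c² = 1/2`; `sinh y ≤ y cosh y ≤ y exp(y²/2)`
(`Real.cosh_le_exp_half_sq`), `y²/2 = t²/4 ≤ t²/2`; integrate `2 c t`. -/
theorem gauss_two (σ : ℝ) (hσ : 0 ≤ σ) :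
    (∫ s in Iic (-(1 / √2) + σ), Real.exp (-(s ^ 2 / 2))) +
      (∫ s in Iic (-(1 / √2) - σ), Real.exp (-(s ^ 2 / 2))) ≤
    2 * (∫ s in Iic (-(1 / √2 : ℝ)), Real.exp (-(s ^ 2 / 2))) +
      1 / √2 * Real.exp (-(1 / 4)) * σ ^ 2 := by
  obtain ⟨hc, hc0⟩ := u2b_c
  obtain ⟨c, hcc⟩ : ∃ c : ℝ, c = 1 / √2 := ⟨_, rfl⟩
  rw [← hcc] at hc hc0 ⊢
  have hcont : Continuous (fun s : ℝ => Real.exp (-(s ^ 2 / 2))) := by fun_prop
  have h1 := intervalIntegral.integral_Iic_sub_Iic (a := -c) (b := -c + σ) (μ := volume)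
    (f := fun s : ℝ => Real.exp (-(s ^ 2 / 2))) u2b_int.integrableOn u2b_int.integrableOn
  have h2 := intervalIntegral.integral_Iic_sub_Iic (a := -c - σ) (b := -c) (μ := volume)
    (f := fun s : ℝ => Real.exp (-(s ^ 2 / 2))) u2b_int.integrableOn u2b_int.integrableOn
  have h3 : ∫ s in (-c)..(-c + σ), Real.exp (-(s ^ 2 / 2)) =
      ∫ t in (0 : ℝ)..σ, Real.exp (-((-c + t) ^ 2 / 2)) := by
    have := intervalIntegral.integral_comp_add_left
      (fun s : ℝ => Real.exp (-(s ^ 2 / 2))) (a := 0) (b := σ) (-c)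
    rw [add_zero] at this
    exact this.symm
  have h4 : ∫ s in (-c - σ)..(-c), Real.exp (-(s ^ 2 / 2)) =
      ∫ t in (0 : ℝ)..σ, Real.exp (-((-c - t) ^ 2 / 2)) := by
    have := intervalIntegral.integral_comp_sub_left
      (fun s : ℝ => Real.exp (-(s ^ 2 / 2))) (a := 0) (b := σ) (-c)
    rw [sub_zero] at this
    exact this.symm
  have hc1 : Continuous (fun t : ℝ => Real.exp (-((-c + t) ^ 2 / 2))) := by fun_prop
  have hc2 : Continuous (fun t : ℝ => Real.exp (-((-c - t) ^ 2 / 2))) := by fun_prop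
  have hc3 : Continuous (fun t : ℝ => 2 * c * Real.exp (-(1 / 4)) * t) := by fun_prop
  have h5 : (∫ t in (0 : ℝ)..σ, Real.exp (-((-c + t) ^ 2 / 2))) -
      (∫ t in (0 : ℝ)..σ, Real.exp (-((-c - t) ^ 2 / 2))) ≤
      ∫ t in (0 : ℝ)..σ, 2 * c * Real.exp (-(1 / 4)) * t := by
    rw [← intervalIntegral.integral_sub (hc1.intervalIntegrable _ _)
      (hc2.intervalIntegrable _ _)]
    refine intervalIntegral.integral_mono_on hσ ?_ (hc3.intervalIntegrable _ _) ?_
    · exact (hc1.sub hc2).intervalIntegrable _ _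
    · intro t ht
      exact u2b_pt c t hc0 hc ht.1
  have h6 : ∫ t in (0 : ℝ)..σ, 2 * c * Real.exp (-(1 / 4)) * t =
      c * Real.exp (-(1 / 4)) * σ ^ 2 := by
    rw [intervalIntegral.integral_const_mul, integral_id]
    ring
  rw [h6, ← h3, ← h4, ← h1, ← h2] at h5
  linarith

end SA70
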