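import Pool.Agent.SA70.U0

/-! U2c: the numbers for `B1`. -/

set_option autoImplicit false

open MeasureTheory Measure Metric Set Module ENNReal

namespace SA70

namespace B1Aux

/-- the Gaussian -/
noncomputable def G (s : ℝ) : ℝ := Real.exp (-(s ^ 2 / 2))

theorem G_eq : G = fun s => Real.exp (-(1 / 2) * s ^ 2) := by
  funext s; unfold G; congr 1; ring

theorem G_cont : Continuous G := by unfold G; fun_prop

theorem G_int : Integrable G := by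
  rw [G_eq]; exact integrable_exp_neg_mul_sq (by norm_num)

theorem G_Ioi : ∫ s in Ioi (0 : ℝ), G s = √(Real.pi / (1 / 2)) / 2 := by
  rw [G_eq, integral_gaussian_Ioi]

theorem G_Ioi_le : ∫ s in Ioi (0 : ℝ), G s ≤ 125332 / 100000 := by
  rw [G_Ioi, div_le_iff₀ (by norm_num), Real.sqrt_le_left (by norm_num)]
  have := Real.pi_lt_d6
  norm_num at this ⊢
  linarith

theorem G_Ioi_ge : 12533 / 10000 ≤ ∫ s in Ioi (0 : ℝ), G s := by
  rw [G_Ioi, le_div_iff₀ (by norm_num)]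
  apply Real.le_sqrt_of_sq_le
  have := Real.pi_gt_d6
  norm_num at this ⊢
  linarith

theorem G_taylor (s : ℝ) (hs : s ^ 2 ≤ 1) :
    |G s - (1 - s ^ 2 / 2 + s ^ 4 / 8 - s ^ 6 / 48)| ≤ 5 / 1536 * s ^ 8 := by
  have h := Real.exp_bound (x := -(s ^ 2 / 2)) (n := 4)
    (by rw [abs_neg, abs_of_nonneg (by positivity)]; linarith) (by norm_num)
  have e1 : ∑ m ∈ Finset.range 4, (-(s ^ 2 / 2)) ^ m / (m.factorial : ℝ) =
      1 - s ^ 2 / 2 + s ^ 4 / 8 - s ^ 6 / 48 := by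
    simp [Finset.sum_range_succ, Nat.factorial]
    ring
  rw [e1] at h
  unfold G
  refine h.trans (le_of_eq ?_)
  rw [abs_neg, abs_of_nonneg (by positivity)]
  simp [Nat.factorial]
  ring

theorem c_sq : (1 / √2 : ℝ) ^ 2 = 1 / 2 := by
  rw [div_pow, Real.sq_sqrt (by norm_num)]; norm_num

theorem c_pos : (0 : ℝ) < 1 / √2 := by positivity

theorem c_ge : (7071 / 10000 : ℝ) ≤ 1 / √2 := by
  have h := c_sq
  have h0 := c_pos
  nlinarith

theorem c_le : (1 / √2 : ℝ) ≤ 70711 / 100000 := by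
  have h := c_sq
  have h0 := c_pos
  nlinarith

theorem poly_int (κ c : ℝ) : ∫ s in (0 : ℝ)..c,
    (1 - s ^ 2 / 2 + s ^ 4 / 8 - s ^ 6 / 48 + κ * s ^ 8) =
      c - c ^ 3 / 6 + c ^ 5 / 40 - c ^ 7 / 336 + κ * (c ^ 9 / 9) := by
  have hder : ∀ s ∈ uIcc (0 : ℝ) c, HasDerivAt
      (fun s : ℝ => s - s ^ 3 / 6 + s ^ 5 / 40 - s ^ 7 / 336 + κ * (s ^ 9 / 9))
      (1 - s ^ 2 / 2 + s ^ 4 / 8 - s ^ 6 / 48 + κ * s ^ 8) s := by
    intro s _
    have h := ((((hasDerivAt_id s).sub ((hasDerivAt_pow 3 s).div_const 6)).add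
      ((hasDerivAt_pow 5 s).div_const 40)).sub ((hasDerivAt_pow 7 s).div_const 336)).add
      (((hasDerivAt_pow 9 s).div_const 9).const_mul κ)
    have e : 1 - s ^ 2 / 2 + s ^ 4 / 8 - s ^ 6 / 48 + κ * s ^ 8 =
        1 - ((3 : ℕ) : ℝ) * s ^ (3 - 1) / 6 + ((5 : ℕ) : ℝ) * s ^ (5 - 1) / 40 -
          ((7 : ℕ) : ℝ) * s ^ (7 - 1) / 336 + κ * (((9 : ℕ) : ℝ) * s ^ (9 - 1) / 9) := by
      push_cast
      ring
    rw [e]
    exact h
  rw [intervalIntegral.integral_eq_sub_of_hasDerivAt hder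
    (Continuous.intervalIntegrable (by fun_prop) _ _)]
  ring

theorem mid_le : ∫ s in (0 : ℝ)..(1 / √2), G s ≤ 65237 / 100000 := by
  have h1 : ∫ s in (0 : ℝ)..(1 / √2), G s ≤ ∫ s in (0 : ℝ)..(1 / √2),
      (1 - s ^ 2 / 2 + s ^ 4 / 8 - s ^ 6 / 48 + 5 / 1536 * s ^ 8) := by
    apply intervalIntegral.integral_mono_on c_pos.le (G_cont.intervalIntegrable _ _)
      (Continuous.intervalIntegrable (by fun_prop) _ _)
    intro s hs
    have hs2 : s ^ 2 ≤ 1 := by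
      have : s ^ 2 ≤ (1 / √2 : ℝ) ^ 2 := pow_le_pow_left₀ hs.1 hs.2 2
      rw [c_sq] at this; linarith
    have := (abs_le.1 (G_taylor s hs2)).2
    linarith
  rw [poly_int] at h1
  refine h1.trans ?_
  have h2 := c_sq
  obtain ⟨c, hc⟩ : ∃ c : ℝ, c = 1 / √2 := ⟨_, rfl⟩
  have hle := c_le
  rw [← hc] at h2 hle ⊢
  have e3 : c ^ 3 = c * (1 / 2) := by rw [← h2]; ring
  have e5 : c ^ 5 = c * (1 / 4) := by
    rw [show (1 / 4 : ℝ) = (1 / 2) ^ 2 by norm_num, ← h2]; ring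
  have e7 : c ^ 7 = c * (1 / 8) := by
    rw [show (1 / 8 : ℝ) = (1 / 2) ^ 3 by norm_num, ← h2]; ring
  have e9 : c ^ 9 = c * (1 / 16) := by
    rw [show (1 / 16 : ℝ) = (1 / 2) ^ 4 by norm_num, ← h2]; ring
  rw [e3, e5, e7, e9]
  linarith

theorem mid_ge : 65231 / 100000 ≤ ∫ s in (0 : ℝ)..(1 / √2), G s := by
  have h1 : ∫ s in (0 : ℝ)..(1 / √2),
      (1 - s ^ 2 / 2 + s ^ 4 / 8 - s ^ 6 / 48 + (-(5 / 1536)) * s ^ 8) ≤
      ∫ s in (0 : ℝ)..(1 / √2), G s := by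
    apply intervalIntegral.integral_mono_on c_pos.le
      (Continuous.intervalIntegrable (by fun_prop) _ _) (G_cont.intervalIntegrable _ _)
    intro s hs
    have hs2 : s ^ 2 ≤ 1 := by
      have : s ^ 2 ≤ (1 / √2 : ℝ) ^ 2 := pow_le_pow_left₀ hs.1 hs.2 2
      rw [c_sq] at this; linarith
    have := (abs_le.1 (G_taylor s hs2)).1
    linarith
  rw [poly_int] at h1
  refine le_trans ?_ h1
  have h2 := c_sq
  obtain ⟨c, hc⟩ : ∃ c : ℝ, c = 1 / √2 := ⟨_, rfl⟩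
  have hle := c_ge
  rw [← hc] at h2 hle ⊢
  have e3 : c ^ 3 = c * (1 / 2) := by rw [← h2]; ring
  have e5 : c ^ 5 = c * (1 / 4) := by
    rw [show (1 / 4 : ℝ) = (1 / 2) ^ 2 by norm_num, ← h2]; ring
  have e7 : c ^ 7 = c * (1 / 8) := by
    rw [show (1 / 8 : ℝ) = (1 / 2) ^ 3 by norm_num, ← h2]; ring
  have e9 : c ^ 9 = c * (1 / 16) := by
    rw [show (1 / 16 : ℝ) = (1 / 2) ^ 4 by norm_num, ← h2]; ring
  rw [e3, e5, e7, e9]
  linarith

theorem tail_eq : ∫ s in Iic (-(1 / √2 : ℝ)), Real.exp (-(s ^ 2 / 2)) =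
    (∫ s in Ioi (0 : ℝ), G s) - ∫ s in (0 : ℝ)..(1 / √2), G s := by
  have h1 : ∫ s in Iic (-(1 / √2 : ℝ)), G s = ∫ s in Ioi (1 / √2 : ℝ), G s := by
    have h := integral_comp_neg_Iic (-(1 / √2 : ℝ)) G
    rw [neg_neg] at h
    rw [← h]
    congr 1
    funext s
    unfold G
    rw [neg_sq]
  have h2 : (∫ s in (0 : ℝ)..(1 / √2), G s) + ∫ s in Ioi (1 / √2 : ℝ), G s =
      ∫ s in Ioi (0 : ℝ), G s :=
    intervalIntegral.integral_interval_add_Ioi G_int.integrableOn G_int.integrableOn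
  change ∫ s in Iic (-(1 / √2 : ℝ)), G s = _
  rw [h1]
  linarith

theorem exp_quarter : |Real.exp (-(1 / 4)) - 77881 / 100000| ≤ 2 / 100000 := by
  have h := Real.exp_bound (x := -(1 / 4)) (n := 5)
    (by rw [abs_neg, abs_of_nonneg (by norm_num)]; norm_num) (by norm_num)
  simp only [Finset.sum_range_succ, Finset.sum_range_zero, Nat.factorial] at h
  rw [abs_le] at h ⊢
  rw [abs_neg, abs_of_nonneg (by norm_num : (0 : ℝ) ≤ 1 / 4)] at h
  norm_num at h ⊢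
  constructor <;> linarith [h.1, h.2]

end B1Aux

open B1Aux

/-- numbers: `√2 e^(-1/4) ≥ 1.10138`, `∫ = √(π/2) - ∫_0^c ≥ ..` (`B1 = 1.702355..`). -/
theorem B1_ge : 1702 / 1000 ≤ B1 := by
  unfold B1
  rw [tail_eq]
  have h1 := (abs_le.1 exp_quarter).1
  have h2 := G_Ioi_ge
  have h3 := mid_le
  have h4 := c_ge
  have h5 : (7071 / 10000 : ℝ) * (77879 / 100000) ≤ 1 / √2 * Real.exp (-(1 / 4)) :=
    mul_le_mul h4 (by linarith) (by norm_num) c_pos.le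
  have h6 : 2 * (1 / √2) * Real.exp (-(1 / 4)) = 2 * (1 / √2 * Real.exp (-(1 / 4))) := by ring
  rw [h6]
  linarith

/-- an upper bound, for the final number: `B1 = 1.702355..`. -/
theorem B1_le : B1 ≤ 1703 / 1000 := by
  unfold B1
  rw [tail_eq]
  have h1 := (abs_le.1 exp_quarter).2
  have h2 := G_Ioi_le
  have h3 := mid_ge
  have h4 := c_le
  have h5 : 1 / √2 * Real.exp (-(1 / 4)) ≤ (70711 / 100000 : ℝ) * (77883 / 100000) :=
    mul_le_mul h4 (by linarith) (Real.exp_pos _).le (by norm_num)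
  have h6 : 2 * (1 / √2) * Real.exp (-(1 / 4)) = 2 * (1 / √2 * Real.exp (-(1 / 4))) := by ring
  rw [h6]
  linarith

end SA70
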