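import Pool.Agent.SA70.U0

/-! U2a: cuts. -/

set_option autoImplicit false

open MeasureTheory Measure Metric Set Module ENNReal

namespace SA70

private theorem u2_gint : Integrable fun s : ℝ => Real.exp (-(s ^ 2 / 2)) := by
  have h := integrable_exp_neg_mul_sq (show (0 : ℝ) < 1 / 2 by norm_num)
  refine h.congr (Filter.Eventually.of_forall fun s => ?_)
  show Real.exp (-(1 / 2) * s ^ 2) = _
  congr 1
  ring

private noncomputable def u2f (T σ s : ℝ) : ℝ :=
  Real.exp (-(max (T ^ 2 / 2 + σ * (s - T)) (s ^ 2 / 2)))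

private theorem u2f_cont (T σ : ℝ) : Continuous (u2f T σ) := by
  unfold u2f
  fun_prop

private theorem u2f_le (T σ s : ℝ) : u2f T σ s ≤ Real.exp (-(s ^ 2 / 2)) := by
  unfold u2f
  rw [Real.exp_le_exp]
  exact neg_le_neg (le_max_right _ _)

private theorem u2f_le' (T σ s : ℝ) :
    u2f T σ s ≤ Real.exp (-(T ^ 2 / 2)) * Real.exp (-σ * (s - T)) := by
  unfold u2f
  rw [← Real.exp_add, Real.exp_le_exp]
  have := le_max_left (T ^ 2 / 2 + σ * (s - T)) (s ^ 2 / 2)
  linarith

private theorem u2f_int (T σ : ℝ) : Integrable (u2f T σ) := by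
  refine u2_gint.mono' (u2f_cont T σ).aestronglyMeasurable (Filter.Eventually.of_forall fun s => ?_)
  rw [Real.norm_of_nonneg (show 0 ≤ u2f T σ s from (Real.exp_pos _).le)]
  exact u2f_le T σ s

private theorem u2_low (T σ x : ℝ) (hT : T ≤ x) :
    tlt T σ ≤ ∫ s in Iic x, Real.exp (-(s ^ 2 / 2)) := by
  have e : tlt T σ = ∫ s in Iic T, u2f T σ s := rfl
  rw [e]
  calc ∫ s in Iic T, u2f T σ s ≤ ∫ s in Iic T, Real.exp (-(s ^ 2 / 2)) :=
        setIntegral_mono (u2f_int T σ).integrableOn u2_gint.integrableOn (u2f_le T σ)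
    _ ≤ ∫ s in Iic x, Real.exp (-(s ^ 2 / 2)) :=
        setIntegral_mono_set u2_gint.integrableOn
          (Filter.Eventually.of_forall fun s => (Real.exp_pos _).le)
          (Iic_subset_Iic.2 hT).eventuallyLE

/-- cut at `x` -/
private theorem u2_cut (T σ x : ℝ) (hσ : σ ≠ 0) (hx : x ≤ T) :
    tlt T σ ≤ (∫ s in Iic x, Real.exp (-(s ^ 2 / 2))) +
      Real.exp (-(T ^ 2 / 2)) * (Real.exp (σ * (T - x)) - 1) / σ := by
  have e : tlt T σ = ∫ s in Iic T, u2f T σ s := rfl
  have h1 := intervalIntegral.integral_Iic_sub_Iic (f := u2f T σ) (μ := volume) (a := x) (b := T)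
    (u2f_int T σ).integrableOn (u2f_int T σ).integrableOn
  have h2 : ∫ s in Iic x, u2f T σ s ≤ ∫ s in Iic x, Real.exp (-(s ^ 2 / 2)) :=
    setIntegral_mono (u2f_int T σ).integrableOn u2_gint.integrableOn (u2f_le T σ)
  have hc : Continuous fun s : ℝ => Real.exp (-(T ^ 2 / 2)) * Real.exp (-σ * (s - T)) := by
    fun_prop
  have h3 : ∫ s in x..T, u2f T σ s ≤
      ∫ s in x..T, Real.exp (-(T ^ 2 / 2)) * Real.exp (-σ * (s - T)) := by
    apply intervalIntegral.integral_mono_on hx
    · exact (u2f_int T σ).intervalIntegrable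
    · exact hc.intervalIntegrable _ _
    · intro s _
      exact u2f_le' T σ s
  have h4 : ∫ s in x..T, Real.exp (-(T ^ 2 / 2)) * Real.exp (-σ * (s - T)) =
      Real.exp (-(T ^ 2 / 2)) * Real.exp (-σ * (T - T)) / (-σ) -
        Real.exp (-(T ^ 2 / 2)) * Real.exp (-σ * (x - T)) / (-σ) := by
    apply intervalIntegral.integral_eq_sub_of_hasDerivAt
      (f := fun s : ℝ => Real.exp (-(T ^ 2 / 2)) * Real.exp (-σ * (s - T)) / (-σ))
    · intro s _
      refine (((((hasDerivAt_id' s).sub_const T).const_mul (-σ)).exp.const_mul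
        (Real.exp (-(T ^ 2 / 2)))).div_const (-σ)).congr_deriv ?_
      field_simp
    · exact hc.intervalIntegrable _ _
  have h5 : -σ * (T - T) = 0 := by ring
  have h6 : -σ * (x - T) = σ * (T - x) := by ring
  rw [h5, h6, Real.exp_zero] at h4
  have h7 : Real.exp (-(T ^ 2 / 2)) * (Real.exp (σ * (T - x)) - 1) / σ =
      Real.exp (-(T ^ 2 / 2)) * 1 / (-σ) -
        Real.exp (-(T ^ 2 / 2)) * Real.exp (σ * (T - x)) / (-σ) := by
    field_simp
    ring
  rw [e, h7]
  linarith

/-- the maximum of `y^((a-σ)/σ) (1-y)` -/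
private theorem u2_max (σ a v : ℝ) (hσ : 0 < σ) (ha : σ < a) (hv : 0 < v) :
    Real.exp (-((a - σ) * v)) * (1 - Real.exp (-(σ * v))) ≤
      Real.exp ((a - σ) / σ * Real.log (1 - σ / a)) * (σ / a) := by
  have ha0 : 0 < a := hσ.trans ha
  obtain ⟨y, hy⟩ : ∃ y, y = Real.exp (-(σ * v)) := ⟨_, rfl⟩
  have hy0 : 0 < y := by rw [hy]; exact Real.exp_pos _
  have hy1 : y < 1 := by
    rw [hy, Real.exp_lt_one_iff]
    have := mul_pos hσ hv
    linarith
  have hly : Real.log y = -(σ * v) := by rw [hy, Real.log_exp]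
  have hr : 0 < 1 - σ / a := by
    rw [sub_pos, div_lt_one ha0]
    exact ha
  have hr2 : 0 < σ / a := by positivity
  have A1 := Real.log_le_sub_one_of_pos (show 0 < y / (1 - σ / a) by positivity)
  have A2 := Real.log_le_sub_one_of_pos (show 0 < (1 - y) / (σ / a) by
    have : 0 < 1 - y := by linarith
    positivity)
  rw [Real.log_div hy0.ne' hr.ne'] at A1
  rw [Real.log_div (by linarith) hr2.ne'] at A2
  have hk : 0 < (a - σ) / σ := div_pos (by linarith) hσ
  have A3 := mul_le_mul_of_nonneg_left A1 hk.le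
  have hsum : (a - σ) / σ * (y / (1 - σ / a) - 1) + ((1 - y) / (σ / a) - 1) = 0 := by
    have h1 : y / (1 - σ / a) = y * a / (a - σ) := by
      have : a - σ ≠ 0 := by linarith
      have h2 : 1 - σ / a = (a - σ) / a := by field_simp
      rw [h2]
      field_simp
    rw [h1]
    have : a - σ ≠ 0 := by linarith
    field_simp
    ring
  have h4 : -((a - σ) * v) = (a - σ) / σ * Real.log y := by
    rw [hly]
    field_simp
  have h5 : (1 - y) = Real.exp (Real.log (1 - y)) := (Real.exp_log (by linarith)).symm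
  have h6 : σ / a = Real.exp (Real.log (σ / a)) := (Real.exp_log hr2).symm
  rw [← hy, h4]
  conv_lhs => rw [h5]
  conv_rhs => rw [h6]
  rw [← Real.exp_add, ← Real.exp_add, Real.exp_le_exp]
  have h7 : Real.log (1 - Real.exp (Real.log (σ / a))) = Real.log (1 - σ / a) := by
    rw [← h6]
  rw [h7]
  nlinarith

private theorem u2_tan (T a x : ℝ) : Real.exp (-(T ^ 2 / 2)) ≤
    Real.exp (a ^ 2 / 2 - a * x) * Real.exp (-(a * (T - x))) := by
  rw [← Real.exp_add, Real.exp_le_exp]
  nlinarith [sq_nonneg (T - a)]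

/-- `T ≤ x`: trivial. Else cut at `x`: the part right of `x` is at most `∫_x^T exp(-(T²/2 + σ(s-T))) ds =
exp(-T²/2)(exp(σ v)-1)/σ`, `v = T - x`; `T²/2 ≥ aT - a²/2`; `exp(-a v)(exp(σ v)-1)` is maximal for
`exp(σ v) = a/(a-σ)`, maximum `exp((a/σ) log(1-σ/a)) σ/(a-σ)` (weighted AM-GM or: `y^(-a/σ)(y-1)`, or use
`log y ≤ y - 1`-type tangent: `exp(-av)(exp(σv)-1) ≤ M` iff `exp(σ v) ≤ 1 + M exp(a v)`). -/
theorem tlt_cut_pos (T σ a x : ℝ) (hσ : 0 < σ) (ha : σ < a) :
    tlt T σ ≤ (∫ s in Iic x, Real.exp (-(s ^ 2 / 2))) +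
      Real.exp (a ^ 2 / 2 - a * x + a / σ * Real.log (1 - σ / a)) / (a - σ) := by
  have ha0 : 0 < a := hσ.trans ha
  have has : 0 < a - σ := by linarith
  rcases le_or_gt T x with h | h
  · have h1 := u2_low T σ x h
    have h2 : 0 ≤ Real.exp (a ^ 2 / 2 - a * x + a / σ * Real.log (1 - σ / a)) / (a - σ) := by
      positivity
    linarith
  · have h1 := u2_cut T σ x hσ.ne' h.le
    have hv : 0 < T - x := by linarith
    have h2 := u2_max σ a (T - x) hσ ha hv
    have h3 := u2_tan T a x
    have h4 : 0 ≤ Real.exp (σ * (T - x)) - 1 := by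
      have : 1 ≤ Real.exp (σ * (T - x)) := Real.one_le_exp (by positivity)
      linarith
    have h5 : Real.exp (-(a * (T - x))) * (Real.exp (σ * (T - x)) - 1) =
        Real.exp (-((a - σ) * (T - x))) * (1 - Real.exp (-(σ * (T - x)))) := by
      generalize T - x = v
      have e1 : Real.exp (-(a * v)) * Real.exp (σ * v) = Real.exp (-((a - σ) * v)) := by
        rw [← Real.exp_add]
        congr 1
        ring
      have e2 : Real.exp (-((a - σ) * v)) * Real.exp (-(σ * v)) = Real.exp (-(a * v)) := by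
        rw [← Real.exp_add]
        congr 1
        ring
      linear_combination e1 + e2
    have hr : 0 < 1 - σ / a := by
      rw [sub_pos, div_lt_one ha0]
      exact ha
    have h6 : Real.exp ((a - σ) / σ * Real.log (1 - σ / a)) * (σ / a) =
        σ * (Real.exp (a / σ * Real.log (1 - σ / a)) / (a - σ)) := by
      have e1 : (a - σ) / σ * Real.log (1 - σ / a) =
          a / σ * Real.log (1 - σ / a) - Real.log (1 - σ / a) := by
        field_simp
      rw [e1, Real.exp_sub, Real.exp_log hr]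
      have e2 : 1 - σ / a = (a - σ) / a := by field_simp
      rw [e2]
      field_simp
    have h7 : Real.exp (-(T ^ 2 / 2)) * (Real.exp (σ * (T - x)) - 1) / σ ≤
        Real.exp (a ^ 2 / 2 - a * x + a / σ * Real.log (1 - σ / a)) / (a - σ) := by
      rw [div_le_iff₀ hσ]
      calc Real.exp (-(T ^ 2 / 2)) * (Real.exp (σ * (T - x)) - 1)
          ≤ (Real.exp (a ^ 2 / 2 - a * x) * Real.exp (-(a * (T - x)))) *
            (Real.exp (σ * (T - x)) - 1) := mul_le_mul_of_nonneg_right h3 h4
        _ = Real.exp (a ^ 2 / 2 - a * x) *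
            (Real.exp (-((a - σ) * (T - x))) * (1 - Real.exp (-(σ * (T - x))))) := by
          rw [mul_assoc, h5]
        _ ≤ Real.exp (a ^ 2 / 2 - a * x) *
            (σ * (Real.exp (a / σ * Real.log (1 - σ / a)) / (a - σ))) := by
          rw [← h6]
          exact mul_le_mul_of_nonneg_left h2 (Real.exp_pos _).le
        _ = Real.exp (a ^ 2 / 2 - a * x + a / σ * Real.log (1 - σ / a)) / (a - σ) * σ := by
          rw [Real.exp_add]
          ring
    linarith

/-- The same: `exp(-T²/2)(1 - exp(-σ v))/σ`, maximum of `exp(-b v)(1 - exp(-σ v))` for `exp(-σ v) = b/(b+σ)`. -/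
theorem tlt_cut_neg (T σ b y : ℝ) (hσ : 0 < σ) (hb : 0 < b) :
    tlt T (-σ) ≤ (∫ s in Iic y, Real.exp (-(s ^ 2 / 2))) +
      Real.exp (b ^ 2 / 2 - b * y - b / σ * Real.log (1 + σ / b)) / (b + σ) := by
  have hbs : 0 < b + σ := by linarith
  rcases le_or_gt T y with h | h
  · have h1 := u2_low T (-σ) y h
    have h2 : 0 ≤ Real.exp (b ^ 2 / 2 - b * y - b / σ * Real.log (1 + σ / b)) / (b + σ) := by
      positivity
    linarith
  · have h1 := u2_cut T (-σ) y (neg_ne_zero.2 hσ.ne') h.le
    have hv : 0 < T - y := by linarith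
    have h2 := u2_max σ (b + σ) (T - y) hσ (by linarith) hv
    have h3 := u2_tan T b y
    have h4 : 0 ≤ 1 - Real.exp (-(σ * (T - y))) := by
      have : Real.exp (-(σ * (T - y))) ≤ 1 := by
        rw [Real.exp_le_one_iff]
        have := mul_pos hσ hv
        linarith
      linarith
    have e0 : b + σ - σ = b := by ring
    rw [e0] at h2
    have e1 : Real.log (1 - σ / (b + σ)) = -Real.log (1 + σ / b) := by
      rw [← Real.log_inv]
      congr 1
      field_simp
      ring
    rw [e1] at h2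
    have h6 : Real.exp (-(T ^ 2 / 2)) * (Real.exp (-σ * (T - y)) - 1) / (-σ) =
        Real.exp (-(T ^ 2 / 2)) * (1 - Real.exp (-(σ * (T - y)))) / σ := by
      have : -σ * (T - y) = -(σ * (T - y)) := by ring
      rw [this]
      field_simp
      ring
    rw [h6] at h1
    have h7 : Real.exp (-(T ^ 2 / 2)) * (1 - Real.exp (-(σ * (T - y)))) / σ ≤
        Real.exp (b ^ 2 / 2 - b * y - b / σ * Real.log (1 + σ / b)) / (b + σ) := by
      rw [div_le_iff₀ hσ]
      calc Real.exp (-(T ^ 2 / 2)) * (1 - Real.exp (-(σ * (T - y))))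
          ≤ (Real.exp (b ^ 2 / 2 - b * y) * Real.exp (-(b * (T - y)))) *
            (1 - Real.exp (-(σ * (T - y)))) := mul_le_mul_of_nonneg_right h3 h4
        _ = Real.exp (b ^ 2 / 2 - b * y) *
            (Real.exp (-(b * (T - y))) * (1 - Real.exp (-(σ * (T - y))))) := by ring
        _ ≤ Real.exp (b ^ 2 / 2 - b * y) *
            (Real.exp (b / σ * -Real.log (1 + σ / b)) * (σ / (b + σ))) :=
          mul_le_mul_of_nonneg_left h2 (Real.exp_pos _).le
        _ = Real.exp (b ^ 2 / 2 - b * y - b / σ * Real.log (1 + σ / b)) / (b + σ) * σ := by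
          have e2 : b ^ 2 / 2 - b * y - b / σ * Real.log (1 + σ / b) =
              (b ^ 2 / 2 - b * y) + b / σ * -Real.log (1 + σ / b) := by ring
          rw [e2, Real.exp_add]
          ring
    linarith

end SA70
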