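import Pool.Agent.SA70.U2

/-! U3: numbers. -/

set_option autoImplicit false

open MeasureTheory Measure Metric Set Module ENNReal

namespace SA70

namespace U3Aux

theorem gauss_int : Integrable (fun s : ℝ => Real.exp (-(s ^ 2 / 2))) := by
  have h := integrable_exp_neg_mul_sq (b := 1 / 2) (by norm_num)
  refine h.congr (Filter.Eventually.of_forall fun s => ?_)
  simp only
  congr 1
  ring

/-- the Gaussian tail -/
theorem tail_two : (∫ s in Iic (-2 : ℝ), Real.exp (-(s ^ 2 / 2))) ≤ 6771 / 100000 := by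
  have h1 : (∫ s in Iic (-2 : ℝ), Real.exp (-(s ^ 2 / 2))) ≤
      ∫ s in Iic (-2 : ℝ), Real.exp 2 * Real.exp (2 * s) := by
    refine setIntegral_mono_on gauss_int.integrableOn
      ((integrableOn_exp_mul_Iic (by norm_num : (0 : ℝ) < 2) (-2)).const_mul _)
      measurableSet_Iic ?_
    intro s _
    rw [← Real.exp_add]
    apply Real.exp_le_exp.2
    nlinarith [sq_nonneg (s + 2)]
  rw [integral_const_mul, integral_exp_mul_Iic (by norm_num : (0 : ℝ) < 2)] at h1
  have h2 : Real.exp 2 * (Real.exp (2 * (-2)) / 2) = Real.exp (-2) / 2 := by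
    rw [mul_div_assoc', ← Real.exp_add]; norm_num
  rw [h2] at h1
  have h3 : Real.exp (-2 : ℝ) ≤ 1354 / 10000 := by
    have g1 : Real.exp (-2 : ℝ) * (Real.exp 1 * Real.exp 1) = 1 := by
      rw [← Real.exp_add, ← Real.exp_add]; norm_num
    have g2 := Real.exp_one_gt_d9
    have g4 := Real.exp_pos (-2 : ℝ)
    by_contra hcon
    push Not at hcon
    have g5 : (7.389 : ℝ) ≤ Real.exp 1 * Real.exp 1 := by nlinarith
    nlinarith
  linarith

/-- the Gaussian up to `3/5` -/
theorem head_six : (∫ s in Iic (3 / 5 : ℝ), Real.exp (-(s ^ 2 / 2))) ≤ 182 / 100 := by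
  have hhalf : (∫ s in Iic (0 : ℝ), Real.exp (-(s ^ 2 / 2))) ≤ 12534 / 10000 := by
    have h := integral_comp_neg_Iic (0 : ℝ) (fun s : ℝ => Real.exp (-(1 / 2 : ℝ) * s ^ 2))
    rw [neg_zero, integral_gaussian_Ioi] at h
    have e : (fun s : ℝ => Real.exp (-(s ^ 2 / 2))) =
        fun s : ℝ => Real.exp (-(1 / 2 : ℝ) * (-s) ^ 2) := by
      funext s; congr 1; ring
    rw [e, h]
    have h2 : √(Real.pi / (1 / 2)) ≤ 25068 / 10000 := by
      apply Real.sqrt_le_iff.2
      refine ⟨by norm_num, ?_⟩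
      have := Real.pi_lt_d4
      linarith
    linarith
  have hsplit : (∫ s in Iic (3 / 5 : ℝ), Real.exp (-(s ^ 2 / 2))) =
      (∫ s in Iic (0 : ℝ), Real.exp (-(s ^ 2 / 2))) +
        ∫ s in (0 : ℝ)..(3 / 5), Real.exp (-(s ^ 2 / 2)) := by
    rw [← intervalIntegral.integral_Iic_sub_Iic gauss_int.integrableOn gauss_int.integrableOn]
    ring
  have hpoly : (∫ s in (0 : ℝ)..(3 / 5), Real.exp (-(s ^ 2 / 2))) ≤
      ∫ s in (0 : ℝ)..(3 / 5), (1 - s ^ 2 / 2 + s ^ 4 / 8 + s ^ 6 / 36) := by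
    refine intervalIntegral.integral_mono_on (by norm_num)
      (Continuous.intervalIntegrable (by fun_prop) _ _)
      (Continuous.intervalIntegrable (by fun_prop) _ _) ?_
    intro s hs
    have hs1 : s ^ 2 / 2 ≤ 1 := by nlinarith [hs.1, hs.2]
    have hb := Real.exp_bound (x := -(s ^ 2 / 2)) (by
      rw [abs_neg, abs_of_nonneg (by positivity)]; exact hs1) (n := 3) (by norm_num)
    rw [abs_neg, abs_of_nonneg (by positivity : 0 ≤ s ^ 2 / 2)] at hb
    have hb2 := (abs_le.1 hb).2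
    norm_num [Finset.sum_range_succ, Nat.factorial] at hb2
    nlinarith [hb2]
  have hval : (∫ s in (0 : ℝ)..(3 / 5), (1 - s ^ 2 / 2 + s ^ 4 / 8 + s ^ 6 / 36)) ≤ 5661 / 10000 := by
    rw [intervalIntegral.integral_eq_sub_of_hasDerivAt
      (f := fun s : ℝ => s - s ^ 3 / 6 + s ^ 5 / 40 + s ^ 7 / 252)]
    · norm_num
    · intro s _
      have d := (((hasDerivAt_id s).sub ((hasDerivAt_pow 3 s).div_const 6)).add
        ((hasDerivAt_pow 5 s).div_const 40)).add ((hasDerivAt_pow 7 s).div_const 252)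
      refine d.congr_deriv ?_
      norm_num
      ring
    · exact Continuous.intervalIntegrable (by fun_prop) _ _
  rw [hsplit]
  linarith

end U3Aux

open U3Aux

/-- true maximum `2.3256..`; `tlt_cut_pos` with `a ≈ 1.617`, `x ≈ 0.583` (cut at `x > 0`), or any other way. -/
theorem tlt_p11 (T : ℝ) : tlt T (11 / 10) ≤ 2345 / 1000 := by
  have h := tlt_cut_pos T (11 / 10) (33 / 20) (3 / 5) (by norm_num) (by norm_num)
  have h1 := head_six
  have e1 : (33 / 20 : ℝ) ^ 2 / 2 - 33 / 20 * (3 / 5) + 33 / 20 / (11 / 10) *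
      Real.log (1 - 11 / 10 / (33 / 20)) = 297 / 800 + 3 / 2 * Real.log (1 / 3) := by
    norm_num
  rw [e1, Real.exp_add] at h
  have h2 : Real.exp (297 / 800) ≤ 1450 / 1000 := by
    have h := Real.exp_bound' (x := 297 / 800) (by norm_num) (by norm_num) (n := 4) (by norm_num)
    refine h.trans ?_
    norm_num [Finset.sum_range_succ, Nat.factorial]
  have h3 : Real.exp (3 / 2 * Real.log (1 / 3)) ≤ 19246 / 100000 := by
    have g1 : Real.exp (3 / 2 * Real.log (1 / 3)) ^ 2 = 1 / 27 := by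
      rw [← Real.exp_nat_mul]
      have : ((2 : ℕ) : ℝ) * (3 / 2 * Real.log (1 / 3)) = ((3 : ℕ) : ℝ) * Real.log (1 / 3) := by
        push_cast; ring
      rw [this, Real.exp_nat_mul, Real.exp_log (by norm_num)]
      norm_num
    by_contra hcon
    push Not at hcon
    have g2 : (19246 / 100000 : ℝ) ^ 2 < Real.exp (3 / 2 * Real.log (1 / 3)) ^ 2 :=
      pow_lt_pow_left₀ hcon (by norm_num) (by norm_num)
    rw [g1] at g2
    norm_num at g2
  have h4 := Real.exp_pos (3 / 2 * Real.log (1 / 3))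
  have h5 : Real.exp (297 / 800) * Real.exp (3 / 2 * Real.log (1 / 3)) ≤
      1450 / 1000 * (19246 / 100000) := mul_le_mul h2 h3 h4.le (by norm_num)
  have h6 : Real.exp (297 / 800) * Real.exp (3 / 2 * Real.log (1 / 3)) / (33 / 20 - 11 / 10) ≤
      1450 / 1000 * (19246 / 100000) / (33 / 20 - 11 / 10) := by
    gcongr
  have h7 : (1450 / 1000 * (19246 / 100000) / (33 / 20 - 11 / 10) : ℝ) ≤ 508 / 1000 := by
    norm_num
  linarith

/-- true maximum `1.0385..`; `tlt_cut_neg` with `b ≈ 0.18`, `y ≈ -1.86`. -/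
theorem tlt_m84 (T : ℝ) : tlt T (-(21 / 25)) ≤ 1058 / 1000 := by
  have h := tlt_cut_neg T (21 / 25) (21 / 125) (-2) (by norm_num) (by norm_num)
  have h1 := tail_two
  have e1 : (21 / 125 : ℝ) ^ 2 / 2 - 21 / 125 * (-2) - 21 / 125 / (21 / 25) *
      Real.log (1 + 21 / 25 / (21 / 125)) = 10941 / 31250 + -(1 / 5 * Real.log 6) := by
    norm_num
    ring
  rw [e1, Real.exp_add] at h
  have h2 : Real.exp (10941 / 31250) ≤ 14196 / 10000 := by
    have h := Real.exp_bound' (x := 10941 / 31250) (by norm_num) (by norm_num) (n := 4)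
      (by norm_num)
    refine h.trans ?_
    norm_num [Finset.sum_range_succ, Nat.factorial]
  have h3 : Real.exp (-(1 / 5 * Real.log 6)) ≤ 6989 / 10000 := by
    have g1 : Real.exp (-(1 / 5 * Real.log 6)) ^ 5 = 1 / 6 := by
      rw [← Real.exp_nat_mul]
      have : ((5 : ℕ) : ℝ) * -(1 / 5 * Real.log 6) = -Real.log 6 := by
        push_cast; ring
      rw [this, Real.exp_neg, Real.exp_log (by norm_num)]
      norm_num
    by_contra hcon
    push Not at hcon
    have g2 : (6989 / 10000 : ℝ) ^ 5 < Real.exp (-(1 / 5 * Real.log 6)) ^ 5 :=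
      pow_lt_pow_left₀ hcon (by norm_num) (by norm_num)
    rw [g1] at g2
    norm_num at g2
  have h4 := Real.exp_pos (-(1 / 5 * Real.log 6))
  have h5 : Real.exp (10941 / 31250) * Real.exp (-(1 / 5 * Real.log 6)) ≤
      14196 / 10000 * (6989 / 10000) := mul_le_mul h2 h3 h4.le (by norm_num)
  have h6 : Real.exp (10941 / 31250) * Real.exp (-(1 / 5 * Real.log 6)) / (21 / 125 + 21 / 25) ≤
      14196 / 10000 * (6989 / 10000) / (21 / 125 + 21 / 25) := by
    gcongr
  have h7 : (14196 / 10000 * (6989 / 10000) / (21 / 125 + 21 / 25) : ℝ) ≤ 985 / 1000 := by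
    norm_num
  linarith

/-- true maximum `0.867..`; `tlt_cut_neg` with `b ≈ 0.09`, `y ≈ -2.29`. -/
theorem tlt_m11 (T : ℝ) : tlt T (-(11 / 10)) ≤ 89 / 100 := by
  have h := tlt_cut_neg T (11 / 10) (11 / 100) (-2) (by norm_num) (by norm_num)
  have h1 := tail_two
  have e1 : (11 / 100 : ℝ) ^ 2 / 2 - 11 / 100 * (-2) - 11 / 100 / (11 / 10) *
      Real.log (1 + 11 / 10 / (11 / 100)) = 4521 / 20000 + -(1 / 10 * Real.log 11) := by
    norm_num
    ring
  rw [e1, Real.exp_add] at h
  have h2 : Real.exp (4521 / 20000) ≤ 1254 / 1000 := by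
    have h := Real.exp_bound' (x := 4521 / 20000) (by norm_num) (by norm_num) (n := 4)
      (by norm_num)
    refine h.trans ?_
    norm_num [Finset.sum_range_succ, Nat.factorial]
  have h3 : Real.exp (-(1 / 10 * Real.log 11)) ≤ 787 / 1000 := by
    have g1 : Real.exp (-(1 / 10 * Real.log 11)) ^ 10 = 1 / 11 := by
      rw [← Real.exp_nat_mul]
      have : ((10 : ℕ) : ℝ) * -(1 / 10 * Real.log 11) = -Real.log 11 := by
        push_cast; ring
      rw [this, Real.exp_neg, Real.exp_log (by norm_num)]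
      norm_num
    by_contra hcon
    push Not at hcon
    have g2 : (787 / 1000 : ℝ) ^ 10 < Real.exp (-(1 / 10 * Real.log 11)) ^ 10 :=
      pow_lt_pow_left₀ hcon (by norm_num) (by norm_num)
    rw [g1] at g2
    norm_num at g2
  have h4 := Real.exp_pos (-(1 / 10 * Real.log 11))
  have h5 : Real.exp (4521 / 20000) * Real.exp (-(1 / 10 * Real.log 11)) ≤
      1254 / 1000 * (787 / 1000) := mul_le_mul h2 h3 h4.le (by norm_num)
  have h6 : Real.exp (4521 / 20000) * Real.exp (-(1 / 10 * Real.log 11)) / (11 / 100 + 11 / 10) ≤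
      1254 / 1000 * (787 / 1000) / (11 / 100 + 11 / 10) := by
    gcongr
  have h7 : (1254 / 1000 * (787 / 1000) / (11 / 100 + 11 / 10) : ℝ) ≤ 816 / 1000 := by
    norm_num
  linarith

end SA70
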