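import Pool.Agent.SA70.U1
import Pool.Agent.SA70.U3
import Pool.Agent.SA70.R1

/-! U4: the sharp pair inequality. -/

set_option autoImplicit false

open MeasureTheory Measure Metric Set Module ENNReal

namespace SA70

private theorem c_sq : (1 / √2 : ℝ) ^ 2 = 1 / 2 := by
  rw [div_pow, Real.sq_sqrt (by norm_num)]; norm_num

private theorem pair_small (T T' σ : ℝ) (hσ : 0 < σ) (hσ1 : σ ≤ 21 / 25) :
    tlt T σ + tlt T' (-σ) ≤ 2 * B1 := by
  set c : ℝ := 1 / √2 with hc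
  have hc0 : 0 < c := by positivity
  have hc2 : c ^ 2 = 1 / 2 := c_sq
  set s : ℝ := 2 * c * σ with hs
  have hs0 : 0 < s := by positivity
  have hs2 : s ^ 2 = 2 * σ ^ 2 := by
    rw [hs, mul_pow, mul_pow, hc2]; ring
  have hs1 : s ≤ 6 / 5 := by
    have h1 : s ^ 2 ≤ (6 / 5) ^ 2 := by rw [hs2]; nlinarith
    exact (pow_le_pow_iff_left₀ hs0.le (by norm_num) (by norm_num)).mp h1
  have hσs : σ = c * s := by
    rw [hs]
    calc σ = 2 * (1 / 2) * σ := by ring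
      _ = 2 * c ^ 2 * σ := by rw [hc2]
      _ = _ := by ring
  have hσne : σ ≠ 0 := hσ.ne'
  have hA : ∀ A L : ℝ, 0 < L → Real.exp (3 / 4 + A) / (c * L) =
      2 * c * Real.exp (-(1 / 4)) * Real.exp (1 + A - Real.log L) := by
    intro A L hL
    rw [Real.exp_sub, Real.exp_log hL]
    have h1 : Real.exp (3 / 4 + A) = Real.exp (-(1 / 4)) * Real.exp (1 + A) := by
      rw [← Real.exp_add]; congr 1; ring
    rw [h1]
    field_simp
    rw [hc2]; ring
  -- the positive side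
  have h1 := tlt_cut_pos T σ (c + 2 * σ / 3) (-c + σ) hσ (by
    rw [hσs]; nlinarith)
  have e1 : Real.exp ((c + 2 * σ / 3) ^ 2 / 2 - (c + 2 * σ / 3) * (-c + σ) +
      (c + 2 * σ / 3) / σ * Real.log (1 - σ / (c + 2 * σ / 3))) / ((c + 2 * σ / 3) - σ) =
      2 * c * Real.exp (-(1 / 4)) * Real.exp (Aex s) := by
    have e2 : σ / (c + 2 * σ / 3) = 3 * s / (3 + 2 * s) := by
      rw [hσs]; field_simp
    have e3 : (c + 2 * σ / 3) / σ = (3 * s / (3 + 2 * s))⁻¹ := by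
      rw [← e2, inv_div]
    have e4 : (c + 2 * σ / 3) - σ = c * (1 - s / 3) := by rw [hσs]; ring
    have e5 : (c + 2 * σ / 3) ^ 2 / 2 - (c + 2 * σ / 3) * (-c + σ) =
        3 / 4 + (s / 6 - 2 / 9 * s ^ 2) := by
      rw [hσs]
      calc (c + 2 * (c * s) / 3) ^ 2 / 2 - (c + 2 * (c * s) / 3) * (-c + c * s) =
          c ^ 2 * ((1 + 2 * s / 3) ^ 2 / 2 - (1 + 2 * s / 3) * (-1 + s)) := by ring
        _ = _ := by rw [hc2]; ring
    rw [e2, e3, e4, e5]
    have e6 : 3 / 4 + (s / 6 - 2 / 9 * s ^ 2) +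
        (3 * s / (3 + 2 * s))⁻¹ * Real.log (1 - 3 * s / (3 + 2 * s)) =
        3 / 4 + ((s / 6 - 2 / 9 * s ^ 2) +
        (3 * s / (3 + 2 * s))⁻¹ * Real.log (1 - 3 * s / (3 + 2 * s))) := by ring
    rw [e6, hA _ _ (by linarith), Aex]
    congr 2
    rw [div_eq_mul_inv (Real.log (1 - 3 * s / (3 + 2 * s)))]
    ring
  -- the negative side
  have h2 := tlt_cut_neg T' σ (c - 2 * σ / 3) (-c - σ) hσ (by
    rw [hσs]; nlinarith)
  have e1' : Real.exp ((c - 2 * σ / 3) ^ 2 / 2 - (c - 2 * σ / 3) * (-c - σ) -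
      (c - 2 * σ / 3) / σ * Real.log (1 + σ / (c - 2 * σ / 3))) / ((c - 2 * σ / 3) + σ) =
      2 * c * Real.exp (-(1 / 4)) * Real.exp (Aex (-s)) := by
    have hne : (3 - 2 * s) ≠ 0 := by intro h; linarith
    have e2 : σ / (c - 2 * σ / 3) = -(3 * (-s) / (3 + 2 * (-s))) := by
      have e7 : c - 2 * σ / 3 = c * ((3 - 2 * s) / 3) := by rw [hσs]; ring
      rw [e7, hσs, mul_div_mul_left _ _ hc0.ne']
      have e8 : 3 + 2 * (-s) = 3 - 2 * s := by ring
      rw [e8]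
      field_simp
    have e3 : (c - 2 * σ / 3) / σ = -(3 * (-s) / (3 + 2 * (-s)))⁻¹ := by
      rw [← inv_neg, ← e2, inv_div]
    have e4 : (c - 2 * σ / 3) + σ = c * (1 - (-s) / 3) := by rw [hσs]; ring
    have e5 : (c - 2 * σ / 3) ^ 2 / 2 - (c - 2 * σ / 3) * (-c - σ) =
        3 / 4 + ((-s) / 6 - 2 / 9 * (-s) ^ 2) := by
      rw [hσs]
      calc (c - 2 * (c * s) / 3) ^ 2 / 2 - (c - 2 * (c * s) / 3) * (-c - c * s) =
          c ^ 2 * ((1 - 2 * s / 3) ^ 2 / 2 - (1 - 2 * s / 3) * (-1 - s)) := by ring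
        _ = _ := by rw [hc2]; ring
    rw [e2, e3, e4, e5]
    have e6 : 3 / 4 + ((-s) / 6 - 2 / 9 * (-s) ^ 2) -
        -(3 * (-s) / (3 + 2 * (-s)))⁻¹ * Real.log (1 + -(3 * (-s) / (3 + 2 * (-s)))) =
        3 / 4 + (((-s) / 6 - 2 / 9 * (-s) ^ 2) +
        (3 * (-s) / (3 + 2 * (-s)))⁻¹ * Real.log (1 - 3 * (-s) / (3 + 2 * (-s)))) := by
      rw [← sub_eq_add_neg 1 (3 * (-s) / (3 + 2 * (-s)))]
      ring
    rw [e6, hA _ _ (by linarith), Aex]
    congr 2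
    rw [div_eq_mul_inv (Real.log (1 - 3 * (-s) / (3 + 2 * (-s))))]
    ring
  rw [e1] at h1
  rw [e1'] at h2
  have h3 := gauss_two σ hσ.le
  have h4 := aex_le s hs0 hs1
  have h5 : 0 < 2 * c * Real.exp (-(1 / 4)) := by positivity
  have h6 := mul_le_mul_of_nonneg_left h4 h5.le
  rw [hs2] at h6
  rw [B1]
  rw [← hc] at h3 ⊢
  nlinarith [h1, h2, h3, h6]

private theorem pair_key (T T' σ : ℝ) (hσ : 0 ≤ σ) : tlt T σ + tlt T' (-σ) ≤ 2 * B1 := by
  rcases hσ.eq_or_lt with h0 | h0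
  · rw [← h0, neg_zero]
    have := tlt_zero_sharp T
    have := tlt_zero_sharp T'
    linarith
  · rcases le_or_gt σ (21 / 25) with h1 | h1
    · exact pair_small T T' σ h0 h1
    · have hB := B1_ge
      rcases le_or_gt σ (11 / 10) with h2 | h2
      · have h3 := tlt_mono T σ (11 / 10) h2
        have h4 := tlt_mono T' (-σ) (-(21 / 25)) (by linarith)
        have h5 := tlt_p11 T
        have h6 := tlt_m84 T'
        linarith
      · have h3 := tlt_le T σ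
        have h4 := tlt_mono T' (-σ) (-(11 / 10)) (by linarith)
        have h6 := tlt_m11 T'
        have h7 : √(2 * Real.pi) ≤ 2507 / 1000 := by
          rw [show (2507 / 1000 : ℝ) = √((2507 / 1000) ^ 2) by
            rw [Real.sqrt_sq (by norm_num)]]
          apply Real.sqrt_le_sqrt
          have := Real.pi_lt_d4
          nlinarith
        linarith

/-- By `tlt_mono` and symmetry `σ' = -σ`, `σ ≥ 0`. `σ = 0`: `tlt_zero_sharp`. `0 < σ ≤ 21/25`: `c = 1/√2`,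
`s = √2 σ ≤ 6/5`, `tlt_cut_pos` with `a = c + 2σ/3`, `x = -c + σ`; `tlt_cut_neg` with `b = c - 2σ/3`, `y = -c - σ`:
the second terms are `2 c exp(-1/4) exp(Aex s)`, `2 c exp(-1/4) exp(Aex (-s))`
(`a²/2 - a x = 3/4 + s/6 - (2/9) s²`, `a - σ = c (1 - s/3)`, `σ/a = 3s/(3+2s)`); `gauss_two`, `aex_le`:
`2 N + c e^(-1/4) σ² + 2 c e^(-1/4) (2 - s²/4) = 2 B1`. `21/25 ≤ σ ≤ 11/10`: `2.345 + 1.058 ≤ 3.404`;
`σ ≥ 11/10`: `√(2π) + 0.89`. -/
theorem tlt_pair_sharp (T T' σ σ' : ℝ) (h : σ' ≤ -σ) : tlt T σ + tlt T' σ' ≤ 2 * B1 := by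
  have h1 := tlt_mono T' σ' (-σ) h
  rcases le_total 0 σ with h0 | h0
  · have := pair_key T T' σ h0
    linarith
  · have h2 := pair_key T' T (-σ) (by linarith)
    rw [neg_neg] at h2
    linarith

end SA70
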