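import Pool.Agent.SA70.R0

/-! U5: planar geometry, all cases. -/

set_option autoImplicit false

open MeasureTheory Measure Metric Set Module ENNReal

namespace SA70

namespace U5Aux

lemma conv_mem {K : Set (ℝ × ℝ)} (hK : Convex ℝ K) {a b c d s t x y : ℝ}
    (h1 : (a, b) ∈ K) (h2 : (c, d) ∈ K) (hs : 0 ≤ s) (ht : 0 ≤ t) (hst : s + t = 1)
    (hx : s * a + t * c = x) (hy : s * b + t * d = y) : (x, y) ∈ K := by
  have h := hK h1 h2 hs ht hst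
  simp only [Prod.smul_mk, Prod.mk_add_mk, smul_eq_mul] at h
  rwa [hx, hy] at h

/-- the maximum of a section -/
lemma exists_top {K : Set (ℝ × ℝ)} (hKc : IsCompact K) {t : ℝ} (h : (t, (0 : ℝ)) ∈ K) :
    ∃ c : ℝ, (t, c) ∈ K ∧ (∀ r, (t, r) ∈ K → r ≤ c) ∧ 0 ≤ c := by
  have h1 : IsCompact (K ∩ {p : ℝ × ℝ | p.1 = t}) :=
    hKc.inter_right (isClosed_eq continuous_fst continuous_const)
  obtain ⟨p, hp, hmax⟩ := h1.exists_isMaxOn ⟨(t, 0), h, rfl⟩ (continuous_snd.continuousOn)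
  have hp1 : p.1 = t := hp.2
  refine ⟨p.2, ?_, ?_, ?_⟩
  · rw [← hp1]
    exact hp.1
  · intro r hr
    exact hmax ⟨hr, rfl⟩
  · exact hmax (show ((t, (0 : ℝ)) : ℝ × ℝ) ∈ _ from ⟨h, rfl⟩)

/-- a section below the chord -/
lemma below {K : Set (ℝ × ℝ)} (hK : Convex ℝ K) {a b t c u v : ℝ} (h1 : (a, b) ∈ K)
    (h2 : (u, v) ∈ K) (hc : ∀ r, (t, r) ∈ K → r ≤ c) (h : a < t ∧ t < u ∨ u < t ∧ t < a) :
    b * (u - t) + v * (t - a) ≤ c * (u - a) ∧ 0 < u - a ∨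
      b * (t - u) + v * (a - t) ≤ c * (a - u) ∧ 0 < a - u := by
  rcases h with ⟨h3, h4⟩ | ⟨h3, h4⟩
  · left
    have hd : 0 < u - a := by linarith
    refine ⟨?_, hd⟩
    have h5 : (t, ((u - t) / (u - a)) * b + ((t - a) / (u - a)) * v) ∈ K := by
      refine conv_mem hK h1 h2 (s := (u - t) / (u - a)) (t := (t - a) / (u - a))
        (div_nonneg (by linarith) hd.le) (div_nonneg (by linarith) hd.le) ?_ ?_ rfl
      · field_simp
        ring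
      · field_simp
        ring
    have h6 := hc _ h5
    have h7 : ((u - t) / (u - a)) * b + ((t - a) / (u - a)) * v =
        (b * (u - t) + v * (t - a)) / (u - a) := by
      field_simp
    rw [h7, div_le_iff₀ hd] at h6
    exact h6
  · right
    have hd : 0 < a - u := by linarith
    refine ⟨?_, hd⟩
    have h5 : (t, ((t - u) / (a - u)) * b + ((a - t) / (a - u)) * v) ∈ K := by
      refine conv_mem hK h1 h2 (s := (t - u) / (a - u)) (t := (a - t) / (a - u))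
        (div_nonneg (by linarith) hd.le) (div_nonneg (by linarith) hd.le) ?_ ?_ rfl
      · field_simp
        ring
      · field_simp
        ring
    have h6 := hc _ h5
    have h7 : ((t - u) / (a - u)) * b + ((a - t) / (a - u)) * v =
        (b * (t - u) + v * (a - t)) / (a - u) := by
      field_simp
    rw [h7, div_le_iff₀ hd] at h6
    exact h6

lemma side (K : Set (ℝ × ℝ)) (hK : Convex ℝ K) (hKc : IsCompact K) (α τ : ℝ)
    (hα : 0 < α) (h0 : ((0 : ℝ), (0 : ℝ)) ∈ K) (h1 : (2 * α, (0 : ℝ)) ∈ K) (hτ : 0 < τ) :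
    (∃ t₁ c₁ : ℝ, 0 ≤ t₁ ∧ t₁ ≤ α ∧ 0 < c₁ ∧ (t₁, c₁) ∈ K ∧ (∀ r, (t₁, r) ∈ K → r ≤ c₁) ∧
      c₁ ^ 2 ≤ (1 + τ) ^ 2 - t₁ ^ 2 ∧ (∀ p ∈ shl K α τ, (1 + τ) * p.1 ≤ α → p.1 ≤ t₁)) ∨
    ((∀ p ∈ shl K α τ, (1 + τ) * p.1 ≤ α → p.1 ≤ 0) ∧
      ∃ r, 0 ≤ r ∧ ((0 : ℝ), r) ∈ K ∧ 1 + τ < r) ∨
    (∀ p ∈ shl K α τ, (1 + τ) * p.1 ≤ α → False) := by
  have haxis : ∀ t, 0 ≤ t → t ≤ 2 * α → (t, (0 : ℝ)) ∈ K := by
    intro t ht0 ht1
    refine conv_mem hK h0 h1 (s := 1 - t / (2 * α)) (t := t / (2 * α)) ?_ (by positivity)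
      (by ring) (by field_simp; ring) (by ring)
    have : t / (2 * α) ≤ 1 := (div_le_one (by positivity)).2 ht1
    linarith
  obtain ⟨E, hE⟩ : ∃ E : Set ℝ, E = {t | 0 ≤ t ∧ t ≤ α ∧ ∀ r, 0 ≤ r → (t, r) ∈ K →
      r ^ 2 + t ^ 2 ≤ (1 + τ) ^ 2} := ⟨_, rfl⟩
  -- the exits are in E
  have hin : ∀ p ∈ shl K α τ, 0 ≤ p.1 → (1 + τ) * p.1 ≤ α → (1 + τ) * p.1 ∈ E := by
    rintro ⟨x, y⟩ ⟨hy, hpK, hxα, hn, hout⟩ hx0 hx1
    simp only at hy hxα hn hout hx0 hx1 ⊢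
    rw [hE]
    refine ⟨by positivity, hx1, ?_⟩
    intro r hr hrK
    have hlt : r < (1 + τ) * y := by
      by_contra hcon
      push Not at hcon
      apply hout
      have hpos : 0 < (1 + τ) * y := by positivity
      have hr0 : 0 < r := by linarith
      refine conv_mem hK (haxis ((1 + τ) * x) (by positivity) (by linarith)) hrK
        (s := 1 - (1 + τ) * y / r) (t := (1 + τ) * y / r) ?_ (by positivity) (by ring)
        (by ring) (by field_simp; ring)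
      have : (1 + τ) * y / r ≤ 1 := (div_le_one hr0).2 hcon
      linarith
    have h2 : r ^ 2 ≤ ((1 + τ) * y) ^ 2 := pow_le_pow_left₀ hr hlt.le 2
    have h3 : (1 + τ) ^ 2 * (x ^ 2 + y ^ 2) ≤ (1 + τ) ^ 2 * 1 :=
      mul_le_mul_of_nonneg_left hn (by positivity)
    calc r ^ 2 + ((1 + τ) * x) ^ 2 ≤ ((1 + τ) * y) ^ 2 + ((1 + τ) * x) ^ 2 := by linarith
      _ = (1 + τ) ^ 2 * (x ^ 2 + y ^ 2) := by ring
      _ ≤ (1 + τ) ^ 2 * 1 := h3
      _ = (1 + τ) ^ 2 := mul_one _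
  rcases E.eq_empty_or_nonempty with hEe | hEne
  · right
    left
    constructor
    · intro p hp hp1
      by_contra hcon
      push Not at hcon
      have h2 := hin p hp hcon.le hp1
      rw [hEe] at h2
      exact h2
    · have h2 : (0 : ℝ) ∉ E := by rw [hEe]; exact notMem_empty _
      by_contra hcon
      push Not at hcon
      apply h2
      rw [hE]
      refine ⟨le_rfl, hα.le, fun r hr hrK => ?_⟩
      have h3 := hcon r hr hrK
      have h4 : r ^ 2 ≤ (1 + τ) ^ 2 := pow_le_pow_left₀ hr h3 2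
      linarith
  obtain ⟨t₁, ht₁⟩ : ∃ t₁ : ℝ, t₁ = sSup E := ⟨_, rfl⟩
  have hbdd : BddAbove E := ⟨α, fun t ht => by rw [hE] at ht; exact ht.2.1⟩
  have hle : ∀ t ∈ E, t ≤ t₁ := fun t ht => by rw [ht₁]; exact le_csSup hbdd ht
  have ht0 : 0 ≤ t₁ := by
    obtain ⟨t, ht⟩ := hEne
    have h2 := hle t ht
    rw [hE] at ht
    linarith [ht.1]
  have htα : t₁ ≤ α := by
    rw [ht₁]
    exact csSup_le hEne fun t ht => by rw [hE] at ht; exact ht.2.1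
  have hsh : ∀ p ∈ shl K α τ, (1 + τ) * p.1 ≤ α → p.1 ≤ t₁ := by
    intro p hp hp1
    rcases le_or_gt 0 p.1 with h2 | h2
    · have h3 := hle _ (hin p hp h2 hp1)
      have h4 : p.1 ≤ (1 + τ) * p.1 := by nlinarith
      linarith
    · linarith
  obtain ⟨c₁, hc1, hc2, hc3⟩ := exists_top hKc (haxis t₁ ht0 (by linarith))
  have hbound : c₁ ^ 2 + t₁ ^ 2 ≤ (1 + τ) ^ 2 := by
    by_contra hcon
    push Not at hcon
    rcases eq_or_lt_of_le ht0 with h2 | h2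
    · -- t₁ = 0
      obtain ⟨t, ht⟩ := hEne
      have h3 := hle t ht
      have ht' := ht
      rw [hE] at ht'
      have h4 : t = t₁ := by linarith [ht'.1]
      have h5 := ht'.2.2 c₁ hc3 (by rw [h4]; exact hc1)
      rw [h4] at h5
      linarith
    · have hS : 0 < c₁ ^ 2 + t₁ ^ 2 := by positivity
      -- q with q² (c₁² + t₁²) > (1+τ)², q < 1
      obtain ⟨q, hq0, hq1, hq2⟩ : ∃ q : ℝ, 0 < q ∧ q < 1 ∧ (1 + τ) ^ 2 < q ^ 2 * (c₁ ^ 2 + t₁ ^ 2) := by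
        have hcont : Filter.Tendsto (fun q : ℝ => q ^ 2 * (c₁ ^ 2 + t₁ ^ 2)) (nhdsWithin 1 (Iio 1))
            (nhds (1 ^ 2 * (c₁ ^ 2 + t₁ ^ 2))) :=
          ((continuous_pow 2).mul continuous_const).continuousWithinAt
        have h3 : (1 + τ) ^ 2 < 1 ^ 2 * (c₁ ^ 2 + t₁ ^ 2) := by rw [one_pow, one_mul]; exact hcon
        have h4 := hcont.eventually_const_lt h3
        have h5 : ∀ᶠ q : ℝ in nhdsWithin 1 (Iio 1), 0 < q :=
          (eventually_nhdsWithin_of_eventually_nhds (lt_mem_nhds one_pos))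
        obtain ⟨q, ⟨h6, h7⟩, h8⟩ := ((h4.and h5).and self_mem_nhdsWithin).exists
        exact ⟨q, h7, h8, h6⟩
      have h3 : q * t₁ < t₁ := by nlinarith
      rw [ht₁] at h3
      obtain ⟨t, ht, h4⟩ := exists_lt_of_lt_csSup hEne (lt_of_lt_of_eq h3 rfl)
      rw [← ht₁] at h4
      have h5 := hle t ht
      rw [hE] at ht
      have h6 : 0 < t := lt_of_le_of_lt (by positivity) h4
      have h7 : (t, t / t₁ * c₁) ∈ K := by
        refine conv_mem hK h0 hc1 (s := 1 - t / t₁) (t := t / t₁) ?_ (by positivity) (by ring)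
          (by field_simp; ring) (by ring)
        have : t / t₁ ≤ 1 := (div_le_one h2).2 h5
        linarith
      have h8 := ht.2.2 _ (by positivity) h7
      have h9 : q < t / t₁ := by rw [lt_div_iff₀ h2]; exact h4
      have h10 : (t / t₁ * c₁) ^ 2 + t ^ 2 = (t / t₁) ^ 2 * (c₁ ^ 2 + t₁ ^ 2) := by
        field_simp
      rw [h10] at h8
      have h11 : q ^ 2 ≤ (t / t₁) ^ 2 := pow_le_pow_left₀ hq0.le h9.le 2
      have h12 := mul_le_mul_of_nonneg_right h11 hS.le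
      linarith
  rcases eq_or_lt_of_le hc3 with h2 | h2
  · -- the top is zero
    right
    right
    intro p hp hp1
    have h3 := hsh p hp hp1
    obtain ⟨x, y⟩ := p
    obtain ⟨hy, hpK, hxα, hn, hout⟩ := hp
    simp only at hy hpK hxα hn hout hp1 h3
    rcases eq_or_lt_of_le h3 with h4 | h4
    · rw [h4] at hpK
      have h5 := hc2 _ hpK
      linarith
    · rcases below hK hpK h1 hc2 (Or.inl ⟨h4, by linarith⟩) with ⟨h5, h6⟩ | ⟨h5, h6⟩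
      · rw [← h2] at h5
        have h7 : 0 < y * (2 * α - t₁) := mul_pos hy (by linarith)
        linarith
      · linarith
  · left
    exact ⟨t₁, c₁, ht0, htα, h2, hc1, hc2, by linarith, hsh⟩

lemma mir_convex {K : Set (ℝ × ℝ)} (hK : Convex ℝ K) (α : ℝ) : Convex ℝ (mir α K) := by
  rintro ⟨a, b⟩ h1 ⟨c, d⟩ h2 s t hs ht hst
  simp only [Prod.smul_mk, Prod.mk_add_mk, smul_eq_mul]
  show (2 * α - (s * a + t * c), s * b + t * d) ∈ K
  exact conv_mem hK (show (2 * α - a, b) ∈ K from h1) (show (2 * α - c, d) ∈ K from h2) hs ht hst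
    (by linear_combination (2 * α) * hst) rfl

lemma mir_compact {K : Set (ℝ × ℝ)} (hKc : IsCompact K) (α : ℝ) : IsCompact (mir α K) := by
  have h : mir α K = (fun p : ℝ × ℝ => (2 * α - p.1, p.2)) '' K := by
    ext p
    constructor
    · intro hp
      exact ⟨(2 * α - p.1, p.2), hp, by simp⟩
    · rintro ⟨q, hq, rfl⟩
      show (2 * α - (2 * α - q.1), q.2) ∈ K
      have : 2 * α - (2 * α - q.1) = q.1 := by ring
      rw [this]
      exact hq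
  rw [h]
  exact hKc.image (by fun_prop)

/-- a supporting line -/
lemma support {K : Set (ℝ × ℝ)} (hK : Convex ℝ K) (α c : ℝ) (hα : 0 < α)
    (h0 : ((0 : ℝ), (0 : ℝ)) ∈ K) (h1 : (2 * α, (0 : ℝ)) ∈ K) (hc : ∀ r, (α, r) ∈ K → r ≤ c) :
    ∃ m : ℝ, ∀ p ∈ K, p.2 ≤ c + m * (p.1 - α) := by
  obtain ⟨S, hS⟩ : ∃ S : Set ℝ, S = {s | ∃ p ∈ K, α < p.1 ∧ s = (p.2 - c) / (p.1 - α)} := ⟨_, rfl⟩
  have hne : S.Nonempty := by
    rw [hS]
    exact ⟨_, (2 * α, 0), h1, by simp only; linarith, rfl⟩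
  have hup : ∀ s ∈ S, ∀ p ∈ K, p.1 < α → s ≤ (c - p.2) / (α - p.1) := by
    intro s hs p hp hpα
    rw [hS] at hs
    obtain ⟨q, hq, hqα, rfl⟩ := hs
    obtain ⟨a, b⟩ := p
    obtain ⟨u, v⟩ := q
    simp only at hpα hqα ⊢
    rw [div_le_div_iff₀ (by linarith) (by linarith)]
    rcases below hK hp hq hc (Or.inl ⟨hpα, hqα⟩) with ⟨h5, h6⟩ | ⟨h5, h6⟩
    · nlinarith
    · linarith
  have hbdd : BddAbove S :=
    ⟨(c - 0) / (α - 0), fun s hs => hup s hs (0, 0) h0 hα⟩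
  refine ⟨sSup S, ?_⟩
  rintro ⟨x, y⟩ hp
  simp only
  rcases lt_trichotomy x α with h | h | h
  · have h2 : sSup S ≤ (c - y) / (α - x) := csSup_le hne fun s hs => hup s hs _ hp h
    rw [le_div_iff₀ (by linarith)] at h2
    linarith
  · rw [h, sub_self, mul_zero, add_zero]
    rw [h] at hp
    exact hc _ hp
  · have h2 : (y - c) / (x - α) ≤ sSup S := by
      apply le_csSup hbdd
      rw [hS]
      exact ⟨(x, y), hp, h, rfl⟩
    rw [div_le_iff₀ (by linarith)] at h2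
    linarith

lemma left_line {K : Set (ℝ × ℝ)} (hK : Convex ℝ K) {t₁ c₁ u v m : ℝ}
    (a5 : ∀ r, (t₁, r) ∈ K → r ≤ c₁) (b4 : (u, v) ∈ K) (h : t₁ < u)
    (hmd : m * (u - t₁) = v - c₁) : ∀ p ∈ K, p.1 ≤ t₁ → p.2 ≤ c₁ + m * (p.1 - t₁) := by
  have hd : 0 < u - t₁ := by linarith
  rintro ⟨x, y⟩ hp hx
  simp only at hx ⊢
  rcases eq_or_lt_of_le hx with h2 | h2
  · rw [h2, sub_self, mul_zero, add_zero]
    rw [h2] at hp
    exact a5 _ hp
  · rcases below hK hp b4 a5 (Or.inl ⟨h2, h⟩) with ⟨h5, h6⟩ | ⟨h5, h6⟩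
    · have h7 : (y - c₁ - m * (x - t₁)) * (u - t₁) ≤ 0 := by
        have e3 : (y - c₁ - m * (x - t₁)) * (u - t₁) =
            (y - c₁) * (u - t₁) - (m * (u - t₁)) * (x - t₁) := by ring
        rw [e3, hmd]
        nlinarith
      by_contra hcon
      push Not at hcon
      have h8 : 0 < (y - c₁ - m * (x - t₁)) * (u - t₁) := mul_pos (by linarith) hd
      linarith
    · linarith

lemma right_line {K : Set (ℝ × ℝ)} (hK : Convex ℝ K) {t₂ c₂ u v m : ℝ}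
    (b5 : ∀ r, (t₂, r) ∈ K → r ≤ c₂) (a4 : (u, v) ∈ K) (h : u < t₂)
    (hmd : m * (t₂ - u) = c₂ - v) : ∀ p ∈ K, t₂ ≤ p.1 → p.2 ≤ c₂ + m * (p.1 - t₂) := by
  have hd : 0 < t₂ - u := by linarith
  rintro ⟨x, y⟩ hp hx
  simp only at hx ⊢
  rcases eq_or_lt_of_le hx with h2 | h2
  · rw [← h2, sub_self, mul_zero, add_zero]
    rw [← h2] at hp
    exact b5 _ hp
  · rcases below hK hp a4 b5 (Or.inr ⟨h, h2⟩) with ⟨h5, h6⟩ | ⟨h5, h6⟩
    · linarith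
    · have h7 : (y - c₂ - m * (x - t₂)) * (t₂ - u) ≤ 0 := by
        have e3 : (y - c₂ - m * (x - t₂)) * (t₂ - u) =
            (y - c₂) * (t₂ - u) - (m * (t₂ - u)) * (x - t₂) := by ring
        rw [e3, hmd]
        nlinarith
      by_contra hcon
      push Not at hcon
      have h8 : 0 < (y - c₂ - m * (x - t₂)) * (t₂ - u) := mul_pos (by linarith) hd
      linarith

end U5Aux

open U5Aux

/-- As `planar_geo` (same `ρ`, `E₀`, `E₁`, `t₁`, `t₂`). Both nonempty, `c₁, c₂ > 0`: first alternative. `c₁ = 0`: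
fifth (`K` has no point with `0 < p.2`, `p.1 < t₁`), `c₂ = 0`: sixth. `E₀ = ∅ ≠ E₁`, `c₂ > 0`: second; here
`ρ(0) > 1 + τ ≥ c₂`, so the line through `(0, ρ(0))` and `(t₂, c₂)` has slope `m < 0`. Symmetric: third. Both empty:
fourth. -/
theorem planar_geo3 (K : Set (ℝ × ℝ)) (hK : Convex ℝ K) (hKc : IsCompact K) (α τ : ℝ)
    (hα : 0 < α) (h0 : ((0 : ℝ), (0 : ℝ)) ∈ K) (h1 : (2 * α, (0 : ℝ)) ∈ K) (hτ : 0 < τ)
    (hτ1 : τ ≤ 1) :
    (∃ t₁ t₂ c₁ c₂ m : ℝ, 0 ≤ t₁ ∧ t₁ ≤ α ∧ α ≤ t₂ ∧ t₂ ≤ 2 * α ∧ 0 < c₁ ∧ 0 < c₂ ∧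
      c₁ ^ 2 ≤ (1 + τ) ^ 2 - t₁ ^ 2 ∧ c₂ ^ 2 ≤ (1 + τ) ^ 2 - (2 * α - t₂) ^ 2 ∧
      (m ≤ 0 → c₂ ≤ c₁) ∧ (0 ≤ m → c₁ ≤ c₂) ∧
      (∀ p ∈ K, p.1 ≤ t₁ → p.2 ≤ c₁ + m * (p.1 - t₁)) ∧
      (∀ p ∈ K, t₂ ≤ p.1 → p.2 ≤ c₂ + m * (p.1 - t₂)) ∧
      (∀ p ∈ shl K α τ, (1 + τ) * p.1 ≤ α → p.1 ≤ t₁) ∧
      (∀ p ∈ shl (mir α K) α τ, (1 + τ) * p.1 ≤ α → p.1 ≤ 2 * α - t₂)) ∨
    ((∀ p ∈ shl K α τ, (1 + τ) * p.1 ≤ α → p.1 ≤ 0) ∧
      ∃ t₂ c₂ m : ℝ, α ≤ t₂ ∧ t₂ ≤ 2 * α ∧ 0 < c₂ ∧ c₂ ^ 2 ≤ (1 + τ) ^ 2 - (2 * α - t₂) ^ 2 ∧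
      m ≤ 0 ∧ (∀ p ∈ K, t₂ ≤ p.1 → p.2 ≤ c₂ + m * (p.1 - t₂)) ∧
      (∀ p ∈ shl (mir α K) α τ, (1 + τ) * p.1 ≤ α → p.1 ≤ 2 * α - t₂)) ∨
    ((∀ p ∈ shl (mir α K) α τ, (1 + τ) * p.1 ≤ α → p.1 ≤ 0) ∧
      ∃ t₁ c₁ m : ℝ, 0 ≤ t₁ ∧ t₁ ≤ α ∧ 0 < c₁ ∧ c₁ ^ 2 ≤ (1 + τ) ^ 2 - t₁ ^ 2 ∧
      0 ≤ m ∧ (∀ p ∈ K, p.1 ≤ t₁ → p.2 ≤ c₁ + m * (p.1 - t₁)) ∧
      (∀ p ∈ shl K α τ, (1 + τ) * p.1 ≤ α → p.1 ≤ t₁)) ∨
    ((∀ p ∈ shl K α τ, (1 + τ) * p.1 ≤ α → p.1 ≤ 0) ∧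
      (∀ p ∈ shl (mir α K) α τ, (1 + τ) * p.1 ≤ α → p.1 ≤ 0)) ∨
    (∀ p ∈ shl K α τ, (1 + τ) * p.1 ≤ α → False) ∨
    (∀ p ∈ shl (mir α K) α τ, (1 + τ) * p.1 ≤ α → False) := by
  have m0 : ((0 : ℝ), (0 : ℝ)) ∈ mir α K := by
    show (2 * α - 0, (0 : ℝ)) ∈ K
    rw [sub_zero]
    exact h1
  have m1 : (2 * α, (0 : ℝ)) ∈ mir α K := by
    show (2 * α - 2 * α, (0 : ℝ)) ∈ K
    rw [sub_self]
    exact h0
  rcases side K hK hKc α τ hα h0 h1 hτ with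
    ⟨t₁, c₁, a1, a2, a3, a4, a5, a6, a7⟩ | ⟨hA, r₀, hr0, hr0K, hr1⟩ | h
  · rcases side (mir α K) (mir_convex hK α) (mir_compact hKc α) α τ hα m0 m1 hτ with
      ⟨s, c₂, b1, b2, b3, b4, b5, b6, b7⟩ | ⟨hB, r₁, hs0, hs0K, hs1⟩ | h
    · left
      obtain ⟨t₂, ht₂⟩ : ∃ t₂ : ℝ, t₂ = 2 * α - s := ⟨_, rfl⟩
      have hs : s = 2 * α - t₂ := by linarith
      have b4' : (t₂, c₂) ∈ K := by rw [ht₂]; exact b4
      have b5' : ∀ r, (t₂, r) ∈ K → r ≤ c₂ := by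
        intro r hr
        apply b5 r
        show (2 * α - s, r) ∈ K
        rw [← ht₂]
        exact hr
      rw [hs] at b1 b2 b6 b7
      rcases eq_or_lt_of_le (show t₁ ≤ t₂ by linarith) with h | h
      · -- both are α
        have e1 : t₁ = α := by linarith
        have e2 : t₂ = α := by linarith
        subst e1
        rw [e2] at b4' b5' b6 b7
        have hcc : c₁ = c₂ := le_antisymm (b5' _ a4) (a5 _ b4')
        obtain ⟨m, hm⟩ := support hK t₁ c₁ hα h0 h1 a5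
        refine ⟨t₁, t₁, c₁, c₂, m, a1, a2, le_rfl, by linarith, a3, b3, a6, b6, fun _ => hcc.ge,
          fun _ => hcc.le, fun p hp _ => hm p hp, fun p hp _ => by rw [← hcc]; exact hm p hp,
          a7, b7⟩
      · obtain ⟨m, hm⟩ : ∃ m : ℝ, m = (c₂ - c₁) / (t₂ - t₁) := ⟨_, rfl⟩
        have hd : 0 < t₂ - t₁ := by linarith
        have hmd : m * (t₂ - t₁) = c₂ - c₁ := by rw [hm]; field_simp
        refine ⟨t₁, t₂, c₁, c₂, m, a1, a2, by linarith, by linarith, a3, b3, a6, b6, ?_, ?_,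
          left_line hK a5 b4' h hmd, right_line hK b5' a4 h hmd, a7, b7⟩
        · intro h2
          have h3 : m * (t₂ - t₁) ≤ 0 := mul_nonpos_of_nonpos_of_nonneg h2 hd.le
          linarith
        · intro h2
          have h3 : 0 ≤ m * (t₂ - t₁) := mul_nonneg h2 hd.le
          linarith
    · -- the right side is empty
      right; right; left
      have hr : (2 * α, r₁) ∈ K := by
        have h2 : (2 * α - 0, r₁) ∈ K := hs0K
        rwa [sub_zero] at h2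
      have hc : c₁ ≤ 1 + τ := by
        have h2 : c₁ ^ 2 ≤ (1 + τ) ^ 2 := by nlinarith [sq_nonneg t₁]
        exact (pow_le_pow_iff_left₀ a3.le (by linarith) two_ne_zero).1 h2
      obtain ⟨m, hm⟩ : ∃ m : ℝ, m = (r₁ - c₁) / (2 * α - t₁) := ⟨_, rfl⟩
      have hd : 0 < 2 * α - t₁ := by linarith
      have hmd : m * (2 * α - t₁) = r₁ - c₁ := by rw [hm]; field_simp
      refine ⟨hB, t₁, c₁, m, a1, a2, a3, a6, ?_, left_line hK a5 hr (by linarith) hmd, a7⟩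
      rw [hm]
      exact div_nonneg (by linarith) hd.le
    · right; right; right; right; right
      exact h
  · rcases side (mir α K) (mir_convex hK α) (mir_compact hKc α) α τ hα m0 m1 hτ with
      ⟨s, c₂, b1, b2, b3, b4, b5, b6, b7⟩ | ⟨hB, r₁, hs0, hs0K, hs1⟩ | h
    · -- the left side is empty
      right; left
      obtain ⟨t₂, ht₂⟩ : ∃ t₂ : ℝ, t₂ = 2 * α - s := ⟨_, rfl⟩
      have hs : s = 2 * α - t₂ := by linarith
      have b5' : ∀ r, (t₂, r) ∈ K → r ≤ c₂ := by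
        intro r hr
        apply b5 r
        show (2 * α - s, r) ∈ K
        rw [← ht₂]
        exact hr
      rw [hs] at b1 b2 b6 b7
      have hc : c₂ ≤ 1 + τ := by
        have h2 : c₂ ^ 2 ≤ (1 + τ) ^ 2 := by nlinarith [sq_nonneg (2 * α - t₂)]
        exact (pow_le_pow_iff_left₀ b3.le (by linarith) two_ne_zero).1 h2
      have hd : 0 < t₂ - 0 := by linarith
      obtain ⟨m, hm⟩ : ∃ m : ℝ, m = (c₂ - r₀) / (t₂ - 0) := ⟨_, rfl⟩
      have hmd : m * (t₂ - 0) = c₂ - r₀ := by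
        rw [hm]
        exact div_mul_cancel₀ _ hd.ne'
      refine ⟨hA, t₂, c₂, m, by linarith, by linarith, b3, b6, ?_,
        right_line hK b5' hr0K (by linarith) hmd, b7⟩
      rw [hm]
      exact div_nonpos_of_nonpos_of_nonneg (by linarith) hd.le
    · right; right; right; left
      exact ⟨hA, hB⟩
    · right; right; right; right; right
      exact h
  · right; right; right; right; left
    exact h

end SA70
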