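import Pool.Agent.SA70.U4
import Pool.Agent.SA70.U5
import Pool.Agent.SA70.R2
import Pool.Agent.SA70.R5

/-! U6: the sharp planar bound. -/

set_option autoImplicit false

open MeasureTheory Measure Metric Set Module ENNReal

namespace SA70

open planar_leAux

namespace U6Aux

theorem final3 {n : ℕ} (hn1 : 1 ≤ n) (ε θ : ℝ) (hε : 0 < ε) (hθ0 : 0 < θ)
    (hn : 16 / ε ^ 2 ≤ n) (x : ℝ) (hx : x ≤ (2 * B1 + ε / 2) / √(n : ℝ)) :
    θ / ((n : ℝ) + 1) / n + θ / ((n : ℝ) + 1) / n +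
      ((n : ℝ) + 1) * (θ / ((n : ℝ) + 1)) / n * x ≤ (2 * B1 + ε) * θ / (n * √(n : ℝ)) := by
  have hnr : (1 : ℝ) ≤ n := by exact_mod_cast hn1
  have hn0 : (0 : ℝ) < n := by linarith
  obtain ⟨s, hs⟩ : ∃ s : ℝ, s = √(n : ℝ) := ⟨_, rfl⟩
  have hs2 : s ^ 2 = n := by rw [hs]; exact Real.sq_sqrt hn0.le
  have hs0 : 0 < s := by rw [hs]; exact Real.sqrt_pos.mpr hn0
  have hsε : 4 / ε ≤ s := by
    rw [hs]
    apply Real.le_sqrt_of_sq_le
    have : (4 / ε) ^ 2 = 16 / ε ^ 2 := by rw [div_pow]; norm_num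
    rw [this]; exact hn
  rw [← hs] at hx ⊢
  have h1 : ((n : ℝ) + 1) * (θ / ((n : ℝ) + 1)) = θ := by field_simp
  rw [h1]
  have h2 : 2 * (1 / ((n : ℝ) + 1)) ≤ (ε / 2) / s := by
    have h3 : 4 ≤ s * ε := by rwa [div_le_iff₀ hε] at hsε
    rw [mul_one_div, div_le_div_iff₀ (by linarith) hs0]
    nlinarith
  have h3 : θ / ((n : ℝ) + 1) / n + θ / ((n : ℝ) + 1) / n + θ / n * x
      = θ / n * (2 * (1 / ((n : ℝ) + 1)) + x) := by
    field_simp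
    ring
  have h4 : (2 * B1 + ε) * θ / (n * s) = θ / n * ((ε / 2) / s + (2 * B1 + ε / 2) / s) := by
    field_simp
    ring
  rw [h3, h4]
  gcongr

theorem combine3 {n : ℕ} (hn1 : 1 ≤ n) (ε θ : ℝ) (hε : 0 < ε) (hθ0 : 0 < θ)
    (hn : 16 / ε ^ 2 ≤ n) (A B : ℝ≥0∞) (x y : ℝ) (hx0 : 0 ≤ x) (hy0 : 0 ≤ y)
    (hA : A ≤ ENNReal.ofReal (θ / ((n : ℝ) + 1) / n) +
      ENNReal.ofReal (((n : ℝ) + 1) * (θ / ((n : ℝ) + 1)) / n) * ENNReal.ofReal x)
    (hB : B ≤ ENNReal.ofReal (θ / ((n : ℝ) + 1) / n) +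
      ENNReal.ofReal (((n : ℝ) + 1) * (θ / ((n : ℝ) + 1)) / n) * ENNReal.ofReal y)
    (hxy : x + y ≤ (2 * B1 + ε / 2) / √(n : ℝ)) :
    A + B ≤ ENNReal.ofReal ((2 * B1 + ε) * θ / (n * √(n : ℝ))) := by
  refine (add_le_add hA hB).trans ?_
  have hp : (0 : ℝ) ≤ ((n : ℝ) + 1) * (θ / ((n : ℝ) + 1)) / n := by positivity
  have hq : (0 : ℝ) ≤ θ / ((n : ℝ) + 1) / n := by positivity
  rw [← ENNReal.ofReal_mul hp, ← ENNReal.ofReal_mul hp, ← ENNReal.ofReal_add hq (by positivity),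
    ← ENNReal.ofReal_add hq (by positivity), ← ENNReal.ofReal_add (by positivity) (by positivity)]
  apply ENNReal.ofReal_le_ofReal
  have h := final3 hn1 ε θ hε hθ0 hn (x + y) hxy
  linarith

/-- a side with a line of the favourable slope -/
theorem line_side {n : ℕ} (hn : 1 ≤ n) (K : Set (ℝ × ℝ)) (hK : Convex ℝ K) (hKc : IsCompact K)
    (α τ θ : ℝ) (hα : 0 < α) (h0 : ((0 : ℝ), (0 : ℝ)) ∈ K) (hτ : 0 < τ) (hθ : (n : ℝ) * τ ≤ θ)
    (hθ1 : θ ≤ 1) (hτ1 : τ ≤ 1) (t₁ c m : ℝ) (ht₁ : 0 ≤ t₁) (hc : 0 < c)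
    (hc2 : c ^ 2 ≤ (1 + τ) ^ 2 - t₁ ^ 2)
    (hb : ∀ p ∈ K, p.1 ≤ t₁ → p.2 ≤ c + m * (p.1 - t₁))
    (H : ∀ p ∈ shl K α τ, (1 + τ) * p.1 ≤ α → p.1 ≤ t₁) :
    wt n (shl K α τ) ≤ ENNReal.ofReal (τ / n) + ENNReal.ofReal (((n : ℝ) + 1) * τ / n) *
      ENNReal.ofReal (Real.exp (3 * θ) / √(n : ℝ) *
        tlt (√(n : ℝ) * t₁) (-(√(n : ℝ) * m / c))) := by
  refine (side_le hn K hK hKc α τ hα h0 hτ t₁ ht₁ (fun t => c + m * (t - t₁))
    (by fun_prop) hb H).trans ?_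
  gcongr
  exact line_le hn τ θ hτ hθ hθ1 hτ1 c m t₁ hc hc2

theorem sqrt_le_B1 : √(2 * Real.pi) / 2 ≤ B1 := by
  have h1 := sqrt_two_pi
  have h2 := B1_ge
  linarith

end U6Aux

open U6Aux in
theorem planar_le3 (ε θ : ℝ) (hε : 0 < ε) (hθ0 : 0 < θ) (hθ1 : θ ≤ 1)
    (hθ : Real.exp (3 * θ) * (2 * B1) ≤ 2 * B1 + ε / 2) :
    ∃ d₀ : ℕ, 1 ≤ d₀ ∧ ∀ n : ℕ, d₀ ≤ n → ∀ (K : Set (ℝ × ℝ)), Convex ℝ K →
    IsCompact K → ∀ α : ℝ, 0 < α → ((0 : ℝ), (0 : ℝ)) ∈ K → (2 * α, (0 : ℝ)) ∈ K →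
    wt n (shl K α (θ / ((n : ℝ) + 1))) + wt n (shl (mir α K) α (θ / ((n : ℝ) + 1))) ≤
      ENNReal.ofReal ((2 * B1 + ε) * θ / (n * √(n : ℝ))) := by
  refine ⟨max 1 ⌈16 / ε ^ 2⌉₊, le_max_left _ _, ?_⟩
  intro n hn K hK hKc α hα h0 h1
  have hn1 : 1 ≤ n := (le_max_left _ _).trans hn
  have hnε : 16 / ε ^ 2 ≤ n :=
    (Nat.le_ceil _).trans (by exact_mod_cast (le_max_right _ _).trans hn)
  have hn0 : (0 : ℝ) < n := by exact_mod_cast hn1
  obtain ⟨τ, hτdef⟩ : ∃ τ : ℝ, τ = θ / ((n : ℝ) + 1) := ⟨_, rfl⟩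
  have hτ : 0 < τ := by rw [hτdef]; positivity
  have hcomb := combine3 hn1 ε θ hε hθ0 hnε
  rw [← hτdef] at hcomb ⊢
  have hK' := mir_convex K hK α
  have hKc' := mir_compact K hKc α
  have h0' : ((0 : ℝ), (0 : ℝ)) ∈ mir α K := by
    simp only [mir, mem_ofPred_eq, sub_zero]
    exact h1
  have hτθ : ((n : ℝ) + 1) * τ = θ := by
    rw [hτdef]
    field_simp
  have hτ1 : τ ≤ 1 := by nlinarith
  have hθn : (n : ℝ) * τ ≤ θ := by nlinarith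
  have hs : 0 ≤ √(n : ℝ) := Real.sqrt_nonneg _
  have hB := B1_ge
  have hsB := sqrt_le_B1
  have hexp1 : 1 ≤ Real.exp (3 * θ) := Real.one_le_exp (by positivity)
  have hexp0 : 0 ≤ Real.exp (3 * θ) := (Real.exp_pos _).le
  have hsp : 0 ≤ √(2 * Real.pi) := Real.sqrt_nonneg _
  rcases planar_geo3 K hK hKc α τ hα h0 h1 hτ hτ1 with
    ⟨t₁, t₂, c₁, c₂, m, ht1, ht1a, ht2a, ht2, hc1, hc2, hcc1, hcc2, hm1, hm2, hl1, hl2, hH1, hH2⟩ |
    ⟨hH, t₂, c₂, m, ht2a, ht2, hc2, hcc2, hm, hl2, hH2⟩ |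
    ⟨hH, t₁, c₁, m, ht1, ht1a, hc1, hcc1, hm, hl1, hH1⟩ | ⟨hHa, hHb⟩ | hH | hH
  · have hA := line_side hn1 K hK hKc α τ θ hα h0 hτ hθn hθ1 hτ1 t₁ c₁ m ht1 hc1 hcc1 hl1 hH1
    have hB' := line_side hn1 (mir α K) hK' hKc' α τ θ hα h0' hτ hθn hθ1 hτ1 (2 * α - t₂) c₂ (-m)
      (by linarith) hc2 hcc2 (by
        intro p hp hp1
        have h := hl2 (2 * α - p.1, p.2) hp (by simp only; linarith)
        simp only at h ⊢
        linarith) hH2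
    refine hcomb _ _ _ _ ?_ ?_ hA hB' ?_
    · exact mul_nonneg (by positivity) (tlt_nonneg _ _)
    · exact mul_nonneg (by positivity) (tlt_nonneg _ _)
    · rw [← mul_add]
      have h3 : m / c₂ ≤ m / c₁ := by
        rcases le_total m 0 with hm | hm
        · have h4 := hm1 hm
          rw [div_le_div_iff₀ hc2 hc1]
          nlinarith
        · have h4 := hm2 hm
          rw [div_le_div_iff₀ hc2 hc1]
          nlinarith
      have h5 : √(n : ℝ) * m / c₂ ≤ √(n : ℝ) * m / c₁ := by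
        rw [mul_div_assoc, mul_div_assoc]
        exact mul_le_mul_of_nonneg_left h3 hs
      have h6 : -(√(n : ℝ) * -m / c₂) = √(n : ℝ) * m / c₂ := by
        rw [mul_neg, neg_div, neg_neg]
      have h7 := tlt_pair_sharp (√(n : ℝ) * t₁) (√(n : ℝ) * (2 * α - t₂))
        (-(√(n : ℝ) * m / c₁)) (-(√(n : ℝ) * -m / c₂)) (by rw [h6, neg_neg]; exact h5)
      rw [div_mul_eq_mul_div]
      apply div_le_div_of_nonneg_right _ hs
      exact (mul_le_mul_of_nonneg_left h7 hexp0).trans hθ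
  · have hB' := line_side hn1 (mir α K) hK' hKc' α τ θ hα h0' hτ hθn hθ1 hτ1 (2 * α - t₂) c₂ (-m)
      (by linarith) hc2 hcc2 (by
        intro p hp hp1
        have h := hl2 (2 * α - p.1, p.2) hp (by simp only; linarith)
        simp only at h ⊢
        linarith) hH2
    refine hcomb _ _ _ _ ?_ ?_ (half_side hn1 K hK hKc α τ hα h0 hτ hH) hB' ?_
    · positivity
    · exact mul_nonneg (by positivity) (tlt_nonneg _ _)
    · have h6 : -(√(n : ℝ) * -m / c₂) ≤ 0 := by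
        rw [mul_neg, neg_div, neg_neg]
        exact div_nonpos_of_nonpos_of_nonneg (mul_nonpos_of_nonneg_of_nonpos hs hm) hc2.le
      have h7 := (tlt_mono (√(n : ℝ) * (2 * α - t₂)) _ 0 h6).trans (tlt_zero_sharp _)
      have h8 : √(2 * Real.pi) / 2 / √(n : ℝ) + Real.exp (3 * θ) / √(n : ℝ) *
          tlt (√(n : ℝ) * (2 * α - t₂)) (-(√(n : ℝ) * -m / c₂)) =
          (√(2 * Real.pi) / 2 + Real.exp (3 * θ) *
            tlt (√(n : ℝ) * (2 * α - t₂)) (-(√(n : ℝ) * -m / c₂))) / √(n : ℝ) := by ring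
      rw [h8]
      apply div_le_div_of_nonneg_right _ hs
      have h9 := mul_le_mul_of_nonneg_left h7 hexp0
      nlinarith
  · have hA := line_side hn1 K hK hKc α τ θ hα h0 hτ hθn hθ1 hτ1 t₁ c₁ m ht1 hc1 hcc1 hl1 hH1
    refine hcomb _ _ _ _ ?_ ?_ hA
      (half_side hn1 (mir α K) hK' hKc' α τ hα h0' hτ hH) ?_
    · exact mul_nonneg (by positivity) (tlt_nonneg _ _)
    · positivity
    · have h6 : -(√(n : ℝ) * m / c₁) ≤ 0 := by
        have : 0 ≤ √(n : ℝ) * m / c₁ := by positivity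
        linarith
      have h7 := (tlt_mono (√(n : ℝ) * t₁) _ 0 h6).trans (tlt_zero_sharp _)
      have h8 : Real.exp (3 * θ) / √(n : ℝ) * tlt (√(n : ℝ) * t₁) (-(√(n : ℝ) * m / c₁)) +
          √(2 * Real.pi) / 2 / √(n : ℝ) =
          (√(2 * Real.pi) / 2 + Real.exp (3 * θ) *
            tlt (√(n : ℝ) * t₁) (-(√(n : ℝ) * m / c₁))) / √(n : ℝ) := by ring
      rw [h8]
      apply div_le_div_of_nonneg_right _ hs
      have h9 := mul_le_mul_of_nonneg_left h7 hexp0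
      nlinarith
  · refine hcomb _ _ _ _ ?_ ?_ (half_side hn1 K hK hKc α τ hα h0 hτ hHa)
      (half_side hn1 (mir α K) hK' hKc' α τ hα h0' hτ hHb) ?_
    · positivity
    · positivity
    · rw [← add_div]
      apply div_le_div_of_nonneg_right _ hs
      linarith
  · have hA : wt n (shl K α τ) ≤ ENNReal.ofReal (τ / n) +
        ENNReal.ofReal (((n : ℝ) + 1) * τ / n) * ENNReal.ofReal 0 := by
      rw [ENNReal.ofReal_zero, mul_zero, add_zero]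
      exact wt_slab hn1 τ α hτ hα _ fun p hp =>
        ⟨hp.1, hp.2.2.1, lt_of_not_ge fun h => hH p hp h, hp.2.2.2.1⟩
    refine hcomb _ _ _ _ le_rfl ?_ hA
      (full_side hn1 (mir α K) hK' hKc' α τ hα h0' hτ) ?_
    · positivity
    · rw [zero_add]
      apply div_le_div_of_nonneg_right _ hs
      linarith
  · have hA : wt n (shl (mir α K) α τ) ≤ ENNReal.ofReal (τ / n) +
        ENNReal.ofReal (((n : ℝ) + 1) * τ / n) * ENNReal.ofReal 0 := by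
      rw [ENNReal.ofReal_zero, mul_zero, add_zero]
      exact wt_slab hn1 τ α hτ hα _ fun p hp =>
        ⟨hp.1, hp.2.2.1, lt_of_not_ge fun h => hH p hp h, hp.2.2.2.1⟩
    refine hcomb _ _ _ _ ?_ le_rfl (full_side hn1 K hK hKc α τ hα h0 hτ) hA ?_
    · positivity
    · rw [add_zero]
      apply div_le_div_of_nonneg_right _ hs
      linarith

end SA70
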