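import Pool.Agent.SA70.U7g
import Pool.Agent.SA70.U7a
import Pool.Agent.SA70.U2

/-! U7: the sharp bound for all numbers of balls. -/

set_option autoImplicit false

open MeasureTheory Measure Metric Set Module ENNReal

namespace SA70

open SC70

namespace U7Aux

theorem sqrt_two_pi_le : √(2 * Real.pi) ≤ 26 / 10 := by
  rw [Real.sqrt_le_left (by norm_num)]
  have := Real.pi_lt_d2
  norm_num at this ⊢
  linarith

theorem exists_theta (ε : ℝ) (hε : 0 < ε) (β : ℝ) (hβ : 0 < β) (b : ℝ) (hb : 0 < b) :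
    ∃ θ : ℝ, 0 < θ ∧ θ ≤ 1 ∧ Real.exp (3 * θ) * (2 * b) ≤ 2 * b + ε / 2 ∧
      ∀ K V : ℝ, 0 ≤ K → 0 ≤ V →
        1 / (1 + θ) * V ≤ (2 * β + ε) / 2 * K + θ / 2 * (K + V) → V ≤ (β + ε) * K := by
  obtain ⟨θ, hθ⟩ : ∃ θ : ℝ, θ = min (1 / 10) (min (ε / (24 * b)) (ε / (1 + 4 * (β + ε)))) := ⟨_, rfl⟩
  have hθ0 : 0 < θ := by rw [hθ]; positivity
  have h1 : θ ≤ 1 / 10 := by rw [hθ]; exact min_le_left _ _
  have h2 : θ ≤ ε / (24 * b) := by rw [hθ]; exact (min_le_right _ _).trans (min_le_left _ _)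
  have h3 : θ ≤ ε / (1 + 4 * (β + ε)) := by
    rw [hθ]; exact (min_le_right _ _).trans (min_le_right _ _)
  rw [le_div_iff₀ (by positivity)] at h2 h3
  refine ⟨θ, hθ0, by linarith, ?_, ?_⟩
  · have h4 := Real.exp_bound_div_one_sub_of_interval (x := 3 * θ) (by positivity) (by linarith)
    have h5 : 1 / (1 - 3 * θ) ≤ 1 + 6 * θ := by
      rw [div_le_iff₀ (by linarith)]
      nlinarith
    have h6 : Real.exp (3 * θ) ≤ 1 + 6 * θ := h4.trans h5
    calc Real.exp (3 * θ) * (2 * b) ≤ (1 + 6 * θ) * (2 * b) :=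
          mul_le_mul_of_nonneg_right h6 (by positivity)
      _ ≤ 2 * b + ε / 2 := by nlinarith
  · intro K V hK hV h
    have h7 : 1 - θ ≤ 1 / (1 + θ) := by
      rw [le_div_iff₀ (by linarith)]
      nlinarith
    have h8 : (1 - θ) * V ≤ 1 / (1 + θ) * V := mul_le_mul_of_nonneg_right h7 hV
    have h9 : (1 - 2 * θ) * V ≤ ((2 * β + ε) / 2 + θ / 2) * K := by nlinarith
    have h10 : (2 * β + ε) / 2 + θ / 2 ≤ (1 - 2 * θ) * (β + ε) := by nlinarith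
    have h11 : (1 - 2 * θ) * V ≤ (1 - 2 * θ) * ((β + ε) * K) := by
      calc (1 - 2 * θ) * V ≤ ((2 * β + ε) / 2 + θ / 2) * K := h9
        _ ≤ (1 - 2 * θ) * (β + ε) * K := mul_le_mul_of_nonneg_right h10 hK
        _ = _ := by ring
    exact le_of_mul_le_mul_left h11 (by linarith)

end U7Aux

/-- The sharp bound for all numbers of balls. -/
theorem pair_gap3 (ε : ℝ) (hε : 0 < ε) : ∃ d₀ : ℕ, ∀ n : ℕ, d₀ ≤ n →
    ∀ (C : Set (EuclideanSpace ℝ (Fin (n + 1)))) (X : Finset (EuclideanSpace ℝ (Fin (n + 1)))),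
      Convex ℝ C → IsCompact C → C ⊆ ⋃ x ∈ X, closedBall x 1 → 2 ≤ X.card →
      volume.real C ≤ (B1 / √(2 * Real.pi) + ε) * (X.card * kap (n + 1)) := by
  have hB := B1_ge
  have hB0 : 0 < B1 := by linarith
  have hs := U7Aux.sqrt_two_pi_le
  have hs0 : 0 < √(2 * Real.pi) := Real.sqrt_pos.mpr (by positivity)
  have hβ0 : 0 < B1 / √(2 * Real.pi) := by positivity
  obtain ⟨θ, hθ0, hθ1, hθ2, hθ3⟩ := U7Aux.exists_theta ε hε (B1 / √(2 * Real.pi)) hβ0 B1 hB0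
  obtain ⟨d₁, _, hd₁⟩ := pair_bound3 ε θ hε hθ0 hθ1 hθ2
  have hc : 1 ≤ 2 * B1 / √(2 * Real.pi) + ε := by
    have : 1 ≤ 2 * B1 / √(2 * Real.pi) := by
      rw [le_div_iff₀ hs0]
      linarith
    linarith
  obtain ⟨d₀, hd₀⟩ := pair_gap_gen (2 * B1 / √(2 * Real.pi) + ε) θ hc hθ0 hθ1 d₁ hd₁
  refine ⟨d₀, ?_⟩
  intro n hn C X hconv hCc hcov hk
  have h := hd₀ n hn C X hconv hCc hcov hk
  have hκ := kap_pos (n + 1)
  apply hθ3 (X.card * kap (n + 1)) (volume.real C) (by positivity) measureReal_nonneg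
  have e : 2 * (B1 / √(2 * Real.pi)) = 2 * B1 / √(2 * Real.pi) := by ring
  rw [e]
  exact h

end SA70
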