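import Pool.Agent.SA70.M7f
import Pool.Agent.SA70.M10a

/-! U7g: from a bound for pairs of centres to a bound for all coverings. -/

set_option autoImplicit false

open MeasureTheory Measure Metric Set Module ENNReal

namespace SA70

open SC70

namespace U7Aux

/-- averaging over the pairs -/
theorem sum_pairs {ι : Type*} [DecidableEq ι] (S : Finset ι) (a : ι → ℝ) (c : ℝ)
    (hS : 2 ≤ S.card) (h : ∀ x ∈ S, ∀ y ∈ S, x ≠ y → a x + a y ≤ c) :
    ∑ x ∈ S, a x ≤ S.card * (c / 2) := by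
  have h1 : ∑ x ∈ S, ∑ y ∈ S.erase x, (a x + a y) ≤ ∑ x ∈ S, ∑ y ∈ S.erase x, c := by
    apply Finset.sum_le_sum
    intro x hx
    apply Finset.sum_le_sum
    intro y hy
    obtain ⟨hy1, hy2⟩ := Finset.mem_erase.mp hy
    exact h x hx y hy2 hy1.symm
  have hcard : ∀ x ∈ S, ((S.erase x).card : ℝ) = (S.card : ℝ) - 1 := by
    intro x hx
    rw [Finset.card_erase_of_mem hx, Nat.cast_sub (by omega)]
    simp
  have h2 : ∑ x ∈ S, ∑ y ∈ S.erase x, (a x + a y) = 2 * ((S.card : ℝ) - 1) * ∑ x ∈ S, a x := by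
    have h3 : ∀ x ∈ S, ∑ y ∈ S.erase x, (a x + a y) =
        ((S.card : ℝ) - 1) * a x + (∑ y ∈ S, a y - a x) := by
      intro x hx
      rw [Finset.sum_add_distrib, Finset.sum_const, nsmul_eq_mul, hcard x hx]
      congr 1
      rw [← Finset.add_sum_erase S a hx]
      ring
    rw [Finset.sum_congr rfl h3, Finset.sum_add_distrib, ← Finset.mul_sum, Finset.sum_sub_distrib,
      Finset.sum_const, nsmul_eq_mul]
    ring
  have h4 : ∑ x ∈ S, ∑ y ∈ S.erase x, c = (S.card : ℝ) * (((S.card : ℝ) - 1) * c) := by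
    have h5 : ∀ x ∈ S, ∑ y ∈ S.erase x, c = ((S.card : ℝ) - 1) * c := by
      intro x hx
      rw [Finset.sum_const, nsmul_eq_mul, hcard x hx]
    rw [Finset.sum_congr rfl h5, Finset.sum_const, nsmul_eq_mul]
  rw [h2, h4] at h1
  have h6 : (2 : ℝ) ≤ S.card := by exact_mod_cast hS
  have h7 : (0 : ℝ) < (S.card : ℝ) - 1 := by linarith
  have h8 : ((S.card : ℝ) - 1) * (∑ x ∈ S, a x) ≤
      ((S.card : ℝ) - 1) * (S.card * (c / 2)) := by nlinarith
  exact le_of_mul_le_mul_left h8 h7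

theorem Inn_le {n : ℕ} (C : Set (EuclideanSpace ℝ (Fin (n + 1)))) (hconv : Convex ℝ C)
    (hCc : IsCompact C) (w : EuclideanSpace ℝ (Fin (n + 1))) (hw : w ∈ C) (θ : ℝ) (hθ : 0 < θ) :
    volume.real (Inn C (θ / ((n : ℝ) + 1)) w) ≤ θ * kap (n + 1) := by
  obtain ⟨τ, hτ⟩ : ∃ τ : ℝ, τ = θ / ((n : ℝ) + 1) := ⟨_, rfl⟩
  have hτ0 : 0 < τ := by rw [hτ]; positivity
  obtain ⟨r, hr⟩ : ∃ r : ℝ, r = (1 + τ)⁻¹ := ⟨_, rfl⟩
  have hr0 : 0 < r := by rw [hr]; positivity
  have hr1 : r ≤ 1 := by rw [hr]; exact inv_le_one_of_one_le₀ (by linarith)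
  rw [← hτ]
  obtain ⟨A, hA⟩ : ∃ A : Set (EuclideanSpace ℝ (Fin (n + 1))), A = C ∩ closedBall w 1 := ⟨_, rfl⟩
  obtain ⟨T, hT⟩ : ∃ T : Set (EuclideanSpace ℝ (Fin (n + 1))),
      T = AffineMap.homothety w r '' A := ⟨_, rfl⟩
  have hAc : IsCompact A := by rw [hA]; exact hCc.inter_right isClosed_closedBall
  have hTc : IsCompact T := by
    rw [hT]
    exact hAc.image (AffineMap.homothety_continuous w r)
  have hconvA : Convex ℝ A := by rw [hA]; exact hconv.inter (convex_closedBall w 1)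
  have hwA : w ∈ A := by
    rw [hA]; exact ⟨hw, mem_closedBall_self zero_le_one⟩
  have hTA : T ⊆ A := by
    rw [hT]
    rintro _ ⟨a, ha, rfl⟩
    rw [AffineMap.homothety_apply]
    have h := hconvA hwA ha (by linarith : 0 ≤ 1 - r) hr0.le (by ring)
    have e : r • (a -ᵥ w) +ᵥ w = (1 - r) • w + r • a := by
      rw [vsub_eq_sub, vadd_eq_add, smul_sub, sub_smul, one_smul]; abel
    rw [e]
    exact h
  have hIA : Inn C τ w ⊆ A := by
    rintro x ⟨h1, h2, _⟩
    rw [hA]
    exact ⟨h1, by rw [mem_closedBall, dist_eq_norm]; exact h2⟩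
  have hdis : Disjoint (Inn C τ w) T := by
    rw [Set.disjoint_left]
    rintro x ⟨_, _, h3⟩ hx
    rw [hT] at hx
    obtain ⟨a, ha, rfl⟩ := hx
    apply h3
    rw [AffineMap.homothety_apply, vsub_eq_sub, vadd_eq_add, add_sub_cancel_right, smul_smul, hr,
      mul_inv_cancel₀ (by linarith : (1 : ℝ) + τ ≠ 0), one_smul, add_sub_cancel]
    rw [hA] at ha
    exact ha.1
  have hAfin : volume A ≠ ⊤ := hAc.measure_lt_top.ne
  have h1 : volume (Inn C τ w) + volume T ≤ volume A := by
    rw [← measure_union hdis hTc.measurableSet]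
    exact measure_mono (union_subset hIA hTA)
  have h2 : volume T = ENNReal.ofReal (r ^ (n + 1)) * volume A := by
    rw [hT, Measure.addHaar_image_homothety, finrank_euclideanSpace_fin,
      abs_of_nonneg (pow_nonneg hr0.le _)]
  have h3 : volume.real (Inn C τ w) + r ^ (n + 1) * volume.real A ≤ volume.real A := by
    have h4 := ENNReal.toReal_mono hAfin h1
    rw [ENNReal.toReal_add (ne_top_of_le_ne_top hAfin (measure_mono hIA))
      (ne_top_of_le_ne_top hAfin (measure_mono hTA)), h2, ENNReal.toReal_mul,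
      ENNReal.toReal_ofReal (by positivity)] at h4
    simpa only [measureReal_def] using h4
  have h5 : volume.real A ≤ kap (n + 1) := by
    have h6 : volume.real (closedBall w (1 : ℝ)) = kap (n + 1) := by
      unfold kap
      rw [measureReal_def, measureReal_def, Measure.addHaar_closedBall_center]
    rw [← h6]
    apply measureReal_mono _ measure_closedBall_lt_top.ne
    rw [hA]
    exact inter_subset_right
  have h7 : 1 - r ^ (n + 1) ≤ θ := by
    have := M7fAux.one_sub_inv_le (n := n) hθ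
    rw [hr, hτ, inv_pow]
    exact this
  have h8 : (1 - r ^ (n + 1)) * volume.real A ≤ θ * kap (n + 1) := by
    have h9 : 0 ≤ volume.real A := measureReal_nonneg
    calc (1 - r ^ (n + 1)) * volume.real A ≤ θ * volume.real A :=
          mul_le_mul_of_nonneg_right h7 h9
      _ ≤ θ * kap (n + 1) := mul_le_mul_of_nonneg_left h5 hθ.le
  linarith

end U7Aux

open U7Aux

/-- From a bound for pairs of centres to a bound for all coverings. -/
theorem pair_gap_gen (c θ : ℝ) (hc : 1 ≤ c) (hθ0 : 0 < θ) (hθ1 : θ ≤ 1) (d₁ : ℕ)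
    (hpair : ∀ n : ℕ, d₁ ≤ n →
    ∀ (C : Set (EuclideanSpace ℝ (Fin (n + 1)))), Convex ℝ C → IsCompact C →
    ∀ w ∈ C, ∀ w' ∈ C, w ≠ w' →
      volume.real (Inn C (θ / ((n : ℝ) + 1)) w ∩ {x | ‖x - w‖ ≤ ‖x - w'‖}) +
        volume.real (Inn C (θ / ((n : ℝ) + 1)) w' ∩ {x | ‖x - w'‖ ≤ ‖x - w‖}) ≤
      c * θ * kap (n + 1)) : ∃ d₀ : ℕ, ∀ n : ℕ, d₀ ≤ n →
    ∀ (C : Set (EuclideanSpace ℝ (Fin (n + 1)))) (X : Finset (EuclideanSpace ℝ (Fin (n + 1)))),
      Convex ℝ C → IsCompact C → C ⊆ ⋃ x ∈ X, closedBall x 1 → 2 ≤ X.card →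
      1 / (1 + θ) * volume.real C ≤ c / 2 * (X.card * kap (n + 1)) +
        θ / 2 * (X.card * kap (n + 1) + volume.real C) := by
  classical
  obtain ⟨d₂, hv⟩ := voronoi_sum4 (θ / 2) θ (by positivity) (by linarith) hθ0 hθ1
  refine ⟨max d₁ d₂, ?_⟩
  intro n hn C X hconv hCc hcov hk
  have hn1 : d₁ ≤ n := (le_max_left _ _).trans hn
  have hn2 : d₂ ≤ n := (le_max_right _ _).trans hn
  have hκ := kap_pos (n + 1)
  have hd0 : (0 : ℝ) < (n : ℝ) + 1 := by positivity
  rcases C.eq_empty_or_nonempty with hCe | hCne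
  · rw [hCe, measureReal_empty, mul_zero, add_zero]
    have h0 : 0 ≤ (X.card : ℝ) * kap (n + 1) := by positivity
    have h1 : 0 ≤ c / 2 := by linarith
    exact add_nonneg (mul_nonneg h1 h0) (mul_nonneg (by positivity) h0)
  obtain ⟨f, hf1, hf2⟩ := move_in C hconv hCc hCne
  obtain ⟨W, hW⟩ : ∃ W : Finset (EuclideanSpace ℝ (Fin (n + 1))), W = X.image f := ⟨_, rfl⟩
  have hWC : ∀ w ∈ W, w ∈ C := by
    intro w hw
    rw [hW] at hw
    obtain ⟨x, _, rfl⟩ := Finset.mem_image.mp hw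
    exact hf1 x
  have hcovW : C ⊆ ⋃ w ∈ W, closedBall w 1 := by
    intro x hx
    have h1 := hcov hx
    simp only [mem_iUnion] at h1 ⊢
    obtain ⟨w, hw, hxw⟩ := h1
    rw [mem_closedBall, dist_eq_norm] at hxw
    exact ⟨f w, by rw [hW]; exact Finset.mem_image_of_mem f hw,
      by rw [mem_closedBall, dist_eq_norm]; exact (hf2 w x hx).trans hxw⟩
  have hWcard : (W.card : ℝ) ≤ X.card := by
    rw [hW]; exact_mod_cast Finset.card_image_le
  have hV0 : 0 ≤ volume.real C := measureReal_nonneg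
  obtain ⟨S, hSW, hsum⟩ := hv n hn2 C W hconv hCc hWC hcovW
  have hScard : (S.card : ℝ) ≤ X.card :=
    le_trans (by exact_mod_cast Finset.card_le_card hSW) hWcard
  have hX2 : (2 : ℝ) ≤ X.card := by exact_mod_cast hk
  -- the left side
  have hleft : (θ / (1 + θ)) * volume.real C ≤
      (1 - ((1 + θ / ((n : ℝ) + 1)) ^ (n + 1))⁻¹) * volume.real C := by
    apply mul_le_mul_of_nonneg_right _ hV0
    have hb := one_add_mul_le_pow (a := θ / ((n : ℝ) + 1))
      (by have : 0 ≤ θ / ((n : ℝ) + 1) := by positivity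
          linarith) (n + 1)
    have h1 : ((n + 1 : ℕ) : ℝ) * (θ / ((n : ℝ) + 1)) = θ := by push_cast; field_simp
    rw [h1] at hb
    have h2 : ((1 + θ / ((n : ℝ) + 1)) ^ (n + 1))⁻¹ ≤ (1 + θ)⁻¹ :=
      inv_anti₀ (by linarith) hb
    have h3 : θ / (1 + θ) = 1 - (1 + θ)⁻¹ := by field_simp; ring
    rw [h3]
    linarith
  -- the cell sum
  have hfin : ∀ w : EuclideanSpace ℝ (Fin (n + 1)),
      volume (Inn C (θ / ((n : ℝ) + 1)) w) ≠ ⊤ := by
    intro w
    exact ne_top_of_le_ne_top hCc.measure_lt_top.ne (measure_mono (fun x hx => hx.1))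
  have hcell : ∑ w ∈ S, volume.real (Inn C (θ / ((n : ℝ) + 1)) w ∩ Vor S w) ≤
      X.card * (c / 2 * θ * kap (n + 1)) := by
    rcases Nat.lt_or_ge S.card 2 with hS | hS
    · -- at most one cell
      have h1 : ∑ w ∈ S, volume.real (Inn C (θ / ((n : ℝ) + 1)) w ∩ Vor S w) ≤
          ∑ w ∈ S, θ * kap (n + 1) := by
        apply Finset.sum_le_sum
        intro w hw
        refine (measureReal_mono inter_subset_left (hfin w)).trans ?_
        exact Inn_le C hconv hCc w (hWC w (hSW hw)) θ hθ0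
      rw [Finset.sum_const, nsmul_eq_mul] at h1
      have h2 : (S.card : ℝ) ≤ 1 := by exact_mod_cast (by omega : S.card ≤ 1)
      have h3 : 0 < θ * kap (n + 1) := by positivity
      calc _ ≤ (S.card : ℝ) * (θ * kap (n + 1)) := h1
        _ ≤ 1 * (θ * kap (n + 1)) := mul_le_mul_of_nonneg_right h2 h3.le
        _ ≤ 2 * (c / 2) * (θ * kap (n + 1)) :=
            mul_le_mul_of_nonneg_right (by linarith) h3.le
        _ ≤ X.card * (c / 2) * (θ * kap (n + 1)) :=
            mul_le_mul_of_nonneg_right (mul_le_mul_of_nonneg_right hX2 (by linarith)) h3.le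
        _ = _ := by ring
    · have h1 := sum_pairs S (fun w => volume.real (Inn C (θ / ((n : ℝ) + 1)) w ∩ Vor S w))
        (c * θ * kap (n + 1)) hS (by
          intro w hw w' hw' hne
          refine le_trans ?_ (hpair n hn1 C hconv hCc w (hWC w (hSW hw)) w' (hWC w' (hSW hw')) hne)
          apply add_le_add
          · apply measureReal_mono _
              (ne_top_of_le_ne_top (hfin w) (measure_mono inter_subset_left))
            exact fun x hx => ⟨hx.1, hx.2 w' hw'⟩
          · apply measureReal_mono _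
              (ne_top_of_le_ne_top (hfin w') (measure_mono inter_subset_left))
            exact fun x hx => ⟨hx.1, hx.2 w hw⟩)
      refine h1.trans ?_
      have h3 : 0 < θ * kap (n + 1) := by positivity
      calc (S.card : ℝ) * (c * θ * kap (n + 1) / 2)
          = S.card * (c / 2 * θ * kap (n + 1)) := by ring
        _ ≤ _ := mul_le_mul_of_nonneg_right hScard (by positivity)
  -- the numbers
  obtain ⟨K, hK⟩ : ∃ K : ℝ, K = X.card * kap (n + 1) := ⟨_, rfl⟩
  have hWK : (W.card : ℝ) * kap (n + 1) ≤ K := by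
    rw [hK]; exact mul_le_mul_of_nonneg_right hWcard hκ.le
  have h1 : θ / (1 + θ) * volume.real C ≤ c / 2 * θ * K +
      θ / 2 * θ * (K + volume.real C) := by
    have h2 : θ / 2 * θ * (W.card * kap (n + 1) + volume.real C) ≤
        θ / 2 * θ * (K + volume.real C) :=
      mul_le_mul_of_nonneg_left (by linarith) (by positivity)
    have h3 : (X.card : ℝ) * (c / 2 * θ * kap (n + 1)) = c / 2 * θ * K := by
      rw [hK]; ring
    linarith
  rw [← hK]
  have hK0 : 0 ≤ K := by rw [hK]; positivity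
  have h4 : 1 / (1 + θ) * volume.real C ≤ c / 2 * K + θ / 2 * (K + volume.real C) := by
    have h5 : θ * (1 / (1 + θ) * volume.real C) ≤
        θ * (c / 2 * K + θ / 2 * (K + volume.real C)) := by
      have e1 : θ * (1 / (1 + θ) * volume.real C) = θ / (1 + θ) * volume.real C := by ring
      rw [e1]
      linarith
    exact le_of_mul_le_mul_left h5 hθ0
  exact h4

end SA70
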